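import Mathlib

/-!
# QPC: definitions, part 1 (one separable closure of `F_p(X)`)
-/

set_option autoImplicit false

namespace Pool.Agent.QPC

open Polynomial

section fields

variable (p : ℕ) [Fact p.Prime] (Ω : Type) [Field Ω] [Algebra (RatFunc (ZMod p)) Ω]

/-- The inclusion of `F_p[X]` in `Ω`. -/
noncomputable def inc : (ZMod p)[X] →+* Ω :=
  (algebraMap (RatFunc (ZMod p)) Ω).comp (algebraMap (ZMod p)[X] (RatFunc (ZMod p)))

/-- The element `X` of `Ω`. -/
noncomputable def xx : Ω := inc p Ω X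

/-- The ring `Z` of elements of `Ω` integral over `F_p[X]`. -/
noncomputable def Zr : Subring Ω where
  carrier := {a | (inc p Ω).IsIntegralElem a}
  mul_mem' := fun ha hb => RingHom.IsIntegralElem.mul _ ha hb
  one_mem' := RingHom.isIntegralElem_one _
  add_mem' := fun ha hb => RingHom.IsIntegralElem.add _ ha hb
  zero_mem' := RingHom.isIntegralElem_zero _
  neg_mem' := fun ha => RingHom.IsIntegralElem.neg _ ha

/-- The constants: algebraic closure of `F_p` in `Ω`. -/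
def kk : Set Ω := {a | ∃ r : ℕ, 0 < r ∧ a ^ p ^ r = a}

/-- The Galois group of `Ω` over `F_p(X)`. -/
abbrev GG := Ω ≃ₐ[RatFunc (ZMod p)] Ω

variable {p Ω}

/-- Geometric elements: the automorphisms which fix the constants. -/
def Geo (g : GG p Ω) : Prop := ∀ a ∈ kk p Ω, g a = a

/-- Inert elements: for some prime `q` of `Z` they act trivially modulo `q`. -/
def Inert (g : GG p Ω) : Prop :=
  ∃ q : Ideal (Zr p Ω), q.IsPrime ∧ ∀ b : Zr p Ω, ∃ c ∈ q, ((c : Zr p Ω) : Ω) = g b - b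

variable (p Ω)

/-- A homomorphism with open kernel, trivial on inert elements. -/
structure Ad {H : Type} [Group H] (ρ : GG p Ω →* H) : Prop where
  fin : ∃ T : Finset Ω, ∀ g : GG p Ω, (∀ t ∈ T, g t = t) → ρ g = 1
  inert : ∀ g : GG p Ω, Inert g → ρ g = 1

/-- A realisation of the group `H`: unramified over the affine line, surjective, and every
element of `p`-power order is the image of a geometric element. -/
structure Rho {H : Type} [Group H] (ρ : GG p Ω →* H) : Prop extends Ad p Ω ρ where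
  surj : Function.Surjective ρ
  pel : ∀ a : H, (∃ r : ℕ, a ^ p ^ r = 1) → ∃ g : GG p Ω, Geo g ∧ ρ g = a

/-- The group `H` is realised. -/
def R (H : Type) [Group H] : Prop := ∃ ρ : GG p Ω →* H, Rho p Ω ρ

/-- The subgroup generated by the elements of `p`-power order. -/
def pg (p : ℕ) (G : Type) [Group G] : Subgroup G := Subgroup.closure {a | ∃ r : ℕ, a ^ p ^ r = 1}

/-- The elements of `Z` fixed by the kernel of `ρ`. -/
noncomputable def Zf {H : Type} [Group H] (ρ : GG p Ω →* H) : Subring Ω where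
  carrier := {b | b ∈ Zr p Ω ∧ ∀ g : GG p Ω, ρ g = 1 → g b = b}
  mul_mem' := fun {a b} ha hb => ⟨mul_mem ha.1 hb.1, fun g hg => by
    rw [map_mul, ha.2 g hg, hb.2 g hg]⟩
  one_mem' := ⟨one_mem _, fun g _ => map_one g⟩
  add_mem' := fun {a b} ha hb => ⟨add_mem ha.1 hb.1, fun g hg => by
    rw [map_add, ha.2 g hg, hb.2 g hg]⟩
  zero_mem' := ⟨zero_mem _, fun g _ => map_zero g⟩
  neg_mem' := fun {a} ha => ⟨neg_mem ha.1, fun g hg => by rw [map_neg, ha.2 g hg]⟩

/-- The elements of `Z` fixed by the geometric elements of the kernel of `ρ`. -/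
noncomputable def Zg {H : Type} [Group H] (ρ : GG p Ω →* H) : Subring Ω where
  carrier := {b | b ∈ Zr p Ω ∧ ∀ g : GG p Ω, Geo g → ρ g = 1 → g b = b}
  mul_mem' := fun {a b} ha hb => ⟨mul_mem ha.1 hb.1, fun g h1 hg => by
    rw [map_mul, ha.2 g h1 hg, hb.2 g h1 hg]⟩
  one_mem' := ⟨one_mem _, fun g _ _ => map_one g⟩
  add_mem' := fun {a b} ha hb => ⟨add_mem ha.1 hb.1, fun g h1 hg => by
    rw [map_add, ha.2 g h1 hg, hb.2 g h1 hg]⟩
  zero_mem' := ⟨zero_mem _, fun g _ _ => map_zero g⟩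
  neg_mem' := fun {a} ha => ⟨neg_mem ha.1, fun g h1 hg => by rw [map_neg, ha.2 g h1 hg]⟩

theorem om_charP : CharP Ω p := by
  haveI : CharP (RatFunc (ZMod p)) p := inferInstance
  exact charP_of_injective_algebraMap (algebraMap (RatFunc (ZMod p)) Ω).injective p

/-- The constants as a subfield. -/
def kF : Subfield Ω where
  carrier := kk p Ω
  mul_mem' := by
    rintro a b ⟨r, hr, ha⟩ ⟨s, hs, hb⟩
    refine ⟨r * s, Nat.mul_pos hr hs, ?_⟩
    have key : ∀ (x : Ω) (u v : ℕ), x ^ p ^ u = x → x ^ p ^ (u * v) = x := by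
      intro x u v hx
      induction v with
      | zero => simp
      | succ v ih => rw [Nat.mul_succ, pow_add, pow_mul, ih, hx]
    rw [mul_pow, key a r s ha, mul_comm r s, key b s r hb]
  one_mem' := ⟨1, one_pos, one_pow _⟩
  add_mem' := by
    haveI := om_charP p Ω
    rintro a b ⟨r, hr, ha⟩ ⟨s, hs, hb⟩
    refine ⟨r * s, Nat.mul_pos hr hs, ?_⟩
    have key : ∀ (x : Ω) (u v : ℕ), x ^ p ^ u = x → x ^ p ^ (u * v) = x := by
      intro x u v hx
      induction v with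
      | zero => simp
      | succ v ih => rw [Nat.mul_succ, pow_add, pow_mul, ih, hx]
    rw [add_pow_char_pow, key a r s ha, mul_comm r s, key b s r hb]
  zero_mem' := ⟨1, one_pos, zero_pow (pow_pos (Fact.out : p.Prime).pos 1).ne'⟩
  neg_mem' := by
    haveI := om_charP p Ω
    rintro a ⟨r, hr, ha⟩
    refine ⟨r, hr, ?_⟩
    have h : (0 - a) ^ p ^ r = 0 ^ p ^ r - a ^ p ^ r := sub_pow_char_pow ..
    rw [zero_pow (pow_pos (Fact.out : p.Prime).pos r).ne', ha] at h
    simpa using h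
  inv_mem' := by
    rintro a ⟨r, hr, ha⟩
    exact ⟨r, hr, by rw [inv_pow, ha]⟩

theorem mem_kF (a : Ω) : a ∈ kF p Ω ↔ ∃ r : ℕ, 0 < r ∧ a ^ p ^ r = a := Iff.rfl

instance kF_charP : CharP (kF p Ω) p := by
  haveI := om_charP p Ω
  exact (RingHom.charP_iff (kF p Ω).subtype (kF p Ω).subtype.injective p).mpr inferInstance

/-- The inclusion of `k[X]` in `Ω`. -/
noncomputable def inck : (kF p Ω)[X] →+* Ω :=
  Polynomial.eval₂RingHom (kF p Ω).subtype (xx p Ω)

variable {p Ω}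

theorem gal_inc (g : GG p Ω) (P : (ZMod p)[X]) : g (inc p Ω P) = inc p Ω P := by
  simp [inc]

theorem gal_xx (g : GG p Ω) : g (xx p Ω) = xx p Ω := gal_inc g X

theorem gal_Zr (g : GG p Ω) {b : Ω} (hb : b ∈ Zr p Ω) : g b ∈ Zr p Ω := by
  obtain ⟨P, hP, hb⟩ := hb
  refine ⟨P, hP, ?_⟩
  have h1 : ((g : Ω ≃+* Ω) : Ω →+* Ω).comp (inc p Ω) = inc p Ω :=
    RingHom.ext fun P => gal_inc g P
  have h2 := congrArg g hb
  rw [map_zero] at h2
  rw [← h2]
  have h3 := Polynomial.hom_eval₂ P (inc p Ω) ((g : Ω ≃+* Ω) : Ω →+* Ω) b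
  rw [h1] at h3
  exact h3.symm

theorem gal_Zf {H : Type} [Group H] (ρ : GG p Ω →* H) (g : GG p Ω) {b : Ω} (hb : b ∈ Zf p Ω ρ) :
    g b ∈ Zf p Ω ρ := by
  refine ⟨gal_Zr g hb.1, fun h hh => ?_⟩
  have h1 : ρ (g⁻¹ * h * g) = 1 := by simp [hh]
  have h2 := hb.2 _ h1
  have h3 : (g⁻¹ * h * g) b = g⁻¹ (h (g b)) := rfl
  rw [h3] at h2
  have h4 := congrArg g h2
  have h5 : g (g⁻¹ (h (g b))) = h (g b) := by
    change (g * g⁻¹) (h (g b)) = _
    rw [mul_inv_cancel]; rfl
  rw [h5] at h4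
  exact h4

theorem Geo.mul {g h : GG p Ω} (hg : Geo g) (hh : Geo h) : Geo (g * h) := fun a ha => by
  change g (h a) = a
  rw [hh a ha, hg a ha]

theorem Geo.inv {g : GG p Ω} (hg : Geo g) : Geo g⁻¹ := fun a ha => by
  have h := hg a ha
  have h1 : g⁻¹ (g a) = a := by
    change (g⁻¹ * g) a = a
    rw [inv_mul_cancel]; rfl
  rw [h] at h1
  exact h1

theorem gal_kk (g : GG p Ω) {a : Ω} (ha : a ∈ kk p Ω) : g a ∈ kk p Ω := by
  obtain ⟨r, hr, h⟩ := ha
  exact ⟨r, hr, by rw [← map_pow, h]⟩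

theorem Geo.conj {h : GG p Ω} (hh : Geo h) (g : GG p Ω) : Geo (g⁻¹ * h * g) := fun a ha => by
  change g⁻¹ (h (g a)) = a
  rw [hh _ (gal_kk g ha)]
  change (g⁻¹ * g) a = a
  rw [inv_mul_cancel]; rfl

end fields

end Pool.Agent.QPC
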