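import Mathlib
import Pool.Agent.QPC.Defs
import Pool.Agent.QPG.Defs

/-!
# QPC: definitions, part 3 (linking and descent)
-/

set_option autoImplicit false

namespace Pool.Agent.QPC

open Polynomial

/-- The trace sum `x + x^p + ... + x^(p^(r-1))`. -/
def zz (p r : ℕ) {Ω : Type} [Field Ω] (x : Ω) : Ω := ∑ i ∈ Finset.range r, x ^ p ^ i

theorem zz_add (p r : ℕ) [Fact p.Prime] {Ω : Type} [Field Ω] [CharP Ω p] (x y : Ω) :
    zz p r (x + y) = zz p r x + zz p r y := by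
  simp only [zz, ← Finset.sum_add_distrib]
  exact Finset.sum_congr rfl fun i _ => add_pow_char_pow ..

theorem zz_zero (p r : ℕ) [Fact p.Prime] {Ω : Type} [Field Ω] : zz p r (0 : Ω) = 0 := by
  simp only [zz]
  exact Finset.sum_eq_zero fun i _ => zero_pow (pow_pos (Fact.out : p.Prime).pos i).ne'

theorem zz_map (p r : ℕ) {Ω : Type} [Field Ω] (g : Ω →+* Ω) (x : Ω) :
    g (zz p r x) = zz p r (g x) := by
  simp only [zz, map_sum, map_pow]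

theorem zz_frob (p r : ℕ) [Fact p.Prime] {Ω : Type} [Field Ω] [CharP Ω p] (x : Ω) :
    zz p r x ^ p - zz p r x = x ^ p ^ r - x := by
  have h1 : zz p r x ^ p = ∑ i ∈ Finset.range r, x ^ p ^ (i + 1) := by
    simp only [zz]
    rw [sum_pow_char]
    exact Finset.sum_congr rfl fun i _ => by rw [← pow_mul, ← pow_succ]
  rw [h1, zz]
  have h2 := Finset.sum_range_succ (fun i => x ^ p ^ i) r
  have h3 := Finset.sum_range_succ' (fun i => x ^ p ^ i) r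
  rw [h2] at h3
  simp only [pow_zero, pow_one] at h3
  linear_combination -h3

/-- `(c x)` with `c` in the prime field. -/
theorem zz_smul (p r : ℕ) [Fact p.Prime] {Ω : Type} [Field Ω] [CharP Ω p] (c x : Ω)
    (hc : c ^ p = c) : zz p r (c * x) = c * zz p r x := by
  simp only [zz, Finset.mul_sum]
  have h1 : ∀ i : ℕ, c ^ p ^ i = c := by
    intro i
    induction i with
    | zero => simp
    | succ i ih => rw [pow_succ, pow_mul, ih, hc]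
  exact Finset.sum_congr rfl fun i _ => by rw [mul_pow, h1]

section fields

variable (p : ℕ) [Fact p.Prime] (Ω : Type) [Field Ω] [Algebra (RatFunc (ZMod p)) Ω]

theorem map_inc_of {t : Ω →+* Ω} (h : t (xx p Ω) = xx p Ω) (P : (ZMod p)[X]) :
    t (inc p Ω P) = inc p Ω P := by
  have h1 : t.comp (inc p Ω) = inc p Ω := by
    apply Polynomial.ringHom_ext
    · intro c
      have : (t.comp (inc p Ω)).comp (C : ZMod p →+* (ZMod p)[X]) = (inc p Ω).comp C :=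
        Subsingleton.elim _ _
      exact congrArg (fun f : ZMod p →+* Ω => f c) this
    · exact h
  exact congrArg (fun f : (ZMod p)[X] →+* Ω => f P) h1

theorem map_algebraMap_of {t : Ω →+* Ω} (h : t (xx p Ω) = xx p Ω) (y : RatFunc (ZMod p)) :
    t (algebraMap _ Ω y) = algebraMap _ Ω y := by
  obtain ⟨P, Q, hQ, rfl⟩ := IsFractionRing.div_surjective (A := (ZMod p)[X]) y
  rw [map_div₀, map_div₀]
  have h1 := map_inc_of p Ω h P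
  have h2 := map_inc_of p Ω h Q
  rw [inc, RingHom.comp_apply] at h1 h2
  rw [h1, h2]

/-- A ring automorphism fixing `X` as an element of the Galois group. -/
noncomputable def toGG (t : Ω ≃+* Ω) (h : t (xx p Ω) = xx p Ω) : GG p Ω :=
  AlgEquiv.ofRingEquiv (f := t) (fun y => map_algebraMap_of p Ω (t := (t : Ω →+* Ω)) h y)

theorem toGG_apply (t : Ω ≃+* Ω) (h : t (xx p Ω) = xx p Ω) (x : Ω) : toGG p Ω t h x = t x := rfl

variable {Ω} in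
/-- Automorphisms `Ψ` of `Ω`, identity on the constants, preserving `Z`, with `Ψ X ∈ F_p[X]`. -/
structure PsiOK (Ψ : Ω ≃+* Ω) : Prop where
  kk : ∀ a ∈ kk p Ω, Ψ a = a
  xx : ∃ P : (ZMod p)[X], Ψ (xx p Ω) = inc p Ω P
  Z : ∀ a ∈ Zr p Ω, Ψ a ∈ Zr p Ω
  Z' : ∀ a ∈ Zr p Ω, Ψ.symm a ∈ Zr p Ω

variable {p Ω}

theorem PsiOK.kk' {Ψ : Ω ≃+* Ω} (h : PsiOK p Ψ) {a : Ω} (ha : a ∈ QPC.kk p Ω) :
    Ψ.symm a = a := by
  rw [RingEquiv.symm_apply_eq]; exact (h.kk a ha).symm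

/-- `g ↦ Ψ⁻¹ g Ψ`. -/
noncomputable def cj {Ψ : Ω ≃+* Ω} (h : PsiOK p Ψ) : GG p Ω →* GG p Ω where
  toFun g := toGG p Ω ((Ψ.trans (g : Ω ≃+* Ω)).trans Ψ.symm) (by
    obtain ⟨P, hP⟩ := h.xx
    change Ψ.symm (g (Ψ (xx p Ω))) = xx p Ω
    rw [hP, gal_inc, ← hP, RingEquiv.symm_apply_apply])
  map_one' := by
    ext x
    change Ψ.symm (Ψ x) = x
    rw [RingEquiv.symm_apply_apply]
  map_mul' g g' := by
    ext x
    change Ψ.symm (g (g' (Ψ x))) = Ψ.symm (g (Ψ (Ψ.symm (g' (Ψ x)))))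
    rw [RingEquiv.apply_symm_apply]

theorem cj_apply {Ψ : Ω ≃+* Ω} (h : PsiOK p Ψ) (g : GG p Ω) (x : Ω) :
    cj h g x = Ψ.symm (g (Ψ x)) := rfl

theorem Psi_cj {Ψ : Ω ≃+* Ω} (h : PsiOK p Ψ) (g : GG p Ω) (x : Ω) :
    Ψ (cj h g x) = g (Ψ x) := by
  rw [cj_apply, RingEquiv.apply_symm_apply]

theorem cj_fix {Ψ : Ω ≃+* Ω} (h : PsiOK p Ψ) (g : GG p Ω) {a : Ω} (ha : a ∈ kk p Ω) :
    cj h g a = g a := by
  rw [cj_apply, h.kk a ha, h.kk' (gal_kk g ha)]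

theorem Geo.cj {Ψ : Ω ≃+* Ω} (h : PsiOK p Ψ) {g : GG p Ω} (hg : Geo g) : Geo (cj h g) :=
  fun a ha => by rw [cj_fix h g ha, hg a ha]

theorem Inert.cj {Ψ : Ω ≃+* Ω} (h : PsiOK p Ψ) {g : GG p Ω} (hg : Inert g) :
    Inert (cj h g) := by
  obtain ⟨q, hq, hg⟩ := hg
  let f : Zr p Ω →+* Zr p Ω :=
    { toFun := fun a => ⟨Ψ a, h.Z a a.2⟩
      map_one' := Subtype.ext (map_one Ψ)
      map_mul' := fun a b => Subtype.ext (map_mul Ψ _ _)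
      map_zero' := Subtype.ext (map_zero Ψ)
      map_add' := fun a b => Subtype.ext (map_add Ψ _ _) }
  refine ⟨q.comap f, Ideal.comap_isPrime f q, fun b => ?_⟩
  obtain ⟨c, hc, h1⟩ := hg (f b)
  refine ⟨⟨Ψ.symm c, h.Z' c c.2⟩, ?_, ?_⟩
  · rw [Ideal.mem_comap]
    have : f ⟨Ψ.symm c, h.Z' c c.2⟩ = c := Subtype.ext (RingEquiv.apply_symm_apply Ψ _)
    rw [this]; exact hc
  · change Ψ.symm c = _
    rw [h1, map_sub, cj_apply]
    congr 1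
    exact RingEquiv.symm_apply_apply Ψ _

theorem Ad.cj {H : Type} [Group H] {ρ : GG p Ω →* H} (hρ : Ad p Ω ρ) {Ψ : Ω ≃+* Ω}
    (h : PsiOK p Ψ) : Ad p Ω (ρ.comp (cj h)) where
  fin := by
    classical
    obtain ⟨T, hT⟩ := hρ.fin
    refine ⟨T.image Ψ, fun g hg => ?_⟩
    rw [MonoidHom.comp_apply]
    refine hT _ fun t ht => ?_
    rw [cj_apply, hg _ (Finset.mem_image_of_mem _ ht), RingEquiv.symm_apply_apply]
  inert g hg := hρ.inert _ (hg.cj h)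

variable (p Ω)

/-- `inck` with values in `Zg`. -/
theorem inck_mem_Zr (P : (kF p Ω)[X]) : inck p Ω P ∈ Zr p Ω := by
  have hx : xx p Ω ∈ Zr p Ω := ⟨X - C X, monic_X_sub_C _, by simp [xx]⟩
  have hc : ∀ a : kF p Ω, (a : Ω) ∈ Zr p Ω := by
    intro a
    obtain ⟨r, hr, ha⟩ := a.2
    have h1 : 1 < p ^ r := Nat.one_lt_pow hr.ne' (Fact.out : p.Prime).one_lt
    refine ⟨X ^ p ^ r - X, monic_X_pow_sub (by rw [degree_X]; exact_mod_cast h1), ?_⟩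
    rw [eval₂_sub, eval₂_pow, eval₂_X, ha, sub_self]
  have : inck p Ω P = ∑ i ∈ Finset.range (P.natDegree + 1), (P.coeff i : Ω) * xx p Ω ^ i := by
    change P.eval₂ _ _ = _
    rw [eval₂_eq_sum_range]; rfl
  rw [this]
  exact sum_mem fun i _ => mul_mem (hc _) (pow_mem hx _)

theorem inck_fix {g : GG p Ω} (hg : Geo g) (P : (kF p Ω)[X]) : g (inck p Ω P) = inck p Ω P := by
  have : inck p Ω P = ∑ i ∈ Finset.range (P.natDegree + 1), (P.coeff i : Ω) * xx p Ω ^ i := by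
    change P.eval₂ _ _ = _
    rw [eval₂_eq_sum_range]; rfl
  rw [this, map_sum]
  refine Finset.sum_congr rfl fun i _ => ?_
  rw [map_mul, map_pow, gal_xx, hg _ (P.coeff i).2]

variable {H : Type} [Group H] (ρ : GG p Ω →* H)

/-- The structure map of the algebra `Zg p Ω ρ` over `k[X]`. -/
noncomputable def inckg : (kF p Ω)[X] →+* Zg p Ω ρ :=
  (inck p Ω).codRestrict (Zg p Ω ρ) fun P => ⟨inck_mem_Zr p Ω P, fun _ h _ => inck_fix p Ω h P⟩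

noncomputable instance algZg : Algebra (kF p Ω)[X] (Zg p Ω ρ) := (inckg p Ω ρ).toAlgebra

theorem algZg_coe (P : (kF p Ω)[X]) :
    ((algebraMap (kF p Ω)[X] (Zg p Ω ρ) P : Zg p Ω ρ) : Ω) = inck p Ω P := rfl

/-- The image of the geometric elements. -/
def Gb : Subgroup H where
  carrier := {a | ∃ g : GG p Ω, Geo g ∧ ρ g = a}
  mul_mem' := by
    rintro a b ⟨g, hg, rfl⟩ ⟨g', hg', rfl⟩
    exact ⟨g * g', hg.mul hg', map_mul ρ g g'⟩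
  one_mem' := ⟨1, fun _ _ => rfl, map_one ρ⟩
  inv_mem' := by
    rintro a ⟨g, hg, rfl⟩
    exact ⟨g⁻¹, hg.inv, map_inv ρ g⟩

variable {p Ω}

/-- A geometric lift. -/
noncomputable def lft (a : Gb p Ω ρ) : GG p Ω := a.2.choose

theorem lft_geo (a : Gb p Ω ρ) : Geo (lft ρ a) := a.2.choose_spec.1

theorem lft_rho (a : Gb p Ω ρ) : ρ (lft ρ a) = a := a.2.choose_spec.2

theorem gal_Zg {g : GG p Ω} (hg : Geo g) {b : Ω} (hb : b ∈ Zg p Ω ρ) : g b ∈ Zg p Ω ρ := by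
  refine ⟨gal_Zr g hb.1, fun h h0 hh => ?_⟩
  have h1 : ρ (g⁻¹ * h * g) = 1 := by simp [hh]
  have h2 := hb.2 _ (h0.conj g) h1
  have h3 : (g⁻¹ * h * g) b = g⁻¹ (h (g b)) := rfl
  rw [h3] at h2
  have h4 := congrArg g h2
  have h5 : g (g⁻¹ (h (g b))) = h (g b) := by
    change (g * g⁻¹) (h (g b)) = _
    rw [mul_inv_cancel]; rfl
  rw [h5] at h4
  exact h4

theorem Zg_eq {g g' : GG p Ω} (hg : Geo g) (hg' : Geo g') (h : ρ g = ρ g') {b : Ω}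
    (hb : b ∈ Zg p Ω ρ) : g b = g' b := by
  have h1 : ρ (g'⁻¹ * g) = 1 := by rw [map_mul, map_inv, h, inv_mul_cancel]
  have h2 := hb.2 _ (hg'.inv.mul hg) h1
  have h3 : (g'⁻¹ * g) b = g'⁻¹ (g b) := rfl
  rw [h3] at h2
  have h4 := congrArg g' h2
  have h5 : g' (g'⁻¹ (g b)) = g b := by
    change (g' * g'⁻¹) (g b) = _
    rw [mul_inv_cancel]; rfl
  rw [h5] at h4
  exact h4

noncomputable instance actZg : MulSemiringAction (Gb p Ω ρ) (Zg p Ω ρ) where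
  smul a b := ⟨lft ρ a b, gal_Zg ρ (lft_geo ρ a) b.2⟩
  one_smul b := Subtype.ext (by
    change lft ρ 1 (b : Ω) = b
    exact b.2.2 _ (lft_geo ρ 1) (lft_rho ρ 1))
  mul_smul a a' b := Subtype.ext (by
    change lft ρ (a * a') (b : Ω) = (lft ρ a * lft ρ a') b
    refine Zg_eq ρ (lft_geo ρ _) ((lft_geo ρ a).mul (lft_geo ρ a')) ?_ b.2
    rw [lft_rho, map_mul, lft_rho, lft_rho]; rfl)
  smul_zero a := Subtype.ext (map_zero (lft ρ a))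
  smul_add a b b' := Subtype.ext (map_add (lft ρ a) _ _)
  smul_one a := Subtype.ext (map_one (lft ρ a))
  smul_mul a b b' := Subtype.ext (map_mul (lft ρ a) _ _)

theorem actZg_coe (a : Gb p Ω ρ) (b : Zg p Ω ρ) {g : GG p Ω} (hg : Geo g) (h : ρ g = a) :
    ((a • b : Zg p Ω ρ) : Ω) = g b :=
  Zg_eq ρ (lft_geo ρ a) hg (by rw [lft_rho, h]) b.2

instance commZg : SMulCommClass (Gb p Ω ρ) (kF p Ω)[X] (Zg p Ω ρ) where
  smul_comm a P b := Subtype.ext (by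
    change lft ρ a (inck p Ω P * b) = inck p Ω P * lft ρ a b
    rw [map_mul, inck_fix p Ω (lft_geo ρ a)])

theorem kk_Zr {a : Ω} (ha : a ∈ kk p Ω) : a ∈ Zr p Ω := by
  obtain ⟨r, hr, ha⟩ := ha
  have h1 : 1 < p ^ r := Nat.one_lt_pow hr.ne' (Fact.out : p.Prime).one_lt
  refine ⟨X ^ p ^ r - X, monic_X_pow_sub (by rw [degree_X]; exact_mod_cast h1), ?_⟩
  rw [eval₂_sub, eval₂_pow, eval₂_X, ha, sub_self]

theorem mem_kk {r : ℕ} (hr : 0 < r) {a : Ω} (ha : a ^ p ^ r = a) : a ∈ kk p Ω := ⟨r, hr, ha⟩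

/-- The elements of the Galois group which fix the constants of degree `p^r` and have trivial
image under `ρb ∘ cj`. -/
noncomputable def N0 {Hb : Type} [Group Hb] (ρb : GG p Ω →* Hb) (r : ℕ) {Ψ : Ω ≃+* Ω}
    (hΨ : PsiOK p Ψ) : Subgroup (GG p Ω) where
  carrier := {g | (∀ x : Ω, x ^ p ^ r = x → g x = x) ∧ ρb (cj hΨ g) = 1}
  mul_mem' := by
    rintro g g' ⟨h1, h2⟩ ⟨h3, h4⟩
    exact ⟨fun x hx => by rw [AlgEquiv.mul_apply, h3 x hx, h1 x hx], by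
      rw [map_mul, map_mul, h2, h4, one_mul]⟩
  one_mem' := ⟨fun _ _ => rfl, by rw [map_one, map_one]⟩
  inv_mem' := by
    rintro g ⟨h1, h2⟩
    refine ⟨fun x hx => ?_, by rw [map_inv, map_inv, h2, inv_one]⟩
    have h3 : g⁻¹ (g x) = x := by
      change (g⁻¹ * g) x = x
      rw [inv_mul_cancel]; rfl
    rwa [h1 x hx] at h3

instance N0_normal {Hb : Type} [Group Hb] (ρb : GG p Ω →* Hb) (r : ℕ) {Ψ : Ω ≃+* Ω}
    (hΨ : PsiOK p Ψ) : (N0 ρb r hΨ).Normal where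
  conj_mem := by
    rintro g ⟨h1, h2⟩ c
    refine ⟨fun x hx => ?_, by rw [map_mul, map_mul, map_mul, map_mul, h2, mul_one, map_inv,
      map_inv, mul_inv_cancel]⟩
    have h4 : (c⁻¹ x) ^ p ^ r = c⁻¹ x := by rw [← map_pow, hx]
    have h5 : (c * g * c⁻¹) x = c (g (c⁻¹ x)) := rfl
    rw [h5, h1 _ h4]
    change (c * c⁻¹) x = x
    rw [mul_inv_cancel]; rfl

/-- A translation: `t = Ψ g Ψ⁻¹` with `g` geometric in the kernel of `ρ`, and `t X = X + a`. -/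
structure IsT (Ψ : Ω ≃+* Ω) (a : Ω) (t : Ω ≃+* Ω) : Prop where
  ex : ∃ g : GG p Ω, Geo g ∧ ρ g = 1 ∧ ∀ x, t x = Ψ (g (Ψ.symm x))
  tx : t (xx p Ω) = xx p Ω + a

/-- The geometric input of the descent, inside `Ω`. -/
structure GO {Hb : Type} [Group Hb] (ρb : GG p Ω →* Hb) (ℓ e r : ℕ) (b ζ F : Ω) (Ψ : Ω ≃+* Ω)
    (hΨ : PsiOK p Ψ) : Prop where
  r_pos : 0 < r
  b_mem : b ^ p ^ r = b
  b_ne : b ≠ 0
  b_gen : ∀ c : GG p Ω, c (b ^ (p - 1)) = b ^ (p - 1) → ∀ x, x ^ p ^ r = x → c x = x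
  z_prim : IsPrimitiveRoot ζ (ℓ ^ e)
  z_mem : ζ ^ p ^ r = ζ
  Psi_xx : Ψ (xx p Ω) = (xx p Ω ^ p ^ r - xx p Ω) ^ ℓ ^ e
  trans : ∀ w : Ω, (w ^ p ^ r - w) ^ ℓ ^ e = xx p Ω →
    ∃ g : GG p Ω, Geo g ∧ ρ g = 1 ∧ g (Ψ.symm (xx p Ω)) = w
  geo : ∀ c : GG p Ω, (∀ x, x ^ p ^ r = x → c x = x) → ∃ g : GG p Ω, Geo g ∧ ρb g = ρb c
  F_int : F ∈ Zr p Ω
  F_ne : F ≠ 0
  F_fix : ∀ g ∈ N0 ρb r hΨ, g F = F
  F_T : ∀ (c : GG p Ω) (a : Ω) (t : Ω ≃+* Ω), a ^ p ^ r = a → IsT ρ Ψ a t →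
    zz p r (c b * a) = 0 → t (c F) = c F
  cert : ∀ q : Ideal (Zr p Ω), q.IsPrime → ∃ a u : Zr p Ω, (a : Ω) ^ ℓ ^ e = F * u ∧ u ∉ q ∧
    ∀ g : GG p Ω, Geo g → ρb (cj hΨ g) = 1 → g a = a
  nonpow : ∀ [Fintype (Gb p Ω ρb)] (ν : Gb p Ω ρb → ℕ), (∀ γ, ν γ < ℓ) →
    (∃ γ γ', ν γ ≠ ν γ') →
    ∀ σ : Gb p Ω ρb → GG p Ω, (∀ γ, Geo (σ γ) ∧ ρb (cj hΨ (σ γ)) = γ) →
    ∀ (a : Ω) (t : Ω ≃+* Ω), a ^ p ^ r = a → IsT ρ Ψ a t → zz p r (b * a) = 1 →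
    ∀ y ∈ Zr p Ω, (∀ g : GG p Ω, Geo g → ρb (cj hΨ g) = 1 → g y = y) →
    (∀ (a' : Ω) (t' : Ω ≃+* Ω), a' ^ p ^ r = a' → IsT ρ Ψ a' t' → zz p r (b * a') = 0 →
      t' y = y) →
    y ^ ℓ ≠ (∏ γ, σ γ F ^ ν γ) * (t (∏ γ, σ γ F ^ ν γ)) ^ (ℓ - 1)

end fields

end Pool.Agent.QPC
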