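import Mathlib
import Pool.Agent.QPC.Defs

/-!
# QPC row F1: the constants `k` of `Ω`
Plan. `kk p Ω = {a | ∃ r > 0, a^(p^r) = a}`. `om_charP` gives `CharP Ω p`.
* `F1b` (elements algebraic over `kF` are in `kF`): the finitely many coefficients of `P` are in a
  common finite subfield `{a | a^(p^r) = a}` (take a common multiple of the exponents; it is finite as
  the roots of `T^(p^r) - T`), so `a` lies in a finite field extension of a finite field, hence in a
  finite subring of `Ω` without zero divisors, hence `a^(p^s) = a` for some `s > 0`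
  (`FiniteField.pow_card`, the cardinality is a power of `p`).
* `F1` `kF` is algebraically closed: it is perfect (`a = (a^(p^(r-1)))^p`), so every irreducible
  polynomial over it is separable, has a root in the separably closed field `Ω` (`IsSepClosed.exists_root`
  or `exists_eval₂_eq_zero`), and the root is in `kF` by `F1b`. Use `IsAlgClosed.of_exists_root`.
* `F1c` `inck` is injective: if `P ≠ 0` and `inck P = 0` then `xx` is in `kF` by `F1b`, so
  `xx^(p^r) = xx`, so `X^(p^r) = X` in `F_p[X]` (the map `inc` is injective), contradiction.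
-/

set_option autoImplicit false

namespace Pool.Agent.QPC

open Polynomial

theorem f1_fin (p : ℕ) [Fact p.Prime] (E : Type) [Field E] [Algebra (ZMod p) E] (a : E)
    (ha : IsIntegral (ZMod p) a) : ∃ s : ℕ, 0 < s ∧ a ^ p ^ s = a := by
  classical
  have h1 : FiniteDimensional (ZMod p) (IntermediateField.adjoin (ZMod p) ({a} : Set E)) :=
    IntermediateField.adjoin.finiteDimensional ha
  have h2 : Finite (IntermediateField.adjoin (ZMod p) ({a} : Set E)) :=
    Module.finite_of_finite (ZMod p)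
  have h3 : Fintype (IntermediateField.adjoin (ZMod p) ({a} : Set E)) := Fintype.ofFinite _
  have h4 : CharP (IntermediateField.adjoin (ZMod p) ({a} : Set E)) p :=
    charP_of_injective_algebraMap (algebraMap (ZMod p) _).injective p
  obtain ⟨n, _, hn⟩ := FiniteField.card (IntermediateField.adjoin (ZMod p) ({a} : Set E)) p
  refine ⟨n, n.2, ?_⟩
  have h5 := FiniteField.pow_card (⟨a, IntermediateField.mem_adjoin_simple_self (ZMod p) a⟩ :
    IntermediateField.adjoin (ZMod p) ({a} : Set E))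
  rw [hn] at h5
  have h6 := congrArg (fun x : IntermediateField.adjoin (ZMod p) ({a} : Set E) => (x : E)) h5
  simpa using h6

theorem f1_int (p : ℕ) [Fact p.Prime] (E : Type) [Field E] [Algebra (ZMod p) E] (a : E)
    (ha : ∃ s : ℕ, 0 < s ∧ a ^ p ^ s = a) : IsIntegral (ZMod p) a := by
  obtain ⟨s, hs, h⟩ := ha
  have hp : 1 < p ^ s := Nat.one_lt_pow hs.ne' (Fact.out : p.Prime).one_lt
  refine ⟨X ^ p ^ s - X, ?_, ?_⟩
  · exact monic_X_pow_sub (by rw [degree_X]; exact_mod_cast hp)
  · simp [h]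

theorem f1_tr (p : ℕ) [Fact p.Prime] (K E : Type) [Field K] [Field E] [CharP K p] [CharP E p] (f : K →+* E)
    (hK : ∀ x : K, ∃ s : ℕ, 0 < s ∧ x ^ p ^ s = x) (a : E) (P : K[X]) (hP : P ≠ 0) (h : P.eval₂ f a = 0) :
    ∃ s : ℕ, 0 < s ∧ a ^ p ^ s = a := by
  let _ := f.toAlgebra
  let _ := ZMod.algebra E p
  let _ := ZMod.algebra K p
  have : IsScalarTower (ZMod p) K E := by
    apply IsScalarTower.of_algebraMap_eq'
    exact RingHom.ext_zmod _ _
  have : Algebra.IsAlgebraic (ZMod p) K := by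
    constructor
    intro x
    exact (f1_int p K x (hK x)).isAlgebraic
  have h1 : IsAlgebraic K a := ⟨P, hP, h⟩
  have h2 : IsAlgebraic (ZMod p) a := h1.restrictScalars (ZMod p)
  exact f1_fin p E a h2.isIntegral

variable (p : ℕ) [Fact p.Prime] (Ω : Type) [Field Ω] [Algebra (RatFunc (ZMod p)) Ω]
  [IsSepClosed Ω] [Algebra.IsSeparable (RatFunc (ZMod p)) Ω]

omit [IsSepClosed Ω] [Algebra.IsSeparable (RatFunc (ZMod p)) Ω] in
theorem f1_b (a : Ω) (P : (kF p Ω)[X]) (hP : P ≠ 0) (h : P.eval₂ (kF p Ω).subtype a = 0) :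
    a ∈ kF p Ω := by
  have := om_charP p Ω
  refine (mem_kF p Ω a).2 (f1_tr p (kF p Ω) Ω (kF p Ω).subtype ?_ a P hP h)
  intro x
  obtain ⟨r, hr, hx⟩ := (mem_kF p Ω (x : Ω)).1 x.2
  exact ⟨r, hr, Subtype.ext hx⟩

theorem F1b (a : Ω) (P : (kF p Ω)[X]) (hP : P ≠ 0) (h : P.eval₂ (kF p Ω).subtype a = 0) :
    a ∈ kF p Ω := f1_b p Ω a P hP h

theorem F1 : IsAlgClosed (kF p Ω) := by
  have : ExpChar (kF p Ω) p := ExpChar.prime Fact.out
  have : PerfectRing (kF p Ω) p := by
    apply PerfectRing.ofSurjective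
    intro x
    obtain ⟨r, hr, hx⟩ := (mem_kF p Ω (x : Ω)).1 x.2
    refine ⟨x ^ p ^ (r - 1), ?_⟩
    rw [frobenius_def, ← pow_mul, ← pow_succ, Nat.sub_add_cancel hr]
    exact Subtype.ext hx
  have : PerfectField (kF p Ω) := PerfectRing.toPerfectField (kF p Ω) p
  apply IsAlgClosed.of_exists_root
  intro f hf hirr
  have hsep : f.Separable := PerfectField.separable_of_irreducible hirr
  obtain ⟨x, hx⟩ := IsSepClosed.exists_eval₂_eq_zero (kF p Ω).subtype f hirr.degree_pos.ne' hsep
  have hxk := f1_b p Ω x f hirr.ne_zero hx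
  refine ⟨⟨x, hxk⟩, ?_⟩
  apply Subtype.ext
  have h1 := Polynomial.hom_eval₂ f (RingHom.id (kF p Ω)) (kF p Ω).subtype ⟨x, hxk⟩
  rw [RingHom.comp_id] at h1
  have h2 : (kF p Ω).subtype (⟨x, hxk⟩ : kF p Ω) = x := rfl
  rw [h2, hx] at h1
  exact h1

theorem F1c : Function.Injective (inck p Ω) := by
  rw [injective_iff_map_eq_zero]
  intro P hP
  by_contra hne
  have h1 : xx p Ω ∈ kF p Ω := f1_b p Ω _ P hne hP
  obtain ⟨r, hr, hx⟩ := (mem_kF p Ω _).1 h1
  have h2 : inc p Ω (X ^ p ^ r) = inc p Ω X := by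
    rw [map_pow]
    exact hx
  have hinj : Function.Injective (inc p Ω) :=
    (algebraMap (RatFunc (ZMod p)) Ω).injective.comp (IsFractionRing.injective (ZMod p)[X] (RatFunc (ZMod p)))
  have h3 := hinj h2
  have h4 := congrArg natDegree h3
  rw [natDegree_X_pow, natDegree_X] at h4
  have hp : 1 < p ^ r := Nat.one_lt_pow hr.ne' (Fact.out : p.Prime).one_lt
  omega

end Pool.Agent.QPC
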