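import Mathlib
import Pool.Agent.QPC.Defs
import Pool.Agent.QPC.F1

/-!
# QPC row F11: the elements fixed by the geometric elements
Plan. Let `K1 := IntermediateField.adjoin (RatFunc (ZMod p)) (kk p Ω)` (that is `k(X)`). `Geo g` iff `g` is in its fixing subgroup. `IsGalois (RatFunc (ZMod p)) Ω`, so
(`InfiniteGalois.fixedField_fixingSubgroup`) an element fixed by all geometric elements is in `K1`. `F11b`: every element of `K1` is a quotient `inck P / inck Q` (the set of
such quotients is a subfield containing `RatFunc (ZMod p)` and `kk`). `F11`: if moreover `y` is integral over `F_p[X]`, it is integral over `k[X]` (via `inck`), which is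
integrally closed (`k[X]` is a UFD), and the fraction `P/Q` in lowest terms is integral, so a polynomial.
-/

set_option autoImplicit false

namespace Pool.Agent.QPC

open Polynomial

variable (p : ℕ) [Fact p.Prime] (Ω : Type) [Field Ω] [Algebra (RatFunc (ZMod p)) Ω]
  [IsSepClosed Ω] [Algebra.IsSeparable (RatFunc (ZMod p)) Ω]

omit [IsSepClosed Ω] [Algebra.IsSeparable (RatFunc (ZMod p)) Ω] in
private theorem f11_j : ∃ j : (ZMod p)[X] →+* (kF p Ω)[X], (inck p Ω).comp j = inc p Ω := by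
  refine ⟨Polynomial.mapRingHom (ZMod.castHom (dvd_refl p) (kF p Ω)), ?_⟩
  apply Polynomial.ringHom_ext'
  · exact Subsingleton.elim _ _
  · simp only [RingHom.comp_apply, Polynomial.coe_mapRingHom, Polynomial.map_X]
    simp [inck, xx]

/-- the inclusion of `k(X)` -/
private noncomputable def f11_phi : FractionRing (kF p Ω)[X] →+* Ω :=
  IsFractionRing.lift (F1c p Ω)

private theorem f11_phi_alg (P : (kF p Ω)[X]) :
    f11_phi p Ω (algebraMap (kF p Ω)[X] (FractionRing (kF p Ω)[X]) P) = inck p Ω P :=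
  IsFractionRing.lift_algebraMap _ _

private theorem f11_mem (y : Ω) (h : ∀ g : GG p Ω, Geo g → g y = y) :
    ∃ z, f11_phi p Ω z = y := by
  haveI : IsSepClosure (RatFunc (ZMod p)) Ω := ⟨inferInstance, inferInstance⟩
  haveI : IsGalois (RatFunc (ZMod p)) Ω := inferInstance
  obtain ⟨j, hj⟩ := f11_j p Ω
  have hinc : ∀ P : (ZMod p)[X], inc p Ω P ∈ (f11_phi p Ω).fieldRange := by
    intro P
    refine ⟨algebraMap _ _ (j P), ?_⟩
    rw [f11_phi_alg, ← RingHom.comp_apply, hj]
  have halg : ∀ r : RatFunc (ZMod p), algebraMap (RatFunc (ZMod p)) Ω r ∈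
      (f11_phi p Ω).fieldRange := by
    intro r
    obtain ⟨a, b, -, rfl⟩ := IsFractionRing.div_surjective (A := (ZMod p)[X]) r
    rw [map_div₀]
    exact div_mem (hinc a) (hinc b)
  set L : IntermediateField (RatFunc (ZMod p)) Ω :=
    Subfield.toIntermediateField (f11_phi p Ω).fieldRange halg with hL
  have hle : IntermediateField.adjoin (RatFunc (ZMod p)) (kk p Ω) ≤ L := by
    rw [IntermediateField.adjoin_le_iff]
    intro a ha
    refine ⟨algebraMap _ _ (C (⟨a, ha⟩ : kF p Ω)), ?_⟩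
    show f11_phi p Ω (algebraMap _ _ (C (⟨a, ha⟩ : kF p Ω))) = a
    rw [f11_phi_alg]
    simp [inck]
  have hy : y ∈ IntermediateField.adjoin (RatFunc (ZMod p)) (kk p Ω) := by
    rw [← InfiniteGalois.fixedField_fixingSubgroup
      (IntermediateField.adjoin (RatFunc (ZMod p)) (kk p Ω)),
      IntermediateField.mem_fixedField_iff]
    intro g hg
    apply h g
    intro a ha
    rw [IntermediateField.mem_fixingSubgroup_iff] at hg
    exact hg a (IntermediateField.subset_adjoin _ _ ha)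
  exact hle hy

theorem F11b (y : Ω) (h : ∀ g : GG p Ω, Geo g → g y = y) :
    ∃ P Q : (kF p Ω)[X], Q ≠ 0 ∧ y * inck p Ω Q = inck p Ω P := by
  obtain ⟨z, rfl⟩ := f11_mem p Ω y h
  obtain ⟨P, Q, hQ, rfl⟩ := IsFractionRing.div_surjective (A := (kF p Ω)[X]) z
  have hQ0 : Q ≠ 0 := nonZeroDivisors.ne_zero hQ
  refine ⟨P, Q, hQ0, ?_⟩
  rw [map_div₀, f11_phi_alg, f11_phi_alg, div_mul_cancel₀]
  intro h0
  exact hQ0 (F1c p Ω (by rw [h0, map_zero]))

theorem F11 (y : Ω) (hy : y ∈ Zr p Ω) (h : ∀ g : GG p Ω, Geo g → g y = y) :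
    ∃ P : (kF p Ω)[X], inck p Ω P = y := by
  obtain ⟨z, rfl⟩ := f11_mem p Ω y h
  obtain ⟨j, hj⟩ := f11_j p Ω
  obtain ⟨f, hf, hf0⟩ := hy
  have hz : IsIntegral (kF p Ω)[X] z := by
    refine ⟨f.map j, hf.map j, ?_⟩
    apply (f11_phi p Ω).injective
    rw [map_zero, Polynomial.hom_eval₂, Polynomial.eval₂_map]
    have h1 : ((f11_phi p Ω).comp (algebraMap (kF p Ω)[X] (FractionRing (kF p Ω)[X]))).comp j =
        inc p Ω := by
      rw [← hj]
      congr 1
      exact RingHom.ext fun P => f11_phi_alg p Ω P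
    rw [h1]
    exact hf0
  obtain ⟨P, hP⟩ := IsIntegrallyClosed.isIntegral_iff.1 hz
  exact ⟨P, by rw [← hP, f11_phi_alg]⟩

end Pool.Agent.QPC
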