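import Mathlib
import Pool.Agent.QPC.Defs
import Pool.Agent.QPC.Defs3
import Pool.Agent.QPC.F1
import Pool.Agent.QPC.F11

/-!
# QPC row D0: automorphisms of `Ω` which are the identity on the constants
Plan. `D0`. `k := kF p Ω`. `K := FractionRing k[X]` (or `RatFunc k`). Two structures of `K`-algebra on `Ω`: `A1`: `X ↦ xx` (`inck`, injective by `F1c`) and `A2`: `X ↦ u` (`eval₂ subtype u`; injective: if `u` is algebraic over `k` then `u ∈ k` by `F1b`, so `xx = f(u) ∈ k`, contradiction). For both, `Ω` is a separable closure of `K`: separably closed, and separable algebraic: an element of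
`Ω` is separable over `F_p(xx)`, contained in the image of `K` for `A1` and also for `A2` (`xx = f(u)`) (`Algebra.IsSeparable` over the intermediate field: use a tower `F_p(X) → K → Ω`, with `F_p(X) → K` given by `X ↦ X`, resp. `X ↦ f`; `Algebra.isSeparable_tower_top_of_isSeparable`). `IsSepClosure.equiv` gives a ring isomorphism `Ψ` with `Ψ ∘ A2 = A1`: identity on `k`, `Ψ u = xx`.
`Z`: `y` with `P(y) = 0`, `P` monic over `F_p[xx]`: `Ψ y` is a root of a monic polynomial over `F_p[Ψ xx]`, `Ψ xx = f(xx) = inck f ∈ Zr` (`inck_mem_Zr` in QPC.Defs3): so `Ψ y` is integral over `Zr`, so in `Zr`. `Ψ⁻¹`: same with `Ψ⁻¹ xx = u`, and `u ∈ Zr`: `f(u) = xx` with `f` non-constant (leading coefficient a non-zero constant: divide by it), constants in `Zr` (`kk_Zr`).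
`D0c`. Take `Ψ` from `D0`. For geometric `g`: `Ψ⁻¹ g Ψ` fixes the constants and `u` (`Ψ u = xx`), so `xx = f(u)`; it is in `GG` (`toGG`), geometric; so `Ψ⁻¹ g Ψ y = y`, `g (Ψ y) = Ψ y`. `F11`: `Ψ y = inck P = P(xx)`; so `y = P(u)`.
-/

set_option autoImplicit false

namespace Pool.Agent.QPC

open Polynomial

theorem d0_eq (K L M : Type) [Field K] [Field L] [Field M] [Algebra K L] [Algebra K M]
    [IsSepClosure K L] [IsSepClosure K M] :
    ∃ e : L ≃+* M, ∀ x, e (algebraMap K L x) = algebraMap K M x :=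
  ⟨(IsSepClosure.equiv K L M : L ≃ₐ[K] M).toRingEquiv, fun x =>
    (IsSepClosure.equiv K L M).commutes x⟩

theorem d0_poly {p : ℕ} [Fact p.Prime] {A : Type} [CommRing A] (S : Subring A)
    (g : (ZMod p)[X] →+* A) (hX : g X ∈ S) (P : (ZMod p)[X]) : g P ∈ S := by
  induction P using Polynomial.induction_on' with
  | add a b ha hb => rw [map_add]; exact add_mem ha hb
  | monomial n a =>
    rw [← C_mul_X_pow_eq_monomial, map_mul, map_pow]
    refine mul_mem ?_ (pow_mem hX n)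
    have h1 : (C a : (ZMod p)[X]) = ((a.val : ℕ) : (ZMod p)[X]) := by
      rw [← C_eq_natCast, ZMod.natCast_zmod_val]
    rw [h1, map_natCast]
    exact natCast_mem _ _

variable (p : ℕ) [Fact p.Prime] (Ω : Type) [Field Ω] [Algebra (RatFunc (ZMod p)) Ω]

theorem d0_range (S : Subfield Ω) (hX : xx p Ω ∈ S) (y : RatFunc (ZMod p)) :
    algebraMap (RatFunc (ZMod p)) Ω y ∈ S := by
  obtain ⟨P, Q, hQ, rfl⟩ := IsFractionRing.div_surjective (A := (ZMod p)[X]) y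
  rw [map_div₀]
  exact div_mem (d0_poly S.toSubring (inc p Ω) hX P) (d0_poly S.toSubring (inc p Ω) hX Q)

theorem d0_sep [Algebra.IsSeparable (RatFunc (ZMod p)) Ω] (K : Type) [Field K] (φ : K →+* Ω)
    (hx : xx p Ω ∈ φ.fieldRange) : @Algebra.IsSeparable K Ω _ _ φ.toAlgebra := by
  let _ := φ.toAlgebra
  have h1 : ∀ y : RatFunc (ZMod p), ∃ z : K, φ z = algebraMap (RatFunc (ZMod p)) Ω y := fun y =>
    RingHom.mem_fieldRange.mp (d0_range p Ω φ.fieldRange hx y)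
  choose j hj using h1
  letI : Algebra (RatFunc (ZMod p)) K := RingHom.toAlgebra
    { toFun := j
      map_one' := φ.injective (by rw [hj, map_one, map_one])
      map_mul' := fun a b => φ.injective (by rw [hj, map_mul, map_mul, hj, hj])
      map_zero' := φ.injective (by rw [hj, map_zero, map_zero])
      map_add' := fun a b => φ.injective (by rw [hj, map_add, map_add, hj, hj]) }
  haveI : IsScalarTower (RatFunc (ZMod p)) K Ω := IsScalarTower.of_algebraMap_eq fun y =>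
    (hj y).symm
  exact Algebra.isSeparable_tower_top_of_isSeparable (RatFunc (ZMod p)) K Ω

theorem d0_equiv [IsSepClosed Ω] [Algebra.IsSeparable (RatFunc (ZMod p)) Ω] (K : Type) [Field K]
    (φ ψ : K →+* Ω) (h1 : xx p Ω ∈ φ.fieldRange) (h2 : xx p Ω ∈ ψ.fieldRange) :
    ∃ e : Ω ≃+* Ω, ∀ x, e (φ x) = ψ x :=
  @d0_eq K Ω Ω _ _ _ φ.toAlgebra ψ.toAlgebra
    (@IsSepClosure.mk K _ Ω _ φ.toAlgebra inferInstance (d0_sep p Ω K φ h1))
    (@IsSepClosure.mk K _ Ω _ ψ.toAlgebra inferInstance (d0_sep p Ω K ψ h2))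

theorem d0_int {R : Type} [CommRing R] (g : R →+* Ω) (hg : ∀ r, g r ∈ Zr p Ω) (y : Ω)
    (hy : g.IsIntegralElem y) : y ∈ Zr p Ω := by
  letI : Algebra (ZMod p)[X] Ω := (inc p Ω).toAlgebra
  have h1 : IsIntegral (integralClosure (ZMod p)[X] Ω) y := by
    obtain ⟨P, hP, h⟩ := hy
    refine ⟨P.map (g.codRestrict (integralClosure (ZMod p)[X] Ω) hg), hP.map _, ?_⟩
    rw [eval₂_map]
    exact h
  have h2 : IsIntegral (ZMod p)[X] y := isIntegral_trans y h1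
  exact h2

variable [IsSepClosed Ω] [Algebra.IsSeparable (RatFunc (ZMod p)) Ω]

theorem d0_xx : xx p Ω ∉ kF p Ω := by
  intro h
  have h1 : inck p Ω X = inck p Ω (C ⟨xx p Ω, h⟩) := by
    change eval₂ _ _ _ = eval₂ _ _ _
    rw [eval₂_X, eval₂_C]; rfl
  exact X_ne_C _ (F1c p Ω h1)

theorem d0_eval_mem {u : Ω} (hu : u ∈ kF p Ω) (f : (kF p Ω)[X]) :
    f.eval₂ (kF p Ω).subtype u ∈ kF p Ω := by
  have h1 : f.eval₂ (kF p Ω).subtype u = (kF p Ω).subtype (f.eval ⟨u, hu⟩) := by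
    rw [← Polynomial.eval₂_at_apply]; rfl
  rw [h1]; exact (f.eval ⟨u, hu⟩).2

theorem d0_inj (u : Ω) (f : (kF p Ω)[X]) (h : f.eval₂ (kF p Ω).subtype u = xx p Ω) :
    Function.Injective (eval₂RingHom (kF p Ω).subtype u) := by
  rw [injective_iff_map_eq_zero]
  intro P hP
  by_contra hP0
  have h1 : u ∈ kF p Ω := F1b p Ω u P hP0 hP
  exact d0_xx p Ω (h ▸ d0_eval_mem p Ω h1 f)

theorem d0_u (u : Ω) (f : (kF p Ω)[X]) (h : f.eval₂ (kF p Ω).subtype u = xx p Ω) :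
    u ∈ Zr p Ω := by
  have h0 : f.natDegree ≠ 0 := by
    intro h0
    obtain ⟨c, rfl⟩ := natDegree_eq_zero.mp h0
    rw [eval₂_C] at h
    exact d0_xx p Ω (h ▸ c.2)
  have hf : f ≠ 0 := by rintro rfl; simp at h0
  have hl : f.leadingCoeff ≠ 0 := leadingCoeff_ne_zero.mpr hf
  refine d0_int p Ω (inck p Ω) (inck_mem_Zr p Ω) u
    ⟨(C f.leadingCoeff⁻¹ * f).map C - C (C f.leadingCoeff⁻¹ * X), ?_, ?_⟩
  · have h1 : (C f.leadingCoeff⁻¹ * f).Monic := by
      rw [mul_comm]; exact monic_mul_leadingCoeff_inv hf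
    refine (h1.map C).sub_of_left (lt_of_le_of_lt degree_C_le ?_)
    rw [degree_map_eq_of_injective C_injective, degree_C_mul (inv_ne_zero hl)]
    exact natDegree_pos_iff_degree_pos.mp (Nat.pos_of_ne_zero h0)
  · have hcomp : (inck p Ω).comp C = (kF p Ω).subtype := RingHom.ext fun a => by
      change eval₂ _ _ (C a) = _
      rw [eval₂_C]
    have hX : inck p Ω X = xx p Ω := by
      change eval₂ _ _ X = _
      rw [eval₂_X]
    rw [eval₂_sub, eval₂_map, hcomp, eval₂_C, eval₂_mul, eval₂_C, h, map_mul, hX, sub_eq_zero]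
    congr 1
    exact (congrArg (fun g : kF p Ω →+* Ω => g f.leadingCoeff⁻¹) hcomp).symm

theorem D0 (u : Ω) (f : (kF p Ω)[X]) (h : f.eval₂ (kF p Ω).subtype u = xx p Ω) :
    ∃ Ψ : Ω ≃+* Ω, (∀ a ∈ kk p Ω, Ψ a = a) ∧ Ψ u = xx p Ω ∧
      (∀ a ∈ Zr p Ω, Ψ a ∈ Zr p Ω) ∧ (∀ a ∈ Zr p Ω, Ψ.symm a ∈ Zr p Ω) := by
  have hi1 : Function.Injective (eval₂RingHom (kF p Ω).subtype u) := d0_inj p Ω u f h
  have hi2 : Function.Injective (inck p Ω) := F1c p Ω
  set φ : RatFunc (kF p Ω) →+* Ω := IsFractionRing.lift hi1 with hφ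
  set ψ : RatFunc (kF p Ω) →+* Ω := IsFractionRing.lift hi2 with hψ
  have e1 : ∀ P : (kF p Ω)[X], φ (algebraMap _ _ P) = P.eval₂ (kF p Ω).subtype u := fun P =>
    IsFractionRing.lift_algebraMap hi1 P
  have e2 : ∀ P : (kF p Ω)[X], ψ (algebraMap _ _ P) = P.eval₂ (kF p Ω).subtype (xx p Ω) :=
    fun P => IsFractionRing.lift_algebraMap hi2 P
  obtain ⟨Ψ, hΨ⟩ := d0_equiv p Ω (RatFunc (kF p Ω)) φ ψ
    (RingHom.mem_fieldRange.mpr ⟨algebraMap _ _ f, by rw [e1, h]⟩)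
    (RingHom.mem_fieldRange.mpr ⟨algebraMap _ _ X, by rw [e2, eval₂_X]⟩)
  have hP : ∀ P : (kF p Ω)[X], Ψ (P.eval₂ (kF p Ω).subtype u) = inck p Ω P := fun P => by
    rw [← e1, hΨ, e2]; rfl
  have hu : Ψ u = xx p Ω := by
    have := hP X
    rw [eval₂_X] at this
    rw [this]
    change eval₂ _ _ _ = _
    rw [eval₂_X]
  refine ⟨Ψ, fun a ha => ?_, hu, fun a ha => ?_, fun a ha => ?_⟩
  · have := hP (C ⟨a, ha⟩)
    rw [eval₂_C] at this
    change Ψ a = eval₂ _ _ _ at this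
    rw [eval₂_C] at this
    exact this
  · obtain ⟨P, hP1, hP2⟩ := ha
    refine d0_int p Ω ((Ψ : Ω →+* Ω).comp (inc p Ω)) (d0_poly (Zr p Ω) _ ?_) _ ⟨P, hP1, ?_⟩
    · change Ψ (xx p Ω) ∈ _
      rw [← h, hP]
      exact inck_mem_Zr p Ω f
    · have h2 := congrArg Ψ hP2
      rw [map_zero] at h2
      rw [← h2]
      exact (Polynomial.hom_eval₂ P (inc p Ω) (Ψ : Ω →+* Ω) a).symm
  · obtain ⟨P, hP1, hP2⟩ := ha
    refine d0_int p Ω ((Ψ.symm : Ω →+* Ω).comp (inc p Ω)) (d0_poly (Zr p Ω) _ ?_) _ ⟨P, hP1, ?_⟩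
    · change Ψ.symm (xx p Ω) ∈ _
      rw [← hu, RingEquiv.symm_apply_apply]
      exact d0_u p Ω u f h
    · have h2 := congrArg Ψ.symm hP2
      rw [map_zero] at h2
      rw [← h2]
      exact (Polynomial.hom_eval₂ P (inc p Ω) (Ψ.symm : Ω →+* Ω) a).symm

theorem D0c (u : Ω) (f : (kF p Ω)[X]) (h : f.eval₂ (kF p Ω).subtype u = xx p Ω)
    (y : Ω) (hy : y ∈ Zr p Ω) (hfix : ∀ g : GG p Ω, Geo g → g u = u → g y = y) :
    ∃ P : (kF p Ω)[X], P.eval₂ (kF p Ω).subtype u = y := by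
  obtain ⟨Ψ, h1, h2, h3, h4⟩ := D0 p Ω u f h
  have h1' : ∀ a ∈ kk p Ω, Ψ.symm a = a := fun a ha => by
    rw [RingEquiv.symm_apply_eq]; exact (h1 a ha).symm
  have hc : (Ψ : Ω →+* Ω).comp (kF p Ω).subtype = (kF p Ω).subtype :=
    RingHom.ext fun a => h1 a a.2
  have hP : ∀ P : (kF p Ω)[X], Ψ (P.eval₂ (kF p Ω).subtype u) = inck p Ω P := fun P => by
    have := Polynomial.hom_eval₂ P (kF p Ω).subtype (Ψ : Ω →+* Ω) u
    rw [hc] at this
    change Ψ _ = eval₂ _ (Ψ u) P at this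
    rw [this, h2]; rfl
  have hx : Ψ (xx p Ω) = inck p Ω f := by rw [← h, hP]
  obtain ⟨P, hP'⟩ := F11 p Ω (Ψ y) (h3 y hy) fun g hg => by
    have hgx : ((Ψ.trans (g : Ω ≃+* Ω)).trans Ψ.symm) (xx p Ω) = xx p Ω := by
      change Ψ.symm (g (Ψ (xx p Ω))) = xx p Ω
      rw [hx, inck_fix p Ω hg, ← hx, RingEquiv.symm_apply_apply]
    have h5 := hfix (toGG p Ω ((Ψ.trans (g : Ω ≃+* Ω)).trans Ψ.symm) hgx) (fun a ha => by
      change Ψ.symm (g (Ψ a)) = a
      rw [h1 a ha, hg a ha, h1' a ha]) (by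
      change Ψ.symm (g (Ψ u)) = u
      rw [h2, gal_xx, ← h2, RingEquiv.symm_apply_apply])
    have h6 : Ψ.symm (g (Ψ y)) = y := h5
    rw [RingEquiv.symm_apply_eq] at h6
    exact h6
  refine ⟨P, Ψ.injective ?_⟩
  rw [hP, hP']

end Pool.Agent.QPC
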