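import Mathlib
import Pool.Agent.QPC.Defs
import Pool.Agent.QPC.Defs3
import Pool.Agent.QPG.Defs

/-!
# QPC: definitions, part 4 (linking with the geometric half `Pool.QPC`)
-/

set_option autoImplicit false

namespace Pool.Agent.QPC

open Polynomial

variable {p : ℕ} [Fact p.Prime] {Ω : Type} [Field Ω] [Algebra (RatFunc (ZMod p)) Ω]

noncomputable instance algk : Algebra (ZMod p) (kF p Ω) := ZMod.algebra _ p

/-- Linking data: `b ∈ k^*` of degree dividing `r`, and `Ψ` with `Ψ X = (X^(p^r) - X)^m`. -/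
structure LC (m r : ℕ) (b : kF p Ω) (Ψ : Ω ≃+* Ω) : Prop where
  r_pos : 0 < r
  b_ne : b ≠ 0
  b_mem : (b : Ω) ^ p ^ r = b
  ok : PsiOK p Ψ
  Psi_xx : Ψ (xx p Ω) = (xx p Ω ^ p ^ r - xx p Ω) ^ m

/-- The element `z_b`, with `z_b ^ p - z_b = b (X^(p^r) - X)`. -/
noncomputable def zb (r : ℕ) (b : kF p Ω) : Ω := zz p r ((b : Ω) * xx p Ω)

theorem zb_frob {m r : ℕ} {b : kF p Ω} {Ψ : Ω ≃+* Ω} (L : LC m r b Ψ) :
    zb r b ^ p - zb r b = b * (xx p Ω ^ p ^ r - xx p Ω) := by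
  haveI := om_charP p Ω
  rw [zb, zz_frob, mul_pow, L.b_mem]
  ring

/-- The homomorphism `S(k,b) → Ω`: `z ↦ z_b`, `a ↦ Ψ a` for `a ∈ Zg`. -/
noncomputable def Th {m r : ℕ} {b : kF p Ω} {Ψ : Ω ≃+* Ω} (L : LC m r b Ψ)
    {Hb : Type} [Group Hb] (ρb : GG p Ω →* Hb) :
    Pool.QPC.SRt (kF p Ω) p m b⁻¹ (Zg p Ω ρb) →+* Ω :=
  Pool.QPC.S.lift _ (eval₂RingHom (kF p Ω).subtype (zb r b))
    ((Ψ : Ω →+* Ω).comp (Zg p Ω ρb).subtype) (by
      intro P
      have key : (eval₂RingHom (kF p Ω).subtype (zb r b)).comp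
          (Pool.QPC.pw (k := kF p Ω) m (Pool.QPC.vz p b⁻¹)) =
          ((Ψ : Ω →+* Ω).comp (Zg p Ω ρb).subtype).comp
            (algebraMap (kF p Ω)[X] (Zg p Ω ρb)) := by
        apply Polynomial.ringHom_ext
        · intro c
          rw [RingHom.comp_apply, Pool.QPC.pw_C, RingHom.comp_apply, RingHom.comp_apply,
            Polynomial.algebraMap_apply, coe_eval₂RingHom, eval₂_C]
          change (c : Ω) = Ψ (inck p Ω (C c))
          have h1 : inck p Ω (C c) = c := by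
            change eval₂ _ _ _ = _
            rw [eval₂_C]; rfl
          rw [h1, L.ok.kk _ c.2]
        · rw [RingHom.comp_apply, Pool.QPC.pw_X, RingHom.comp_apply, RingHom.comp_apply]
          change _ = Ψ (inck p Ω X)
          have h1 : inck p Ω X = xx p Ω := by
            change eval₂ _ _ _ = _
            rw [eval₂_X]
          rw [h1, L.Psi_xx, map_pow]
          congr 1
          rw [Pool.QPC.vz, coe_eval₂RingHom, eval₂_mul, eval₂_C, eval₂_sub, eval₂_pow, eval₂_X,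
            zb_frob L]
          have h2 : (kF p Ω).subtype b⁻¹ * (b : Ω) = 1 := by
            have h3 : (kF p Ω).subtype b⁻¹ * (kF p Ω).subtype b = 1 := by
              rw [← map_mul, inv_mul_cancel₀ L.b_ne, map_one]
            exact h3
          rw [← mul_assoc, h2, one_mul]
      exact congrArg (fun f : (kF p Ω)[X] →+* Ω => f P) key)

section
variable {m r : ℕ} {b : kF p Ω} {Ψ : Ω ≃+* Ω} (L : LC m r b Ψ)
    {Hb : Type} [Group Hb] (ρb : GG p Ω →* Hb)

theorem Th_algebraMap (P : (kF p Ω)[X]) :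
    Th L ρb (algebraMap (kF p Ω)[X] _ P) = P.eval₂ (kF p Ω).subtype (zb r b) := by
  rw [Th, Pool.QPC.S.lift_algebraMap]; rfl

theorem Th_inc (a : Zg p Ω ρb) : Th L ρb (Pool.QPC.S.inc _ _ a) = Ψ a := by
  rw [Th, Pool.QPC.S.lift_inc]; rfl

end

end Pool.Agent.QPC
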