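import Mathlib
import Pool.Agent.QPC.Defs

/-!
# QPC row F2: the kernel of `ρ` on the primes of `Z` (profinite group)
`Zr p Ω` = ring `Z` of elements of `Ω` integral over `F_p[X]`; `Zf p Ω ρ` = elements of `Z` fixed by `ker ρ`.
The kernel `G := ρ.ker` is open and closed in `GG p Ω`, so it is a profinite group; it acts continuously on
`B := Zr p Ω` (discrete topology) with invariant ring `f2_A ρ`.
-/

set_option autoImplicit false

namespace Pool.Agent.QPC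

open Polynomial

variable (p : ℕ) [Fact p.Prime] (Ω : Type) [Field Ω] [Algebra (RatFunc (ZMod p)) Ω]
  [IsSepClosed Ω] [Algebra.IsSeparable (RatFunc (ZMod p)) Ω]

section aux

variable {p Ω}

omit [IsSepClosed Ω] [Algebra.IsSeparable (RatFunc (ZMod p)) Ω] in
/-- The Galois group acts on `Z`. -/
noncomputable abbrev f2_act : MulSemiringAction (GG p Ω) (Zr p Ω) where
  smul g b := ⟨g b, gal_Zr g b.2⟩
  one_smul _ := Subtype.ext rfl
  mul_smul _ _ _ := Subtype.ext rfl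
  smul_zero g := Subtype.ext (map_zero g)
  smul_add g _ _ := Subtype.ext (map_add g _ _)
  smul_one g := Subtype.ext (map_one g)
  smul_mul g _ _ := Subtype.ext (map_mul g _ _)

attribute [local instance] f2_act

omit [IsSepClosed Ω] [Algebra.IsSeparable (RatFunc (ZMod p)) Ω] in
theorem f2_smul_coe (g : GG p Ω) (b : Zr p Ω) : ((g • b : Zr p Ω) : Ω) = g b := rfl

variable {H : Type} [Group H] (ρ : GG p Ω →* H)

omit [IsSepClosed Ω] [Algebra.IsSeparable (RatFunc (ZMod p)) Ω] in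
theorem f2_ksmul_coe (g : ρ.ker) (b : Zr p Ω) : ((g • b : Zr p Ω) : Ω) = g.1 b := rfl

omit [IsSepClosed Ω] in
theorem f2_open (hfin : ∃ T : Finset Ω, ∀ g : GG p Ω, (∀ t ∈ T, g t = t) → ρ g = 1) :
    IsOpen (ρ.ker : Set (GG p Ω)) := by
  obtain ⟨T, hT⟩ := hfin
  let E := IntermediateField.adjoin (RatFunc (ZMod p)) (T : Set Ω)
  have : FiniteDimensional (RatFunc (ZMod p)) E :=
    IntermediateField.finiteDimensional_adjoin (fun x _ => Algebra.IsIntegral.isIntegral x)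
  refine Subgroup.isOpen_mono (H₁ := E.fixingSubgroup) ?_ E.fixingSubgroup_isOpen
  intro g hg
  rw [MonoidHom.mem_ker]
  apply hT
  intro t ht
  exact hg ⟨t, IntermediateField.subset_adjoin _ _ ht⟩

/-- The invariant ring. -/
noncomputable def f2_A : Subring (Zr p Ω) := (Zf p Ω ρ).comap (Zr p Ω).subtype

omit [IsSepClosed Ω] [Algebra.IsSeparable (RatFunc (ZMod p)) Ω] in
theorem f2_mem_A (b : Zr p Ω) : b ∈ f2_A ρ ↔ (b : Ω) ∈ Zf p Ω ρ := Iff.rfl

omit [IsSepClosed Ω] [Algebra.IsSeparable (RatFunc (ZMod p)) Ω] in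
theorem f2_inv : Algebra.IsInvariant (f2_A ρ) (Zr p Ω) ρ.ker := by
  constructor
  intro b hb
  refine ⟨⟨b, b.2, ?_⟩, rfl⟩
  intro g hg
  exact congrArg Subtype.val (hb ⟨g, hg⟩)

omit [IsSepClosed Ω] [Algebra.IsSeparable (RatFunc (ZMod p)) Ω] in
theorem f2_comm : SMulCommClass ρ.ker (f2_A ρ) (Zr p Ω) := by
  constructor
  intro g a b
  apply Subtype.ext
  have h : g.1 (a.1 : Ω) = (a.1 : Ω) := a.2.2 g.1 g.2
  change g.1 ((a.1 : Ω) * b) = (a.1 : Ω) * g.1 b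
  rw [map_mul, h]

theorem f2_compact (hfin : ∃ T : Finset Ω, ∀ g : GG p Ω, (∀ t ∈ T, g t = t) → ρ g = 1) :
    CompactSpace ρ.ker := by
  have : IsSepClosure (RatFunc (ZMod p)) Ω := ⟨inferInstance, inferInstance⟩
  have : CompactSpace (GG p Ω) := inferInstance
  exact isCompact_iff_compactSpace.mp (Subgroup.isClosed_of_isOpen _ (f2_open ρ hfin)).isCompact

omit [IsSepClosed Ω] in
theorem f2_tot : TotallyDisconnectedSpace ρ.ker := by
  have : TotallyDisconnectedSpace (GG p Ω) := inferInstance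
  infer_instance

omit [IsSepClosed Ω] in
theorem f2_cont [TopologicalSpace (Zr p Ω)] [DiscreteTopology (Zr p Ω)] :
    ContinuousSMul ρ.ker (Zr p Ω) := by
  rw [continuousSMul_iff_stabilizer_isOpen]
  intro x
  have h1 : IsOpen (MulAction.stabilizer (GG p Ω) (x : Ω) : Set (GG p Ω)) :=
    stabilizer_isOpen_of_isIntegral _
  have h2 := h1.preimage (continuous_subtype_val : Continuous (fun g : ρ.ker => (g : GG p Ω)))
  convert h2 using 1
  ext g
  constructor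
  · intro hg
    exact congrArg Subtype.val hg
  · intro hg
    exact Subtype.ext hg

end aux

attribute [local instance] f2_act

open scoped Pointwise

theorem F2 {H : Type} [Group H] (ρ : GG p Ω →* H)
    (hfin : ∃ T : Finset Ω, ∀ g : GG p Ω, (∀ t ∈ T, g t = t) → ρ g = 1)
    (q q' : Ideal (Zr p Ω)) (hq : q.IsPrime) (hq' : q'.IsPrime)
    (h : ∀ b : Zr p Ω, (b : Ω) ∈ Zf p Ω ρ → (b ∈ q ↔ b ∈ q')) :
    ∃ g : GG p Ω, ρ g = 1 ∧
      ∀ b : Zr p Ω, b ∈ q ↔ (⟨g b, gal_Zr g b.2⟩ : Zr p Ω) ∈ q' := by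
  have := f2_compact ρ hfin
  have := f2_tot ρ
  have := f2_inv ρ
  have := f2_comm ρ
  let tz : TopologicalSpace (Zr p Ω) := ⊥
  have : DiscreteTopology (Zr p Ω) := ⟨rfl⟩
  have := f2_cont ρ
  have hPQ : q.under (f2_A ρ) = q'.under (f2_A ρ) := by
    ext a
    exact h a.1 a.2
  obtain ⟨g, hg⟩ := Algebra.IsInvariant.exists_smul_of_under_eq_of_profinite
    (A := f2_A ρ) (G := ρ.ker) q q' hPQ
  refine ⟨g.1, g.2, fun b => ?_⟩
  have h3 : (g • b : Zr p Ω) ∈ g • q ↔ b ∈ q := Ideal.smul_mem_pointwise_smul_iff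
  rw [hg]
  exact h3.symm

theorem F3 {H : Type} [Group H] (ρ : GG p Ω →* H)
    (hfin : ∃ T : Finset Ω, ∀ g : GG p Ω, (∀ t ∈ T, g t = t) → ρ g = 1)
    (q : Ideal (Zr p Ω)) (hq : q.IsPrime) (g0 : GG p Ω)
    (hs : ∀ b : Zr p Ω, b ∈ q ↔ (⟨g0 b, gal_Zr g0 b.2⟩ : Zr p Ω) ∈ q)
    (ht : ∀ b : Zr p Ω, (b : Ω) ∈ Zf p Ω ρ → (⟨g0 b, gal_Zr g0 b.2⟩ : Zr p Ω) - b ∈ q) :
    ∃ g : GG p Ω, ρ g = 1 ∧
      ∀ b : Zr p Ω, (⟨g (g0 b), gal_Zr g (gal_Zr g0 b.2)⟩ : Zr p Ω) - b ∈ q := by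
  have := f2_compact ρ hfin
  have := f2_tot ρ
  have := f2_inv ρ
  have := f2_comm ρ
  let tz : TopologicalSpace (Zr p Ω) := ⊥
  have : DiscreteTopology (Zr p Ω) := ⟨rfl⟩
  have := f2_cont ρ
  let P : Ideal (f2_A ρ) := q.under (f2_A ρ)
  have : q.LiesOver P := ⟨rfl⟩
  let e : Zr p Ω ≃+* Zr p Ω := MulSemiringAction.toRingEquiv (GG p Ω) (Zr p Ω) g0
  have he : ∀ b, e b = ⟨g0 b, gal_Zr g0 b.2⟩ := fun b => rfl
  have hmap : q = q.map (e : Zr p Ω →+* Zr p Ω) := by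
    ext b
    have h1 : b ∈ q.map (e : Zr p Ω →+* Zr p Ω) ↔ e.symm b ∈ q := by
      rw [Ideal.map_comap_of_equiv]
      rfl
    rw [h1, hs (e.symm b), ← he, RingEquiv.apply_symm_apply]
  let s0 : (Zr p Ω ⧸ q) ≃+* (Zr p Ω ⧸ q) := Ideal.quotientEquiv q q e hmap
  have hs0 : ∀ b : Zr p Ω, s0 (Ideal.Quotient.mk q b) = Ideal.Quotient.mk q (e b) := fun b => rfl
  let s : (Zr p Ω ⧸ q) ≃ₐ[f2_A ρ ⧸ P] (Zr p Ω ⧸ q) := AlgEquiv.ofRingEquiv (f := s0) (by
    intro a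
    obtain ⟨a, rfl⟩ := Ideal.Quotient.mk_surjective a
    change s0 (Ideal.Quotient.mk q a.1) = Ideal.Quotient.mk q a.1
    rw [hs0, Ideal.Quotient.eq]
    exact ht a.1 a.2)
  have hsb : ∀ b : Zr p Ω, s (Ideal.Quotient.mk q b) = Ideal.Quotient.mk q (e b) := fun b => rfl
  obtain ⟨g, hg⟩ := Ideal.Quotient.stabilizerHom_surjective_of_profinite
    (A := f2_A ρ) (G := ρ.ker) P q s.symm
  refine ⟨g.1.1, g.1.2, fun b => ?_⟩
  have h1 : (Ideal.Quotient.stabilizerHom q P ρ.ker g) (s (Ideal.Quotient.mk q b))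
      = Ideal.Quotient.mk q b := by
    rw [hg, AlgEquiv.symm_apply_apply]
  rw [hsb] at h1
  exact (Ideal.Quotient.eq).mp h1

end Pool.Agent.QPC
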