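import Mathlib
import Pool.Agent.QPC.Defs
import Pool.Agent.QPC.F2

/-!
# QPC row F4: no inertia for an admissible homomorphism
Plan. Suppose `s b - b ∈ q` for all `b ∈ Zf`. `Zr` is integral over `Zf` (it is integral over `F_p[X]`, and
`inc` has values in `Zf`): take a prime `q1` of `Zr` over `q` (`Ideal.exists_ideal_over_prime_of_isIntegral`
or `exists_ideal_over_prime`). Let `q2 := {b | s b ∈ q1}` (comap): prime, and for `b ∈ Zf`:
`b ∈ q2 ↔ s b ∈ q ↔ b ∈ q ↔ b ∈ q1`. By `F2` there is `g` with `ρ g = 1` and `b ∈ q1 ↔ g b ∈ q2 ↔ s (g b) ∈ q1`.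
Put `g0 := s * g`: it satisfies the hypotheses of `F3` for `q1` (for `b ∈ Zf`: `g b = b`, `s b - b ∈ q ⊆ q1`). `F3` gives `g'` with
`ρ g' = 1` and `g' * g0` inert. So `ρ (g' s g) = 1` by `hρ.inert`, so `ρ s = 1`.
-/

set_option autoImplicit false

namespace Pool.Agent.QPC

open Polynomial

variable (p : ℕ) [Fact p.Prime] (Ω : Type) [Field Ω] [Algebra (RatFunc (ZMod p)) Ω]
  [IsSepClosed Ω] [Algebra.IsSeparable (RatFunc (ZMod p)) Ω]

omit [IsSepClosed Ω] [Algebra.IsSeparable (RatFunc (ZMod p)) Ω] in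
theorem f4_le {H : Type} [Group H] (ρ : GG p Ω →* H) : Zf p Ω ρ ≤ Zr p Ω := fun _ hb => hb.1

omit [IsSepClosed Ω] [Algebra.IsSeparable (RatFunc (ZMod p)) Ω] in
theorem f4_inc_mem {H : Type} [Group H] (ρ : GG p Ω →* H) (P : (ZMod p)[X]) :
    inc p Ω P ∈ Zf p Ω ρ := by
  refine ⟨?_, fun g _ => gal_inc g P⟩
  change (inc p Ω).IsIntegralElem (inc p Ω P)
  exact RingHom.isIntegralElem_map _

omit [IsSepClosed Ω] [Algebra.IsSeparable (RatFunc (ZMod p)) Ω] in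
theorem f4_integral {H : Type} [Group H] (ρ : GG p Ω →* H) :
    (Subring.inclusion (f4_le p Ω ρ)).IsIntegral := by
  intro b
  obtain ⟨P, hP, hb⟩ := b.2
  refine ⟨P.map ((inc p Ω).codRestrict (Zf p Ω ρ) (f4_inc_mem p Ω ρ)), hP.map _, ?_⟩
  rw [Polynomial.eval₂_map]
  apply Subtype.ext
  have h3 := Polynomial.hom_eval₂ P ((Subring.inclusion (f4_le p Ω ρ)).comp
    ((inc p Ω).codRestrict (Zf p Ω ρ) (f4_inc_mem p Ω ρ))) (Zr p Ω).subtype b
  have h4 : (Zr p Ω).subtype.comp ((Subring.inclusion (f4_le p Ω ρ)).comp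
    ((inc p Ω).codRestrict (Zf p Ω ρ) (f4_inc_mem p Ω ρ))) = inc p Ω := by
    ext <;> rfl
  rw [h4] at h3
  change (Zr p Ω).subtype _ = 0
  rw [h3]
  exact hb

theorem F4 {H : Type} [Group H] (ρ : GG p Ω →* H) (hρ : Ad p Ω ρ) (s : GG p Ω) (hs : ρ s ≠ 1)
    (q : Ideal (Zf p Ω ρ)) (hq : q.IsPrime) :
    ∃ b : Zf p Ω ρ, (⟨s b, gal_Zf ρ s b.2⟩ : Zf p Ω ρ) - b ∉ q := by
  by_contra hcon
  push Not at hcon
  -- a prime over `q`
  let _ := (Subring.inclusion (f4_le p Ω ρ)).toAlgebra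
  have hint : Algebra.IsIntegral (Zf p Ω ρ) (Zr p Ω) := ⟨f4_integral p Ω ρ⟩
  have hker : RingHom.ker (algebraMap (Zf p Ω ρ) (Zr p Ω)) ≤ q := by
    intro b hb
    have h1 : Subring.inclusion (f4_le p Ω ρ) b = 0 := hb
    have h2 : b = 0 := by
      apply Subtype.ext
      have h3 := congrArg (Subtype.val : Zr p Ω → Ω) h1
      exact h3
    rw [h2]
    exact q.zero_mem
  obtain ⟨q1, hq1, hq1q⟩ := Ideal.exists_ideal_over_prime_of_isIntegral_of_isDomain q hker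
  have mem1 : ∀ b : Zf p Ω ρ, b ∈ q ↔ (⟨b, b.2.1⟩ : Zr p Ω) ∈ q1 := by
    intro b
    rw [← hq1q]
    exact Iff.rfl
  -- the second prime
  let σ : Zr p Ω →+* Zr p Ω :=
    { toFun := fun b => ⟨s b, gal_Zr s b.2⟩
      map_one' := Subtype.ext (map_one s)
      map_mul' := fun a b => Subtype.ext (map_mul s _ _)
      map_zero' := Subtype.ext (map_zero s)
      map_add' := fun a b => Subtype.ext (map_add s _ _) }
  let q2 : Ideal (Zr p Ω) := q1.comap σ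
  have hq2 : q2.IsPrime := Ideal.comap_isPrime σ q1
  have mem2 : ∀ b : Zr p Ω, b ∈ q2 ↔ (⟨s b, gal_Zr s b.2⟩ : Zr p Ω) ∈ q1 := fun b => Iff.rfl
  obtain ⟨g, hg1, hg2⟩ := F2 p Ω ρ hρ.fin q1 q2 hq1 hq2 (by
    intro b hb
    rw [mem2]
    have e1 := mem1 ⟨b, hb⟩
    have e2 := mem1 ⟨s b, gal_Zf ρ s hb⟩
    have e3 := hcon ⟨b, hb⟩
    change b ∈ q1 ↔ _
    have e1' : (⟨(b : Ω), hb⟩ : Zf p Ω ρ) ∈ q ↔ b ∈ q1 := e1
    rw [← e1', ← e2]
    constructor
    · intro h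
      have := q.add_mem e3 h
      simpa using this
    · intro h
      have := q.sub_mem h e3
      simpa using this)
  obtain ⟨g', hg'1, hg'2⟩ := F3 p Ω ρ hρ.fin q1 hq1 (s * g) (by
    intro b
    exact (hg2 b).trans (mem2 _)) (by
    intro b hb
    have e0 : g (b : Ω) = b := hb.2 g hg1
    have e3 := hcon ⟨b, hb⟩
    rw [mem1] at e3
    convert e3 using 1
    apply Subtype.ext
    change s (g (b : Ω)) - (b : Ω) = s (b : Ω) - (b : Ω)
    rw [e0])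
  have hin : Inert (g' * (s * g)) := by
    refine ⟨q1, hq1, fun b => ⟨_, hg'2 b, ?_⟩⟩
    rfl
  have h1 := hρ.inert _ hin
  rw [map_mul, map_mul, hg'1, hg1, one_mul, mul_one] at h1
  exact hs h1

end Pool.Agent.QPC
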