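import Mathlib
import Pool.Agent.QPC.Defs
import Pool.Agent.QPC.F4

/-!
# QPC row F5: Chase-Harrison-Rosenberg system and element of trace one
Plan. `F5`. For `h ∈ ρ.range`, `h ≠ 1`, choose `s_h` with `ρ s_h = h`. On `Zf` the element `s_h` acts by a ring automorphism
which depends only on `h` (`Zf` is fixed by the kernel). By `F4` the ideal of `Zf` generated by all `b - s_h b` is not
contained in a maximal ideal, so it is `⊤`: `∑ x_i (y_i - s_h y_i) = 1`. Adding the pair `(-∑ x_i s_h y_i, 1)`: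
`∑ x_i y_i = 1`, `∑ x_i s_h(y_i) = 0`. Multiply these systems over all `h ≠ 1` (finite number): index set = product of the
index sets, `x = ∏ x^{(h)}`, `y = ∏ y^{(h)}`; for `g` with `ρ g ≠ 1` one of the factors vanishes. (Induction over a finset of `h`.)
`F6`. The map `Tr b := ∑_h σ_h b` has values in the elements of `Z` fixed by all of `GG` (independent of the lifts `σ`), these form the ring
`A`; `Tr(Zf)` is an ideal of `A`. Reproducing formula: `s = ∑ x_i Tr(y_i s)` for `s ∈ Zf`. If `1 ∉ Tr(Zf)` take a maximal ideal `m` of `A` containing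
`Tr(Zf)`; then `Zf = m Zf`, impossible since `Zf` is integral over `A` (a prime of `Zf` lies over `m`). So `Tr c = 1` for some `c ∈ Zf`.
-/

set_option autoImplicit false

namespace Pool.Agent.QPC

open Polynomial

variable (p : ℕ) [Fact p.Prime] (Ω : Type) [Field Ω] [Algebra (RatFunc (ZMod p)) Ω]
  [IsSepClosed Ω] [Algebra.IsSeparable (RatFunc (ZMod p)) Ω]

omit [IsSepClosed Ω] [Algebra.IsSeparable (RatFunc (ZMod p)) Ω] in
/-- On `Zf` the action of `g` depends only on `ρ g`. -/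
theorem f5_act {H : Type} [Group H] (ρ : GG p Ω →* H) {g g' : GG p Ω} (h : ρ g = ρ g')
    {b : Ω} (hb : b ∈ Zf p Ω ρ) : g b = g' b := by
  have h1 : ρ (g'⁻¹ * g) = 1 := by rw [map_mul, map_inv, h, inv_mul_cancel]
  have h2 := hb.2 _ h1
  have h3 := congrArg g' h2
  have h4 : g' ((g'⁻¹ * g) b) = g b := by
    change (g' * (g'⁻¹ * g)) b = _
    rw [mul_inv_cancel_left]
  rw [h4] at h3
  exact h3

/-- Existence of a system for a set `S` of automorphisms. -/
def f5_Sys {H : Type} [Group H] (ρ : GG p Ω →* H) (S : Set (GG p Ω)) : Prop :=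
  ∃ (ι : Type) (_ : Fintype ι) (x y : ι → Ω), (∀ i, x i ∈ Zf p Ω ρ) ∧ (∀ i, y i ∈ Zf p Ω ρ) ∧
      ∑ i, x i * y i = 1 ∧ ∀ g ∈ S, ∑ i, x i * g (y i) = 0

omit [IsSepClosed Ω] [Algebra.IsSeparable (RatFunc (ZMod p)) Ω] in
theorem f5_empty {H : Type} [Group H] (ρ : GG p Ω →* H) : f5_Sys p Ω ρ ∅ :=
  ⟨Unit, inferInstance, fun _ => 1, fun _ => 1, fun _ => one_mem _, fun _ => one_mem _,
    by simp, by simp⟩

omit [IsSepClosed Ω] [Algebra.IsSeparable (RatFunc (ZMod p)) Ω] in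
theorem f5_union {H : Type} [Group H] (ρ : GG p Ω →* H) {S T : Set (GG p Ω)}
    (hS : f5_Sys p Ω ρ S) (hT : f5_Sys p Ω ρ T) : f5_Sys p Ω ρ (S ∪ T) := by
  obtain ⟨ι, hι, x, y, hx, hy, h1, h2⟩ := hS
  obtain ⟨κ, hκ, x', y', hx', hy', h1', h2'⟩ := hT
  refine ⟨ι × κ, inferInstance, fun i => x i.1 * x' i.2, fun i => y i.1 * y' i.2,
    fun i => mul_mem (hx _) (hx' _), fun i => mul_mem (hy _) (hy' _), ?_, ?_⟩
  · have h3 : ∑ i : ι × κ, x i.1 * x' i.2 * (y i.1 * y' i.2)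
        = (∑ i, x i * y i) * ∑ j, x' j * y' j := by
      rw [Finset.sum_mul_sum, Fintype.sum_prod_type]
      exact Finset.sum_congr rfl fun i _ => Finset.sum_congr rfl fun j _ => by ring
    rw [h3, h1, h1', one_mul]
  · intro g hg
    have h3 : ∑ i : ι × κ, x i.1 * x' i.2 * g (y i.1 * y' i.2)
        = (∑ i, x i * g (y i)) * ∑ j, x' j * g (y' j) := by
      rw [Finset.sum_mul_sum, Fintype.sum_prod_type]
      exact Finset.sum_congr rfl fun i _ => Finset.sum_congr rfl fun j _ => by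
        rw [map_mul]; ring
    rw [h3]
    rcases hg with hg | hg
    · rw [h2 g hg, zero_mul]
    · rw [h2' g hg, mul_zero]

/-- The system for one element. -/
theorem f5_one {H : Type} [Group H] (ρ : GG p Ω →* H) (hρ : Ad p Ω ρ) (s : GG p Ω)
    (hs : ρ s ≠ 1) : f5_Sys p Ω ρ {g | ρ g = ρ s} := by
  classical
  let v : Zf p Ω ρ → Zf p Ω ρ := fun b => (⟨s b, gal_Zf ρ s b.2⟩ : Zf p Ω ρ) - b
  have htop : Ideal.span (Set.range v) = ⊤ := by
    by_contra hne
    obtain ⟨q, hq, hle⟩ := Ideal.exists_le_maximal _ hne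
    obtain ⟨b, hb⟩ := F4 p Ω ρ hρ s hs q hq.isPrime
    exact hb (hle (Ideal.subset_span ⟨b, rfl⟩))
  have h1 : (1 : Zf p Ω ρ) ∈ Ideal.span (Set.range v) := by rw [htop]; trivial
  obtain ⟨c, hc⟩ := Finsupp.mem_ideal_span_range_iff_exists_finsupp.mp h1
  have hc' : ∑ b ∈ c.support, c b * v b = 1 := hc
  have hcΩ : ∑ b ∈ c.support, (c b : Ω) * (s b - b) = 1 := by
    have h2 := congrArg (Subring.subtype (Zf p Ω ρ)) hc'
    rw [map_sum, map_one] at h2
    rw [← h2]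
    exact Finset.sum_congr rfl fun b _ => rfl
  refine ⟨Option c.support, inferInstance,
    fun i => i.elim (∑ b ∈ c.support, (c b : Ω) * s b) (fun b => -(c b : Ω)),
    fun i => i.elim 1 (fun b => ((b : Zf p Ω ρ) : Ω)), ?_, ?_, ?_, ?_⟩
  · rintro (_ | b)
    · exact sum_mem fun b _ => mul_mem (c b).2 (gal_Zf ρ s b.2)
    · exact neg_mem (c b).2
  · rintro (_ | b)
    · exact one_mem _
    · exact (b : Zf p Ω ρ).2
  · rw [Fintype.sum_option]
    simp only [Option.elim]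
    rw [mul_one, Finset.sum_coe_sort c.support (fun b => -(c b : Ω) * (b : Ω)),
      ← Finset.sum_add_distrib, ← hcΩ]
    exact Finset.sum_congr rfl fun b _ => by ring
  · intro g hg
    have hg' : ρ g = ρ s := hg
    rw [Fintype.sum_option]
    simp only [Option.elim]
    rw [map_one, mul_one, Finset.sum_coe_sort c.support (fun b => -(c b : Ω) * g (b : Ω)),
      ← Finset.sum_add_distrib]
    exact Finset.sum_eq_zero fun b _ => by rw [f5_act p Ω ρ hg' b.2]; ring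

theorem f5_all {H : Type} [Group H] (ρ : GG p Ω →* H) (hρ : Ad p Ω ρ) (F : Finset H)
    (hF : (1 : H) ∉ F) : f5_Sys p Ω ρ {g | ρ g ∈ F} := by
  classical
  induction F using Finset.induction_on with
  | empty =>
    have h : {g : GG p Ω | ρ g ∈ (∅ : Finset H)} = ∅ := by ext g; simp
    rw [h]
    exact f5_empty p Ω ρ
  | insert a F ha ih =>
    have h1 : (1 : H) ∉ F := fun h => hF (Finset.mem_insert_of_mem h)
    have h2 : a ≠ 1 := fun h => hF (h ▸ Finset.mem_insert_self _ _)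
    have h3 : {g : GG p Ω | ρ g ∈ insert a F} = {g | ρ g = a} ∪ {g | ρ g ∈ F} := by
      ext g; simp
    rw [h3]
    refine f5_union p Ω ρ ?_ (ih h1)
    by_cases h4 : ∃ s, ρ s = a
    · obtain ⟨s, rfl⟩ := h4
      exact f5_one p Ω ρ hρ s h2
    · have h5 : {g : GG p Ω | ρ g = a} = ∅ := by
        ext g
        simp only [Set.mem_ofPred_eq, Set.mem_empty_iff_false, iff_false]
        exact fun h => h4 ⟨g, h⟩
      rw [h5]
      exact f5_empty p Ω ρ

theorem F5 {H : Type} [Group H] [Finite H] (ρ : GG p Ω →* H) (hρ : Ad p Ω ρ) :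
    ∃ (N : ℕ) (x y : Fin N → Ω), (∀ i, x i ∈ Zf p Ω ρ) ∧ (∀ i, y i ∈ Zf p Ω ρ) ∧
      ∑ i, x i * y i = 1 ∧ ∀ g : GG p Ω, ρ g ≠ 1 → ∑ i, x i * g (y i) = 0 := by
  classical
  have := Fintype.ofFinite H
  obtain ⟨ι, hι, x, y, hx, hy, h1, h2⟩ := f5_all p Ω ρ hρ (Finset.univ.erase 1) (by simp)
  let e := (Fintype.equivFin ι).symm
  refine ⟨Fintype.card ι, fun i => x (e i), fun i => y (e i), fun i => hx _, fun i => hy _, ?_, ?_⟩
  · rw [← h1]
    exact Equiv.sum_comp e (fun i => x i * y i)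
  · intro g hg
    rw [← h2 g (by simpa using hg)]
    exact Equiv.sum_comp e (fun i => x i * g (y i))

/-- The elements of `Zf` fixed by all automorphisms. -/
noncomputable def f5_A {H : Type} [Group H] (ρ : GG p Ω →* H) : Subring (Zf p Ω ρ) where
  carrier := {b | ∀ g : GG p Ω, g (b : Ω) = b}
  mul_mem' := fun {a b} ha hb g => by
    rw [Subring.coe_mul, map_mul, ha g, hb g]
  one_mem' := fun g => map_one g
  add_mem' := fun {a b} ha hb g => by
    rw [Subring.coe_add, map_add, ha g, hb g]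
  zero_mem' := fun g => map_zero g
  neg_mem' := fun {a} ha g => by rw [Subring.coe_neg, map_neg, ha g]

omit [IsSepClosed Ω] [Algebra.IsSeparable (RatFunc (ZMod p)) Ω] in
theorem f5_inc {H : Type} [Group H] (ρ : GG p Ω →* H) (P : (ZMod p)[X]) :
    inc p Ω P ∈ Zf p Ω ρ :=
  ⟨RingHom.isIntegralElem_map (inc p Ω), fun g _ => gal_inc g P⟩

omit [IsSepClosed Ω] [Algebra.IsSeparable (RatFunc (ZMod p)) Ω] in
theorem f5_int {H : Type} [Group H] (ρ : GG p Ω →* H) :
    Algebra.IsIntegral (f5_A p Ω ρ) (Zf p Ω ρ) := by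
  refine ⟨fun b => ?_⟩
  obtain ⟨P, hP, hb⟩ := b.2.1
  let j : (ZMod p)[X] →+* Zf p Ω ρ := (inc p Ω).codRestrict (Zf p Ω ρ) (f5_inc p Ω ρ)
  let i : (ZMod p)[X] →+* f5_A p Ω ρ := j.codRestrict (f5_A p Ω ρ) (fun P g => gal_inc g P)
  refine ⟨P.map i, hP.map i, ?_⟩
  rw [Polynomial.eval₂_map]
  apply Subtype.ext
  have h1 := Polynomial.hom_eval₂ P ((algebraMap (f5_A p Ω ρ) (Zf p Ω ρ)).comp i)
    (Zf p Ω ρ).subtype b
  change (Zf p Ω ρ).subtype _ = 0
  rw [h1]
  exact hb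

theorem F6 {H : Type} [Group H] [Fintype H] (ρ : GG p Ω →* H) (hρ : Ad p Ω ρ)
    (hs : Function.Surjective ρ) :
    ∃ c ∈ Zf p Ω ρ, ∀ σ : H → GG p Ω, (∀ h, ρ (σ h) = h) → ∑ h, (σ h) c = 1 := by
  classical
  let τ : H → GG p Ω := Function.surjInv hs
  have hτ : ∀ h, ρ (τ h) = h := Function.surjInv_eq hs
  -- the trace
  have hmem : ∀ b : Zf p Ω ρ, ∑ h, (τ h) (b : Ω) ∈ Zf p Ω ρ :=
    fun b => sum_mem fun h _ => gal_Zf ρ _ b.2
  have hfix : ∀ b : Zf p Ω ρ, ∀ g : GG p Ω, g (∑ h, (τ h) (b : Ω)) = ∑ h, (τ h) (b : Ω) := by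
    intro b g
    rw [map_sum, ← Equiv.sum_comp (Equiv.mulLeft (ρ g)) (fun h => (τ h) (b : Ω))]
    refine Finset.sum_congr rfl fun h _ => ?_
    change (g * τ h) (b : Ω) = τ (ρ g * h) (b : Ω)
    exact f5_act p Ω ρ (by rw [map_mul, hτ, hτ]) b.2
  let T : Zf p Ω ρ →ₗ[f5_A p Ω ρ] f5_A p Ω ρ :=
    { toFun := fun b => ⟨⟨∑ h, (τ h) (b : Ω), hmem b⟩, hfix b⟩
      map_add' := fun a b => by
        apply Subtype.ext; apply Subtype.ext
        change ∑ h, (τ h) ((a : Ω) + b) = ∑ h, (τ h) (a : Ω) + ∑ h, (τ h) (b : Ω)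
        rw [← Finset.sum_add_distrib]
        exact Finset.sum_congr rfl fun h _ => map_add _ _ _
      map_smul' := fun r b => by
        apply Subtype.ext; apply Subtype.ext
        change ∑ h, (τ h) (((r : Zf p Ω ρ) : Ω) * b) = ((r : Zf p Ω ρ) : Ω) * ∑ h, (τ h) (b : Ω)
        rw [Finset.mul_sum]
        exact Finset.sum_congr rfl fun h _ => by rw [map_mul, r.2 (τ h)] }
  have hT : ∀ b, (((T b : f5_A p Ω ρ) : Zf p Ω ρ) : Ω) = ∑ h, (τ h) (b : Ω) := fun b => rfl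
  have key : LinearMap.range T = ⊤ := by
    by_contra hne
    obtain ⟨m, hm, hle⟩ := Ideal.exists_le_maximal (LinearMap.range T : Ideal (f5_A p Ω ρ)) hne
    have := f5_int p Ω ρ
    have := hm
    obtain ⟨Q, hQ, hQm⟩ := Ideal.exists_ideal_over_maximal_of_isIntegral (S := Zf p Ω ρ) m
      (by
        have h0 : RingHom.ker (algebraMap (f5_A p Ω ρ) (Zf p Ω ρ)) = ⊥ :=
          (RingHom.injective_iff_ker_eq_bot _).mp Subtype.val_injective
        rw [h0]; exact bot_le)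
    obtain ⟨N, x, y, hx, hy, h1, h2⟩ := F5 p Ω ρ hρ
    have h3 : ∑ i, (⟨x i, hx i⟩ : Zf p Ω ρ) * (T ⟨y i, hy i⟩ : Zf p Ω ρ) = 1 := by
      apply Subtype.ext
      change (Zf p Ω ρ).subtype _ = 1
      rw [map_sum]
      have h4 : ∀ i, (Zf p Ω ρ).subtype ((⟨x i, hx i⟩ : Zf p Ω ρ) * (T ⟨y i, hy i⟩ : Zf p Ω ρ))
          = ∑ h, x i * (τ h) (y i) := by
        intro i
        rw [← Finset.mul_sum]
        rfl
      rw [Finset.sum_congr rfl fun i _ => h4 i, Finset.sum_comm,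
        Finset.sum_eq_single (1 : H)]
      · rw [← h1]
        refine Finset.sum_congr rfl fun i _ => ?_
        rw [(hy i).2 (τ 1) (hτ 1)]
      · intro h _ hh
        exact h2 (τ h) (by rw [hτ]; exact hh)
      · intro h; exact absurd (Finset.mem_univ _) h
    apply hQ.ne_top
    rw [Ideal.eq_top_iff_one, ← h3]
    refine sum_mem fun i _ => Ideal.mul_mem_left _ _ ?_
    have h5 : T ⟨y i, hy i⟩ ∈ m := hle ⟨_, rfl⟩
    rw [← hQm] at h5
    exact h5
  have h1 : (1 : f5_A p Ω ρ) ∈ LinearMap.range T := by rw [key]; trivial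
  obtain ⟨c, hc⟩ := h1
  refine ⟨c, c.2, fun σ hσ => ?_⟩
  have h2 : ∑ h, (τ h) (c : Ω) = 1 := by
    rw [← hT c, hc]; rfl
  rw [← h2]
  exact Finset.sum_congr rfl fun h _ => f5_act p Ω ρ (by rw [hσ, hτ]) c.2

end Pool.Agent.QPC
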