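import Mathlib
import Pool.Agent.QPC.Defs
import Pool.Agent.QPC.Defs4
import Pool.Agent.QPC.F1
import Pool.Agent.QPC.F5
import Pool.Agent.QPC.F11

/-!
# QPC row K1: the ring `O = Zg p Ω ρb` over `k[X]`
`algk`, `algZg`, `actZg`, `commZg`, `algZg_coe`, `actZg_coe`, `Gb` are in QPC.Defs3, QPC.Defs4.
Plan. `K1a`: every `a ∈ kF` satisfies `a^(p^r) = a` with `r > 0` (integral over `ZMod p`).
`K1b`: let `K := FractionRing O`; an element `a/b` integral over `O`; map `K → Ω` (lift of the injective `O → Ω`); its image `y` in `Ω` is integral over `O`, so integral over `F_p[X]` (elements of `Zr` are integral via `inc`), `y ∈ Zr`; and `y` is fixed by the geometric elements of `ker ρb` (quotient of two fixed elements). So `y ∈ Zg`.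
`K1c`: `F5` gives `x_i, y_i ∈ Zf ⊆ Zg` with `∑ x_i y_i = 1`, `∑ x_i g (y_i) = 0` if `ρb g ≠ 1`; for `s : Gb`, `s ≠ 1` take `g := lft`. `K1d`: `a` fixed by `Gb` is fixed by all geometric `g` (`actZg_coe`); `F11`.
`K1e`: by `K1c`, `K1d` and the reproducing formula `a = ∑ x_i Tr(y_i a)` (`Pool.QPC.CHR.trace`), `O` is generated by the `x_i` over `k[X]`; it is torsion free (domain, the structure map is injective by `F1c`), `k[X]` is a PID: free of finite rank (`Module.free_of_finite_type_torsion_free'`, `Module.finBasis`).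
-/

set_option autoImplicit false

namespace Pool.Agent.QPC

open Polynomial

variable (p : ℕ) [Fact p.Prime] (Ω : Type) [Field Ω] [Algebra (RatFunc (ZMod p)) Ω]
  [IsSepClosed Ω] [Algebra.IsSeparable (RatFunc (ZMod p)) Ω]

theorem K1a : Algebra.IsAlgebraic (ZMod p) (kF p Ω) := by
  constructor
  intro a
  obtain ⟨r, hr, ha⟩ := a.2
  have h1 : 1 < p ^ r := Nat.one_lt_pow hr.ne' (Fact.out : p.Prime).one_lt
  refine ⟨X ^ p ^ r - X,
    (monic_X_pow_sub (by rw [degree_X]; exact_mod_cast h1)).ne_zero, ?_⟩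
  rw [map_sub, map_pow, aeval_X, sub_eq_zero]
  exact Subtype.ext ha

variable {Hb : Type} [Group Hb] (ρb : GG p Ω →* Hb)

omit [IsSepClosed Ω] [Algebra.IsSeparable (RatFunc (ZMod p)) Ω] in
theorem k1_int (y : Ω) (P : (Zg p Ω ρb)[X]) (hP : P.Monic)
    (h : P.eval₂ (Zg p Ω ρb).subtype y = 0) : y ∈ Zr p Ω := by
  letI : Algebra (ZMod p)[X] Ω := (inc p Ω).toAlgebra
  let C := integralClosure (ZMod p)[X] Ω
  have hsub : ∀ a : Zg p Ω ρb, (a : Ω) ∈ C := fun a => a.2.1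
  let j : Zg p Ω ρb →+* C :=
    { toFun := fun a => ⟨a, hsub a⟩
      map_one' := rfl
      map_mul' := fun _ _ => rfl
      map_zero' := rfl
      map_add' := fun _ _ => rfl }
  have hy : IsIntegral C y := by
    refine ⟨P.map j, hP.map j, ?_⟩
    rw [eval₂_map]
    exact h
  have hy2 : IsIntegral (ZMod p)[X] y := isIntegral_trans y hy
  exact hy2

theorem K1b : IsIntegrallyClosed (Zg p Ω ρb) := by
  rw [isIntegrallyClosed_iff (FractionRing (Zg p Ω ρb))]
  intro x hx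
  have hinj : Function.Injective (Zg p Ω ρb).subtype := Subtype.val_injective
  let φ : FractionRing (Zg p Ω ρb) →+* Ω := IsFractionRing.lift hinj
  have hφ : ∀ a : Zg p Ω ρb, φ (algebraMap _ _ a) = a := fun a =>
    IsFractionRing.lift_algebraMap hinj a
  obtain ⟨P, hP, hx⟩ := hx
  have h1 : φ x ∈ Zr p Ω := by
    refine k1_int p Ω ρb (φ x) P hP ?_
    have h2 := congrArg φ hx
    rw [map_zero, hom_eval₂] at h2
    have h3 : φ.comp (algebraMap (Zg p Ω ρb) (FractionRing (Zg p Ω ρb))) =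
        (Zg p Ω ρb).subtype := RingHom.ext hφ
    rw [h3] at h2
    exact h2
  have h4 : ∀ g : GG p Ω, Geo g → ρb g = 1 → g (φ x) = φ x := by
    intro g hg hg1
    obtain ⟨a, b, hb, rfl⟩ := IsFractionRing.div_surjective (A := Zg p Ω ρb) x
    rw [map_div₀, hφ, hφ, map_div₀, a.2.2 g hg hg1, b.2.2 g hg hg1]
  refine ⟨⟨φ x, h1, h4⟩, ?_⟩
  apply φ.injective
  rw [hφ]

theorem K1c [Finite Hb] (hρ : Ad p Ω ρb) : Pool.QPC.CHR (Gb p Ω ρb) (Zg p Ω ρb) := by
  obtain ⟨N, x, y, hx, hy, h1, h2⟩ := F5 p Ω ρb hρ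
  have hle : ∀ b ∈ Zf p Ω ρb, b ∈ Zg p Ω ρb := fun b hb => ⟨hb.1, fun g _ hg => hb.2 g hg⟩
  refine ⟨N, fun i => ⟨x i, hle _ (hx i)⟩, fun i => ⟨y i, hle _ (hy i)⟩, ?_, ?_⟩
  · apply Subtype.ext
    rw [AddSubmonoidClass.coe_finsetSum]
    exact h1
  · intro s hs
    apply Subtype.ext
    rw [AddSubmonoidClass.coe_finsetSum]
    have h3 : ρb (lft ρb s) ≠ 1 := by
      rw [lft_rho]
      intro h4
      exact hs (Subtype.ext h4)
    have h5 := h2 _ h3
    refine Eq.trans (Finset.sum_congr rfl fun i _ => ?_) h5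
    rw [MulMemClass.coe_mul, actZg_coe ρb s _ (lft_geo ρb s) (lft_rho ρb s)]

theorem K1d (a : Zg p Ω ρb) (h : ∀ s : Gb p Ω ρb, s • a = a) :
    ∃ P, a = algebraMap (kF p Ω)[X] (Zg p Ω ρb) P := by
  have h1 : ∀ g : GG p Ω, Geo g → g (a : Ω) = a := by
    intro g hg
    have h2 := actZg_coe ρb (⟨ρb g, g, hg, rfl⟩ : Gb p Ω ρb) a hg rfl
    rw [h] at h2
    exact h2.symm
  obtain ⟨P, hP⟩ := F11 p Ω (a : Ω) a.2.1 h1
  exact ⟨P, Subtype.ext (by rw [algZg_coe, hP])⟩

theorem K1e [Finite Hb] (hρ : Ad p Ω ρb) :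
    ∃ n : ℕ, Nonempty (Module.Basis (Fin n) (kF p Ω)[X] (Zg p Ω ρb)) := by
  classical
  have := Fintype.ofFinite (Gb p Ω ρb)
  obtain ⟨N, x, y, h1, h2⟩ := K1c p Ω ρb hρ
  have hfin : Module.Finite (kF p Ω)[X] (Zg p Ω ρb) := by
    refine ⟨⟨Finset.univ.image x, ?_⟩⟩
    rw [eq_top_iff]
    intro a _
    rw [Pool.QPC.CHR.trace h1 h2 a]
    refine Submodule.sum_mem _ fun i _ => ?_
    obtain ⟨P, hP⟩ := K1d p Ω ρb (∑ s : Gb p Ω ρb, s • (y i * a)) (by
      intro t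
      rw [Finset.smul_sum]
      simp only [smul_smul]
      exact Fintype.sum_equiv (Equiv.mulLeft t) _ _ fun s => rfl)
    rw [hP, mul_comm, ← Algebra.smul_def]
    exact Submodule.smul_mem _ _ (Submodule.subset_span (by simp))
  have hinj : Function.Injective (algebraMap (kF p Ω)[X] (Zg p Ω ρb)) := by
    intro P Q hPQ
    apply F1c p Ω
    rw [← algZg_coe p Ω ρb, ← algZg_coe p Ω ρb, hPQ]
  have htf : Module.IsTorsionFree (kF p Ω)[X] (Zg p Ω ρb) :=
    Module.isTorsionFree_iff_algebraMap_injective.mpr hinj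
  have hfree : Module.Free (kF p Ω)[X] (Zg p Ω ρb) := Module.free_of_finite_type_torsion_free'
  exact ⟨_, ⟨Module.finBasis (kF p Ω)[X] (Zg p Ω ρb)⟩⟩

end Pool.Agent.QPC
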