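import Mathlib
import Pool.Agent.QPC.Defs
import Pool.Agent.QPC.Defs4
import Pool.Agent.QPC.F1
import Pool.Agent.QPC.F5
import Pool.Agent.QPC.F11
import Pool.Agent.QPC.K1

/-!
# QPC row D1: `K_ρ` moves the m-th roots of `X`
Plan. `D1a`: `u` is not a unit of `Zr` (`xx` is not: `Zr` is integral over `F_p[xx]`, a maximal ideal lies over `(xx)`; or: `xx⁻¹` integral over `F_p[xx]` is impossible). Let `O := Zg p Ω ρ`, `P` a maximal ideal of `O` containing `u` (non-unit of `O`). For `s : Gb p Ω ρ`: `s • u ∈ P`? `(s • u)^d = xx = u^d ∈ P`, so `s • u ∈ P` for all `s`; hence `s • (y u) ∈ P` for all `y ∈ O`, `s`.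
So `Tr(y_i u) ∈ P ∩ k[X]` (`K1d`), a proper ideal containing `X`, so it is `(X)` (`X` generates a maximal ideal of `k[X]`). `u = ∑ x_i Tr(y_i u) ∈ X O = u^d O` (`K1c`, `Pool.QPC.CHR.trace`), so `1 ∈ u^(d-1) O`, `u` is a unit: contradiction.
`D1`: `v' = ε v`, `ε^m = 1`, `ε ∈ kk` (`m` prime to `p`: `p^s ≡ 1 mod m` for some `s > 0`). `A := {ε | ε^m = 1, ∃ g geometric, ρ g = 1, g v = ε v}` is a subgroup of the cyclic group `μ_m` (rootsOfUnity in `Ω`), `A = μ_{m'}` with `m' ∣ m` its order; `v^m'` is fixed by all such `g` and is in `Zr`; `(v^m')^(m/m') = xx`; by `D1a` `m / m' < 2`, so `A = μ_m`.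
-/

set_option autoImplicit false

namespace Pool.Agent.QPC

open Polynomial

variable (p : ℕ) [Fact p.Prime] (Ω : Type) [Field Ω] [Algebra (RatFunc (ZMod p)) Ω]
  [IsSepClosed Ω] [Algebra.IsSeparable (RatFunc (ZMod p)) Ω]

private theorem d1_inv_not : ¬ (xx p Ω)⁻¹ ∈ Zr p Ω := by
  intro h
  obtain ⟨P, hP⟩ := F11 p Ω (xx p Ω)⁻¹ h (fun g _ => by rw [map_inv₀, gal_xx])
  have hx : inck p Ω X = xx p Ω := by
    change eval₂ _ _ _ = _
    rw [eval₂_X]
  have hx0 : xx p Ω ≠ 0 := by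
    intro h0
    have h1 : inck p Ω X = inck p Ω 0 := by rw [hx, h0, map_zero]
    exact X_ne_zero (F1c p Ω h1)
  have h1 : inck p Ω (P * X) = inck p Ω 1 := by
    rw [map_mul, hP, hx, map_one, inv_mul_cancel₀ hx0]
  have h2 : P * X = 1 := F1c p Ω h1
  have h3 : IsUnit (X : (kF p Ω)[X]) := IsUnit.of_mul_eq_one P (by rw [mul_comm]; exact h2)
  exact not_isUnit_X h3

private theorem d1_xx_ne : xx p Ω ≠ 0 := by
  intro h0
  have hx : inck p Ω X = xx p Ω := by
    change eval₂ _ _ _ = _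
    rw [eval₂_X]
  have h1 : inck p Ω X = inck p Ω 0 := by rw [hx, h0, map_zero]
  exact X_ne_zero (F1c p Ω h1)

omit [IsSepClosed Ω] [Algebra.IsSeparable (RatFunc (ZMod p)) Ω]
  [Algebra (RatFunc (ZMod p)) Ω] in
private theorem d1_kk {m : ℕ} (hm : 0 < m) (hmp : m.Coprime p) (e : Ω) (he : e ^ m = 1) :
    e ∈ kk p Ω := by
  refine ⟨Nat.totient m, Nat.totient_pos.mpr hm, ?_⟩
  have h1 : p ^ Nat.totient m ≡ 1 [MOD m] := Nat.ModEq.pow_totient hmp.symm
  have h2 : 1 ≤ p ^ Nat.totient m := Nat.one_le_pow _ _ (Fact.out : p.Prime).pos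
  obtain ⟨k, hk⟩ := (Nat.modEq_iff_dvd' h2).mp h1.symm
  have h3 : p ^ Nat.totient m = m * k + 1 := by omega
  rw [h3, pow_succ, pow_mul, he, one_pow, one_mul]

theorem D1a {H : Type} [Group H] [Finite H] (ρ : GG p Ω →* H) (hρ : Ad p Ω ρ) (d : ℕ) (hd : 2 ≤ d)
    (u : Ω) (hu : u ∈ Zg p Ω ρ) : u ^ d ≠ xx p Ω := by
  classical
  intro hux
  have hx0 := d1_xx_ne p Ω
  have hu0 : u ≠ 0 := by
    rintro rfl
    rw [zero_pow (by omega)] at hux
    exact hx0 hux.symm
  let uO : Zg p Ω ρ := ⟨u, hu⟩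
  let X' : Zg p Ω ρ := algebraMap (kF p Ω)[X] (Zg p Ω ρ) X
  have hX' : (X' : Ω) = xx p Ω := by
    change inck p Ω X = _
    change eval₂ _ _ _ = _
    rw [eval₂_X]
  have huX : uO ^ d = X' := Subtype.ext (by
    rw [hX']
    exact hux)
  have hnu : ¬ IsUnit uO := by
    intro h
    obtain ⟨w, hw⟩ := h.exists_right_inv
    apply d1_inv_not p Ω
    have h1 : u * (w : Ω) = 1 := congrArg Subtype.val hw
    have h2 : (xx p Ω)⁻¹ = (w : Ω) ^ d := by
      rw [inv_eq_iff_eq_inv, ← inv_pow, ← hux]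
      congr 1
      exact eq_inv_of_mul_eq_one_left h1
    rw [h2]
    exact pow_mem w.2.1 d
  obtain ⟨P, hPmax, hPu⟩ := exists_max_ideal_of_mem_nonunits (a := uO) hnu
  have hPp : P.IsPrime := hPmax.isPrime
  have hXP : X' ∈ P := by
    rw [← huX]
    exact Ideal.pow_mem_of_mem P hPu d (by omega)
  have hs : ∀ s : Gb p Ω ρ, s • uO ∈ P := by
    intro s
    have h1 : (s • uO) ^ d = X' := by
      rw [← smul_pow', huX]
      apply Subtype.ext
      change lft ρ s (X' : Ω) = (X' : Ω)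
      rw [hX', gal_xx]
    exact hPp.mem_of_pow_mem d (by rw [h1]; exact hXP)
  obtain ⟨N, x, y, h1, h2⟩ := K1c p Ω ρ hρ
  have : Fintype (Gb p Ω ρ) := Fintype.ofFinite _
  have htr := Pool.QPC.CHR.trace (G := Gb p Ω ρ) (O := Zg p Ω ρ) h1 h2 uO
  have hinv : ∀ i, ∃ Q : (kF p Ω)[X],
      ∑ s : Gb p Ω ρ, s • (y i * uO) = X' * algebraMap (kF p Ω)[X] (Zg p Ω ρ) Q := by
    intro i
    have hT : ∀ t : Gb p Ω ρ, t • ∑ s : Gb p Ω ρ, s • (y i * uO) =
        ∑ s : Gb p Ω ρ, s • (y i * uO) := by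
      intro t
      rw [Finset.smul_sum]
      simp only [smul_smul]
      exact Fintype.sum_bijective (fun s => t * s) (Group.mulLeft_bijective t) _ _ (fun s => rfl)
    obtain ⟨Pi, hPi⟩ := K1d p Ω ρ _ hT
    have hmem : ∑ s : Gb p Ω ρ, s • (y i * uO) ∈ P := by
      refine Ideal.sum_mem P fun s _ => ?_
      rw [smul_mul']
      exact P.mul_mem_left _ (hs s)
    rw [hPi] at hmem
    have hcomap : Pi ∈ P.comap (algebraMap (kF p Ω)[X] (Zg p Ω ρ)) := hmem
    have hle : Ideal.span {(X : (kF p Ω)[X])} ≤ P.comap (algebraMap (kF p Ω)[X] (Zg p Ω ρ)) := by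
      rw [Ideal.span_singleton_le_iff_mem]
      exact hXP
    have hmx : (Ideal.span {(X : (kF p Ω)[X])}).IsMaximal :=
      PrincipalIdealRing.isMaximal_of_irreducible irreducible_X
    have hne : P.comap (algebraMap (kF p Ω)[X] (Zg p Ω ρ)) ≠ ⊤ :=
      (Ideal.comap_isPrime (algebraMap (kF p Ω)[X] (Zg p Ω ρ)) P).ne_top
    have heq := hmx.eq_of_le hne hle
    rw [← heq, Ideal.mem_span_singleton] at hcomap
    obtain ⟨Q, hQ⟩ := hcomap
    refine ⟨Q, ?_⟩
    rw [hPi, hQ, map_mul]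
  choose Q hQ using hinv
  have h3 : uO = uO ^ d * ∑ i, x i * algebraMap (kF p Ω)[X] (Zg p Ω ρ) (Q i) := by
    conv_lhs => rw [htr]
    rw [huX, Finset.mul_sum]
    refine Finset.sum_congr rfl fun i _ => ?_
    rw [hQ i]
    ring
  apply hnu
  have huO : uO ≠ 0 := fun h => hu0 (congrArg Subtype.val h)
  have hd1 : d = 1 + ((d - 2) + 1) := by omega
  have h4 : uO * 1 = uO * (uO * (uO ^ (d - 2) *
      ∑ i, x i * algebraMap (kF p Ω)[X] (Zg p Ω ρ) (Q i))) := by
    rw [mul_one]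
    conv_lhs => rw [h3, hd1]
    ring
  exact IsUnit.of_mul_eq_one _ (mul_left_cancel₀ huO h4).symm

theorem D1 {H : Type} [Group H] [Finite H] (ρ : GG p Ω →* H) (hρ : Ad p Ω ρ) (m : ℕ) (hm : 0 < m)
    (hmp : m.Coprime p) (v v' : Ω) (hv : v ^ m = xx p Ω) (hv' : v' ^ m = xx p Ω) :
    ∃ g : GG p Ω, Geo g ∧ ρ g = 1 ∧ g v = v' := by
  classical
  have hx0 := d1_xx_ne p Ω
  have hv0 : v ≠ 0 := by
    rintro rfl
    rw [zero_pow hm.ne'] at hv
    exact hx0 hv.symm
  have : NeZero m := ⟨hm.ne'⟩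
  let A : Subgroup Ωˣ :=
    { carrier := {e | e ^ m = 1 ∧ ∃ g : GG p Ω, Geo g ∧ ρ g = 1 ∧ g v = e * v}
      mul_mem' := by
        rintro e e' ⟨h1, g, hg, hg1, hgv⟩ ⟨h1', g', hg', hg1', hgv'⟩
        refine ⟨by rw [mul_pow, h1, h1', one_mul], g * g', hg.mul hg', by
          rw [map_mul, hg1, hg1', one_mul], ?_⟩
        have h2 : (g * g') v = g (g' v) := rfl
        have h3 : g (e' : Ω) = e' := hg _ (d1_kk p Ω hm hmp _ (by
          rw [← Units.val_pow_eq_pow_val, h1', Units.val_one]))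
        rw [h2, hgv', map_mul, h3, hgv, Units.val_mul]
        ring
      one_mem' := ⟨one_pow _, 1, fun _ _ => rfl, map_one ρ, by
        rw [Units.val_one, one_mul]
        rfl⟩
      inv_mem' := by
        rintro e ⟨h1, g, hg, hg1, hgv⟩
        refine ⟨by rw [inv_pow, h1, inv_one], g⁻¹, hg.inv, by rw [map_inv, hg1, inv_one], ?_⟩
        have h3 : g⁻¹ (e : Ω) = e := hg.inv _ (d1_kk p Ω hm hmp _ (by
          rw [← Units.val_pow_eq_pow_val, h1, Units.val_one]))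
        have h4 : g⁻¹ (g v) = v := by
          change (g⁻¹ * g) v = v
          rw [inv_mul_cancel]
          rfl
        rw [hgv, map_mul, h3] at h4
        rw [← h4, ← mul_assoc, ← Units.val_mul, inv_mul_cancel, Units.val_one, one_mul]
        exact congrArg (fun z => g⁻¹ z) h4 }
  have hle : A ≤ rootsOfUnity m Ω := by
    rintro e ⟨h1, -⟩
    rw [mem_rootsOfUnity]
    exact h1
  have hfin : Finite A := Finite.of_injective _ (Subgroup.inclusion_injective hle)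
  have hcyc : IsCyclic A := isCyclic_subgroup_units A
  have hdvd : Nat.card A ∣ m := by
    obtain ⟨γ, hγ⟩ := IsCyclic.exists_generator (α := A)
    rw [← orderOf_eq_card_of_forall_mem_zpowers hγ]
    exact orderOf_dvd_of_pow_eq_one (Subtype.ext γ.2.1)
  have hcard : ∀ e : Ωˣ, e ∈ A → e ^ Nat.card A = 1 := by
    intro e he
    have h1 : (⟨e, he⟩ : A) ^ Nat.card A = 1 := pow_card_eq_one'
    exact congrArg Subtype.val h1
  have hvm : v ^ Nat.card A ∈ Zg p Ω ρ := by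
    refine ⟨pow_mem ?_ _, ?_⟩
    · refine ⟨X ^ m - C X, monic_X_pow_sub_C _ hm.ne', ?_⟩
      rw [eval₂_sub, eval₂_pow, eval₂_X, eval₂_C, hv]
      exact sub_self _
    · intro g hg hg1
      have h1 : (g v / v) ^ m = 1 := by
        rw [div_pow, ← map_pow, hv, gal_xx, div_self hx0]
      have hgv0 : g v ≠ 0 := (map_ne_zero g).mpr hv0
      have h2 : Units.mk0 (g v / v) (div_ne_zero hgv0 hv0) ∈ A := by
        refine ⟨Units.ext ?_, g, hg, hg1, ?_⟩
        · rw [Units.val_pow_eq_pow_val, Units.val_mk0, h1, Units.val_one]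
        · rw [Units.val_mk0, div_mul_cancel₀ _ hv0]
      have h3 := congrArg Units.val (hcard _ h2)
      rw [Units.val_pow_eq_pow_val, Units.val_mk0, Units.val_one, div_pow,
        div_eq_one_iff_eq (pow_ne_zero _ hv0)] at h3
      rw [map_pow, h3]
  have hcardm : Nat.card A = m := by
    obtain ⟨k, hk⟩ := hdvd
    have h1 : ¬ 2 ≤ k := fun h2 => D1a p Ω ρ hρ k h2 _ hvm (by rw [← pow_mul, ← hk, hv])
    have h2 : k ≠ 0 := by
      rintro rfl
      rw [mul_zero] at hk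
      omega
    have h3 : k = 1 := by omega
    rw [h3, mul_one] at hk
    exact hk.symm
  have hA : A = rootsOfUnity m Ω := by
    refine Subgroup.eq_of_le_of_card_ge hle ?_
    rw [hcardm]
    exact card_rootsOfUnity Ω m
  have hv0' : v' ≠ 0 := by
    rintro rfl
    rw [zero_pow hm.ne'] at hv'
    exact hx0 hv'.symm
  have h1 : Units.mk0 (v' / v) (div_ne_zero hv0' hv0) ∈ A := by
    rw [hA, mem_rootsOfUnity]
    apply Units.ext
    rw [Units.val_pow_eq_pow_val, Units.val_mk0, Units.val_one, div_pow, hv, hv', div_self hx0]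
  obtain ⟨-, g, hg, hg1, hgv⟩ := h1
  refine ⟨g, hg, hg1, ?_⟩
  rw [hgv, Units.val_mk0, div_mul_cancel₀ _ hv0]

end Pool.Agent.QPC
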