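import Mathlib
import Pool.Agent.QPC.Defs
import Pool.Agent.QPC.F1

/-!
# QPC row F10: a valuation of `Ω` with `V(X) > 1`
Plan. Let `k[1/X] ⊆ Ω` localised at the ideal `(1/X)`: a local subring; `LocalSubring.exists_le_valuationSubring` (Mathlib, RingTheory/Valuation/LocalSubring) gives a
valuation subring `V` dominating it. (Or: the subring generated by `xx⁻¹`, and a prime ideal of it containing `xx⁻¹`; `xx⁻¹` is not a unit of `F_p[1/X]` since `xx` is transcendental, `F1c`.)
`F10b`: a constant `a ≠ 0` satisfies `a^(p^r - 1) = 1`, so its valuation is `1`. `F10c`: the leading term dominates (ultrametric inequality, all other monomials are strictly smaller).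
-/

set_option autoImplicit false

namespace Pool.Agent.QPC

open Polynomial

variable (p : ℕ) [Fact p.Prime] (Ω : Type) [Field Ω] [Algebra (RatFunc (ZMod p)) Ω]
  [IsSepClosed Ω] [Algebra.IsSeparable (RatFunc (ZMod p)) Ω]

private theorem f10_xx_not_mem : xx p Ω ∉ kF p Ω := by
  intro h
  have h1 : inck p Ω (X - C ⟨xx p Ω, h⟩) = 0 := by
    simp [inck]
  have h2 := (F1c p Ω) (h1.trans (map_zero (inck p Ω)).symm)
  exact X_sub_C_ne_zero _ h2

private theorem f10_closed : IsIntegrallyClosedIn (kF p Ω).toSubring Ω := by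
  rw [Subring.isIntegrallyClosedIn_iff]
  rintro x ⟨P, hP, hx⟩
  let e : (kF p Ω).toSubring →+* kF p Ω :=
    { toFun := fun y => ⟨y.1, y.2⟩
      map_one' := rfl
      map_mul' := fun _ _ => rfl
      map_zero' := rfl
      map_add' := fun _ _ => rfl }
  have h1 : (P.map e) ≠ 0 := (hP.map e).ne_zero
  refine F1b p Ω x (P.map e) h1 ?_
  rw [Polynomial.eval₂_map]
  exact hx

private theorem f10_pow {Γ : Type*} [LinearOrderedCommGroupWithZero Γ] (v : Γ) (n : ℕ)
    (hn : n ≠ 0) (h : v ^ n = 1) : v = 1 := (pow_eq_one_iff_of_nonneg zero_le hn).mp h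

theorem F10 : ∃ V : ValuationSubring Ω, 1 < V.valuation (xx p Ω) := by
  have := f10_closed p Ω
  have hx : xx p Ω ∉ (kF p Ω).toSubring := f10_xx_not_mem p Ω
  obtain ⟨V, -, hV⟩ := Subring.exists_le_valuationSubring_of_isIntegrallyClosedIn hx
  refine ⟨V, ?_⟩
  rw [← not_le, ValuationSubring.valuation_le_one_iff]
  exact hV

theorem F10b (V : ValuationSubring Ω) (a : Ω) (ha : a ∈ kk p Ω) (h0 : a ≠ 0) :
    V.valuation a = 1 := by
  obtain ⟨r, hr, h⟩ := ha
  have hp : 1 < p := (Fact.out : p.Prime).one_lt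
  have h1 : 1 < p ^ r := Nat.one_lt_pow hr.ne' hp
  have h2 : a ^ (p ^ r - 1) = 1 := by
    have h3 : a ^ (p ^ r - 1) * a = 1 * a := by
      rw [← pow_succ, Nat.sub_add_cancel h1.le, h, one_mul]
    exact mul_right_cancel₀ h0 h3
  refine f10_pow _ (p ^ r - 1) (by omega) ?_
  rw [← map_pow, h2, map_one]

theorem F10c (V : ValuationSubring Ω) (hV : 1 < V.valuation (xx p Ω)) (P : (kF p Ω)[X])
    (hP : P ≠ 0) : V.valuation (inck p Ω P) = V.valuation (xx p Ω) ^ P.natDegree := by
  classical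
  have h0 : ∀ i : ℕ, P.coeff i ≠ 0 →
      V.valuation (((P.coeff i : kF p Ω) : Ω) * xx p Ω ^ i) = V.valuation (xx p Ω) ^ i := by
    intro i hi
    rw [map_mul, map_pow, F10b p Ω V _ (P.coeff i).2 (fun h => hi (Subtype.ext h)), one_mul]
  have h1 : inck p Ω P = ∑ i ∈ P.support, ((P.coeff i : kF p Ω) : Ω) * xx p Ω ^ i := by
    change P.eval₂ _ _ = _
    rw [Polynomial.eval₂_eq_sum]
    rfl
  have h3 : V.valuation (∑ i ∈ P.support, ((P.coeff i : kF p Ω) : Ω) * xx p Ω ^ i) =
      V.valuation (((P.coeff P.natDegree : kF p Ω) : Ω) * xx p Ω ^ P.natDegree) := by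
    refine Valuation.map_sum_eq_of_lt (v := V.valuation)
      (f := fun i => ((P.coeff i : kF p Ω) : Ω) * xx p Ω ^ i)
      (Polynomial.natDegree_mem_support_of_nonzero hP) ?_
    intro i hi
    rw [Finset.mem_sdiff, Finset.mem_singleton, Polynomial.mem_support_iff] at hi
    rw [h0 i hi.1, h0 _ (Polynomial.leadingCoeff_ne_zero.mpr hP)]
    have h2 : i ≤ P.natDegree := Polynomial.le_natDegree_of_ne_zero hi.1
    exact pow_lt_pow_right₀ hV (lt_of_le_of_ne h2 hi.2)
  rw [h1, h3]
  exact h0 _ (Polynomial.leadingCoeff_ne_zero.mpr hP)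

end Pool.Agent.QPC
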