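import Mathlib
import Pool.Agent.QPC.Defs
import Pool.Agent.QPC.Defs4
import Pool.Agent.QPC.F1
import Pool.Agent.QPC.F10
import Pool.Agent.QPC.D0
import Pool.Agent.QPC.D1

/-!
# QPC row D2: Artin-Schreier extensions of `k(v)` are not in `L(v)`
Plan. Suppose that every geometric `g` with `ρ g = 1`, `g v = v` fixes `z`. Let `ζ` be a primitive `m`-th root of unity (`IsSepClosed`, `m` prime to `p`: `HasEnoughRootsOfUnity`/`IsSepClosed.exists_primitiveRoot`), `ζ ∈ kk`, `μ` geometric with `ρ μ = 1`, `μ v = ζ v` (`D1`). For geometric `g` with `g v = v`: `(g z - z)^p = g z - z` (since `g (b v) = b v`), so `χ(g) := g z - z ∈ {x | x^p = x} ⊆ kk`.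
`g (μ z) = μ ((μ⁻¹ g μ) z) = μ z + χ(μ⁻¹ g μ)`; `μ⁻¹ g μ` fixes `v`, and `g⁻¹ (μ⁻¹ g μ)` is geometric, in `ker ρ`, fixes `v`, so fixes `z`; hence `χ(μ⁻¹ g μ) = χ(g)` (`(μ⁻¹gμ) z = g (g⁻¹ μ⁻¹ g μ) z = g z`). So `y := μ z - z` is fixed by all geometric `g` with `g v = v`. `z ∈ Zr` (integral over `Zr`), so `y ∈ Zr`, and `D0c` (for `u := v`, `f := X^m`): `y = P(v)`, `P ∈ k[X]`.
`y^p - y = μ(b v) - b v = b (ζ - 1) v`, so `P^p - P = C (b(ζ-1)) X` (`eval₂ subtype v` is injective on `k[X]`: `v` transcendental over `k`, else `xx = v^m ∈ k`), impossible: `natDegree (P^p - P)` is `0` or a multiple of `p` (`p * natDegree P`), and `b (ζ - 1) ≠ 0` (`m ≥ 2`).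
-/

set_option autoImplicit false

namespace Pool.Agent.QPC

open Polynomial

variable (p : ℕ) [Fact p.Prime] (Ω : Type) [Field Ω] [Algebra (RatFunc (ZMod p)) Ω]
  [IsSepClosed Ω] [Algebra.IsSeparable (RatFunc (ZMod p)) Ω]

omit [Algebra.IsSeparable (RatFunc (ZMod p)) Ω] in
theorem d2_zeta (m : ℕ) (hm : 2 ≤ m) (hmp : m.Coprime p) :
    ∃ ζ : Ω, ζ ∈ kk p Ω ∧ ζ ^ m = 1 ∧ ζ ≠ 1 := by
  have := om_charP p Ω
  have hp := (Fact.out : p.Prime)
  have : NeZero (m : Ω) := ⟨by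
    intro h
    rw [CharP.cast_eq_zero_iff Ω p] at h
    have h2 := Nat.Coprime.eq_one_of_dvd hmp.symm h
    exact hp.one_lt.ne' h2⟩
  obtain ⟨ζ, hζ⟩ := HasEnoughRootsOfUnity.exists_primitiveRoot Ω m
  refine ⟨ζ, ⟨m.totient, Nat.totient_pos.2 (by omega), ?_⟩, hζ.pow_eq_one, ?_⟩
  · have h1 : p ^ m.totient ≡ 1 [MOD m] := Nat.ModEq.pow_totient hmp.symm
    have h2 : m ∣ p ^ m.totient - 1 :=
      (Nat.modEq_iff_dvd' (Nat.one_le_pow _ _ hp.pos)).1 h1.symm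
    obtain ⟨c, hc⟩ := h2
    have h3 : p ^ m.totient = m * c + 1 := by
      have := Nat.one_le_pow m.totient p hp.pos
      omega
    rw [h3, pow_succ, pow_mul, hζ.pow_eq_one, one_pow, one_mul]
  · intro h
    have := hζ.dvd_of_pow_eq_one 1 (by rw [h, one_pow])
    have := Nat.le_of_dvd one_pos this
    omega

omit [IsSepClosed Ω] [Algebra.IsSeparable (RatFunc (ZMod p)) Ω] in
theorem d2_int (m : ℕ) (hm : 0 < m) (v : Ω) (hv : v ^ m = xx p Ω) (β : Ω) (hβ : β ∈ kk p Ω)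
    (h0 : β ≠ 0) (z : Ω) (hz : z ^ p - z = β * v) : z ∈ Zr p Ω := by
  have hp := (Fact.out : p.Prime)
  obtain ⟨r, hr, hβr⟩ := hβ
  have hq : 1 < p ^ r := Nat.one_lt_pow hr.ne' hp.one_lt
  have hβ1 : β ^ (p ^ r - 1) = 1 := by
    have h1 : β ^ (p ^ r - 1) * β = 1 * β := by
      rw [← pow_succ, Nat.sub_add_cancel hq.le, hβr, one_mul]
    exact mul_right_cancel₀ h0 h1
  have hk : 0 < m * (p ^ r - 1) := Nat.mul_pos hm (Nat.sub_pos_of_lt hq)
  have hmon : (X ^ p - X : ((ZMod p)[X])[X]).Monic :=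
    monic_X_pow_sub (by rw [degree_X]; exact_mod_cast hp.one_lt)
  have hdeg : (X ^ p - X : ((ZMod p)[X])[X]).natDegree = p := by
    rw [natDegree_sub_eq_left_of_natDegree_lt]
    · exact natDegree_X_pow p
    · rw [natDegree_X, natDegree_X_pow]
      exact hp.one_lt
  refine ⟨(X ^ p - X) ^ (m * (p ^ r - 1)) - C (X ^ (p ^ r - 1)), ?_, ?_⟩
  · refine (hmon.pow _).sub_of_left ?_
    refine lt_of_le_of_lt degree_C_le ?_
    rw [← natDegree_pos_iff_degree_pos, hmon.natDegree_pow, hdeg]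
    exact Nat.mul_pos hk hp.pos
  · rw [eval₂_sub, eval₂_pow, eval₂_sub, eval₂_pow, eval₂_X, eval₂_C, map_pow]
    change _ - (xx p Ω) ^ (p ^ r - 1) = 0
    rw [hz, mul_pow, pow_mul v, hv, mul_comm m, pow_mul β, hβ1, one_pow, one_mul, sub_self]

theorem D2 {H : Type} [Group H] [Finite H] (ρ : GG p Ω →* H) (hρ : Ad p Ω ρ) (m : ℕ) (hm : 2 ≤ m)
    (hmp : m.Coprime p) (v : Ω) (hv : v ^ m = xx p Ω) (β : Ω) (hβ : β ∈ kk p Ω) (h0 : β ≠ 0)
    (z : Ω) (hz : z ^ p - z = β * v) :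
    ∃ g : GG p Ω, Geo g ∧ ρ g = 1 ∧ g v = v ∧ g z ≠ z := by
  classical
  have := om_charP p Ω
  have hp := (Fact.out : p.Prime)
  by_contra hne
  have H0 : ∀ g : GG p Ω, Geo g → ρ g = 1 → g v = v → g z = z := by
    intro g h1 h2 h3
    by_contra h4
    exact hne ⟨g, h1, h2, h3, h4⟩
  obtain ⟨ζ, hζk, hζ1, hζne⟩ := d2_zeta p Ω m hm hmp
  obtain ⟨μ, hμ, hμρ, hμv⟩ := D1 p Ω ρ hρ m (by omega) hmp v (ζ * v) hv (by
    rw [mul_pow, hζ1, one_mul, hv])
  have hinvapp : ∀ x, μ⁻¹ (μ x) = x := fun x => by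
    change (μ⁻¹ * μ) x = x
    rw [inv_mul_cancel]; rfl
  have happinv : ∀ x, μ (μ⁻¹ x) = x := fun x => by
    change (μ * μ⁻¹) x = x
    rw [mul_inv_cancel]; rfl
  -- the element `y`
  have hfix : ∀ g : GG p Ω, Geo g → g v = v → g (μ z - z) = μ z - z := by
    intro g hg hgv
    have hg' : Geo (μ⁻¹ * g * μ) := hg.conj μ
    have hg'v : (μ⁻¹ * g * μ) v = v := by
      change μ⁻¹ (g (μ v)) = v
      rw [hμv, map_mul, hg ζ hζk, hgv, ← hμv, hinvapp]
    have h1 : (g⁻¹ * (μ⁻¹ * g * μ)) z = z := by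
      refine H0 _ (hg.inv.mul hg') ?_ ?_
      · rw [map_mul, map_mul, map_mul, map_inv, map_inv, hμρ]
        simp
      · change g⁻¹ ((μ⁻¹ * g * μ) v) = v
        rw [hg'v]
        have h2 : g⁻¹ (g v) = v := by
          change (g⁻¹ * g) v = v
          rw [inv_mul_cancel]; rfl
        rwa [hgv] at h2
    have h2 : (μ⁻¹ * g * μ) z = g z := by
      have h3 := congrArg g h1
      have h4 : g ((g⁻¹ * (μ⁻¹ * g * μ)) z) = (μ⁻¹ * g * μ) z := by
        change (g * g⁻¹) ((μ⁻¹ * g * μ) z) = _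
        rw [mul_inv_cancel]; rfl
      rwa [h4] at h3
    have h3 : g (μ z) = μ (g z) := by
      rw [← h2]
      exact (happinv _).symm
    have hχ : (g z - z) ^ p = g z - z := by
      rw [sub_pow_char]
      have h4 := congrArg g hz
      rw [map_sub, map_pow, map_mul, hg β hβ, hgv, ← hz] at h4
      linear_combination h4
    have hχk : g z - z ∈ kk p Ω := ⟨1, one_pos, by rw [pow_one]; exact hχ⟩
    have h4 : μ (g z - z) = g z - z := hμ _ hχk
    rw [map_sub] at h4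
    rw [map_sub, h3]
    linear_combination h4
  have hzZ : z ∈ Zr p Ω := d2_int p Ω m (by omega) v hv β hβ h0 z hz
  have hyZ : μ z - z ∈ Zr p Ω := sub_mem (gal_Zr μ hzZ) hzZ
  obtain ⟨P, hP⟩ := D0c p Ω v (X ^ m) (by rw [eval₂_pow, eval₂_X, hv]) (μ z - z) hyZ hfix
  -- the equation
  have hy : (μ z - z) ^ p - (μ z - z) = β * (ζ - 1) * v := by
    rw [sub_pow_char]
    have h4 := congrArg μ hz
    rw [map_sub, map_pow, map_mul, hμ β hβ, hμv] at h4
    linear_combination h4 - hz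
  have hγk : β * (ζ - 1) ∈ kF p Ω := (kF p Ω).mul_mem hβ ((kF p Ω).sub_mem hζk (kF p Ω).one_mem)
  have hγ0 : β * (ζ - 1) ≠ 0 := mul_ne_zero h0 (sub_ne_zero.2 hζne)
  obtain ⟨γ, hγ⟩ : ∃ γ : kF p Ω, (γ : Ω) = β * (ζ - 1) := ⟨⟨_, hγk⟩, rfl⟩
  have hev : (P ^ p - P - C γ * X).eval₂ (kF p Ω).subtype v = 0 := by
    rw [eval₂_sub, eval₂_sub, eval₂_pow, hP, eval₂_mul, eval₂_C, eval₂_X, hy]
    change _ - (γ : Ω) * v = 0
    rw [hγ, sub_self]
  have hzero : P ^ p - P - C γ * X = 0 := by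
    by_contra hQ
    have hvk := F1b p Ω v _ hQ hev
    have hxk : xx p Ω ∈ kF p Ω := by
      rw [← hv]
      exact (kF p Ω).pow_mem hvk m
    have h5 : inck p Ω (X - C ⟨_, hxk⟩) = 0 := by
      change eval₂ _ _ _ = 0
      rw [eval₂_sub, eval₂_X, eval₂_C]
      exact sub_self _
    have h6 := F1c p Ω (h5.trans (map_zero (inck p Ω)).symm)
    exact X_sub_C_ne_zero _ h6
  have hγ1 : γ ≠ 0 := by
    intro h
    apply hγ0
    rw [← hγ, h]
    rfl
  have heq : P ^ p - P = C γ * X := sub_eq_zero.1 hzero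
  have hdeg := congrArg natDegree heq
  rw [natDegree_C_mul_X _ hγ1] at hdeg
  rcases Nat.eq_zero_or_pos P.natDegree with hd | hd
  · rw [natDegree_eq_zero] at hd
    obtain ⟨c, rfl⟩ := hd
    rw [← C_pow, ← C_sub, natDegree_C] at hdeg
    exact zero_ne_one hdeg
  · have h7 : (P ^ p).natDegree = p * P.natDegree := natDegree_pow P p
    have h8 : P.natDegree < (P ^ p).natDegree := by
      rw [h7]
      have := hp.two_le
      nlinarith
    rw [natDegree_sub_eq_left_of_natDegree_lt h8, h7] at hdeg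
    have h9 := Nat.eq_one_of_mul_eq_one_right hdeg
    exact hp.one_lt.ne' h9

end Pool.Agent.QPC
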