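import Mathlib
import Pool.Agent.QPC.Defs
import Pool.Agent.QPC.Defs3

/-!
# QPC row ET: the translations
Plan. Write `w0 := Ψ.symm xx`. `ET1`: `w := Ψ.symm (xx + a)` satisfies `Ψ ((w^(p^r) - w)^(ℓ^e)) = ((xx+a)^(p^r) - (xx+a))^(ℓ^e) = (xx^(p^r) - xx)^(ℓ^e) = Ψ xx` (`add_pow_char_pow`), so `hG.trans` gives `g`; `t := Ψ.symm.trans (g.trans Ψ)`.
`ET2`: composition; `t (a') = a'` by `ET6` (`a' ∈ kk`). `ET6`: `Ψ`, `g`, fix the constants. `ET3`: `u := t⁻¹ ∘ t'` fixes `xx` and `kk` (`t (xx) = xx + a`, `t a = a`), so it is in `GG` (`toGG`), geometric, and `cj hΨ u = g⁻¹ g'` is in `ker ρ`; so `u x = x`. `ET4`: for `g0` geometric with `ρ (cj g0) = 1`: `t⁻¹ g0 t` fixes `xx` (as `g0 (xx + a) = xx + a`, `a ∈ kk`), constants, and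
`cj` of it is `g⁻¹ (cj g0) g`, in `ker ρ`; so it fixes `x`. `ET5`: `u := t⁻¹ g⁻¹ t g` fixes `xx`, constants, `cj u = gt⁻¹ (cj g)⁻¹ gt (cj g)`, in `ker ρ` (normal); so `u x = x`.
-/

set_option autoImplicit false

namespace Pool.Agent.QPC

open Polynomial

variable {p : ℕ} [Fact p.Prime] {Ω : Type} [Field Ω] [Algebra (RatFunc (ZMod p)) Ω]
  {H : Type} [Group H] {ρ : GG p Ω →* H} {Hb : Type} [Group Hb] {ρb : GG p Ω →* Hb}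
  {ℓ e r : ℕ} {b ζ F : Ω} {Ψ : Ω ≃+* Ω} {hΨ : PsiOK p Ψ}

theorem ET1 (hG : GO ρ ρb ℓ e r b ζ F Ψ hΨ) {a : Ω} (ha : a ^ p ^ r = a) :
    ∃ t, IsT ρ Ψ a t := by
  have := om_charP p Ω
  have hw : ((Ψ.symm (xx p Ω + a)) ^ p ^ r - Ψ.symm (xx p Ω + a)) ^ ℓ ^ e = xx p Ω := by
    apply Ψ.injective
    rw [map_pow, map_sub, map_pow, RingEquiv.apply_symm_apply, hG.Psi_xx, add_pow_char_pow, ha]
    congr 1
    ring
  obtain ⟨g, hg, hr, h1⟩ := hG.trans _ hw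
  refine ⟨(Ψ.symm.trans (g : Ω ≃+* Ω)).trans Ψ, ⟨g, hg, hr, fun x => rfl⟩, ?_⟩
  change Ψ (g (Ψ.symm (xx p Ω))) = xx p Ω + a
  rw [h1, RingEquiv.apply_symm_apply]

theorem ET6 (hΨ : PsiOK p Ψ) {a : Ω} {t : Ω ≃+* Ω} (ht : IsT ρ Ψ a t) {c : Ω} (hc : c ∈ kk p Ω) :
    t c = c := by
  obtain ⟨g, hg, _, h1⟩ := ht.ex
  rw [h1, hΨ.kk' hc, hg c hc, hΨ.kk c hc]

theorem ET2 (hΨ : PsiOK p Ψ) {a a' : Ω} (ha' : a' ∈ kk p Ω) {t t' : Ω ≃+* Ω}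
    (ht : IsT ρ Ψ a t) (ht' : IsT ρ Ψ a' t') : IsT ρ Ψ (a + a') (t'.trans t) := by
  obtain ⟨g, hg, hr, h1⟩ := ht.ex
  obtain ⟨g', hg', hr', h1'⟩ := ht'.ex
  refine ⟨⟨g * g', hg.mul hg', by rw [map_mul, hr, hr', one_mul], fun x => ?_⟩, ?_⟩
  · rw [RingEquiv.trans_apply, h1, h1', RingEquiv.symm_apply_apply, AlgEquiv.mul_apply]
  · rw [RingEquiv.trans_apply, ht'.tx, map_add, ht.tx, ET6 hΨ ht ha', add_assoc]

theorem et_symm_kk (hΨ : PsiOK p Ψ) {a : Ω} {t : Ω ≃+* Ω} (ht : IsT ρ Ψ a t) {c : Ω}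
    (hc : c ∈ kk p Ω) : t.symm c = c := by
  rw [RingEquiv.symm_apply_eq]
  exact (ET6 hΨ ht hc).symm

theorem et_symm_xx {a : Ω} {t : Ω ≃+* Ω} (ht : IsT ρ Ψ a t) :
    t.symm (xx p Ω + a) = xx p Ω := by
  rw [RingEquiv.symm_apply_eq]
  exact ht.tx.symm

theorem et_symm_psi {t : Ω ≃+* Ω} {g : GG p Ω} (h : ∀ x, t x = Ψ (g (Ψ.symm x))) (y : Ω) :
    t.symm (Ψ y) = Ψ (g⁻¹ y) := by
  rw [RingEquiv.symm_apply_eq, h, RingEquiv.symm_apply_apply]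
  congr 1
  change y = (g * g⁻¹) y
  rw [mul_inv_cancel]; rfl

theorem et_psi {t : Ω ≃+* Ω} {g : GG p Ω} (h : ∀ x, t x = Ψ (g (Ψ.symm x))) (y : Ω) :
    t (Ψ y) = Ψ (g y) := by
  rw [h, RingEquiv.symm_apply_apply]

theorem ET3 (hΨ : PsiOK p Ψ) {a : Ω} (ha : a ∈ kk p Ω) {t t' : Ω ≃+* Ω}
    (ht : IsT ρ Ψ a t) (ht' : IsT ρ Ψ a t') {x : Ω}
    (hx : ∀ g : GG p Ω, Geo g → ρ (cj hΨ g) = 1 → g x = x) : t x = t' x := by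
  have _ := ha
  obtain ⟨g, hg, hr, h1⟩ := ht.ex
  obtain ⟨g', hg', hr', h1'⟩ := ht'.ex
  have h3 : (t'.trans t.symm) (xx p Ω) = xx p Ω := by
    rw [RingEquiv.trans_apply, ht'.tx, et_symm_xx ht]
  have h4 : Geo (toGG p Ω _ h3) := fun c hc => by
    rw [toGG_apply, RingEquiv.trans_apply, ET6 hΨ ht' hc, et_symm_kk hΨ ht hc]
  have h5 : cj hΨ (toGG p Ω _ h3) = g⁻¹ * g' := by
    ext y
    rw [cj_apply, toGG_apply, RingEquiv.trans_apply, et_psi h1', et_symm_psi h1,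
      RingEquiv.symm_apply_apply, AlgEquiv.mul_apply]
  have h6 := hx _ h4 (by rw [h5, map_mul, map_inv, hr, hr', inv_one, one_mul])
  rw [toGG_apply, RingEquiv.trans_apply, RingEquiv.symm_apply_eq] at h6
  exact h6.symm

theorem ET4 (hΨ : PsiOK p Ψ) {a : Ω} (ha : a ∈ kk p Ω) {t : Ω ≃+* Ω} (ht : IsT ρ Ψ a t) {x : Ω}
    (hx : ∀ g : GG p Ω, Geo g → ρ (cj hΨ g) = 1 → g x = x) :
    ∀ g : GG p Ω, Geo g → ρ (cj hΨ g) = 1 → g (t x) = t x := by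
  intro g0 hg0 hr0
  obtain ⟨g, hg, hr, h1⟩ := ht.ex
  have h3 : ((t.trans (g0 : Ω ≃+* Ω)).trans t.symm) (xx p Ω) = xx p Ω := by
    change t.symm (g0 (t (xx p Ω))) = xx p Ω
    rw [ht.tx, map_add, gal_xx, hg0 a ha, et_symm_xx ht]
  have h4 : Geo (toGG p Ω _ h3) := fun c hc => by
    change t.symm (g0 (t c)) = c
    rw [ET6 hΨ ht hc, hg0 c hc, et_symm_kk hΨ ht hc]
  have h5 : cj hΨ (toGG p Ω _ h3) = g⁻¹ * cj hΨ g0 * g := by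
    ext y
    change Ψ.symm (t.symm (g0 (t (Ψ y)))) = g⁻¹ (cj hΨ g0 (g y))
    rw [et_psi h1, ← Psi_cj hΨ, et_symm_psi h1, RingEquiv.symm_apply_apply]
  have h6 := hx _ h4 (by rw [h5, map_mul, map_mul, map_inv, hr, hr0, inv_one, one_mul, one_mul])
  change t.symm (g0 (t x)) = x at h6
  rw [RingEquiv.symm_apply_eq] at h6
  exact h6

theorem ET5 (hΨ : PsiOK p Ψ) {a : Ω} (ha : a ∈ kk p Ω) {t : Ω ≃+* Ω} (ht : IsT ρ Ψ a t)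
    (g : GG p Ω) (hg : Geo g) {x : Ω}
    (hx : ∀ g : GG p Ω, Geo g → ρ (cj hΨ g) = 1 → g x = x) : t (g x) = g (t x) := by
  obtain ⟨gt, hgt, hr, h1⟩ := ht.ex
  have h3 : ((((g : Ω ≃+* Ω).trans t).trans ((g⁻¹ : GG p Ω) : Ω ≃+* Ω)).trans t.symm) (xx p Ω)
      = xx p Ω := by
    change t.symm (g⁻¹ (t (g (xx p Ω)))) = xx p Ω
    rw [gal_xx, ht.tx, map_add, gal_xx, hg.inv a ha, et_symm_xx ht]
  have h4 : Geo (toGG p Ω _ h3) := fun c hc => by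
    change t.symm (g⁻¹ (t (g c))) = c
    rw [hg c hc, ET6 hΨ ht hc, hg.inv c hc, et_symm_kk hΨ ht hc]
  have h5 : cj hΨ (toGG p Ω _ h3) = gt⁻¹ * cj hΨ g⁻¹ * gt * cj hΨ g := by
    ext y
    change Ψ.symm (t.symm (g⁻¹ (t (g (Ψ y))))) = gt⁻¹ (cj hΨ g⁻¹ (gt (cj hΨ g y)))
    rw [← Psi_cj hΨ g, et_psi h1, ← Psi_cj hΨ g⁻¹, et_symm_psi h1, RingEquiv.symm_apply_apply]
  have h6 := hx _ h4 (by
    rw [h5, map_mul, map_mul, map_mul, map_inv, hr, inv_one, one_mul, mul_one, ← map_mul,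
      ← map_mul, inv_mul_cancel, map_one, map_one])
  change t.symm (g⁻¹ (t (g x))) = x at h6
  rw [RingEquiv.symm_apply_eq] at h6
  rw [← h6]
  change _ = (g * g⁻¹) (t (g x))
  rw [mul_inv_cancel]; rfl

end Pool.Agent.QPC
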