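import Mathlib
import Pool.Agent.QPC.Defs
import Pool.Agent.QPC.Defs3
import Pool.Agent.QPC.ET

/-!
# QPC row E1d: trace conditions
Plan. `κ := {x | x^(p^r) = x}` is a finite field with `p^r` elements inside `Ω` (`Ω` is separably closed, the roots of the separable polynomial `X^(p^r) - X`; `IsSepClosed` is not even needed for the following if one counts... use it: it splits, so `κ` has exactly `p^r` elements). `zz p r` maps `κ` to `F_p = {x | x^p = x}` (`zz_frob`), it is additive and `F_p`-linear (`zz_smul`).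
`E1d1` (nondegenerate): if `β ∈ κ` and `zz p r (β a) = 0` for all `a ∈ κ` then `β = 0`: the polynomial `∑_{i<r} β^(p^i) T^(p^i)` has degree `< p^r` and `p^r` roots, so it is `0`.
`E1d2`: by `E1d1` some `a ∈ κ` has `s := zz (β a) ≠ 0`, `s^p = s`; take `s⁻¹ a`.
`E1d3`: `c β ≠ s β` for every `s` with `s^p = s` (hypothesis `h`). Suppose that `zz (c β a) = 0` implies `zz (β a) = 0` for all `a ∈ κ`. Choose `a0 ∈ κ` with `zz (c β a0) = 1` (`E1d2`), `s := zz (β a0)`; for all `a ∈ κ`, `a - zz(c β a) a0` is killed by `zz (c β ·)`, so `zz (β a) = s zz (c β a)`; so `zz ((β - s c β) a) = 0` for all `a`, `β = s (c β)`, contradiction (`s ≠ 0` since `β ≠ 0`; take inverse). So some `a` has `zz (c β a) = 0`, `zz (β a) ≠ 0`, rescale.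
`E1d4`: apply `E1d3` with `cβ := c b`: if `c b = s b` with `s^p = s` then `s ≠ 0`, `c (b^(p-1)) = s^(p-1) b^(p-1) = b^(p-1)`, so `hG.b_gen` says that `c` fixes all `x` with `x^(p^r) = x`, contradiction.
-/

set_option autoImplicit false

namespace Pool.Agent.QPC

open Polynomial

variable (p : ℕ) [Fact p.Prime] (Ω : Type) [Field Ω] [Algebra (RatFunc (ZMod p)) Ω]
  [IsSepClosed Ω] [Algebra.IsSeparable (RatFunc (ZMod p)) Ω]

omit [Algebra.IsSeparable (RatFunc (ZMod p)) Ω] in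
/-- there are `p ^ r` constants of degree `p ^ r` -/
theorem e1d_card {r : ℕ} (hr : 0 < r) :
    ∃ s : Finset Ω, s.card = p ^ r ∧ ∀ x ∈ s, x ^ p ^ r = x := by
  classical
  haveI := om_charP p Ω
  have hp : p.Prime := Fact.out
  have h1 : 1 < p ^ r := Nat.one_lt_pow hr.ne' hp.one_lt
  have hsep : (X ^ p ^ r - X : Polynomial Ω).Separable :=
    galois_poly_separable p (p ^ r) (dvd_pow_self p hr.ne')
  have hspl : (X ^ p ^ r - X : Polynomial Ω).Splits := IsSepClosed.splits_of_separable _ hsep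
  refine ⟨(X ^ p ^ r - X : Polynomial Ω).roots.toFinset, ?_, ?_⟩
  · rw [Multiset.toFinset_card_of_nodup (nodup_roots hsep), ← hspl.natDegree_eq_card_roots]
    exact FiniteField.X_pow_card_pow_sub_X_natDegree_eq Ω hr.ne' hp.one_lt
  · intro x hx
    rw [Multiset.mem_toFinset, mem_roots', IsRoot.def, eval_sub, eval_pow, eval_X] at hx
    exact sub_eq_zero.1 hx.2

theorem e1d_pow {x : Ω} (hx : x ^ p = x) (m : ℕ) : x ^ p ^ m = x := by
  induction m with
  | zero => simp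
  | succ m ih => rw [pow_succ, pow_mul, ih, hx]

theorem E1d1 {r : ℕ} (hr : 0 < r) (β : Ω) (hβ : β ^ p ^ r = β)
    (h : ∀ a : Ω, a ^ p ^ r = a → zz p r (β * a) = 0) : β = 0 := by
  classical
  have hp : p.Prime := Fact.out
  obtain ⟨s, hs, hs2⟩ := e1d_card p Ω hr
  let q : Polynomial Ω := ∑ i ∈ Finset.range r, C (β ^ p ^ i) * X ^ p ^ i
  have hdeg : q.natDegree < s.card := by
    rw [hs]
    have h1 : q.natDegree ≤ p ^ (r - 1) := by
      refine natDegree_sum_le_of_forall_le _ _ fun i hi => ?_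
      rw [Finset.mem_range] at hi
      refine (natDegree_C_mul_X_pow_le _ _).trans ?_
      exact Nat.pow_le_pow_right hp.pos (by omega)
    exact h1.trans_lt (Nat.pow_lt_pow_right hp.one_lt (by omega))
  have hq : q = 0 := by
    refine eq_zero_of_natDegree_lt_card_of_eval_eq_zero' q s (fun a ha => ?_) hdeg
    have h1 := h a (hs2 a ha)
    rw [zz] at h1
    rw [eval_finset_sum, ← h1]
    refine Finset.sum_congr rfl fun i _ => ?_
    rw [eval_mul, eval_C, eval_pow, eval_X, mul_pow]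
  have h2 : q.coeff 1 = β := by
    have h3 : ∀ i ∈ Finset.range r, (C (β ^ p ^ i) * X ^ p ^ i : Polynomial Ω).coeff 1
        = if i = 0 then β else 0 := by
      intro i _
      rw [coeff_C_mul, coeff_X_pow]
      by_cases hi : i = 0
      · rw [hi, pow_zero, if_pos rfl, if_pos rfl, pow_one, mul_one]
      · rw [if_neg, if_neg hi, mul_zero]
        exact (Nat.one_lt_pow hi hp.one_lt).ne
    rw [finset_sum_coeff, Finset.sum_congr rfl h3, Finset.sum_ite_eq' (Finset.range r) 0,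
      if_pos (Finset.mem_range.2 hr)]
  rw [← h2, hq, coeff_zero]

theorem e1d_frob {r : ℕ} {x : Ω} (hx : x ^ p ^ r = x) : zz p r x ^ p = zz p r x := by
  haveI := om_charP p Ω
  have h1 := zz_frob p r x
  rw [hx, sub_self] at h1
  exact sub_eq_zero.1 h1

theorem e1d_scale {r : ℕ} (β γ a : Ω) (hβ : β ^ p ^ r = β) (ha : a ^ p ^ r = a)
    (h1 : zz p r (β * a) ≠ 0) (h2 : zz p r (γ * a) = 0) :
    ∃ a : Ω, a ^ p ^ r = a ∧ zz p r (β * a) = 1 ∧ zz p r (γ * a) = 0 := by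
  haveI := om_charP p Ω
  have h3 : zz p r (β * a) ^ p = zz p r (β * a) :=
    e1d_frob p Ω (by rw [mul_pow, hβ, ha])
  have h4 : (zz p r (β * a))⁻¹ ^ p = (zz p r (β * a))⁻¹ := by rw [inv_pow, h3]
  refine ⟨(zz p r (β * a))⁻¹ * a, ?_, ?_, ?_⟩
  · rw [mul_pow, e1d_pow p Ω h4, ha]
  · have h5 : β * ((zz p r (β * a))⁻¹ * a) = (zz p r (β * a))⁻¹ * (β * a) := by ring
    rw [h5, zz_smul p r _ _ h4, inv_mul_cancel₀ h1]
  · have h5 : γ * ((zz p r (β * a))⁻¹ * a) = (zz p r (β * a))⁻¹ * (γ * a) := by ring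
    rw [h5, zz_smul p r _ _ h4, h2, mul_zero]

theorem E1d2 {r : ℕ} (hr : 0 < r) (β : Ω) (hβ : β ^ p ^ r = β) (h0 : β ≠ 0) :
    ∃ a : Ω, a ^ p ^ r = a ∧ zz p r (β * a) = 1 := by
  have h1 : ∃ a : Ω, a ^ p ^ r = a ∧ zz p r (β * a) ≠ 0 := by
    by_contra h
    push Not at h
    exact h0 (E1d1 p Ω hr β hβ h)
  obtain ⟨a, ha, h2⟩ := h1
  obtain ⟨a', ha', h3, _⟩ := e1d_scale p Ω β 0 a hβ ha h2 (by rw [zero_mul, zz_zero])
  exact ⟨a', ha', h3⟩

theorem E1d3 {r : ℕ} (hr : 0 < r) (β γ : Ω) (hβ : β ^ p ^ r = β) (hγ : γ ^ p ^ r = γ)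
    (h0 : β ≠ 0) (h : ∀ s : Ω, s ^ p = s → γ ≠ s * β) :
    ∃ a : Ω, a ^ p ^ r = a ∧ zz p r (β * a) = 1 ∧ zz p r (γ * a) = 0 := by
  haveI := om_charP p Ω
  have hp : p.Prime := Fact.out
  have hγ0 : γ ≠ 0 := by
    have h1 := h 0 (zero_pow hp.ne_zero)
    rwa [zero_mul] at h1
  obtain ⟨a0, ha0, h1⟩ := E1d2 p Ω hr γ hγ hγ0
  have h2 : ∃ a : Ω, a ^ p ^ r = a ∧ zz p r (γ * a) = 0 ∧ zz p r (β * a) ≠ 0 := by
    by_contra hcon
    push Not at hcon
    have hsp : zz p r (β * a0) ^ p = zz p r (β * a0) :=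
      e1d_frob p Ω (by rw [mul_pow, hβ, ha0])
    have hsr := e1d_pow p Ω hsp r
    have key : ∀ a : Ω, a ^ p ^ r = a → zz p r ((β - zz p r (β * a0) * γ) * a) = 0 := by
      intro a ha
      have hup : zz p r (γ * a) ^ p = zz p r (γ * a) :=
        e1d_frob p Ω (by rw [mul_pow, hγ, ha])
      have hunp : (-zz p r (γ * a)) ^ p = -zz p r (γ * a) := by
        have h5 : (0 - zz p r (γ * a)) ^ p = 0 ^ p - zz p r (γ * a) ^ p := sub_pow_char ..
        rw [zero_pow hp.ne_zero, hup, zero_sub] at h5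
        exact h5
      have hnp : (-zz p r (β * a0)) ^ p = -zz p r (β * a0) := by
        have h5 : (0 - zz p r (β * a0)) ^ p = 0 ^ p - zz p r (β * a0) ^ p := sub_pow_char ..
        rw [zero_pow hp.ne_zero, hsp, zero_sub] at h5
        exact h5
      have hmem : (a + -zz p r (γ * a) * a0) ^ p ^ r = a + -zz p r (γ * a) * a0 := by
        rw [add_pow_char_pow, mul_pow, ha, e1d_pow p Ω hunp, ha0]
      have e1 : γ * (a + -zz p r (γ * a) * a0) = γ * a + -zz p r (γ * a) * (γ * a0) := by ring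
      have e2 : β * (a + -zz p r (γ * a) * a0) = β * a + -zz p r (γ * a) * (β * a0) := by ring
      have h6 := hcon _ hmem (by
        rw [e1, zz_add, zz_smul p r _ _ hunp, h1]; ring)
      rw [e2, zz_add, zz_smul p r _ _ hunp] at h6
      have e3 : (β - zz p r (β * a0) * γ) * a = β * a + -zz p r (β * a0) * (γ * a) := by ring
      rw [e3, zz_add, zz_smul p r _ _ hnp]
      linear_combination h6
    have h7 : β - zz p r (β * a0) * γ = 0 := by
      refine E1d1 p Ω hr _ ?_ key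
      rw [sub_pow_char_pow, mul_pow, hβ, hsr, hγ]
    have h8 : β = zz p r (β * a0) * γ := sub_eq_zero.1 h7
    have hs0 : zz p r (β * a0) ≠ 0 := by
      intro h9
      rw [h9, zero_mul] at h8
      exact h0 h8
    refine h (zz p r (β * a0))⁻¹ (by rw [inv_pow, hsp]) ?_
    generalize zz p r (β * a0) = u at h8 hs0
    rw [h8, ← mul_assoc, inv_mul_cancel₀ hs0, one_mul]
  obtain ⟨a, ha, h3, h4⟩ := h2
  exact e1d_scale p Ω β γ a hβ ha h4 h3

theorem E1d4 {H : Type} [Group H] {ρ : GG p Ω →* H} {Hb : Type} [Group Hb] {ρb : GG p Ω →* Hb}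
    {ℓ e r : ℕ} {b ζ F : Ω} {Ψ : Ω ≃+* Ω} {hΨ : PsiOK p Ψ}
    (hG : GO ρ ρb ℓ e r b ζ F Ψ hΨ) (c : GG p Ω) (hc : ¬ ∀ x : Ω, x ^ p ^ r = x → c x = x) :
    ∃ a : Ω, a ^ p ^ r = a ∧ zz p r (b * a) = 1 ∧ zz p r (c b * a) = 0 := by
  have hp : p.Prime := Fact.out
  refine E1d3 p Ω hG.r_pos b (c b) hG.b_mem (by rw [← map_pow, hG.b_mem]) hG.b_ne ?_
  intro s hs hcb
  apply hc
  apply hG.b_gen c
  have hcb0 : c b ≠ 0 := by
    intro h
    exact hG.b_ne ((map_eq_zero_iff c c.injective).1 h)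
  have hs0 : s ≠ 0 := by
    intro h
    rw [h, zero_mul] at hcb
    exact hcb0 hcb
  have hs1 : s ^ (p - 1) = 1 := by
    have h1 : s ^ (p - 1) * s = 1 * s := by
      rw [← pow_succ, Nat.sub_add_cancel hp.one_le, hs, one_mul]
    exact mul_right_cancel₀ hs0 h1
  rw [map_pow, hcb, mul_pow, hs1, one_mul]

end Pool.Agent.QPC
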