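import Mathlib
import Pool.Agent.QPC.Defs
import Pool.Agent.QPC.Defs4
import Pool.Agent.QPC.E1d
import Pool.Agent.QPC.D1
import Pool.Agent.QPC.D2

/-!
# QPC row D3: `K_ρ` is transitive on the roots of `(W^Q - W)^m = X`, `Q = p^r`
Plan. `D3a` (duality): `κ := {x | x^(p^r) = x}` is an `F_p`-vector space (`F_p = {x | x^p = x}` or `ZMod p` via `CharP Ω p`) with `p^r` elements; `A` is a subspace; there is an `F_p`-linear functional on `κ`, zero on `A`, not at `a0`. The map `β ↦ zz p r (β ·)` from `κ` to the dual of `κ` is injective (`E1d1`), linear, and the dual has the same cardinality, so it is surjective.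
`D3b`: `IsSepClosed.exists_pow_nat_eq` for `v^m = xx`; the polynomial `T^(p^r) - T - v` is separable (derivative `-1`), so it has a root. `D3c`: `v := w^Q - w`, `v' := w'^Q - w'`, `v^m = v'^m = xx`; `D1` gives `g1` with `g1 v = v'`. Then `a0 := w' - g1 w` satisfies `a0^Q = a0`. `A := {a | a^Q = a ∧ ∃ g geometric, ρ g = 1 ∧ g v = v ∧ g w = w + a}` is an additive subgroup (`g a = a` for constants; inverses). It is all of `κ`: otherwise `D3a`
gives `β ≠ 0`, and `z := zz p r (β w)` satisfies `z^p - z = β w^Q - β w = β v` (`zz_frob`, `β^Q = β`), and every geometric `g` with `ρ g = 1`, `g v = v` has `g w = w + a`, `a ∈ A` (both are roots), so `g z = z + zz p r (β a) = z`: contradiction with `D2`. So with `a := g1⁻¹ a0 = a0` there is `g` with `g v = v`, `g w = w + a0`; `g1 g w = g1 w + a0 = w'`.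
-/

set_option autoImplicit false

namespace Pool.Agent.QPC

open Polynomial

variable (p : ℕ) [Fact p.Prime] (Ω : Type) [Field Ω] [Algebra (RatFunc (ZMod p)) Ω]
  [IsSepClosed Ω] [Algebra.IsSeparable (RatFunc (ZMod p)) Ω]

omit [IsSepClosed Ω] [Algebra.IsSeparable (RatFunc (ZMod p)) Ω] in
theorem d3_ne (K : Type) [Field K] {n : ℕ} (hn : 0 < n) : (X ^ p ^ n - X : K[X]) ≠ 0 := by
  have h1 : 1 < p ^ n := Nat.one_lt_pow hn.ne' (Fact.out : p.Prime).one_lt
  exact (monic_X_pow_sub (by rw [degree_X]; exact_mod_cast h1)).ne_zero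

theorem d3_roots_fin (K : Type) [Field K] {n : ℕ} (hn : 0 < n) :
    {x : K | x ^ p ^ n = x}.Finite := by
  classical
  refine Set.Finite.subset ((X ^ p ^ n - X : K[X]).roots.toFinset.finite_toSet) ?_
  intro x hx
  rw [Finset.mem_coe, Multiset.mem_toFinset, mem_roots (d3_ne p K hn)]
  rw [IsRoot.def, eval_sub, eval_pow, eval_X, show x ^ p ^ n = x from hx, sub_self]

theorem d3_roots_card (K : Type) [Field K] {n : ℕ} (hn : 0 < n) :
    Nat.card {x : K | x ^ p ^ n = x} ≤ p ^ n := by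
  classical
  have h1 : 1 < p ^ n := Nat.one_lt_pow hn.ne' (Fact.out : p.Prime).one_lt
  have h2 : {x : K | x ^ p ^ n = x} ⊆ ((X ^ p ^ n - X : K[X]).roots.toFinset : Set K) := by
    intro x hx
    rw [Finset.mem_coe, Multiset.mem_toFinset, mem_roots (d3_ne p K hn)]
    rw [IsRoot.def, eval_sub, eval_pow, eval_X, show x ^ p ^ n = x from hx, sub_self]
  have h3 := Set.ncard_le_ncard h2 (Finset.finite_toSet _)
  rw [Set.ncard_coe_finset] at h3
  refine h3.trans ((Multiset.toFinset_card_le _).trans ((card_roots' _).trans ?_))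
  refine (natDegree_sub_le _ _).trans ?_
  rw [natDegree_X_pow, natDegree_X]
  exact max_le le_rfl h1.le

theorem D3a {r : ℕ} (hr : 0 < r) (A : AddSubgroup Ω) (hA : ∀ a ∈ A, a ^ p ^ r = a) (a0 : Ω)
    (h0 : a0 ^ p ^ r = a0) (hn : a0 ∉ A) :
    ∃ β : Ω, β ^ p ^ r = β ∧ β ≠ 0 ∧ ∀ a ∈ A, zz p r (β * a) = 0 := by
  classical
  have := om_charP p Ω
  have hp := (Fact.out : p.Prime)
  let _ : Algebra (ZMod p) Ω := ZMod.algebra Ω p
  have hκ := d3_roots_fin p Ω hr
  have hT := d3_roots_fin p Ω one_pos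
  have hfκ : Finite {x : Ω | x ^ p ^ r = x} := hκ
  have hfT : Finite {x : Ω | x ^ p ^ 1 = x} := hT
  let A' : Submodule (ZMod p) Ω := AddSubgroup.toZModSubmodule p A
  have hA' : ∀ a, a ∈ A' ↔ a ∈ A := fun a => Iff.rfl
  have hfA : Finite A' := Set.Finite.subset hκ fun a ha => hA a ((hA' a).1 ha)
  let b := Module.finBasis (ZMod p) A'
  have hcard : Nat.card A' = p ^ Module.finrank (ZMod p) A' := by
    rw [Module.natCard_eq_pow_finrank (K := ZMod p), Nat.card_zmod]
  have hlt : Nat.card A' < Nat.card {x : Ω | x ^ p ^ r = x} := by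
    have h1 : (A' : Set Ω) ⊂ {x : Ω | x ^ p ^ r = x} := by
      refine ⟨fun a ha => hA a ((hA' a).1 ha), fun h => hn ((hA' a0).1 (h h0))⟩
    have h2 := Set.ncard_lt_ncard h1 hκ
    exact h2
  have hval : ∀ β : {x : Ω | x ^ p ^ r = x}, ∀ j, zz p r ((β : Ω) * (b j : Ω)) ∈
      {x : Ω | x ^ p ^ 1 = x} := by
    intro β j
    have h1 := zz_frob p r ((β : Ω) * (b j : Ω))
    have h2 : (β : Ω) ^ p ^ r = β := β.2
    have h3 : ((b j : A') : Ω) ^ p ^ r = b j := hA _ ((hA' _).1 (b j).2)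
    rw [mul_pow, h2, h3, sub_self] at h1
    change _ ^ p ^ 1 = _
    rw [pow_one]
    exact sub_eq_zero.1 h1
  let F : {x : Ω | x ^ p ^ r = x} → (Fin (Module.finrank (ZMod p) A') → {x : Ω | x ^ p ^ 1 = x}) :=
    fun β j => ⟨_, hval β j⟩
  have hnot : ¬ Function.Injective F := by
    intro hF
    have h1 := Nat.card_le_card_of_injective F hF
    rw [Nat.card_fun, Nat.card_fin] at h1
    have h2 : Nat.card {x : Ω | x ^ p ^ 1 = x} ≤ p := by
      have h3 := d3_roots_card p Ω one_pos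
      rw [pow_one] at h3 ⊢
      exact h3
    have h4 := Nat.pow_le_pow_left h2 (Module.finrank (ZMod p) A')
    rw [← hcard] at h4
    exact absurd (h1.trans h4) (not_le.2 hlt)
  rw [Function.Injective] at hnot
  push Not at hnot
  obtain ⟨β, β', hF, hne⟩ := hnot
  have hβ : (β : Ω) ^ p ^ r = β := β.2
  have hβ' : (β' : Ω) ^ p ^ r = β' := β'.2
  refine ⟨β - β', ?_, sub_ne_zero.2 fun h => hne (Subtype.ext h), fun a ha => ?_⟩
  · rw [sub_pow_char_pow, hβ, hβ']
  · have h1 : ∀ j, zz p r (((β : Ω) - β') * (b j : Ω)) = 0 := by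
      intro j
      have h2 : zz p r ((β : Ω) * (b j : Ω)) = zz p r ((β' : Ω) * (b j : Ω)) :=
        congrArg Subtype.val (congrFun hF j)
      have h3 := zz_add p r (((β : Ω) - β') * (b j : Ω)) ((β' : Ω) * (b j : Ω))
      rw [← add_mul, sub_add_cancel, h2] at h3
      exact (right_eq_add.1 h3)
    let φ : Ω →+ Ω :=
      { toFun := fun x => zz p r (((β : Ω) - β') * x)
        map_zero' := by rw [mul_zero, zz_zero]
        map_add' := fun x y => by rw [mul_add, zz_add] }
    have h4 : ∀ (c : ZMod p) (x : Ω), φ (c • x) = algebraMap (ZMod p) Ω c * φ x := by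
      intro c x
      change zz p r (((β : Ω) - β') * (c • x)) = _ * zz p r (((β : Ω) - β') * x)
      rw [Algebra.smul_def, mul_left_comm, zz_smul]
      rw [← map_pow, ZMod.pow_card]
    have h5 := b.sum_repr ⟨a, (hA' a).2 ha⟩
    have h6 : a = ∑ j, (b.repr ⟨a, (hA' a).2 ha⟩ j) • ((b j : A') : Ω) := by
      have h7 := congrArg (A'.subtype) h5
      rw [map_sum] at h7
      exact h7.symm
    change φ a = 0
    rw [h6, map_sum]
    refine Finset.sum_eq_zero fun j _ => ?_
    rw [h4]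
    have h8 : φ (b j : Ω) = 0 := h1 j
    rw [h8, mul_zero]

theorem D3b {m r : ℕ} (hm : 0 < m) (hmp : m.Coprime p) (hr : 0 < r) :
    ∃ w : Ω, (w ^ p ^ r - w) ^ m = xx p Ω := by
  have := om_charP p Ω
  have hp := (Fact.out : p.Prime)
  have hm0 : NeZero (m : Ω) := ⟨by
    intro h
    rw [CharP.cast_eq_zero_iff Ω p] at h
    have h2 := Nat.Coprime.eq_one_of_dvd hmp.symm h
    exact hp.one_lt.ne' h2⟩
  obtain ⟨v, hv⟩ := IsSepClosed.exists_pow_nat_eq (xx p Ω) m
  have h1 : 1 < p ^ r := Nat.one_lt_pow hr.ne' hp.one_lt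
  have hd : (X ^ p ^ r - X : Polynomial Ω).natDegree = p ^ r := by
    rw [natDegree_sub_eq_left_of_natDegree_lt]
    · exact natDegree_X_pow _
    · rw [natDegree_X, natDegree_X_pow]
      exact h1
  have hd2 : (X ^ p ^ r - X - C v : Polynomial Ω).natDegree = p ^ r := by
    rw [natDegree_sub_C, hd]
  have hsep : (X ^ p ^ r - X - C v : Polynomial Ω).Separable := by
    rw [Polynomial.Separable]
    have h2 : derivative (X ^ p ^ r - X - C v : Polynomial Ω) = -1 := by
      rw [derivative_sub, derivative_sub, derivative_X_pow, derivative_X, derivative_C]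
      have h3 : ((p ^ r : ℕ) : Ω) = 0 := by
        rw [Nat.cast_pow, CharP.cast_eq_zero, zero_pow hr.ne']
      rw [h3]
      simp
    rw [h2]
    exact isCoprime_one_right.neg_right
  obtain ⟨w, hw⟩ := IsSepClosed.exists_root (X ^ p ^ r - X - C v : Polynomial Ω) (by
    intro h
    have := natDegree_eq_zero_iff_degree_le_zero.2 h.le
    omega) hsep
  refine ⟨w, ?_⟩
  rw [IsRoot.def, eval_sub, eval_sub, eval_pow, eval_X, eval_C, sub_eq_zero] at hw
  rw [hw, hv]

theorem D3c {H : Type} [Group H] [Finite H] (ρ : GG p Ω →* H) (hρ : Ad p Ω ρ) {m r : ℕ}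
    (hm : 2 ≤ m) (hmp : m.Coprime p) (hr : 0 < r) (w w' : Ω)
    (hw : (w ^ p ^ r - w) ^ m = xx p Ω) (hw' : (w' ^ p ^ r - w') ^ m = xx p Ω) :
    ∃ g : GG p Ω, Geo g ∧ ρ g = 1 ∧ g w = w' := by
  classical
  have := om_charP p Ω
  have hp := (Fact.out : p.Prime)
  obtain ⟨v, hvdef⟩ : ∃ v, v = w ^ p ^ r - w := ⟨_, rfl⟩
  obtain ⟨v', hv'def⟩ : ∃ v', v' = w' ^ p ^ r - w' := ⟨_, rfl⟩
  rw [← hvdef] at hw
  rw [← hv'def] at hw'
  obtain ⟨g1, hg1, hg1ρ, hg1v⟩ := D1 p Ω ρ hρ m (by omega) hmp v v' hw hw'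
  let A : AddSubgroup Ω :=
    { carrier := {a | a ^ p ^ r = a ∧ ∃ g : GG p Ω, Geo g ∧ ρ g = 1 ∧ g v = v ∧ g w = w + a}
      add_mem' := by
        rintro a a' ⟨h1, g, g1, g2, g3, g4⟩ ⟨h1', g', g1', g2', g3', g4'⟩
        refine ⟨by rw [add_pow_char_pow, h1, h1'], g * g', g1.mul g1', by
          rw [map_mul, g2, g2', one_mul], ?_, ?_⟩
        · change g (g' v) = v
          rw [g3', g3]
        · change g (g' w) = _
          rw [g4', map_add, g4, g1 a' (mem_kk hr h1')]
          ring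
      zero_mem' := ⟨zero_pow (pow_pos hp.pos r).ne', 1, fun _ _ => rfl, map_one ρ, rfl,
        (add_zero _).symm⟩
      neg_mem' := by
        rintro a ⟨h1, g, g1, g2, g3, g4⟩
        have h2 : (-a) ^ p ^ r = -a := by
          have h : (0 - a) ^ p ^ r = 0 ^ p ^ r - a ^ p ^ r := sub_pow_char_pow ..
          rw [zero_pow (pow_pos hp.pos r).ne', h1] at h
          simpa using h
        have hinv : ∀ x, g⁻¹ (g x) = x := fun x => by
          change (g⁻¹ * g) x = x
          rw [inv_mul_cancel]; rfl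
        refine ⟨h2, g⁻¹, g1.inv, by rw [map_inv, g2, inv_one], ?_, ?_⟩
        · have := hinv v
          rwa [g3] at this
        · have h3 := hinv w
          rw [g4, map_add, g1.inv a (mem_kk hr h1)] at h3
          exact eq_add_neg_of_add_eq h3 }
  have hAall : ∀ a0 : Ω, a0 ^ p ^ r = a0 → a0 ∈ A := by
    intro a0 h0
    by_contra hn
    obtain ⟨β, hβ, hβ0, hβA⟩ := D3a p Ω hr A (fun a ha => ha.1) a0 h0 hn
    have hz : zz p r (β * w) ^ p - zz p r (β * w) = β * v := by
      rw [zz_frob, mul_pow, hβ, hvdef]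
      ring
    obtain ⟨g, g1, g2, g3, g4⟩ := D2 p Ω ρ hρ m hm hmp v hw β (mem_kk hr hβ) hβ0 _ hz
    apply g4
    have h1 : (g w - w) ^ p ^ r = g w - w := by
      rw [sub_pow_char_pow]
      have h2 := congrArg g hvdef
      rw [g3, map_sub, map_pow] at h2
      rw [hvdef] at h2
      linear_combination -h2
    have h2 : g w - w ∈ A := ⟨h1, g, g1, g2, g3, by ring⟩
    have h3 := hβA _ h2
    have h4 := zz_map p r ((g : Ω ≃+* Ω) : Ω →+* Ω) (β * w)
    have h5 : g (zz p r (β * w)) = zz p r (g (β * w)) := h4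
    rw [h5, map_mul, g1 β (mem_kk hr hβ)]
    have h6 : β * g w = β * w + β * (g w - w) := by ring
    rw [h6, zz_add, h3, add_zero]
  have ha0 : (w' - g1 w) ^ p ^ r = w' - g1 w := by
    rw [sub_pow_char_pow]
    have h2 := congrArg g1 hvdef
    rw [hg1v, map_sub, map_pow, hv'def] at h2
    linear_combination h2
  obtain ⟨_, g, g1', g2, g3, g4⟩ := hAall _ ha0
  refine ⟨g1 * g, hg1.mul g1', by rw [map_mul, hg1ρ, g2, one_mul], ?_⟩
  change g1 (g w) = w'
  rw [g4, map_add, hg1 _ (mem_kk hr ha0)]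
  ring

end Pool.Agent.QPC
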