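import Mathlib
import Pool.Agent.QPC.Defs

/-!
# QPC row F8: quotients
Plan. `ρ' := f ∘ ρ`. For `pel`: given `a` in `G` with `a^(p^r) = 1`, `a = f h`; let `n := orderOf h = p^u n'` with `p ∤ n'`; choose `j` with
`j n' ≡ 1 mod p^r`; `h' := h^(j n')` has `p`-power order and `f h' = a^(j n') = a`. Then `h' = ρ g` with `g` geometric.
-/

set_option autoImplicit false

namespace Pool.Agent.QPC

open Polynomial

variable (p : ℕ) [Fact p.Prime] (Ω : Type) [Field Ω] [Algebra (RatFunc (ZMod p)) Ω]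

theorem F8 {H G : Type} [Group H] [Finite H] [Group G] (h : R p Ω H) (f : H →* G)
    (hf : Function.Surjective f) : R p Ω G := by
  obtain ⟨ρ, hρ⟩ := h
  have hp : p.Prime := Fact.out
  refine ⟨f.comp ρ, ⟨⟨?_, ?_⟩, ?_, ?_⟩⟩
  · obtain ⟨T, hT⟩ := hρ.fin
    refine ⟨T, fun g hg => ?_⟩
    rw [MonoidHom.comp_apply, hT g hg, map_one]
  · intro g hg
    rw [MonoidHom.comp_apply, hρ.inert g hg, map_one]
  · intro a
    obtain ⟨b, rfl⟩ := hf a
    obtain ⟨g, rfl⟩ := hρ.surj b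
    exact ⟨g, rfl⟩
  · rintro a ⟨r, hr⟩
    obtain ⟨b, rfl⟩ := hf a
    obtain ⟨u, n', hn', hb⟩ := Nat.exists_eq_pow_mul_and_not_dvd (orderOf_pos b).ne' p hp.ne_one
    have hcop : Nat.Coprime n' (p ^ r) := Nat.Coprime.pow_right r ((Nat.Prime.coprime_iff_not_dvd hp).2 hn').symm
    have hmod : n' ^ Nat.totient (p ^ r) ≡ 1 [MOD p ^ r] := Nat.ModEq.pow_totient hcop
    have htot : 0 < Nat.totient (p ^ r) := Nat.totient_pos.2 (pow_pos hp.pos r)
    have hdvd : orderOf b ∣ n' ^ Nat.totient (p ^ r) * p ^ u := by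
      rw [hb, mul_comm]
      exact Nat.mul_dvd_mul_right (dvd_pow_self n' htot.ne') _
    obtain ⟨g, hg, hgb⟩ := hρ.pel (b ^ n' ^ Nat.totient (p ^ r))
      ⟨u, by rw [← pow_mul]; exact orderOf_dvd_iff_pow_eq_one.1 hdvd⟩
    refine ⟨g, hg, ?_⟩
    rw [MonoidHom.comp_apply, hgb, map_pow]
    have h1 : orderOf (f b) ∣ p ^ r := orderOf_dvd_of_pow_eq_one hr
    have h2 : (f b) ^ n' ^ Nat.totient (p ^ r) = (f b) ^ 1 := pow_eq_pow_iff_modEq.2 (hmod.of_dvd h1)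
    rw [h2, pow_one]

end Pool.Agent.QPC
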