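import Mathlib
import Pool.Agent.QPC.Defs
import Pool.Agent.QPC.Defs3
import Pool.Agent.QPC.F8

/-!
# QPC row DL: from cyclic modules to arbitrary modules
Plan. Fix `H, M, φ`. For a subgroup `N ≤ M` stable under `H` (`∀ a x, x ∈ N → φ a x ∈ N`) let `φN : H →* MulAut N` be the restriction. Let `Q N` be the statement: for every finite group `H'` with `R p Ω H'` and every surjective `π : H' →* H`: `R p Ω (N ⋊[φN.comp π] H')`.
(1) If `N` is generated by the orbit of one element then `Q N`, by `hcyc` for `(N, H', φN.comp π)`: the range of `φN.comp π` is the range of `φN`, a quotient of `φ.range`, so its order is not divisible by `ℓ`; fixed points: an element of `p`-power order `a` of `H` is `π a'` with `a'` of `p`-power order (`a' = ` a suitable power of a preimage), so an element of `N` fixed by all elements of `p`-power order of `H'` is fixed by those of `H`.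
(2) If `Q N1`, `Q N2` then `Q (N1 ⊔ N2)`: `N2 ⋊ H'` satisfies `R`, it maps onto `H`; `Q N1` for it: `R (N1 ⋊ (N2 ⋊ H'))`; the map `(x1, (x2, a)) ↦ (x1 x2, a)` to `(N1 ⊔ N2) ⋊ H'` is a surjective homomorphism: `F8`. (3) `Q ⊥`: `⊥ ⋊ H' ≃* H'`, `F8`. (4) `⊤` is the supremum of the subgroups generated by the orbits of finitely many elements (finite induction over a finset of generators, e.g. all elements), so `Q ⊤`; then `M ⋊[φ] H` is a quotient of
`⊤ ⋊ H`: `F8`.
-/

set_option autoImplicit false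

namespace Pool.Agent.QPC

open Polynomial

variable (p : ℕ) [Fact p.Prime] (Ω : Type) [Field Ω] [Algebra (RatFunc (ZMod p)) Ω]
  [IsSepClosed Ω] [Algebra.IsSeparable (RatFunc (ZMod p)) Ω]

theorem dl_lift (p : ℕ) [Fact p.Prime] {H G : Type} [Group H] [Finite H] [Group G] (f : H →* G)
    (hf : Function.Surjective f) (a : G) (ha : ∃ r : ℕ, a ^ p ^ r = 1) :
    ∃ b : H, (∃ r : ℕ, b ^ p ^ r = 1) ∧ f b = a := by
  have hp : p.Prime := Fact.out
  obtain ⟨r, hr⟩ := ha
  obtain ⟨b, rfl⟩ := hf a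
  obtain ⟨u, n', hn', hb⟩ := Nat.exists_eq_pow_mul_and_not_dvd (orderOf_pos b).ne' p hp.ne_one
  have hcop : Nat.Coprime n' (p ^ r) :=
    Nat.Coprime.pow_right r ((Nat.Prime.coprime_iff_not_dvd hp).2 hn').symm
  have hmod : n' ^ Nat.totient (p ^ r) ≡ 1 [MOD p ^ r] := Nat.ModEq.pow_totient hcop
  have htot : 0 < Nat.totient (p ^ r) := Nat.totient_pos.2 (pow_pos hp.pos r)
  have hdvd : orderOf b ∣ n' ^ Nat.totient (p ^ r) * p ^ u := by
    rw [hb, mul_comm]
    exact Nat.mul_dvd_mul_right (dvd_pow_self n' htot.ne') _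
  refine ⟨b ^ n' ^ Nat.totient (p ^ r),
    ⟨u, by rw [← pow_mul]; exact orderOf_dvd_iff_pow_eq_one.1 hdvd⟩, ?_⟩
  rw [map_pow]
  have h1 : orderOf (f b) ∣ p ^ r := orderOf_dvd_of_pow_eq_one hr
  have h2 : (f b) ^ n' ^ Nat.totient (p ^ r) = (f b) ^ 1 :=
    pow_eq_pow_iff_modEq.2 (hmod.of_dvd h1)
  rw [h2, pow_one]

/-- The restriction of the action to a stable subgroup. -/
def dl_res {M H : Type} [CommGroup M] [Group H] (φ : H →* MulAut M) (N : Subgroup M)
    (hN : ∀ (a : H) (x : M), x ∈ N → φ a x ∈ N) : H →* MulAut N where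
  toFun a :=
    { toFun := fun x => ⟨φ a x, hN a x x.2⟩
      invFun := fun x => ⟨φ a⁻¹ x, hN a⁻¹ x x.2⟩
      left_inv := fun x => Subtype.ext (by
        change φ a⁻¹ (φ a (x : M)) = x
        rw [← MulAut.mul_apply, ← map_mul, inv_mul_cancel, map_one]; rfl)
      right_inv := fun x => Subtype.ext (by
        change φ a (φ a⁻¹ (x : M)) = x
        rw [← MulAut.mul_apply, ← map_mul, mul_inv_cancel, map_one]; rfl)
      map_mul' := fun x y => Subtype.ext (map_mul (φ a) _ _) }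
  map_one' := by
    ext x
    change φ 1 (x : M) = x
    rw [map_one]; rfl
  map_mul' a b := by
    ext x
    change φ (a * b) (x : M) = φ a (φ b (x : M))
    rw [map_mul]; rfl

theorem dl_res_coe {M H : Type} [CommGroup M] [Group H] (φ : H →* MulAut M) (N : Subgroup M)
    (hN : ∀ (a : H) (x : M), x ∈ N → φ a x ∈ N) (a : H) (x : N) :
    ((dl_res φ N hN a x : N) : M) = φ a x := rfl

theorem dl_stable {M H : Type} [CommGroup M] [Group H] (φ : H →* MulAut M) (m0 : M) (a : H)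
    (x : M) (hx : x ∈ Subgroup.closure (Set.range fun a : H => φ a m0)) :
    φ a x ∈ Subgroup.closure (Set.range fun a : H => φ a m0) := by
  induction hx using Subgroup.closure_induction with
  | mem y hy =>
    obtain ⟨b, rfl⟩ := hy
    refine Subgroup.subset_closure ⟨a * b, ?_⟩
    change φ (a * b) m0 = φ a (φ b m0)
    rw [map_mul]; rfl
  | one => rw [map_one]; exact one_mem _
  | mul y z _ _ h3 h4 => rw [map_mul]; exact mul_mem h3 h4
  | inv y _ h3 => rw [map_inv]; exact inv_mem h3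

theorem dl_sup {M H : Type} [CommGroup M] [Group H] (φ : H →* MulAut M) (N1 N2 : Subgroup M)
    (h1 : ∀ (a : H) (x : M), x ∈ N1 → φ a x ∈ N1) (h2 : ∀ (a : H) (x : M), x ∈ N2 → φ a x ∈ N2)
    (a : H) (x : M) (hx : x ∈ N1 ⊔ N2) : φ a x ∈ N1 ⊔ N2 := by
  obtain ⟨y, hy, z, hz, rfl⟩ := Subgroup.mem_sup.1 hx
  rw [map_mul]
  exact Subgroup.mul_mem_sup (h1 a y hy) (h2 a z hz)

/-- The statement for the stable subgroup `N`. -/
def dl_Q {M H : Type} [CommGroup M] [Group H] (φ : H →* MulAut M) (N : Subgroup M)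
    (hN : ∀ (a : H) (x : M), x ∈ N → φ a x ∈ N) : Prop :=
  ∀ (H' : Type) [Group H'] [Finite H'] (π : H' →* H), Function.Surjective π → R p Ω H' →
    R p Ω (N ⋊[(dl_res φ N hN).comp π] H')

theorem dl_one {ℓ : ℕ}
    (hcyc : ∀ (M H : Type) [CommGroup M] [Group H] [Finite M] [Finite H] (φ : H →* MulAut M),
      IsPGroup ℓ M → ¬ ℓ ∣ Nat.card φ.range →
      (∀ x : M, (∀ a : H, (∃ r : ℕ, a ^ p ^ r = 1) → φ a x = x) → x = 1) →
      (∃ m0 : M, Subgroup.closure (Set.range fun a : H => φ a m0) = ⊤) →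
      R p Ω H → R p Ω (M ⋊[φ] H))
    {M H : Type} [CommGroup M] [Group H] [Finite M] [Finite H] (φ : H →* MulAut M)
    (hM : IsPGroup ℓ M) (hcard : ¬ ℓ ∣ Nat.card φ.range)
    (hfix : ∀ x : M, (∀ a : H, (∃ r : ℕ, a ^ p ^ r = 1) → φ a x = x) → x = 1) (m0 : M) :
    dl_Q p Ω φ (Subgroup.closure (Set.range fun a : H => φ a m0)) (dl_stable φ m0) := by
  intro H' _ _ π hπ hR
  refine hcyc _ H' _ (hM.to_subgroup _) ?_ ?_ ?_ hR
  · intro hd
    apply hcard
    refine hd.trans ?_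
    rw [← Subgroup.index_ker, ← Subgroup.index_ker, ← MonoidHom.comap_ker,
      Subgroup.index_comap_of_surjective _ hπ]
    refine Subgroup.index_dvd_of_le fun a ha => ?_
    rw [MonoidHom.mem_ker] at ha ⊢
    ext x
    rw [dl_res_coe, ha]; rfl
  · intro x hx
    refine Subtype.ext (hfix _ fun a ha => ?_)
    obtain ⟨b, hb, rfl⟩ := dl_lift p π hπ a ha
    exact congrArg Subtype.val (hx b hb)
  · refine ⟨⟨m0, Subgroup.subset_closure ⟨1, by change φ 1 m0 = m0; rw [map_one]; rfl⟩⟩, ?_⟩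
    rw [← Subgroup.closure_closure_coe_preimage]
    congr 1
    ext x
    constructor
    · rintro ⟨b, rfl⟩
      exact ⟨π b, rfl⟩
    · rintro ⟨a, ha⟩
      obtain ⟨b, rfl⟩ := hπ a
      exact ⟨b, Subtype.ext ha⟩

theorem dl_two {M H : Type} [CommGroup M] [Group H] [Finite M] [Finite H] (φ : H →* MulAut M)
    (N1 N2 : Subgroup M) (h1 : ∀ (a : H) (x : M), x ∈ N1 → φ a x ∈ N1)
    (h2 : ∀ (a : H) (x : M), x ∈ N2 → φ a x ∈ N2) (hQ1 : dl_Q p Ω φ N1 h1)
    (hQ2 : dl_Q p Ω φ N2 h2) : dl_Q p Ω φ (N1 ⊔ N2) (dl_sup φ N1 N2 h1 h2) := by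
  intro H' _ _ π hπ hR
  haveI : Finite (N2 ⋊[(dl_res φ N2 h2).comp π] H') :=
    Finite.of_equiv _ SemidirectProduct.equivProd.symm
  have h3 := hQ2 H' π hπ hR
  have h4 := hQ1 (N2 ⋊[(dl_res φ N2 h2).comp π] H') (π.comp SemidirectProduct.rightHom)
    (hπ.comp SemidirectProduct.rightHom_surjective) h3
  haveI : Finite (N1 ⋊[(dl_res φ N1 h1).comp (π.comp SemidirectProduct.rightHom)]
      (N2 ⋊[(dl_res φ N2 h2).comp π] H')) :=
    Finite.of_equiv _ SemidirectProduct.equivProd.symm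
  refine F8 p Ω h4 (MonoidHom.mk' (fun z => ⟨⟨(z.left : M) * (z.right.left : M),
    Subgroup.mul_mem_sup z.left.2 z.right.left.2⟩, z.right.right⟩) ?_) ?_
  · intro z w
    refine SemidirectProduct.ext (Subtype.ext ?_) rfl
    change (z.left : M) * φ (π z.right.right) (w.left : M) *
        ((z.right.left : M) * φ (π z.right.right) (w.right.left : M)) =
      (z.left : M) * (z.right.left : M) *
        φ (π z.right.right) ((w.left : M) * (w.right.left : M))
    rw [map_mul]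
    exact mul_mul_mul_comm _ _ _ _
  · rintro ⟨⟨x, hx⟩, a⟩
    obtain ⟨y, hy, z, hz, rfl⟩ := Subgroup.mem_sup.1 hx
    exact ⟨⟨⟨y, hy⟩, ⟨⟨z, hz⟩, a⟩⟩, rfl⟩

theorem DL {ℓ : ℕ}
    (hcyc : ∀ (M H : Type) [CommGroup M] [Group H] [Finite M] [Finite H] (φ : H →* MulAut M),
      IsPGroup ℓ M → ¬ ℓ ∣ Nat.card φ.range →
      (∀ x : M, (∀ a : H, (∃ r : ℕ, a ^ p ^ r = 1) → φ a x = x) → x = 1) →
      (∃ m0 : M, Subgroup.closure (Set.range fun a : H => φ a m0) = ⊤) →
      R p Ω H → R p Ω (M ⋊[φ] H))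
    (M H : Type) [CommGroup M] [Group H] [Finite M] [Finite H] (φ : H →* MulAut M)
    (hM : IsPGroup ℓ M) (hcard : ¬ ℓ ∣ Nat.card φ.range)
    (hfix : ∀ x : M, (∀ a : H, (∃ r : ℕ, a ^ p ^ r = 1) → φ a x = x) → x = 1)
    (hR : R p Ω H) : R p Ω (M ⋊[φ] H) := by
  classical
  haveI := Fintype.ofFinite M
  have key : ∀ s : Finset M, ∃ (N : Subgroup M) (hN : ∀ (a : H) (x : M), x ∈ N → φ a x ∈ N),
      (∀ m ∈ s, m ∈ N) ∧ dl_Q p Ω φ N hN := by
    intro s
    induction s using Finset.induction_on with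
    | empty =>
      exact ⟨_, dl_stable φ 1, fun m hm => absurd hm (Finset.notMem_empty m),
        dl_one p Ω hcyc φ hM hcard hfix 1⟩
    | insert m s _ ih =>
      obtain ⟨N, hN, h1, h2⟩ := ih
      refine ⟨_, dl_sup φ _ N (dl_stable φ m) hN, fun y hy => ?_,
        dl_two p Ω φ _ N _ hN (dl_one p Ω hcyc φ hM hcard hfix m) h2⟩
      rcases Finset.mem_insert.1 hy with rfl | hy
      · exact (le_sup_left : _ ≤ _ ⊔ N)
          (Subgroup.subset_closure ⟨1, by change φ 1 y = y; rw [map_one]; rfl⟩)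
      · exact (le_sup_right : N ≤ _ ⊔ N) (h1 y hy)
  obtain ⟨N, hN, h1, h2⟩ := key Finset.univ
  have h3 := h2 H (MonoidHom.id H) Function.surjective_id hR
  haveI : Finite (N ⋊[(dl_res φ N hN).comp (MonoidHom.id H)] H) :=
    Finite.of_equiv _ SemidirectProduct.equivProd.symm
  refine F8 p Ω h3 (MonoidHom.mk' (fun z => ⟨(z.left : M), z.right⟩) ?_) ?_
  · intro z w
    exact SemidirectProduct.ext rfl rfl
  · rintro ⟨x, a⟩
    exact ⟨⟨⟨x, h1 x (Finset.mem_univ x)⟩, a⟩, rfl⟩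

end Pool.Agent.QPC
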