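import Mathlib
import Pool.Agent.QPC.Defs
import Pool.Agent.QPC.Defs3

/-!
# QPC row E0: the coset sum (pure group theory)
Plan. `E0a`: `m`-torsion: `(x + y).val • z = x.val • z + y.val • z` for `x y : ZMod m` (`ZMod.val_add`, `hm`; `m = 0` is also fine: for `m = 0` treat `ZMod 0 = ℤ`? to avoid this `m > 0` is assumed). `q.out⁻¹ * (g g') * q.out = (q.out⁻¹ g q.out)(q.out⁻¹ g' q.out)`, both in `N`.
`E0b`: re-index the sum by `q ↦ c⁻¹ • q` (left multiplication on `G ⧸ N`): `c⁻¹ * q.out = (c⁻¹ • q).out * n`, `n ∈ N`; `q.out⁻¹ (c g c⁻¹) q.out = n⁻¹ (q'.out⁻¹ g q'.out) n` and `θ` is invariant under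
conjugation by `n ∈ N` (additivity); `q.out • m0 = c • q'.out • n • m0 = c • q'.out • m0`.
`E0c`: obvious from the formula (each `θ` is `0`).
-/

set_option autoImplicit false

namespace Pool.Agent.QPC

open Polynomial

/-- The coset sum. -/
noncomputable def hs {G M : Type} [Group G] [AddCommGroup M] [DistribMulAction G M]
    (N : Subgroup G) [Fintype (G ⧸ N)] {m : ℕ} (m0 : M) (θ : G → ZMod m) (g : G) : M :=
  ∑ q : G ⧸ N, (θ (q.out⁻¹ * g * q.out)).val • (q.out • m0)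

theorem e0_val {M : Type} [AddCommGroup M] {m : ℕ} (hm0 : 0 < m) (hm : ∀ x : M, m • x = 0)
    (x y : ZMod m) (z : M) : (x + y).val • z = x.val • z + y.val • z := by
  have : NeZero m := ⟨hm0.ne'⟩
  rw [← add_smul, ZMod.val_add]
  conv_rhs => rw [← Nat.mod_add_div (x.val + y.val) m]
  rw [add_smul, mul_smul, hm, add_zero]

theorem e0_out {G : Type} [Group G] (N : Subgroup G) (c : G) (q : G ⧸ N) :
    ∃ n ∈ N, (c • q).out = c * q.out * n := by
  refine ⟨(c * q.out)⁻¹ * (c • q).out, ?_, by group⟩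
  rw [← QuotientGroup.eq]
  rw [QuotientGroup.out_eq']
  change c • ((q.out : G) : G ⧸ N) = c • q
  rw [QuotientGroup.out_eq']

theorem E0a {G M : Type} [Group G] [AddCommGroup M] [DistribMulAction G M]
    (N : Subgroup G) [N.Normal] [Fintype (G ⧸ N)] {m : ℕ} (hm0 : 0 < m) (hm : ∀ x : M, m • x = 0)
    (m0 : M) (θ : G → ZMod m) (hθ : ∀ g ∈ N, ∀ g' ∈ N, θ (g * g') = θ g + θ g') :
    ∀ g ∈ N, ∀ g' ∈ N, hs N m0 θ (g * g') = hs N m0 θ g + hs N m0 θ g' := by
  intro g hg g' hg'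
  have : NeZero m := ⟨hm0.ne'⟩
  simp only [hs, ← Finset.sum_add_distrib]
  refine Finset.sum_congr rfl fun q _ => ?_
  have h1 : q.out⁻¹ * (g * g') * q.out = (q.out⁻¹ * g * q.out) * (q.out⁻¹ * g' * q.out) := by
    group
  have e1 : q.out⁻¹ * g * q.out ∈ N := by
    have := Subgroup.Normal.conj_mem (H := N) inferInstance g hg q.out⁻¹
    rwa [inv_inv] at this
  have e2 : q.out⁻¹ * g' * q.out ∈ N := by
    have := Subgroup.Normal.conj_mem (H := N) inferInstance g' hg' q.out⁻¹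
    rwa [inv_inv] at this
  rw [h1, hθ _ e1 _ e2]
  exact e0_val hm0 hm _ _ _

theorem E0b {G M : Type} [Group G] [AddCommGroup M] [DistribMulAction G M]
    (N : Subgroup G) [N.Normal] [Fintype (G ⧸ N)] {m : ℕ} (hm0 : 0 < m) (hm : ∀ x : M, m • x = 0)
    (htr : ∀ g ∈ N, ∀ x : M, g • x = x)
    (m0 : M) (θ : G → ZMod m) (hθ : ∀ g ∈ N, ∀ g' ∈ N, θ (g * g') = θ g + θ g') :
    ∀ (c : G), ∀ g ∈ N, hs N m0 θ (c * g * c⁻¹) = c • hs N m0 θ g := by
  intro c g hg
  simp only [hs, Finset.smul_sum]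
  rw [← Equiv.sum_comp (MulAction.toPerm c : Equiv.Perm (G ⧸ N))]
  refine Finset.sum_congr rfl fun q _ => ?_
  change (θ ((c • q).out⁻¹ * (c * g * c⁻¹) * (c • q).out)).val • ((c • q).out • m0) = _
  obtain ⟨n, hn, h⟩ := e0_out N c q
  have e1 : q.out⁻¹ * g * q.out ∈ N := by
    have := Subgroup.Normal.conj_mem (H := N) inferInstance g hg q.out⁻¹
    rwa [inv_inv] at this
  have h2 : (c • q).out⁻¹ * (c * g * c⁻¹) * (c • q).out = n⁻¹ * (q.out⁻¹ * g * q.out) * n := by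
    rw [h]; group
  have h3 : θ 1 = 0 := by
    have := hθ 1 (one_mem N) 1 (one_mem N)
    rw [mul_one] at this
    simpa using this
  have h4 : θ n⁻¹ + θ n = 0 := by
    rw [← hθ _ (inv_mem hn) _ hn, inv_mul_cancel, h3]
  have h5 : θ (n⁻¹ * (q.out⁻¹ * g * q.out) * n) = θ (q.out⁻¹ * g * q.out) := by
    rw [hθ _ (mul_mem (inv_mem hn) e1) _ hn, hθ _ (inv_mem hn) _ e1]
    linear_combination h4
  rw [h2, h5, h, mul_smul, mul_smul, htr n hn]
  exact (map_nsmul (DistribSMul.toAddMonoidHom M c) _ _).symm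

theorem E0c {G M : Type} [Group G] [AddCommGroup M] [DistribMulAction G M]
    (N : Subgroup G) [N.Normal] [Fintype (G ⧸ N)] {m : ℕ} (m0 : M) (θ : G → ZMod m) (g : G)
    (h : ∀ c : G, θ (c⁻¹ * g * c) = 0) : hs N m0 θ g = 0 := by
  simp only [hs]
  refine Finset.sum_eq_zero fun q _ => ?_
  rw [h, ZMod.val_zero, zero_smul]

end Pool.Agent.QPC
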