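import Mathlib
import Pool.Agent.QPC.Defs
import Pool.Agent.QPC.Defs3

/-!
# QPC row E1a: a functional separating (pure group theory, coprime action)
Plan. Let `M1 := M0 + ℓ M`. `M1 ≠ ⊤`: otherwise `M = M0 + ℓ M = M0 + ℓ^i M` for all `i` (induction), so `M = M0`. If for every `lam : M →+ ZMod ℓ` vanishing on `M0` and all `γ ∈ Γ`: `lam (γ m0) = lam m0`, then `γ m0 - m0 ∈ M1` (`M ⧸ M1` is a `ZMod ℓ`-vector space, functionals separate points: `Module.forall_dual_apply_eq_zero_iff`; a functional of `M ⧸ M1`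
gives `lam`). For `a ∈ Hb`: `γ (a m0) - a m0 = a ((a⁻¹ γ a) m0 - m0) ∈ M1` (`Γ` normal, `M1` stable). By `hgen`: `γ x - x ∈ M1` for all `x`. For `x ∈ M`: `∑_{γ ∈ Γ} γ x` is fixed by `Γ`, so it is `0`, and it is `≡ |Γ| x` modulo `M1`. `|Γ|` is prime to `ℓ` and `ℓ^e x = 0`, so `x ∈ M1`. Contradiction.
-/

set_option autoImplicit false

namespace Pool.Agent.QPC

open Polynomial

theorem e1a_top {M : Type} [AddCommGroup M] {ℓ e : ℕ} (hM : ∀ x : M, ℓ ^ e • x = 0) (M0 : AddSubgroup M)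
    (h : ∀ x : M, ∃ y ∈ M0, ∃ w : M, x = y + ℓ • w) : M0 = ⊤ := by
  have h1 : ∀ i : ℕ, ∀ x : M, ∃ y ∈ M0, ∃ w : M, x = y + ℓ ^ i • w := by
    intro i
    induction i with
    | zero =>
      intro x
      exact ⟨0, M0.zero_mem, x, by rw [pow_zero, one_smul, zero_add]⟩
    | succ i ih =>
      intro x
      obtain ⟨y, hy, w, rfl⟩ := ih x
      obtain ⟨y', hy', w', rfl⟩ := h w
      exact ⟨y + ℓ ^ i • y', M0.add_mem hy (M0.nsmul_mem hy' _), w', by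
        rw [smul_add, smul_smul, pow_succ, add_assoc]⟩
  rw [eq_top_iff]
  intro x _
  obtain ⟨y, hy, w, rfl⟩ := h1 e x
  rw [hM, add_zero]
  exact hy

/-- functionals separate points -/
theorem e1a_fun {K V : Type} [Field K] [AddCommGroup V] [Module K V] {c : V} (hc : c ≠ 0) :
    ∃ f : V →+ K, f c ≠ 0 := by
  obtain ⟨f, hf⟩ := Module.Projective.exists_dual_ne_zero K hc
  exact ⟨f.toAddMonoidHom, hf⟩

theorem e1a_dual {V : Type} [AddCommGroup V] {ℓ : ℕ} (hℓ : ℓ.Prime) (hz : ∀ x : V, ℓ • x = 0) {c : V} (hc : c ≠ 0) :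
    ∃ f : V →+ ZMod ℓ, f c ≠ 0 := by
  have hF : Fact ℓ.Prime := ⟨hℓ⟩
  let mod : Module (ZMod ℓ) V := AddCommGroup.zmodModule hz
  exact e1a_fun (K := ZMod ℓ) hc

/-- functionals separate the points modulo `M0 + ℓ M` -/
theorem e1a_sep {M : Type} [AddCommGroup M] {ℓ : ℕ} (hℓ : ℓ.Prime) (M1 : AddSubgroup M)
    (h1 : ∀ x : M, ℓ • x ∈ M1) {c : M} (hc : c ∉ M1) :
    ∃ lam : M →+ ZMod ℓ, (∀ x ∈ M1, lam x = 0) ∧ lam c ≠ 0 := by
  have hz : ∀ x : M ⧸ M1, ℓ • x = 0 := by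
    intro x
    obtain ⟨y, rfl⟩ := QuotientAddGroup.mk_surjective x
    rw [← QuotientAddGroup.mk_nsmul]
    exact (QuotientAddGroup.eq_zero_iff _).2 (h1 y)
  have hc0 : (QuotientAddGroup.mk' M1 c) ≠ 0 := fun h => hc ((QuotientAddGroup.eq_zero_iff _).1 h)
  obtain ⟨f, hf⟩ := e1a_dual hℓ hz hc0
  refine ⟨f.comp (QuotientAddGroup.mk' M1), fun x hx => ?_, hf⟩
  rw [AddMonoidHom.comp_apply]
  have h3 : QuotientAddGroup.mk' M1 x = 0 := (QuotientAddGroup.eq_zero_iff x).2 hx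
  rw [h3, map_zero]

theorem E1a {Hb M : Type} [Group Hb] [AddCommGroup M] [Finite M] [DistribMulAction Hb M]
    {ℓ e : ℕ} (hℓ : ℓ.Prime) (hM : ∀ x : M, ℓ ^ e • x = 0) (Γ : Subgroup Hb) [Γ.Normal] [Finite Γ]
    (hΓ : ¬ ℓ ∣ Nat.card Γ) (hfix : ∀ x : M, (∀ γ ∈ Γ, γ • x = x) → x = 0) (m0 : M)
    (hgen : AddSubgroup.closure (Set.range fun a : Hb => a • m0) = ⊤)
    (M0 : AddSubgroup M) (hst : ∀ a : Hb, ∀ x ∈ M0, a • x ∈ M0) (hne : M0 ≠ ⊤) :
    ∃ lam : M →+ ZMod ℓ, (∀ x ∈ M0, lam x = 0) ∧ ∃ γ ∈ Γ, lam (γ • m0) ≠ lam m0 := by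
  classical
  let M1 : AddSubgroup M := M0 ⊔ (nsmulAddMonoidHom ℓ : M →+ M).range
  have hM0 : M0 ≤ M1 := le_sup_left
  have hl : ∀ x : M, ℓ • x ∈ M1 := fun x => (le_sup_right : _ ≤ M1) ⟨x, rfl⟩
  have hmem : ∀ x : M, x ∈ M1 → ∃ y ∈ M0, ∃ w : M, x = y + ℓ • w := by
    intro x hx
    obtain ⟨y, hy, z, hz, h⟩ := AddSubgroup.mem_sup.1 hx
    obtain ⟨w, rfl⟩ := hz
    exact ⟨y, hy, w, h.symm⟩
  have hst1 : ∀ a : Hb, ∀ x ∈ M1, a • x ∈ M1 := by
    intro a x hx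
    obtain ⟨y, hy, w, rfl⟩ := hmem x hx
    rw [smul_add, smul_comm a ℓ w]
    exact M1.add_mem (hM0 (hst a y hy)) (hl _)
  by_contra hcon
  push Not at hcon
  have h0 : ∀ γ ∈ Γ, γ • m0 - m0 ∈ M1 := by
    intro γ hγ
    by_contra hc
    obtain ⟨lam, hlam, hne'⟩ := e1a_sep hℓ M1 hl hc
    apply hne'
    rw [map_sub, hcon lam (fun x hx => hlam x (hM0 hx)) γ hγ, sub_self]
  have h1 : ∀ a : Hb, ∀ γ ∈ Γ, γ • (a • m0) - a • m0 ∈ M1 := by
    intro a γ hγ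
    have h2 : a⁻¹ * γ * a ∈ Γ := by
      have h3 := (inferInstance : Γ.Normal).conj_mem γ hγ a⁻¹
      rwa [inv_inv] at h3
    have h3 := hst1 a _ (h0 _ h2)
    rwa [smul_sub, smul_smul, show a * (a⁻¹ * γ * a) = γ * a by group, ← smul_smul] at h3
  have h2 : ∀ x : M, ∀ γ ∈ Γ, γ • x - x ∈ M1 := by
    intro x
    have hx : x ∈ AddSubgroup.closure (Set.range fun a : Hb => a • m0) := by
      rw [hgen]
      exact AddSubgroup.mem_top x
    induction hx using AddSubgroup.closure_induction with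
    | mem y hy =>
      obtain ⟨a, rfl⟩ := hy
      exact h1 a
    | zero =>
      intro γ _
      rw [smul_zero, sub_zero]
      exact M1.zero_mem
    | add y z _ _ hy hz =>
      intro γ hγ
      rw [smul_add, add_sub_add_comm]
      exact M1.add_mem (hy γ hγ) (hz γ hγ)
    | neg y _ hy =>
      intro γ hγ
      rw [smul_neg, ← neg_sub', neg_mem_iff]
      exact hy γ hγ
  have hfin : Fintype Γ := Fintype.ofFinite Γ
  have h3 : ∀ x : M, Nat.card Γ • x ∈ M1 := by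
    intro x
    have h4 : ∑ γ : Γ, (γ : Hb) • x = 0 := by
      apply hfix
      intro δ hδ
      rw [Finset.smul_sum]
      exact Fintype.sum_equiv (Equiv.mulLeft (⟨δ, hδ⟩ : Γ)) _ _ fun γ => by
        rw [smul_smul]
        rfl
    have h5 : ∑ γ : Γ, ((γ : Hb) • x - x) ∈ M1 := M1.sum_mem fun γ _ => h2 x γ γ.2
    rw [Finset.sum_sub_distrib, h4, zero_sub, neg_mem_iff, Finset.sum_const, Finset.card_univ,
      ← Nat.card_eq_fintype_card] at h5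
    exact h5
  have h4 : ∀ x : M, x ∈ M1 := by
    intro x
    have hco : IsCoprime ((Nat.card Γ : ℕ) : ℤ) ((ℓ ^ e : ℕ) : ℤ) := by
      rw [Nat.isCoprime_iff_coprime]
      exact Nat.Coprime.pow_right _ (((Nat.Prime.coprime_iff_not_dvd hℓ).2 hΓ).symm)
    obtain ⟨u, v, huv⟩ := hco
    have h5 : x = u • (Nat.card Γ • x) + v • ((ℓ ^ e) • x) := by
      rw [← natCast_zsmul x (Nat.card Γ), ← natCast_zsmul x (ℓ ^ e), smul_smul, smul_smul, ← add_smul, huv, one_smul]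
    rw [h5, hM, smul_zero, add_zero]
    exact M1.zsmul_mem (h3 x) u
  exact hne (e1a_top hM M0 fun x => hmem x (h4 x))

end Pool.Agent.QPC
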