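import Mathlib
import Pool.Agent.QPC.Defs
import Pool.Agent.QPC.Defs3
import Pool.Agent.QPC.E0

/-!
# QPC row E1b: an l-th root of a product of conjugates of F over the fixed field of K'
Here `GG p Ω` acts on `M` through `ρb ∘ cj hΨ`: `hact : g • x = ρb (cj hΨ g) • x`.
Plan. `χ(c)` for `c : GG`: `c ζ = ζ^χ(c)`, `χ(c)` prime to `ℓ` (`c ζ` is again a primitive `ℓ^e`-th root of unity). `n q := (lam (q.out • m0) * χ(q.out)⁻¹).val` in `ZMod ℓ`. `ψ := ∏_q (q.out φ)^(ℓ^(e-1) * n q)`: `ψ^ℓ = ∏_q (q.out (φ^(ℓ^e)))^(n q) = ∏_q (q.out F)^(n q)`. For `g` in `K'` (geometric, `ρ (cj g) = 1`, so `g ∈ N0`):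
`g (q.out φ) = q.out ((q.out⁻¹ g q.out) φ) = q.out (ζ^(θ(q.out⁻¹ g q.out)) φ) = ζ^(χ θ(..)) (q.out φ)`. So `g ψ = ζ^(ℓ^(e-1) ∑_q n q χ(q.out) θ(q.out⁻¹ g q.out)) ψ`, and modulo `ℓ` the sum is `∑_q lam(q.out • m0) θ(q.out⁻¹ g q.out) = lam (hs N0 m0 θ g) = 0`. So `g ψ = ψ`. If `q.out` fixes the constants `x^(p^r) = x` then `χ(q.out) = 1` (`ζ` is such a constant).
-/

set_option autoImplicit false

namespace Pool.Agent.QPC

open Polynomial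

variable {p : ℕ} [Fact p.Prime] {Ω : Type} [Field Ω] [Algebra (RatFunc (ZMod p)) Ω]
  {H : Type} [Group H] {ρ : GG p Ω →* H} {Hb : Type} [Group Hb] {ρb : GG p Ω →* Hb}
  {ℓ e r : ℕ} {b ζ F : Ω} {Ψ : Ω ≃+* Ω} {hΨ : PsiOK p Ψ}

/-- the cyclotomic character -/
theorem e1b_chi (hl : ℓ.Prime) (he : 1 ≤ e) (hz : IsPrimitiveRoot ζ (ℓ ^ e)) (c : GG p Ω) :
    ∃ k : ℕ, c ζ = ζ ^ k ∧ k.Coprime ℓ := by
  have hpos : 0 < ℓ ^ e := pow_pos hl.pos e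
  have h1 : IsPrimitiveRoot (c ζ) (ℓ ^ e) := hz.map_of_injective (f := c) c.injective
  have hne : NeZero (ℓ ^ e) := ⟨hpos.ne'⟩
  obtain ⟨k, _, hk⟩ := hz.eq_pow_of_pow_eq_one h1.pow_eq_one
  refine ⟨k, hk.symm, ?_⟩
  rw [← hk, hz.pow_iff_coprime hpos] at h1
  exact Nat.Coprime.coprime_dvd_right (dvd_pow_self ℓ (by omega)) h1

theorem E1b {M : Type} [AddCommGroup M] [DistribMulAction (GG p Ω) M] (hl : ℓ.Prime) (he : 1 ≤ e)
    (hG : GO ρ ρb ℓ e r b ζ F Ψ hΨ) (hle : ∀ g : GG p Ω, ρ g = 1 → ρb g = 1)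
    (hM : ∀ x : M, ℓ ^ e • x = 0) [Fintype (GG p Ω ⧸ N0 ρb r hΨ)] (m0 : M)
    (φ : Ω) (hφ : φ ^ ℓ ^ e = F) (θ : GG p Ω → ZMod (ℓ ^ e))
    (hθ : ∀ g ∈ N0 ρb r hΨ, g φ = ζ ^ (θ g).val * φ) (lam : M →+ ZMod ℓ)
    (hlam : ∀ g : GG p Ω, Geo g → ρ (cj hΨ g) = 1 → lam (hs (N0 ρb r hΨ) m0 θ g) = 0) :
    ∃ (n : GG p Ω ⧸ N0 ρb r hΨ → ℕ) (ψ : Ω), (∀ q, n q < ℓ) ∧
      (∀ q, (∀ x : Ω, x ^ p ^ r = x → q.out x = x) → (n q : ZMod ℓ) = lam (q.out • m0)) ∧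
      (∀ g : GG p Ω, Geo g → ρ (cj hΨ g) = 1 → g ψ = ψ) ∧
      ψ ^ ℓ = ∏ q, (q.out F) ^ n q := by
  have hlf : Fact ℓ.Prime := ⟨hl⟩
  have hpos : 0 < ℓ ^ e := pow_pos hl.pos e
  choose χ hχ hcop using fun c : GG p Ω => e1b_chi (p := p) (Ω := Ω) hl he hG.z_prim c
  have hunit : ∀ c, ((χ c : ℕ) : ZMod ℓ) ≠ 0 := by
    intro c h
    rw [ZMod.natCast_eq_zero_iff] at h
    have h1 := Nat.Coprime.eq_one_of_dvd (hcop c).symm h
    exact hl.one_lt.ne' h1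
  have hval : ∀ x : ZMod ℓ, ((x.val : ℕ) : ZMod ℓ) = x := fun x => ZMod.natCast_zmod_val x
  let n : GG p Ω ⧸ N0 ρb r hΨ → ℕ := fun q =>
    (lam (q.out • m0) * ((χ q.out : ℕ) : ZMod ℓ)⁻¹).val
  have hle1 : ℓ ^ (e - 1) * ℓ = ℓ ^ e := by
    rw [← pow_succ]
    congr 1
    omega
  refine ⟨n, ∏ q, (q.out φ) ^ (ℓ ^ (e - 1) * n q), fun q => ZMod.val_lt _, ?_, ?_, ?_⟩
  · intro q hq
    have h1 : q.out ζ = ζ := hq ζ hG.z_mem
    have h2 : ζ ^ χ q.out = ζ := by rw [← hχ, h1]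
    have hc0 : χ q.out ≠ 0 := by
      intro h
      have h9 := hcop q.out
      rw [h, Nat.coprime_zero_left] at h9
      exact hl.one_lt.ne' h9
    obtain ⟨j, hj⟩ := Nat.exists_eq_succ_of_ne_zero hc0
    have hz0 : ζ ≠ 0 := hG.z_prim.ne_zero hpos.ne'
    have h3 : ζ ^ j = 1 := by
      rw [hj, Nat.succ_eq_add_one, pow_succ] at h2
      exact (mul_eq_right₀ hz0).1 h2
    have h4 : ℓ ∣ j := (dvd_pow_self ℓ (by omega)).trans ((hG.z_prim.pow_eq_one_iff_dvd j).1 h3)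
    have h5 : ((χ q.out : ℕ) : ZMod ℓ) = 1 := by
      rw [hj, Nat.succ_eq_add_one, Nat.cast_add, Nat.cast_one, (ZMod.natCast_eq_zero_iff _ _).2 h4,
        zero_add]
    change (((lam (q.out • m0) * ((χ q.out : ℕ) : ZMod ℓ)⁻¹).val : ℕ) : ZMod ℓ) = _
    rw [hval, h5, inv_one, mul_one]
  · intro g hg hg1
    have hgN : g ∈ N0 ρb r hΨ := ⟨fun x hx => hg x (mem_kk hG.r_pos hx), hle _ hg1⟩
    let t : GG p Ω ⧸ N0 ρb r hΨ → ℕ := fun q => (θ (q.out⁻¹ * g * q.out)).val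
    have h1 : ∀ q : GG p Ω ⧸ N0 ρb r hΨ, g (q.out φ) = ζ ^ (χ q.out * t q) * q.out φ := by
      intro q
      have h2 : q.out⁻¹ * g * q.out ∈ N0 ρb r hΨ := by
        have := (N0_normal ρb r hΨ).conj_mem g hgN q.out⁻¹
        rwa [inv_inv] at this
      have h3 : g (q.out φ) = q.out ((q.out⁻¹ * g * q.out) φ) := by
        change (g * q.out) φ = (q.out * (q.out⁻¹ * g * q.out)) φ
        congr 1
        group
      rw [h3, hθ _ h2, map_mul, map_pow, hχ, ← pow_mul]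
    have h4 : (∑ q, χ q.out * t q * n q : ℕ) ≡ 0 [MOD ℓ] := by
      rw [← ZMod.natCast_eq_natCast_iff]
      rw [Nat.cast_sum, Nat.cast_zero]
      have h5 : ∀ q : GG p Ω ⧸ N0 ρb r hΨ, ((χ q.out * t q * n q : ℕ) : ZMod ℓ)
          = lam (t q • (q.out • m0)) := by
        intro q
        rw [map_nsmul, nsmul_eq_mul, Nat.cast_mul, Nat.cast_mul]
        have h6 : ((n q : ℕ) : ZMod ℓ) = lam (q.out • m0) * ((χ q.out : ℕ) : ZMod ℓ)⁻¹ := hval _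
        rw [h6]
        have h7 := mul_inv_cancel₀ (hunit q.out)
        linear_combination ((t q : ℕ) : ZMod ℓ) * lam (q.out • m0) * h7
      rw [Finset.sum_congr rfl fun q _ => h5 q, ← map_sum]
      exact hlam g hg hg1
    have h8 : g (∏ q, (q.out φ) ^ (ℓ ^ (e - 1) * n q))
        = ζ ^ (ℓ ^ (e - 1) * ∑ q, χ q.out * t q * n q) *
          ∏ q, (q.out φ) ^ (ℓ ^ (e - 1) * n q) := by
      rw [map_prod, Finset.mul_sum, ← Finset.prod_pow_eq_pow_sum, ← Finset.prod_mul_distrib]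
      refine Finset.prod_congr rfl fun q _ => ?_
      rw [map_pow, h1, mul_pow, ← pow_mul]
      congr 2
      ring
    rw [h8]
    obtain ⟨w, hw⟩ := (Nat.modEq_zero_iff_dvd).1 h4
    rw [hw, ← mul_assoc, hle1, pow_mul, hG.z_prim.pow_eq_one, one_pow, one_mul]
  · rw [← Finset.prod_pow]
    refine Finset.prod_congr rfl fun q _ => ?_
    rw [← pow_mul, mul_assoc, mul_comm (n q) ℓ, ← mul_assoc, hle1, pow_mul, ← map_pow, hφ]

end Pool.Agent.QPC
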