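import Mathlib
import Pool.Agent.QPC.Defs
import Pool.Agent.QPC.Defs3
import Pool.Agent.QPC.ET

/-!
# QPC row E1c: averaging over the translations
Plan. Let `K'` = geometric `g` with `ρ (cj g) = 1`, `N'` = geometric `g` with `ρb (cj g) = 1`. Choose for each `a` with `a^(p^r) = a` a translation `T a` (`ET1`). On elements fixed by `K'`: `T a (T a' x) = T (a + a') x` (`ET2`, `ET3`, `ET4`), `T 0 x = x`, any translation with parameter `a` acts as `T a`.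
`κ0 := {a | a^(p^r) = a, zz p r (b a) = 0}` (Finset: roots of `X^(p^r) - X`, filtered), closed under addition and negation; its cardinality `k` is prime to `ℓ` (an additive group killed by `p`: a power of `p`; `IsPGroup`, or `AddGroup` exponent).
`P := ∏_{a ∈ κ0} T a ψ`, `h := t1 P / P` (`ψ ≠ 0` since `ψ^ℓ = ∏ ≠ 0`). (i) `T a' P = P` for `a' ∈ κ0` (re-indexing), so `T a' h = h` (commutation). (ii) `h^ℓ = ∏_q (t1 B_q / B_q)^(n q)` with `B_q := ∏_{a ∈ κ0} T a (f q)`. For `C1 q`: `B_q = (f q)^k`. For `¬ C1 q`: let `a, t` as in `f2`, `a1 - a ∈ κ0`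
(`zz_add`): `t1 B_q = ∏_{a'} T (a1 + a') (f q) = ∏_{a'} T (a' + (a1 - a)) (T a (f q)) = ∏_{a'} T (a' + (a1 - a)) (f q) = B_q`. So `h^ℓ = (t1 X0 / X0)^k`. (iii) `g ∈ N'`: `t1 (g x) = g (t1 x)` for `x` fixed by `K'` (`ET5`), `g X0 = X0`, `g (t1 X0) = t1 X0`, so `(g h / h)^ℓ = 1`, `g h = ε h`, `ε^ℓ = 1`, `ε ∈ kk` (`ε^ℓ = 1`, `ℓ ≠ p`: some `p^s ≡ 1 mod ℓ`), so `t1 ε = ε`.
`∏_{i<p} t1^i h = t1^p P / P = T (p a1) P / P = 1` (telescoping; `p a1 = 0`). Apply `g`: `1 = ∏_{i<p} t1^i (g h) = ε^p ∏ t1^i h = ε^p`. So `ε = 1`.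
-/

set_option autoImplicit false

namespace Pool.Agent.QPC

open Polynomial

variable {p : ℕ} [Fact p.Prime] {Ω : Type} [Field Ω] [Algebra (RatFunc (ZMod p)) Ω]
  {H : Type} [Group H] {ρ : GG p Ω →* H} {Hb : Type} [Group Hb] {ρb : GG p Ω →* Hb}
  {ℓ e r : ℕ} {b ζ F : Ω} {Ψ : Ω ≃+* Ω} {hΨ : PsiOK p Ψ}

theorem E1c (hl : ℓ.Prime) (hlp : ℓ ≠ p) (hG : GO ρ ρb ℓ e r b ζ F Ψ hΨ)
    (hle : ∀ g : GG p Ω, ρ g = 1 → ρb g = 1) {C : Type} [Fintype C] (f : C → Ω) (n : C → ℕ)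
    (C1 : C → Prop) [DecidablePred C1] (f0 : ∀ q, f q ≠ 0)
    (fK : ∀ q, ∀ g : GG p Ω, Geo g → ρ (cj hΨ g) = 1 → g (f q) = f q)
    (f1 : ∀ q, C1 q → (∀ g : GG p Ω, Geo g → ρb (cj hΨ g) = 1 → g (f q) = f q) ∧
      ∀ (a : Ω) (t : Ω ≃+* Ω), a ^ p ^ r = a → IsT ρ Ψ a t → zz p r (b * a) = 0 → t (f q) = f q)
    (f2 : ∀ q, ¬ C1 q → ∃ (a : Ω) (t : Ω ≃+* Ω), a ^ p ^ r = a ∧ IsT ρ Ψ a t ∧
      zz p r (b * a) = 1 ∧ t (f q) = f q)
    (ψ : Ω) (hψ : ∀ g : GG p Ω, Geo g → ρ (cj hΨ g) = 1 → g ψ = ψ) (hψl : ψ ^ ℓ = ∏ q, f q ^ n q)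
    (a1 : Ω) (t1 : Ω ≃+* Ω) (ha1 : a1 ^ p ^ r = a1) (ht1 : IsT ρ Ψ a1 t1)
    (hz1 : zz p r (b * a1) = 1) :
    ∃ (h : Ω) (k : ℕ), (∀ g : GG p Ω, Geo g → ρb (cj hΨ g) = 1 → g h = h) ∧
      (∀ (a : Ω) (t : Ω ≃+* Ω), a ^ p ^ r = a → IsT ρ Ψ a t → zz p r (b * a) = 0 → t h = h) ∧
      k.Coprime ℓ ∧
      h ^ ℓ = (t1 (∏ q ∈ Finset.univ.filter C1, f q ^ n q) /
        ∏ q ∈ Finset.univ.filter C1, f q ^ n q) ^ k := by
  classical
  have hchar := om_charP p Ω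
  have hpp : p.Prime := Fact.out
  have hr : 0 < r := hG.r_pos
  have hq1 : 1 < p ^ r := Nat.one_lt_pow hr.ne' hpp.one_lt
  have k0 : (0 : Ω) ^ p ^ r = 0 := zero_pow (by omega)
  have kadd : ∀ {a a' : Ω}, a ^ p ^ r = a → a' ^ p ^ r = a' → (a + a') ^ p ^ r = a + a' :=
    fun h h' => by rw [add_pow_char_pow, h, h']
  have ksub : ∀ {a a' : Ω}, a ^ p ^ r = a → a' ^ p ^ r = a' → (a - a') ^ p ^ r = a - a' :=
    fun h h' => by rw [sub_pow_char_pow, h, h']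
  have zsub : ∀ x y : Ω, zz p r (x - y) = zz p r x - zz p r y := by
    intro x y
    have h1 := zz_add p r (x - y) y
    rw [sub_add_cancel] at h1
    rw [h1, add_sub_cancel_right]
  have kk_of : ∀ {a : Ω}, a ^ p ^ r = a → a ∈ kk p Ω := fun h => mem_kk hr h
  choose! T hT using fun (a : Ω) (ha : a ^ p ^ r = a) => ET1 hG ha
  obtain ⟨Fx, hFx⟩ : ∃ Fx : Ω → Prop, Fx = fun x => ∀ g : GG p Ω, Geo g → ρ (cj hΨ g) = 1 → g x = x :=
    ⟨_, rfl⟩
  have mFx : ∀ {x : Ω}, Fx x ↔ ∀ g : GG p Ω, Geo g → ρ (cj hΨ g) = 1 → g x = x := by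
    intro x
    rw [hFx]
  have fdiv : ∀ {x y : Ω}, Fx x → Fx y → Fx (x / y) := fun hx hy => mFx.2 fun g h1 h2 => by
    rw [map_div₀, mFx.1 hx g h1 h2, mFx.1 hy g h1 h2]
  have fpow : ∀ {x : Ω} (n : ℕ), Fx x → Fx (x ^ n) := fun n hx => mFx.2 fun g h1 h2 => by
    rw [map_pow, mFx.1 hx g h1 h2]
  have fprod : ∀ {ι : Type} (s : Finset ι) (u : ι → Ω), (∀ i ∈ s, Fx (u i)) → Fx (∏ i ∈ s, u i) :=
    fun s u hu => mFx.2 fun g h1 h2 => by
      rw [map_prod]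
      exact Finset.prod_congr rfl fun i hi => mFx.1 (hu i hi) g h1 h2
  have T4 : ∀ {a x : Ω}, a ^ p ^ r = a → Fx x → Fx (T a x) := fun ha hx =>
    mFx.2 (ET4 hΨ (kk_of ha) (hT _ ha) (mFx.1 hx))
  have T3 : ∀ {a x : Ω} {t : Ω ≃+* Ω}, a ^ p ^ r = a → IsT ρ Ψ a t → Fx x → t x = T a x :=
    fun ha ht hx => ET3 hΨ (kk_of ha) ht (hT _ ha) (mFx.1 hx)
  have T2 : ∀ {a a' x : Ω}, a ^ p ^ r = a → a' ^ p ^ r = a' → Fx x → T a (T a' x) = T (a + a') x :=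
    fun ha ha' hx => T3 (kadd ha ha') (ET2 hΨ (kk_of ha') (hT _ ha) (hT _ ha')) hx
  have T0 : ∀ {x : Ω}, Fx x → T 0 x = x := by
    intro x hx
    have h1 : IsT ρ Ψ 0 (RingEquiv.refl Ω) := ⟨⟨1, fun _ _ => rfl, map_one ρ, fun y => by
      change y = Ψ (Ψ.symm y)
      rw [RingEquiv.apply_symm_apply]⟩, by
      rw [add_zero]
      rfl⟩
    exact (T3 k0 h1 hx).symm
  have T5 : ∀ {a x : Ω} (g : GG p Ω), Geo g → a ^ p ^ r = a → Fx x → T a (g x) = g (T a x) :=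
    fun g hg ha hx => ET5 hΨ (kk_of ha) (hT _ ha) g hg (mFx.1 hx)
  -- the kernel
  obtain ⟨κ, hκ⟩ : ∃ κ : Finset Ω, ∀ a, a ∈ κ ↔ a ^ p ^ r = a ∧ zz p r (b * a) = 0 := by
    refine ⟨((X ^ p ^ r - X : Polynomial Ω).roots.toFinset).filter fun a => zz p r (b * a) = 0, fun a => ?_⟩
    have hne : (X ^ p ^ r - X : Polynomial Ω) ≠ 0 :=
      (monic_X_pow_sub (by rw [degree_X]; exact_mod_cast hq1)).ne_zero
    rw [Finset.mem_filter, Multiset.mem_toFinset, mem_roots hne, IsRoot.def, eval_sub, eval_pow,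
      eval_X, sub_eq_zero]
  have κadd : ∀ {a a' : Ω}, a ∈ κ → a' ∈ κ → a + a' ∈ κ := by
    intro a a' ha ha'
    rw [hκ] at ha ha' ⊢
    exact ⟨kadd ha.1 ha'.1, by rw [mul_add, zz_add, ha.2, ha'.2, add_zero]⟩
  have κsub : ∀ {a a' : Ω}, a ∈ κ → a' ∈ κ → a - a' ∈ κ := by
    intro a a' ha ha'
    rw [hκ] at ha ha' ⊢
    exact ⟨ksub ha.1 ha'.1, by rw [mul_sub, zsub, ha.2, ha'.2, sub_zero]⟩
  have κ0 : (0 : Ω) ∈ κ := by
    rw [hκ]
    exact ⟨k0, by rw [mul_zero, zz_zero]⟩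
  have reidx : ∀ {c : Ω}, c ∈ κ → ∀ u : Ω → Ω, ∏ a ∈ κ, u (c + a) = ∏ a ∈ κ, u a := by
    intro c hc u
    refine Finset.prod_equiv (Equiv.addLeft c) (fun a => ?_) fun a _ => rfl
    rw [Equiv.coe_addLeft]
    constructor
    · exact fun h => κadd hc h
    · intro h
      have h1 := κsub h hc
      rwa [add_sub_cancel_left] at h1
  have nmF : ∀ {x : Ω}, Fx x → Fx (∏ a ∈ κ, T a x) := fun hx =>
    fprod _ _ fun a ha => T4 ((hκ a).1 ha).1 hx
  have nm1 : ∀ {a x : Ω}, a ^ p ^ r = a → Fx x → T a (∏ a' ∈ κ, T a' x) = ∏ a' ∈ κ, T (a + a') x := by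
    intro a x ha hx
    rw [map_prod]
    exact Finset.prod_congr rfl fun a' ha' => T2 ha ((hκ a').1 ha').1 hx
  have nm2 : ∀ {c x : Ω}, c ∈ κ → Fx x → T c (∏ a' ∈ κ, T a' x) = ∏ a' ∈ κ, T a' x := by
    intro c x hc hx
    rw [nm1 ((hκ c).1 hc).1 hx]
    exact reidx hc fun a => T a x
  -- the product
  have fψ : Fx ψ := mFx.2 hψ
  have ff : ∀ q, Fx (f q) := fun q => mFx.2 (fK q)
  have hψ0 : ψ ≠ 0 := by
    intro h0
    have h1 : ∏ q, f q ^ n q ≠ 0 := Finset.prod_ne_zero_iff.2 fun q _ => pow_ne_zero _ (f0 q)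
    rw [← hψl, h0, zero_pow hl.pos.ne'] at h1
    exact h1 rfl
  obtain ⟨P, hP⟩ : ∃ P : Ω, P = ∏ a ∈ κ, T a ψ := ⟨_, rfl⟩
  have PF : Fx P := by
    rw [hP]
    exact nmF fψ
  have hP0 : P ≠ 0 := by
    rw [hP]
    refine Finset.prod_ne_zero_iff.2 fun a _ => ?_
    exact (map_ne_zero_iff (T a) (T a).injective).2 hψ0
  have tP0 : ∀ a, T a P ≠ 0 := fun a => (map_ne_zero_iff (T a) (T a).injective).2 hP0
  have t1e : ∀ {x : Ω}, Fx x → t1 x = T a1 x := fun hx => T3 ha1 ht1 hx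
  obtain ⟨h, hh⟩ : ∃ h : Ω, h = T a1 P / P := ⟨_, rfl⟩
  have hF : Fx h := by
    rw [hh]
    exact fdiv (T4 ha1 PF) PF
  have hTP : ∀ {c : Ω}, c ∈ κ → T c P = P := by
    intro c hc
    rw [hP]
    exact nm2 hc fψ
  -- the power
  have hB : ∀ q, Fx (∏ a ∈ κ, T a (f q)) := fun q => nmF (ff q)
  have hPl : P ^ ℓ = ∏ q, (∏ a ∈ κ, T a (f q)) ^ n q := by
    rw [hP, ← Finset.prod_pow]
    have h1 : ∀ a ∈ κ, T a ψ ^ ℓ = ∏ q, T a (f q) ^ n q := by
      intro a _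
      rw [← map_pow, hψl, map_prod]
      exact Finset.prod_congr rfl fun q _ => map_pow _ _ _
    rw [Finset.prod_congr rfl h1, Finset.prod_comm]
    exact Finset.prod_congr rfl fun q _ => Finset.prod_pow _ _ _
  have hB1 : ∀ q, C1 q → ∏ a ∈ κ, T a (f q) = f q ^ κ.card := by
    intro q hq
    rw [← Finset.prod_const]
    refine Finset.prod_congr rfl fun a ha => ?_
    have h1 := (hκ a).1 ha
    exact (f1 q hq).2 a (T a) h1.1 (hT a h1.1) h1.2
  have hB2 : ∀ q, ¬ C1 q → T a1 (∏ a ∈ κ, T a (f q)) = ∏ a ∈ κ, T a (f q) := by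
    intro q hq
    obtain ⟨a, t, ha, ht, hz, htf⟩ := f2 q hq
    have h1 : T a (f q) = f q := by
      rw [← T3 ha ht (ff q)]
      exact htf
    have h2 : a1 - a ∈ κ := by
      rw [hκ]
      exact ⟨ksub ha1 ha, by rw [mul_sub, zsub, hz1, hz, sub_self]⟩
    rw [nm1 ha1 (ff q), ← reidx h2 fun a => T a (f q)]
    refine Finset.prod_congr rfl fun a' ha' => ?_
    have h3 : a1 + a' = (a1 - a + a') + a := by ring
    rw [h3, ← T2 (kadd (ksub ha1 ha) ((hκ a').1 ha').1) ha (ff q), h1]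
  have hB0 : ∀ q, ∏ a ∈ κ, T a (f q) ≠ 0 := fun q => Finset.prod_ne_zero_iff.2 fun a _ =>
    (map_ne_zero_iff (T a) (T a).injective).2 (f0 q)
  have X0F : Fx (∏ q ∈ Finset.univ.filter C1, f q ^ n q) := fprod _ _ fun q _ => fpow _ (ff q)
  have hhl : h ^ ℓ = (t1 (∏ q ∈ Finset.univ.filter C1, f q ^ n q) /
      ∏ q ∈ Finset.univ.filter C1, f q ^ n q) ^ κ.card := by
    rw [t1e X0F, hh, div_pow, ← map_pow, hPl, map_prod, ← Finset.prod_div_distrib, map_prod,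
      ← Finset.prod_div_distrib, ← Finset.prod_pow, Finset.prod_filter]
    refine Finset.prod_congr rfl fun q _ => ?_
    rw [map_pow]
    by_cases hq : C1 q
    · rw [if_pos hq, hB1 q hq, map_pow, map_pow]
      rw [div_pow, ← pow_mul, ← pow_mul, ← pow_mul, ← pow_mul, mul_comm κ.card]
    · rw [if_neg hq, hB2 q hq, div_self (pow_ne_zero _ (hB0 q))]
  refine ⟨h, κ.card, ?_, ?_, ?_, hhl⟩
  · -- invariance
    intro g hg hgb
    have hh0 : h ≠ 0 := by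
      rw [hh]
      exact div_ne_zero (tP0 a1) hP0
    have hgX : g (∏ q ∈ Finset.univ.filter C1, f q ^ n q) = ∏ q ∈ Finset.univ.filter C1, f q ^ n q := by
      rw [map_prod]
      refine Finset.prod_congr rfl fun q hq => ?_
      rw [map_pow, (f1 q (Finset.mem_filter.1 hq).2).1 g hg hgb]
    have hgt : g (t1 (∏ q ∈ Finset.univ.filter C1, f q ^ n q)) =
        t1 (∏ q ∈ Finset.univ.filter C1, f q ^ n q) := by
      rw [t1e X0F, ← T5 g hg ha1 X0F, hgX]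
    have h1 : (g h) ^ ℓ = h ^ ℓ := by
      rw [← map_pow, hhl, map_pow, map_div₀, hgX, hgt]
    obtain ⟨ε, hε⟩ : ∃ ε : Ω, ε = g h / h := ⟨_, rfl⟩
    have hgh : g h = ε * h := by
      rw [hε, div_mul_cancel₀ _ hh0]
    have hεl : ε ^ ℓ = 1 := by
      rw [hε, div_pow, h1, div_self (pow_ne_zero _ hh0)]
    have hεk : ε ∈ kk p Ω := by
      have hco : Nat.Coprime p ℓ := (Nat.coprime_primes hpp hl).2 fun h => hlp h.symm
      refine ⟨ℓ.totient, Nat.totient_pos.2 hl.pos, ?_⟩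
      have h2 := Nat.ModEq.pow_totient hco
      have h3 : 1 ≤ p ^ ℓ.totient := Nat.one_le_pow _ _ hpp.pos
      obtain ⟨m, hm⟩ := (Nat.modEq_iff_dvd' h3).1 h2.symm
      have h4 : p ^ ℓ.totient = ℓ * m + 1 := by omega
      rw [h4, pow_succ, pow_mul, hεl, one_pow, one_mul]
    have hTε : T a1 ε = ε := ET6 hΨ (hT a1 ha1) hεk
    -- the orbit
    obtain ⟨y, hy⟩ : ∃ y : ℕ → Ω, y = fun i : ℕ => T ((i : Ω) * a1) P := ⟨_, rfl⟩
    have kmul : ∀ i : ℕ, ((i : Ω) * a1) ^ p ^ r = (i : Ω) * a1 := by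
      intro i
      induction i with
      | zero => rw [Nat.cast_zero, zero_mul, k0]
      | succ i ih => rw [Nat.cast_succ, add_mul, one_mul, kadd ih ha1]
    have hyF : ∀ i, Fx (y i) := by
      intro i
      rw [hy]
      exact T4 (kmul i) PF
    have hy1 : ∀ i, T a1 (y i) = y (i + 1) := by
      intro i
      rw [hy]
      change T a1 (T ((i : Ω) * a1) P) = T (((i + 1 : ℕ) : Ω) * a1) P
      rw [T2 ha1 (kmul i) PF]
      congr 1
      rw [Nat.cast_succ]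
      ring_nf
    have hy0 : y 0 = P := by
      rw [hy]
      change T (((0 : ℕ) : Ω) * a1) P = P
      rw [Nat.cast_zero, zero_mul, T0 PF]
    have hyp : y p = P := by
      rw [hy]
      change T (((p : ℕ) : Ω) * a1) P = P
      rw [CharP.cast_eq_zero, zero_mul, T0 PF]
    have hyne : ∀ i, y i ≠ 0 := by
      intro i
      rw [hy]
      exact tP0 _
    have hu : ∀ i, g (y (i + 1) / y i) = ε * (y (i + 1) / y i) := by
      intro i
      induction i with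
      | zero =>
        have h2 : y (0 + 1) / y 0 = h := by rw [← hy1, hy0, hh]
        rw [h2, hgh]
      | succ i ih =>
        have h2 : y (i + 1 + 1) / y (i + 1) = T a1 (y (i + 1) / y i) := by
          rw [map_div₀, hy1, hy1]
        rw [h2, ← T5 g hg ha1 (fdiv (hyF _) (hyF _)), ih, map_mul, hTε]
    have hprod : ∀ m : ℕ, ∏ i ∈ Finset.range m, (y (i + 1) / y i) = y m / y 0 := by
      intro m
      induction m with
      | zero => rw [Finset.prod_range_zero, div_self (hyne 0)]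
      | succ m ih =>
        rw [Finset.prod_range_succ, ih, mul_comm, div_mul_div_cancel₀ (hyne m)]
    have h2 := hprod p
    rw [hyp, hy0, div_self hP0] at h2
    have h3 := congrArg g h2
    rw [map_prod, map_one, Finset.prod_congr rfl fun i _ => hu i, Finset.prod_mul_distrib, h2,
      mul_one, Finset.prod_const, Finset.card_range] at h3
    have h4 : ε = 1 := by
      have h5 : (ε - 1) ^ p = 0 := by
        rw [sub_pow_char, h3, one_pow, sub_self]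
      exact sub_eq_zero.1 (pow_eq_zero_iff hpp.ne_zero |>.1 h5)
    rw [hgh, h4, one_mul]
  · intro a t ha ht hz
    have hc : a ∈ κ := (hκ a).2 ⟨ha, hz⟩
    rw [T3 ha ht hF, hh, map_div₀, hTP hc, T2 ha ha1 PF, add_comm, ← T2 ha1 ha PF, hTP hc]
  · rw [Nat.coprime_comm, hl.coprime_iff_not_dvd]
    intro hdvd
    let S : AddSubgroup Ω :=
      { carrier := {a | a ∈ κ}
        add_mem' := fun h1 h2 => κadd h1 h2
        zero_mem' := κ0
        neg_mem' := fun {a} h1 => by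
          have h2 := κsub κ0 h1
          rw [zero_sub] at h2
          exact h2 }
    have hfl : Fact ℓ.Prime := ⟨hl⟩
    let eS : S ≃ {a // a ∈ κ} := Equiv.subtypeEquivRight fun a => Iff.rfl
    have hfin : Finite S := Finite.of_equiv _ eS.symm
    have hcard : Nat.card S = κ.card := by
      rw [Nat.card_congr eS, Nat.card_eq_fintype_card, Fintype.card_coe]
    rw [← hcard] at hdvd
    obtain ⟨s, hs⟩ := exists_prime_addOrderOf_dvd_card' ℓ hdvd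
    have h1 : p • s = 0 := by
      apply Subtype.ext
      rw [AddSubgroup.coe_nsmul, nsmul_eq_mul, CharP.cast_eq_zero, zero_mul]
      rfl
    have h2 := addOrderOf_dvd_of_nsmul_eq_zero h1
    rw [hs] at h2
    exact hlp ((Nat.prime_dvd_prime_iff_eq hl hpp).1 h2)

end Pool.Agent.QPC
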