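import Mathlib
import Pool.Agent.QPC.Defs
import Pool.Agent.QPC.Defs3

/-!
# QPC row ES: `ρ ∘ cj` is again a realisation
Plan. `w0 := Ψ.symm xx`. For `g : GG` the element `g w0` satisfies `((g w0)^(p^r) - g w0)^(ℓ^e) = xx` (apply `g` to `Ψ⁻¹` of `hG.Psi_xx`), so by `hG.trans` (for `w = g w0`) there is `g1` geometric with `ρ g1 = 1`, `g1 w0 = g w0`. `g2 := g1⁻¹ * g` fixes `w0`, `ρ g2 = ρ g`, and `Ψ g2 Ψ⁻¹` fixes `xx`, so it is an element `g3` of `GG` (`toGG`) with `cj hΨ g3 = g2`; `g3` is geometric if `g` is. This is `ES1`.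
`ES2`: `Ad.cj`; surjectivity and `pel` by `ES1`. `ES3`: `ES1` for `ρb` (`ρb g1 = 1` by `hle`). `ES4`: the subgroup `Gb` is normal when `ρb` is surjective (`Geo.conj`).
-/

set_option autoImplicit false

namespace Pool.Agent.QPC

open Polynomial

variable {p : ℕ} [Fact p.Prime] {Ω : Type} [Field Ω] [Algebra (RatFunc (ZMod p)) Ω]
  {H : Type} [Group H] {ρ : GG p Ω →* H} {Hb : Type} [Group Hb] {ρb : GG p Ω →* Hb}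
  {ℓ e r : ℕ} {b ζ F : Ω} {Ψ : Ω ≃+* Ω} {hΨ : PsiOK p Ψ}

theorem es_w0 (hG : GO ρ ρb ℓ e r b ζ F Ψ hΨ) :
    ((Ψ.symm (xx p Ω)) ^ p ^ r - Ψ.symm (xx p Ω)) ^ ℓ ^ e = xx p Ω := by
  have h := congrArg Ψ.symm hG.Psi_xx
  rw [RingEquiv.symm_apply_apply, map_pow, map_sub, map_pow] at h
  exact h.symm

theorem ES1 (hG : GO ρ ρb ℓ e r b ζ F Ψ hΨ) (g : GG p Ω) :
    ∃ g3 g1 : GG p Ω, ρ g1 = 1 ∧ Geo g1 ∧ cj hΨ g3 = g1 * g ∧ (Geo g → Geo g3) := by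
  have hw : ((g (Ψ.symm (xx p Ω))) ^ p ^ r - g (Ψ.symm (xx p Ω))) ^ ℓ ^ e = xx p Ω := by
    have h := congrArg g (es_w0 hG)
    rw [map_pow, map_sub, map_pow, gal_xx] at h
    exact h
  obtain ⟨g1, hg1, hr1, h1⟩ := hG.trans _ hw
  have h2 : (g1⁻¹ * g) (Ψ.symm (xx p Ω)) = Ψ.symm (xx p Ω) := by
    change g1⁻¹ (g (Ψ.symm (xx p Ω))) = Ψ.symm (xx p Ω)
    rw [← h1]
    change (g1⁻¹ * g1) _ = _
    rw [inv_mul_cancel]; rfl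
  have h3 : ((Ψ.symm.trans ((g1⁻¹ * g : GG p Ω) : Ω ≃+* Ω)).trans Ψ) (xx p Ω) = xx p Ω := by
    change Ψ ((g1⁻¹ * g) (Ψ.symm (xx p Ω))) = xx p Ω
    rw [h2, RingEquiv.apply_symm_apply]
  refine ⟨toGG p Ω _ h3, g1⁻¹, ?_, hg1.inv, ?_, ?_⟩
  · rw [map_inv, hr1, inv_one]
  · ext x
    change Ψ.symm (Ψ ((g1⁻¹ * g) (Ψ.symm (Ψ x)))) = (g1⁻¹ * g) x
    rw [RingEquiv.symm_apply_apply, RingEquiv.symm_apply_apply]
  · intro hg a ha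
    change Ψ ((g1⁻¹ * g) (Ψ.symm a)) = a
    rw [hΨ.kk' ha, (hg1.inv.mul hg) a ha, hΨ.kk a ha]

theorem ES2 (hρ : Rho p Ω ρ) (hG : GO ρ ρb ℓ e r b ζ F Ψ hΨ) : Rho p Ω (ρ.comp (cj hΨ)) := by
  refine { toAd := hρ.toAd.cj hΨ, surj := ?_, pel := ?_ }
  · intro a
    obtain ⟨g, rfl⟩ := hρ.surj a
    obtain ⟨g3, g1, h1, _, h3, _⟩ := ES1 hG g
    refine ⟨g3, ?_⟩
    rw [MonoidHom.comp_apply, h3, map_mul, h1, one_mul]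
  · intro a ha
    obtain ⟨g, hg, rfl⟩ := hρ.pel a ha
    obtain ⟨g3, g1, h1, _, h3, h4⟩ := ES1 hG g
    refine ⟨g3, h4 hg, ?_⟩
    rw [MonoidHom.comp_apply, h3, map_mul, h1, one_mul]

theorem ES3 (hle : ∀ g : GG p Ω, ρ g = 1 → ρb g = 1) (hG : GO ρ ρb ℓ e r b ζ F Ψ hΨ)
    (g : GG p Ω) : ∃ g3 : GG p Ω, ρb (cj hΨ g3) = ρb g ∧ (Geo g → Geo g3) := by
  obtain ⟨g3, g1, h1, _, h3, h4⟩ := ES1 hG g
  refine ⟨g3, ?_, h4⟩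
  rw [h3, map_mul, hle g1 h1, one_mul]

theorem ES4 (hs : Function.Surjective ρb) : (Gb p Ω ρb).Normal := by
  refine ⟨?_⟩
  rintro _ ⟨h, hh, rfl⟩ g
  obtain ⟨c, rfl⟩ := hs g
  refine ⟨c * h * c⁻¹, ?_, ?_⟩
  · have := hh.conj c⁻¹
    rwa [inv_inv] at this
  · rw [map_mul, map_mul, map_inv]

end Pool.Agent.QPC
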