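import Mathlib
import Pool.Agent.QPC.Defs
import Pool.Agent.QPC.Defs3
import Pool.Agent.QPC.E0
import Pool.Agent.QPC.ET
import Pool.Agent.QPC.ES
import Pool.Agent.QPC.E1b
import Pool.Agent.QPC.E1c
import Pool.Agent.QPC.E1d

/-!
# QPC row E1e: the contradiction (assembly)
Plan. `E1b` gives `n, ψ`. `C := GG ⧸ N0`, `f q := q.out F`, `C1 q := ∀ x, x^(p^r) = x → q.out x = x`. `f0`: `F ≠ 0`. `fK`: `q.out⁻¹ g q.out` is in `N0` for `g ∈ K'` and `F_fix`. `f1`: for `g ∈ N'` the same; translations: `hG.F_T` with `q.out b = b`. `f2`: `E1d4` for `c = q.out`: `a` with `zz (b a) = 1`, `zz (c b a) = 0`; `ET1` gives `t`; `hG.F_T`.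
`a1, t1` from `E1d2`, `ET1`. `E1c` gives `h, k`. Let `X0 := ∏_{q, C1 q} f q ^ n q`, `u k + v ℓ = 1` (integers), `h' := h^u (t1 X0/X0)^v`, `h'^ℓ = t1 X0 / X0`; `y := t1 X0 / h'`, `y^ℓ = X0 (t1 X0)^(ℓ-1)`, in `Zr` (`F ∈ Zr`, `gal_Zr`; translations preserve `Zr` by `hΨ.Z`, `hΨ.Z'`), so `y ∈ Zr`
(integrally closed in `Ω`), `y` is fixed by `N'` and by the translations with `zz (b a') = 0` (commutation `ET2`, `ET3`, `ET5`).
The map `q ↦ ρb (cj q.out)` is a bijection from `{q | C1 q}` to `Gb p Ω ρb`: it has values in `Gb` by `hG.geo` (for `c = cj q.out`, `cj_fix`); injective (if `ρb (cj q.out) = ρb (cj q'.out)` then `q.out⁻¹ q'.out ∈ N0`); surjective by `ES3` (`γ = ρb g = ρb (cj g3)`, `g3` geometric; `q := g3 N0`, `q.out = g3 n`). `ν γ := n q` (`q` corresponding): `ν γ = lam (γ • m0)` in `ZMod ℓ`, so not constant (`hγ`; `γ = 1` gives `lam m0`).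
`σ γ` := a geometric element with `ρb (cj (σ γ)) = γ` (`ES3`): `σ γ F = q.out F` (`(σ γ)⁻¹ q.out ∈ N0`). So `X0 = ∏_γ (σ γ F)^(ν γ)` and `hG.nonpow` gives the contradiction.
-/

set_option autoImplicit false

namespace Pool.Agent.QPC

open Polynomial

variable (p : ℕ) [Fact p.Prime] (Ω : Type) [Field Ω] [Algebra (RatFunc (ZMod p)) Ω]
  [IsSepClosed Ω] [Algebra.IsSeparable (RatFunc (ZMod p)) Ω]

omit [IsSepClosed Ω] [Algebra.IsSeparable (RatFunc (ZMod p)) Ω] in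
theorem e1e_N0 {Hb : Type} [Group Hb] {ρb : GG p Ω →* Hb} {r : ℕ} (hr : 0 < r) {Ψ : Ω ≃+* Ω}
    {hΨ : PsiOK p Ψ} {g : GG p Ω} (hg : Geo g) (h : ρb (cj hΨ g) = 1) : g ∈ N0 ρb r hΨ :=
  ⟨fun _ hx => hg _ (mem_kk hr hx), h⟩

omit [IsSepClosed Ω] [Algebra.IsSeparable (RatFunc (ZMod p)) Ω] in
theorem e1e_fixF {H : Type} [Group H] {ρ : GG p Ω →* H} {Hb : Type} [Group Hb]
    {ρb : GG p Ω →* Hb} {ℓ e r : ℕ} {b ζ F : Ω} {Ψ : Ω ≃+* Ω} {hΨ : PsiOK p Ψ}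
    (hG : GO ρ ρb ℓ e r b ζ F Ψ hΨ) {g : GG p Ω} (hg : g ∈ N0 ρb r hΨ) (c : GG p Ω) :
    g (c F) = c F := by
  have h1 : c⁻¹ * g * c ∈ N0 ρb r hΨ := by
    have := (N0_normal ρb r hΨ).conj_mem g hg c⁻¹
    rwa [inv_inv] at this
  have h2 := hG.F_fix _ h1
  have h3 : (c⁻¹ * g * c) F = c⁻¹ (g (c F)) := rfl
  rw [h3] at h2
  have h4 := congrArg c h2
  have h5 : c (c⁻¹ (g (c F))) = g (c F) := by
    change (c * c⁻¹) (g (c F)) = _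
    rw [mul_inv_cancel]; rfl
  rw [h5] at h4
  exact h4

omit [IsSepClosed Ω] [Algebra.IsSeparable (RatFunc (ZMod p)) Ω] in
theorem e1e_Zr {H : Type} [Group H] {ρ : GG p Ω →* H} {Ψ : Ω ≃+* Ω} (hΨ : PsiOK p Ψ)
    {a : Ω} {t : Ω ≃+* Ω} (ht : IsT ρ Ψ a t) {x : Ω} (hx : x ∈ Zr p Ω) : t x ∈ Zr p Ω := by
  obtain ⟨g, _, _, h⟩ := ht.ex
  rw [h]
  exact hΨ.Z _ (gal_Zr g (hΨ.Z' _ hx))

omit [IsSepClosed Ω] [Algebra.IsSeparable (RatFunc (ZMod p)) Ω] in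
theorem e1e_int {m : ℕ} (hm : 0 < m) {y : Ω} (h : y ^ m ∈ Zr p Ω) : y ∈ Zr p Ω := by
  let := (inc p Ω).toAlgebra
  have h1 : IsIntegral (ZMod p)[X] (y ^ m) := h
  exact h1.of_pow hm

omit [IsSepClosed Ω] [Algebra.IsSeparable (RatFunc (ZMod p)) Ω] in
theorem e1e_out {Hb : Type} [Group Hb] {ρb : GG p Ω →* Hb} {r : ℕ} {Ψ : Ω ≃+* Ω}
    {hΨ : PsiOK p Ψ} (s : GG p Ω) :
    ∃ m ∈ N0 ρb r hΨ, (QuotientGroup.mk s : GG p Ω ⧸ N0 ρb r hΨ).out = s * m := by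
  have h := QuotientGroup.mk_out_eq_mul (N0 ρb r hΨ) s
  obtain ⟨m, hm⟩ := h
  exact ⟨m, m.2, hm⟩

theorem E1e {H : Type} [Group H] {ρ : GG p Ω →* H} {Hb : Type} [Group Hb] [Finite Hb]
    {ρb : GG p Ω →* Hb}
    {ℓ e r : ℕ} {b ζ F : Ω} {Ψ : Ω ≃+* Ω} {hΨ : PsiOK p Ψ}
    {M : Type} [AddCommGroup M] [DistribMulAction (GG p Ω) M] [DistribMulAction Hb M]
    (hact : ∀ (g : GG p Ω) (x : M), g • x = ρb (cj hΨ g) • x)
    (hl : ℓ.Prime) (hlp : ℓ ≠ p) (he : 1 ≤ e)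
    (hG : GO ρ ρb ℓ e r b ζ F Ψ hΨ) (hle : ∀ g : GG p Ω, ρ g = 1 → ρb g = 1)
    (hM : ∀ x : M, ℓ ^ e • x = 0) [Fintype (GG p Ω ⧸ N0 ρb r hΨ)] (m0 : M)
    (φ : Ω) (hφ : φ ^ ℓ ^ e = F) (θ : GG p Ω → ZMod (ℓ ^ e))
    (hθ : ∀ g ∈ N0 ρb r hΨ, g φ = ζ ^ (θ g).val * φ) (lam : M →+ ZMod ℓ)
    (hlam : ∀ g : GG p Ω, Geo g → ρ (cj hΨ g) = 1 → lam (hs (N0 ρb r hΨ) m0 θ g) = 0)
    (hγ : ∃ γ ∈ Gb p Ω ρb, lam (γ • m0) ≠ lam m0) : False := by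
  classical
  have hr := hG.r_pos
  obtain ⟨n, ψ, hnl, hn1, hψ, hψl⟩ := E1b hl he hG hle hM m0 φ hφ θ hθ lam hlam
  set f : GG p Ω ⧸ N0 ρb r hΨ → Ω := fun q => q.out F with hf
  set C1 : GG p Ω ⧸ N0 ρb r hΨ → Prop := fun q => ∀ x : Ω, x ^ p ^ r = x → q.out x = x with hC1
  have f0 : ∀ q, f q ≠ 0 := fun q => by
    rw [hf]
    exact (map_ne_zero_iff _ (q.out).injective).2 hG.F_ne
  have fN : ∀ q, ∀ g : GG p Ω, Geo g → ρb (cj hΨ g) = 1 → g (f q) = f q := fun q g hg h =>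
    e1e_fixF p Ω hG (e1e_N0 p Ω hr hg h) _
  have fK : ∀ q, ∀ g : GG p Ω, Geo g → ρ (cj hΨ g) = 1 → g (f q) = f q := fun q g hg h =>
    fN q g hg (hle _ h)
  have f1 : ∀ q, C1 q → (∀ g : GG p Ω, Geo g → ρb (cj hΨ g) = 1 → g (f q) = f q) ∧
      ∀ (a : Ω) (t : Ω ≃+* Ω), a ^ p ^ r = a → IsT ρ Ψ a t → zz p r (b * a) = 0 →
        t (f q) = f q := by
    intro q hq
    refine ⟨fN q, fun a t ha ht hz => ?_⟩
    refine hG.F_T q.out a t ha ht ?_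
    rw [hq b hG.b_mem]
    exact hz
  have f2 : ∀ q, ¬ C1 q → ∃ (a : Ω) (t : Ω ≃+* Ω), a ^ p ^ r = a ∧ IsT ρ Ψ a t ∧
      zz p r (b * a) = 1 ∧ t (f q) = f q := by
    intro q hq
    obtain ⟨a, ha, hz1, hz0⟩ := E1d4 p Ω hG q.out hq
    obtain ⟨t, ht⟩ := ET1 hG ha
    exact ⟨a, t, ha, ht, hz1, hG.F_T q.out a t ha ht hz0⟩
  obtain ⟨a1, ha1, hz1⟩ := E1d2 p Ω hr b hG.b_mem hG.b_ne
  obtain ⟨t1, ht1⟩ := ET1 hG ha1
  obtain ⟨h, k, hN, hT, hk, hhl⟩ := E1c hl hlp hG hle f n C1 f0 fK f1 f2 ψ hψ hψl a1 t1 ha1 ht1 hz1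
  set X0 := ∏ q ∈ Finset.univ.filter C1, f q ^ n q with hX0
  have X0ne : X0 ≠ 0 := Finset.prod_ne_zero_iff.2 fun q _ => pow_ne_zero _ (f0 q)
  have tX0ne : t1 X0 ≠ 0 := (map_ne_zero_iff _ t1.injective).2 X0ne
  set Rr := t1 X0 / X0 with hRr
  have Rne : Rr ≠ 0 := div_ne_zero tX0ne X0ne
  have hlne : ℓ ≠ 0 := hl.ne_zero
  have hne : h ≠ 0 := by
    intro h0
    rw [h0, zero_pow hlne] at hhl
    exact pow_ne_zero k Rne hhl.symm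
  -- Bezout
  obtain ⟨u, v, huv⟩ : ∃ u v : ℤ, u * k + v * ℓ = 1 := by
    have := Nat.isCoprime_iff_coprime.2 hk
    exact this
  set h' := h ^ u * Rr ^ v with hh'
  have h'ne : h' ≠ 0 := mul_ne_zero (zpow_ne_zero _ hne) (zpow_ne_zero _ Rne)
  have h'l : h' ^ ℓ = Rr := by
    rw [hh', mul_pow, ← zpow_natCast, ← zpow_natCast, ← zpow_mul, ← zpow_mul, mul_comm u (ℓ : ℤ),
      zpow_mul, zpow_natCast, hhl, ← zpow_natCast, ← zpow_mul, ← zpow_add₀ Rne]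
    have : (k : ℤ) * u + v * ℓ = 1 := by linarith
    rw [this, zpow_one]
  set y := t1 X0 / h' with hy
  have hyl : y ^ ℓ = X0 * (t1 X0) ^ (ℓ - 1) := by
    rw [hy, div_pow, h'l, hRr]
    have hs : (t1 X0) ^ ℓ = t1 X0 * (t1 X0) ^ (ℓ - 1) := by
      rw [← pow_succ', Nat.sub_add_cancel hl.one_lt.le]
    rw [hs]
    field_simp
  have X0Z : X0 ∈ Zr p Ω := by
    rw [hX0]
    exact prod_mem fun q _ => pow_mem (gal_Zr _ hG.F_int) _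
  have yZ : y ∈ Zr p Ω := by
    apply e1e_int p Ω hl.pos
    rw [hyl]
    exact mul_mem X0Z (pow_mem (e1e_Zr p Ω hΨ ht1 X0Z) _)
  have X0K : ∀ g : GG p Ω, Geo g → ρ (cj hΨ g) = 1 → g X0 = X0 := by
    intro g hg h1
    rw [hX0, map_prod]
    exact Finset.prod_congr rfl fun q _ => by rw [map_pow, fK q g hg h1]
  have X0N : ∀ g : GG p Ω, Geo g → ρb (cj hΨ g) = 1 → g X0 = X0 := by
    intro g hg h1
    rw [hX0, map_prod]
    exact Finset.prod_congr rfl fun q _ => by rw [map_pow, fN q g hg h1]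
  have a1kk : a1 ∈ kk p Ω := mem_kk hr ha1
  have yN : ∀ g : GG p Ω, Geo g → ρb (cj hΨ g) = 1 → g y = y := by
    intro g hg h1
    have e1 : g (t1 X0) = t1 X0 := by
      rw [← ET5 hΨ a1kk ht1 g hg X0K, X0N g hg h1]
    have e2 : g Rr = Rr := by rw [hRr, map_div₀, e1, X0N g hg h1]
    have e3 : g h' = h' := by rw [hh', map_mul, map_zpow₀, map_zpow₀, hN g hg h1, e2]
    rw [hy, map_div₀, e1, e3]
  have yT : ∀ (a' : Ω) (t' : Ω ≃+* Ω), a' ^ p ^ r = a' → IsT ρ Ψ a' t' →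
      zz p r (b * a') = 0 → t' y = y := by
    intro a' t' ha' ht' hz
    have a'kk : a' ∈ kk p Ω := mem_kk hr ha'
    have e0 : t' X0 = X0 := by
      rw [hX0, map_prod]
      refine Finset.prod_congr rfl fun q hq => ?_
      rw [map_pow, (f1 q (Finset.mem_filter.1 hq).2).2 a' t' ha' ht' hz]
    have e1 : t' (t1 X0) = t1 X0 := by
      have i1 := ET2 hΨ a'kk ht1 ht'
      have i2 := ET2 hΨ a1kk ht' ht1
      rw [add_comm] at i2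
      have i3 := ET3 hΨ (show a1 + a' ∈ kk p Ω from (kF p Ω).add_mem a1kk a'kk) i1 i2 X0K
      have i4 : (t'.trans t1) X0 = t1 (t' X0) := rfl
      have i5 : (t1.trans t') X0 = t' (t1 X0) := rfl
      rw [i4, i5, e0] at i3
      exact i3.symm
    have e2 : t' Rr = Rr := by rw [hRr, map_div₀, e1, e0]
    have e3 : t' h' = h' := by rw [hh', map_mul, map_zpow₀, map_zpow₀, hT a' t' ha' ht' hz, e2]
    rw [hy, map_div₀, e1, e3]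
  -- the geometric lifts
  have hσ : ∀ γ : Gb p Ω ρb, ∃ g : GG p Ω, Geo g ∧ ρb (cj hΨ g) = γ := by
    intro γ
    obtain ⟨g, hg, hgγ⟩ := γ.2
    obtain ⟨g3, h3, h3'⟩ := ES3 hle hG g
    exact ⟨g3, h3' hg, by rw [h3, hgγ]⟩
  choose σ σgeo σρ using hσ
  have : Fintype (Gb p Ω ρb) := Fintype.ofFinite _
  set qq : Gb p Ω ρb → GG p Ω ⧸ N0 ρb r hΨ := fun γ => QuotientGroup.mk (σ γ) with hqq
  have hqout : ∀ γ, ∃ m ∈ N0 ρb r hΨ, (qq γ).out = σ γ * m := fun γ => e1e_out p Ω (σ γ)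
  have hqC : ∀ γ, C1 (qq γ) := by
    intro γ x hx
    obtain ⟨m, hm, hqm⟩ := hqout γ
    rw [hqm, AlgEquiv.mul_apply, hm.1 x hx, σgeo γ x (mem_kk hr hx)]
  have hqF : ∀ γ, f (qq γ) = σ γ F := by
    intro γ
    obtain ⟨m, hm, hqm⟩ := hqout γ
    show (qq γ).out F = _
    rw [hqm, AlgEquiv.mul_apply, hG.F_fix m hm]
  have hqρ : ∀ γ, ρb (cj hΨ (qq γ).out) = γ := by
    intro γ
    obtain ⟨m, hm, hqm⟩ := hqout γ
    rw [hqm, map_mul, map_mul, hm.2, mul_one, σρ]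
  have hprod : ∏ γ, σ γ F ^ n (qq γ) = X0 := by
    rw [hX0]
    refine Finset.prod_bij (fun γ _ => qq γ) (fun γ _ => ?_) (fun γ _ γ' _ hγγ => ?_)
      (fun q hq => ?_) (fun γ _ => ?_)
    · exact Finset.mem_filter.2 ⟨Finset.mem_univ _, hqC γ⟩
    · have h1 := hqρ γ
      rw [hγγ, hqρ γ'] at h1
      exact (Subtype.ext h1).symm
    · have hq1 : C1 q := (Finset.mem_filter.1 hq).2
      obtain ⟨g, hg, hgq⟩ := hG.geo (cj hΨ q.out) (fun x hx => by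
        rw [cj_fix hΨ _ (mem_kk hr hx), hq1 x hx])
      refine ⟨⟨ρb (cj hΨ q.out), g, hg, hgq⟩, Finset.mem_univ _, ?_⟩
      set γ : Gb p Ω ρb := ⟨ρb (cj hΨ q.out), g, hg, hgq⟩
      show (QuotientGroup.mk (σ γ) : GG p Ω ⧸ N0 ρb r hΨ) = q
      rw [← QuotientGroup.out_eq' q, QuotientGroup.eq]
      refine ⟨fun x hx => ?_, ?_⟩
      · rw [AlgEquiv.mul_apply, hq1 x hx]
        exact (σgeo γ).inv x (mem_kk hr hx)
      · rw [map_mul, map_mul, map_inv, map_inv, σρ]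
        exact inv_mul_cancel _
    · rw [hqF]
  have hνne : ∃ γ γ' : Gb p Ω ρb, n (qq γ) ≠ n (qq γ') := by
    obtain ⟨γ0, hγ0, hne0⟩ := hγ
    refine ⟨⟨γ0, hγ0⟩, 1, fun heq => hne0 ?_⟩
    have e1 := hn1 _ (hqC ⟨γ0, hγ0⟩)
    have e2 := hn1 _ (hqC 1)
    rw [hact, hqρ] at e1 e2
    rw [← heq, e1] at e2
    rw [e2]
    simp
  refine hG.nonpow (fun γ => n (qq γ)) (fun γ => hnl _) hνne σ (fun γ => ⟨σgeo γ, σρ γ⟩) a1 t1 ha1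
    ht1 hz1 y yZ yN yT ?_
  rw [hyl, hprod]

end Pool.Agent.QPC
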