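import Mathlib
import Pool.Agent.QPC.Defs
import Pool.Agent.QPC.Defs3

/-!
# QPC row EK: the Kummer character
Plan. `EK1`: `Ω` is separably closed and `ℓ^e` is not divisible by `p` (`F ≠ 0`): `IsSepClosed.exists_pow_nat_eq` (needs `(ℓ^e : Ω) ≠ 0`), `CharP Ω p` is `om_charP`.
`EK2`: for `g ∈ N0`: `(g φ)^(ℓ^e) = g F = F = φ^(ℓ^e)` (`hG.F_fix`), so `g φ = ζ^i φ`; `θ g := i mod ℓ^e`. Additive on `N0`: `g (g' φ) = g (ζ^i' φ) = ζ^i' ζ^i φ` as `g ζ = ζ` (`hG.z_mem`), and `ζ` is a primitive root (`IsPrimitiveRoot.pow_inj` or order). Inert `g`: it is geometric (`g c - c ∈ q` for a constant `c ∈ Zr`: a non-zero constant is a unit of `Zr`, `kk_Zr`) and `ρb (cj g) = 1`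
(`Inert.cj`, `hρb.inert`), so in `N0`. Let `q` be its prime. `hG.cert q`: `a^(ℓ^e) = F u`, `u ∉ q`, `g a = a`. `ψ := a / φ` satisfies `ψ^(ℓ^e) = u`, so `ψ ∈ Zr` (root of a monic polynomial over `Zr`: `ψ` integral; `Zr` is integrally closed in `Ω`), `ψ ∉ q`. `g ψ = ζ^(-i) ψ`, so `(ζ^(-i) - 1) ψ ∈ q`, so the constant `ζ^(-i) - 1` is in `q`, so it is `0`, `i ≡ 0`.
-/

set_option autoImplicit false

namespace Pool.Agent.QPC

open Polynomial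

variable (p : ℕ) [Fact p.Prime] (Ω : Type) [Field Ω] [Algebra (RatFunc (ZMod p)) Ω]
  [IsSepClosed Ω] [Algebra.IsSeparable (RatFunc (ZMod p)) Ω]

theorem EK1 {ℓ e : ℕ} (hl : ℓ.Prime) (hlp : ℓ ≠ p) (F : Ω) : ∃ φ : Ω, φ ^ ℓ ^ e = F := by
  have := om_charP p Ω
  have h1 : ((ℓ ^ e : ℕ) : Ω) ≠ 0 := by
    intro h
    rw [CharP.cast_eq_zero_iff Ω p] at h
    have hp : p.Prime := Fact.out
    exact hlp ((Nat.prime_dvd_prime_iff_eq hp hl).1 (hp.dvd_of_dvd_pow h)).symm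
  have : NeZero ((ℓ ^ e : ℕ) : Ω) := ⟨h1⟩
  exact IsSepClosed.exists_pow_nat_eq F (ℓ ^ e)

omit [IsSepClosed Ω] [Algebra.IsSeparable (RatFunc (ZMod p)) Ω] in
/-- A constant in a prime ideal of `Z` is zero. -/
theorem ek_const {q : Ideal (Zr p Ω)} (hq : q.IsPrime) {d : Ω} (hd : d ∈ kk p Ω)
    {c : Zr p Ω} (hc : c ∈ q) (hcd : (c : Ω) = d) : d = 0 := by
  by_contra h0
  have hinv : d⁻¹ ∈ kF p Ω := (kF p Ω).inv_mem (show d ∈ kF p Ω from hd)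
  have hinv' : d⁻¹ ∈ kk p Ω := hinv
  have h1 : (⟨d⁻¹, kk_Zr hinv'⟩ : Zr p Ω) * c = 1 := Subtype.ext (by
    change d⁻¹ * (c : Ω) = 1
    rw [hcd, inv_mul_cancel₀ h0])
  have h2 : (1 : Zr p Ω) ∈ q := h1 ▸ q.mul_mem_left _ hc
  exact hq.ne_top ((Ideal.eq_top_iff_one q).2 h2)

omit [IsSepClosed Ω] [Algebra.IsSeparable (RatFunc (ZMod p)) Ω] in
/-- Inert elements are geometric. -/
theorem ek_geo {g : GG p Ω} (hg : Inert g) : Geo g := by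
  obtain ⟨q, hq, hg⟩ := hg
  intro a ha
  obtain ⟨c, hc, h1⟩ := hg ⟨a, kk_Zr ha⟩
  have hd : g a - a ∈ kk p Ω := (kF p Ω).sub_mem (show g a ∈ kF p Ω from gal_kk g ha)
    (show a ∈ kF p Ω from ha)
  exact sub_eq_zero.1 (ek_const p Ω hq hd hc h1)

omit [IsSepClosed Ω] [Algebra.IsSeparable (RatFunc (ZMod p)) Ω] in
theorem ek_int {n : ℕ} (hn : 0 < n) {x : Ω} (hx : x ^ n ∈ Zr p Ω) : x ∈ Zr p Ω := by
  let _ := (inc p Ω).toAlgebra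
  have h1 : IsIntegral (ZMod p)[X] (x ^ n) := hx
  have h2 : IsIntegral (ZMod p)[X] x := IsIntegral.of_pow hn h1
  exact h2

theorem EK2 {H : Type} [Group H] {ρ : GG p Ω →* H} {Hb : Type} [Group Hb] {ρb : GG p Ω →* Hb}
    {ℓ e r : ℕ} {b ζ F : Ω} {Ψ : Ω ≃+* Ω} {hΨ : PsiOK p Ψ} (hl : ℓ.Prime) (hρb : Ad p Ω ρb)
    (hG : GO ρ ρb ℓ e r b ζ F Ψ hΨ) (φ : Ω) (hφ : φ ^ ℓ ^ e = F) :
    ∃ θ : GG p Ω → ZMod (ℓ ^ e), (∀ g ∈ N0 ρb r hΨ, g φ = ζ ^ (θ g).val * φ) ∧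
      (∀ g ∈ N0 ρb r hΨ, ∀ g' ∈ N0 ρb r hΨ, θ (g * g') = θ g + θ g') ∧
      ∀ g : GG p Ω, Inert g → g ∈ N0 ρb r hΨ ∧ θ g = 0 := by
  classical
  have hn : 0 < ℓ ^ e := pow_pos hl.pos e
  have : NeZero (ℓ ^ e) := ⟨hn.ne'⟩
  generalize hN : ℓ ^ e = n at *
  have hφ0 : φ ≠ 0 := by
    rintro rfl
    rw [zero_pow hn.ne'] at hφ
    exact hG.F_ne hφ.symm
  have hz : IsPrimitiveRoot ζ n := hN ▸ hG.z_prim
  have hzkk : ζ ∈ kF p Ω := mem_kk hG.r_pos hG.z_mem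
  have hz0 : ζ ≠ 0 := by
    rintro rfl
    have h := hz.pow_eq_one
    rw [zero_pow hn.ne'] at h
    exact zero_ne_one h
  have hex : ∀ g ∈ N0 ρb r hΨ, ∃ i : ZMod n, g φ = ζ ^ i.val * φ := by
    intro g hg
    have h1 : (g φ / φ) ^ n = 1 := by
      rw [div_pow, ← map_pow, hφ, hG.F_fix g hg, div_self hG.F_ne]
    obtain ⟨i, hi, h2⟩ := hz.eq_pow_of_pow_eq_one h1
    refine ⟨(i : ZMod n), ?_⟩
    rw [ZMod.val_natCast_of_lt hi, h2, div_mul_cancel₀ _ hφ0]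
  let θ : GG p Ω → ZMod n := fun g => if h : g ∈ N0 ρb r hΨ then (hex g h).choose else 0
  have hθ : ∀ g ∈ N0 ρb r hΨ, g φ = ζ ^ (θ g).val * φ := by
    intro g hg
    have h1 : θ g = (hex g hg).choose := dif_pos hg
    rw [h1]
    exact (hex g hg).choose_spec
  refine ⟨θ, hθ, ?_, ?_⟩
  · intro g hg g' hg'
    have h1 := hθ _ ((N0 ρb r hΨ).mul_mem hg hg')
    have h2 : (g * g') φ = ζ ^ ((θ g).val + (θ g').val) * φ := by
      change g (g' φ) = _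
      rw [hθ g' hg', map_mul, map_pow, hg.1 ζ hG.z_mem, hθ g hg, pow_add]
      ring
    rw [h2] at h1
    have h3 : ζ ^ ((θ g).val + (θ g').val) = ζ ^ (θ (g * g')).val := mul_right_cancel₀ hφ0 h1
    have h4 : ζ ^ ((θ g).val + (θ g').val) = ζ ^ (((θ g).val + (θ g').val) % n) := by
      conv_lhs => rw [← Nat.div_add_mod ((θ g).val + (θ g').val) n, pow_add, pow_mul,
        hz.pow_eq_one, one_pow, one_mul]
    rw [h4] at h3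
    have h5 := hz.pow_inj (Nat.mod_lt _ hn) (ZMod.val_lt _) h3
    apply ZMod.val_injective n
    rw [ZMod.val_add, h5]
  · intro g hgi
    have hgeo := ek_geo p Ω hgi
    have hρ1 : ρb (cj hΨ g) = 1 := hρb.inert _ (hgi.cj hΨ)
    have hN0 : g ∈ N0 ρb r hΨ := ⟨fun x hx => hgeo x (mem_kk hG.r_pos hx), hρ1⟩
    refine ⟨hN0, ?_⟩
    obtain ⟨q, hq, hgq⟩ := hgi
    obtain ⟨a, u, hau, huq, hfix⟩ := hG.cert q hq
    rw [hN] at hau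
    have hga : g a = a := hfix g hgeo hρ1
    have hψn : ((a : Ω) / φ) ^ n = u := by
      rw [div_pow, hau, hφ, mul_div_cancel_left₀ _ hG.F_ne]
    have hψZ : (a : Ω) / φ ∈ Zr p Ω := ek_int p Ω hn (by rw [hψn]; exact u.2)
    obtain ⟨c, hc, h1⟩ := hgq ⟨(a : Ω) / φ, hψZ⟩
    have h2 : g ((a : Ω) / φ) = (ζ ^ (θ g).val)⁻¹ * ((a : Ω) / φ) := by
      rw [map_div₀, hga, hθ g hN0]
      have : ζ ^ (θ g).val ≠ 0 := pow_ne_zero _ hz0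
      field_simp
    have hk : (ζ ^ (θ g).val)⁻¹ - 1 ∈ kF p Ω :=
      (kF p Ω).sub_mem ((kF p Ω).inv_mem ((kF p Ω).pow_mem hzkk _)) (kF p Ω).one_mem
    have hk' : (ζ ^ (θ g).val)⁻¹ - 1 ∈ kk p Ω := hk
    have h3 : (⟨(ζ ^ (θ g).val)⁻¹ - 1, kk_Zr hk'⟩ : Zr p Ω) * ⟨(a : Ω) / φ, hψZ⟩ ∈ q := by
      have : (⟨(ζ ^ (θ g).val)⁻¹ - 1, kk_Zr hk'⟩ : Zr p Ω) * ⟨(a : Ω) / φ, hψZ⟩ = c :=
        Subtype.ext (by
          change ((ζ ^ (θ g).val)⁻¹ - 1) * ((a : Ω) / φ) = (c : Ω)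
          rw [h1]
          change _ = g ((a : Ω) / φ) - (a : Ω) / φ
          rw [h2]; ring)
      rw [this]; exact hc
    have h4 : (⟨(a : Ω) / φ, hψZ⟩ : Zr p Ω) ∉ q := by
      intro h
      apply huq
      have : (⟨(a : Ω) / φ, hψZ⟩ : Zr p Ω) ^ n = u := Subtype.ext hψn
      rw [← this]
      exact Ideal.pow_mem_of_mem q h n hn
    have h5 := (hq.mem_or_mem h3).resolve_right h4
    have h6 := ek_const p Ω hq hk' h5 rfl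
    have h7 : ζ ^ (θ g).val = 1 := by
      rw [sub_eq_zero, inv_eq_one] at h6
      exact h6
    have h8 : ζ ^ (θ g).val = ζ ^ 0 := by rw [h7, pow_zero]
    have h9 := hz.pow_inj (ZMod.val_lt _) hn h8
    exact (ZMod.val_eq_zero _).1 h9

end Pool.Agent.QPC
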