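import Mathlib
import Pool.Agent.QPC.Defs
import Pool.Agent.QPC.Defs3

/-!
# QPC row N0: `N0` has finite index, and contains the stabiliser of a finite set
`N0 ρb r hΨ = {g | g fixes all x with x^(p^r) = x, and ρb (cj hΨ g) = 1}` (QPC.Defs3).
Plan. `N0b`: the finite set: the roots of `X^(p^r) - X` in `Ω` (finite, `r > 0`) and `T.image Ψ` for the `T` of `hρ.fin` (`cj hΨ g = Ψ⁻¹ g Ψ`, `Ad.cj`). `N0a`: `N0` is the kernel of the hom from `GG` to (permutations of the finite set of roots) × `Hb`, a finite group.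
-/

set_option autoImplicit false

namespace Pool.Agent.QPC

open Polynomial

variable {p : ℕ} [Fact p.Prime] {Ω : Type} [Field Ω] [Algebra (RatFunc (ZMod p)) Ω]
  {H : Type} [Group H] {ρ : GG p Ω →* H} {Hb : Type} [Group Hb] {ρb : GG p Ω →* Hb}
  {ℓ e r : ℕ} {b ζ F : Ω} {Ψ : Ω ≃+* Ω} {hΨ : PsiOK p Ψ}

theorem n0_fin (Ω : Type) [Field Ω] {p r : ℕ} [Fact p.Prime] (hr : 0 < r) :
    {x : Ω | x ^ p ^ r = x}.Finite := by
  classical
  have h1 : 1 < p ^ r := Nat.one_lt_pow hr.ne' (Fact.out : p.Prime).one_lt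
  have h2 : (X ^ p ^ r - X : Polynomial Ω) ≠ 0 :=
    (monic_X_pow_sub (by rw [degree_X]; exact_mod_cast h1)).ne_zero
  refine (Finset.finite_toSet (X ^ p ^ r - X : Polynomial Ω).roots.toFinset).subset fun x hx => ?_
  have hx' : x ^ p ^ r = x := hx
  simp only [Finset.mem_coe, Multiset.mem_toFinset]
  rw [mem_roots h2]
  simp [IsRoot, hx']

/-- The roots of `X^(p^r) - X` with the action of the Galois group. -/
def n0_S (p : ℕ) [Fact p.Prime] (Ω : Type) [Field Ω] [Algebra (RatFunc (ZMod p)) Ω] (r : ℕ) :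
    SubMulAction (GG p Ω) Ω where
  carrier := {x | x ^ p ^ r = x}
  smul_mem' := fun g x hx => by
    have hx' : x ^ p ^ r = x := hx
    change (g • x) ^ p ^ r = g • x
    rw [AlgEquiv.smul_def, ← map_pow, hx']

theorem N0a [Finite Hb] (ρb : GG p Ω →* Hb) (hr : 0 < r) (hΨ : PsiOK p Ψ) :
    (N0 ρb r hΨ).FiniteIndex := by
  have : Finite (n0_S p Ω r) := (n0_fin (p := p) Ω hr).to_subtype
  have h1 : N0 ρb r hΨ =
      (MonoidHom.prod (MulAction.toPermHom (GG p Ω) (n0_S p Ω r)) (ρb.comp (cj hΨ))).ker := by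
    ext g
    rw [MonoidHom.mem_ker, MonoidHom.prod_apply, Prod.mk_eq_one]
    constructor
    · rintro ⟨h1, h2⟩
      refine ⟨?_, h2⟩
      refine Equiv.ext fun x => Subtype.ext ?_
      exact h1 x x.2
    · rintro ⟨h1, h2⟩
      refine ⟨fun x hx => ?_, h2⟩
      have h3 := congrArg (fun f : Equiv.Perm (n0_S p Ω r) => ((f ⟨x, hx⟩ : n0_S p Ω r) : Ω)) h1
      exact h3
  rw [h1]
  infer_instance

theorem N0b (ρb : GG p Ω →* Hb) (hρ : Ad p Ω ρb) (hr : 0 < r) (hΨ : PsiOK p Ψ) :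
    ∃ T : Finset Ω, ∀ g : GG p Ω, (∀ t ∈ T, g t = t) → g ∈ N0 ρb r hΨ := by
  classical
  obtain ⟨T, hT⟩ := (hρ.cj hΨ).fin
  refine ⟨T ∪ (n0_fin (p := p) Ω hr).toFinset, fun g hg => ⟨fun x hx => ?_, ?_⟩⟩
  · exact hg x (Finset.mem_union_right _ ((n0_fin (p := p) Ω hr).mem_toFinset.mpr hx))
  · exact hT g fun t ht => hg t (Finset.mem_union_left _ ht)

end Pool.Agent.QPC
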