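import Mathlib
import Pool.Agent.QPC.Defs
import Pool.Agent.QPC.Defs3
import Pool.Agent.QPC.E0
import Pool.Agent.QPC.ES
import Pool.Agent.QPC.E1a
import Pool.Agent.QPC.EK
import Pool.Agent.QPC.N0
import Pool.Agent.QPC.E1e

/-!
# QPC row E1f: the homomorphism h is onto M on K'
Plan. `θ` from the hypotheses. Let `h := hs (N0 ρb r hΨ) m0 θ`. `M0 := {h g | g ∈ K'}` (`K'`: geometric with `ρ (cj g) = 1`; `K' ≤ N0` by `hle`) is an `AddSubgroup` (`E0a`), stable under `Hb`: `a = ρb (cj c)` (`hs'`, `ES3`), `a • h g = h (c g c⁻¹)` (`E0b`), `c g c⁻¹ ∈ K'`. If `M0 ≠ ⊤`: `E1a` with `Γ := Gb p Ω ρb` (normal: `ES4`) gives `lam, γ`; `E1e` is a contradiction.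
-/

set_option autoImplicit false

namespace Pool.Agent.QPC

open Polynomial

variable (p : ℕ) [Fact p.Prime] (Ω : Type) [Field Ω] [Algebra (RatFunc (ZMod p)) Ω]
  [IsSepClosed Ω] [Algebra.IsSeparable (RatFunc (ZMod p)) Ω]

theorem E1f {H : Type} [Group H] {ρ : GG p Ω →* H} {Hb : Type} [Group Hb] [Finite Hb]
    {ρb : GG p Ω →* Hb}
    {ℓ e r : ℕ} {b ζ F : Ω} {Ψ : Ω ≃+* Ω} {hΨ : PsiOK p Ψ}
    {M : Type} [AddCommGroup M] [Finite M] [DistribMulAction (GG p Ω) M] [DistribMulAction Hb M]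
    (hact : ∀ (g : GG p Ω) (x : M), g • x = ρb (cj hΨ g) • x)
    (hs' : Function.Surjective ρb)
    (hl : ℓ.Prime) (hlp : ℓ ≠ p) (he : 1 ≤ e)
    (hG : GO ρ ρb ℓ e r b ζ F Ψ hΨ) (hle : ∀ g : GG p Ω, ρ g = 1 → ρb g = 1)
    (hM : ∀ x : M, ℓ ^ e • x = 0) [Fintype (GG p Ω ⧸ N0 ρb r hΨ)] (m0 : M)
    (hcard : ¬ ℓ ∣ Nat.card (Gb p Ω ρb))
    (hfix : ∀ x : M, (∀ γ ∈ Gb p Ω ρb, γ • x = x) → x = 0)
    (hgen : AddSubgroup.closure (Set.range fun a : Hb => a • m0) = ⊤)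
    (φ : Ω) (hφ : φ ^ ℓ ^ e = F) (θ : GG p Ω → ZMod (ℓ ^ e))
    (hθ : ∀ g ∈ N0 ρb r hΨ, g φ = ζ ^ (θ g).val * φ)
    (hθa : ∀ g ∈ N0 ρb r hΨ, ∀ g' ∈ N0 ρb r hΨ, θ (g * g') = θ g + θ g') (x : M) :
    ∃ g : GG p Ω, Geo g ∧ ρ (cj hΨ g) = 1 ∧ hs (N0 ρb r hΨ) m0 θ g = x := by
  have hpos : 0 < ℓ ^ e := pow_pos hl.pos e
  have hKN : ∀ g : GG p Ω, Geo g → ρ (cj hΨ g) = 1 → g ∈ N0 ρb r hΨ := fun g h1 h2 =>
    ⟨fun x hx => h1 x (mem_kk hG.r_pos hx), hle _ h2⟩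
  have hadd := E0a (N0 ρb r hΨ) hpos hM m0 θ hθa
  have htr : ∀ g ∈ N0 ρb r hΨ, ∀ x : M, g • x = x := fun g hg x => by
    rw [hact, hg.2, one_smul]
  have hconj := E0b (N0 ρb r hΨ) hpos hM htr m0 θ hθa
  have h1N : (1 : GG p Ω) ∈ N0 ρb r hΨ := one_mem _
  have h1 : hs (N0 ρb r hΨ) m0 θ 1 = 0 := by
    have h2 := hadd 1 h1N 1 h1N
    rw [mul_one] at h2
    exact left_eq_add.1 h2
  have hgeo1 : Geo (1 : GG p Ω) := fun _ _ => rfl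
  let M0 : AddSubgroup M :=
    { carrier := {y | ∃ g : GG p Ω, Geo g ∧ ρ (cj hΨ g) = 1 ∧ hs (N0 ρb r hΨ) m0 θ g = y}
      add_mem' := by
        rintro y y' ⟨g, h2, h3, rfl⟩ ⟨g', h4, h5, rfl⟩
        refine ⟨g * g', h2.mul h4, by rw [map_mul, map_mul, h3, h5, one_mul], ?_⟩
        exact hadd g (hKN g h2 h3) g' (hKN g' h4 h5)
      zero_mem' := ⟨1, hgeo1, by rw [map_one, map_one], h1⟩
      neg_mem' := by
        rintro y ⟨g, h2, h3, rfl⟩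
        have h4 : ρ (cj hΨ g⁻¹) = 1 := by rw [map_inv, map_inv, h3, inv_one]
        refine ⟨g⁻¹, h2.inv, h4, ?_⟩
        have h5 := hadd g⁻¹ (hKN _ h2.inv h4) g (hKN g h2 h3)
        rw [inv_mul_cancel, h1] at h5
        exact eq_neg_of_add_eq_zero_left h5.symm }
  have hst : ∀ a : Hb, ∀ y ∈ M0, a • y ∈ M0 := by
    rintro a y ⟨g, h2, h3, rfl⟩
    obtain ⟨g0, hg0⟩ := hs' a
    obtain ⟨c, hc, _⟩ := ES3 hle hG g0
    refine ⟨c * g * c⁻¹, ?_, ?_, ?_⟩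
    · have h4 := h2.conj c⁻¹
      rwa [inv_inv] at h4
    · rw [map_mul, map_mul, map_mul, map_mul, h3, mul_one, map_inv, map_inv, mul_inv_cancel]
    · rw [hconj c g (hKN g h2 h3), hact, hc, hg0]
  by_cases hne : M0 = ⊤
  · have hx : x ∈ M0 := by rw [hne]; exact AddSubgroup.mem_top x
    exact hx
  · exfalso
    have hnorm : (Gb p Ω ρb).Normal := ES4 hs'
    obtain ⟨lam, hlam, hγ⟩ := E1a hl hM (Gb p Ω ρb) hcard hfix m0 hgen M0 hst hne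
    exact E1e p Ω hact hl hlp he hG hle hM m0 φ hφ θ hθ lam
      (fun g h2 h3 => hlam _ ⟨g, h2, h3, rfl⟩) hγ

end Pool.Agent.QPC
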