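import Mathlib
import Pool.Agent.QPC.Defs
import Pool.Agent.QPC.Defs3

/-!
# QPC row E2: extension of a cocycle (pure group theory)
Plan. `k := index`. `M` is uniquely divisible by `k` (`hcop`): let `k⁻¹` be multiplication by an inverse of `k` modulo `Nat.card M`. Let `s : D → D` be a section of `D → D/N` (`s(d) N = d N`, `s` depends only on the coset), `T := D/N` finite.
Step 1. `cD(d) := k⁻¹ ∑_{t ∈ D/N} s(d t) • h(s(d t)⁻¹ * d * s(t))`. It is a cocycle: in `cD(d) + d cD(d')` re-index the first sum by `t ↦ d' t`; `s(dd't)•h(s(dd't)⁻¹ d s(d't)) + d s(d't) • h(s(d't)⁻¹ d' s(t)) = s(dd't) • (h(n1) + n1 • h(n2)) = s(dd't) • h(n1 n2)`, `n1 = s(dd't)⁻¹ d s(d't) ∈ N`, `n2 = s(d't)⁻¹ d' s(t) ∈ N` (`N` acts trivially).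
For `d ∈ N`: `s(dt) = s(t)` and every term is `s(t) • h(s(t)⁻¹ d s(t)) = h(d)`. So `cD` extends `h`.
Step 2. For `g : G`: `d ↦ g⁻¹ • cD(g d g⁻¹) - cD(d)` is a cocycle `D → M` which vanishes on `N`; so it depends only on `dN` (cocycle relation) and, by averaging over `D/N` (`k` invertible), it is `d ↦ m_g - d • m_g` for some `m_g ∈ M`, unique by `hfix`.
Step 3. `c(g) := g • m_g`. For `g ∈ D`: `m_g = g⁻¹ • cD(g)` [`g⁻¹ cD(g d g⁻¹) = g⁻¹ cD(g) + cD(d) - d g⁻¹ cD(g)`], so `c = cD` on `D`, `c = h` on `N`. Cocycle: `m_{gg'} = m_{g'} + g'⁻¹ m_g`: `g'⁻¹ (g⁻¹ cD(g (g' d g'⁻¹) g⁻¹)) = g'⁻¹ (cD(g' d g'⁻¹) + m_g - (g' d g'⁻¹) m_g) = cD(d) + m_{g'} - d m_{g'} + g'⁻¹ m_g - d g'⁻¹ m_g`.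
-/

set_option autoImplicit false

namespace Pool.Agent.QPC

open Polynomial

/-- extension of an equivariant homomorphism on a normal subgroup of invertible index -/
theorem e2_ext {D M : Type} [Group D] [AddCommGroup M] [DistribMulAction D M]
    (H : Subgroup D) [hHn : H.Normal] [Fintype (D ⧸ H)] (e : ℕ)
    (he : ∀ x : M, e • (Fintype.card (D ⧸ H) • x) = x)
    (htr : ∀ g ∈ H, ∀ x : M, g • x = x) (h : D → M)
    (hadd : ∀ g ∈ H, ∀ g' ∈ H, h (g * g') = h g + h g')
    (heq : ∀ c : D, ∀ g ∈ H, h (c * g * c⁻¹) = c • h g) :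
    ∃ c : D → M, (∀ g g', c (g * g') = c g + g • c g') ∧ ∀ g ∈ H, c g = h g := by
  classical
  let s : D ⧸ H → D := Quotient.out
  have hs : ∀ t : D ⧸ H, ((s t : D) : D ⧸ H) = t := fun t => QuotientGroup.out_eq' t
  have hmem : ∀ (d : D) (t : D ⧸ H), (s (d • t))⁻¹ * d * s t ∈ H := by
    intro d t
    have h1 : ((s (d • t) : D) : D ⧸ H) = ((d * s t : D) : D ⧸ H) := by
      rw [hs]
      conv_lhs => rw [← hs t]
      rfl
    have h2 := QuotientGroup.eq.1 h1
    rw [mul_assoc]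
    exact h2
  refine ⟨fun d => e • ∑ t : D ⧸ H, s (d • t) • h ((s (d • t))⁻¹ * d * s t), ?_, ?_⟩
  · intro d d'
    have hterm : ∀ t : D ⧸ H, s ((d * d') • t) • h ((s ((d * d') • t))⁻¹ * (d * d') * s t) =
        s (d • (d' • t)) • h ((s (d • (d' • t)))⁻¹ * d * s (d' • t)) +
        d • (s (d' • t) • h ((s (d' • t))⁻¹ * d' * s t)) := by
      intro t
      rw [mul_smul d d' t]
      have e1 : (s (d • d' • t))⁻¹ * (d * d') * s t =
          ((s (d • d' • t))⁻¹ * d * s (d' • t)) * ((s (d' • t))⁻¹ * d' * s t) := by group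
      rw [e1, hadd _ (hmem d (d' • t)) _ (hmem d' t), smul_add]
      congr 1
      have e2 : d * s (d' • t) = s (d • d' • t) * ((s (d • d' • t))⁻¹ * d * s (d' • t)) := by group
      have e3 : d • (s (d' • t) • h ((s (d' • t))⁻¹ * d' * s t)) =
          (d * s (d' • t)) • h ((s (d' • t))⁻¹ * d' * s t) := (mul_smul _ _ _).symm
      rw [e3, e2, mul_smul, htr _ (hmem d (d' • t))]
    show e • ∑ t : D ⧸ H, _ = e • ∑ t : D ⧸ H, _ + d • (e • ∑ t : D ⧸ H, _)
    rw [Finset.sum_congr rfl (fun t _ => hterm t), Finset.sum_add_distrib, smul_add]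
    congr 1
    · congr 1
      exact Equiv.sum_comp (MulAction.toPerm d' : (D ⧸ H) ≃ (D ⧸ H))
        (fun t => s (d • t) • h ((s (d • t))⁻¹ * d * s t))
    · rw [smul_comm d e]
      congr 1
      exact (Finset.smul_sum).symm
  · intro d hd
    have hterm : ∀ t : D ⧸ H, s (d • t) • h ((s (d • t))⁻¹ * d * s t) = h d := by
      intro t
      have e0 : d • t = t := by
        conv_lhs => rw [← hs t]
        conv_rhs => rw [← hs t]
        show ((d * s t : D) : D ⧸ H) = ((s t : D) : D ⧸ H)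
        rw [eq_comm, QuotientGroup.eq]
        have := hHn.conj_mem d hd (s t)⁻¹
        rw [inv_inv] at this
        rw [← mul_assoc]
        exact this
      rw [e0]
      have := heq (s t)⁻¹ d hd
      rw [inv_inv] at this
      rw [this, smul_inv_smul]
    show e • ∑ t : D ⧸ H, _ = h d
    rw [Finset.sum_congr rfl (fun t _ => hterm t), Finset.sum_const, Finset.card_univ]
    exact he (h d)

/-- a cocycle vanishing on the subgroup is a coboundary -/
theorem e2_cob {D M : Type} [Group D] [AddCommGroup M] [DistribMulAction D M]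
    (H : Subgroup D) [Fintype (D ⧸ H)] (e : ℕ)
    (he : ∀ x : M, e • (Fintype.card (D ⧸ H) • x) = x) (b : D → M)
    (hb : ∀ g g', b (g * g') = b g + g • b g') (hb0 : ∀ g ∈ H, b g = 0) :
    ∃ m : M, ∀ d, b d = m - d • m := by
  classical
  let s : D ⧸ H → D := Quotient.out
  have hs : ∀ t : D ⧸ H, ((s t : D) : D ⧸ H) = t := fun t => QuotientGroup.out_eq' t
  have hterm : ∀ (d : D) (t : D ⧸ H), b (s (d • t)) = b d + d • b (s t) := by
    intro d t
    rw [← hb]
    have h1 : ((s (d • t) : D) : D ⧸ H) = ((d * s t : D) : D ⧸ H) := by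
      rw [hs]
      conv_lhs => rw [← hs t]
      rfl
    have h2 := QuotientGroup.eq.1 h1
    have e1 : d * s t = s (d • t) * ((s (d • t))⁻¹ * (d * s t)) := by group
    rw [e1, hb, hb0 _ h2, smul_zero, add_zero]
  refine ⟨e • ∑ t : D ⧸ H, b (s t), fun d => ?_⟩
  have h4 : ∑ t : D ⧸ H, b (s (d • t)) = ∑ t : D ⧸ H, b (s t) :=
    Equiv.sum_comp (MulAction.toPerm d : (D ⧸ H) ≃ (D ⧸ H)) (fun t => b (s t))
  have h5 : ∑ t : D ⧸ H, b (s (d • t)) =
      Fintype.card (D ⧸ H) • b d + d • ∑ t : D ⧸ H, b (s t) := by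
    rw [Finset.sum_congr rfl (fun t _ => hterm d t), Finset.sum_add_distrib,
      Finset.sum_const, Finset.card_univ]
    congr 1
    exact (Finset.smul_sum).symm
  have h3 : ∑ t : D ⧸ H, b (s t) = Fintype.card (D ⧸ H) • b d + d • ∑ t : D ⧸ H, b (s t) :=
    h4.symm.trans h5
  generalize hS : ∑ t : D ⧸ H, b (s t) = S at h3 ⊢
  have h6 : b d + d • (e • S) = e • S := by
    conv_rhs => rw [h3]
    rw [smul_add, he, smul_comm d e]
  exact eq_sub_of_add_eq h6

theorem E2 {G M : Type} [Group G] [AddCommGroup M] [Finite M] [DistribMulAction G M]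
    (N D : Subgroup G) [N.Normal] [D.Normal] (hND : N ≤ D) (htr : ∀ g ∈ N, ∀ x : M, g • x = x)
    (hk0 : (N.subgroupOf D).index ≠ 0) (hcop : (N.subgroupOf D).index.Coprime (Nat.card M))
    (hfix : ∀ x : M, (∀ d ∈ D, d • x = x) → x = 0) (h : G → M)
    (hadd : ∀ g ∈ N, ∀ g' ∈ N, h (g * g') = h g + h g')
    (heq : ∀ c : G, ∀ g ∈ N, h (c * g * c⁻¹) = c • h g) :
    ∃ c : G → M, (∀ g g', c (g * g') = c g + g • c g') ∧ ∀ g ∈ N, c g = h g := by
  classical
  have hHn : (N.subgroupOf D).Normal := Subgroup.Normal.subgroupOf inferInstance D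
  have hfi : Finite (D ⧸ N.subgroupOf D) := by
    refine Nat.finite_of_card_ne_zero ?_
    exact hk0
  have : Fintype (D ⧸ N.subgroupOf D) := Fintype.ofFinite _
  have hcard : Fintype.card (D ⧸ N.subgroupOf D) = (N.subgroupOf D).index := by
    rw [← Nat.card_eq_fintype_card]
    rfl
  -- inverse of k
  obtain ⟨e, he⟩ : ∃ e : ℕ, ∀ x : M, e • (Fintype.card (D ⧸ N.subgroupOf D) • x) = x := by
    have hpos : 0 < Nat.card M := Nat.card_pos
    have hphi : 0 < Nat.totient (Nat.card M) := Nat.totient_pos.2 hpos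
    refine ⟨(N.subgroupOf D).index ^ (Nat.totient (Nat.card M) - 1), fun x => ?_⟩
    rw [hcard, ← mul_smul, ← pow_succ, Nat.sub_add_cancel hphi]
    have h1 := Nat.ModEq.pow_totient hcop
    rw [← mod_natCard_nsmul, h1, mod_natCard_nsmul, one_smul]
  obtain ⟨cD, hcD, hcD0⟩ := e2_ext (D := D) (M := M) (N.subgroupOf D) e he
    (fun g hg x => htr g (Subgroup.mem_subgroupOf.1 hg) x) (fun d => h d)
    (fun g hg g' hg' => hadd g (Subgroup.mem_subgroupOf.1 hg) g' (Subgroup.mem_subgroupOf.1 hg'))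
    (fun c g hg => heq c g (Subgroup.mem_subgroupOf.1 hg))
  -- one and inverses
  have hone : cD 1 = 0 := by
    have := hcD 1 1
    rw [mul_one, one_smul] at this
    have h2 : cD 1 + 0 = cD 1 + cD 1 := by
      rw [add_zero]
      exact this
    exact (add_left_cancel h2).symm
  have hinv : ∀ d, cD d⁻¹ = - (d⁻¹ • cD d) := by
    intro d
    have := hcD d⁻¹ d
    rw [inv_mul_cancel, hone] at this
    exact (neg_eq_of_add_eq_zero_left this.symm).symm
  let cj : G → D → D := fun g d => ⟨g * d * g⁻¹, (inferInstance : D.Normal).conj_mem d d.2 g⟩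
  have hcj : ∀ g (d d' : D), cj g (d * d') = cj g d * cj g d' := by
    intro g d d'
    apply Subtype.ext
    show g * (d * d' : G) * g⁻¹ = (g * d * g⁻¹) * (g * d' * g⁻¹)
    group
  have hm : ∀ g : G, ∃ m : M, ∀ d : D, g⁻¹ • cD (cj g d) - cD d = m - (d : G) • m := by
    intro g
    have hc1 : ∀ d d' : D, (fun d => g⁻¹ • cD (cj g d) - cD d) (d * d') =
        (fun d => g⁻¹ • cD (cj g d) - cD d) d + d • (fun d => g⁻¹ • cD (cj g d) - cD d) d' := by
      intro d d'
      show g⁻¹ • cD (cj g (d * d')) - cD (d * d') = g⁻¹ • cD (cj g d) - cD d +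
        d • (g⁻¹ • cD (cj g d') - cD d')
      rw [hcj, hcD, hcD]
      have e1 : g⁻¹ • (cj g d • cD (cj g d')) = d • (g⁻¹ • cD (cj g d')) := by
        show g⁻¹ • ((g * (d : G) * g⁻¹) • cD (cj g d')) = (d : G) • (g⁻¹ • cD (cj g d'))
        rw [← mul_smul, ← mul_smul]
        congr 1
        group
      rw [smul_add, e1, smul_sub]
      abel
    have hc0 : ∀ n ∈ N.subgroupOf D, (fun d => g⁻¹ • cD (cj g d) - cD d) n = 0 := by
      intro n hn
      have hn' : (n : G) ∈ N := Subgroup.mem_subgroupOf.1 hn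
      have h1 : cj g n ∈ N.subgroupOf D := by
        rw [Subgroup.mem_subgroupOf]
        exact (inferInstance : N.Normal).conj_mem n hn' g
      show g⁻¹ • cD (cj g n) - cD n = 0
      rw [hcD0 _ h1, hcD0 _ hn]
      show g⁻¹ • h (g * n * g⁻¹) - h n = 0
      rw [heq g n hn', inv_smul_smul, sub_self]
    exact e2_cob (N.subgroupOf D) e he (fun d => g⁻¹ • cD (cj g d) - cD d) hc1 hc0
  choose m hm using hm
  have huniq : ∀ x y : M, (∀ d : D, x - (d : G) • x = y - (d : G) • y) → x = y := by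
    intro x y hxy
    rw [← sub_eq_zero]
    apply hfix
    intro d hd
    have := hxy ⟨d, hd⟩
    have h2 : x - d • x = y - d • y := this
    rw [smul_sub]
    have h3 : x - y = d • x - d • y := by
      have h4 : x - y - (d • x - d • y) = (x - d • x) - (y - d • y) := by abel
      rw [← sub_eq_zero, h4, h2, sub_self]
    exact h3.symm
  refine ⟨fun g => g • m g, ?_, ?_⟩
  · intro g g'
    have h1 : m (g * g') = m g' + g'⁻¹ • m g := by
      apply huniq
      intro d
      rw [← hm (g * g') d]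
      have e1 : cj (g * g') d = cj g (cj g' d) := by
        apply Subtype.ext
        show (g * g') * (d : G) * (g * g')⁻¹ = g * (g' * d * g'⁻¹) * g⁻¹
        group
      have e2 := hm g (cj g' d)
      have e3 := hm g' d
      have e4 : (g * g')⁻¹ • cD (cj (g * g') d) = g'⁻¹ • (g⁻¹ • cD (cj g (cj g' d))) := by
        rw [e1, ← mul_smul, mul_inv_rev]
      have e5 : g⁻¹ • cD (cj g (cj g' d)) = cD (cj g' d) + (m g - (cj g' d : G) • m g) := by
        rw [← e2]
        abel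
      have e6 : g'⁻¹ • ((cj g' d : G) • m g) = (d : G) • (g'⁻¹ • m g) := by
        show g'⁻¹ • ((g' * (d : G) * g'⁻¹) • m g) = (d : G) • (g'⁻¹ • m g)
        rw [← mul_smul, ← mul_smul]
        congr 1
        group
      have e7 : g'⁻¹ • cD (cj g' d) = cD d + (m g' - (d : G) • m g') := by
        rw [← e3]
        abel
      rw [e4, e5, smul_add, smul_sub, e6, e7, smul_add]
      abel
    show (g * g') • m (g * g') = g • m g + g • (g' • m g')
    rw [h1, smul_add, mul_smul, mul_smul, smul_inv_smul, add_comm]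
  · intro g hg
    have hgD : g ∈ D := hND hg
    have h1 : m g = g⁻¹ • cD ⟨g, hgD⟩ := by
      apply huniq
      intro d
      rw [← hm g d]
      have e1 : cj g d = ⟨g, hgD⟩ * d * (⟨g, hgD⟩ : D)⁻¹ := rfl
      rw [e1, hcD, hcD, hinv]
      show g⁻¹ • (cD ⟨g, hgD⟩ + g • cD d + (g * (d : G)) • (- (g⁻¹ • cD ⟨g, hgD⟩))) - cD d =
        g⁻¹ • cD ⟨g, hgD⟩ - (d : G) • (g⁻¹ • cD ⟨g, hgD⟩)
      rw [smul_add, smul_add, inv_smul_smul, mul_smul g, inv_smul_smul, smul_neg]
      abel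
    show g • m g = h g
    rw [h1, smul_inv_smul, hcD0 ⟨g, hgD⟩ (Subgroup.mem_subgroupOf.2 hg)]

end Pool.Agent.QPC
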