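import Mathlib
import Pool.Agent.QPC.Defs
import Pool.Agent.QPC.Defs3
import Pool.Agent.QPC.E0
import Pool.Agent.QPC.ES
import Pool.Agent.QPC.E1a
import Pool.Agent.QPC.E2
import Pool.Agent.QPC.EK
import Pool.Agent.QPC.N0
import Pool.Agent.QPC.E1f

/-!
# QPC row DM: the cocycle (assembly), given the geometric input `GO`
Plan. If `M` is trivial take `ρ' := ρ`, `c := 0`. Otherwise some geometric `g` has `ρb g ≠ 1`, `ρb := π ∘ ρ` (else `hfix` and `Rho.pel` give `M = 0`: the elements `a` of `p`-power order are `ρ g` with `g` geometric, so act trivially). Take `e ≥ 1` with `ℓ^e • x = 0` (replace `e` by `e + 1`). `hGO` gives `r, b, ζ, F, Ψ, hΨ, hG`. `ρ' := ρ.comp (cj hΨ)` (`ES2`).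
Let `GG` act on `M` through `ρb ∘ cj hΨ` (`DistribMulAction.compHom`). `EK1`, `EK2`: `φ, θ`. `h := hs (N0 ρb r hΨ) m0 θ` (`N0a`: finite index, `Fintype` of the quotient). `D := {g | ρb (cj g) ∈ Gb p Ω ρb ...}`: take `D := N0 ⊔ Geo-subgroup` or `D := {g | g fixes all x with x^(p^r) = x}` (a normal subgroup); for `g ∈ D`: `ρb (cj g) ∈ Gb` (`hG.geo`), and `D/N0` embeds in `Gb`
by `g ↦ ρb (cj g)`, so its index divides `Nat.card Hb`, prime to `ℓ`, so coprime to `Nat.card M` (a power of `ℓ`). `hfix` for `D`: an element fixed by `D` is fixed by all `ρb (cj g)`, `g` geometric, so by all `ρb g`, `g` geometric (`ES3`), so by the elements of `p`-power order of `H` (`Rho.pel`). `E2` gives `c`, extending `h`. `fin`: `T` such that `g` fixing `T` is in `N0` and fixes all `q.out φ` (`N0b`):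
then `(q.out⁻¹ g q.out) φ = φ` so `θ (q.out⁻¹ g q.out) = 0` and `h g = 0`. `Inert g`: `g ∈ N0` and `θ (c⁻¹ g c) = 0` since `c⁻¹ g c` is inert (`E0c`). Surjectivity: `E1f` (the fixed-point condition for `Gb` as above).
-/

set_option autoImplicit false

namespace Pool.Agent.QPC

open Polynomial

variable (p : ℕ) [Fact p.Prime] (Ω : Type) [Field Ω] [Algebra (RatFunc (ZMod p)) Ω]
  [IsSepClosed Ω] [Algebra.IsSeparable (RatFunc (ZMod p)) Ω]

variable {p Ω} in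
omit [IsSepClosed Ω] [Algebra.IsSeparable (RatFunc (ZMod p)) Ω] in
theorem dm_inert_conj {g : GG p Ω} (hg : Inert g) (c : GG p Ω) : Inert (c⁻¹ * g * c) := by
  obtain ⟨q, hq, hg⟩ := hg
  let f : Zr p Ω →+* Zr p Ω :=
    { toFun := fun a => ⟨c a, gal_Zr c a.2⟩
      map_one' := Subtype.ext (map_one c)
      map_mul' := fun a b => Subtype.ext (map_mul c _ _)
      map_zero' := Subtype.ext (map_zero c)
      map_add' := fun a b => Subtype.ext (map_add c _ _) }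
  have hcc : ∀ x : Ω, c (c⁻¹ x) = x := by
    intro x
    change (c * c⁻¹) x = x
    rw [mul_inv_cancel]; rfl
  have hcc' : ∀ x : Ω, c⁻¹ (c x) = x := by
    intro x
    change (c⁻¹ * c) x = x
    rw [inv_mul_cancel]; rfl
  refine ⟨q.comap f, Ideal.comap_isPrime f q, fun b => ?_⟩
  obtain ⟨d, hd, h1⟩ := hg (f b)
  refine ⟨⟨c⁻¹ d, gal_Zr c⁻¹ d.2⟩, ?_, ?_⟩
  · rw [Ideal.mem_comap]
    have : f ⟨c⁻¹ d, gal_Zr c⁻¹ d.2⟩ = d := Subtype.ext (hcc _)
    rw [this]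
    exact hd
  · change c⁻¹ (d : Ω) = c⁻¹ (g (c b)) - b
    rw [h1, map_sub]
    congr 1
    exact hcc' _

/-- The subgroup of the elements which fix the constants of degree `p^r`. -/
def dm_D (r : ℕ) : Subgroup (GG p Ω) where
  carrier := {g | ∀ x : Ω, x ^ p ^ r = x → g x = x}
  mul_mem' := by
    rintro g g' h1 h3 x hx
    rw [AlgEquiv.mul_apply, h3 x hx, h1 x hx]
  one_mem' := fun _ _ => rfl
  inv_mem' := by
    rintro g h1 x hx
    have h3 : g⁻¹ (g x) = x := by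
      change (g⁻¹ * g) x = x
      rw [inv_mul_cancel]; rfl
    rw [h1 x hx] at h3
    exact h3

omit [IsSepClosed Ω] [Algebra.IsSeparable (RatFunc (ZMod p)) Ω] in
theorem dm_D_normal (r : ℕ) : (dm_D p Ω r).Normal where
  conj_mem := by
    rintro g h1 c x hx
    have h4 : (c⁻¹ x) ^ p ^ r = c⁻¹ x := by rw [← map_pow, hx]
    have h5 : (c * g * c⁻¹) x = c (g (c⁻¹ x)) := rfl
    rw [h5, h1 _ h4]
    change (c * c⁻¹) x = x
    rw [mul_inv_cancel]; rfl

theorem DM {H Hb M : Type} [Group H] [Finite H] [Group Hb] [Finite Hb] [AddCommGroup M] [Finite M]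
    [DistribMulAction Hb M] (π : H →* Hb) (hπ : Function.Surjective π) {ℓ : ℕ} (hl : ℓ.Prime)
    (hlp : ℓ ≠ p) (hM : ∃ e : ℕ, ∀ x : M, ℓ ^ e • x = 0) (hHb : ¬ ℓ ∣ Nat.card Hb)
    (hfix : ∀ x : M, (∀ a : H, (∃ r : ℕ, a ^ p ^ r = 1) → π a • x = x) → x = 0) (m0 : M)
    (hgen : AddSubgroup.closure (Set.range fun a : Hb => a • m0) = ⊤)
    (ρ : GG p Ω →* H) (hρ : Rho p Ω ρ)
    (hGO : ∀ e : ℕ, 1 ≤ e → (∃ g : GG p Ω, Geo g ∧ π (ρ g) ≠ 1) →
      ∃ (r : ℕ) (b ζ F : Ω) (Ψ : Ω ≃+* Ω) (hΨ : PsiOK p Ψ), GO ρ (π.comp ρ) ℓ e r b ζ F Ψ hΨ) :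
    ∃ (ρ' : GG p Ω →* H) (c : GG p Ω → M), Rho p Ω ρ' ∧
      (∀ g g', c (g * g') = c g + π (ρ' g) • c g') ∧
      (∃ T : Finset Ω, ∀ g : GG p Ω, (∀ t ∈ T, g t = t) → c g = 0) ∧
      (∀ g : GG p Ω, Inert g → c g = 0) ∧
      (∀ x : M, ∃ g : GG p Ω, Geo g ∧ ρ' g = 1 ∧ c g = x) := by
  classical
  set ρb : GG p Ω →* Hb := π.comp ρ with hρbdef
  have hle : ∀ g : GG p Ω, ρ g = 1 → ρb g = 1 := by
    intro g hg
    rw [hρbdef, MonoidHom.comp_apply, hg, map_one]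
  have hsurj : Function.Surjective ρb := hπ.comp hρ.surj
  by_cases hex : ∃ g : GG p Ω, Geo g ∧ π (ρ g) ≠ 1
  · obtain ⟨e0, he0⟩ := hM
    have hM' : ∀ x : M, ℓ ^ (e0 + 1) • x = 0 := by
      intro x
      rw [pow_succ, mul_comm, mul_smul, he0, smul_zero]
    obtain ⟨r, b, ζ, F, Ψ, hΨ, hG⟩ := hGO (e0 + 1) (by omega) hex
    generalize hee : e0 + 1 = e at *
    have he : 1 ≤ e := by omega
    have hρb : Ad p Ω ρb := by
      refine ⟨?_, ?_⟩
      · obtain ⟨T, hT⟩ := hρ.fin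
        exact ⟨T, fun g hg => hle g (hT g hg)⟩
      · intro g hg
        exact hle g (hρ.inert g hg)
    letI act : DistribMulAction (GG p Ω) M := DistribMulAction.compHom M (ρb.comp (cj hΨ))
    have hact : ∀ (g : GG p Ω) (x : M), g • x = ρb (cj hΨ g) • x := fun _ _ => rfl
    obtain ⟨φ, hφ⟩ := EK1 p Ω (e := e) hl hlp F
    obtain ⟨θ, hθ, hθa, hθi⟩ := EK2 p Ω hl hρb hG φ hφ
    haveI hfi : (N0 ρb r hΨ).FiniteIndex := N0a ρb hG.r_pos hΨ
    letI hft : Fintype (GG p Ω ⧸ N0 ρb r hΨ) := Fintype.ofFinite _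
    have hmpos : 0 < ℓ ^ e := pow_pos hl.pos e
    have htr : ∀ g ∈ N0 ρb r hΨ, ∀ x : M, g • x = x := by
      rintro g ⟨-, h2⟩ x
      rw [hact, h2, one_smul]
    haveI hDn : (dm_D p Ω r).Normal := dm_D_normal p Ω r
    have hND : N0 ρb r hΨ ≤ dm_D p Ω r := fun g hg => hg.1
    have hcjD : ∀ g ∈ dm_D p Ω r, ∀ x : Ω, x ^ p ^ r = x → cj hΨ g x = x := by
      intro g hg x hx
      rw [cj_fix hΨ g (mem_kk hG.r_pos hx)]
      exact hg x hx
    let f : dm_D p Ω r →* Hb := (ρb.comp (cj hΨ)).comp (dm_D p Ω r).subtype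
    have hker : (N0 ρb r hΨ).subgroupOf (dm_D p Ω r) = f.ker := by
      ext g
      rw [Subgroup.mem_subgroupOf, MonoidHom.mem_ker]
      constructor
      · intro h
        exact h.2
      · intro h
        exact ⟨g.2, h⟩
    have hidx : ((N0 ρb r hΨ).subgroupOf (dm_D p Ω r)).index = Nat.card f.range := by
      rw [hker, Subgroup.index_ker]
    have hk0 : ((N0 ρb r hΨ).subgroupOf (dm_D p Ω r)).index ≠ 0 := by
      rw [hidx]
      exact Nat.card_pos.ne'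
    have hdvd : ((N0 ρb r hΨ).subgroupOf (dm_D p Ω r)).index ∣ Nat.card Hb := by
      rw [hidx]
      exact Subgroup.card_subgroup_dvd_card _
    have hcop : ((N0 ρb r hΨ).subgroupOf (dm_D p Ω r)).index.Coprime (Nat.card M) := by
      by_contra hnc
      obtain ⟨q, hq, hq1, hq2⟩ := Nat.Prime.not_coprime_iff_dvd.1 hnc
      haveI : Fact q.Prime := ⟨hq⟩
      obtain ⟨x, hx⟩ := exists_prime_addOrderOf_dvd_card' q hq2
      have h1 : q ∣ ℓ ^ e := by
        rw [← hx]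
        exact addOrderOf_dvd_of_nsmul_eq_zero (hM' x)
      have h2 : q = ℓ := (Nat.prime_dvd_prime_iff_eq hq hl).1 (hq.dvd_of_dvd_pow h1)
      exact hHb (h2 ▸ hq1.trans hdvd)
    have hfixD : ∀ x : M, (∀ d ∈ dm_D p Ω r, d • x = x) → x = 0 := by
      intro x hx
      apply hfix x
      intro a ha
      obtain ⟨g, hg1, hg2⟩ := hρ.pel a ha
      obtain ⟨g3, h1, h2⟩ := ES3 hle hG g
      have h3 : g3 ∈ dm_D p Ω r := fun y hy => h2 hg1 y (mem_kk hG.r_pos hy)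
      have h4 := hx g3 h3
      rw [hact, h1] at h4
      rw [← hg2]
      exact h4
    have hadd := E0a (N0 ρb r hΨ) hmpos hM' m0 θ hθa
    have heq := E0b (N0 ρb r hΨ) hmpos hM' htr m0 θ hθa
    obtain ⟨c, hc1, hc2⟩ := E2 (N0 ρb r hΨ) (dm_D p Ω r) hND htr hk0 hcop hfixD
      (hs (N0 ρb r hΨ) m0 θ) hadd heq
    have hφ0 : φ ≠ 0 := by
      intro h0
      apply hG.F_ne
      rw [← hφ, h0, zero_pow hmpos.ne']
    have hθ0 : ∀ g ∈ N0 ρb r hΨ, g φ = φ → θ g = 0 := by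
      intro g hg hgφ
      have h1 := hθ g hg
      rw [hgφ] at h1
      have h2 : ζ ^ (θ g).val = 1 := by
        have h3 : ζ ^ (θ g).val * φ = 1 * φ := by rw [one_mul]; exact h1.symm
        exact mul_right_cancel₀ hφ0 h3
      have h3 := (hG.z_prim.pow_eq_one_iff_dvd _).1 h2
      haveI : NeZero (ℓ ^ e) := ⟨hmpos.ne'⟩
      have h4 : (θ g).val < ℓ ^ e := ZMod.val_lt _
      have h5 : (θ g).val = 0 := Nat.eq_zero_of_dvd_of_lt h3 h4
      exact (ZMod.val_eq_zero _).1 h5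
    refine ⟨ρ.comp (cj hΨ), c, ES2 hρ hG, ?_, ?_, ?_, ?_⟩
    · intro g g'
      exact hc1 g g'
    · obtain ⟨T, hT⟩ := N0b ρb hρb hG.r_pos hΨ
      refine ⟨T ∪ Finset.univ.image (fun q : GG p Ω ⧸ N0 ρb r hΨ => q.out φ), ?_⟩
      intro g hg
      have hgN : g ∈ N0 ρb r hΨ := hT g fun t ht => hg t (Finset.mem_union_left _ ht)
      rw [hc2 g hgN]
      unfold hs
      refine Finset.sum_eq_zero fun q _ => ?_
      have h1 : q.out⁻¹ * g * q.out ∈ N0 ρb r hΨ := by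
        have h2 := (inferInstance : (N0 ρb r hΨ).Normal).conj_mem g hgN q.out⁻¹
        rwa [inv_inv] at h2
      have h2 : (q.out⁻¹ * g * q.out) φ = φ := by
        have h3 : g (q.out φ) = q.out φ := hg _ (Finset.mem_union_right _
          (Finset.mem_image.2 ⟨q, Finset.mem_univ _, rfl⟩))
        change q.out⁻¹ (g (q.out φ)) = φ
        rw [h3]
        change (q.out⁻¹ * q.out) φ = φ
        rw [inv_mul_cancel]; rfl
      rw [hθ0 _ h1 h2, ZMod.val_zero, zero_smul]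
    · intro g hg
      rw [hc2 g (hθi g hg).1]
      exact E0c (N0 ρb r hΨ) m0 θ g fun d => (hθi _ (dm_inert_conj hg d)).2
    · intro x
      have hcard : ¬ ℓ ∣ Nat.card (Gb p Ω ρb) := fun h =>
        hHb (h.trans (Subgroup.card_subgroup_dvd_card _))
      have hfixG : ∀ x : M, (∀ γ ∈ Gb p Ω ρb, γ • x = x) → x = 0 := by
        intro x hx
        apply hfix x
        intro a ha
        obtain ⟨g, hg1, hg2⟩ := hρ.pel a ha
        exact hx (π a) ⟨g, hg1, by rw [← hg2]; rfl⟩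
      obtain ⟨g, h1, h2, h3⟩ := E1f p Ω hact hsurj hl hlp he hG hle hM' m0 hcard hfixG hgen φ hφ θ
        hθ hθa x
      have hgN : g ∈ N0 ρb r hΨ := ⟨fun y hy => h1 y (mem_kk hG.r_pos hy), hle _ h2⟩
      exact ⟨g, h1, h2, by rw [hc2 g hgN]; exact h3⟩
  · push_neg at hex
    have hM0 : ∀ x : M, x = 0 := by
      intro x
      apply hfix x
      intro a ha
      obtain ⟨g, hg1, hg2⟩ := hρ.pel a ha
      rw [← hg2, hex g hg1, one_smul]
    refine ⟨ρ, fun _ => 0, hρ, ?_, ⟨∅, fun _ _ => rfl⟩, fun _ _ => rfl, ?_⟩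
    · intro g g'
      rw [smul_zero, add_zero]
    · intro x
      exact ⟨1, fun _ _ => rfl, map_one ρ, (hM0 x).symm⟩


end Pool.Agent.QPC
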