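import Mathlib
import Pool.Agent.QPC.Defs
import Pool.Agent.QPC.Defs3
import Pool.Agent.QPC.DM

/-!
# QPC row DN: realisation of `M ⋊ H` for cyclic `M`
Plan. `Hb := φ.range` acts on `Additive M` by `a • x = Additive.ofMul ((a : MulAut M) x.toMul)`; `π := φ.rangeRestrict`. `IsPGroup ℓ M`, `M` finite: some `ℓ^e` kills `M`. `DM` gives `ρ', c`. `ρ'' g := ⟨(c g).toMul, ρ' g⟩ : M ⋊[φ] H` is a homomorphism (`(m,a)(m',a') = (m * φ a m', a a')`). `Ad`: `fin` (union of the two finite sets), `inert`.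
Surjective: `(x, a)`: `g0` with `ρ' g0 = a`, then `g1` geometric with `ρ' g1 = 1`, `c g1 = x - c g0`: `c (g1 g0) = c g1 + c g0 = x`. `pel`: an element `(x,a)` of `p`-power order: `a` has `p`-power order, `a = ρ' g0` with `g0` geometric; then `g1 g0` as before is geometric.
-/

set_option autoImplicit false

namespace Pool.Agent.QPC

open Polynomial

variable (p : ℕ) [Fact p.Prime] (Ω : Type) [Field Ω] [Algebra (RatFunc (ZMod p)) Ω]
  [IsSepClosed Ω] [Algebra.IsSeparable (RatFunc (ZMod p)) Ω]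

/-- The action of the image of `φ` on the additive version of `M`. -/
@[reducible] def dn_act {M H : Type} [CommGroup M] [Group H] (φ : H →* MulAut M) :
    DistribMulAction φ.range (Additive M) where
  smul a x := Additive.ofMul ((a : MulAut M) x.toMul)
  one_smul _ := rfl
  mul_smul _ _ _ := rfl
  smul_zero a := congrArg Additive.ofMul (map_one (a : MulAut M))
  smul_add a x y := congrArg Additive.ofMul (map_mul (a : MulAut M) x.toMul y.toMul)

theorem DN {M H : Type} [CommGroup M] [Group H] [Finite M] [Finite H] (φ : H →* MulAut M) {ℓ : ℕ}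
    (hl : ℓ.Prime) (hlp : ℓ ≠ p) (hM : IsPGroup ℓ M) (hcard : ¬ ℓ ∣ Nat.card φ.range)
    (hfix : ∀ x : M, (∀ a : H, (∃ r : ℕ, a ^ p ^ r = 1) → φ a x = x) → x = 1) (m0 : M)
    (hgen : Subgroup.closure (Set.range fun a : H => φ a m0) = ⊤)
    (ρ : GG p Ω →* H) (hρ : Rho p Ω ρ)
    (hGO : ∀ e : ℕ, 1 ≤ e → (∃ g : GG p Ω, Geo g ∧ φ (ρ g) ≠ 1) →
      ∃ (r : ℕ) (b ζ F : Ω) (Ψ : Ω ≃+* Ω) (hΨ : PsiOK p Ψ),
        GO ρ (φ.rangeRestrict.comp ρ) ℓ e r b ζ F Ψ hΨ) :
    R p Ω (M ⋊[φ] H) := by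
  classical
  letI := dn_act φ
  have hsm : ∀ (a : H) (x : Additive M),
      φ.rangeRestrict a • x = Additive.ofMul (φ a x.toMul) := fun a x => rfl
  obtain ⟨ρ', c, hρ', hcoc, hfin, hin, hsur⟩ := DM p Ω (M := Additive M) φ.rangeRestrict
    φ.rangeRestrict_surjective hl hlp (by
      haveI : Fact ℓ.Prime := ⟨hl⟩
      obtain ⟨n, hn⟩ := IsPGroup.iff_card.1 hM
      refine ⟨n, fun x => ?_⟩
      have h1 : x.toMul ^ ℓ ^ n = 1 := by rw [← hn]; exact pow_card_eq_one'
      exact congrArg Additive.ofMul h1) hcard (by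
      intro x hx
      have h1 : x.toMul = 1 := hfix _ fun a ha => by
        have h2 := hx a ha
        rw [hsm] at h2
        exact congrArg Additive.toMul h2
      exact congrArg Additive.ofMul h1) (Additive.ofMul m0) (by
      rw [eq_top_iff]
      intro x _
      have h1 : x.toMul ∈ Subgroup.closure (Set.range fun a : H => φ a m0) := by
        rw [hgen]; exact Subgroup.mem_top _
      have h2 : ∀ y ∈ Subgroup.closure (Set.range fun a : H => φ a m0),
          Additive.ofMul y ∈ AddSubgroup.closure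
            (Set.range fun a : φ.range => a • Additive.ofMul m0) := by
        intro y hy
        induction hy using Subgroup.closure_induction with
        | mem y hy =>
          obtain ⟨a, rfl⟩ := hy
          exact AddSubgroup.subset_closure ⟨φ.rangeRestrict a, rfl⟩
        | one => exact zero_mem _
        | mul y z _ _ h3 h4 => exact add_mem h3 h4
        | inv y _ h3 => exact neg_mem h3
      exact h2 _ h1) ρ hρ (by
      rintro e he ⟨g, hg, hne⟩
      refine hGO e he ⟨g, hg, fun h => hne (Subtype.ext h)⟩)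
  let ρ2 : GG p Ω →* M ⋊[φ] H := MonoidHom.mk' (fun g => ⟨(c g).toMul, ρ' g⟩) (by
    intro g g'
    refine SemidirectProduct.ext ?_ ?_
    · have h1 := hcoc g g'
      rw [hsm] at h1
      exact congrArg Additive.toMul h1
    · exact map_mul ρ' g g')
  have hr : ∀ g, ρ2 g = ⟨(c g).toMul, ρ' g⟩ := fun g => rfl
  have key : ∀ (x : M) (g0 : GG p Ω), ∃ g1 : GG p Ω, Geo g1 ∧ ρ2 (g1 * g0) = ⟨x, ρ' g0⟩ := by
    intro x g0
    obtain ⟨g1, h1, h2, h3⟩ := hsur (Additive.ofMul x - c g0)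
    refine ⟨g1, h1, ?_⟩
    rw [hr]
    refine SemidirectProduct.ext ?_ ?_
    · have h4 := hcoc g1 g0
      rw [h2, map_one, one_smul, h3, sub_add_cancel] at h4
      exact congrArg Additive.toMul h4
    · change ρ' (g1 * g0) = ρ' g0
      rw [map_mul, h2, one_mul]
  refine ⟨ρ2, ⟨⟨?_, ?_⟩, ?_, ?_⟩⟩
  · obtain ⟨T, hT⟩ := hfin
    obtain ⟨T', hT'⟩ := hρ'.fin
    refine ⟨T ∪ T', fun g hg => ?_⟩
    rw [hr, hT g fun t ht => hg t (Finset.mem_union_left _ ht),
      hT' g fun t ht => hg t (Finset.mem_union_right _ ht)]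
    rfl
  · intro g hg
    rw [hr, hin g hg, hρ'.inert g hg]
    rfl
  · rintro ⟨x, a⟩
    obtain ⟨g0, rfl⟩ := hρ'.surj a
    obtain ⟨g1, -, h⟩ := key x g0
    exact ⟨_, h⟩
  · rintro ⟨x, a⟩ ⟨r, hra⟩
    have ha : a ^ p ^ r = 1 := by
      have h1 := congrArg (SemidirectProduct.rightHom : M ⋊[φ] H →* H) hra
      rw [map_pow, map_one] at h1
      exact h1
    obtain ⟨g0, hg0, rfl⟩ := hρ'.pel a ⟨r, ha⟩
    obtain ⟨g1, h1, h⟩ := key x g0
    exact ⟨_, h1.mul hg0, h⟩

end Pool.Agent.QPC
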