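import Mathlib

/-!
# QPC: multiplication tables and their base change
-/

set_option autoImplicit false

namespace Pool.Agent.QPC

open Polynomial

/-- A commutative ring structure on `A^n`, given by structure constants:
`η_i η_j = ∑ c i j l η_l` and `1 = ∑ e l η_l`. -/
structure Tab (A : Type) [CommRing A] (n : ℕ) where
  c : Fin n → Fin n → Fin n → A
  e : Fin n → A
  comm : ∀ i j l, c i j l = c j i l
  assoc : ∀ i j k m, ∑ l, c i j l * c l k m = ∑ l, c j k l * c i l m
  one_mul : ∀ j l, ∑ i, e i * c i j l = if j = l then 1 else 0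

/-- The algebra of the table: vectors of coordinates. -/
@[ext] structure Tab.S {A : Type} [CommRing A] {n : ℕ} (T : Tab A n) : Type where
  /-- the coordinates -/
  co : Fin n → A

namespace Tab

variable {A : Type} [CommRing A] {n : ℕ} (T : Tab A n)

instance : Zero T.S := ⟨⟨0⟩⟩
instance : One T.S := ⟨⟨T.e⟩⟩
instance : Add T.S := ⟨fun x y => ⟨x.co + y.co⟩⟩
instance : Neg T.S := ⟨fun x => ⟨-x.co⟩⟩
instance : Mul T.S := ⟨fun x y => ⟨fun l => ∑ i, ∑ j, x.co i * y.co j * T.c i j l⟩⟩
instance : SMul A T.S := ⟨fun a x => ⟨a • x.co⟩⟩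

variable {T}

theorem mul_co (x y : T.S) (l : Fin n) :
    (x * y).co l = ∑ i, ∑ j, x.co i * y.co j * T.c i j l := rfl
theorem one_co (l : Fin n) : (1 : T.S).co l = T.e l := rfl
@[simp] theorem add_co (x y : T.S) (l : Fin n) : (x + y).co l = x.co l + y.co l := rfl
@[simp] theorem neg_co (x : T.S) (l : Fin n) : (-x).co l = -x.co l := rfl
@[simp] theorem zero_co (l : Fin n) : (0 : T.S).co l = 0 := rfl
@[simp] theorem smul_co (a : A) (x : T.S) (l : Fin n) : (a • x).co l = a * x.co l := rfl

theorem ext' {x y : T.S} (h : ∀ l, x.co l = y.co l) : x = y := Tab.S.ext (funext h)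

protected theorem mul_comm' (x y : T.S) : x * y = y * x := by
  refine ext' fun l => ?_
  rw [mul_co, mul_co, Finset.sum_comm]
  refine Finset.sum_congr rfl fun j _ => Finset.sum_congr rfl fun i _ => ?_
  rw [T.comm i j l]; ring

protected theorem one_mul' (x : T.S) : 1 * x = x := by
  refine ext' fun l => ?_
  rw [mul_co, Finset.sum_comm]
  have : ∀ j, ∑ i, (1 : T.S).co i * x.co j * T.c i j l = x.co j * (if j = l then 1 else 0) := by
    intro j
    rw [← T.one_mul j l, Finset.mul_sum]
    refine Finset.sum_congr rfl fun i _ => ?_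
    rw [one_co]; ring
  simp [this]

protected theorem mul_assoc' (x y z : T.S) : x * y * z = x * (y * z) := by
  refine ext' fun m => ?_
  have h1 : (x * y * z).co m
      = ∑ i, ∑ j, ∑ k, x.co i * y.co j * z.co k * ∑ l, T.c i j l * T.c l k m := by
    rw [mul_co]
    simp only [mul_co, Finset.sum_mul, Finset.mul_sum]
    rw [Finset.sum_comm]
    have : ∀ k, ∑ l, ∑ i, ∑ j, x.co i * y.co j * T.c i j l * z.co k * T.c l k m
        = ∑ i, ∑ j, ∑ l, x.co i * y.co j * z.co k * (T.c i j l * T.c l k m) := by
      intro k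
      rw [Finset.sum_comm]
      refine Finset.sum_congr rfl fun i _ => ?_
      rw [Finset.sum_comm]
      refine Finset.sum_congr rfl fun j _ => Finset.sum_congr rfl fun l _ => by ring
    rw [Finset.sum_congr rfl fun k _ => this k, Finset.sum_comm]
    refine Finset.sum_congr rfl fun i _ => ?_
    rw [Finset.sum_comm]
  have h2 : (x * (y * z)).co m
      = ∑ i, ∑ j, ∑ k, x.co i * y.co j * z.co k * ∑ l, T.c j k l * T.c i l m := by
    rw [mul_co]
    simp only [mul_co, Finset.sum_mul, Finset.mul_sum]
    refine Finset.sum_congr rfl fun i _ => ?_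
    rw [Finset.sum_comm]
    refine Finset.sum_congr rfl fun j _ => ?_
    rw [Finset.sum_comm]
    refine Finset.sum_congr rfl fun k _ => Finset.sum_congr rfl fun l _ => by ring
  rw [h1, h2]
  refine Finset.sum_congr rfl fun i _ => Finset.sum_congr rfl fun j _ =>
    Finset.sum_congr rfl fun k _ => ?_
  rw [T.assoc i j k m]

variable (T)

instance : CommRing T.S where
  add_assoc := fun x y z => ext' fun l => add_assoc _ _ _
  zero_add := fun x => ext' fun l => zero_add _
  add_zero := fun x => ext' fun l => add_zero _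
  nsmul := nsmulRec
  zsmul := zsmulRec
  neg_add_cancel := fun x => ext' fun l => neg_add_cancel _
  add_comm := fun x y => ext' fun l => add_comm _ _
  mul_comm := Tab.mul_comm'
  mul_assoc := Tab.mul_assoc'
  one_mul := Tab.one_mul'
  mul_one := fun x => by
    have h := Tab.one_mul' x
    rwa [Tab.mul_comm'] at h
  left_distrib := fun x y z => by
    refine ext' fun l => ?_
    rw [add_co, mul_co, mul_co, mul_co, ← Finset.sum_add_distrib]
    refine Finset.sum_congr rfl fun i _ => ?_
    rw [← Finset.sum_add_distrib]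
    refine Finset.sum_congr rfl fun j _ => ?_
    rw [add_co]; ring
  right_distrib := fun x y z => by
    refine ext' fun l => ?_
    rw [add_co, mul_co, mul_co, mul_co, ← Finset.sum_add_distrib]
    refine Finset.sum_congr rfl fun i _ => ?_
    rw [← Finset.sum_add_distrib]
    refine Finset.sum_congr rfl fun j _ => ?_
    rw [add_co]; ring
  zero_mul := fun x => ext' fun l => by
    rw [mul_co]; simp
  mul_zero := fun x => ext' fun l => by
    rw [mul_co]; simp

instance : Module A T.S where
  one_smul := fun x => ext' fun l => by simp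
  mul_smul := fun a b x => ext' fun l => by simp [mul_assoc]
  smul_zero := fun a => ext' fun l => by simp
  smul_add := fun a x y => ext' fun l => by simp [mul_add]
  add_smul := fun a b x => ext' fun l => by simp [add_mul]
  zero_smul := fun x => ext' fun l => by simp

variable {T}

protected theorem smul_mul' (a : A) (x y : T.S) : (a • x) * y = a • (x * y) := by
  refine ext' fun l => ?_
  rw [smul_co, mul_co, mul_co, Finset.mul_sum]
  refine Finset.sum_congr rfl fun i _ => ?_
  rw [Finset.mul_sum]
  refine Finset.sum_congr rfl fun j _ => ?_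
  rw [smul_co]; ring

variable (T)

noncomputable instance : Algebra A T.S :=
  Algebra.ofModule (fun a x y => Tab.smul_mul' a x y)
    (fun a x y => by rw [mul_comm, Tab.smul_mul', mul_comm])

variable {T}

theorem algebraMap_co (a : A) (l : Fin n) : (algebraMap A T.S a).co l = a * T.e l := by
  rw [Algebra.algebraMap_eq_smul_one]; rfl

@[simp] theorem sum_co {ι : Type} (s : Finset ι) (f : ι → T.S) (l : Fin n) :
    (∑ i ∈ s, f i).co l = ∑ i ∈ s, (f i).co l := by
  classical
  induction s using Finset.induction_on with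
  | empty => simp
  | insert a s ha ih => rw [Finset.sum_insert ha, Finset.sum_insert ha, add_co, ih]

variable (T)

/-- The coordinate basis. -/
noncomputable def basis : Module.Basis (Fin n) A T.S :=
  Module.Basis.ofEquivFun
    { toFun := fun x => x.co
      invFun := fun f => ⟨f⟩
      map_add' := fun _ _ => rfl
      map_smul' := fun _ _ => rfl
      left_inv := fun _ => rfl
      right_inv := fun _ => rfl }

/-- Base change of a table. -/
def map {B : Type} [CommRing B] (f : A →+* B) : Tab B n where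
  c := fun i j l => f (T.c i j l)
  e := fun l => f (T.e l)
  comm := fun i j l => by rw [T.comm]
  assoc := fun i j k m => by
    simp only [← map_mul, ← map_sum]
    rw [T.assoc]
  one_mul := fun j l => by
    simp only [← map_mul, ← map_sum]
    rw [T.one_mul]
    split_ifs <;> simp

/-- The coordinatewise homomorphism `S(f) → S(f')`, for `g ∘ f = f'`. -/
def hom {B B' : Type} [CommRing B] [CommRing B'] (f : A →+* B) (f' : A →+* B') (g : B →+* B')
    (h : g.comp f = f') : (T.map f).S →+* (T.map f').S where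
  toFun := fun x => ⟨fun l => g (x.co l)⟩
  map_one' := by
    refine ext' fun l => ?_
    change g (f (T.e l)) = f' (T.e l)
    rw [← h]; rfl
  map_zero' := by refine ext' fun l => map_zero g
  map_add' := fun x y => by refine ext' fun l => map_add g (x.co l) (y.co l)
  map_mul' := fun x y => by
    refine ext' fun l => ?_
    rw [mul_co]
    change g (∑ i, ∑ j, x.co i * y.co j * f (T.c i j l))
      = ∑ i, ∑ j, g (x.co i) * g (y.co j) * f' (T.c i j l)
    rw [map_sum]
    refine Finset.sum_congr rfl fun i _ => ?_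
    rw [map_sum]
    refine Finset.sum_congr rfl fun j _ => ?_
    rw [map_mul, map_mul, ← h]; rfl

@[simp] theorem hom_co {B B' : Type} [CommRing B] [CommRing B'] (f : A →+* B) (f' : A →+* B')
    (g : B →+* B') (h : g.comp f = f') (x : (T.map f).S) (l : Fin n) :
    (T.hom f f' g h x).co l = g (x.co l) := rfl

end Tab

/-- Galois data over the ring `A`: a table, a finite group acting, an element of trace one, and a
Chase-Harrison-Rosenberg system `∑ x_t g(y_t) = δ_{g,1}`. -/
structure GD (A : Type) [CommRing A] (n : ℕ) (Γ : Type) [Group Γ] [Fintype Γ] [DecidableEq Γ]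
    extends Tab A n where
  act : Γ → Fin n → Fin n → A
  act_one : ∀ i j, act 1 i j = if i = j then 1 else 0
  act_mul : ∀ g h i j, act (g * h) i j = ∑ l, act g i l * act h l j
  act_e : ∀ g i, ∑ j, act g i j * e j = e i
  act_c : ∀ g i j m, ∑ l, act g m l * c i j l = ∑ a, ∑ b, act g a i * act g b j * c a b m
  r : ℕ
  x : Fin r → Fin n → A
  y : Fin r → Fin n → A
  chr : ∀ g m, ∑ t, ∑ a, ∑ b, x t a * (∑ j, act g b j * y t j) * c a b m =
    if g = 1 then e m else 0
  t : Fin n → A
  ht : ∀ l j, ∑ g, act g l j = t j * e l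
  w : Fin n → A
  tr : ∑ j, t j * w j = 1

namespace GD

variable {A : Type} [CommRing A] {n : ℕ} {Γ : Type} [Group Γ] [Fintype Γ] [DecidableEq Γ]
  (D : GD A n Γ)

/-- The algebra. -/
abbrev S : Type := D.toTab.S

/-- The action of a group element, as a ring endomorphism. -/
def ac (g : Γ) : D.S →+* D.S where
  toFun := fun u => ⟨fun l => ∑ j, D.act g l j * u.co j⟩
  map_one' := by refine Tab.ext' fun l => D.act_e g l
  map_zero' := by refine Tab.ext' fun l => by simp
  map_add' := fun u v => by
    refine Tab.ext' fun l => ?_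
    simp only [Tab.add_co]
    rw [← Finset.sum_add_distrib]
    refine Finset.sum_congr rfl fun j _ => ?_
    ring
  map_mul' := fun u v => by
    refine Tab.ext' fun m => ?_
    change ∑ l, D.act g m l * (u * v).co l
      = ∑ a, ∑ b, (∑ i, D.act g a i * u.co i) * (∑ j, D.act g b j * v.co j) * D.c a b m
    have h1 : ∑ l, D.act g m l * (u * v).co l
        = ∑ i, ∑ j, u.co i * v.co j * ∑ l, D.act g m l * D.c i j l := by
      simp only [Tab.mul_co, Finset.mul_sum]
      rw [Finset.sum_comm]
      refine Finset.sum_congr rfl fun i _ => ?_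
      rw [Finset.sum_comm]
      refine Finset.sum_congr rfl fun j _ => Finset.sum_congr rfl fun l _ => by ring
    rw [h1]
    simp only [D.act_c]
    simp only [Finset.sum_mul, Finset.mul_sum]
    have h2 : ∀ i, ∑ j, ∑ a, ∑ b, u.co i * v.co j * (D.act g a i * D.act g b j * D.c a b m)
        = ∑ a, ∑ b, ∑ j, u.co i * v.co j * (D.act g a i * D.act g b j * D.c a b m) := by
      intro i
      rw [Finset.sum_comm]
      refine Finset.sum_congr rfl fun a _ => ?_
      rw [Finset.sum_comm]
    rw [Finset.sum_congr rfl fun i _ => h2 i, Finset.sum_comm]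
    refine Finset.sum_congr rfl fun a _ => ?_
    rw [Finset.sum_comm]
    refine Finset.sum_congr rfl fun b _ => ?_
    rw [Finset.sum_comm]
    refine Finset.sum_congr rfl fun j _ => Finset.sum_congr rfl fun i _ => by ring

theorem ac_co (g : Γ) (u : D.S) (l : Fin n) : (D.ac g u).co l = ∑ j, D.act g l j * u.co j := rfl

theorem ac_one (u : D.S) : D.ac 1 u = u := by
  refine Tab.ext' fun l => ?_
  rw [ac_co]
  simp [D.act_one]

theorem ac_mul (g h : Γ) (u : D.S) : D.ac (g * h) u = D.ac g (D.ac h u) := by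
  refine Tab.ext' fun l => ?_
  rw [ac_co, ac_co]
  simp only [ac_co, D.act_mul, Finset.sum_mul, Finset.mul_sum]
  rw [Finset.sum_comm]
  refine Finset.sum_congr rfl fun j _ => Finset.sum_congr rfl fun i _ => by ring

theorem ac_smul (g : Γ) (a : A) (u : D.S) : D.ac g (a • u) = a • D.ac g u := by
  refine Tab.ext' fun l => ?_
  rw [ac_co, Tab.smul_co, ac_co, Finset.mul_sum]
  refine Finset.sum_congr rfl fun j _ => ?_
  rw [Tab.smul_co]; ring

/-- The first half of the CHR system. -/
def X (t : Fin D.r) : D.S := ⟨D.x t⟩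

/-- The second half of the CHR system. -/
def Y (t : Fin D.r) : D.S := ⟨D.y t⟩

/-- The element of trace one. -/
def W : D.S := ⟨D.w⟩

theorem CHR (g : Γ) : ∑ t, D.X t * D.ac g (D.Y t) = if g = 1 then 1 else 0 := by
  refine Tab.ext' fun m => ?_
  have h := D.chr g m
  rw [Tab.sum_co]
  simp only [Tab.mul_co]
  split_ifs with hg
  · rw [if_pos hg] at h; exact h
  · rw [if_neg hg] at h; exact h

/-- The trace, with values in the base ring. -/
def Tr (u : D.S) : A := ∑ j, D.t j * u.co j

theorem sum_ac (u : D.S) : ∑ g, D.ac g u = algebraMap A D.S (D.Tr u) := by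
  refine Tab.ext' fun m => ?_
  rw [Tab.sum_co, Tab.algebraMap_co]
  simp only [ac_co]
  rw [Finset.sum_comm]
  simp only [← Finset.sum_mul]
  rw [Tr, Finset.sum_mul]
  refine Finset.sum_congr rfl fun j _ => ?_
  rw [D.ht]; ring

theorem Tr_W : D.Tr D.W = 1 := D.tr

theorem Tr_add (u v : D.S) : D.Tr (u + v) = D.Tr u + D.Tr v := by
  simp only [Tr, Tab.add_co, mul_add, Finset.sum_add_distrib]

theorem Tr_smul (a : A) (u : D.S) : D.Tr (a • u) = a * D.Tr u := by
  simp only [Tr, Tab.smul_co, Finset.mul_sum]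
  refine Finset.sum_congr rfl fun j _ => ?_
  ring

/-- The invariants are the base ring. -/
theorem inv (u : D.S) (h : ∀ g, D.ac g u = u) : u = algebraMap A D.S (D.Tr (u * D.W)) := by
  rw [← sum_ac]
  simp only [map_mul, h]
  rw [← Finset.mul_sum, sum_ac, Tr_W, map_one, mul_one]

/-- The reproducing formula. -/
theorem repr (u : D.S) : u = ∑ t, D.Tr (D.Y t * u) • D.X t := by
  have h1 : ∀ t, D.Tr (D.Y t * u) • D.X t = ∑ g, D.X t * D.ac g (D.Y t) * D.ac g u := by
    intro t
    rw [Algebra.smul_def, ← sum_ac, Finset.sum_mul]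
    refine Finset.sum_congr rfl fun g _ => ?_
    rw [map_mul]; ring
  simp only [h1]
  rw [Finset.sum_comm]
  simp only [← Finset.sum_mul, CHR]
  simp [D.ac_one]

/-- Base change. -/
def map {B : Type} [CommRing B] (f : A →+* B) : GD B n Γ where
  toTab := D.toTab.map f
  act := fun g i j => f (D.act g i j)
  act_one := fun i j => by rw [D.act_one]; split_ifs <;> simp
  act_mul := fun g h i j => by
    rw [D.act_mul, map_sum]
    simp only [map_mul]
  act_e := fun g i => by
    change ∑ j, f (D.act g i j) * f (D.e j) = f (D.e i)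
    rw [← D.act_e g i, map_sum]
    simp only [map_mul]
  act_c := fun g i j m => by
    change ∑ l, f (D.act g m l) * f (D.c i j l)
      = ∑ a, ∑ b, f (D.act g a i) * f (D.act g b j) * f (D.c a b m)
    simp only [← map_mul, ← map_sum]
    rw [D.act_c]
  r := D.r
  x := fun t i => f (D.x t i)
  y := fun t i => f (D.y t i)
  chr := fun g m => by
    change ∑ t, ∑ a, ∑ b, f (D.x t a) * (∑ j, f (D.act g b j) * f (D.y t j)) * f (D.c a b m)
      = if g = 1 then f (D.e m) else 0
    simp only [← map_mul, ← map_sum]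
    rw [D.chr]
    split_ifs <;> simp
  t := fun i => f (D.t i)
  ht := fun l j => by
    change ∑ g, f (D.act g l j) = f (D.t j) * f (D.e l)
    simp only [← map_mul, ← map_sum]
    rw [D.ht]
  w := fun i => f (D.w i)
  tr := by
    simp only [← map_mul, ← map_sum]
    rw [D.tr, map_one]

/-- The coordinatewise homomorphism. -/
def hom {B B' : Type} [CommRing B] [CommRing B'] (f : A →+* B) (f' : A →+* B') (g : B →+* B')
    (h : g.comp f = f') : (D.map f).S →+* (D.map f').S := D.toTab.hom f f' g h

@[simp] theorem hom_co {B B' : Type} [CommRing B] [CommRing B'] (f : A →+* B) (f' : A →+* B')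
    (g : B →+* B') (h : g.comp f = f') (u : (D.map f).S) (l : Fin n) :
    (D.hom f f' g h u).co l = g (u.co l) := rfl

theorem hom_ac {B B' : Type} [CommRing B] [CommRing B'] (f : A →+* B) (f' : A →+* B')
    (g : B →+* B') (h : g.comp f = f') (γ : Γ) (u : (D.map f).S) :
    D.hom f f' g h ((D.map f).ac γ u) = (D.map f').ac γ (D.hom f f' g h u) := by
  refine Tab.ext' fun l => ?_
  rw [hom_co, ac_co, ac_co, map_sum]
  refine Finset.sum_congr rfl fun j _ => ?_
  rw [map_mul, hom_co]
  congr 1
  change g (f (D.act γ l j)) = f' (D.act γ l j)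
  rw [← h]; rfl

theorem hom_Tr {B B' : Type} [CommRing B] [CommRing B'] (f : A →+* B) (f' : A →+* B')
    (g : B →+* B') (h : g.comp f = f') (u : (D.map f).S) :
    (D.map f').Tr (D.hom f f' g h u) = g ((D.map f).Tr u) := by
  rw [Tr, Tr, map_sum]
  refine Finset.sum_congr rfl fun j _ => ?_
  rw [map_mul, hom_co, ← h]; rfl

theorem hom_smul {B B' : Type} [CommRing B] [CommRing B'] (f : A →+* B) (f' : A →+* B')
    (g : B →+* B') (h : g.comp f = f') (b : B) (u : (D.map f).S) :
    D.hom f f' g h (b • u) = g b • D.hom f f' g h u := by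
  refine Tab.ext' fun l => ?_
  simp

end GD

/-- The finite subfield with `p ^ r` elements. -/
def FF (p : ℕ) [Fact p.Prime] (k : Type) [Field k] [CharP k p] (r : ℕ) : Subfield k where
  carrier := {a | a ^ p ^ r = a}
  mul_mem' := fun {a b} (ha : a ^ p ^ r = a) (hb : b ^ p ^ r = b) => by
    change (a * b) ^ p ^ r = a * b
    rw [mul_pow, ha, hb]
  one_mem' := one_pow _
  add_mem' := fun {a b} (ha : a ^ p ^ r = a) (hb : b ^ p ^ r = b) => by
    change (a + b) ^ p ^ r = a + b
    rw [add_pow_char_pow, ha, hb]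
  zero_mem' := zero_pow (pow_pos (Fact.out : p.Prime).pos r).ne'
  neg_mem' := fun {a} (ha : a ^ p ^ r = a) => by
    change (-a) ^ p ^ r = -a
    have h : (0 - a) ^ p ^ r = 0 ^ p ^ r - a ^ p ^ r := sub_pow_char_pow ..
    rw [zero_pow (pow_pos (Fact.out : p.Prime).pos r).ne', ha] at h
    simpa using h
  inv_mem' := fun a (ha : a ^ p ^ r = a) => by
    change (a⁻¹) ^ p ^ r = a⁻¹
    rw [inv_pow, ha]

theorem mem_FF (p : ℕ) [Fact p.Prime] (k : Type) [Field k] [CharP k p] (r : ℕ) (a : k) :
    a ∈ FF p k r ↔ a ^ p ^ r = a := Iff.rfl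

/-- The substitution `X ↦ X^m` (the `v`-line), with coefficients mapped by `i`. -/
noncomputable def vt {k₀ R : Type} [CommRing k₀] [CommRing R] (i : k₀ →+* R) (m : ℕ) :
    k₀[X] →+* R[X] :=
  Polynomial.eval₂RingHom (C.comp i) (X ^ m)

/-- The substitution `X ↦ (t' (X^p - X))^m` (the `z`-line with parameter `t = 1 / t'`). -/
noncomputable def zt {k₀ R : Type} [CommRing k₀] [CommRing R] (i : k₀ →+* R) (t' : R) (m p : ℕ) :
    k₀[X] →+* R[X] :=
  Polynomial.eval₂RingHom (C.comp i) ((C t' * (X ^ p - X)) ^ m)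

/-- The substitution `X ↦ X + 1`. -/
noncomputable def sh (R : Type) [CommRing R] : R[X] →+* R[X] :=
  Polynomial.eval₂RingHom C (X + 1)

theorem sh_zt {k₀ R : Type} [CommRing k₀] [CommRing R] (i : k₀ →+* R) (t' : R) (m p : ℕ)
    [Fact p.Prime] [CharP R p] : (sh R).comp (zt i t' m p) = zt i t' m p := by
  refine Polynomial.ringHom_ext (fun a => ?_) ?_
  · simp [sh, zt]
  · simp only [sh, zt, RingHom.comp_apply, coe_eval₂RingHom, eval₂_X, map_pow, map_mul, map_sub,
      eval₂_C]
    congr 2
    rw [add_pow_char]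
    ring

/-- `g ∘ i = i'` gives `(coefficientwise g) ∘ zt i t' = zt i' (g t')`. -/
theorem map_zt {k₀ R R' : Type} [CommRing k₀] [CommRing R] [CommRing R'] (i : k₀ →+* R)
    (i' : k₀ →+* R') (g : R →+* R') (h : g.comp i = i') (t' : R) (m p : ℕ) :
    (mapRingHom g).comp (zt i t' m p) = zt i' (g t') m p := by
  refine Polynomial.ringHom_ext (fun a => ?_) ?_
  · simp [zt, ← h]
  · simp [zt]

theorem map_vt {k₀ R R' : Type} [CommRing k₀] [CommRing R] [CommRing R'] (i : k₀ →+* R)
    (i' : k₀ →+* R') (g : R →+* R') (h : g.comp i = i') (m : ℕ) :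
    (mapRingHom g).comp (vt i m) = vt i' m := by
  refine Polynomial.ringHom_ext (fun a => ?_) ?_
  · simp [vt, ← h]
  · simp [vt]

namespace GD

variable {k₀ : Type} [CommRing k₀] {n : ℕ} {Γ : Type} [Group Γ] [Fintype Γ] [DecidableEq Γ]
  (D : GD k₀[X] n Γ)

/-- The algebra on the `x`-line over `R`. -/
noncomputable abbrev Sx {R : Type} [CommRing R] (i : k₀ →+* R) : Type := (D.map (mapRingHom i)).S

/-- The algebra on the `v`-line over `R`. -/
noncomputable abbrev Sv {R : Type} [CommRing R] (i : k₀ →+* R) (m : ℕ) : Type := (D.map (vt i m)).S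

/-- The algebra on the `z`-line over `R`, with parameter `t = 1 / t'`. -/
noncomputable abbrev Sz {R : Type} [CommRing R] (i : k₀ →+* R) (t' : R) (m p : ℕ) : Type :=
  (D.map (zt i t' m p)).S

/-- The translation `z ↦ z + 1` on the `z`-line. -/
noncomputable def tau {R : Type} [CommRing R] (i : k₀ →+* R) (t' : R) (m p : ℕ) [Fact p.Prime]
    [CharP R p] : D.Sz i t' m p →+* D.Sz i t' m p :=
  D.hom (zt i t' m p) (zt i t' m p) (sh R) (sh_zt i t' m p)

/-- `X_ν = ∏ γ(F)^{ν(γ)}`. -/
noncomputable def Xn {R : Type} [CommRing R] {D' : GD R n Γ} {ℓ : ℕ} (ν : Γ → ZMod ℓ) (F : D'.S) :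
    D'.S := ∏ γ, D'.ac γ F ^ (ν γ).val

/-- `Y_ν = X_ν τ(X_ν)^{ℓ-1}`. -/
noncomputable def Yn {R : Type} [CommRing R] (i : k₀ →+* R) (t' : R) (m p : ℕ) [Fact p.Prime]
    [CharP R p] {ℓ : ℕ} (ν : Γ → ZMod ℓ) (F : D.Sz i t' m p) : D.Sz i t' m p :=
  Xn ν F * D.tau i t' m p (Xn ν F) ^ (ℓ - 1)

/-- The reduction of coefficients on the `z`-line along `g : R → R'`. -/
noncomputable def zhom {R R' : Type} [CommRing R] [CommRing R'] (i : k₀ →+* R) (i' : k₀ →+* R')
    (g : R →+* R') (h : g.comp i = i') (t' : R) (t'' : R') (ht : g t' = t'') (m p : ℕ) :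
    D.Sz i t' m p →+* D.Sz i' t'' m p :=
  D.hom (zt i t' m p) (zt i' t'' m p) (mapRingHom g) (by rw [map_zt i i' g h, ht])

end GD

end Pool.Agent.QPC
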