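import Mathlib
import Pool.Agent.QPC.Tab

/-!
# QPC: definitions, part 2 (Laurent series rings used for the gluing)
-/

set_option autoImplicit false

namespace Pool.Agent.QPC

open Polynomial

/-- Coefficientwise ring homomorphism of Laurent series. -/
noncomputable def cL {R R' : Type} [CommRing R] [CommRing R'] (g : R →+* R') :
    LaurentSeries R →+* LaurentSeries R' where
  toFun := fun x => HahnSeries.map x g
  map_one' := by
    ext n
    simp [HahnSeries.coeff_one]
  map_zero' := by ext n; simp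
  map_add' := fun x y => by ext n; simp
  map_mul' := fun x y => by
    ext n
    rw [HahnSeries.map_coeff, HahnSeries.coeff_mul, map_sum, HahnSeries.coeff_mul]
    symm
    have hsub : Finset.antidiagonal (HahnSeries.map x g).isPWO_support
        (HahnSeries.map y g).isPWO_support n ⊆
        Finset.antidiagonal x.isPWO_support y.isPWO_support n := by
      intro ij h
      rw [Finset.mem_antidiagonal] at h ⊢
      refine ⟨fun h1 => h.1 ?_, fun h1 => h.2.1 ?_, h.2.2⟩
      · simp [HahnSeries.map_coeff, h1]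
      · simp [HahnSeries.map_coeff, h1]
    rw [Finset.sum_subset hsub]
    · refine Finset.sum_congr rfl fun ij _ => ?_
      simp [HahnSeries.map_coeff]
    · intro ij h h2
      rw [Finset.mem_antidiagonal] at h h2
      by_cases h3 : (HahnSeries.map x g).coeff ij.1 = 0
      · rw [h3, zero_mul]
      · by_cases h4 : (HahnSeries.map y g).coeff ij.2 = 0
        · rw [h4, mul_zero]
        · exact absurd ⟨h3, h4, h.2.2⟩ h2

theorem cL_coeff {R R' : Type} [CommRing R] [CommRing R'] (g : R →+* R') (x : LaurentSeries R)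
    (n : ℤ) : (cL g x).coeff n = g (x.coeff n) := rfl

/-- The substitution `v ↦ t' (z^p - z)`. -/
noncomputable def vz {k R : Type} [CommRing k] [CommRing R] (j : k →+* R) (t' : R) (p : ℕ) :
    k[X] →+* R[X] :=
  Polynomial.eval₂RingHom (C.comp j) (C t' * (X ^ p - X))

theorem vz_vt {k₀ k R : Type} [CommRing k₀] [CommRing k] [CommRing R] (i : k₀ →+* k)
    (j : k →+* R) (t' : R) (m p : ℕ) : (vz j t' p).comp (vt i m) = zt (j.comp i) t' m p := by
  refine Polynomial.ringHom_ext (fun a => ?_) ?_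
  · simp [vz, vt, zt]
  · simp [vz, vt, zt]

/-- The substitution `X ↦ X^m`. -/
noncomputable def ex (k : Type) [CommRing k] (m : ℕ) : k[X] →+* k[X] :=
  Polynomial.eval₂RingHom C (X ^ m)

theorem ex_map {k₀ k : Type} [CommRing k₀] [CommRing k] (i : k₀ →+* k) (m : ℕ) :
    (ex k m).comp (mapRingHom i) = vt i m := by
  refine Polynomial.ringHom_ext (fun a => ?_) ?_
  · simp [ex, vt]
  · simp [ex, vt]

/-- The substitution `v ↦ w⁻¹` into Laurent series in `w`. -/
noncomputable def vw (k : Type) [CommRing k] : k[X] →+* LaurentSeries k :=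
  Polynomial.eval₂RingHom HahnSeries.C (HahnSeries.single (-1) 1)

/-- The substitution `z ↦ s Y`, from `k((s))[z]` to `k[Y]((s))`. -/
noncomputable def zP (k : Type) [CommRing k] : (LaurentSeries k)[X] →+* LaurentSeries k[X] :=
  Polynomial.eval₂RingHom (cL C) (HahnSeries.single 1 X)

/-- The ring `k[Y']((s))[1/Y']`. -/
abbrev LY (k : Type) [CommRing k] : Type :=
  Localization.Away (HahnSeries.C (X : k[X]) : LaurentSeries k[X])

/-- The substitution `z ↦ s / Y'`, from `k((s))[z]` to `k[Y']((s))[1/Y']`. -/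
noncomputable def zQ (k : Type) [CommRing k] : (LaurentSeries k)[X] →+* LY k :=
  Polynomial.eval₂RingHom ((algebraMap (LaurentSeries k[X]) (LY k)).comp (cL C))
    (algebraMap (LaurentSeries k[X]) (LY k) (HahnSeries.single 1 1) *
      IsLocalization.Away.invSelf (HahnSeries.C (X : k[X]) : LaurentSeries k[X]))

/-- The evaluation of polynomials over `k((s))` at an element of `k[v]((s))`. -/
noncomputable def evz {k : Type} [CommRing k] (ζ : LaurentSeries k[X]) :
    (LaurentSeries k)[X] →+* LaurentSeries k[X] :=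
  Polynomial.eval₂RingHom (cL C) ζ

/-- The parameter `1/t = s^(-2)`. -/
noncomputable def t2 (k : Type) [CommRing k] : LaurentSeries k := HahnSeries.single (-2) 1

/-- The map `k[v] → k((s))[z]`, `v ↦ (z^p - z)/s^2`. -/
noncomputable def vK (k : Type) [CommRing k] (p : ℕ) : k[X] →+* (LaurentSeries k)[X] :=
  vz HahnSeries.C (t2 k) p

/-- The map `k₀[X] → k((s))[z]`, `X ↦ ((z^p - z)/s^2)^m`. -/
noncomputable def fK {k₀ k : Type} [CommRing k₀] [CommRing k] (i : k₀ →+* k) (m p : ℕ) :
    k₀[X] →+* (LaurentSeries k)[X] := (vK k p).comp (vt i m)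

theorem fK_eq {k₀ k : Type} [CommRing k₀] [CommRing k] (i : k₀ →+* k) (m p : ℕ) :
    fK i m p = zt ((HahnSeries.C : k →+* LaurentSeries k).comp i) (t2 k) m p :=
  vz_vt i (HahnSeries.C : k →+* LaurentSeries k) (t2 k) m p

/-- `x : LaurentSeries R` is a power series with constant coefficient `a`. -/
def IsPS {R : Type} [CommRing R] (x : LaurentSeries R) (a : R) : Prop :=
  (∀ n : ℤ, n < 0 → x.coeff n = 0) ∧ x.coeff 0 = a

/-- `ζ` is the root congruent to `j` of `ζ^p - ζ = s^2 v` in `k[v]((s))`. -/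
def IsZeta {k : Type} [CommRing k] (p : ℕ) (j : ℕ) (ζ : LaurentSeries k[X]) : Prop :=
  IsPS ζ (j : k[X]) ∧ ζ ^ p - ζ = HahnSeries.single 2 X

/-- The ring `R[v][z] / (z^p - z - t v)`. -/
abbrev BB (R : Type) [CommRing R] (t : R) (p : ℕ) : Type :=
  AdjoinRoot (X ^ p - X - C (C t * X) : (R[X])[X])

/-- The map `k₀[X] → R[v][z]/(z^p - z - t v)`, `X ↦ v^m`. -/
noncomputable def bt {k₀ R : Type} [CommRing k₀] [CommRing R] (i : k₀ →+* R) (t : R) (m p : ℕ) :
    k₀[X] →+* BB R t p := (AdjoinRoot.of (X ^ p - X - C (C t * X) : (R[X])[X])).comp (vt i m)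

/-- The map `R[v][z]/(z^p - z - t v) → R'[z]`, `v ↦ t' (z^p - z)`, `z ↦ z`, where `g(t) t' = 1`. -/
noncomputable def bz {R R' : Type} [CommRing R] [CommRing R'] (g : R →+* R') (t : R) (t' : R')
    (h : g t * t' = 1) (p : ℕ) : BB R t p →+* R'[X] :=
  AdjoinRoot.lift (vz g t' p) X (by
    simp only [vz, eval₂_sub, eval₂_pow, eval₂_X, eval₂_C, coe_eval₂RingHom, eval₂_mul,
      RingHom.comp_apply]
    rw [← mul_assoc, ← C_mul, h, C_1, one_mul, sub_self])

/-- The reduction `R[v][z]/(z^p - z - t v) → k[v]`, `z ↦ j`, for `g : R → k` with `g t = 0`. -/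
noncomputable def br {R k : Type} [CommRing R] [CommRing k] (g : R →+* k) (t : R) (h : g t = 0)
    (p : ℕ) [Fact p.Prime] [CharP k p] (j : ℕ) : BB R t p →+* k[X] :=
  AdjoinRoot.lift (mapRingHom g) (j : k[X]) (by
    simp only [eval₂_sub, eval₂_pow, eval₂_X, eval₂_C, coe_mapRingHom, Polynomial.map_mul,
      Polynomial.map_C, Polynomial.map_X, h, C_0, zero_mul, sub_zero]
    have h1 : ((j : k) : k) ^ p = j := by
      have h3 : frobenius k p (j : k) = (j : k) := map_natCast (frobenius k p) j
      rwa [frobenius_def] at h3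
    have h2 : ((j : k[X])) ^ p = j := by
      rw [← C_eq_natCast, ← C_pow, h1]
    rw [h2, sub_self])

section infinity

variable (k S : Type) [Field k] [CommRing S] [IsDomain S] [Algebra k[X] S]

/-- The element `w = 1/v` of the fraction field. -/
noncomputable def wF : FractionRing S :=
  (algebraMap S (FractionRing S) (algebraMap k[X] S X))⁻¹

/-- The inclusion of `k` in the fraction field. -/
noncomputable def kin : k →+* FractionRing S :=
  ((algebraMap S (FractionRing S)).comp (algebraMap k[X] S)).comp C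

/-- Polynomials in `w`. -/
noncomputable def evw : k[X] →+* FractionRing S := Polynomial.eval₂RingHom (kin k S) (wF k S)

/-- The local ring `k[w]_(w)`, in the fraction field of `S`. -/
noncomputable def Aw : Subring (FractionRing S) where
  carrier := {y | ∃ P Q : k[X], Q.coeff 0 ≠ 0 ∧ y * evw k S Q = evw k S P}
  mul_mem' := by
    rintro a b ⟨P, Q, hQ, h⟩ ⟨P', Q', hQ', h'⟩
    refine ⟨P * P', Q * Q', ?_, ?_⟩
    · rw [mul_coeff_zero]; exact mul_ne_zero hQ hQ'
    · rw [map_mul, map_mul, ← h, ← h']; ring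
  one_mem' := ⟨1, 1, by simp, by simp⟩
  add_mem' := by
    rintro a b ⟨P, Q, hQ, h⟩ ⟨P', Q', hQ', h'⟩
    refine ⟨P * Q' + P' * Q, Q * Q', ?_, ?_⟩
    · rw [mul_coeff_zero]; exact mul_ne_zero hQ hQ'
    · rw [map_mul, map_add, map_mul, map_mul, ← h, ← h']; ring
  zero_mem' := ⟨0, 1, by simp, by simp⟩
  neg_mem' := by
    rintro a ⟨P, Q, hQ, h⟩
    exact ⟨-P, Q, hQ, by rw [map_neg, ← h]; ring⟩

/-- The semilocal ring at infinity: integral closure of `k[w]_(w)` in the fraction field. -/
noncomputable def Ow : Subring (FractionRing S) :=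
  (integralClosure (Aw k S) (FractionRing S)).toSubring

end infinity

namespace GD

variable {k₀ : Type} [CommRing k₀] {n : ℕ} {Γ : Type} [Group Γ] [Fintype Γ] [DecidableEq Γ]
  (D : GD k₀[X] n Γ)

/-- From the `x`-line to the `v`-line. -/
noncomputable def xv {k : Type} [CommRing k] (i : k₀ →+* k) (m : ℕ) : D.Sx i →+* D.Sv i m :=
  D.hom (mapRingHom i) (vt i m) (ex k m) (ex_map i m)

/-- The basis vectors. -/
def eta {A : Type} [CommRing A] (D : GD A n Γ) (j : Fin n) : D.S := ⟨Pi.single j 1⟩

/-- The algebra over Laurent series in `w = 1/v`. -/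
noncomputable abbrev Sw {k : Type} [CommRing k] (i : k₀ →+* k) (m : ℕ) : Type :=
  (D.map ((vw k).comp (vt i m))).S

/-- From the `v`-line to `k((w))`. -/
noncomputable def vwS {k : Type} [CommRing k] (i : k₀ →+* k) (m : ℕ) : D.Sv i m →+* D.Sw i m :=
  D.hom (vt i m) ((vw k).comp (vt i m)) (vw k) rfl

/-- `x : S` over Laurent series has multiplication matrix congruent to zero modulo the variable. -/
def Small {R : Type} [CommRing R] {D' : GD (LaurentSeries R) n Γ} (x : D'.S) : Prop :=
  ∀ (j l : Fin n) (a : ℤ), a ≤ 0 → ((x * D'.eta j).co l).coeff a = 0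

/-- The algebra on the `z`-line over `k((s))`, `t = s^2`. -/
noncomputable abbrev SK {k : Type} [CommRing k] (i : k₀ →+* k) (m p : ℕ) : Type :=
  (D.map (fK i m p)).S

/-- From the `v`-line to the `z`-line over `k((s))`. -/
noncomputable def vK' {k : Type} [CommRing k] (i : k₀ →+* k) (m p : ℕ) :
    D.Sv i m →+* D.SK i m p :=
  D.hom (vt i m) (fK i m p) (vK k p) rfl

/-- Base change of the `z`-line over `k((s))` along any ring homomorphism. -/
noncomputable def Kto {k R : Type} [CommRing k] [CommRing R] (i : k₀ →+* k) (m p : ℕ)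
    (g : (LaurentSeries k)[X] →+* R) : D.SK i m p →+* (D.map (g.comp (fK i m p))).S :=
  D.hom (fK i m p) (g.comp (fK i m p)) g rfl

/-- Condition: not an `ℓ`-th power up to `ℓ`-th powers, for all non-constant exponents. -/
def NT {R : Type} [CommRing R] {D' : GD R n Γ} (ℓ : ℕ) (F : D'.S) : Prop :=
  ∀ ν : Γ → ZMod ℓ, (¬ ∃ c, ∀ γ, ν γ = c) → ∀ a h : D'.S, a ≠ 0 → a ^ ℓ * Xn ν F ≠ h ^ ℓ

end GD

end Pool.Agent.QPC
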