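import Mathlib
import Pool.Agent.QPC.Defs

/-!
# QPC: the literal notion of realisation over the affine line
-/

set_option autoImplicit false

namespace Pool.Agent.QPC

open Polynomial

/-- `G` is the Galois group of a cover of the affine line over `F_p`, unramified over the affine
line, such that the elements of `p`-power order of the Galois group fix the constants. -/
def RealAff (p : ℕ) [Fact p.Prime] (G : Type) [Group G] : Prop :=
  ∃ (L : Type) (_ : Field L) (_ : Algebra (RatFunc (ZMod p)) L)
    (_ : Algebra (Polynomial (ZMod p)) L)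
    (_ : IsScalarTower (Polynomial (ZMod p)) (RatFunc (ZMod p)) L)
    (_ : FiniteDimensional (RatFunc (ZMod p)) L) (_ : IsGalois (RatFunc (ZMod p)) L),
    Nonempty ((L ≃ₐ[RatFunc (ZMod p)] L) ≃* G) ∧
    (∀ (q : Ideal (integralClosure (Polynomial (ZMod p)) L)) (_ : q.IsPrime),
      Algebra.IsUnramifiedAt (Polynomial (ZMod p)) q) ∧
    ∀ σ : L ≃ₐ[RatFunc (ZMod p)] L, (∃ r : ℕ, σ ^ p ^ r = 1) →
      ∀ (a : L) (s : ℕ), 0 < s → a ^ p ^ s = a → σ a = a

end Pool.Agent.QPC
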