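import Mathlib
import Pool.Agent.QPC.Defs
import Pool.Agent.QPC.F5

/-!
# QPC row F7: from an admissible homomorphism to the literal conclusion of the problem
Plan. `IsGalois (RatFunc (ZMod p)) Ω`. Let `L := IntermediateField.fixedField ρ.ker`; `ρ.ker` is open and normal (it contains the fixing
subgroup of the finite extension generated by `T`), so `L` is finite Galois and `Gal(L) ≃* GG ⧸ ρ.ker ≃* H` (`InfiniteGalois.normalAutEquivQuotient`, `QuotientGroup.quotientKerEquivOfSurjective`).
The algebra `(ZMod p)[X] → L` is the composition with `RatFunc` (scalar tower). Let `B := integralClosure (ZMod p)[X] L`, `A := (ZMod p)[X]`; its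
elements map to `Zf p Ω ρ` and conversely every element of `Zf` comes from `B`. From `F5` get `x_i, y_i ∈ B` with `∑ x_i y_i = 1`, `∑ x_i σ(y_i) = 0` for `σ ≠ 1` in `Gal(L)`.
`B` is a finite `A`-module (`IsIntegralClosure.finite`, separable, `A` integrally closed Noetherian). Unramified: by `Algebra.FormallyUnramified.iff_exists_tensorProduct` it is enough to take
`t := ∑ y_i ⊗ x_i ∈ B ⊗[A] B`: `lmul' t = 1`; and `(1 ⊗ a - a ⊗ 1) t = 0` because `a x_i = ∑_k Tr(y_k a x_i) x_k` and `∑_i Tr(x_i s) y_i = s` with `Tr b := ∑_σ σ b ∈ A`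
(`Algebra.trace` or directly: an element of `B` fixed by all `σ` is in `A` since `A` is integrally closed). Reproducing formulas: `s = ∑_σ (∑_i x_i σ(y_i)) σ(s) = ∑_i x_i Tr(y_i s)`, and, applying `σ⁻¹`,
`∑_i y_i σ(x_i) = δ`. Then `Algebra.IsUnramifiedAt A q` (formally unramified localization) follows from `Algebra.FormallyUnramified A B` (localization of formally unramified is formally unramified, composition).
-/

set_option autoImplicit false

namespace Pool.Agent.QPC

open Polynomial

/-- a criterion for formally unramified extensions -/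
theorem f7_crit {A B : Type} [CommRing A] [CommRing B] [Algebra A B] {G : Type} [Fintype G]
    (e : G) (act : G → B →+* B) (he : ∀ b, act e b = b)
    (hfix : ∀ b : B, ∃ a : A, algebraMap A B a = ∑ σ, act σ b) {N : ℕ} (x y : Fin N → B)
    (hxy : ∑ i, x i * y i = 1) (hσ : ∀ σ, σ ≠ e → ∑ i, x i * act σ (y i) = 0) :
    Algebra.FormallyUnramified A B := by
  classical
  have hd : ∀ σ, ∑ i, x i * act σ (y i) = if σ = e then 1 else 0 := by
    intro σ
    split_ifs with h
    · rw [h, ← hxy]
      exact Finset.sum_congr rfl fun i _ => by rw [he]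
    · exact hσ σ h
  have hrep : ∀ s : B, s = ∑ i, (∑ σ, act σ (y i * s)) * x i := by
    intro s
    have e1 : ∑ σ, (∑ i, x i * act σ (y i)) * act σ s = s := by
      simp_rw [hd, ite_mul, one_mul, zero_mul]
      rw [Finset.sum_ite_eq' Finset.univ e, if_pos (Finset.mem_univ _), he]
    conv_lhs => rw [← e1]
    simp_rw [Finset.sum_mul]
    rw [Finset.sum_comm]
    refine Finset.sum_congr rfl fun i _ => Finset.sum_congr rfl fun σ _ => ?_
    rw [map_mul]
    ring
  have hinv : ∀ b, KaehlerDifferential.D A B (∑ σ, act σ b) = 0 := by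
    intro b
    obtain ⟨a, ha⟩ := hfix b
    rw [← ha]
    exact (KaehlerDifferential.D A B).map_algebraMap a
  obtain ⟨ω, hω⟩ : ∃ ω : G → KaehlerDifferential A B,
    ω = fun σ => ∑ i, act σ (y i) • KaehlerDifferential.D A B (x i) := ⟨_, rfl⟩
  have hD : ∀ s, KaehlerDifferential.D A B s = ∑ σ, act σ s • ω σ := by
    intro s
    conv_lhs => rw [hrep s]
    rw [map_sum]
    have e1 : ∀ i, KaehlerDifferential.D A B ((∑ σ, act σ (y i * s)) * x i) =
        ∑ σ, act σ s • (act σ (y i) • KaehlerDifferential.D A B (x i)) := by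
      intro i
      rw [Derivation.leibniz, hinv, smul_zero, add_zero, Finset.sum_smul]
      refine Finset.sum_congr rfl fun σ _ => ?_
      rw [map_mul, smul_smul, mul_comm]
    simp_rw [e1]
    rw [Finset.sum_comm]
    refine Finset.sum_congr rfl fun σ _ => ?_
    rw [← Finset.smul_sum, hω]
  have h1 : ∀ t, ∑ i, x i • KaehlerDifferential.D A B (y i * t) = t • ω e := by
    intro t
    have e1 : ∀ i, x i • KaehlerDifferential.D A B (y i * t) =
        ∑ σ, (x i * act σ (y i) * act σ t) • ω σ := by
      intro i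
      rw [hD, Finset.smul_sum]
      refine Finset.sum_congr rfl fun σ _ => ?_
      rw [smul_smul, map_mul, mul_assoc]
    simp_rw [e1]
    rw [Finset.sum_comm]
    have e2 : ∀ σ, ∑ i, (x i * act σ (y i) * act σ t) • ω σ =
        if σ = e then t • ω e else 0 := by
      intro σ
      rw [← Finset.sum_smul, ← Finset.sum_mul, hd]
      split_ifs with h
      · rw [h, one_mul, he]
      · rw [zero_mul, zero_smul]
    simp_rw [e2]
    rw [Finset.sum_ite_eq' Finset.univ e, if_pos (Finset.mem_univ _)]
  have h2 : ∀ t, KaehlerDifferential.D A B t = 0 := by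
    intro t
    have h3 := h1 t
    have h4 := h1 1
    rw [one_smul] at h4
    simp_rw [mul_one] at h4
    have h5 : ∑ i, x i • KaehlerDifferential.D A B (y i * t) =
        KaehlerDifferential.D A B t + t • ω e := by
      simp_rw [Derivation.leibniz, smul_add, Finset.sum_add_distrib]
      congr 1
      · simp_rw [smul_smul]
        rw [← Finset.sum_smul, hxy, one_smul]
      · rw [← h4, Finset.smul_sum]
        refine Finset.sum_congr rfl fun i _ => ?_
        rw [smul_comm]
    rw [h5] at h3
    simpa using h3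
  rw [Algebra.formallyUnramified_iff]
  have h3 : (⊤ : Submodule B (KaehlerDifferential A B)) = ⊥ := by
    rw [← KaehlerDifferential.span_range_derivation, Submodule.span_eq_bot]
    rintro _ ⟨t, rfl⟩
    exact h2 t
  exact (Submodule.subsingleton_iff B).mp (subsingleton_iff_bot_eq_top.mp h3.symm)

/-- the criterion for a Galois extension -/
theorem f7_gal (A K L : Type) [CommRing A] [IsDomain A] [IsIntegrallyClosed A] [Field K] [Field L]
    [Algebra A K] [IsFractionRing A K] [Algebra K L] [Algebra A L] [IsScalarTower A K L]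
    [FiniteDimensional K L] [IsGalois K L] {N : ℕ} (x y : Fin N → integralClosure A L)
    (hxy : ∑ i, (x i : L) * (y i : L) = 1)
    (hσ : ∀ σ : L ≃ₐ[K] L, σ ≠ 1 → ∑ i, (x i : L) * σ (y i : L) = 0) :
    Algebra.FormallyUnramified A (integralClosure A L) := by
  classical
  have hact : ∀ (σ : L ≃ₐ[K] L) (b : integralClosure A L),
      ((galRestrict A K L (integralClosure A L) σ b : integralClosure A L) : L) = σ (b : L) := by
    intro σ b
    exact algebraMap_galRestrict_apply A σ b
  refine f7_crit (G := L ≃ₐ[K] L) 1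
    (fun σ => ((galRestrict A K L (integralClosure A L) σ :
      integralClosure A L ≃ₐ[A] integralClosure A L) : integralClosure A L →+* _)) ?_ ?_ x y ?_ ?_
  · intro b
    apply Subtype.ext
    exact hact 1 b
  · intro b
    have hb : IsIntegral A (Algebra.trace K L (b : L)) := Algebra.isIntegral_trace b.2
    obtain ⟨a, ha⟩ := IsIntegrallyClosed.isIntegral_iff.mp hb
    refine ⟨a, ?_⟩
    apply Subtype.ext
    have h1 : ((algebraMap A (integralClosure A L) a : integralClosure A L) : L) =
        algebraMap K L (Algebra.trace K L (b : L)) := by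
      rw [← ha, ← IsScalarTower.algebraMap_apply]
      rfl
    rw [h1, trace_eq_sum_automorphisms, AddSubmonoidClass.coe_finsetSum]
    exact Finset.sum_congr rfl fun σ _ => (hact σ b).symm
  · apply Subtype.ext
    rw [AddSubmonoidClass.coe_finsetSum]
    exact hxy
  · intro σ h
    apply Subtype.ext
    rw [AddSubmonoidClass.coe_finsetSum]
    refine (Finset.sum_congr rfl fun i _ => ?_).trans (hσ σ h)
    change (x i : L) * ((galRestrict A K L (integralClosure A L) σ (y i) :
      integralClosure A L) : L) = _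
    rw [hact]

variable (p : ℕ) [Fact p.Prime] (Ω : Type) [Field Ω] [Algebra (RatFunc (ZMod p)) Ω]
  [IsSepClosed Ω] [Algebra.IsSeparable (RatFunc (ZMod p)) Ω]

theorem F7 {H : Type} [Group H] [Finite H] (ρ : GG p Ω →* H) (hρ : Ad p Ω ρ)
    (hs : Function.Surjective ρ) :
    ∃ (L : Type) (_ : Field L) (_ : Algebra (RatFunc (ZMod p)) L)
      (_ : Algebra (Polynomial (ZMod p)) L)
      (_ : IsScalarTower (Polynomial (ZMod p)) (RatFunc (ZMod p)) L)
      (_ : FiniteDimensional (RatFunc (ZMod p)) L) (_ : IsGalois (RatFunc (ZMod p)) L),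
      Nonempty ((L ≃ₐ[RatFunc (ZMod p)] L) ≃* H) ∧
      ∀ (q : Ideal (integralClosure (Polynomial (ZMod p)) L)) (_ : q.IsPrime),
        Algebra.IsUnramifiedAt (Polynomial (ZMod p)) q := by
  have : IsSepClosure (RatFunc (ZMod p)) Ω := ⟨inferInstance, inferInstance⟩
  have : IsGalois (RatFunc (ZMod p)) Ω := inferInstance
  obtain ⟨T, hT⟩ := hρ.fin
  have hE : FiniteDimensional (RatFunc (ZMod p))
      (IntermediateField.adjoin (RatFunc (ZMod p)) (T : Set Ω)) :=
    IntermediateField.finiteDimensional_adjoin fun t _ =>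
      (Algebra.IsSeparable.isSeparable (RatFunc (ZMod p)) t).isIntegral
  have hle : (IntermediateField.adjoin (RatFunc (ZMod p)) (T : Set Ω)).fixingSubgroup ≤ ρ.ker := by
    intro g hg
    rw [MonoidHom.mem_ker]
    apply hT
    intro t ht
    rw [IntermediateField.mem_fixingSubgroup_iff] at hg
    exact hg t (IntermediateField.subset_adjoin _ _ ht)
  have hopen : IsOpen (ρ.ker : Set (GG p Ω)) :=
    Subgroup.isOpen_mono hle (IntermediateField.fixingSubgroup_isOpen _)
  have hclosed : IsClosed (ρ.ker : Set (GG p Ω)) := Subgroup.isClosed_of_isOpen _ hopen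
  obtain ⟨L, hL⟩ : ∃ L : IntermediateField (RatFunc (ZMod p)) Ω,
    L = IntermediateField.fixedField ρ.ker := ⟨_, rfl⟩
  have hfix : L.fixingSubgroup = ρ.ker := by
    rw [hL]
    exact InfiniteGalois.fixingSubgroup_fixedField ⟨ρ.ker, hclosed⟩
  obtain ⟨hfin, hgal⟩ := (InfiniteGalois.isOpen_and_normal_iff_finite_and_isGalois L).mp (by
    constructor
    · rw [hfix]; exact hopen
    · rw [hfix]; exact MonoidHom.normal_ker ρ)
  have hiso : Nonempty ((L ≃ₐ[RatFunc (ZMod p)] L) ≃* H) := by
    have : (⟨ρ.ker, hclosed⟩ : ClosedSubgroup (GG p Ω)).Normal := MonoidHom.normal_ker ρ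
    subst hL
    exact ⟨(InfiniteGalois.normalAutEquivQuotient ⟨ρ.ker, hclosed⟩).symm.trans
      (QuotientGroup.quotientKerEquivOfSurjective ρ hs)⟩
  let algL : Algebra (Polynomial (ZMod p)) L :=
    ((algebraMap (RatFunc (ZMod p)) L).comp (algebraMap (Polynomial (ZMod p))
      (RatFunc (ZMod p)))).toAlgebra
  have tow : IsScalarTower (Polynomial (ZMod p)) (RatFunc (ZMod p)) L :=
    IsScalarTower.of_algebraMap_eq' rfl
  refine ⟨L, inferInstance, inferInstance, algL, tow, hfin, hgal, hiso, ?_⟩
  obtain ⟨N, x, y, hx, hy, hxy, hg⟩ := F5 p Ω ρ hρ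
  have hmem : ∀ z ∈ Zf p Ω ρ, z ∈ L := by
    intro z hz
    rw [hL, IntermediateField.mem_fixedField_iff]
    intro g hg
    exact hz.2 g hg
  have hint : ∀ (z : Ω) (hz : z ∈ Zf p Ω ρ),
      (⟨z, hmem z hz⟩ : L) ∈ integralClosure (Polynomial (ZMod p)) L := by
    intro z hz
    obtain ⟨P, hP, hPz⟩ := hz.1
    refine ⟨P, hP, ?_⟩
    apply (algebraMap L Ω).injective
    rw [Polynomial.hom_eval₂, map_zero]
    exact hPz
  have hB : Algebra.FormallyUnramified (Polynomial (ZMod p))
      (integralClosure (Polynomial (ZMod p)) L) := by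
    refine f7_gal (Polynomial (ZMod p)) (RatFunc (ZMod p)) L
      (fun i => ⟨⟨x i, hmem _ (hx i)⟩, hint _ (hx i)⟩)
      (fun i => ⟨⟨y i, hmem _ (hy i)⟩, hint _ (hy i)⟩) ?_ ?_
    · apply Subtype.ext
      rw [AddSubmonoidClass.coe_finsetSum]
      exact hxy
    · intro σ hσ
      obtain ⟨g, hgσ⟩ := AlgEquiv.restrictNormalHom_surjective (F := RatFunc (ZMod p)) (K₁ := L)
        Ω σ
      have hcomm : ∀ z : L, ((σ z : L) : Ω) = g (z : Ω) := by
        intro z
        rw [← hgσ]
        exact AlgEquiv.restrictNormal_commutes g L z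
      have hgne : ρ g ≠ 1 := by
        intro h1
        apply hσ
        ext z
        rw [hcomm]
        have h2 : g ∈ L.fixingSubgroup := by
          rw [hfix]
          exact h1
        rw [IntermediateField.mem_fixingSubgroup_iff] at h2
        exact h2 z z.2
      apply Subtype.ext
      rw [AddSubmonoidClass.coe_finsetSum]
      refine (Finset.sum_congr rfl fun i _ => ?_).trans (hg g hgne)
      change x i * ((σ (⟨y i, hmem _ (hy i)⟩ : L) : L) : Ω) = _
      rw [hcomm]
  intro q hq
  exact Algebra.formallyUnramified_iff_forall.mp hB ⟨q, hq⟩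

end Pool.Agent.QPC
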