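import Mathlib
import Pool.Agent.QPC.Defs
import Pool.Agent.QPC.F1

/-!
# QPC row F9: cyclic groups of order prime to p are realised by constants
Plan. `n := Nat.card C`, prime to `p`, `n > 0`. `K := {a : Ω | a^(p^n) = a}` is a finite subfield with `p^n` elements (`Ω` is separably closed
and `T^(p^n) - T` is separable). Let `a0` be a generator of the group `K*`. For `g : GG p Ω` there is a unique `j mod n` with `g a = a^(p^j)` for all `a ∈ K`
(automorphisms of a finite field are powers of Frobenius). This gives a hom `GG → Multiplicative (ZMod n) ≃* C`. Open kernel: `T := {a0}`. Inert elements fix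
every constant: `c ∈ Z`, `g c - c ∈ q` and `g c - c` is a constant; a non-zero constant is a unit of `Z` (its inverse is a constant). Surjective: the Frobenius of `K` extends to an
automorphism of `K(X)` over `F_p(X)` (as `K` and `F_p(X)` are linearly disjoint over `F_p`: for instance, the minimal polynomial of `a0` over `F_p` stays irreducible over `F_p(X)` because a monic factor has
coefficients which are constants of `RatFunc (ZMod p)`, that is elements of `F_p`), so there is `g` with `g a0 = a0^p` (`IsGalois`/normal: conjugate elements,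
`minpoly` over `RatFunc (ZMod p)`). `pel`: an element of `C` of `p`-power order is `1`.
-/

set_option autoImplicit false

namespace Pool.Agent.QPC

open Polynomial

variable (p : ℕ) [Fact p.Prime] (Ω : Type) [Field Ω] [Algebra (RatFunc (ZMod p)) Ω]
  [IsSepClosed Ω] [Algebra.IsSeparable (RatFunc (ZMod p)) Ω]

private theorem f9_galois : IsGalois (RatFunc (ZMod p)) Ω := by
  have h : IsSepClosure (RatFunc (ZMod p)) Ω := ⟨inferInstance, inferInstance⟩
  exact IsSepClosure.isGalois

omit [IsSepClosed Ω] [Algebra.IsSeparable (RatFunc (ZMod p)) Ω] in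
private theorem f9_inert (g : GG p Ω) (hg : Inert g) (a : Ω) (ha : a ∈ kF p Ω) : g a = a := by
  have hZ : ∀ b : Ω, b ∈ kF p Ω → b ∈ Zr p Ω := by
    rintro b ⟨r, hr, hb⟩
    refine ⟨X ^ p ^ r - X, ?_, ?_⟩
    · refine monic_X_pow_sub ?_
      rw [degree_X]
      have : 1 < p ^ r := Nat.one_lt_pow hr.ne' (Fact.out : p.Prime).one_lt
      exact_mod_cast this
    · rw [eval₂_sub, eval₂_pow, eval₂_X, hb, sub_self]
  obtain ⟨q, hq, h⟩ := hg
  obtain ⟨c, hc, hc'⟩ := h ⟨a, hZ a ha⟩
  have h1 : g a - a ∈ kF p Ω := sub_mem (gal_kk g ha) ha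
  by_contra hne
  have h2 : g a - a ≠ 0 := sub_ne_zero.mpr hne
  have h3 : (g a - a)⁻¹ ∈ Zr p Ω := hZ _ (inv_mem h1)
  apply hq.ne_top
  rw [Ideal.eq_top_iff_one]
  have h4 : (1 : Zr p Ω) = ⟨(g a - a)⁻¹, h3⟩ * c := by
    apply Subtype.ext
    change (1 : Ω) = (g a - a)⁻¹ * (c : Ω)
    rw [hc']
    exact (inv_mul_cancel₀ h2).symm
  rw [h4]
  exact Ideal.mul_mem_left _ _ hc

private theorem f9_const (f : RatFunc (ZMod p)) (n : ℕ) (hn : n ≠ 0) (h : f ^ p ^ n = f) :
    ∃ c : ZMod p, f = algebraMap (ZMod p) (RatFunc (ZMod p)) c := by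
  have hp : 1 < p ^ n := Nat.one_lt_pow hn (Fact.out : p.Prime).one_lt
  have h1 : IsIntegral (ZMod p)[X] f := by
    refine ⟨X ^ p ^ n - X, ?_, ?_⟩
    · refine monic_X_pow_sub ?_
      rw [degree_X]
      exact_mod_cast hp
    · rw [eval₂_sub, eval₂_pow, eval₂_X, h, sub_self]
  obtain ⟨P, hP⟩ := IsIntegrallyClosed.isIntegral_iff.mp h1
  have h2 : P ^ p ^ n = P := by
    apply IsFractionRing.injective (ZMod p)[X] (RatFunc (ZMod p))
    rw [map_pow, hP, h]
  have h3 : P.natDegree = 0 := by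
    have h4 := congrArg natDegree h2
    rw [natDegree_pow] at h4
    by_contra h5
    have h6 : P.natDegree < p ^ n * P.natDegree :=
      lt_mul_of_one_lt_left (Nat.pos_of_ne_zero h5) hp
    omega
  obtain ⟨c, hc⟩ := natDegree_eq_zero.mp h3
  refine ⟨c, ?_⟩
  rw [← hP, ← hc]
  rfl

private theorem f9_pow (n : ℕ) (hn : n ≠ 0) (a : GaloisField p n) : a ^ p ^ n = a := by
  have := Fintype.ofFinite (GaloisField p n)
  have h3 := FiniteField.pow_card a
  rwa [← Nat.card_eq_fintype_card, GaloisField.card p n hn] at h3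

private theorem f9_main (n : ℕ) (hn : n ≠ 0) :
    ∃ (ρ0 : GG p Ω →* (GaloisField p n ≃ₐ[ZMod p] GaloisField p n)) (ι : GaloisField p n →+* Ω),
      (∀ g a, ι (ρ0 g a) = g (ι a)) ∧ Function.Surjective ρ0 := by
  let _ : Algebra (ZMod p) Ω := ((algebraMap (RatFunc (ZMod p)) Ω).comp
    (algebraMap (ZMod p) (RatFunc (ZMod p)))).toAlgebra
  have : IsScalarTower (ZMod p) (RatFunc (ZMod p)) Ω := IsScalarTower.of_algebraMap_eq fun _ => rfl
  let ι : GaloisField p n →ₐ[ZMod p] Ω := IsSepClosed.lift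
  let _ : Algebra (GaloisField p n) Ω := ι.toRingHom.toAlgebra
  have : IsScalarTower (ZMod p) (GaloisField p n) Ω :=
    IsScalarTower.of_algebraMap_eq fun x => (ι.commutes x).symm
  let ρ0 : GG p Ω →* (GaloisField p n ≃ₐ[ZMod p] GaloisField p n) :=
    (AlgEquiv.restrictNormalHom (GaloisField p n)).comp
      (AlgEquiv.restrictScalarsHom (ZMod p))
  have hρ : ∀ g a, ι (ρ0 g a) = g (ι a) := fun g a =>
    AlgEquiv.restrictNormal_commutes (AlgEquiv.restrictScalars (ZMod p) g) (GaloisField p n) a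
  refine ⟨ρ0, ι.toRingHom, hρ, ?_⟩
  rw [← MonoidHom.range_eq_top]
  have hfin : FiniteDimensional (ZMod p) (GaloisField p n) := inferInstance
  rw [← IntermediateField.fixingSubgroup_fixedField ρ0.range]
  have hbot : IntermediateField.fixedField ρ0.range = ⊥ := by
    rw [eq_bot_iff]
    intro a ha
    rw [IntermediateField.mem_fixedField_iff] at ha
    have h1 : ∀ g : GG p Ω, g (ι a) = ι a := by
      intro g
      rw [← hρ, ha _ ⟨g, rfl⟩]
    have := f9_galois p Ω
    obtain ⟨f, hf⟩ := (InfiniteGalois.mem_range_algebraMap_iff_fixed (k := RatFunc (ZMod p))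
      (ι a)).mpr h1
    have h2 : a ^ p ^ n = a := f9_pow p n hn a
    have h4 : f ^ p ^ n = f := by
      apply (algebraMap (RatFunc (ZMod p)) Ω).injective
      rw [map_pow, hf, ← map_pow, h2]
    obtain ⟨c, hc⟩ := f9_const p f n hn h4
    rw [IntermediateField.mem_bot]
    refine ⟨c, ?_⟩
    apply ι.toRingHom.injective
    change ι (algebraMap (ZMod p) (GaloisField p n) c) = ι a
    rw [ι.commutes, ← hf, hc]
    rfl
  rw [hbot]
  exact IntermediateField.fixingSubgroup_bot

theorem F9 (C : Type) [Group C] [Finite C] (hc : IsCyclic C) (hp : ¬ p ∣ Nat.card C) :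
    R p Ω C := by
  classical
  have hn : Nat.card C ≠ 0 := Nat.card_pos.ne'
  obtain ⟨ρ0, ι, hι, hs⟩ := f9_main p Ω (Nat.card C) hn
  have hcard : Nat.card (GaloisField p (Nat.card C) ≃ₐ[ZMod p] GaloisField p (Nat.card C)) =
      Nat.card C := by
    rw [IsGalois.card_aut_eq_finrank, GaloisField.finrank p hn]
  let e : (GaloisField p (Nat.card C) ≃ₐ[ZMod p] GaloisField p (Nat.card C)) ≃* C :=
    mulEquivOfCyclicCardEq hcard
  have hone : ∀ g : GG p Ω, (∀ a, g (ι a) = ι a) → e (ρ0 g) = 1 := by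
    intro g hg
    have h1 : ρ0 g = 1 := by
      apply AlgEquiv.ext
      intro a
      apply ι.injective
      rw [hι, hg]
      rfl
    rw [h1, map_one]
  refine ⟨e.toMonoidHom.comp ρ0, ⟨⟨?_, ?_⟩, ?_, ?_⟩⟩
  · have := Fintype.ofFinite (GaloisField p (Nat.card C))
    refine ⟨Finset.univ.image ι, fun g hg => hone g fun a => ?_⟩
    exact hg _ (Finset.mem_image_of_mem _ (Finset.mem_univ a))
  · intro g hg
    refine hone g fun a => f9_inert p Ω g hg _ ?_
    refine ⟨Nat.card C, Nat.pos_of_ne_zero hn, ?_⟩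
    rw [← map_pow, f9_pow p _ hn a]
  · exact e.surjective.comp hs
  · rintro a ⟨r, hr⟩
    have h1 : a = 1 := by
      rw [← orderOf_eq_one_iff]
      have h2 : orderOf a ∣ p ^ r := orderOf_dvd_of_pow_eq_one hr
      have h3 : orderOf a ∣ Nat.card C := orderOf_dvd_natCard a
      have h4 : Nat.Coprime (p ^ r) (Nat.card C) :=
        Nat.Coprime.pow_left r ((Nat.Prime.coprime_iff_not_dvd (Fact.out : p.Prime)).mpr hp)
      exact Nat.eq_one_of_dvd_coprimes h4 h2 h3
    refine ⟨1, fun a _ => rfl, ?_⟩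
    rw [h1, map_one]

end Pool.Agent.QPC
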