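import Mathlib
import Pool.Agent.QPC.Defs
import Pool.Agent.QPC.Defs4
import Pool.Agent.QPC.F1
import Pool.Agent.QPC.F11

/-!
# QPC row K2: finitely many constants control the rest
Plan. `IsGalois (RatFunc (ZMod p)) Ω`. `K2a`: for each of the finitely many elements `y = eta a`. Let `U := {g | ρb g = 1}` (open, so closed subgroup; `L := IntermediateField.fixedField U` is finite over `RatFunc (ZMod p)`, `fixingSubgroup L = U`), `K1 := IntermediateField.adjoin _ (kk p Ω)`; the geometric elements are `fixingSubgroup K1`. `y` is fixed by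
`fixingSubgroup (L ⊔ K1)`, so `y ∈ L ⊔ K1` (`InfiniteGalois.fixedField_fixingSubgroup`), so `y ∈ L ⊔ adjoin (finite subset of kk)` (compactness: `IntermediateField.exists_finset_of_mem_adjoin`/`exists_finset_of_mem_iSup`). Take all these constants.
`K2b`: `D := {g | ∃ g' geometric, ρb g' = ρb g}` is a subgroup containing `ker ρb`, so it is open and closed; its fixed field `F` is finite over `RatFunc (ZMod p)`, `fixingSubgroup F = D`; `F` is fixed by the geometric elements, so (`F11b`) its elements are quotients `inck P / inck Q`; take the coefficients of `P, Q` for a finite set of generators of `F` (every element of `F` or a basis). If `g` fixes these constants it fixes `F` (`g xx = xx`), so `g ∈ D`.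
-/

set_option autoImplicit false

namespace Pool.Agent.QPC

open Polynomial

variable (p : ℕ) [Fact p.Prime] (Ω : Type) [Field Ω] [Algebra (RatFunc (ZMod p)) Ω]
  [IsSepClosed Ω] [Algebra.IsSeparable (RatFunc (ZMod p)) Ω]

omit [IsSepClosed Ω] in
theorem k2_open (H : Subgroup (GG p Ω)) (T : Finset Ω)
    (hT : ∀ g : GG p Ω, (∀ t ∈ T, g t = t) → g ∈ H) : IsOpen (H : Set (GG p Ω)) := by
  have hfd : FiniteDimensional (RatFunc (ZMod p))
      (IntermediateField.adjoin (RatFunc (ZMod p)) (T : Set Ω)) :=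
    IntermediateField.finiteDimensional_adjoin fun x _ =>
      (Algebra.IsSeparable.isSeparable (RatFunc (ZMod p)) x).isIntegral
  refine Subgroup.isOpen_mono (H₁ := (IntermediateField.adjoin (RatFunc (ZMod p))
    (T : Set Ω)).fixingSubgroup) ?_ (IntermediateField.fixingSubgroup_isOpen _)
  intro g hg
  refine hT g fun t ht => ?_
  exact (IntermediateField.mem_fixingSubgroup_iff _ g).1 hg t
    (IntermediateField.subset_adjoin _ _ ht)

theorem k2_gal : IsGalois (RatFunc (ZMod p)) Ω := by
  have : IsSepClosure (RatFunc (ZMod p)) Ω := ⟨inferInstance, inferInstance⟩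
  infer_instance

theorem k2_fix (H : Subgroup (GG p Ω)) (T : Finset Ω)
    (hT : ∀ g : GG p Ω, (∀ t ∈ T, g t = t) → g ∈ H) :
    (IntermediateField.fixedField H).fixingSubgroup = H := by
  have := k2_gal p Ω
  have hc : IsClosed (H : Set (GG p Ω)) := Subgroup.isClosed_of_isOpen _ (k2_open p Ω H T hT)
  exact InfiniteGalois.fixingSubgroup_fixedField (⟨H, hc⟩ : ClosedSubgroup (GG p Ω))

variable {Hb : Type} [Group Hb] (ρb : GG p Ω →* Hb)

theorem K2a (hρ : Ad p Ω ρb) (y : Ω) (hy : y ∈ Zg p Ω ρb) :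
    ∃ E : Finset (kF p Ω), ∀ g : GG p Ω, (∀ x ∈ E, g (x : Ω) = x) → ρb g = 1 → g y = y := by
  classical
  have := k2_gal p Ω
  obtain ⟨T, hT⟩ := hρ.fin
  have hU := k2_fix p Ω ρb.ker T fun g hg => hT g hg
  have hmem : y ∈ IntermediateField.adjoin (RatFunc (ZMod p))
      ((IntermediateField.fixedField ρb.ker : Set Ω) ∪ kk p Ω) := by
    rw [← InfiniteGalois.fixedField_fixingSubgroup (IntermediateField.adjoin (RatFunc (ZMod p))
      ((IntermediateField.fixedField ρb.ker : Set Ω) ∪ kk p Ω))]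
    rw [IntermediateField.mem_fixedField_iff]
    intro g hg
    rw [IntermediateField.mem_fixingSubgroup_iff] at hg
    refine hy.2 g (fun a ha => hg a (IntermediateField.subset_adjoin _ _ (Or.inr ha))) ?_
    have h1 : g ∈ (IntermediateField.fixedField ρb.ker).fixingSubgroup := by
      rw [IntermediateField.mem_fixingSubgroup_iff]
      exact fun a ha => hg a (IntermediateField.subset_adjoin _ _ (Or.inl ha))
    rw [hU] at h1
    exact h1
  obtain ⟨S, hS, hyS⟩ := IntermediateField.exists_finset_of_mem_adjoin hmem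
  refine ⟨(S.filter (· ∈ kk p Ω)).attach.image fun x =>
    (⟨x.1, (Finset.mem_filter.1 x.2).2⟩ : kF p Ω), fun g hg hg1 => ?_⟩
  have h2 : g ∈ (IntermediateField.fixedField ρb.ker).fixingSubgroup := by
    rw [hU]; exact hg1
  rw [IntermediateField.mem_fixingSubgroup_iff] at h2
  have h3 : ∀ x ∈ S, g x = x := by
    intro x hx
    rcases hS hx with h | h
    · exact h2 x h
    · have hx' : x ∈ S.filter (· ∈ kk p Ω) := Finset.mem_filter.2 ⟨hx, h⟩
      exact hg ⟨x, h⟩ (Finset.mem_image.2 ⟨⟨x, hx'⟩, Finset.mem_attach _ _, rfl⟩)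
  have h4 : IntermediateField.adjoin (RatFunc (ZMod p)) (S : Set Ω) ≤
      IntermediateField.fixedField (Subgroup.zpowers g) := by
    rw [IntermediateField.adjoin_le_iff]
    intro x hx
    refine (IntermediateField.mem_fixedField_iff _ _).2 fun f hf => ?_
    obtain ⟨n, rfl⟩ := Subgroup.mem_zpowers_iff.1 hf
    have h5 : g ∈ MulAction.stabilizer (GG p Ω) x := h3 x hx
    exact (MulAction.stabilizer (GG p Ω) x).zpow_mem h5 n
  exact (IntermediateField.mem_fixedField_iff _ _).1 (h4 hyS) g (Subgroup.mem_zpowers g)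

/-- The elements with the image of a geometric element. -/
def k2_D : Subgroup (GG p Ω) where
  carrier := {g | ∃ g' : GG p Ω, Geo g' ∧ ρb g' = ρb g}
  mul_mem' := by
    rintro a b ⟨g, hg, h⟩ ⟨g', hg', h'⟩
    exact ⟨g * g', hg.mul hg', by rw [map_mul, map_mul, h, h']⟩
  one_mem' := ⟨1, fun _ _ => rfl, rfl⟩
  inv_mem' := by
    rintro a ⟨g, hg, h⟩
    exact ⟨g⁻¹, hg.inv, by rw [map_inv, map_inv, h]⟩

theorem K2b [Finite Hb] (hρ : Ad p Ω ρb) :
    ∃ E : Finset (kF p Ω), ∀ g : GG p Ω, (∀ x ∈ E, g (x : Ω) = x) →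
      ∃ g' : GG p Ω, Geo g' ∧ ρb g' = ρb g := by
  classical
  have := k2_gal p Ω
  obtain ⟨T, hT⟩ := hρ.fin
  have hD : ∀ g : GG p Ω, (∀ t ∈ T, g t = t) → g ∈ k2_D p Ω ρb := fun g hg =>
    ⟨1, fun _ _ => rfl, by rw [map_one, hT g hg]⟩
  have hfix := k2_fix p Ω (k2_D p Ω ρb) T hD
  have hfd : FiniteDimensional (RatFunc (ZMod p))
      (IntermediateField.fixedField (k2_D p Ω ρb)) := by
    rw [← InfiniteGalois.isOpen_iff_finite, hfix]
    exact k2_open p Ω _ T hD
  let bs := Module.finBasis (RatFunc (ZMod p)) (IntermediateField.fixedField (k2_D p Ω ρb))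
  have hq : ∀ i, ∃ P Q : (kF p Ω)[X], Q ≠ 0 ∧ ((bs i : IntermediateField.fixedField
      (k2_D p Ω ρb)) : Ω) * inck p Ω Q = inck p Ω P := fun i =>
    F11b p Ω _ fun g hg => (IntermediateField.mem_fixedField_iff _ _).1 (bs i).2 g ⟨g, hg, rfl⟩
  choose P Q hQ hPQ using hq
  have hco : ∀ (g : GG p Ω) (R : (kF p Ω)[X]), (∀ n, g (R.coeff n : Ω) = R.coeff n) →
      g (inck p Ω R) = inck p Ω R := by
    intro g R hR
    have : inck p Ω R = ∑ i ∈ Finset.range (R.natDegree + 1), (R.coeff i : Ω) * xx p Ω ^ i := by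
      change R.eval₂ _ _ = _
      rw [eval₂_eq_sum_range]; rfl
    rw [this, map_sum]
    refine Finset.sum_congr rfl fun i _ => ?_
    rw [map_mul, map_pow, gal_xx, hR]
  refine ⟨Finset.univ.biUnion fun i => (P i).coeffs ∪ (Q i).coeffs, fun g hg => ?_⟩
  have hg' : ∀ i, (∀ n, g (((P i).coeff n : kF p Ω) : Ω) = (P i).coeff n) ∧
      ∀ n, g (((Q i).coeff n : kF p Ω) : Ω) = (Q i).coeff n := by
    intro i
    constructor
    · intro n
      by_cases h0 : (P i).coeff n = 0
      · rw [h0]; exact map_zero g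
      · exact hg _ (Finset.mem_biUnion.2 ⟨i, Finset.mem_univ _, Finset.mem_union_left _
          (Polynomial.coeff_mem_coeffs h0)⟩)
    · intro n
      by_cases h0 : (Q i).coeff n = 0
      · rw [h0]; exact map_zero g
      · exact hg _ (Finset.mem_biUnion.2 ⟨i, Finset.mem_univ _, Finset.mem_union_right _
          (Polynomial.coeff_mem_coeffs h0)⟩)
  have hb : ∀ i, g (bs i : Ω) = bs i := by
    intro i
    have h1 := congrArg g (hPQ i)
    rw [map_mul, hco g _ (hg' i).2, hco g _ (hg' i).1, ← hPQ i] at h1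
    have h2 : inck p Ω (Q i) ≠ 0 := fun h0 =>
      hQ i (F1c p Ω (by rw [h0, map_zero]))
    exact mul_right_cancel₀ h2 h1
  have hall : g ∈ (IntermediateField.fixedField (k2_D p Ω ρb)).fixingSubgroup := by
    rw [IntermediateField.mem_fixingSubgroup_iff]
    intro x hx
    have h3 := bs.sum_repr ⟨x, hx⟩
    have h4 : x = ∑ i, bs.repr ⟨x, hx⟩ i • (bs i : Ω) := by
      have h5 := congrArg (IntermediateField.fixedField (k2_D p Ω ρb)).val h3
      rw [map_sum] at h5
      simp only [map_smul] at h5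
      exact h5.symm
    rw [h4, map_sum]
    refine Finset.sum_congr rfl fun i _ => ?_
    rw [map_smul, hb]
  rw [hfix] at hall
  exact hall

end Pool.Agent.QPC
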