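import Mathlib
import Pool.Agent.QPC.Defs
import Pool.Agent.QPC.Defs4
import Pool.Agent.QPC.F1

/-!
# QPC row K3: the field generated by one constant
Plan. `β` is algebraic over the prime field, so `κ := Subfield.closure {β}` is finite: it is contained in `{x | x^(p^s) = x}` for some `s > 0` (finite set, roots of a polynomial), so it is a finite field of characteristic `p` with `p^r` elements, `x^(p^r) = x` on it; conversely the polynomial `T^(p^r) - T` has at most `p^r` roots, and `κ` already gives `p^r` roots.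
-/

set_option autoImplicit false

namespace Pool.Agent.QPC

open Polynomial

variable (p : ℕ) [Fact p.Prime] (Ω : Type) [Field Ω] [Algebra (RatFunc (ZMod p)) Ω]
  [IsSepClosed Ω] [Algebra.IsSeparable (RatFunc (ZMod p)) Ω]

omit [IsSepClosed Ω] [Algebra.IsSeparable (RatFunc (ZMod p)) Ω] in
theorem k3_ne (K : Type) [Field K] {n : ℕ} (hn : 0 < n) : (X ^ p ^ n - X : K[X]) ≠ 0 := by
  have h1 : 1 < p ^ n := Nat.one_lt_pow hn.ne' (Fact.out : p.Prime).one_lt
  exact (monic_X_pow_sub (by rw [degree_X]; exact_mod_cast h1)).ne_zero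

theorem k3_roots_fin (K : Type) [Field K] {n : ℕ} (hn : 0 < n) :
    {x : K | x ^ p ^ n = x}.Finite := by
  classical
  refine Set.Finite.subset ((X ^ p ^ n - X : K[X]).roots.toFinset.finite_toSet) ?_
  intro x hx
  rw [Finset.mem_coe, Multiset.mem_toFinset, mem_roots (k3_ne p K hn)]
  rw [IsRoot.def, eval_sub, eval_pow, eval_X, show x ^ p ^ n = x from hx, sub_self]

theorem k3_roots_card (K : Type) [Field K] {n : ℕ} (hn : 0 < n) :
    (k3_roots_fin p K hn).toFinset.card ≤ p ^ n := by
  classical
  have h1 : 1 < p ^ n := Nat.one_lt_pow hn.ne' (Fact.out : p.Prime).one_lt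
  have h2 : (k3_roots_fin p K hn).toFinset ⊆ (X ^ p ^ n - X : K[X]).roots.toFinset := by
    intro x hx
    rw [Set.Finite.mem_toFinset] at hx
    rw [Multiset.mem_toFinset, mem_roots (k3_ne p K hn)]
    rw [IsRoot.def, eval_sub, eval_pow, eval_X, show x ^ p ^ n = x from hx, sub_self]
  refine (Finset.card_le_card h2).trans ((Multiset.toFinset_card_le _).trans
    ((card_roots' _).trans ?_))
  refine (natDegree_sub_le _ _).trans ?_
  rw [natDegree_X_pow, natDegree_X]
  exact max_le le_rfl h1.le

theorem K3 (β : kF p Ω) : ∃ r : ℕ, 0 < r ∧ ∀ x : kF p Ω,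
    x ∈ Subfield.closure {β} ↔ x ^ p ^ r = x := by
  classical
  have hp := (Fact.out : p.Prime)
  obtain ⟨s, hs, hβ⟩ := β.2
  have hβ' : β ^ p ^ s = β := Subtype.ext hβ
  let Fs : Subfield (kF p Ω) :=
    { carrier := {x | x ^ p ^ s = x}
      mul_mem' := fun {a b} ha hb => by
        change (a * b) ^ p ^ s = a * b
        rw [mul_pow, show a ^ p ^ s = a from ha, show b ^ p ^ s = b from hb]
      one_mem' := one_pow _
      add_mem' := fun {a b} ha hb => by
        change (a + b) ^ p ^ s = a + b
        rw [add_pow_char_pow, show a ^ p ^ s = a from ha, show b ^ p ^ s = b from hb]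
      zero_mem' := zero_pow (pow_pos hp.pos s).ne'
      neg_mem' := fun {a} ha => by
        change (-a) ^ p ^ s = -a
        have h : (0 - a) ^ p ^ s = 0 ^ p ^ s - a ^ p ^ s := sub_pow_char_pow ..
        rw [zero_pow (pow_pos hp.pos s).ne', show a ^ p ^ s = a from ha] at h
        simpa using h
      inv_mem' := fun a ha => by
        change (a⁻¹) ^ p ^ s = a⁻¹
        rw [inv_pow, show a ^ p ^ s = a from ha] }
  have hle : Subfield.closure {β} ≤ Fs := Subfield.closure_le.2 (by
    rintro x rfl
    exact hβ')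
  have hfin : Finite (Subfield.closure {β} : Subfield (kF p Ω)) := by
    refine Set.Finite.subset (k3_roots_fin p (kF p Ω) hs) ?_
    intro x hx
    exact hle hx
  have hft : Fintype (Subfield.closure {β} : Subfield (kF p Ω)) := Fintype.ofFinite _
  have hchar : CharP (Subfield.closure {β} : Subfield (kF p Ω)) p :=
    (RingHom.charP_iff (Subfield.closure {β} : Subfield (kF p Ω)).subtype
      (Subfield.closure {β} : Subfield (kF p Ω)).subtype.injective p).mpr inferInstance
  obtain ⟨n, hn, hcard⟩ := FiniteField.card (Subfield.closure {β} : Subfield (kF p Ω)) p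
  have hpow : ∀ x : kF p Ω, x ∈ Subfield.closure {β} → x ^ p ^ (n : ℕ) = x := by
    intro x hx
    have h1 := FiniteField.pow_card (⟨x, hx⟩ : (Subfield.closure {β} : Subfield (kF p Ω)))
    rw [hcard] at h1
    exact congrArg Subtype.val h1
  refine ⟨n, n.pos, fun x => ⟨hpow x, fun hx => ?_⟩⟩
  have hA : ((Subfield.closure {β} : Subfield (kF p Ω)) : Set (kF p Ω)).toFinset ⊆
      (k3_roots_fin p (kF p Ω) n.pos).toFinset := by
    intro y hy
    rw [Set.Finite.mem_toFinset]
    exact hpow y (Set.mem_toFinset.1 hy)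
  have hB := Finset.eq_of_subset_of_card_le hA (by
    rw [Set.toFinset_card]
    refine (k3_roots_card p (kF p Ω) n.pos).trans (le_of_eq ?_)
    rw [← hcard]
    rfl)
  have h2 : x ∈ (k3_roots_fin p (kF p Ω) n.pos).toFinset := by
    rw [Set.Finite.mem_toFinset]
    exact hx
  rw [← hB] at h2
  exact Set.mem_toFinset.1 h2

end Pool.Agent.QPC
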