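import Mathlib
import Pool.Agent.QPC.Defs
import Pool.Agent.QPC.Defs4

/-!
# QPC row K5: properties of `Th : S(k,b) → Ω` (QPC.Defs4)
`Th_algebraMap`: `Th (algebraMap P) = P(z_b)`; `Th_inc`: `Th (inc a) = Ψ a`. For equalities between ring homs on `S f O` use `Pool.QPC.S.hom_ext` (check on `algebraMap B _ b` and `inc a`), for statements on elements `Pool.QPC.S.induction_on`.
Plan. `K5a`: `g z_b = z_b` (`b` constant, `g xx = xx`, `zz_map`), `g` fixes the coefficients; `g (Ψ a) = Ψ (cj g a)` (`Psi_cj`) and `cj g a = γ • a` (`actZg_coe`). `K5b`: expand `s` in the basis: `s = ∑ algebraMap (coordinate i) * inc (eta i)` (`Pool.QPC.S.basis_apply`, `Basis.sum_repr`): `Th s = ∑ (coordinate i)(z_b) Ψ (eta i)`, and `g` fixes the coefficients (in `kap`), `z_b`, `Ψ (eta i)`. (`b ∈ kap`.)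
`K5c`: by induction on `s` (or `hom_ext` for the two ring homs `t ∘ c ∘ Th` and `c ∘ Th`): `c (z_b) = zz p r (c b * xx)`, `t` of it is `zz p r (c b * (xx + a)) = c z_b + zz p r (c b * a)` (`t (c b) = c b`: `c b ∈ kk`, `t` fixes constants: `t = Ψ g Ψ⁻¹`); `t (c (Ψ y)) = Ψ (g (cj c y)) `, and `cj c y` is fixed by `g` (`y ∈ Zg p Ω ρb`; `(cj c)⁻¹ g (cj c)` is geometric and in `ker ρ ⊆ ker ρb`); coefficients: constants.
`K5d`: `t z_b = z_b + 1`: `Th ∘ tau` and `t ∘ Th` agree on `algebraMap P` (`tau (algebraMap P) = algebraMap (shift P)`: `Pool.QPC.S.map_algebraMap`) and on `inc a` (`t Ψ a = Ψ (g a) = Ψ a`). `K5e`: `z_b ∈ Zr`, coefficients in `Zr` (`kk_Zr`), `Ψ a ∈ Zr` (`hΨ.Z`).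
`K5f`: `z_b` is transcendental over `k`: `z_b^p - z_b = b (xx^Q - xx)`; if `z_b` were algebraic over `k` then (`F1b`) `z_b ∈ k`, so `xx^Q - xx ∈ k` and then `xx ∈ k` (root of a polynomial over `k`), contradiction with `F1c`.
-/

set_option autoImplicit false

namespace Pool.Agent.QPC

open Polynomial

variable (p : ℕ) [Fact p.Prime] (Ω : Type) [Field Ω] [Algebra (RatFunc (ZMod p)) Ω]
  [IsSepClosed Ω] [Algebra.IsSeparable (RatFunc (ZMod p)) Ω]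

variable {H : Type} [Group H] {ρ : GG p Ω →* H} {Hb : Type} [Group Hb]
  (ρb : GG p Ω →* Hb) {m r : ℕ} {b : kF p Ω} {Ψ : Ω ≃+* Ω} (L : LC m r b Ψ)

/-- a ring hom applied to an evaluation -/
theorem k5_hom (f : Ω →+* Ω) (P : (kF p Ω)[X]) (z : Ω) :
    f (P.eval₂ (kF p Ω).subtype z) = P.eval₂ (f.comp (kF p Ω).subtype) (f z) :=
  Polynomial.hom_eval₂ P (kF p Ω).subtype f z

/-- a ring hom which fixes the constants, applied to an evaluation -/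
theorem k5_fix (f : Ω →+* Ω) (hf : ∀ a ∈ kk p Ω, f a = a) (P : (kF p Ω)[X]) (z : Ω) :
    f (P.eval₂ (kF p Ω).subtype z) = P.eval₂ (kF p Ω).subtype (f z) := by
  rw [k5_hom]
  have : f.comp (kF p Ω).subtype = (kF p Ω).subtype := RingHom.ext fun x => hf _ x.2
  rw [this]

theorem k5_zb (f : Ω →+* Ω) (r : ℕ) (b : kF p Ω) :
    f (zb r b) = zz p r (f (b : Ω) * f (xx p Ω)) := by
  rw [zb, zz_map, map_mul]

/-- translations fix the constants -/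
theorem k5_tkk {Ψ : Ω ≃+* Ω} (ok : PsiOK p Ψ) {a : Ω} {t : Ω ≃+* Ω} (ht : IsT ρ Ψ a t)
    {x : Ω} (hx : x ∈ kk p Ω) : t x = x := by
  obtain ⟨g, hg, -, h⟩ := ht.ex
  rw [h, ok.kk' hx, hg x hx, ok.kk x hx]

theorem K5a (g : GG p Ω) (hg : Geo g) (γ : Gb p Ω ρb) (hγ : ρb (cj L.ok g) = γ)
    (s : Pool.QPC.SRt (kF p Ω) p m b⁻¹ (Zg p Ω ρb)) : g (Th L ρb s) = Th L ρb (γ • s) := by
  refine Pool.QPC.S.induction_on _ (P := fun s => g (Th L ρb s) = Th L ρb (γ • s)) s ?_ ?_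
  · intro P a
    rw [smul_mul', Pool.QPC.S.smul_algebraMap, Pool.QPC.S.smul_inc, map_mul, map_mul, map_mul,
      Th_algebraMap, Th_inc, Th_inc, actZg_coe ρb γ a (Geo.cj L.ok hg) hγ, Psi_cj]
    congr 1
    have h1 := k5_fix p Ω ((g : Ω ≃+* Ω) : Ω →+* Ω) hg P (zb r b)
    have h2 : ((g : Ω ≃+* Ω) : Ω →+* Ω) (zb r b) = zb r b := by
      rw [k5_zb]
      have e1 : ((g : Ω ≃+* Ω) : Ω →+* Ω) (b : Ω) = b := hg _ b.2
      have e2 : ((g : Ω ≃+* Ω) : Ω →+* Ω) (xx p Ω) = xx p Ω := gal_xx g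
      rw [e1, e2, zb]
    rw [h2] at h1
    exact h1
  · intro x y hx hy
    rw [map_add, map_add, smul_add, map_add, hx, hy]

theorem K5b {n : ℕ} (eta : Module.Basis (Fin n) (kF p Ω)[X] (Zg p Ω ρb))
    (kap : Subfield (kF p Ω)) (hb : b ∈ kap) (s : Pool.QPC.SRt (kF p Ω) p m b⁻¹ (Zg p Ω ρb))
    (hs : Pool.QPC.CoordIn eta kap s) (g : GG p Ω) (h1 : ∀ x ∈ kap, g (x : Ω) = x)
    (h2 : ∀ i, cj L.ok g (eta i : Zg p Ω ρb) = (eta i : Zg p Ω ρb)) :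
    g (Th L ρb s) = Th L ρb s := by
  have hexp : s = ∑ i, algebraMap (kF p Ω)[X] (Pool.QPC.SRt (kF p Ω) p m b⁻¹ (Zg p Ω ρb))
      ((Pool.QPC.S.basis _ eta).repr s i) * Pool.QPC.S.inc _ _ (eta i) := by
    conv_lhs => rw [← (Pool.QPC.S.basis _ eta).sum_repr s]
    refine Finset.sum_congr rfl fun i _ => ?_
    rw [Pool.QPC.S.basis_apply, Algebra.smul_def]
  rw [hexp, map_sum, map_sum]
  refine Finset.sum_congr rfl fun i _ => ?_
  rw [map_mul, map_mul, Th_algebraMap, Th_inc]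
  have e3 : g (Ψ (eta i : Zg p Ω ρb)) = Ψ (eta i : Zg p Ω ρb) := by
    rw [← Psi_cj L.ok, h2 i]
  rw [e3]
  congr 1
  have hzb : g (zb r b) = zb r b := by
    have h4 := k5_zb p Ω ((g : Ω ≃+* Ω) : Ω →+* Ω) r b
    have e1 : ((g : Ω ≃+* Ω) : Ω →+* Ω) (b : Ω) = b := h1 b hb
    have e2 : ((g : Ω ≃+* Ω) : Ω →+* Ω) (xx p Ω) = xx p Ω := gal_xx g
    rw [e1, e2] at h4
    exact h4
  rw [eval₂_eq_sum_range, map_sum]
  refine Finset.sum_congr rfl fun j _ => ?_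
  rw [map_mul, map_pow, hzb]
  congr 1
  exact h1 _ (hs i j)

theorem K5c (hle : ∀ g : GG p Ω, ρ g = 1 → ρb g = 1) {a : Ω} {t : Ω ≃+* Ω} (ht : IsT ρ Ψ a t)
    (c : GG p Ω) (hz : zz p r (c (b : Ω) * a) = 0)
    (s : Pool.QPC.SRt (kF p Ω) p m b⁻¹ (Zg p Ω ρb)) :
    t (c (Th L ρb s)) = c (Th L ρb s) := by
  have := om_charP p Ω
  have key : (((t : Ω →+* Ω).comp ((c : Ω ≃+* Ω) : Ω →+* Ω))).comp (Th L ρb) =
      ((c : Ω ≃+* Ω) : Ω →+* Ω).comp (Th L ρb) := by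
    apply Pool.QPC.S.hom_ext
    · intro P
      change ((t : Ω →+* Ω).comp ((c : Ω ≃+* Ω) : Ω →+* Ω)) (Th L ρb (algebraMap _ _ P)) =
        ((c : Ω ≃+* Ω) : Ω →+* Ω) (Th L ρb (algebraMap _ _ P))
      rw [Th_algebraMap, k5_hom, k5_hom]
      have h1 : ((t : Ω →+* Ω).comp ((c : Ω ≃+* Ω) : Ω →+* Ω)).comp (kF p Ω).subtype =
          (((c : Ω ≃+* Ω) : Ω →+* Ω)).comp (kF p Ω).subtype := by
        refine RingHom.ext fun x => ?_
        exact k5_tkk p Ω L.ok ht (gal_kk c x.2)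
      have h2 : ((t : Ω →+* Ω).comp ((c : Ω ≃+* Ω) : Ω →+* Ω)) (zb r b) =
          (((c : Ω ≃+* Ω) : Ω →+* Ω)) (zb r b) := by
        rw [k5_zb, k5_zb]
        have e1 : ((t : Ω →+* Ω).comp ((c : Ω ≃+* Ω) : Ω →+* Ω)) (b : Ω) = c (b : Ω) :=
          k5_tkk p Ω L.ok ht (gal_kk c b.2)
        have e2 : ((t : Ω →+* Ω).comp ((c : Ω ≃+* Ω) : Ω →+* Ω)) (xx p Ω) = xx p Ω + a := by
          change t (c (xx p Ω)) = _
          rw [gal_xx, ht.tx]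
        have e3 : ((c : Ω ≃+* Ω) : Ω →+* Ω) (b : Ω) = c (b : Ω) := rfl
        have e4 : ((c : Ω ≃+* Ω) : Ω →+* Ω) (xx p Ω) = xx p Ω := gal_xx c
        rw [e1, e2, e3, e4, mul_add, zz_add, hz, add_zero]
      rw [h1, h2]
    · intro y
      change ((t : Ω →+* Ω).comp ((c : Ω ≃+* Ω) : Ω →+* Ω)) (Th L ρb (Pool.QPC.S.inc _ _ y)) =
        ((c : Ω ≃+* Ω) : Ω →+* Ω) (Th L ρb (Pool.QPC.S.inc _ _ y))
      rw [Th_inc]
      change t (c (Ψ y)) = c (Ψ y)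
      obtain ⟨g, hg, hρ, h⟩ := ht.ex
      rw [← Psi_cj L.ok c, h, RingEquiv.symm_apply_apply]
      congr 1
      have hg2 : Geo ((cj L.ok c)⁻¹ * g * cj L.ok c) := hg.conj _
      have h3 : ρ ((cj L.ok c)⁻¹ * g * cj L.ok c) = 1 := by
        rw [map_mul, map_mul, hρ, mul_one, map_inv, inv_mul_cancel]
      have h4 := y.2.2 _ hg2 (hle _ h3)
      have h5 : ((cj L.ok c)⁻¹ * g * cj L.ok c) (y : Ω) =
        (cj L.ok c)⁻¹ (g (cj L.ok c y)) := rfl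
      rw [h5] at h4
      have h6 := congrArg (cj L.ok c) h4
      have h7 : (cj L.ok c) ((cj L.ok c)⁻¹ (g (cj L.ok c y))) = g (cj L.ok c y) := by
        change ((cj L.ok c) * (cj L.ok c)⁻¹) (g (cj L.ok c y)) = _
        rw [mul_inv_cancel]; rfl
      rw [h7] at h6
      exact h6
  exact congrArg (fun f : Pool.QPC.SRt (kF p Ω) p m b⁻¹ (Zg p Ω ρb) →+* Ω => f s) key

theorem K5d (hle : ∀ g : GG p Ω, ρ g = 1 → ρb g = 1) {a : Ω} {t : Ω ≃+* Ω} (ht : IsT ρ Ψ a t)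
    (hz : zz p r ((b : Ω) * a) = 1) (s : Pool.QPC.SRt (kF p Ω) p m b⁻¹ (Zg p Ω ρb)) :
    t (Th L ρb s) = Th L ρb (Pool.QPC.tau m b⁻¹ s) := by
  have := om_charP p Ω
  have key : (t : Ω →+* Ω).comp (Th L ρb) = (Th L ρb).comp (Pool.QPC.tau m b⁻¹) := by
    apply Pool.QPC.S.hom_ext
    · intro P
      rw [RingHom.comp_apply, RingHom.comp_apply, Th_algebraMap, Pool.QPC.tau,
        Pool.QPC.S.map_algebraMap, Th_algebraMap,
        k5_fix p Ω (t : Ω →+* Ω) (fun x hx => k5_tkk p Ω L.ok ht hx)]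
      have h1 : (t : Ω →+* Ω) (zb r b) = zb r b + 1 := by
        rw [k5_zb]
        have e1 : (t : Ω →+* Ω) (b : Ω) = b := k5_tkk p Ω L.ok ht b.2
        have e2 : (t : Ω →+* Ω) (xx p Ω) = xx p Ω + a := ht.tx
        rw [e1, e2, mul_add, zz_add, hz, zb]
      rw [h1]
      have h2 : (eval₂RingHom (kF p Ω).subtype (zb r b)).comp (Pool.QPC.shift (kF p Ω)) =
          eval₂RingHom (kF p Ω).subtype (zb r b + 1) := by
        apply Polynomial.ringHom_ext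
        · intro x
          rw [RingHom.comp_apply, Pool.QPC.shift_C, coe_eval₂RingHom, coe_eval₂RingHom, eval₂_C,
            eval₂_C]
        · rw [RingHom.comp_apply, Pool.QPC.shift_X, coe_eval₂RingHom, coe_eval₂RingHom, eval₂_add,
            eval₂_X, eval₂_one, eval₂_X]
      exact (congrArg (fun f : (kF p Ω)[X] →+* Ω => f P) h2).symm
    · intro y
      rw [RingHom.comp_apply, RingHom.comp_apply, Th_inc, Pool.QPC.tau, Pool.QPC.S.map_inc, Th_inc]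
      obtain ⟨g, hg, hρ, h⟩ := ht.ex
      change t (Ψ y) = Ψ y
      rw [h, RingEquiv.symm_apply_apply, y.2.2 g hg (hle g hρ)]
  exact congrArg (fun f : Pool.QPC.SRt (kF p Ω) p m b⁻¹ (Zg p Ω ρb) →+* Ω => f s) key

theorem K5e (s : Pool.QPC.SRt (kF p Ω) p m b⁻¹ (Zg p Ω ρb)) : Th L ρb s ∈ Zr p Ω := by
  have hx : xx p Ω ∈ Zr p Ω := ⟨X - C X, monic_X_sub_C _, by simp [xx]⟩
  have hz : zb r b ∈ Zr p Ω := by
    rw [zb, zz]
    exact sum_mem fun i _ => pow_mem (mul_mem (kk_Zr b.2) hx) _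
  refine Pool.QPC.S.induction_on _ (P := fun s => Th L ρb s ∈ Zr p Ω) s ?_ ?_
  · intro P a
    rw [map_mul, Th_algebraMap, Th_inc]
    refine mul_mem ?_ (L.ok.Z _ a.2.1)
    rw [eval₂_eq_sum_range]
    exact sum_mem fun i _ => mul_mem (kk_Zr (P.coeff i).2) (pow_mem hz _)
  · intro x y hx hy
    rw [map_add]
    exact add_mem hx hy

end Pool.Agent.QPC
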