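import Mathlib
import Pool.Agent.QPC.Defs
import Pool.Agent.QPC.Defs4

/-!
# QPC row K4: trace one and invariants of a base change (general commutative algebra)
Plan. `K4a`: `Tr a := ∑ s, s • a` is in `R` (by `hinv`). `J := {r : R | algebraMap r ∈ Tr(O)}` is an ideal; if it is not `⊤` let `M ⊇ J` be maximal, `P` a prime of `O` over `M` (`O` integral over `R`, `R → O` injective: `Ideal.exists_ideal_over_maximal_of_isIntegral`). With `x, y` from `h : CHR G O`: `a = ∑ x_i Tr(y_i a)` (`CHR.trace`), each `Tr(y_i a) ∈ J ⊆ M ⊆ P`; so every `a ∈ P`, contradiction. So `1 ∈ J`.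
`K4b`: `c` with `∑ s • c = 1`. For `x ∈ S f O` fixed by `G`: `x = (∑ s • inc c) x = ∑ s • (inc c * x)`. By `S.induction_on` for `y`: `∑ s • y` is in the range of `algebraMap B (S f O)`: for `y = algebraMap b * inc a`: `∑ s • y = algebraMap b * inc (∑ s • a)` and `∑ s • a = algebraMap r` by `hinv`, `S.inc_algebraMap`.
-/

set_option autoImplicit false

namespace Pool.Agent.QPC

open Polynomial

open Pool.QPC

theorem k4_tr_fix {O G : Type} [CommRing O] [Group G] [Fintype G] [MulSemiringAction G O] (t : G)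
    (a : O) : t • (∑ s : G, s • a) = ∑ s : G, s • a := by
  rw [Finset.smul_sum]
  exact Fintype.sum_equiv (Equiv.mulLeft t) _ _ fun s => smul_smul t s a

theorem K4a {R O : Type} [CommRing R] [CommRing O] [Algebra R O] [Algebra.IsIntegral R O]
    (hinj : Function.Injective (algebraMap R O))
    {G : Type} [Group G] [Fintype G] [MulSemiringAction G O] [SMulCommClass G R O]
    (h : CHR G O) (hinv : ∀ a : O, (∀ s : G, s • a = a) → ∃ r, a = algebraMap R O r) :
    ∃ c : O, ∑ s : G, s • c = 1 := by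
  classical
  obtain ⟨N, x, y, h1, h2⟩ := h
  have htr : ∀ a : O, ∃ r, ∑ s : G, s • a = algebraMap R O r := fun a =>
    hinv _ fun t => k4_tr_fix t a
  let J : Ideal R :=
    { carrier := {r | ∃ a : O, ∑ s : G, s • a = algebraMap R O r}
      add_mem' := by
        rintro r r' ⟨a, ha⟩ ⟨a', ha'⟩
        refine ⟨a + a', ?_⟩
        rw [map_add, ← ha, ← ha', ← Finset.sum_add_distrib]
        exact Finset.sum_congr rfl fun s _ => smul_add s a a'
      zero_mem' := ⟨0, by
        rw [map_zero]
        exact Finset.sum_eq_zero fun s _ => smul_zero s⟩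
      smul_mem' := by
        rintro c r ⟨a, ha⟩
        refine ⟨c • a, ?_⟩
        rw [smul_eq_mul, map_mul, ← ha, Finset.mul_sum]
        refine Finset.sum_congr rfl fun s _ => ?_
        rw [smul_comm, Algebra.smul_def] }
  by_contra hne
  have hJ : J ≠ ⊤ := by
    intro hJ
    have h3 : (1 : R) ∈ J := by rw [hJ]; trivial
    obtain ⟨c, hc⟩ := h3
    exact hne ⟨c, by rw [hc, map_one]⟩
  obtain ⟨M, hM, hJM⟩ := J.exists_le_maximal hJ
  have hker : RingHom.ker (algebraMap R O) ≤ M := by
    rw [(RingHom.injective_iff_ker_eq_bot _).1 hinj]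
    exact bot_le
  obtain ⟨P, hP, hPM⟩ := Ideal.exists_ideal_over_maximal_of_isIntegral M hker
  apply hP.ne_top
  rw [Ideal.eq_top_iff_one, CHR.trace (G := G) h1 h2 (1 : O)]
  refine sum_mem fun i _ => P.mul_mem_left _ ?_
  obtain ⟨r, hr⟩ := htr (y i * 1)
  rw [hr, ← Ideal.mem_comap, hPM]
  exact hJM ⟨y i * 1, hr⟩

theorem K4b {R B O : Type} [CommRing R] [CommRing B] [CommRing O] [Algebra R O] (f : R →+* B)
    {G : Type} [Group G] [Fintype G] [MulSemiringAction G O] [SMulCommClass G R O]
    (hc : ∃ c : O, ∑ s : G, s • c = 1)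
    (hinv : ∀ a : O, (∀ s : G, s • a = a) → ∃ r, a = algebraMap R O r)
    (x : S f O) (hx : ∀ s : G, s • x = x) : ∃ b, x = algebraMap B (S f O) b := by
  classical
  obtain ⟨c, hc⟩ := hc
  have key : ∀ y : S f O, ∃ b, ∑ s : G, s • y = algebraMap B (S f O) b := by
    intro y
    refine S.induction_on f (P := fun y => ∃ b, ∑ s : G, s • y = algebraMap B (S f O) b) y ?_ ?_
    · intro b a
      obtain ⟨r, hr⟩ := hinv (∑ s : G, s • a) fun t => k4_tr_fix t a
      refine ⟨b * f r, ?_⟩
      have h1 : ∀ s : G, s • (algebraMap B (S f O) b * S.inc f O a) =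
          algebraMap B (S f O) b * S.inc f O (s • a) := by
        intro s
        rw [smul_mul', S.smul_algebraMap, S.smul_inc]
      rw [Finset.sum_congr rfl fun s _ => h1 s, ← Finset.mul_sum, ← map_sum, hr,
        S.inc_algebraMap, map_mul]
    · rintro x y ⟨b, hb⟩ ⟨b', hb'⟩
      refine ⟨b + b', ?_⟩
      rw [map_add, ← hb, ← hb', ← Finset.sum_add_distrib]
      exact Finset.sum_congr rfl fun s _ => smul_add s x y
  obtain ⟨b, hb⟩ := key (S.inc f O c * x)
  refine ⟨b, ?_⟩
  rw [← hb]
  have h1 : ∀ s : G, s • (S.inc f O c * x) = S.inc f O (s • c) * x := by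
    intro s
    rw [smul_mul', S.smul_inc, hx]
  rw [Finset.sum_congr rfl fun s _ => h1 s, ← Finset.sum_mul, ← map_sum, hc, map_one, one_mul]

end Pool.Agent.QPC
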