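import Mathlib
import Pool.Agent.QPC.Defs
import Pool.Agent.QPC.Defs4
import Pool.Agent.QPC.F1
import Pool.Agent.QPC.F5
import Pool.Agent.QPC.F11
import Pool.Agent.QPC.K1
import Pool.Agent.QPC.K4
import Pool.Agent.QPC.K5
import Pool.Agent.QPC.D0
import Pool.Agent.QPC.D3

/-!
# QPC row K6: `Th` is injective, and its image
`htr` is the transitivity (`D3c`). `w0 := Ψ.symm xx` satisfies `(w0^Q - w0)^m = xx`, `Q := p^r`.
Plan. `K6z`: `P(z_b) = 0` implies `P = 0`: `z_b` is transcendental over `k` (if algebraic, `z_b ∈ k` by `F1b`, then `b (xx^Q - xx) = z_b^p - z_b ∈ k`, and `xx` is algebraic over `k`, so in `k` by `F1b`, contradiction with `F1c` (`inck (X - C xx) = 0`)).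
`K6g`: for `γ : Gb p Ω ρb` there is a geometric `g` with `ρb (cj g) = γ`: let `γ = ρb g0`, `g0` geometric; `w := g0 w0` is a root, `htr` gives `g1` geometric with `ρ g1 = 1`, `g1 w0 = g0 w0`; `g2 := g1⁻¹ g0` fixes `w0`, so `Ψ g2 Ψ⁻¹` fixes `xx`: it is `g : GG` (`toGG`), geometric, `cj g = g2`, `ρb g2 = ρb g0` (`hle`).
`K6a` (injective). Let `Th s = 0`. With `x, y` from `CHR` for `S` (`K1c`, `CHR.baseChange`): `s = ∑ x_i ∑_γ γ • (y_i s)` (`CHR.trace`). `Th (γ • (y_i s)) = g (Th (y_i s)) = 0` (`K5a`, `K6g`). So `Tr(y_i s)`, which is in the range of `algebraMap` (`K4a`, `K4b`: integrality of `Zg` over `k[X]`: finite module, `K1e`; injectivity `F1c`), is `algebraMap P` with `P(z_b) = 0`, so `P = 0` (`K6z`). So `s = 0`.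
`K6b` (image). Let `x' := Ψ.symm x ∈ Zr`, `z' := Ψ.symm z_b = zz p r (b w0)`, `(b⁻¹ (z'^p - z'))^m = xx`. Claim: `x'` is fixed by every geometric `g` with `ρb g = 1`, `g z' = z'`. Indeed `g w0` is a root, `b ((g w0)^Q - g w0) = (g z')^p - g z' = z'^p - z' = b (w0^Q - w0)`, so `g w0 = w0 + a`, `a^Q = a`, and `zz p r (b (g w0)) = g z' = z'` gives `zz p r (b a) = 0`. `htr` gives `g1` geometric, `ρ g1 = 1`, `g1 w0 = w0 + a`. `t := Ψ g1 Ψ⁻¹` is a translation (`IsT ρ Ψ a t`: `t xx = Ψ (w0 + a) = xx + a`),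
so `t x = x`, `g1 x' = x'`. `g2 := g1⁻¹ g` fixes `w0`, so `g2 = cj g3`, `g3` geometric, `ρb (cj g3) = 1`, so `g3 x = x`, `g2 x' = x'`. So `g x' = g1 g2 x' = x'`.
Now let `x_i, y_i ∈ Zf p Ω ρb` be from `F5`. Let `V := {γ | γ = ρb g, g geometric, g z' = z'}` (finite subgroup), `g_γ` such lifts. `T_i := ∑_{γ ∈ V} g_γ (y_i x')` does not depend on the lifts and is fixed by all geometric `g` with `g z' = z'`; it is in `Zr`; by `D0c` (`u := z'`, `f := (C b⁻¹ * (X^p - X))^m`): `T_i = P_i(z')`. `x' = ∑_i x_i T_i` (`∑_i x_i g_γ (y_i) = 0` for `γ ≠ 1`, for `γ = 1`: `g_γ` fixes `x'` and `y_i`). So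
`x = ∑ Ψ(x_i) P_i(z_b) = Th (∑ algebraMap P_i * inc x_i)`.
-/

set_option autoImplicit false

namespace Pool.Agent.QPC

open Polynomial

variable (p : ℕ) [Fact p.Prime] (Ω : Type) [Field Ω] [Algebra (RatFunc (ZMod p)) Ω]
  [IsSepClosed Ω] [Algebra.IsSeparable (RatFunc (ZMod p)) Ω]

variable {H : Type} [Group H] [Finite H] {ρ : GG p Ω →* H} {Hb : Type} [Group Hb] [Finite Hb]
  (ρb : GG p Ω →* Hb) {m r : ℕ} {b : kF p Ω} {Ψ : Ω ≃+* Ω} (L : LC m r b Ψ)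

theorem K6z (P : (kF p Ω)[X]) (h : P.eval₂ (kF p Ω).subtype (zb r b) = 0) (L : LC m r b Ψ) :
    P = 0 := by
  by_contra hP
  have h1 : zb r b ∈ kF p Ω := F1b p Ω _ P hP h
  have h2 := zb_frob L
  have hb0 : (b : Ω) ≠ 0 := fun h0 => L.b_ne (Subtype.ext h0)
  have h3 : xx p Ω ^ p ^ r - xx p Ω ∈ kF p Ω := by
    have h4 : xx p Ω ^ p ^ r - xx p Ω = (b : Ω)⁻¹ * (zb r b ^ p - zb r b) := by
      rw [h2, ← mul_assoc, inv_mul_cancel₀ hb0, one_mul]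
    rw [h4]
    exact mul_mem (inv_mem b.2) (sub_mem (pow_mem h1 p) h1)
  have hpr : 1 < p ^ r := Nat.one_lt_pow L.r_pos.ne' (Fact.out : p.Prime).one_lt
  have h5 : xx p Ω ∈ kF p Ω := by
    refine F1b p Ω _ (X ^ p ^ r - X - C ⟨_, h3⟩) ?_ ?_
    · have hm : (X ^ p ^ r - X - C (⟨_, h3⟩ : kF p Ω)).Monic := by
        rw [sub_sub]
        refine monic_X_pow_sub ?_
        refine lt_of_le_of_lt (degree_X_add_C _).le ?_
        exact_mod_cast hpr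
      exact hm.ne_zero
    · rw [eval₂_sub, eval₂_sub, eval₂_pow, eval₂_X, eval₂_C]
      exact sub_self _
  have h6 : inck p Ω (X - C ⟨_, h5⟩) = 0 := by
    change eval₂ _ _ _ = _
    rw [eval₂_sub, eval₂_X, eval₂_C]
    exact sub_self _
  have h7 := F1c p Ω (h6.trans (map_zero _).symm)
  exact X_sub_C_ne_zero _ h7

/-- the root `Ψ⁻¹ X` -/
theorem k6_w0 (L : LC m r b Ψ) :
    ((Ψ.symm (xx p Ω)) ^ p ^ r - Ψ.symm (xx p Ω)) ^ m = xx p Ω := by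
  have h := congrArg Ψ.symm L.Psi_xx
  rw [RingEquiv.symm_apply_apply, map_pow, map_sub, map_pow] at h
  exact h.symm

/-- a geometric automorphism fixing `Ψ⁻¹ X` is a conjugate -/
theorem k6_lift (L : LC m r b Ψ) (g2 : GG p Ω) (hg : Geo g2)
    (h : g2 (Ψ.symm (xx p Ω)) = Ψ.symm (xx p Ω)) :
    ∃ g : GG p Ω, Geo g ∧ cj L.ok g = g2 := by
  have ht : ((Ψ.symm.trans (g2 : Ω ≃+* Ω)).trans Ψ) (xx p Ω) = xx p Ω := by
    change Ψ (g2 (Ψ.symm (xx p Ω))) = xx p Ω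
    rw [h, RingEquiv.apply_symm_apply]
  refine ⟨toGG p Ω _ ht, fun a ha => ?_, ?_⟩
  · rw [toGG_apply]
    change Ψ (g2 (Ψ.symm a)) = a
    rw [L.ok.kk' ha, hg a ha, L.ok.kk a ha]
  · ext x
    rw [cj_apply, toGG_apply]
    change Ψ.symm (Ψ (g2 (Ψ.symm (Ψ x)))) = g2 x
    rw [RingEquiv.symm_apply_apply, RingEquiv.symm_apply_apply]

theorem K6g (hle : ∀ g : GG p Ω, ρ g = 1 → ρb g = 1)
    (htr : ∀ w : Ω, (w ^ p ^ r - w) ^ m = xx p Ω →
      ∃ g : GG p Ω, Geo g ∧ ρ g = 1 ∧ g (Ψ.symm (xx p Ω)) = w) (γ : Gb p Ω ρb) :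
    ∃ g : GG p Ω, Geo g ∧ ρb (cj L.ok g) = γ := by
  have hw0 := k6_w0 p Ω L
  have hw : ((lft ρb γ (Ψ.symm (xx p Ω))) ^ p ^ r - lft ρb γ (Ψ.symm (xx p Ω))) ^ m = xx p Ω := by
    rw [← map_pow, ← map_sub, ← map_pow, hw0, gal_xx]
  obtain ⟨g1, hg1, hr1, h1⟩ := htr _ hw
  have h2 : (g1⁻¹ * lft ρb γ) (Ψ.symm (xx p Ω)) = Ψ.symm (xx p Ω) := by
    change g1⁻¹ (lft ρb γ (Ψ.symm (xx p Ω))) = _
    rw [← h1]
    change (g1⁻¹ * g1) (Ψ.symm (xx p Ω)) = _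
    rw [inv_mul_cancel]; rfl
  obtain ⟨g, hg, hc⟩ := k6_lift p Ω L (g1⁻¹ * lft ρb γ) (hg1.inv.mul (lft_geo ρb γ)) h2
  refine ⟨g, hg, ?_⟩
  rw [hc, map_mul, map_inv, hle g1 hr1, inv_one, one_mul, lft_rho]

theorem K6a (hρb : Ad p Ω ρb) (hle : ∀ g : GG p Ω, ρ g = 1 → ρb g = 1)
    (htr : ∀ w : Ω, (w ^ p ^ r - w) ^ m = xx p Ω →
      ∃ g : GG p Ω, Geo g ∧ ρ g = 1 ∧ g (Ψ.symm (xx p Ω)) = w) :
    Function.Injective (Th L ρb) := by
  classical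
  have : Fintype (Gb p Ω ρb) := Fintype.ofFinite _
  rw [injective_iff_map_eq_zero]
  intro s hs
  have hinj : Function.Injective (algebraMap (kF p Ω)[X] (Zg p Ω ρb)) := by
    intro P Q hPQ
    apply F1c p Ω
    rw [← algZg_coe p Ω ρb, ← algZg_coe p Ω ρb, hPQ]
  have hinv : ∀ a : Zg p Ω ρb, (∀ s : Gb p Ω ρb, s • a = a) →
      ∃ P, a = algebraMap (kF p Ω)[X] (Zg p Ω ρb) P := fun a h => K1d p Ω ρb a h
  have hchr := K1c p Ω ρb hρb
  obtain ⟨n, ⟨eta⟩⟩ := K1e p Ω ρb hρb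
  have hfin : Module.Finite (kF p Ω)[X] (Zg p Ω ρb) := Module.Finite.of_basis eta
  have hint : Algebra.IsIntegral (kF p Ω)[X] (Zg p Ω ρb) := Algebra.IsIntegral.of_finite _ _
  have htrace := K4a hinj hchr hinv
  obtain ⟨N, x, y, h1, h2⟩ :=
    hchr.baseChange (R := (kF p Ω)[X]) (Pool.QPC.pw (k := kF p Ω) m (Pool.QPC.vz p b⁻¹))
  rw [Pool.QPC.CHR.trace h1 h2 s]
  refine Finset.sum_eq_zero fun i _ => ?_
  have hfix : ∀ t : Gb p Ω ρb, t • (∑ γ : Gb p Ω ρb, γ • (y i * s)) =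
      ∑ γ : Gb p Ω ρb, γ • (y i * s) := by
    intro t
    rw [Finset.smul_sum]
    refine Fintype.sum_equiv (Equiv.mulLeft t) _ _ fun γ => ?_
    rw [Equiv.coe_mulLeft, mul_smul]
  obtain ⟨P, hP⟩ := K4b (Pool.QPC.pw (k := kF p Ω) m (Pool.QPC.vz p b⁻¹)) htrace hinv _ hfix
  have hTh : Th L ρb (∑ γ : Gb p Ω ρb, γ • (y i * s)) = 0 := by
    rw [map_sum]
    refine Finset.sum_eq_zero fun γ _ => ?_
    obtain ⟨g, hg, hγ⟩ := K6g p Ω ρb L hle htr γ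
    rw [← K5a p Ω ρb L g hg γ hγ, map_mul, hs, mul_zero, map_zero]
  rw [hP, Th_algebraMap] at hTh
  have hP0 := K6z p Ω P hTh L
  rw [hP, hP0, map_zero, mul_zero]

theorem K6b (hρb : Ad p Ω ρb) (hle : ∀ g : GG p Ω, ρ g = 1 → ρb g = 1)
    (htr : ∀ w : Ω, (w ^ p ^ r - w) ^ m = xx p Ω →
      ∃ g : GG p Ω, Geo g ∧ ρ g = 1 ∧ g (Ψ.symm (xx p Ω)) = w) (x : Ω) (hx : x ∈ Zr p Ω)
    (h1 : ∀ g : GG p Ω, Geo g → ρb (cj L.ok g) = 1 → g x = x)
    (h2 : ∀ (a : Ω) (t : Ω ≃+* Ω), a ^ p ^ r = a → IsT ρ Ψ a t → zz p r ((b : Ω) * a) = 0 →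
      t x = x) : ∃ s, Th L ρb s = x := by
  classical
  have hch := om_charP p Ω
  have hw0 := k6_w0 p Ω L
  have hb0 : (b : Ω) ≠ 0 := fun h0 => L.b_ne (Subtype.ext h0)
  set w0 := Ψ.symm (xx p Ω) with hw0d
  set x' := Ψ.symm x with hx'
  set z' := Ψ.symm (zb r b) with hz'
  have hx'Z : x' ∈ Zr p Ω := L.ok.Z' x hx
  have hz'e : z' = zz p r ((b : Ω) * w0) := by
    rw [hz', zb]
    have h := zz_map p r ((Ψ.symm : Ω ≃+* Ω) : Ω →+* Ω) ((b : Ω) * xx p Ω)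
    have e : ((Ψ.symm : Ω ≃+* Ω) : Ω →+* Ω) ((b : Ω) * xx p Ω) = (b : Ω) * w0 := by
      rw [map_mul]
      congr 1
      exact L.ok.kk' b.2
    rw [e] at h
    exact h
  have hz'f : z' ^ p - z' = b * (w0 ^ p ^ r - w0) := by
    rw [hz'e, zz_frob, mul_pow, L.b_mem]
    ring
  have hf : ((C b⁻¹ * (X ^ p - X)) ^ m : (kF p Ω)[X]).eval₂ (kF p Ω).subtype z' = xx p Ω := by
    rw [eval₂_pow, eval₂_mul, eval₂_C, eval₂_sub, eval₂_pow, eval₂_X, hz'f]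
    have h3 : (kF p Ω).subtype b⁻¹ * (b : Ω) = 1 := by
      have h4 : (kF p Ω).subtype b⁻¹ * (kF p Ω).subtype b = 1 := by
        rw [← map_mul, inv_mul_cancel₀ L.b_ne, map_one]
      exact h4
    rw [← mul_assoc, h3, one_mul, hw0]
  -- Claim A
  have hA : ∀ g : GG p Ω, Geo g → ρb g = 1 → g z' = z' → g x' = x' := by
    intro g hg hρg hgz
    have hroot : ((g w0) ^ p ^ r - g w0) ^ m = xx p Ω := by
      rw [← map_pow, ← map_sub, ← map_pow, hw0, gal_xx]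
    have hgb : g (b : Ω) = b := hg _ b.2
    have h3 : (b : Ω) * ((g w0) ^ p ^ r - g w0) = b * (w0 ^ p ^ r - w0) := by
      have h4 := congrArg g hz'f
      rw [map_sub, map_pow, hgz, map_mul, hgb, map_sub, map_pow, hz'f] at h4
      exact h4.symm
    have h4 : (g w0) ^ p ^ r - g w0 = w0 ^ p ^ r - w0 := mul_left_cancel₀ hb0 h3
    have ha : (g w0 - w0) ^ p ^ r = g w0 - w0 := by
      rw [sub_pow_char_pow]
      linear_combination h4
    have hza : zz p r ((b : Ω) * (g w0 - w0)) = 0 := by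
      have h5 : g z' = zz p r ((b : Ω) * g w0) := by
        rw [hz'e]
        have h6 := zz_map p r ((g : Ω ≃+* Ω) : Ω →+* Ω) ((b : Ω) * w0)
        have e : ((g : Ω ≃+* Ω) : Ω →+* Ω) ((b : Ω) * w0) = (b : Ω) * g w0 := by
          rw [map_mul]
          congr 1
        rw [e] at h6
        exact h6
      have h6 : (b : Ω) * g w0 = b * w0 + b * (g w0 - w0) := by ring
      rw [h6, zz_add, ← hz'e, hgz] at h5
      exact (left_eq_add.1 h5)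
    obtain ⟨g1, hg1, hr1, hw1⟩ := htr _ hroot
    have hT : IsT ρ Ψ (g w0 - w0) ((Ψ.symm.trans (g1 : Ω ≃+* Ω)).trans Ψ) := by
      refine ⟨⟨g1, hg1, hr1, fun _ => rfl⟩, ?_⟩
      change Ψ (g1 w0) = _
      rw [hw1]
      have e : g w0 = w0 + (g w0 - w0) := by ring
      conv_lhs => rw [e]
      rw [map_add, L.ok.kk _ (mem_kk L.r_pos ha), hw0d, RingEquiv.apply_symm_apply]
    have h7 : Ψ (g1 x') = x := h2 _ _ ha hT hza
    have h8 : g1 x' = x' := by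
      rw [hx', RingEquiv.eq_symm_apply]
      exact h7
    have h9 : (g1⁻¹ * g) w0 = w0 := by
      change g1⁻¹ (g w0) = w0
      rw [← hw1]
      change (g1⁻¹ * g1) w0 = w0
      rw [inv_mul_cancel]; rfl
    obtain ⟨g3, hg3, hc⟩ := k6_lift p Ω L (g1⁻¹ * g) (hg1.inv.mul hg) h9
    have h10 : ρb (cj L.ok g3) = 1 := by
      rw [hc, map_mul, map_inv, hle g1 hr1, hρg, inv_one, one_mul]
    have h11 := h1 g3 hg3 h10
    have h12 : (g1⁻¹ * g) x' = x' := by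
      rw [← hc, cj_apply, hx', RingEquiv.apply_symm_apply, h11]
    have h13 : g x' = g1 ((g1⁻¹ * g) x') := by
      change g x' = (g1 * (g1⁻¹ * g)) x'
      rw [mul_inv_cancel_left]
    rw [h13, h12, h8]
  obtain ⟨N, xf, yf, hxf, hyf, hsum, hzero⟩ := F5 p Ω ρb hρb
  have : Fintype Hb := Fintype.ofFinite _
  -- Lemma B
  have hB : ∀ (i : Fin N) (g g' : GG p Ω), Geo g → Geo g' → g z' = z' → g' z' = z' →
      ρb g = ρb g' → g (yf i * x') = g' (yf i * x') := by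
    intro i g g' hg hg' hz hz2 hρρ
    have e1 : ρb (g'⁻¹ * g) = 1 := by rw [map_mul, map_inv, hρρ, inv_mul_cancel]
    have e2 : (g'⁻¹ * g) z' = z' := by
      change g'⁻¹ (g z') = z'
      rw [hz]
      nth_rewrite 1 [← hz2]
      change (g'⁻¹ * g') z' = z'
      rw [inv_mul_cancel]; rfl
    have e3 := hA _ (hg'.inv.mul hg) e1 e2
    have e4 := (hyf i).2 _ e1
    have e5 : (g'⁻¹ * g) (yf i * x') = yf i * x' := by rw [map_mul, e3, e4]
    have e6 : g (yf i * x') = g' ((g'⁻¹ * g) (yf i * x')) := by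
      change g (yf i * x') = (g' * (g'⁻¹ * g)) (yf i * x')
      rw [mul_inv_cancel_left]
    rw [e6, e5]
  have hV : ∀ γ : Hb, ∃ g : GG p Ω, (∃ g : GG p Ω, Geo g ∧ g z' = z' ∧ ρb g = γ) →
      Geo g ∧ g z' = z' ∧ ρb g = γ := by
    intro γ
    by_cases h : ∃ g : GG p Ω, Geo g ∧ g z' = z' ∧ ρb g = γ
    · obtain ⟨g, hg⟩ := h
      exact ⟨g, fun _ => hg⟩
    · exact ⟨1, fun h' => absurd h' h⟩
  choose σ hσ using hV
  set V : Finset Hb := Finset.univ.filter (fun γ => ∃ g : GG p Ω, Geo g ∧ g z' = z' ∧ ρb g = γ)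
    with hVd
  have hσV : ∀ γ ∈ V, Geo (σ γ) ∧ σ γ z' = z' ∧ ρb (σ γ) = γ := by
    intro γ hγ
    rw [hVd, Finset.mem_filter] at hγ
    exact hσ γ hγ.2
  have h1V : (1 : Hb) ∈ V := by
    rw [hVd, Finset.mem_filter]
    exact ⟨Finset.mem_univ _, 1, fun _ _ => rfl, rfl, map_one ρb⟩
  have hTZ : ∀ i, (∑ γ ∈ V, σ γ (yf i * x')) ∈ Zr p Ω := fun i =>
    sum_mem fun γ _ => gal_Zr _ (mul_mem (hyf i).1 hx'Z)
  have hTfix : ∀ i, ∀ g : GG p Ω, Geo g → g z' = z' →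
      g (∑ γ ∈ V, σ γ (yf i * x')) = ∑ γ ∈ V, σ γ (yf i * x') := by
    intro i g hg hgz
    have hginv : g⁻¹ z' = z' := by
      nth_rewrite 1 [← hgz]
      change (g⁻¹ * g) z' = z'
      rw [inv_mul_cancel]; rfl
    rw [map_sum]
    refine Finset.sum_nbij' (fun γ => ρb g * γ) (fun γ => (ρb g)⁻¹ * γ) ?_ ?_ ?_ ?_ ?_
    · intro γ hγ
      obtain ⟨a1, a2, a3⟩ := hσV γ hγ
      rw [hVd, Finset.mem_filter]
      refine ⟨Finset.mem_univ _, g * σ γ, hg.mul a1, ?_, ?_⟩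
      · change g (σ γ z') = z'
        rw [a2, hgz]
      · rw [map_mul, a3]
    · intro γ hγ
      obtain ⟨a1, a2, a3⟩ := hσV γ hγ
      rw [hVd, Finset.mem_filter]
      refine ⟨Finset.mem_univ _, g⁻¹ * σ γ, hg.inv.mul a1, ?_, ?_⟩
      · change g⁻¹ (σ γ z') = z'
        rw [a2, hginv]
      · rw [map_mul, map_inv, a3]
    · intro γ _
      simp
    · intro γ _
      simp
    · intro γ hγ
      obtain ⟨a1, a2, a3⟩ := hσV γ hγ
      have hmem : ρb g * γ ∈ V := by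
        rw [hVd, Finset.mem_filter]
        refine ⟨Finset.mem_univ _, g * σ γ, hg.mul a1, ?_, ?_⟩
        · change g (σ γ z') = z'
          rw [a2, hgz]
        · rw [map_mul, a3]
      obtain ⟨b1, b2, b3⟩ := hσV _ hmem
      have := hB i (g * σ γ) (σ (ρb g * γ)) (hg.mul a1) b1 (by
        change g (σ γ z') = z'
        rw [a2, hgz]) b2 (by rw [map_mul, a3, b3])
      exact this
  have hP : ∀ i, ∃ P : (kF p Ω)[X], P.eval₂ (kF p Ω).subtype z' = ∑ γ ∈ V, σ γ (yf i * x') :=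
    fun i => D0c p Ω z' _ hf _ (hTZ i) (hTfix i)
  choose P hP using hP
  have hxe : x' = ∑ i, xf i * ∑ γ ∈ V, σ γ (yf i * x') := by
    have e1 : ∑ i, xf i * ∑ γ ∈ V, σ γ (yf i * x') =
        ∑ γ ∈ V, (∑ i, xf i * σ γ (yf i)) * σ γ x' := by
      simp only [Finset.mul_sum, Finset.sum_mul, map_mul, mul_assoc]
      rw [Finset.sum_comm]
    rw [e1, Finset.sum_eq_single (1 : Hb)]
    · obtain ⟨a1, a2, a3⟩ := hσV 1 h1V
      rw [hA _ a1 a3 a2]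
      have e2 : ∑ i, xf i * σ 1 (yf i) = 1 := by
        rw [← hsum]
        refine Finset.sum_congr rfl fun i _ => ?_
        rw [(hyf i).2 _ a3]
      rw [e2, one_mul]
    · intro γ hγ hne
      obtain ⟨a1, a2, a3⟩ := hσV γ hγ
      rw [hzero (σ γ) (by rw [a3]; exact hne), zero_mul]
    · intro h
      exact absurd h1V h
  have hxg : ∀ i, xf i ∈ Zg p Ω ρb := fun i => ⟨(hxf i).1, fun g _ hg => (hxf i).2 g hg⟩
  refine ⟨∑ i, algebraMap (kF p Ω)[X] _ (P i) * Pool.QPC.S.inc _ _ (⟨xf i, hxg i⟩ : Zg p Ω ρb), ?_⟩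
  rw [map_sum]
  have e3 : x = Ψ x' := by rw [hx', RingEquiv.apply_symm_apply]
  rw [e3]
  conv_rhs => rw [hxe]
  rw [map_sum]
  refine Finset.sum_congr rfl fun i _ => ?_
  rw [map_mul, Th_algebraMap, Th_inc, map_mul, ← hP i, mul_comm]
  congr 1
  have e4 := k5_fix p Ω ((Ψ : Ω ≃+* Ω) : Ω →+* Ω) L.ok.kk (P i) z'
  have e5 : ((Ψ : Ω ≃+* Ω) : Ω →+* Ω) z' = zb r b := by
    change Ψ z' = _
    rw [hz', RingEquiv.apply_symm_apply]
  rw [e5] at e4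
  exact e4.symm

end Pool.Agent.QPC
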