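import Mathlib
import Pool.Agent.QPC.Defs
import Pool.Agent.QPC.Defs4
import Pool.Agent.QPC.F1
import Pool.Agent.QPC.F5
import Pool.Agent.QPC.F11
import Pool.Agent.QPC.K1
import Pool.Agent.QPC.K2
import Pool.Agent.QPC.K3
import Pool.Agent.QPC.K5
import Pool.Agent.QPC.K6
import Pool.Agent.QPG.Z4
import Pool.Agent.QPC.D0
import Pool.Agent.QPC.D3

/-!
# QPC row K7: the geometric input inside `Ω` (assembly)
`GEO` is in Pool.Agent.QPG.GEO (stub): add `import Pool.Agent.QPG.Z4`. `GO` is in QPC.Defs3.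
Plan. `m := ℓ^e ≥ 2`, prime to `p`. `K1e`: `eta`. `E := ` union of the sets of `K2a` for `eta i`, of `K2b`, and `{ζ}` (`ζ` a primitive `m`-th root of unity, in `kF`). `GEO` (instances `F1`, `K1a`, `K1b`, `K1c`, `K1d`; `G := Gb p Ω ρb`) gives `b, F, N, a, u, al`. `K3` for `β := b^(p-1)`: `r`. `D3b`: `w`. `D0` for `u := w`, `f := (X^(p^r) - X)^m`: `Ψ`; `PsiOK` (`Ψ xx = Ψ (f(w)) = f(xx)`, a polynomial over `F_p`), `LC m r b Ψ`. `D3c`: `htr`.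
Fields of `GO` with `F := Th F`: `b_gen`: an automorphism fixing `b^(p-1)` fixes `Subfield.closure {b^(p-1)}` pointwise (every `x` with `x^(p^r) = x` is in `kF`, and in the closure by `K3`). `geo`: `K2b`. `F_int`: `K5e`. `F_ne`: `K6a` and `F ≠ 0`: if `F = 0`, take `ν := ` indicator of `1` (there is `γ ≠ 1` in `Gb` by `h2`): `Yn = 0 = 0^ℓ`, contradiction. `F_fix`: `g ∈ N0`: `cj g` fixes `E` (`cj_fix`)
and `ρb (cj g) = 1`, so it fixes `eta i` (`K2a`); `K5b`. `F_T`: `K5c`. `cert`: apply `Th` to `∑ al_j u_j = 1`: some `Th u_j ∉ q`; `Th (a_j)` is fixed by `N'`: `K5a` with `γ = 1`. `nonpow`: `y = Th s` (`K6b`); `σ γ (Th F) = Th (γ • F)` (`K5a`), so the product is `Th (Xn F ν)`, `t` of it is `Th (tau (Xn F ν))` (`K5d`); `Th (s^ℓ) = Th (Yn ..)`, `K6a`, contradiction with `GEO`.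
-/

set_option autoImplicit false

namespace Pool.Agent.QPC

open Polynomial

variable (p : ℕ) [Fact p.Prime] (Ω : Type) [Field Ω] [Algebra (RatFunc (ZMod p)) Ω]
  [IsSepClosed Ω] [Algebra.IsSeparable (RatFunc (ZMod p)) Ω]

theorem k7_prim {m : ℕ} (hmp : m.Coprime p) :
    ∃ ζ : kF p Ω, IsPrimitiveRoot (ζ : Ω) m := by
  have hac : IsAlgClosed (kF p Ω) := F1 p Ω
  have : NeZero (m : kF p Ω) := ⟨fun h => by
    rw [CharP.cast_eq_zero_iff (kF p Ω) p] at h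
    have h1 := Nat.dvd_gcd h dvd_rfl
    rw [hmp] at h1
    exact (Fact.out : p.Prime).one_lt.ne' (Nat.dvd_one.1 h1)⟩
  obtain ⟨ζ, hζ⟩ := HasEnoughRootsOfUnity.exists_primitiveRoot (kF p Ω) m
  exact ⟨ζ, hζ.map_of_injective (f := (kF p Ω).subtype) (kF p Ω).subtype.injective⟩

theorem K7 {H : Type} [Group H] [Finite H] {Hb : Type} [Group Hb] [Finite Hb] (ρ : GG p Ω →* H)
    (hρ : Ad p Ω ρ) (ρb : GG p Ω →* Hb) (hρb : Ad p Ω ρb)
    (hle : ∀ g : GG p Ω, ρ g = 1 → ρb g = 1) {ℓ e : ℕ} (hl : ℓ.Prime) (hlp : ℓ ≠ p) (he : 1 ≤ e)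
    (hcard : ¬ ℓ ∣ Nat.card (Gb p Ω ρb)) (h2 : ∃ g : GG p Ω, Geo g ∧ ρb g ≠ 1) :
    ∃ (r : ℕ) (b ζ F : Ω) (Ψ : Ω ≃+* Ω) (hΨ : PsiOK p Ψ), GO ρ ρb ℓ e r b ζ F Ψ hΨ := by
  classical
  have hch : CharP Ω p := om_charP p Ω
  have hac : IsAlgClosed (kF p Ω) := F1 p Ω
  have halg : Algebra.IsAlgebraic (ZMod p) (kF p Ω) := K1a p Ω
  have hic : IsIntegrallyClosed (Zg p Ω ρb) := K1b p Ω ρb
  have hm : 2 ≤ ℓ ^ e := le_trans hl.two_le (Nat.le_self_pow (by omega) ℓ)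
  have hmp : (ℓ ^ e).Coprime p :=
    Nat.Coprime.pow_left _ ((Nat.coprime_primes hl Fact.out).2 hlp)
  obtain ⟨n, ⟨eta⟩⟩ := K1e p Ω ρb hρb
  choose E1 hE1 using fun i : Fin n => K2a p Ω ρb hρb (eta i : Ω) (eta i).2
  obtain ⟨E2, hE2⟩ := K2b p Ω ρb hρb
  obtain ⟨ζ, hζ⟩ := k7_prim p Ω hmp
  let hfin : Fintype (Gb p Ω ρb) := Fintype.ofFinite _
  have hcard' : ¬ ℓ ∣ Fintype.card (Gb p Ω ρb) := by rwa [← Nat.card_eq_fintype_card]
  obtain ⟨b, hb0, hE, hbb, F, N, a, u, al, hF, -, hau, hal, hpow⟩ :=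
    Pool.QPC.GEO (p := p) (k := kF p Ω) eta (K1c p Ω ρb hρb) (K1d p Ω ρb) hl hlp he hcard'
      (Finset.univ.biUnion E1 ∪ E2 ∪ {ζ})
  obtain ⟨r, hr, hrk⟩ := K3 p Ω (b ^ (p - 1))
  obtain ⟨w, hw⟩ := D3b p Ω (m := ℓ ^ e) (r := r) (by omega) hmp hr
  obtain ⟨Ψ, hΨ1, hΨ2, hΨ3, hΨ4⟩ := D0 p Ω w ((X ^ p ^ r - X) ^ (ℓ ^ e)) (by
    rw [eval₂_pow, eval₂_sub, eval₂_pow, eval₂_X, hw])
  have hΨx : Ψ (xx p Ω) = (xx p Ω ^ p ^ r - xx p Ω) ^ ℓ ^ e := by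
    conv_lhs => rw [← hw]
    rw [map_pow, map_sub, map_pow, hΨ2]
  have hΨ : PsiOK p Ψ := by
    refine ⟨hΨ1, ⟨(X ^ p ^ r - X) ^ (ℓ ^ e), ?_⟩, hΨ3, hΨ4⟩
    rw [hΨx, map_pow, map_sub, map_pow, xx]
  have hbr : (b : Ω) ^ p ^ r = b := congrArg Subtype.val ((hrk b).1 hbb)
  have L : LC (ℓ ^ e) r b Ψ := ⟨hr, hb0, hbr, hΨ, hΨx⟩
  have hsymm : Ψ.symm (xx p Ω) = w := by rw [← hΨ2, RingEquiv.symm_apply_apply]
  have htr : ∀ w' : Ω, (w' ^ p ^ r - w') ^ ℓ ^ e = xx p Ω →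
      ∃ g : GG p Ω, Geo g ∧ ρ g = 1 ∧ g (Ψ.symm (xx p Ω)) = w' := by
    intro w' hw'
    rw [hsymm]
    exact D3c p Ω ρ hρ hm hmp hr w w' hw hw'
  have hcl : ∀ x : kF p Ω, x ∈ Subfield.closure {b ^ (p - 1)} → (x : Ω) ^ p ^ r = x :=
    fun x hx => congrArg Subtype.val ((hrk x).1 hx)
  have hEr : ∀ x ∈ (Finset.univ.biUnion E1 ∪ E2 ∪ {ζ} : Finset (kF p Ω)), (x : Ω) ^ p ^ r = x :=
    fun x hx => hcl x (hE x hx)
  have hK5a1 : ∀ g : GG p Ω, Geo g → ρb (cj L.ok g) = 1 → ∀ s, g (Th L ρb s) = Th L ρb s := by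
    intro g hg h1 s
    have := K5a p Ω ρb L g hg 1 (by rw [h1]; rfl) s
    rwa [one_smul] at this
  have hinj := K6a p Ω ρb L hρb hle htr
  refine ⟨r, b, ζ, Th L ρb F, Ψ, L.ok, ?_⟩
  constructor
  · exact hr
  · exact hbr
  · exact fun h0 => hb0 (Subtype.ext h0)
  · -- b_gen
    intro c hc x hx
    have h3 : (⟨x, ⟨r, hr, hx⟩⟩ : kF p Ω) ∈ Subfield.closure {b ^ (p - 1)} :=
      (hrk _).2 (Subtype.ext hx)
    have h4 : Subfield.closure {b ^ (p - 1)} ≤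
        RingHom.eqLocusField (((c : Ω ≃+* Ω) : Ω →+* Ω).comp (kF p Ω).subtype)
          (kF p Ω).subtype := by
      rw [Subfield.closure_le, Set.singleton_subset_iff]
      exact hc
    exact h4 h3
  · exact hζ
  · exact hEr ζ (Finset.mem_union_right _ (Finset.mem_singleton_self ζ))
  · exact hΨx
  · exact htr
  · -- geo
    intro c hc
    exact hE2 c fun x hx => hc x (hEr x (Finset.mem_union_left _ (Finset.mem_union_right _ hx)))
  · exact K5e p Ω ρb L F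
  · -- F_ne
    intro h0
    have hF0 : F = 0 := hinj (by rw [h0, map_zero])
    obtain ⟨g, hg, hgne⟩ := h2
    refine hpow (fun g => if g = 1 then 1 else 0) (fun g => ?_)
      ⟨1, ⟨ρb g, g, hg, rfl⟩, ?_⟩ 0 ?_
    · have := hl.two_le
      split_ifs <;> omega
    · have h5 : (⟨ρb g, g, hg, rfl⟩ : Gb p Ω ρb) ≠ 1 := fun h => hgne (congrArg Subtype.val h)
      rw [if_pos rfl, if_neg h5]
      exact one_ne_zero
    · rw [Pool.QPC.Yn, Pool.QPC.Xn, hF0,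
        Finset.prod_eq_zero (Finset.mem_univ (1 : Gb p Ω ρb)) (by rw [smul_zero, if_pos rfl, pow_one]),
        zero_mul, zero_pow hl.ne_zero]
  · -- F_fix
    rintro g ⟨hg1, hg2⟩
    refine K5b p Ω ρb L eta _ hbb F hF g (fun x hx => hg1 x (hcl x hx)) fun i => ?_
    refine hE1 i (cj L.ok g) (fun x hx => ?_) hg2
    rw [cj_fix L.ok g x.2]
    exact hg1 x (hEr x (Finset.mem_union_left _ (Finset.mem_union_left _
      (Finset.mem_biUnion.2 ⟨i, Finset.mem_univ i, hx⟩))))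
  · -- F_T
    intro c a' t _ ht hz
    exact K5c p Ω ρb L hle ht c hz F
  · -- cert
    intro q hq
    obtain ⟨j, hj⟩ : ∃ j, (⟨Th L ρb (u j), K5e p Ω ρb L (u j)⟩ : Zr p Ω) ∉ q := by
      by_contra hcon
      push Not at hcon
      apply hq.ne_top
      rw [Ideal.eq_top_iff_one]
      have h5 : (1 : Zr p Ω) = ∑ j, (⟨Th L ρb (al j), K5e p Ω ρb L (al j)⟩ : Zr p Ω) *
          ⟨Th L ρb (u j), K5e p Ω ρb L (u j)⟩ := by
        apply Subtype.ext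
        rw [AddSubmonoidClass.coe_finsetSum]
        have h6 := congrArg (Th L ρb) hal
        rw [map_sum, map_one] at h6
        simp only [map_mul] at h6
        exact h6.symm
      rw [h5]
      exact Ideal.sum_mem _ fun j _ => q.mul_mem_left _ (hcon j)
    refine ⟨⟨Th L ρb (a j), K5e p Ω ρb L (a j)⟩, ⟨Th L ρb (u j), K5e p Ω ρb L (u j)⟩, ?_, hj, ?_⟩
    · change Th L ρb (a j) ^ ℓ ^ e = Th L ρb F * Th L ρb (u j)
      rw [← map_pow, hau, map_mul]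
    · intro g hg h1
      exact hK5a1 g hg h1 (a j)
  · -- nonpow
    intro inst ν hν hne σ hσ a' t _ ht hz y hy hy1 hy2 heq
    have hinst : inst = hfin := Subsingleton.elim _ _
    subst hinst
    obtain ⟨s, rfl⟩ := K6b p Ω ρb L hρb hle htr y hy hy1 hy2
    have h7 : ∏ γ, σ γ (Th L ρb F) ^ ν γ = Th L ρb (Pool.QPC.Xn F ν) := by
      rw [Pool.QPC.Xn, map_prod]
      refine Finset.prod_congr rfl fun γ _ => ?_
      rw [K5a p Ω ρb L (σ γ) (hσ γ).1 γ (hσ γ).2 F, map_pow]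
    rw [h7, K5d p Ω ρb L hle ht hz, ← map_pow, ← map_pow, ← map_mul] at heq
    exact hpow ν hν hne s (hinj heq)

end Pool.Agent.QPC
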