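import Mathlib
import Pool.Agent.QPC.Defs

/-!
# QPC row P0: linearisation of an elementary abelian normal subgroup inside `Ω`
Plan. `N` is a vector space over `ZMod p` (`Additive N`, exponent `p`), finite, so it has a basis, `d` = dimension. `ι x i` := the `i`-th coordinate of `x`, cast to `Ω`
(`ZMod.castHom (dvd_refl p) Ω`, needs `CharP Ω p` = `om_charP p Ω`), for `x ∈ N`, and `0` for `x ∉ N`. `M g` := matrix of the conjugation by `g` on `N`, cast to `Ω`. The elements `a` of `Ω` with `a^p = a` are exactly the casts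
of elements of `ZMod p` (the polynomial `T^p - T` has at most `p` roots).
-/

set_option autoImplicit false

namespace Pool.Agent.QPC

open Polynomial

variable (p : ℕ) [Fact p.Prime] (Ω : Type) [Field Ω] [Algebra (RatFunc (ZMod p)) Ω]

omit [Algebra (RatFunc (ZMod p)) Ω] in
theorem p0_root (f : ZMod p →+* Ω) (a : Ω) (ha : a ^ p = a) : ∃ c : ZMod p, f c = a := by
  classical
  have hp : p.Prime := Fact.out
  by_contra hcon
  push Not at hcon
  have hinj : Function.Injective f := f.injective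
  let P : Polynomial Ω := X ^ p - X
  have hP : P ≠ 0 := FiniteField.X_pow_card_sub_X_ne_zero Ω hp.one_lt
  have hdeg : P.natDegree = p := FiniteField.X_pow_card_sub_X_natDegree_eq Ω hp.one_lt
  let s : Finset Ω := insert a (Finset.univ.image f)
  have hs : s ⊆ P.roots.toFinset := by
    intro t ht
    rw [Multiset.mem_toFinset, mem_roots hP]
    simp only [P, IsRoot.def, eval_sub, eval_pow, eval_X]
    rcases Finset.mem_insert.1 ht with h | h
    · rw [h, ha, sub_self]
    · obtain ⟨c, _, rfl⟩ := Finset.mem_image.1 h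
      rw [← map_pow, ZMod.pow_card, sub_self]
  have hcard : s.card = p + 1 := by
    rw [Finset.card_insert_of_notMem, Finset.card_image_of_injective _ hinj, Finset.card_univ,
      ZMod.card]
    intro h
    obtain ⟨c, _, hc⟩ := Finset.mem_image.1 h
    exact hcon c hc
  have h1 : s.card ≤ P.roots.toFinset.card := Finset.card_le_card hs
  have h2 : P.roots.toFinset.card ≤ P.roots.card := Multiset.toFinset_card_le _
  have h3 : P.roots.card ≤ P.natDegree := card_roots' P
  omega

omit [Algebra (RatFunc (ZMod p)) Ω] in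
theorem p0_lin (f : ZMod p →+* Ω) (G : Type) (V : Type) [AddCommGroup V] [Module (ZMod p) V]
    [Finite V] (cj : G → (V →ₗ[ZMod p] V)) :
    ∃ (d : ℕ) (c : V → Fin d → Ω) (M : G → Fin d → Fin d → Ω),
      (∀ x y, c (x + y) = c x + c y) ∧ (∀ x, c x = 0 → x = 0) ∧
      (∀ x i, c x i ^ p = c x i) ∧
      (∀ v : Fin d → Ω, (∀ i, v i ^ p = v i) → ∃ x, c x = v) ∧
      (∀ g i j, M g i j ^ p = M g i j) ∧
      (∀ g x i, c (cj g x) i = ∑ j, M g i j * c x j) ∧
      (∀ g, cj g = LinearMap.id → ∀ i j, M g i j = if i = j then 1 else 0) ∧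
      (∀ g h k, cj k = (cj g).comp (cj h) → ∀ i j, M k i j = ∑ l, M g i l * M h l j) := by
  classical
  have hfp : ∀ c : ZMod p, f c ^ p = f c := fun c => by rw [← map_pow, ZMod.pow_card]
  have hinj : Function.Injective f := f.injective
  let b := Module.finBasis (ZMod p) V
  refine ⟨Module.finrank (ZMod p) V, fun x i => f (b.repr x i),
    fun g i j => f (LinearMap.toMatrix b b (cj g) i j), ?_, ?_, ?_, ?_, ?_, ?_, ?_, ?_⟩
  · intro x y
    funext i
    simp only [Pi.add_apply, map_add, Finsupp.add_apply]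
  · intro x h0
    have h1 : b.repr x = 0 := by
      ext i
      have h2 := congrFun h0 i
      simp only [Pi.zero_apply] at h2
      exact hinj (by rw [h2]; simp)
    simpa using h1
  · intro x i
    exact hfp _
  · intro v hv
    choose c hcv using fun i => p0_root p Ω f (v i) (hv i)
    refine ⟨b.repr.symm (Finsupp.equivFunOnFinite.symm c), ?_⟩
    funext i
    simp only [LinearEquiv.apply_symm_apply, Finsupp.equivFunOnFinite_symm_apply_apply]
    exact hcv i
  · intro g i j
    exact hfp _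
  · intro g x i
    have h2 := LinearMap.toMatrix_mulVec_repr b b (cj g) x
    have h3 := congrFun h2 i
    simp only []
    rw [← h3]
    simp only [Matrix.mulVec, dotProduct, map_sum, map_mul]
  · intro g h1 i j
    simp only [h1, LinearMap.toMatrix_id, Matrix.one_apply]
    split_ifs <;> simp
  · intro g h k h1 i j
    simp only [h1, LinearMap.toMatrix_comp b b b, Matrix.mul_apply, map_sum, map_mul]

omit [Algebra (RatFunc (ZMod p)) Ω] in
theorem p0_grp (f : ZMod p →+* Ω) (G : Type) [Group G] (A : Type) [CommGroup A] [Finite A]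
    (ha : ∀ x : A, x ^ p = 1) (act : G → (A →* A)) :
    ∃ (d : ℕ) (c : A → Fin d → Ω) (M : G → Fin d → Fin d → Ω),
      (∀ x y, c (x * y) = c x + c y) ∧ (∀ x, c x = 0 → x = 1) ∧
      (∀ x i, c x i ^ p = c x i) ∧
      (∀ v : Fin d → Ω, (∀ i, v i ^ p = v i) → ∃ x, c x = v) ∧
      (∀ g i j, M g i j ^ p = M g i j) ∧
      (∀ g x i, c (act g x) i = ∑ j, M g i j * c x j) ∧
      (∀ g, (∀ x, act g x = x) → ∀ i j, M g i j = if i = j then 1 else 0) ∧
      (∀ g h k, (∀ x, act k x = act g (act h x)) → ∀ i j, M k i j = ∑ l, M g i l * M h l j) := by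
  let iM : Module (ZMod p) (Additive A) := AddCommGroup.zmodModule (n := p) (fun x => by
    change Additive.ofMul (x.toMul ^ p) = 0
    rw [ha]; rfl)
  have hfin : Finite (Additive A) := (inferInstance : Finite A)
  obtain ⟨d, c, M, h1, h2, h3, h4, h5, h6, h7, h8⟩ := p0_lin p Ω f G (Additive A)
    (fun g => (MonoidHom.toAdditive (act g)).toZModLinearMap p)
  refine ⟨d, fun x => c (Additive.ofMul x), M, fun x y => h1 _ _, fun x hx => h2 _ hx,
    fun x i => h3 _ i, fun v hv => ?_, h5, fun g x i => h6 g (Additive.ofMul x) i,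
    fun g hg i j => h7 g ?_ i j, fun g h k hk i j => h8 g h k ?_ i j⟩
  · obtain ⟨w, hw⟩ := h4 v hv
    exact ⟨w.toMul, hw⟩
  · apply LinearMap.ext
    intro y
    exact hg y.toMul
  · apply LinearMap.ext
    intro y
    exact hk y.toMul

theorem P0 (G : Type) [Group G] [Finite G] (N : Subgroup G) [N.Normal]
    (hc : ∀ x ∈ N, ∀ y ∈ N, x * y = y * x) (he : ∀ x ∈ N, x ^ p = 1) :
    ∃ (d : ℕ) (ι : G → Fin d → Ω) (M : G → Fin d → Fin d → Ω),
      (∀ x ∈ N, ∀ y ∈ N, ι (x * y) = ι x + ι y) ∧ (∀ x ∈ N, ι x = 0 → x = 1) ∧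
      (∀ x ∈ N, ∀ i, ι x i ^ p = ι x i) ∧
      (∀ v : Fin d → Ω, (∀ i, v i ^ p = v i) → ∃ x ∈ N, ι x = v) ∧
      (∀ g i j, M g i j ^ p = M g i j) ∧
      (∀ g, ∀ x ∈ N, ∀ i, ι (g * x * g⁻¹) i = ∑ j, M g i j * ι x j) ∧
      (∀ x ∈ N, ∀ i j, M x i j = if i = j then 1 else 0) ∧
      (∀ g h i j, M (g * h) i j = ∑ l, M g i l * M h l j) := by
  classical
  have hch := om_charP p Ω
  let f : ZMod p →+* Ω := ZMod.castHom (dvd_refl p) Ω
  let iC : CommGroup N := { (inferInstance : Group N) with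
    mul_comm := fun x y => Subtype.ext (hc x.1 x.2 y.1 y.2) }
  obtain ⟨d, c, M, h1, h2, h3, h4, h5, h6, h7, h8⟩ := p0_grp p Ω f G N
    (fun x => Subtype.ext (he _ x.2)) (fun g => (MulAut.conjNormal g : MulAut N).toMonoidHom)
  have hcj : ∀ (g : G) (x : N), (MulAut.conjNormal g : MulAut N) x =
      (⟨g * x * g⁻¹, Subgroup.Normal.conj_mem inferInstance _ x.2 g⟩ : N) := by
    intro g x
    exact Subtype.ext (by simp)
  refine ⟨d, fun x => if h : x ∈ N then c (⟨x, h⟩ : N) else 0,
    M, ?_, ?_, ?_, ?_, h5, ?_, ?_, ?_⟩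
  · intro x hx y hy
    have hxy : x * y ∈ N := mul_mem hx hy
    simp only [dif_pos hx, dif_pos hy, dif_pos hxy]
    exact h1 (⟨x, hx⟩ : N) (⟨y, hy⟩ : N)
  · intro x hx h0
    simp only [dif_pos hx] at h0
    have h4 : (⟨x, hx⟩ : N) = 1 := h2 _ h0
    exact congrArg Subtype.val h4
  · intro x hx i
    simp only [dif_pos hx]
    exact h3 _ _
  · intro v hv
    obtain ⟨w, hw⟩ := h4 v hv
    refine ⟨w.1, w.2, ?_⟩
    simp only [dif_pos w.2]
    exact hw
  · intro g x hx i
    have hgx : g * x * g⁻¹ ∈ N := Subgroup.Normal.conj_mem inferInstance _ hx g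
    simp only [dif_pos hgx, dif_pos hx]
    have h9 := h6 g (⟨x, hx⟩ : N) i
    have h10 : ((MulAut.conjNormal g : MulAut N).toMonoidHom) (⟨x, hx⟩ : N) =
        (⟨g * x * g⁻¹, hgx⟩ : N) := hcj g ⟨x, hx⟩
    rw [h10] at h9
    exact h9
  · intro x hx i j
    refine h7 x (fun z => ?_) i j
    have h10 : ((MulAut.conjNormal x : MulAut N).toMonoidHom) z =
        (⟨x * z * x⁻¹, Subgroup.Normal.conj_mem inferInstance _ z.2 x⟩ : N) := hcj x z
    rw [h10]
    apply Subtype.ext
    change x * z.1 * x⁻¹ = z.1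
    rw [hc x hx z.1 z.2, mul_inv_cancel_right]
  · intro g h i j
    refine h8 g h (g * h) (fun z => ?_) i j
    change (MulAut.conjNormal (g * h) : MulAut N) z =
      (MulAut.conjNormal g : MulAut N) ((MulAut.conjNormal h : MulAut N) z)
    rw [map_mul]
    rfl

end Pool.Agent.QPC
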