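import Mathlib
import Pool.Agent.QPC.Defs
import Pool.Agent.QPC.F5

/-!
# QPC row P1: solving the embedding problem with elementary abelian p-kernel (Artin-Schreier)
Setting: `G` finite, `N` normal, `ρ : GG → G ⧸ N` realisation; `ι, M` as in row P0 (all values are fixed by every `g ∈ GG` because they are in `F_p`).
Write `g ⋆ v := (i ↦ ∑ j, M a i j * g (v j))` for `v ∈ Ω^d`, where `a : G` is any lift of `ρ g` (independent of the lift, since `M x = 1` for `x ∈ N`); an action of `GG` on `Ω^d`.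
Plan. Section `s : G ⧸ N → G`, `s 1 = 1` ; `f(g,h) := s g s h (s (gh))⁻¹ ∈ N`. `c` with trace one from `F6` (`Fintype (G ⧸ N)` classical), `τ(c)` for `τ ∈ G ⧸ N` (well defined).
`a(g) := ∑_τ ι(f(g,τ)) • (gτ)(c)`. The cocycle identity `f(g,h) f(gh,τ) = (s g f(h,τ) (s g)⁻¹) f(g,hτ)` gives `a(g) + g ⋆ a(h) - a(gh) = ι(f(g,h))`. `a(1) = 0`.
`β(g) := a(g)^p - a(g)` (coordinatewise Frobenius; commutes with `⋆` as the entries of `M` are in `F_p`) satisfies `β(gh) = β(g) + g ⋆ β(h)`. `w := ∑_τ β(τ) τ(c)`: then `g ⋆ w = w - β(g)`.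
Given `w0` invariant and `ω` with `ω^p - ω = w + w0` put `b(g) := a(ρ g) + g ⋆ ω - ω`; `b(g)^p = b(g)` coordinatewise, so `b(g) = ι(x_g)`, `x_g ∈ N`, and `b(g) + g ⋆ b(h) - b(gh) = ι(f(ρ g,ρ h))`.
Define `ρ' g := x_g⁻¹ * s (ρ g)`; it is a homomorphism lifting `ρ`. If `ρ g = 1` then `ι(ρ' g) = -b(g) = ω - g ω`.
`Ad`: `T := T_ρ ∪ {ω_i}`. Inert `g` at `q`: `ρ g = 1`; `ω_i ∈ Z` (root of a monic polynomial over `Z`), `g ω_i - ω_i ∈ q` and `(g ω_i - ω_i)^p = g ω_i - ω_i`, so it is in `F_p ∩ q = {0}` (`1 ∉ q`); so `ι(ρ' g) = 0`, `ρ' g = 1`.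
-/

set_option autoImplicit false

namespace Pool.Agent.QPC

open Polynomial

variable (p : ℕ) [Fact p.Prime] (Ω : Type) [Field Ω] [Algebra (RatFunc (ZMod p)) Ω]
  [IsSepClosed Ω] [Algebra.IsSeparable (RatFunc (ZMod p)) Ω]

omit [IsSepClosed Ω] [Algebra.IsSeparable (RatFunc (ZMod p)) Ω] in
private theorem p1_int {a : Ω} (ha : a ^ p = a) : ∃ n : ℤ, (n : Ω) = a := by
  have := om_charP p Ω
  exact (_root_.mem_bot_iff_intCast p Ω).1 ((Subfield.mem_bot_iff_pow_eq_self Ω p).2 ha)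

variable {p Ω}

omit [IsSepClosed Ω] [Algebra.IsSeparable (RatFunc (ZMod p)) Ω] in
private theorem p1_fix {a : Ω} (ha : a ^ p = a) (g : GG p Ω) : g a = a := by
  obtain ⟨n, rfl⟩ := p1_int p Ω ha
  exact map_intCast g n

omit [IsSepClosed Ω] [Algebra.IsSeparable (RatFunc (ZMod p)) Ω] in
private theorem p1_memZr {a : Ω} (ha : a ^ p = a) : a ∈ Zr p Ω := by
  obtain ⟨n, rfl⟩ := p1_int p Ω ha
  exact intCast_mem _ n

omit [IsSepClosed Ω] [Algebra.IsSeparable (RatFunc (ZMod p)) Ω] in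
private theorem p1_dep {H : Type} [Group H] (ρ : GG p Ω →* H) {c : Ω} (hc : c ∈ Zf p Ω ρ)
    {g g' : GG p Ω} (h : ρ g = ρ g') : g c = g' c := by
  have h1 : ρ (g⁻¹ * g') = 1 := by rw [map_mul, map_inv, h, inv_mul_cancel]
  have h2 := hc.2 _ h1
  have h3 := congrArg g h2
  have h4 : g ((g⁻¹ * g') c) = g' c := by
    change (g * (g⁻¹ * g')) c = g' c
    rw [mul_inv_cancel_left]
  rw [← h3, h4]

omit [IsSepClosed Ω] [Algebra.IsSeparable (RatFunc (ZMod p)) Ω] in
private theorem p1_intc {ω : Ω} (h : ω ^ p - ω ∈ Zr p Ω) : ω ∈ Zr p Ω := by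
  let _ : Algebra (ZMod p)[X] Ω := (inc p Ω).toAlgebra
  have hu : ω ^ p - ω ∈ integralClosure (ZMod p)[X] Ω := h
  have hp : 1 < p := (Fact.out : p.Prime).one_lt
  have h1 : IsIntegral (integralClosure (ZMod p)[X] Ω) ω := by
    refine ⟨X ^ p - (X + C ⟨_, hu⟩), ?_, ?_⟩
    · apply Polynomial.monic_X_pow_sub
      refine lt_of_le_of_lt (Polynomial.degree_X_add_C _).le ?_
      exact_mod_cast hp
    · rw [eval₂_sub, eval₂_pow, eval₂_add, eval₂_X, eval₂_C]
      show ω ^ p - (ω + (ω ^ p - ω)) = 0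
      ring
  exact isIntegral_trans (R := (ZMod p)[X]) (A := integralClosure (ZMod p)[X] Ω) ω h1

variable (p Ω)

theorem P1 (G : Type) [Group G] [Finite G] (N : Subgroup G) [N.Normal]
    (hc : ∀ x ∈ N, ∀ y ∈ N, x * y = y * x)
    (d : ℕ) (ι : G → Fin d → Ω) (M : G → Fin d → Fin d → Ω)
    (h1 : ∀ x ∈ N, ∀ y ∈ N, ι (x * y) = ι x + ι y) (h2 : ∀ x ∈ N, ι x = 0 → x = 1)
    (h3 : ∀ x ∈ N, ∀ i, ι x i ^ p = ι x i)
    (h4 : ∀ v : Fin d → Ω, (∀ i, v i ^ p = v i) → ∃ x ∈ N, ι x = v)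
    (h5 : ∀ g i j, M g i j ^ p = M g i j)
    (h6 : ∀ g, ∀ x ∈ N, ∀ i, ι (g * x * g⁻¹) i = ∑ j, M g i j * ι x j)
    (h7 : ∀ x ∈ N, ∀ i j, M x i j = if i = j then 1 else 0)
    (h8 : ∀ g h i j, M (g * h) i j = ∑ l, M g i l * M h l j)
    (ρ : GG p Ω →* G ⧸ N) (hρ : Rho p Ω ρ) :
    ∃ w : Fin d → Ω, (∀ i, w i ∈ Zf p Ω ρ) ∧
      ∀ w0 : Fin d → Ω, (∀ i, w0 i ∈ Zf p Ω ρ) →
        (∀ (g : GG p Ω) (a : G), (a : G ⧸ N) = ρ g → ∀ i, ∑ j, M a i j * g (w0 j) = w0 i) →
        ∀ ω : Fin d → Ω, (∀ i, ω i ^ p - ω i = w i + w0 i) →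
          ∃ ρ' : GG p Ω →* G, Ad p Ω ρ' ∧ (∀ g, ((ρ' g : G) : G ⧸ N) = ρ g) ∧
            ∀ g, ρ g = 1 → ∀ i, ι (ρ' g) i = ω i - g (ω i) := by
  classical
  have := om_charP p Ω
  have : Fintype (G ⧸ N) := Fintype.ofFinite _
  have hp0 : p ≠ 0 := (Fact.out : p.Prime).ne_zero
  obtain ⟨c, hcZ, hctr⟩ := F6 p Ω ρ hρ.toAd hρ.surj
  obtain ⟨σ, hσ⟩ := hρ.surj.hasRightInverse
  have hσ' : ∀ h, ρ (σ h) = h := hσ
  have htr : ∑ τ, σ τ c = 1 := hctr σ hσ'
  obtain ⟨s, hs, hs1⟩ : ∃ s : G ⧸ N → G, (∀ q, ((s q : G) : G ⧸ N) = q) ∧ s 1 = 1 := by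
    refine ⟨fun q => if q = 1 then 1 else q.out, ?_, by simp⟩
    intro q
    by_cases hq : q = 1
    · simp [hq]
    · simp only [hq, if_false]
      exact QuotientGroup.out_eq' q
  obtain ⟨f, hfdef⟩ : ∃ f : G ⧸ N → G ⧸ N → G, ∀ q r, f q r = s q * s r * (s (q * r))⁻¹ :=
    ⟨_, fun _ _ => rfl⟩
  have hfN : ∀ q r, f q r ∈ N := by
    intro q r
    rw [← QuotientGroup.eq_one_iff, hfdef, QuotientGroup.mk_mul, QuotientGroup.mk_mul,
      QuotientGroup.mk_inv, hs, hs, hs, mul_inv_cancel]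
  have hf1 : ∀ r, f 1 r = 1 := by
    intro r
    rw [hfdef, hs1, one_mul, one_mul, mul_inv_cancel]
  have hcoc : ∀ q r t, f q r * f (q * r) t = (s q * f r t * (s q)⁻¹) * f q (r * t) := by
    intro q r t
    rw [hfdef, hfdef, hfdef, hfdef, mul_assoc q r t]
    group
  -- the coordinates
  have hι1 : ι 1 = 0 := by
    have := h1 1 N.one_mem 1 N.one_mem
    rw [mul_one] at this
    exact add_left_cancel (a := ι 1) (by rw [add_zero]; exact this.symm)
  have hιinj : ∀ x ∈ N, ∀ y ∈ N, ι x = ι y → x = y := by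
    intro x hx y hy hxy
    have e1 := h1 x hx y⁻¹ (N.inv_mem hy)
    have e2 := h1 y hy y⁻¹ (N.inv_mem hy)
    rw [mul_inv_cancel, hι1] at e2
    rw [hxy, ← e2] at e1
    have e3 := h2 _ (N.mul_mem hx (N.inv_mem hy)) e1
    exact mul_inv_eq_one.1 e3
  have hMdep : ∀ a a' : G, (a : G ⧸ N) = (a' : G ⧸ N) → ∀ i j, M a' i j = M a i j := by
    intro a a' h i j
    have hx : a⁻¹ * a' ∈ N := QuotientGroup.eq.1 h
    have e1 := h8 a (a⁻¹ * a') i j
    rw [mul_inv_cancel_left] at e1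
    rw [e1]
    simp [h7 _ hx]
  have hMf : ∀ (g : GG p Ω) a i j, g (M a i j) = M a i j := fun g a i j => p1_fix (h5 a i j) g
  have hιf : ∀ (g : GG p Ω), ∀ x ∈ N, ∀ i, g (ι x i) = ι x i := fun g x hx i =>
    p1_fix (h3 x hx i) g
  -- the action
  obtain ⟨act, hact⟩ : ∃ act : GG p Ω → (Fin d → Ω) → Fin d → Ω,
      ∀ g v i, act g v i = ∑ j, M (s (ρ g)) i j * g (v j) := ⟨_, fun _ _ _ => rfl⟩
  have hact_mul : ∀ g h v i, act (g * h) v i = act g (act h v) i := by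
    intro g h v i
    rw [hact, hact]
    have e1 : ∀ j, M (s (ρ (g * h))) i j = ∑ l, M (s (ρ g)) i l * M (s (ρ h)) l j := by
      intro j
      rw [← h8]
      apply hMdep
      rw [hs, map_mul, QuotientGroup.mk_mul, hs, hs]
    calc ∑ j, M (s (ρ (g * h))) i j * (g * h) (v j)
        = ∑ j, ∑ l, M (s (ρ g)) i l * M (s (ρ h)) l j * g (h (v j)) := by
          refine Finset.sum_congr rfl fun j _ => ?_
          rw [e1, Finset.sum_mul]
          rfl
      _ = ∑ l, ∑ j, M (s (ρ g)) i l * M (s (ρ h)) l j * g (h (v j)) := Finset.sum_comm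
      _ = ∑ l, M (s (ρ g)) i l * g (act h v l) := by
          refine Finset.sum_congr rfl fun l _ => ?_
          rw [hact, map_sum, Finset.mul_sum]
          refine Finset.sum_congr rfl fun j _ => ?_
          rw [map_mul, hMf, mul_assoc]
  have hact_add : ∀ g u v i, act g (u + v) i = act g u i + act g v i := by
    intro g u v i
    rw [hact, hact, hact, ← Finset.sum_add_distrib]
    refine Finset.sum_congr rfl fun j _ => ?_
    rw [Pi.add_apply, map_add, mul_add]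
  have hact_sub : ∀ g u v i, act g (u - v) i = act g u i - act g v i := by
    intro g u v i
    rw [hact, hact, hact, ← Finset.sum_sub_distrib]
    refine Finset.sum_congr rfl fun j _ => ?_
    rw [Pi.sub_apply, map_sub, mul_sub]
  have hact_frob : ∀ g v i, act g (fun j => v j ^ p) i = act g v i ^ p := by
    intro g v i
    rw [hact, hact, sum_pow_char]
    refine Finset.sum_congr rfl fun j _ => ?_
    rw [map_pow, mul_pow, h5]
  have hact_ker : ∀ g, ρ g = 1 → ∀ v i, act g v i = g (v i) := by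
    intro g hg v i
    rw [hact, hg, hs1]
    simp [h7 1 N.one_mem]
  have hact_ι : ∀ g, ∀ x ∈ N, ∀ i, act g (ι x) i = ι (s (ρ g) * x * (s (ρ g))⁻¹) i := by
    intro g x hx i
    rw [hact, h6 _ x hx]
    refine Finset.sum_congr rfl fun j _ => ?_
    rw [hιf g x hx]
  have hact_ext : ∀ g u v, (∀ i, u i = v i) → ∀ i, act g u i = act g v i := by
    intro g u v huv i
    rw [funext huv]
  -- the cochain `a`
  obtain ⟨a, hadef⟩ : ∃ a : GG p Ω → Fin d → Ω, ∀ g i,
      a g i = ∑ τ, ι (f (ρ g) τ) i * g (σ τ c) := ⟨_, fun _ _ => rfl⟩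
  have hσdep : ∀ (g : GG p Ω) τ, σ (ρ g * τ) c = g (σ τ c) := by
    intro g τ
    have e1 : ρ (σ (ρ g * τ)) = ρ (g * σ τ) := by rw [hσ', map_mul, hσ']
    exact p1_dep ρ hcZ e1
  have hadep : ∀ g g', ρ g = ρ g' → ∀ i, a g i = a g' i := by
    intro g g' h i
    rw [hadef, hadef]
    refine Finset.sum_congr rfl fun τ _ => ?_
    rw [← hσdep, ← hσdep, h]
  have ha_coc : ∀ g h i, a g i + act g (a h) i = ι (f (ρ g) (ρ h)) i + a (g * h) i := by
    intro g h i
    have e1 : a g i = ∑ τ, ι (f (ρ g) (ρ h * τ)) i * (g * h) (σ τ c) := by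
      rw [hadef, ← Equiv.sum_comp (Equiv.mulLeft (ρ h)) (fun τ => ι (f (ρ g) τ) i * g (σ τ c))]
      refine Finset.sum_congr rfl fun τ _ => ?_
      rw [Equiv.coe_mulLeft, hσdep]
      rfl
    have e2 : act g (a h) i =
        ∑ τ, ι (s (ρ g) * f (ρ h) τ * (s (ρ g))⁻¹) i * (g * h) (σ τ c) := by
      rw [hact]
      calc ∑ j, M (s (ρ g)) i j * g (a h j)
          = ∑ j, ∑ τ, M (s (ρ g)) i j * ι (f (ρ h) τ) j * (g * h) (σ τ c) := by
            refine Finset.sum_congr rfl fun j _ => ?_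
            rw [hadef, map_sum, Finset.mul_sum]
            refine Finset.sum_congr rfl fun τ _ => ?_
            rw [map_mul, hιf g _ (hfN _ _), mul_assoc]
            rfl
        _ = ∑ τ, ∑ j, M (s (ρ g)) i j * ι (f (ρ h) τ) j * (g * h) (σ τ c) := Finset.sum_comm
        _ = _ := by
            refine Finset.sum_congr rfl fun τ _ => ?_
            rw [h6 _ _ (hfN _ _), Finset.sum_mul]
    have e3 : a (g * h) i = ∑ τ, ι (f (ρ g * ρ h) τ) i * (g * h) (σ τ c) := by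
      rw [hadef, map_mul]
    have e4 : ι (f (ρ g) (ρ h)) i = ∑ τ, ι (f (ρ g) (ρ h)) i * (g * h) (σ τ c) := by
      rw [← Finset.mul_sum, ← map_sum, htr, map_one, mul_one]
    rw [e4, e1, e2, e3, ← Finset.sum_add_distrib, ← Finset.sum_add_distrib]
    refine Finset.sum_congr rfl fun τ _ => ?_
    rw [← add_mul, ← add_mul]
    congr 1
    have hcN : s (ρ g) * f (ρ h) τ * (s (ρ g))⁻¹ ∈ N :=
      (inferInstance : N.Normal).conj_mem _ (hfN _ _) _
    have e5 := congrArg ι (hcoc (ρ g) (ρ h) τ)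
    rw [h1 _ (hfN _ _) _ (hfN _ _), h1 _ hcN _ (hfN _ _)] at e5
    have e6 := congrFun e5 i
    rw [Pi.add_apply, Pi.add_apply] at e6
    rw [e6, add_comm]
  have ha_ker : ∀ g, ρ g = 1 → ∀ i, a g i = 0 := by
    intro g hg i
    rw [hadef, hg]
    refine Finset.sum_eq_zero fun τ _ => ?_
    rw [hf1, hι1, Pi.zero_apply, zero_mul]
  -- `β`
  obtain ⟨β, hβdef⟩ : ∃ β : GG p Ω → Fin d → Ω, ∀ g i, β g i = a g i ^ p - a g i :=
    ⟨_, fun _ _ => rfl⟩
  have hβdep : ∀ g g', ρ g = ρ g' → ∀ i, β g i = β g' i := by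
    intro g g' h i
    rw [hβdef, hβdef, hadep g g' h]
  have hβ_coc : ∀ g h i, β (g * h) i = β g i + act g (β h) i := by
    intro g h i
    have e1 : a (g * h) i = a g i + act g (a h) i - ι (f (ρ g) (ρ h)) i := by
      rw [ha_coc]
      ring
    have e2 : a (g * h) i ^ p = a g i ^ p + act g (a h) i ^ p - ι (f (ρ g) (ρ h)) i := by
      rw [e1, sub_pow_char, add_pow_char, h3 _ (hfN _ _)]
    have e3 : act g (β h) i = act g (a h) i ^ p - act g (a h) i := by
      rw [← hact_frob, ← hact_sub]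
      exact hact_ext g _ _ (fun j => hβdef h j) i
    rw [hβdef, e2, e1, e3, hβdef]
    ring
  -- `w`
  obtain ⟨w, hwdef⟩ : ∃ w : Fin d → Ω, ∀ i, w i = ∑ τ, β (σ τ) i * σ τ c := ⟨_, fun _ => rfl⟩
  have hact_w : ∀ g i, act g w i = w i - β g i := by
    intro g i
    rw [hact]
    calc ∑ j, M (s (ρ g)) i j * g (w j)
        = ∑ j, ∑ τ, M (s (ρ g)) i j * g (β (σ τ) j) * g (σ τ c) := by
          refine Finset.sum_congr rfl fun j _ => ?_
          rw [hwdef, map_sum, Finset.mul_sum]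
          refine Finset.sum_congr rfl fun τ _ => ?_
          rw [map_mul, mul_assoc]
      _ = ∑ τ, ∑ j, M (s (ρ g)) i j * g (β (σ τ) j) * g (σ τ c) := Finset.sum_comm
      _ = ∑ τ, (β (σ (ρ g * τ)) i - β g i) * σ (ρ g * τ) c := by
          refine Finset.sum_congr rfl fun τ _ => ?_
          rw [← Finset.sum_mul, ← hact, hσdep]
          congr 1
          have e1 := hβ_coc g (σ τ) i
          have e2 : β (g * σ τ) i = β (σ (ρ g * τ)) i :=
            hβdep _ _ (by rw [map_mul, hσ', hσ']) i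
          rw [e2] at e1
          rw [e1]
          ring
      _ = ∑ τ, (β (σ τ) i - β g i) * σ τ c :=
          Equiv.sum_comp (Equiv.mulLeft (ρ g)) (fun τ => (β (σ τ) i - β g i) * σ τ c)
      _ = w i - β g i := by
          rw [hwdef]
          simp only [sub_mul]
          rw [Finset.sum_sub_distrib, ← Finset.mul_sum, htr, mul_one]
  have hcZr : ∀ g : GG p Ω, g c ∈ Zr p Ω := fun g => gal_Zr g hcZ.1
  have haZ : ∀ g i, a g i ∈ Zr p Ω := by
    intro g i
    rw [hadef]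
    refine sum_mem fun τ _ => mul_mem (p1_memZr (h3 _ (hfN _ _) i)) (gal_Zr g (hcZr _))
  have hwZ : ∀ i, w i ∈ Zf p Ω ρ := by
    intro i
    refine ⟨?_, ?_⟩
    · rw [hwdef]
      refine sum_mem fun τ _ => mul_mem ?_ (hcZr _)
      rw [hβdef]
      exact sub_mem (pow_mem (haZ _ _) p) (haZ _ _)
    · intro g hg
      have e1 := hact_w g i
      rw [hact_ker g hg, hβdef, ha_ker g hg, zero_pow hp0, sub_zero, sub_zero] at e1
      exact e1
  refine ⟨w, hwZ, ?_⟩
  intro w0 hw0 hw0' ω hω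
  have hact_w0 : ∀ g i, act g w0 i = w0 i := by
    intro g i
    rw [hact]
    exact hw0' g (s (ρ g)) (hs _) i
  -- the cochain `b`
  obtain ⟨b, hbdef⟩ : ∃ b : GG p Ω → Fin d → Ω, ∀ g i, b g i = a g i + act g ω i - ω i :=
    ⟨_, fun _ _ => rfl⟩
  have hbp : ∀ g i, b g i ^ p = b g i := by
    intro g i
    have e1 : act g ω i ^ p - act g ω i = act g w i + act g w0 i := by
      rw [← hact_frob, ← hact_sub, ← hact_add]
      exact hact_ext g _ _ (fun j => hω j) i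
    rw [hact_w, hact_w0] at e1
    have e2 := hω i
    have e3 := hβdef g i
    rw [hbdef, sub_pow_char, add_pow_char]
    linear_combination e1 - e2 - e3
  have hb_coc : ∀ g h i, b g i + act g (b h) i = ι (f (ρ g) (ρ h)) i + b (g * h) i := by
    intro g h i
    have e1 : act g (b h) i = act g (a h) i + act (g * h) ω i - act g ω i := by
      rw [hact_mul, ← hact_add, ← hact_sub]
      exact hact_ext g _ _ (fun j => hbdef h j) i
    have e2 := ha_coc g h i
    rw [e1, hbdef, hbdef]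
    linear_combination e2
  have hx : ∀ g, ∃ x ∈ N, ι x = b g := fun g => h4 (b g) (hbp g)
  choose x hxN hxb using hx
  have hxmul : ∀ g h, f (ρ g) (ρ h) * x (g * h) = x g * (s (ρ g) * x h * (s (ρ g))⁻¹) := by
    intro g h
    have hcN : s (ρ g) * x h * (s (ρ g))⁻¹ ∈ N :=
      (inferInstance : N.Normal).conj_mem _ (hxN _) _
    apply hιinj _ (N.mul_mem (hfN _ _) (hxN _)) _ (N.mul_mem (hxN _) hcN)
    rw [h1 _ (hfN _ _) _ (hxN _), h1 _ (hxN _) _ hcN]
    funext i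
    rw [Pi.add_apply, Pi.add_apply, ← hact_ι g _ (hxN h), hxb, hxb, hxb]
    exact (hb_coc g h i).symm
  have hρ'mul : ∀ g h, (x (g * h))⁻¹ * s (ρ (g * h)) = (x g)⁻¹ * s (ρ g) * ((x h)⁻¹ * s (ρ h)) := by
    intro g h
    have hcN : s (ρ g) * x h * (s (ρ g))⁻¹ ∈ N :=
      (inferInstance : N.Normal).conj_mem _ (hxN _) _
    have e1 := hxmul g h
    rw [hc _ (hxN g) _ hcN] at e1
    -- `x (g h) = f⁻¹ (s x_h s⁻¹) x_g`
    have e2 : (x (g * h))⁻¹ = (x g)⁻¹ * (s (ρ g) * x h * (s (ρ g))⁻¹)⁻¹ * f (ρ g) (ρ h) := by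
      rw [← mul_inv_rev, ← e1]
      group
    rw [e2, hfdef, map_mul]
    group
  refine ⟨MonoidHom.mk' (fun g => (x g)⁻¹ * s (ρ g)) hρ'mul, ?_, ?_, ?_⟩
  · have hkey : ∀ g, ρ g = 1 → (∀ i, b g i = 0) → (x g)⁻¹ * s (ρ g) = 1 := by
      intro g hg hb
      have e1 : x g = 1 := h2 _ (hxN g) (by rw [hxb]; funext i; exact hb i)
      rw [e1, hg, hs1, inv_one, one_mul]
    have hbker : ∀ g, ρ g = 1 → ∀ i, b g i = g (ω i) - ω i := by
      intro g hg i
      rw [hbdef, ha_ker g hg, hact_ker g hg, zero_add]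
    constructor
    · obtain ⟨T, hT⟩ := hρ.fin
      refine ⟨T ∪ Finset.univ.image ω, ?_⟩
      intro g hg
      have hg1 : ρ g = 1 := hT g (fun t ht => hg t (Finset.mem_union_left _ ht))
      apply hkey g hg1
      intro i
      rw [hbker g hg1, hg (ω i) (Finset.mem_union_right _
        (Finset.mem_image_of_mem _ (Finset.mem_univ i))), sub_self]
    · intro g hg
      have hg1 : ρ g = 1 := hρ.inert g hg
      apply hkey g hg1
      intro i
      obtain ⟨q, hq, hqg⟩ := hg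
      have hωZ : ω i ∈ Zr p Ω := by
        apply p1_intc
        rw [hω i]
        exact add_mem (hwZ i).1 (hw0 i).1
      obtain ⟨t, htq, ht⟩ := hqg ⟨ω i, hωZ⟩
      have ht' : (t : Ω) = b g i := by rw [ht, hbker g hg1]
      have htp : t ^ p = t := by
        apply Subtype.ext
        show ((t : Ω)) ^ p = t
        rw [ht', hbp]
      by_contra hne
      have ht0 : t ≠ 0 := by
        rintro rfl
        apply hne
        rw [← ht']
        rfl
      apply hq.ne_top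
      rw [Ideal.eq_top_iff_one]
      have hp1 : p = (p - 1) + 1 := (Nat.succ_pred_eq_of_pos (Fact.out : p.Prime).pos).symm
      have e1 : t ^ (p - 1) = 1 := by
        apply mul_right_cancel₀ ht0
        rw [one_mul, ← pow_succ, ← hp1, htp]
      rw [← e1]
      apply Ideal.pow_mem_of_mem q htq
      have := (Fact.out : p.Prime).two_le
      omega
  · intro g
    show (((x g)⁻¹ * s (ρ g) : G) : G ⧸ N) = ρ g
    rw [QuotientGroup.mk_mul, hs, QuotientGroup.mk_inv, (QuotientGroup.eq_one_iff _).2 (hxN g),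
      inv_one, one_mul]
  · intro g hg i
    show ι ((x g)⁻¹ * s (ρ g)) i = ω i - g (ω i)
    have e1 := h1 _ (hxN g) _ (N.inv_mem (hxN g))
    rw [mul_inv_cancel, hι1] at e1
    have e2 := congrFun e1 i
    rw [Pi.add_apply, Pi.zero_apply, hxb, hbdef, ha_ker g hg, hact_ker g hg] at e2
    rw [hg, hs1, mul_one]
    linear_combination -e2

end Pool.Agent.QPC
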