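import Mathlib
import Pool.Agent.QPC.Defs
import Pool.Agent.QPC.F5
import Pool.Agent.QPC.F10
import Pool.Agent.QPC.F11

/-!
# QPC row P2: `X^N ω` is not of the form `y^p - y` over the geometric cover, for some `N`
`Zg p Ω ρ` = elements of `Z` fixed by the geometric elements of `ker ρ`.
Plan (no derivations). Let `Γ := ρ(Geo)` (finite). By `F5` there are `x_i, y_i ∈ Zf ⊆ Zg` with `∑ x_i y_i = 1`, `∑ x_i g(y_i) = 0` for `ρ g ≠ 1`. For `s ∈ Zg` let
`Tr s := ∑_{γ ∈ Γ} g_γ(s)` (`g_γ` a geometric lift; independent of the lift): fixed by `Geo`, so (`F11`) `Tr s = inck (t s)` with `t s ∈ k[X]`; `s = ∑ x_i Tr(y_i s)`.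
* Some `β ∈ Zg` has `Tr(β^p ω1) ≠ 0`: otherwise, as `Tr` is `k[X]`-linear and the `β^p` span `Frac(Zg)` over `k(X)` (separable extension: `K = k(X) K^p`), or more concretely:
  linear independence of the distinct characters `β ↦ g_γ(β)^p` (`linearIndependent_monoidHom`, Dedekind) of the monoid `Zg` gives `g_γ(ω1) = 0`, contradiction.
  (`∑_γ g_γ(ω1) g_γ(β)^p = 0` for all `β`; the characters `β ↦ g_γ(β)^p` are distinct since `Frobenius` is injective and the `g_γ` differ on the `y_i`.)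
* Suppose for every `N` there is `y_N ∈ Zg` with `y_N^p - y_N = X^N ω1`. Let `r := t(β^p ω1) ≠ 0`. Then `X^N r = (t(β y_N))^p - t(β^p y_N)` (apply `Tr (β^p ·)`; `Tr(z)^p = Tr(z^p)`; `inck` is injective `F1c`).
* Size: `V` from `F10`, `x := V(X) > 1`. There is `C` (natural number) with `V(g_γ(β))^p, V(g_γ(ω1)) ≤ x^C` for all `γ` (each element of `Z` is integral over `F_p[X]`, so `V(a) ≤ x^C`). For each `γ`, `u := g_γ(y_N)` satisfies
  `u^p - u = X^N g_γ(ω1)`, so `V(u) ≤ 1` or `V(u)^p ≤ x^(N+C)`. So `V(Tr(β^p y_N))^p ≤ x^(N + C + pC)`, so `p * natDegree (t(β^p y_N)) ≤ N + C + pC` (`F10c`).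
* Take `N` large (`N + natDegree r > (N + C + pC)/p`) with `N + natDegree r ≡ 1 mod p`: the leading monomial of `X^N r` has degree `N + natDegree r` not divisible by `p`, but it must be the leading monomial of the
  `p`-th power `(t(β y_N))^p`, contradiction.
-/

set_option autoImplicit false

namespace Pool.Agent.QPC

open Polynomial

variable (p : ℕ) [Fact p.Prime] (Ω : Type) [Field Ω] [Algebra (RatFunc (ZMod p)) Ω]
  [IsSepClosed Ω] [Algebra.IsSeparable (RatFunc (ZMod p)) Ω]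

omit [IsSepClosed Ω] [Algebra.IsSeparable (RatFunc (ZMod p)) Ω] in
theorem p2_eq {H : Type} [Group H] (ρ : GG p Ω →* H) {g g' : GG p Ω} (hg : Geo g) (hg' : Geo g')
    (h : ρ g = ρ g') {b : Ω} (hb : b ∈ Zg p Ω ρ) : g b = g' b := by
  have h1 : Geo (g'⁻¹ * g) := (Geo.inv hg').mul hg
  have h2 : ρ (g'⁻¹ * g) = 1 := by rw [map_mul, map_inv, h, inv_mul_cancel]
  have h3 := hb.2 _ h1 h2
  have h4 : g' ((g'⁻¹ * g) b) = g b := by
    change (g' * (g'⁻¹ * g)) b = g b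
    rw [mul_inv_cancel_left]
  rw [← h4, h3]

omit [IsSepClosed Ω] [Algebra.IsSeparable (RatFunc (ZMod p)) Ω] in
theorem p2_setup {H : Type} [Group H] [Finite H] (ρ : GG p Ω →* H) :
    ∃ (S : Finset H) (σ : H → GG p Ω), (∀ h, h ∈ S ↔ ∃ g : GG p Ω, Geo g ∧ ρ g = h) ∧
      ∀ h ∈ S, Geo (σ h) ∧ ρ (σ h) = h := by
  classical
  have := Fintype.ofFinite H
  refine ⟨Finset.univ.filter fun h => ∃ g : GG p Ω, Geo g ∧ ρ g = h,
    fun h => if hh : ∃ g : GG p Ω, Geo g ∧ ρ g = h then hh.choose else 1, ?_, ?_⟩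
  · intro h
    simp
  · intro h hh
    rw [Finset.mem_filter] at hh
    beta_reduce
    rw [dif_pos hh.2]
    exact hh.2.choose_spec

omit [IsSepClosed Ω] [Algebra.IsSeparable (RatFunc (ZMod p)) Ω] in
theorem p2_fix {H : Type} [Group H] (ρ : GG p Ω →* H) (S : Finset H) (σ : H → GG p Ω)
    (hS : ∀ h, h ∈ S ↔ ∃ g : GG p Ω, Geo g ∧ ρ g = h)
    (hσ : ∀ h ∈ S, Geo (σ h) ∧ ρ (σ h) = h) {b : Ω} (hb : b ∈ Zg p Ω ρ) {g : GG p Ω}
    (hg : Geo g) : g (∑ h ∈ S, σ h b) = ∑ h ∈ S, σ h b := by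
  rw [map_sum]
  refine Finset.sum_nbij' (fun h => ρ g * h) (fun h => (ρ g)⁻¹ * h) ?_ ?_ ?_ ?_ ?_
  · intro h hh
    obtain ⟨g', h1, h2⟩ := (hS h).1 hh
    exact (hS _).2 ⟨g * g', hg.mul h1, by rw [map_mul, h2]⟩
  · intro h hh
    obtain ⟨g', h1, h2⟩ := (hS h).1 hh
    exact (hS _).2 ⟨g⁻¹ * g', (Geo.inv hg).mul h1, by rw [map_mul, map_inv, h2]⟩
  · intro h _
    simp
  · intro h _
    simp
  · intro h hh
    obtain ⟨h1, h2⟩ := hσ h hh
    have hm : ρ g * h ∈ S := (hS _).2 ⟨g * σ h, hg.mul h1, by rw [map_mul, h2]⟩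
    obtain ⟨h3, h4⟩ := hσ _ hm
    exact p2_eq p Ω ρ (hg.mul h1) h3 (by rw [map_mul, h2, h4]) hb

theorem p2_tr {H : Type} [Group H] (ρ : GG p Ω →* H) (S : Finset H) (σ : H → GG p Ω)
    (hS : ∀ h, h ∈ S ↔ ∃ g : GG p Ω, Geo g ∧ ρ g = h)
    (hσ : ∀ h ∈ S, Geo (σ h) ∧ ρ (σ h) = h) {b : Ω} (hb : b ∈ Zg p Ω ρ) :
    ∃ P : (kF p Ω)[X], inck p Ω P = ∑ h ∈ S, σ h b := by
  refine F11 p Ω _ ?_ ?_
  · exact Subring.sum_mem _ fun h _ => gal_Zr (σ h) hb.1
  · intro g hg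
    exact p2_fix p Ω ρ S σ hS hσ hb hg

theorem p2_ded {H : Type} [Group H] [Finite H] (ρ : GG p Ω →* H) (hρ : Ad p Ω ρ)
    (S : Finset H) (σ : H → GG p Ω) (hσ : ∀ h ∈ S, Geo (σ h) ∧ ρ (σ h) = h) (h1S : 1 ∈ S)
    (ω1 : Ω) (h0 : ω1 ≠ 0) :
    ∃ β ∈ Zg p Ω ρ, ∑ h ∈ S, σ h (β ^ p * ω1) ≠ 0 := by
  have := om_charP p Ω
  obtain ⟨n, x, y, hx, hy, hxy, hxy0⟩ := F5 p Ω ρ hρ
  by_contra hcon
  push Not at hcon
  let f : S → (Zg p Ω ρ →* Ω) := fun h =>
    { toFun := fun β => (σ h β) ^ p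
      map_one' := by simp
      map_mul' := by
        intro a b
        simp [mul_pow] }
  have hf : Function.Injective f := by
    intro h h' hh
    by_contra hne
    have hne' : ρ ((σ h)⁻¹ * σ h') ≠ 1 := by
      rw [map_mul, map_inv, (hσ h h.2).2, (hσ h' h'.2).2]
      intro h2
      exact hne (Subtype.ext (inv_mul_eq_one.1 h2))
    have h2 := hxy0 _ hne'
    have h3 : ∀ i, ((σ h)⁻¹ * σ h') (y i) = y i := by
      intro i
      have hyg : y i ∈ Zg p Ω ρ := ⟨(hy i).1, fun g _ hg => (hy i).2 g hg⟩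
      have h4 : (σ h (y i)) ^ p = (σ h' (y i)) ^ p := DFunLike.congr_fun hh ⟨y i, hyg⟩
      have h5 : σ h (y i) = σ h' (y i) := frobenius_inj Ω p h4
      change (σ h)⁻¹ (σ h' (y i)) = y i
      rw [← h5]
      change ((σ h)⁻¹ * σ h) (y i) = y i
      rw [inv_mul_cancel]
      rfl
    simp only [h3] at h2
    rw [hxy] at h2
    exact one_ne_zero h2
  have hlin := (linearIndependent_monoidHom (Zg p Ω ρ) Ω).comp f hf
  rw [Fintype.linearIndependent_iff] at hlin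
  have h2 := hlin (fun h => σ h ω1) (by
    funext β
    have h3 := hcon β β.2
    rw [← Finset.sum_coe_sort] at h3
    rw [Finset.sum_apply, Pi.zero_apply, ← h3]
    refine Finset.sum_congr rfl fun h _ => ?_
    rw [map_mul, map_pow, mul_comm]
    rfl) ⟨1, h1S⟩
  exact h0 ((map_eq_zero_iff (σ 1) (σ 1).injective).1 h2)

omit [IsSepClosed Ω] [Algebra.IsSeparable (RatFunc (ZMod p)) Ω] in
theorem p2_size (V : ValuationSubring Ω) (hV : 1 < V.valuation (xx p Ω)) (a : Ω)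
    (ha : a ∈ Zr p Ω) : ∃ C : ℕ, V.valuation a ≤ V.valuation (xx p Ω) ^ C := by
  let W : ValuationSubring Ω :=
    { carrier := {a | ∃ C : ℕ, V.valuation a ≤ V.valuation (xx p Ω) ^ C}
      mul_mem' := by
        rintro a b ⟨C, hC⟩ ⟨D, hD⟩
        exact ⟨C + D, by rw [map_mul, pow_add]; exact mul_le_mul' hC hD⟩
      one_mem' := ⟨0, by rw [map_one, pow_zero]⟩
      add_mem' := by
        rintro a b ⟨C, hC⟩ ⟨D, hD⟩
        refine ⟨max C D, (V.valuation.map_add a b).trans (max_le ?_ ?_)⟩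
        · exact hC.trans (pow_le_pow_right₀ hV.le (le_max_left _ _))
        · exact hD.trans (pow_le_pow_right₀ hV.le (le_max_right _ _))
      zero_mem' := ⟨0, by rw [map_zero, pow_zero]; exact zero_le_one⟩
      neg_mem' := by
        rintro a ⟨C, hC⟩
        exact ⟨C, by rw [Valuation.map_neg]; exact hC⟩
      mem_or_inv_mem' := by
        intro a
        rcases V.mem_or_inv_mem a with h | h
        · left
          exact ⟨0, by rw [pow_zero]; exact (V.valuation_le_one_iff a).2 h⟩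
        · right
          exact ⟨0, by rw [pow_zero]; exact (V.valuation_le_one_iff _).2 h⟩ }
  have hW : ∀ P : (ZMod p)[X], inc p Ω P ∈ W.toSubring := by
    intro P
    induction P using Polynomial.induction_on' with
    | add P Q hP hQ =>
      rw [map_add]
      exact add_mem hP hQ
    | monomial n c =>
      rw [← C_mul_X_pow_eq_monomial, map_mul, map_pow]
      refine mul_mem ?_ (pow_mem ?_ n)
      · have h1 : inc p Ω (C c) = ((c.val : ℕ) : Ω) := by
          have h2 : c = ((c.val : ℕ) : ZMod p) := (ZMod.natCast_zmod_val c).symm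
          conv_lhs => rw [h2]
          rw [C_eq_natCast, map_natCast]
        rw [h1]
        exact natCast_mem _ _
      · exact ⟨1, by rw [pow_one]; exact le_refl _⟩
  obtain ⟨P, hP, hPa⟩ := ha
  have hint : IsIntegral W a := by
    let j : (ZMod p)[X] →+* W := (inc p Ω).codRestrict W.toSubring hW
    refine ⟨P.map j, hP.map j, ?_⟩
    rw [eval₂_map]
    exact hPa
  obtain ⟨b, hb⟩ := IsIntegrallyClosed.isIntegral_iff.1 hint
  rw [← hb]
  exact b.2

theorem P2 {H : Type} [Group H] [Finite H] (ρ : GG p Ω →* H) (hρ : Ad p Ω ρ) (ω1 : Ω)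
    (h1 : ω1 ∈ Zg p Ω ρ) (h0 : ω1 ≠ 0) :
    ∃ N : ℕ, ∀ y ∈ Zg p Ω ρ, y ^ p - y ≠ xx p Ω ^ N * ω1 := by
  have := om_charP p Ω
  have hp : p.Prime := Fact.out
  obtain ⟨S, σ, hS, hσ⟩ := p2_setup p Ω ρ
  have h1S : (1 : H) ∈ S := (hS 1).2 ⟨1, fun a _ => rfl, map_one ρ⟩
  obtain ⟨β, hβ, hTr⟩ := p2_ded p Ω ρ hρ S σ hσ h1S ω1 h0
  obtain ⟨r, hr⟩ := p2_tr p Ω ρ S σ hS hσ (mul_mem (pow_mem hβ p) h1)
  have hr0 : r ≠ 0 := by
    rintro rfl
    rw [map_zero] at hr
    exact hTr hr.symm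
  obtain ⟨V, hV⟩ := F10 p Ω
  have hsz : ∀ h : H, ∃ C : ℕ, V.valuation (σ h β) ≤ V.valuation (xx p Ω) ^ C ∧
      V.valuation (σ h ω1) ≤ V.valuation (xx p Ω) ^ C := by
    intro h
    obtain ⟨C, hC⟩ := p2_size p Ω V hV _ (gal_Zr (σ h) hβ.1)
    obtain ⟨D, hD⟩ := p2_size p Ω V hV _ (gal_Zr (σ h) h1.1)
    exact ⟨max C D, hC.trans (pow_le_pow_right₀ hV.le (le_max_left _ _)),
      hD.trans (pow_le_pow_right₀ hV.le (le_max_right _ _))⟩
  choose c hc using hsz
  obtain ⟨C, hC⟩ : ∃ C : ℕ, ∀ h ∈ S, c h ≤ C := ⟨S.sup c, fun h hh => Finset.le_sup hh⟩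
  have hCβ : ∀ h ∈ S, V.valuation (σ h β) ≤ V.valuation (xx p Ω) ^ C := fun h hh =>
    (hc h).1.trans (pow_le_pow_right₀ hV.le (hC h hh))
  have hCω : ∀ h ∈ S, V.valuation (σ h ω1) ≤ V.valuation (xx p Ω) ^ C := fun h hh =>
    (hc h).2.trans (pow_le_pow_right₀ hV.le (hC h hh))
  set d := r.natDegree with hd
  refine ⟨p * (d + C + p * p * C + 1) + 1 - d, ?_⟩
  set N := p * (d + C + p * p * C + 1) + 1 - d with hN
  intro y hy hyN
  have hpm : d + C + p * p * C + 1 ≤ p * (d + C + p * p * C + 1) := Nat.le_mul_of_pos_left _ hp.pos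
  have hNd : N + d = p * (d + C + p * p * C + 1) + 1 := by omega
  obtain ⟨t1, ht1⟩ := p2_tr p Ω ρ S σ hS hσ (mul_mem hβ hy)
  obtain ⟨t2, ht2⟩ := p2_tr p Ω ρ S σ hS hσ (mul_mem (pow_mem hβ p) hy)
  have hxx : inck p Ω X = xx p Ω := by simp [inck]
  have hmain : X ^ N * r = t1 ^ p - t2 := by
    apply F1c p Ω
    rw [map_mul, map_pow, map_sub, map_pow, hxx, hr, ht1, ht2, sum_pow_char, Finset.mul_sum,
      ← Finset.sum_sub_distrib]
    refine Finset.sum_congr rfl fun h _ => ?_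
    have h2 : xx p Ω ^ N = σ h (xx p Ω ^ N) := by rw [map_pow, gal_xx]
    rw [h2, ← map_mul, ← map_pow, ← map_sub]
    congr 1
    calc xx p Ω ^ N * (β ^ p * ω1) = β ^ p * (xx p Ω ^ N * ω1) := by ring
      _ = β ^ p * (y ^ p - y) := by rw [hyN]
      _ = _ := by ring
  have hu : ∀ h ∈ S, V.valuation (σ h y) ^ p ≤ V.valuation (xx p Ω) ^ (N + C) := by
    intro h hh
    have h2 : (σ h y) ^ p - σ h y = xx p Ω ^ N * σ h ω1 := by
      have h3 := congrArg (σ h) hyN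
      rw [map_sub, map_pow, map_mul, map_pow, gal_xx] at h3
      exact h3
    have h4 : V.valuation ((σ h y) ^ p - σ h y) ≤ V.valuation (xx p Ω) ^ (N + C) := by
      rw [h2, map_mul, map_pow, pow_add]
      exact mul_le_mul_right (hCω h hh) _
    rcases le_or_gt (V.valuation (σ h y)) 1 with h5 | h5
    · exact (pow_le_one' h5 p).trans (one_le_pow₀ hV.le)
    · have h6 : V.valuation (σ h y) < V.valuation ((σ h y) ^ p) := by
        rw [map_pow]
        exact lt_self_pow₀ h5 hp.one_lt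
      rw [Valuation.map_sub_eq_of_lt_left _ h6] at h4
      rwa [map_pow] at h4
  have ht2V : V.valuation (inck p Ω t2) ^ p ≤ V.valuation (xx p Ω) ^ (N + C + p * p * C) := by
    rw [← map_pow, ht2, sum_pow_char]
    refine Valuation.map_sum_le _ fun h hh => ?_
    have e : V.valuation ((σ h (β ^ p * y)) ^ p) =
        V.valuation (σ h y) ^ p * V.valuation (σ h β) ^ (p * p) := by
      rw [map_pow V.valuation, map_mul (σ h), map_mul V.valuation, map_pow (σ h),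
        map_pow V.valuation, mul_pow, ← pow_mul, mul_comm]
    rw [e, pow_add _ (N + C)]
    refine mul_le_mul' (hu h hh) ?_
    calc V.valuation (σ h β) ^ (p * p) ≤ (V.valuation (xx p Ω) ^ C) ^ (p * p) :=
          pow_le_pow_left₀ zero_le (hCβ h hh) _
      _ = _ := by rw [← pow_mul, mul_comm C]
  have ht2d : p * t2.natDegree ≤ N + C + p * p * C := by
    rcases eq_or_ne t2 0 with h2 | h2
    · rw [h2, natDegree_zero, mul_zero]
      exact Nat.zero_le _
    · rw [F10c p Ω V hV t2 h2, ← pow_mul, mul_comm] at ht2V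
      exact (pow_le_pow_iff_right₀ hV).1 ht2V
  have hXr : (X ^ N * r).natDegree = N + d := by
    rw [natDegree_mul (pow_ne_zero _ X_ne_zero) hr0, natDegree_X_pow]
  have hlt : t2.natDegree < (X ^ N * r).natDegree := by
    rw [hXr]
    have h2 : p * t2.natDegree < p * (N + d) := by
      have h3 : 2 * (N + d) ≤ p * (N + d) := Nat.mul_le_mul_right _ hp.two_le
      omega
    exact lt_of_mul_lt_mul_left h2 (Nat.zero_le _)
  have h2 : t1 ^ p = X ^ N * r + t2 := by rw [hmain, sub_add_cancel]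
  have h3 : (t1 ^ p).natDegree = N + d := by
    rw [h2, natDegree_add_eq_left_of_natDegree_lt hlt, hXr]
  rw [natDegree_pow, hNd] at h3
  have h4 : p ∣ 1 := by
    have h5 : p ∣ p * (d + C + p * p * C + 1) + 1 := ⟨_, h3.symm⟩
    exact (Nat.dvd_add_right (Dvd.intro _ rfl)).1 h5
  exact hp.one_lt.ne' (Nat.dvd_one.1 h4)

end Pool.Agent.QPC
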