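import Mathlib
import Pool.Agent.QPC.Defs
import Pool.Agent.QPC.F5

/-!
# QPC row P3: non-zero invariant vectors
Notation as in row P1 (`g ⋆ v`). Plan. `N ≠ ⊥` so `d ≥ 1` (if `d = 0` then `ι x = 0` for all `x ∈ N`). For `i0 : Fin d` and `c ∈ Zf` the vector `w1 := ∑_{τ ∈ G ⧸ N} τ ⋆ (c e_{i0})`, that is `w1 i = ∑_τ M (s τ) i i0 * τ(c)`, is invariant and
has coordinates in `Zf`. If all of them vanish for every `c ∈ Zf`: the coordinate `i = i0`, independence of the distinct ring homs `c ↦ τ(c)`, `Zf → Ω` (`linearIndependent_monoidHom`; they are distinct by `F5`: `∑ x_i τ(y_i) = δ`) gives `M (s 1) i0 i0 = 0`,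
but `M x = 1` for `x ∈ N`, contradiction.
-/

set_option autoImplicit false

namespace Pool.Agent.QPC

open Polynomial

variable (p : ℕ) [Fact p.Prime] (Ω : Type) [Field Ω] [Algebra (RatFunc (ZMod p)) Ω]
  [IsSepClosed Ω] [Algebra.IsSeparable (RatFunc (ZMod p)) Ω]

theorem p3_fix {a : Ω} (ha : a ^ p = a) (g : GG p Ω) : g a = a := by
  have := om_charP p Ω
  have h1 : a ∈ (⊥ : Subfield Ω) := (Subfield.mem_bot_iff_pow_eq_self Ω p).2 ha
  have h2 : (⊥ : Subfield Ω) ≤ RingHom.eqLocusField ((g : Ω ≃+* Ω) : Ω →+* Ω) (RingHom.id Ω) :=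
    bot_le
  exact h2 h1

theorem p3_Zr {a : Ω} (ha : a ^ p = a) : a ∈ Zr p Ω := by
  have hp : 1 < p := (Fact.out : p.Prime).one_lt
  refine ⟨X ^ p - X, ?_, ?_⟩
  · apply (monic_X_pow p).sub_of_left
    rw [degree_X, degree_X_pow]
    exact_mod_cast hp
  · rw [eval₂_sub, eval₂_pow, eval₂_X, ha, sub_self]

theorem p3_Zf {H : Type} [Group H] (ρ : GG p Ω →* H) {a : Ω} (ha : a ^ p = a) :
    a ∈ Zf p Ω ρ := ⟨p3_Zr p Ω ha, fun g _ => p3_fix p Ω ha g⟩

theorem p3_same {H : Type} [Group H] (ρ : GG p Ω →* H) {c : Ω} (hc : c ∈ Zf p Ω ρ)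
    (g h : GG p Ω) (hgh : ρ g = ρ h) : g c = h c := by
  have h1 : ρ (h⁻¹ * g) = 1 := by rw [map_mul, map_inv, hgh, inv_mul_cancel]
  have h2 := hc.2 _ h1
  have h3 : (h⁻¹ * g) c = h⁻¹ (g c) := rfl
  rw [h3] at h2
  have h4 := congrArg h h2
  have h5 : h (h⁻¹ (g c)) = g c := by
    change (h * h⁻¹) (g c) = _
    rw [mul_inv_cancel]; rfl
  rw [h5] at h4
  exact h4

theorem P3 (G : Type) [Group G] [Finite G] (N : Subgroup G) [N.Normal] (hN : N ≠ ⊥)
    (d : ℕ) (ι : G → Fin d → Ω) (M : G → Fin d → Fin d → Ω)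
    (h2 : ∀ x ∈ N, ι x = 0 → x = 1)
    (h5 : ∀ g i j, M g i j ^ p = M g i j)
    (h7 : ∀ x ∈ N, ∀ i j, M x i j = if i = j then 1 else 0)
    (h8 : ∀ g h i j, M (g * h) i j = ∑ l, M g i l * M h l j)
    (ρ : GG p Ω →* G ⧸ N) (hρ : Rho p Ω ρ) :
    ∃ w1 : Fin d → Ω, (∀ i, w1 i ∈ Zf p Ω ρ) ∧ (∃ i, w1 i ≠ 0) ∧
      ∀ (g : GG p Ω) (a : G), (a : G ⧸ N) = ρ g → ∀ i, ∑ j, M a i j * g (w1 j) = w1 i := by
  classical
  have hpr := (Fact.out : p.Prime)
  -- an index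
  obtain ⟨i0⟩ : Nonempty (Fin d) := by
    by_contra hne
    rw [not_nonempty_iff] at hne
    apply hN
    rw [Subgroup.eq_bot_iff_forall]
    intro x hx
    exact h2 x hx (funext fun i => (hne.false i).elim)
  have hsurj := hρ.surj
  choose σ hσ using hsurj
  have hs : ∀ τ : G ⧸ N, ∃ a : G, (a : G ⧸ N) = τ := fun τ => QuotientGroup.mk_surjective τ
  choose s hs using hs
  have := Fintype.ofFinite (G ⧸ N)
  -- `M` depends only on the class
  have hMc : ∀ a b : G, (a : G ⧸ N) = b → ∀ i j, M a i j = M b i j := by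
    intro a b hab i j
    have h9 : b⁻¹ * a ∈ N := QuotientGroup.eq.1 hab.symm
    have h10 : a = b * (b⁻¹ * a) := by group
    rw [h10, h8]
    rw [Finset.sum_eq_single j]
    · rw [h7 _ h9, if_pos rfl, mul_one]
    · intro l _ hl
      rw [h7 _ h9, if_neg hl, mul_zero]
    · intro h; exact absurd (Finset.mem_univ _) h
  -- the vector attached to `c`
  obtain ⟨w, hw⟩ : ∃ w : Ω → Fin d → Ω, ∀ c i, w c i = ∑ τ, M (s τ) i i0 * (σ τ) c :=
    ⟨_, fun _ _ => rfl⟩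
  have hwZ : ∀ c ∈ Zf p Ω ρ, ∀ i, w c i ∈ Zf p Ω ρ := by
    intro c hc i
    rw [hw]
    exact sum_mem fun τ _ => mul_mem (p3_Zf p Ω ρ (h5 _ _ _)) (gal_Zf ρ (σ τ) hc)
  have hwI : ∀ c ∈ Zf p Ω ρ, ∀ (g : GG p Ω) (a : G), (a : G ⧸ N) = ρ g →
      ∀ i, ∑ j, M a i j * g (w c j) = w c i := by
    intro c hc g a ha i
    have e1 : ∀ j, M a i j * g (w c j) = ∑ τ, M a i j * M (s τ) j i0 * g ((σ τ) c) := by
      intro j
      rw [hw, map_sum, Finset.mul_sum]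
      refine Finset.sum_congr rfl fun τ _ => ?_
      rw [map_mul, p3_fix p Ω (h5 _ _ _) g, mul_assoc]
    rw [Finset.sum_congr rfl fun j _ => e1 j, Finset.sum_comm, hw]
    refine Fintype.sum_equiv (Equiv.mulLeft (ρ g)) _ _ fun τ => ?_
    rw [← Finset.sum_mul, ← h8]
    have e2 : M (a * s τ) i i0 = M (s (Equiv.mulLeft (ρ g) τ)) i i0 := by
      apply hMc
      rw [hs, Equiv.coe_mulLeft, ← ha]
      have : ((a * s τ : G) : G ⧸ N) = (a : G ⧸ N) * (s τ : G ⧸ N) := rfl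
      rw [this, hs]
    have e3 : g ((σ τ) c) = (σ (Equiv.mulLeft (ρ g) τ)) c := by
      have h9 : g ((σ τ) c) = (g * σ τ) c := rfl
      rw [h9]
      apply p3_same p Ω ρ hc
      rw [map_mul, hσ, hσ, Equiv.coe_mulLeft]
    rw [e2, e3]
  obtain ⟨n, x, y, hx, hy, hxy, hxy0⟩ := F5 p Ω ρ hρ.toAd
  have hsum : ∑ t, x t * w (y t) i0 = 1 := by
    have e1 : ∀ t, x t * w (y t) i0 = ∑ τ, M (s τ) i0 i0 * (x t * (σ τ) (y t)) := by
      intro t
      rw [hw, Finset.mul_sum]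
      refine Finset.sum_congr rfl fun τ _ => ?_
      ring
    rw [Finset.sum_congr rfl fun t _ => e1 t, Finset.sum_comm, Finset.sum_eq_single (1 : G ⧸ N)]
    · rw [← Finset.mul_sum]
      have e2 : ∀ t, x t * (σ 1) (y t) = x t * y t := by
        intro t
        rw [(hy t).2 (σ 1) (hσ 1)]
      rw [Finset.sum_congr rfl fun t _ => e2 t, hxy, mul_one]
      have e3 : s 1 ∈ N := (QuotientGroup.eq_one_iff _).1 (hs 1)
      rw [h7 _ e3, if_pos rfl]
    · intro τ _ hτ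
      rw [← Finset.mul_sum, hxy0 (σ τ) (by rw [hσ]; exact hτ), mul_zero]
    · intro h; exact absurd (Finset.mem_univ _) h
  obtain ⟨t, ht⟩ : ∃ t, w (y t) i0 ≠ 0 := by
    by_contra hcon
    push Not at hcon
    rw [Finset.sum_eq_zero fun t _ => by rw [hcon t, mul_zero]] at hsum
    exact zero_ne_one hsum
  exact ⟨w (y t), hwZ _ (hy t), ⟨i0, ht⟩, hwI _ (hy t)⟩

end Pool.Agent.QPC
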