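import Mathlib
import Pool.Agent.QPC.Defs
import Pool.Agent.QPC.P0
import Pool.Agent.QPC.P1
import Pool.Agent.QPC.P2
import Pool.Agent.QPC.P3

/-!
# QPC row P4: extensions by a minimal normal elementary abelian p-subgroup
Plan. `ι, M` from `P0`, `w` from `P1`, `w1` from `P3` (some coordinate `w1 i0 ≠ 0`). Claim: there are `N0 ∈ {0, ...}` or the zero vector, that is an invariant `w0` (`w0 = 0` or `w0 i = X^n * w1 i`, still invariant with coordinates in `Zf`)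
such that for `ω` with `ω_i^p - ω_i = w_i + w0_i` (such `ω` exists: `Ω` separably closed, `T^p - T - a` separable) some geometric `g` with `ρ g = 1` moves some `ω_i`.
Otherwise for `w0 = 0` (solution `ω`) and `w0 = X^n w1` (solution `ω'`) all `ω_i, ω'_i` are in `Zg p Ω ρ` (they are in `Z`, fixed by the geometric elements of `ker ρ`), so `y := ω'_{i0} - ω_{i0} ∈ Zg` satisfies
`y^p - y = X^n w1 i0` for every `n`: contradicts `P2` (`w1 i0 ∈ Zf ⊆ Zg`).
Take such `w0, ω` and `ρ'` from `P1`. The image `K` under `ρ'` of the geometric elements of `ker ρ` is contained in `N` (as `ρ' g ↦ ρ g = 1`), non-trivial, and normalised by the image of `ρ'`; (`Geo.conj`). Image `I` of `ρ'`: `I N = G`. `K` is normalised by `N` too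
(`N` commutative, `K ≤ N`), so `K` is normal in `G`, so `K = N` by minimality. So `N ≤ I`, `I = G`: `ρ'` is surjective. `pel`: `a ∈ G` with `a^(p^r) = 1`: its class is `ρ g` with `g` geometric, so `a = x ρ'(g)` with `x ∈ N = K`, `x = ρ'(g1)`, `g1` geometric; `g1 g` is geometric.
-/

set_option autoImplicit false

namespace Pool.Agent.QPC

open Polynomial

variable (p : ℕ) [Fact p.Prime] (Ω : Type) [Field Ω] [Algebra (RatFunc (ZMod p)) Ω]
  [IsSepClosed Ω] [Algebra.IsSeparable (RatFunc (ZMod p)) Ω]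

omit [Algebra.IsSeparable (RatFunc (ZMod p)) Ω] in
/-- Artin-Schreier equations have solutions. -/
theorem p4_as (a : Ω) : ∃ z : Ω, z ^ p - z = a := by
  have hp : p.Prime := Fact.out
  have := om_charP p Ω
  set f : Polynomial Ω := X ^ p - X - C a with hf
  have hdeg : f.natDegree = p := by
    rw [hf]
    have h1 : (X ^ p - X - C a : Polynomial Ω) = X ^ p - (X + C a) := by ring
    rw [h1]
    have h2 : (X + C a : Polynomial Ω).natDegree < (X ^ p : Polynomial Ω).natDegree := by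
      rw [natDegree_X_add_C, natDegree_X_pow]
      exact hp.one_lt
    rw [natDegree_sub_eq_left_of_natDegree_lt h2, natDegree_X_pow]
  have hsep : f.Separable := by
    have hd : derivative f = -1 := by
      have h0 : derivative (X ^ p : Polynomial Ω) = 0 := by
        rw [derivative_X_pow, CharP.cast_eq_zero, C_0, zero_mul]
      rw [hf, derivative_sub, derivative_sub, h0, derivative_X, derivative_C]
      ring
    unfold Separable
    rw [hd]
    exact isCoprime_one_right.neg_right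
  have hne : f.degree ≠ 0 := by
    intro h
    have h1 := natDegree_eq_of_degree_eq_some h
    rw [hdeg] at h1
    exact hp.ne_zero h1
  obtain ⟨z, hz⟩ := IsSepClosed.exists_root f hne hsep
  refine ⟨z, ?_⟩
  have h1 : z ^ p - z - a = 0 := by
    have h2 : f.eval z = 0 := hz
    rw [hf] at h2
    simpa using h2
  exact sub_eq_zero.1 h1

omit [IsSepClosed Ω] [Algebra.IsSeparable (RatFunc (ZMod p)) Ω] in
/-- `Z` is closed under Artin-Schreier roots. -/
theorem p4_int {z : Ω} (h : z ^ p - z ∈ Zr p Ω) : z ∈ Zr p Ω := by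
  have hp : p.Prime := Fact.out
  let _ : Algebra (ZMod p)[X] Ω := (inc p Ω).toAlgebra
  have h1 : IsIntegral (ZMod p)[X] (z ^ p - z) := h
  have h2 : IsIntegral (integralClosure (ZMod p)[X] Ω) z := by
    refine ⟨X ^ p - X - C ⟨z ^ p - z, h1⟩, ?_, ?_⟩
    · have e : (X ^ p - X - C ⟨z ^ p - z, h1⟩ : (integralClosure (ZMod p)[X] Ω)[X]) =
          X ^ p - (X + C ⟨z ^ p - z, h1⟩) := by ring
      rw [e]
      refine (monic_X_pow p).sub_of_left ?_
      rw [degree_X_pow]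
      refine lt_of_le_of_lt (degree_add_le _ _) (max_lt ?_ ?_)
      · exact lt_of_le_of_lt degree_X_le (by exact_mod_cast hp.one_lt)
      · exact lt_of_le_of_lt degree_C_le (by exact_mod_cast hp.pos)
    · rw [eval₂_sub, eval₂_sub, eval₂_pow, eval₂_X, eval₂_C]
      exact sub_self _
  exact isIntegral_trans (R := (ZMod p)[X]) (A := integralClosure (ZMod p)[X] Ω) z h2

omit [IsSepClosed Ω] [Algebra.IsSeparable (RatFunc (ZMod p)) Ω] in
theorem p4_xx {H : Type} [Group H] (ρ : GG p Ω →* H) : xx p Ω ∈ Zf p Ω ρ :=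
  ⟨RingHom.isIntegralElem_map _, fun g _ => gal_xx g⟩

omit [IsSepClosed Ω] [Algebra.IsSeparable (RatFunc (ZMod p)) Ω] in
theorem p4_Zf_Zg {H : Type} [Group H] (ρ : GG p Ω →* H) {b : Ω} (hb : b ∈ Zf p Ω ρ) :
    b ∈ Zg p Ω ρ := ⟨hb.1, fun g _ hg => hb.2 g hg⟩

theorem P4 (G : Type) [Group G] [Finite G] (N : Subgroup G) [N.Normal] (hN : N ≠ ⊥)
    (hc : ∀ x ∈ N, ∀ y ∈ N, x * y = y * x) (he : ∀ x ∈ N, x ^ p = 1)
    (hmin : ∀ K : Subgroup G, K.Normal → K ≤ N → K ≠ ⊥ → K = N) (hR : R p Ω (G ⧸ N)) :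
    R p Ω G := by
  have := om_charP p Ω
  obtain ⟨ρ, hρ⟩ := hR
  obtain ⟨d, ι, M, h1, h2, h3, h4, h5, h6, h7, h8⟩ := P0 p Ω G N hc he
  obtain ⟨w, hw, key⟩ := P1 p Ω G N hc d ι M h1 h2 h3 h4 h5 h6 h7 h8 ρ hρ
  obtain ⟨w1, hw1, ⟨i0, hi0⟩, hinv⟩ := P3 p Ω G N hN d ι M h2 h5 h7 h8 ρ hρ
  -- a solution moved by a geometric element of the kernel
  have hB : ∃ w0 : Fin d → Ω, (∀ i, w0 i ∈ Zf p Ω ρ) ∧
      (∀ (g : GG p Ω) (a : G), (a : G ⧸ N) = ρ g → ∀ i, ∑ j, M a i j * g (w0 j) = w0 i) ∧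
      ∃ ω : Fin d → Ω, (∀ i, ω i ^ p - ω i = w i + w0 i) ∧
        ∃ g : GG p Ω, Geo g ∧ ρ g = 1 ∧ ∃ i, g (ω i) ≠ ω i := by
    by_contra hcon
    push Not at hcon
    have hsol : ∀ w0 : Fin d → Ω, (∀ i, w0 i ∈ Zf p Ω ρ) →
        (∀ (g : GG p Ω) (a : G), (a : G ⧸ N) = ρ g → ∀ i, ∑ j, M a i j * g (w0 j) = w0 i) →
        ∃ ω : Fin d → Ω, (∀ i, ω i ^ p - ω i = w i + w0 i) ∧ ∀ i, ω i ∈ Zg p Ω ρ := by
      intro w0 hw0 hw0i
      choose ω hω using fun i => p4_as p Ω (w i + w0 i)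
      refine ⟨ω, hω, fun i => ⟨p4_int p Ω ?_, ?_⟩⟩
      · rw [hω]
        exact (add_mem (hw i) (hw0 i)).1
      · intro g hg hg1
        exact hcon w0 hw0 hw0i ω hω g hg hg1 i
    obtain ⟨n, hn⟩ := P2 p Ω ρ hρ.toAd (w1 i0) (p4_Zf_Zg p Ω ρ (hw1 i0)) hi0
    obtain ⟨ω, hω, hωZ⟩ := hsol (fun _ => 0) (fun _ => zero_mem _) (by
      intro g a _ i
      simp)
    obtain ⟨ω', hω', hωZ'⟩ := hsol (fun i => xx p Ω ^ n * w1 i)
      (fun i => mul_mem (pow_mem (p4_xx p Ω ρ) n) (hw1 i)) (by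
      intro g a ha i
      rw [← hinv g a ha i, Finset.mul_sum]
      refine Finset.sum_congr rfl fun j _ => ?_
      rw [map_mul, map_pow, gal_xx]
      ring)
    refine hn (ω' i0 - ω i0) (sub_mem (hωZ' i0) (hωZ i0)) ?_
    have e1 := hω' i0
    have e2 := hω i0
    rw [sub_pow_char]
    have e3 : ω' i0 ^ p - ω i0 ^ p - (ω' i0 - ω i0) =
        (ω' i0 ^ p - ω' i0) - (ω i0 ^ p - ω i0) := by ring
    rw [e3, e1, e2]
    ring
  obtain ⟨w0, hw0, hw0i, ω, hω, g0, hg0, hg01, i, hi⟩ := hB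
  obtain ⟨ρ', hAd, hlift, hker⟩ := key w0 hw0 hw0i ω hω
  -- the image of the geometric part of the kernel
  let K : Subgroup G :=
    { carrier := {x | ∃ g : GG p Ω, Geo g ∧ ρ g = 1 ∧ ρ' g = x}
      mul_mem' := by
        rintro x y ⟨g, a1, a2, rfl⟩ ⟨h, b1, b2, rfl⟩
        exact ⟨g * h, a1.mul b1, by rw [map_mul, a2, b2, one_mul], map_mul _ _ _⟩
      one_mem' := ⟨1, fun _ _ => rfl, map_one _, map_one _⟩
      inv_mem' := by
        rintro x ⟨g, a1, a2, rfl⟩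
        exact ⟨g⁻¹, a1.inv, by rw [map_inv, a2, inv_one], map_inv _ _⟩ }
  have hKmem : ∀ x : G, x ∈ K ↔ ∃ g : GG p Ω, Geo g ∧ ρ g = 1 ∧ ρ' g = x := fun _ => Iff.rfl
  have hKN : K ≤ N := by
    rintro x ⟨g, _, a2, rfl⟩
    rw [← QuotientGroup.eq_one_iff, hlift, a2]
  have hrep : ∀ (a : G) (g : GG p Ω), ρ g = (a : G ⧸ N) → (ρ' g)⁻¹ * a ∈ N := by
    intro a g hg
    rw [← QuotientGroup.eq_one_iff, QuotientGroup.mk_mul, QuotientGroup.mk_inv, hlift, hg,
      inv_mul_cancel]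
  have hKn : K.Normal := by
    refine ⟨?_⟩
    rintro x hx a
    obtain ⟨g, a1, a2, rfl⟩ := (hKmem x).1 hx
    obtain ⟨g1, hg1⟩ := hρ.surj (a : G ⧸ N)
    have hn := hrep a g1 hg1
    have hcomm := hc _ hn _ (hKN hx)
    rw [hKmem]
    refine ⟨g1 * g * g1⁻¹, ?_, ?_, ?_⟩
    · have h := a1.conj g1⁻¹
      rwa [inv_inv] at h
    · rw [map_mul, map_mul, a2, mul_one, map_inv, mul_inv_cancel]
    · rw [map_mul, map_mul, map_inv]
      have e1 : a = ρ' g1 * ((ρ' g1)⁻¹ * a) := by group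
      have e2 : a * ρ' g * a⁻¹ =
          ρ' g1 * (((ρ' g1)⁻¹ * a) * ρ' g) * ((ρ' g1)⁻¹ * a)⁻¹ * (ρ' g1)⁻¹ := by group
      rw [e2, hcomm]
      group
  have hι1 : ι 1 = 0 := by
    have h := h1 1 (one_mem _) 1 (one_mem _)
    rw [mul_one] at h
    exact left_eq_add.1 h
  have hK1 : K ≠ ⊥ := by
    intro hbot
    have hx : ρ' g0 ∈ K := (hKmem _).2 ⟨g0, hg0, hg01, rfl⟩
    rw [hbot, Subgroup.mem_bot] at hx
    have h := hker g0 hg01 i
    rw [hx, hι1] at h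
    exact hi (sub_eq_zero.1 h.symm).symm
  have hKeq : K = N := hmin K hKn hKN hK1
  refine ⟨ρ', { toAd := hAd, surj := ?_, pel := ?_ }⟩
  · intro a
    obtain ⟨g1, hg1⟩ := hρ.surj (a : G ⧸ N)
    have hn := hrep a g1 hg1
    rw [← hKeq, hKmem] at hn
    obtain ⟨g, _, _, hg⟩ := hn
    exact ⟨g1 * g, by rw [map_mul, hg]; group⟩
  · rintro a ⟨r, hr⟩
    obtain ⟨g1, hgeo, hg1⟩ := hρ.pel (a : G ⧸ N) ⟨r, by
      rw [← QuotientGroup.mk_pow, hr, QuotientGroup.mk_one]⟩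
    have hn := hrep a g1 hg1
    rw [← hKeq, hKmem] at hn
    obtain ⟨g, hg', _, hg⟩ := hn
    exact ⟨g1 * g, hgeo.mul hg', by rw [map_mul, hg]; group⟩

end Pool.Agent.QPC
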