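import Mathlib
import Pool.Agent.QPC.Defs
import Pool.Agent.QPC.P4
import Pool.Agent.QPC.F8

/-!
# QPC row P5: extensions by p-groups
Plan. Induction on `Nat.card N` (for all `G`). If `N = ⊥`: `G ≃ G ⧸ ⊥`, use `F8`. Otherwise choose `K` minimal among the non-trivial normal subgroups of `G` contained in `N`. `K` is commutative of exponent `p`: the centre of the `p`-group `K` is non-trivial
and characteristic in `K`, so normal in `G`, so `K` is commutative; the elements of `K` killed by `p` form a non-trivial normal subgroup of `G`, so all of `K`. `(G ⧸ K) ⧸ (N.map mk) ≃* G ⧸ N` (`QuotientGroup.quotientQuotientEquivQuotient`), so by `F8` and the induction hypothesis for `G ⧸ K` (the image of `N` is a `p`-group of smaller order) `R (G ⧸ K)`; then `P4`.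
-/

set_option autoImplicit false

namespace Pool.Agent.QPC

open Polynomial

/-- a minimal normal subgroup which is a `p`-group is commutative -/
theorem p5_comm (p : ℕ) [Fact p.Prime] (G : Type) [Group G] [Finite G] (K : Subgroup G) [K.Normal]
    (hK : IsPGroup p K) (hne : K ≠ ⊥)
    (hmin : ∀ K' : Subgroup G, K'.Normal → K' ≤ K → K' ≠ ⊥ → K' = K) :
    ∀ x ∈ K, ∀ y ∈ K, x * y = y * x := by
  have hnt : Nontrivial K := (Subgroup.nontrivial_iff_ne_bot K).2 hne
  have hc : Nontrivial (Subgroup.center K) := hK.center_nontrivial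
  obtain ⟨z, hz⟩ := exists_ne (1 : Subgroup.center K)
  have hz1 : ((z : K) : G) ≠ 1 := by
    intro h
    apply hz
    apply Subtype.ext
    apply Subtype.ext
    exact h
  have h1 : (K ⊓ Subgroup.centralizer (K : Set G)) = K := by
    apply hmin
    · infer_instance
    · exact inf_le_left
    · intro hb
      have hmem : ((z : K) : G) ∈ K ⊓ Subgroup.centralizer (K : Set G) := by
        refine Subgroup.mem_inf.2 ⟨(z : K).2, Subgroup.mem_centralizer_iff.2 ?_⟩
        intro y hy
        have h2 := Subgroup.mem_center_iff.1 z.2 ⟨y, hy⟩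
        exact congrArg Subtype.val h2
      rw [hb, Subgroup.mem_bot] at hmem
      exact hz1 hmem
  intro x hx y hy
  have hy' : y ∈ K ⊓ Subgroup.centralizer (K : Set G) := by
    rw [h1]
    exact hy
  exact Subgroup.mem_centralizer_iff.1 (Subgroup.mem_inf.1 hy').2 x hx

/-- a minimal normal subgroup which is a `p`-group has exponent `p` -/
theorem p5_exp (p : ℕ) [Fact p.Prime] (G : Type) [Group G] [Finite G] (K : Subgroup G) [hKn : K.Normal]
    (hK : IsPGroup p K) (hne : K ≠ ⊥)
    (hmin : ∀ K' : Subgroup G, K'.Normal → K' ≤ K → K' ≠ ⊥ → K' = K)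
    (hcomm : ∀ x ∈ K, ∀ y ∈ K, x * y = y * x) : ∀ x ∈ K, x ^ p = 1 := by
  have hnt : Nontrivial K := (Subgroup.nontrivial_iff_ne_bot K).2 hne
  let E : Subgroup G :=
    { carrier := {x | x ∈ K ∧ x ^ p = 1}
      mul_mem' := by
        rintro a b ⟨ha, ha'⟩ ⟨hb, hb'⟩
        refine ⟨K.mul_mem ha hb, ?_⟩
        have h1 : Commute a b := hcomm a ha b hb
        rw [h1.mul_pow, ha', hb', one_mul]
      one_mem' := ⟨K.one_mem, one_pow p⟩
      inv_mem' := by
        rintro a ⟨ha, ha'⟩
        exact ⟨K.inv_mem ha, by rw [inv_pow, ha', inv_one]⟩ }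
  have hEmem : ∀ x, x ∈ E ↔ (x ∈ K ∧ x ^ p = 1) := fun x => Iff.rfl
  have hE : E = K := by
    apply hmin
    · constructor
      intro x hx g
      rw [hEmem] at hx ⊢
      refine ⟨hKn.conj_mem x hx.1 g, ?_⟩
      rw [conj_pow, hx.2, mul_one, mul_inv_cancel]
    · intro x hx
      exact ((hEmem x).1 hx).1
    · intro hb
      obtain ⟨k, hk⟩ := hK.exists_card_eq
      have hk0 : k ≠ 0 := by
        rintro rfl
        rw [pow_zero] at hk
        exact absurd hk (Finite.one_lt_card (α := K)).ne'
      have hdvd : p ∣ Nat.card K := by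
        rw [hk]
        exact dvd_pow_self p hk0
      obtain ⟨x, hx⟩ := exists_prime_orderOf_dvd_card' (G := K) p hdvd
      have hxp : x ^ p = 1 := by
        rw [← hx]
        exact pow_orderOf_eq_one x
      have hmem : (x : G) ∈ E := by
        rw [hEmem]
        refine ⟨x.2, ?_⟩
        have := congrArg Subtype.val hxp
        simpa using this
      rw [hb, Subgroup.mem_bot] at hmem
      have hx1 : x = 1 := Subtype.ext hmem
      rw [hx1, orderOf_one] at hx
      exact (Fact.out : p.Prime).one_lt.ne hx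
  intro x hx
  rw [← hE] at hx
  exact ((hEmem x).1 hx).2

/-- the image of `N` in the quotient by a non-trivial subgroup of `N` is smaller -/
theorem p5_card (G : Type) [Group G] [Finite G] (N K : Subgroup G) [N.Normal] [K.Normal]
    (hKN : K ≤ N) (hne : K ≠ ⊥) :
    Nat.card (N.map (QuotientGroup.mk' K)) < Nat.card N := by
  let f : N → N.map (QuotientGroup.mk' K) := fun x =>
    ⟨QuotientGroup.mk' K (x : G), Subgroup.mem_map_of_mem _ x.2⟩
  have hf : Function.Surjective f := by
    rintro ⟨y, hy⟩
    obtain ⟨x, hx, rfl⟩ := Subgroup.mem_map.1 hy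
    exact ⟨⟨x, hx⟩, rfl⟩
  by_contra hle
  rw [not_lt] at hle
  have hbij := hf.bijective_of_nat_card_le hle
  obtain ⟨k, hk⟩ := Subgroup.ne_bot_iff_exists_ne_one.1 hne
  apply hk
  apply Subtype.ext
  have h1 : f ⟨(k : G), hKN k.2⟩ = f 1 := by
    apply Subtype.ext
    show QuotientGroup.mk' K (k : G) = QuotientGroup.mk' K ((1 : N) : G)
    rw [Subgroup.coe_one, map_one]
    exact (QuotientGroup.eq_one_iff (k : G)).2 k.2
  have h2 : (⟨(k : G), hKN k.2⟩ : N) = 1 := hbij.1 h1
  exact congrArg (fun x : N => (x : G)) h2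

variable (p : ℕ) [Fact p.Prime] (Ω : Type) [Field Ω] [Algebra (RatFunc (ZMod p)) Ω]
  [IsSepClosed Ω] [Algebra.IsSeparable (RatFunc (ZMod p)) Ω]

theorem p5_aux (n : ℕ) : ∀ (G : Type) [Group G] [Finite G] (N : Subgroup G) [N.Normal],
    Nat.card N = n → IsPGroup p N → R p Ω (G ⧸ N) → R p Ω G := by
  induction n using Nat.strong_induction_on with
  | _ n ih =>
    intro G _ _ N _ hn hN hR
    by_cases hbot : N = ⊥
    · subst hbot
      exact F8 p Ω hR (QuotientGroup.quotientBot (G := G)).toMonoidHom
        (QuotientGroup.quotientBot (G := G)).surjective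
    · have hwf : WellFounded ((· < ·) : Subgroup G → Subgroup G → Prop) := wellFounded_lt
      obtain ⟨K, ⟨hKn, hKN, hKb⟩, hKmin⟩ := hwf.has_min
        {K : Subgroup G | K.Normal ∧ K ≤ N ∧ K ≠ ⊥} ⟨N, ‹N.Normal›, le_rfl, hbot⟩
      have := hKn
      have hKp : IsPGroup p K := hN.to_le hKN
      have hmin : ∀ K' : Subgroup G, K'.Normal → K' ≤ K → K' ≠ ⊥ → K' = K := by
        intro K' h1 h2 h3
        by_contra h4
        exact hKmin K' ⟨h1, h2.trans hKN, h3⟩ (lt_of_le_of_ne h2 h4)
      have hcomm := p5_comm p G K hKp hKb hmin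
      have hexp := p5_exp p G K hKp hKb hmin hcomm
      have hRK : R p Ω (G ⧸ K) := by
        have h5 := p5_card G N K hKN hKb
        rw [hn] at h5
        have : (N.map (QuotientGroup.mk' K)).Normal :=
          Subgroup.Normal.map inferInstance _ (QuotientGroup.mk'_surjective K)
        refine ih _ h5 (G ⧸ K) (N.map (QuotientGroup.mk' K)) rfl
          (hN.map (QuotientGroup.mk' K)) ?_
        exact F8 p Ω hR (QuotientGroup.quotientQuotientEquivQuotient K N hKN).symm.toMonoidHom
          (QuotientGroup.quotientQuotientEquivQuotient K N hKN).symm.surjective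
      exact P4 p Ω G K hKb hcomm hexp hmin hRK

theorem P5 (G : Type) [Group G] [Finite G] (N : Subgroup G) [N.Normal] (hN : IsPGroup p N)
    (hR : R p Ω (G ⧸ N)) : R p Ω G :=
  p5_aux p Ω (Nat.card N) G N rfl hN hR

end Pool.Agent.QPC
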