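import Mathlib
import Pool.Agent.QPC.Defs

/-!
# QPC row T1: the subgroup generated by the elements of p-power order
`pg p G = closure {a | ∃ r, a^(p^r) = 1}` (for finite `G` it is the subgroup generated by the Sylow `p`-subgroups).
Plans. `T1a`: the generating set is stable under conjugation. `T1b`: `≤` clear; `≥`: an element `a` of `p`-power order of the quotient lifts to an element of `p`-power order (take a suitable power of any lift: `orderOf h = p^u n'`,
`p ∤ n'`, `j n' ≡ 1 mod p^r`, `h^(j n')`). `T1c`: a Sylow subgroup is generated by elements of `p`-power order, and every such element lies in a Sylow subgroup. `T1d`: if `p ∤ |G|` then only `a = 1` has `p`-power order.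
-/

set_option autoImplicit false

namespace Pool.Agent.QPC

open Polynomial

theorem T1a (p : ℕ) (G : Type) [Group G] : (pg p G).Normal := by
  refine ⟨fun n hn g => ?_⟩
  refine Subgroup.closure_induction (p := fun x _ => g * x * g⁻¹ ∈ pg p G) ?_ ?_ ?_ ?_ hn
  · rintro x ⟨r, hr⟩
    refine Subgroup.subset_closure ⟨r, ?_⟩
    rw [conj_pow, hr, mul_one, mul_inv_cancel]
  · rw [mul_one, mul_inv_cancel]
    exact one_mem _
  · intro x y _ _ hx hy
    have h := mul_mem hx hy
    have e : g * x * g⁻¹ * (g * y * g⁻¹) = g * (x * y) * g⁻¹ := by group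
    rwa [e] at h
  · intro x _ hx
    have h := inv_mem hx
    have e : (g * x * g⁻¹)⁻¹ = g * x⁻¹ * g⁻¹ := by group
    rwa [e] at h

/-- An element of `p`-power order of a quotient lifts to an element of `p`-power order. -/
theorem t1_lift (p : ℕ) [Fact p.Prime] (G G' : Type) [Group G] [Finite G] [Group G'] (f : G →* G')
    (hf : Function.Surjective f) (b : G') (r : ℕ) (hb : b ^ p ^ r = 1) :
    ∃ a : G, (∃ u : ℕ, a ^ p ^ u = 1) ∧ f a = b := by
  have hp : p.Prime := Fact.out
  rcases Nat.eq_zero_or_pos r with rfl | hr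
  · rw [pow_zero, pow_one] at hb
    exact ⟨1, ⟨0, one_pow _⟩, by rw [map_one, hb]⟩
  obtain ⟨a, rfl⟩ := hf b
  obtain ⟨u, m, hm, hu⟩ := Nat.exists_eq_pow_mul_and_not_dvd (orderOf_pos a).ne' p hp.ne_one
  have hcop : m.Coprime (p ^ r) := Nat.Coprime.pow_right _ ((hp.coprime_iff_not_dvd.2 hm).symm)
  obtain ⟨j, -, hj⟩ := Nat.exists_mul_mod_eq_one_of_coprime hcop (Nat.one_lt_pow hr.ne' hp.one_lt)
  refine ⟨a ^ (m * j), ⟨u, ?_⟩, ?_⟩
  · rw [← pow_mul]
    have e : m * j * p ^ u = orderOf a * j := by rw [hu]; ring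
    rw [e, pow_mul, pow_orderOf_eq_one, one_pow]
  · rw [map_pow]
    have e : m * j = 1 + p ^ r * (m * j / p ^ r) := by
      have h := Nat.mod_add_div (m * j) (p ^ r)
      rw [hj] at h
      exact h.symm
    rw [e, pow_add, pow_mul, hb, one_pow, pow_one, mul_one]

theorem T1b (p : ℕ) [Fact p.Prime] (G G' : Type) [Group G] [Finite G] [Group G'] (f : G →* G')
    (hf : Function.Surjective f) : (pg p G).map f = pg p G' := by
  unfold pg
  rw [MonoidHom.map_closure]
  congr 1
  ext b
  constructor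
  · rintro ⟨a, ⟨r, hr⟩, rfl⟩
    exact ⟨r, by rw [← map_pow, hr, map_one]⟩
  · rintro ⟨r, hr⟩
    obtain ⟨a, ha, hab⟩ := t1_lift p G G' f hf b r hr
    exact ⟨a, ha, hab⟩

theorem T1c (p : ℕ) [Fact p.Prime] (G : Type) [Group G] [Finite G] :
    pg p G = ⨆ P : Sylow p G, (P : Subgroup G) := by
  apply le_antisymm
  · refine (Subgroup.closure_le _).2 ?_
    rintro a ⟨r, hr⟩
    have h : IsPGroup p (Subgroup.zpowers a) := by
      rintro ⟨x, hx⟩
      obtain ⟨k, rfl⟩ := Subgroup.mem_zpowers_iff.1 hx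
      refine ⟨r, ?_⟩
      apply Subtype.ext
      rw [Subgroup.coe_pow, Subgroup.coe_one]
      change (a ^ k) ^ p ^ r = 1
      rw [← zpow_natCast, ← zpow_mul, mul_comm, zpow_mul, zpow_natCast, hr, one_zpow]
    obtain ⟨P, hP⟩ := h.exists_le_sylow
    exact (le_iSup (fun P : Sylow p G => (P : Subgroup G)) P) (hP (Subgroup.mem_zpowers a))
  · refine iSup_le fun P x hx => Subgroup.subset_closure ?_
    obtain ⟨k, hk⟩ := P.isPGroup' ⟨x, hx⟩
    exact ⟨k, by simpa using congrArg Subtype.val hk⟩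

theorem T1d (p : ℕ) [Fact p.Prime] (G : Type) [Group G] [Finite G] (h : ¬ p ∣ Nat.card G) :
    pg p G = ⊥ := by
  have hp : p.Prime := Fact.out
  rw [eq_bot_iff]
  refine (Subgroup.closure_le _).2 ?_
  rintro a ⟨r, hr⟩
  have h1 : orderOf a ∣ p ^ r := orderOf_dvd_of_pow_eq_one hr
  have h2 : orderOf a ∣ Nat.card G := orderOf_dvd_natCard a
  have h3 : (p ^ r).Coprime (Nat.card G) := Nat.Coprime.pow_left _ (hp.coprime_iff_not_dvd.2 h)
  have h4 : orderOf a = 1 := Nat.eq_one_of_dvd_coprimes h3 h1 h2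
  exact Subgroup.mem_bot.2 (orderOf_eq_one_iff.1 h4)

theorem T1e (p : ℕ) [Fact p.Prime] (G : Type) [Group G] [Finite G] (h : p ∣ Nat.card G) :
    pg p G ≠ ⊥ := by
  have hp : p.Prime := Fact.out
  obtain ⟨a, ha⟩ := exists_prime_orderOf_dvd_card' p h
  intro hbot
  have h1 : a ∈ pg p G := Subgroup.subset_closure ⟨1, by rw [pow_one, ← ha, pow_orderOf_eq_one]⟩
  rw [hbot, Subgroup.mem_bot] at h1
  rw [h1, orderOf_one] at ha
  exact hp.ne_one ha.symm

end Pool.Agent.QPC
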