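import Mathlib
import Pool.Agent.QPC.Defs

/-!
# QPC row T2: coprime action on an abelian normal subgroup
Plan. `T2a`: `n := Nat.card Q`, coprime to `Nat.card A`. For `a ∈ A` put `c := ∏_{x ∈ Q} x a x⁻¹` (product over the finite group `Q` in the commutative group `A`): it commutes with `Q`. And `a^n = c * ∏_x (a (x a x⁻¹)⁻¹)`, the second
factor is in `⁅A, Q⁆`. As `n` is coprime to the order of `a`, `a` is a power of `a^n`; powers of `c` commute with `Q`, powers of the second factor are in `⁅A,Q⁆` (everything commutes inside `A`).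
`T2b`: `C := {c ∈ A | c commutes with Q}`; by `T2a` `A = C ⁅A,Q⁆` and `C = 1`. `T2c`: an element `x = ⁅..⁆` product in `⁅A,Q⁆` fixed by `Q`: the norm map `ν : A → A`, `ν a = ∏_x x a x⁻¹`, is a hom killing `⁅A,Q⁆` (it is
`Q`-invariant) and `ν x = x^n` if `x` is fixed; so `x^n = 1`, `x = 1`.
-/

set_option autoImplicit false

namespace Pool.Agent.QPC

open Polynomial

open scoped commutatorElement

theorem t2_fix {A Q : Type} [CommGroup A] [Group Q] [Fintype Q] (φ : Q → (A →* A))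
    (hφ : ∀ q q' a, φ (q * q') a = φ q (φ q' a)) (q : Q) (a : A) :
    φ q (∏ q', φ q' a) = ∏ q', φ q' a := by
  rw [map_prod]
  exact Fintype.prod_equiv (Equiv.mulLeft q) _ _ (fun q' => (hφ q q' a).symm)

theorem t2_inv {A Q : Type} [CommGroup A] [Group Q] [Fintype Q] (φ : Q → (A →* A))
    (hφ : ∀ q q' a, φ (q * q') a = φ q (φ q' a)) (q : Q) (a : A) :
    ∏ q', φ q' (φ q a) = ∏ q', φ q' a :=
  Fintype.prod_equiv (Equiv.mulRight q) _ _ (fun q' => (hφ q' q a).symm)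

/-- the conjugation action of `Q` on `A` -/
def t2_conj {G : Type} [Group G] (A Q : Subgroup G) (hQ : ∀ q ∈ Q, ∀ a ∈ A, q * a * q⁻¹ ∈ A) (q : Q) :
    A →* A where
  toFun a := ⟨q * a * (q : G)⁻¹, hQ q q.2 a a.2⟩
  map_one' := by
    ext
    simp
  map_mul' a b := by
    ext
    simp

theorem t2_conj_mul {G : Type} [Group G] (A Q : Subgroup G) (hQ : ∀ q ∈ Q, ∀ a ∈ A, q * a * q⁻¹ ∈ A)
    (q q' : Q) (a : A) : t2_conj A Q hQ (q * q') a = t2_conj A Q hQ q (t2_conj A Q hQ q' a) := by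
  ext
  simp only [t2_conj, MonoidHom.coe_mk, OneHom.coe_mk, Subgroup.coe_mul]
  group

theorem T2a (G : Type) [Group G] [Finite G] (A Q : Subgroup G) (hA : ∀ x ∈ A, ∀ y ∈ A, x * y = y * x)
    (hQ : ∀ q ∈ Q, ∀ a ∈ A, q * a * q⁻¹ ∈ A) (hco : (Nat.card A).Coprime (Nat.card Q)) :
    ∀ a ∈ A, ∃ c ∈ A, (∀ q ∈ Q, q * c = c * q) ∧ ∃ d ∈ ⁅A, Q⁆, a = c * d := by
  intro a ha
  have : Fintype Q := Fintype.ofFinite Q
  let _ : CommGroup A := { (inferInstance : Group A) with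
    mul_comm := fun x y => Subtype.ext (hA x x.2 y y.2) }
  set φ := t2_conj A Q hQ
  have hφ := t2_conj_mul A Q hQ
  set a' : A := ⟨a, ha⟩
  set ν : A := ∏ q, φ q a' with hν
  set δ : A := ∏ q : Q, (a' * (φ q a')⁻¹) with hδ
  have h1 : a' ^ Nat.card Q = ν * δ := by
    rw [hν, hδ, ← Finset.prod_mul_distrib]
    have : ∀ q : Q, φ q a' * (a' * (φ q a')⁻¹) = a' := fun q => by
      rw [mul_comm a', mul_inv_cancel_left]
    simp only [this]
    rw [Finset.prod_const, Finset.card_univ, Nat.card_eq_fintype_card]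
  have hδ' : (δ : G) ∈ ⁅A, Q⁆ := by
    have h2 : δ ∈ (⁅A, Q⁆).subgroupOf A := by
      rw [hδ]
      refine Subgroup.prod_mem _ (fun q _ => ?_)
      rw [Subgroup.mem_subgroupOf]
      have h3 : ((a' * (φ q a')⁻¹ : A) : G) = ⁅a, (q : G)⁆ := by
        show a * ((q : G) * a * (q : G)⁻¹)⁻¹ = _
        rw [commutatorElement_def]
        group
      rw [h3]
      exact Subgroup.commutator_mem_commutator ha q.2
    exact h2
  obtain ⟨k, hk⟩ := exists_pow_eq_self_of_coprime (x := a') (n := Nat.card Q)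
    ((hco.symm).coprime_dvd_right (orderOf_dvd_natCard a'))
  refine ⟨((ν ^ k : A) : G), (ν ^ k).2, ?_, ((δ ^ k : A) : G), ?_, ?_⟩
  · intro q hq
    have h4 : φ ⟨q, hq⟩ (ν ^ k) = ν ^ k := by
      rw [map_pow, hν, t2_fix φ hφ]
    have h5 : q * ((ν ^ k : A) : G) * q⁻¹ = ((ν ^ k : A) : G) := congrArg Subtype.val h4
    rw [mul_inv_eq_iff_eq_mul] at h5
    exact h5
  · rw [Subgroup.coe_pow]
    exact Subgroup.pow_mem _ hδ' k
  · rw [h1, mul_pow] at hk
    have := congrArg Subtype.val hk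
    exact this.symm

theorem T2b (G : Type) [Group G] [Finite G] (A Q : Subgroup G) (hA : ∀ x ∈ A, ∀ y ∈ A, x * y = y * x)
    (hQ : ∀ q ∈ Q, ∀ a ∈ A, q * a * q⁻¹ ∈ A) (hco : (Nat.card A).Coprime (Nat.card Q))
    (hC : ∀ a ∈ A, (∀ q ∈ Q, q * a = a * q) → a = 1) : A ≤ ⁅A, Q⁆ := by
  intro a ha
  obtain ⟨c, hc, hcQ, d, hd, rfl⟩ := T2a G A Q hA hQ hco a ha
  rw [hC c hc hcQ, one_mul]
  exact hd

theorem T2c (G : Type) [Group G] [Finite G] (A Q : Subgroup G) (hA : ∀ x ∈ A, ∀ y ∈ A, x * y = y * x)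
    (hQ : ∀ q ∈ Q, ∀ a ∈ A, q * a * q⁻¹ ∈ A) (hco : (Nat.card A).Coprime (Nat.card Q))
    (x : G) (hx : x ∈ ⁅A, Q⁆) (hf : ∀ q ∈ Q, q * x = x * q) : x = 1 := by
  have : Fintype Q := Fintype.ofFinite Q
  let _ : CommGroup A := { (inferInstance : Group A) with
    mul_comm := fun x y => Subtype.ext (hA x x.2 y y.2) }
  set φ := t2_conj A Q hQ
  have hφ := t2_conj_mul A Q hQ
  let ν : A →* A :=
    { toFun := fun a => ∏ q, φ q a
      map_one' := by simp
      map_mul' := fun a b => by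
        simp only [map_mul]
        exact Finset.prod_mul_distrib }
  have hle : ⁅A, Q⁆ ≤ ν.ker.map A.subtype := by
    rw [Subgroup.commutator_le]
    intro a ha q hq
    refine ⟨(⟨a, ha⟩ : A) * φ ⟨q, hq⟩ (⟨a, ha⟩ : A)⁻¹, ?_, ?_⟩
    · show ν _ = 1
      rw [map_mul]
      have h1 : ν (φ ⟨q, hq⟩ (⟨a, ha⟩ : A)⁻¹) = ν (⟨a, ha⟩ : A)⁻¹ := t2_inv φ hφ _ _
      rw [h1, ← map_mul, mul_inv_cancel, map_one]
    · show a * (q * (a⁻¹) * q⁻¹) = _
      rw [commutatorElement_def]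
      group
  obtain ⟨y, hy, hyx⟩ := hle hx
  have hyx' : (y : G) = x := hyx
  have hν : ν y = y ^ Nat.card Q := by
    show ∏ q, φ q y = _
    have h1 : ∀ q : Q, φ q y = y := by
      intro q
      apply Subtype.ext
      show (q : G) * (y : G) * (q : G)⁻¹ = y
      rw [hyx', hf q q.2, mul_inv_cancel_right]
    simp only [h1]
    rw [Finset.prod_const, Finset.card_univ, Nat.card_eq_fintype_card]
  have h2 : y ^ Nat.card Q = 1 := by
    rw [← hν]
    exact hy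
  have h3 : orderOf y ∣ 1 := by
    have h4 := Nat.dvd_gcd (orderOf_dvd_natCard y) (orderOf_dvd_of_pow_eq_one h2)
    rwa [hco.gcd_eq_one] at h4
  have h5 : y = 1 := orderOf_eq_one_iff.1 (Nat.dvd_one.1 h3)
  rw [← hyx', h5]
  rfl

end Pool.Agent.QPC
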