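import Mathlib
import Pool.Agent.QPC.Defs

/-!
# QPC row T3: the largest abelian normal subgroup
Plan. Let `F := ⨆` of the normal subgroups `A` of `G` all of whose elements commute. Each such `A` has order prime to `p` (its elements of `p`-power order form a normal `p`-subgroup of `G`, trivial by `hO`), and is the product of its primary parts `A_ℓ` (elements of
`ℓ`-power order, normal in `G`). Any two such `A, B` commute: for `ℓ ≠ ℓ'` the normal subgroups `A_ℓ, B_ℓ'` intersect trivially, so commute; for `ℓ = ℓ'` both are normal `ℓ`-subgroups, contained in every Sylow `ℓ`-subgroup, which is commutative by `hab`.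
So `F` is commutative, normal, contains every abelian normal subgroup, and has order prime to `p` (it is an abelian normal subgroup itself).
(Simplest in Lean: first show that two commuting-normal subgroups `A, B` commute elementwise; then take `F` = an abelian normal subgroup of maximal order; for any other `B`, `F ⊔ B` is again abelian and normal, so `B ≤ F`.)
-/

set_option autoImplicit false

namespace Pool.Agent.QPC

open Polynomial

/-- The elements of `ℓ`-power order of a commutative subgroup. -/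
def t3_pr (ℓ : ℕ) {G : Type} [Group G] (A : Subgroup G)
    (hA : ∀ x ∈ A, ∀ y ∈ A, x * y = y * x) : Subgroup G where
  carrier := {x | x ∈ A ∧ ∃ r : ℕ, x ^ ℓ ^ r = 1}
  mul_mem' := by
    rintro a b ⟨ha, r, hr⟩ ⟨hb, s, hs⟩
    refine ⟨A.mul_mem ha hb, r + s, ?_⟩
    have h : Commute a b := hA a ha b hb
    rw [h.mul_pow, pow_add, pow_mul, hr, one_pow, one_mul, mul_comm, pow_mul, hs, one_pow]
  one_mem' := ⟨A.one_mem, 0, one_pow _⟩
  inv_mem' := by
    rintro a ⟨ha, r, hr⟩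
    exact ⟨A.inv_mem ha, r, by rw [inv_pow, hr, inv_one]⟩

theorem t3_mem {ℓ : ℕ} {G : Type} [Group G] {A : Subgroup G}
    {hA : ∀ x ∈ A, ∀ y ∈ A, x * y = y * x} {x : G} :
    x ∈ t3_pr ℓ A hA ↔ x ∈ A ∧ ∃ r : ℕ, x ^ ℓ ^ r = 1 := Iff.rfl

theorem t3_le {ℓ : ℕ} {G : Type} [Group G] {A : Subgroup G}
    {hA : ∀ x ∈ A, ∀ y ∈ A, x * y = y * x} : t3_pr ℓ A hA ≤ A := fun _ h => h.1

theorem t3_isP {ℓ : ℕ} {G : Type} [Group G] {A : Subgroup G}
    {hA : ∀ x ∈ A, ∀ y ∈ A, x * y = y * x} : IsPGroup ℓ (t3_pr ℓ A hA) := by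
  rintro ⟨x, hx, r, hr⟩
  exact ⟨r, Subtype.ext hr⟩

theorem t3_normal {ℓ : ℕ} {G : Type} [Group G] {A : Subgroup G} (hn : A.Normal)
    {hA : ∀ x ∈ A, ∀ y ∈ A, x * y = y * x} : (t3_pr ℓ A hA).Normal := by
  refine ⟨?_⟩
  rintro x ⟨hx, r, hr⟩ g
  refine ⟨hn.conj_mem x hx g, r, ?_⟩
  rw [conj_pow, hr, mul_one, mul_inv_cancel]

/-- An element lies in a subgroup as soon as the elements of prime power order of the cyclic
group generated by it do. -/
theorem t3_gen {G : Type} [Group G] (C : Subgroup G) (n : ℕ) : ∀ a : G, n ≠ 0 → a ^ n = 1 →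
    (∀ ℓ : ℕ, ℓ.Prime → ∀ x ∈ Subgroup.zpowers a, (∃ r : ℕ, x ^ ℓ ^ r = 1) → x ∈ C) → a ∈ C := by
  induction n using Nat.recOnPosPrimePosCoprime with
  | prime_pow q k hq hk =>
    intro a _ ha h
    exact h q hq a (Subgroup.mem_zpowers a) ⟨k, ha⟩
  | zero => intro a h; exact absurd rfl h
  | one =>
    intro a _ ha _
    rw [pow_one] at ha
    rw [ha]; exact C.one_mem
  | coprime u v hu hv huv ihu ihv =>
    intro a _ ha h
    have hu0 : u ≠ 0 := by omega
    have hv0 : v ≠ 0 := by omega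
    have key : ∀ z : ℤ, (∀ ℓ : ℕ, ℓ.Prime → ∀ x ∈ Subgroup.zpowers (a ^ z),
        (∃ r : ℕ, x ^ ℓ ^ r = 1) → x ∈ C) := by
      intro z ℓ hℓ x hx hr
      refine h ℓ hℓ x ?_ hr
      have : Subgroup.zpowers (a ^ z) ≤ Subgroup.zpowers a :=
        Subgroup.zpowers_le.2 (Subgroup.zpow_mem_zpowers a z)
      exact this hx
    have hb : a = a ^ ((u : ℤ) * Nat.gcdA u v) * a ^ ((v : ℤ) * Nat.gcdB u v) := by
      rw [← zpow_add, ← Nat.gcd_eq_gcd_ab, huv.gcd_eq_one]
      simp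
    rw [hb]
    refine C.mul_mem (ihv _ hv0 ?_ (key _)) (ihu _ hu0 ?_ (key _))
    · rw [← zpow_natCast, ← zpow_mul]
      have : (u : ℤ) * Nat.gcdA u v * v = ((u * v : ℕ) : ℤ) * Nat.gcdA u v := by push_cast; ring
      rw [this, zpow_mul, zpow_natCast, ha, one_zpow]
    · rw [← zpow_natCast, ← zpow_mul]
      have : (v : ℤ) * Nat.gcdB u v * u = ((u * v : ℕ) : ℤ) * Nat.gcdB u v := by push_cast; ring
      rw [this, zpow_mul, zpow_natCast, ha, one_zpow]

/-- Two abelian normal subgroups commute. -/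
theorem t3_comm (p : ℕ) [Fact p.Prime] (G : Type) [Group G] [Finite G]
    (hO : ∀ K : Subgroup G, K.Normal → IsPGroup p K → K = ⊥)
    (hab : ∀ ℓ : ℕ, ℓ.Prime → ℓ ≠ p → ∀ S : Subgroup G, IsPGroup ℓ S →
      ∀ x ∈ S, ∀ y ∈ S, x * y = y * x)
    (A B : Subgroup G) (hAn : A.Normal) (hBn : B.Normal)
    (hA : ∀ x ∈ A, ∀ y ∈ A, x * y = y * x) (hB : ∀ x ∈ B, ∀ y ∈ B, x * y = y * x) :
    ∀ x ∈ A, ∀ y ∈ B, x * y = y * x := by
  have h1 : ∀ ℓ ℓ' : ℕ, ℓ.Prime → ℓ'.Prime → ∀ x ∈ t3_pr ℓ A hA, ∀ y ∈ t3_pr ℓ' B hB,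
      x * y = y * x := by
    intro ℓ ℓ' hℓ hℓ' x hx y hy
    have := t3_normal (ℓ := ℓ) hAn (hA := hA)
    have := t3_normal (ℓ := ℓ') hBn (hA := hB)
    have : Fact ℓ.Prime := ⟨hℓ⟩
    have : Fact ℓ'.Prime := ⟨hℓ'⟩
    by_cases h : ℓ = ℓ'
    · subst h
      by_cases hp : ℓ = p
      · subst hp
        have h2 := hO _ (t3_normal (ℓ := ℓ) hAn (hA := hA)) t3_isP
        rw [h2, Subgroup.mem_bot] at hx
        rw [hx, one_mul, mul_one]
      · have h3 : IsPGroup ℓ (t3_pr ℓ A hA ⊔ t3_pr ℓ B hB : Subgroup G) :=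
          IsPGroup.to_sup_of_normal_right t3_isP t3_isP
        exact hab ℓ hℓ hp _ h3 x (Subgroup.mem_sup_left hx) y (Subgroup.mem_sup_right hy)
    · have h2 : Disjoint (t3_pr ℓ A hA) (t3_pr ℓ' B hB) :=
        IsPGroup.disjoint_of_ne ℓ ℓ' h _ _ t3_isP t3_isP
      exact Subgroup.commute_of_normal_of_disjoint _ _ inferInstance inferInstance h2 x y hx hy
  have h2 : ∀ ℓ : ℕ, ℓ.Prime → ∀ x ∈ t3_pr ℓ A hA, ∀ y ∈ B, x * y = y * x := by
    intro ℓ hℓ x hx y hy
    have h3 : y ∈ Subgroup.centralizer ({x} : Set G) := by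
      refine t3_gen _ (orderOf y) y (orderOf_pos y).ne' (pow_orderOf_eq_one y) ?_
      rintro ℓ' hℓ' z hz hr
      have hz' : z ∈ B := (Subgroup.zpowers_le.2 hy) hz
      rw [Subgroup.mem_centralizer_singleton_iff]
      exact (h1 ℓ ℓ' hℓ hℓ' x hx z ⟨hz', hr⟩).symm
    rw [Subgroup.mem_centralizer_singleton_iff] at h3
    exact h3.symm
  intro x hx y hy
  have h3 : x ∈ Subgroup.centralizer ({y} : Set G) := by
    refine t3_gen _ (orderOf x) x (orderOf_pos x).ne' (pow_orderOf_eq_one x) ?_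
    rintro ℓ hℓ z hz hr
    have hz' : z ∈ A := (Subgroup.zpowers_le.2 hx) hz
    rw [Subgroup.mem_centralizer_singleton_iff]
    exact h2 ℓ hℓ z ⟨hz', hr⟩ y hy
  rw [Subgroup.mem_centralizer_singleton_iff] at h3
  exact h3

theorem T3 (p : ℕ) [Fact p.Prime] (G : Type) [Group G] [Finite G]
    (hO : ∀ K : Subgroup G, K.Normal → IsPGroup p K → K = ⊥)
    (hab : ∀ ℓ : ℕ, ℓ.Prime → ℓ ≠ p → ∀ S : Subgroup G, IsPGroup ℓ S →
      ∀ x ∈ S, ∀ y ∈ S, x * y = y * x) :
    ∃ F : Subgroup G, F.Normal ∧ (∀ x ∈ F, ∀ y ∈ F, x * y = y * x) ∧ ¬ p ∣ Nat.card F ∧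
      ∀ B : Subgroup G, B.Normal → (∀ x ∈ B, ∀ y ∈ B, x * y = y * x) → B ≤ F := by
  let S : Set (Subgroup G) := {F | F.Normal ∧ ∀ x ∈ F, ∀ y ∈ F, x * y = y * x}
  have hS : S.Finite := Set.toFinite S
  have hne : S.Nonempty := ⟨⊥, inferInstance, by
    intro x hx y hy
    rw [Subgroup.mem_bot] at hx hy
    rw [hx, hy]⟩
  obtain ⟨F, hF⟩ := hS.exists_maximal hne
  refine ⟨F, hF.1.1, hF.1.2, ?_, ?_⟩
  · intro hdvd
    obtain ⟨x, hx⟩ := exists_prime_orderOf_dvd_card' (G := F) p hdvd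
    have h1 : (x : G) ∈ t3_pr p F hF.1.2 := by
      refine ⟨x.2, 1, ?_⟩
      have := pow_orderOf_eq_one x
      rw [hx] at this
      rw [pow_one]
      exact congrArg Subtype.val this
    rw [hO _ (t3_normal hF.1.1) t3_isP, Subgroup.mem_bot] at h1
    have h2 : x = 1 := Subtype.ext h1
    rw [h2, orderOf_one] at hx
    exact (Fact.out : p.Prime).one_lt.ne hx
  · intro B hB hBc
    have hFn : F.Normal := hF.1.1
    have hc := t3_comm p G hO hab F B hF.1.1 hB hF.1.2 hBc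
    have h1 : F ⊔ B ∈ S := by
      refine ⟨inferInstance, ?_⟩
      intro x hx y hy
      rw [Subgroup.mem_sup_of_normal_right] at hx hy
      obtain ⟨a, ha, b, hb, rfl⟩ := hx
      obtain ⟨a', ha', b', hb', rfl⟩ := hy
      calc a * b * (a' * b') = a * (b * a') * b' := by group
        _ = a * (a' * b) * b' := by rw [hc a' ha' b hb]
        _ = (a * a') * (b * b') := by group
        _ = (a' * a) * (b' * b) := by rw [hF.1.2 a ha a' ha', hBc b hb b' hb']
        _ = a' * (a * b') * b := by group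
        _ = a' * (b' * a) * b := by rw [hc a ha b' hb']
        _ = a' * b' * (a * b) := by group
    exact le_sup_right.trans (hF.2 h1 le_sup_left)

end Pool.Agent.QPC
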