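import Mathlib
import Pool.Agent.QPC.Defs
import Pool.Agent.QPC.T1
import Pool.Agent.QPC.T2
import Pool.Agent.QPC.T3

/-!
# QPC row T4: a non-central chief-type subgroup with a proper supplement
Plan. `P := pg p G` (normal, `T1a`), `P ≠ 1` (`T1e`). `F` from `T3`. `P ⊄ F` (`p ∤ |F|` and `P` contains non-trivial elements of `p`-power order). Let `X` be minimal among the normal subgroups of `G` with `F < X ≤ P ⊔ F`. `G` is solvable so `X/F` is an abelian group, and by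
minimality it is a `q`-group for one prime `q` (`X/F` is a minimal normal subgroup of the solvable group `G/F`; only need: `X/F` is a `q`-group). Let `Q` be a Sylow `q`-subgroup of `X` (as a subgroup of `G`, `Sylow.map`/subtype); `X = F Q` (orders, or: the image of `Q` in `X/F` is everything).
Frattini argument: `G = X N_G(Q)` (`Sylow.normalizer_sup_eq_top`), so `G = F N_G(Q)`.
`N_G(Q) ≠ G`: otherwise `Q` is normal in `G`; if `q = p` then `Q = 1` by `hO`; if `q ≠ p` then `Q` is commutative (`hab`) so `Q ≤ F`; in both cases `X = F`, contradiction.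
Let `H` be a maximal (proper) subgroup containing `N_G(Q)` (coatom). Let `F_q` be the elements of `q`-power order of `F`, `F'` those of order prime to `q`; `F_q ≤ Q` if `q ≠ p` (a normal `q`-subgroup contained in `X` lies in every Sylow `q`-subgroup of `X`), `F_q = 1` if `q = p`.
`T2a` for `A = F'`, this `Q`: every element of `F'` is `c d`, `c` commuting with `Q` so in `N_G(Q)`, `d ∈ ⁅F',Q⁆`. So `G = ⁅F',Q⁆ N_G(Q)`. As `Q ≤ X ≤ P F` and `F` is commutative, `⁅F',Q⁆ ≤ ⁅F,P⁆`. So `⁅F,P⁆ ⊄ H`. `F` is the product of the `F_ℓ`, `ℓ ≠ p`, so `⁅F,P⁆` is generated by the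
`⁅F_ℓ,P⁆`: for some prime `ℓ ≠ p` the subgroup `M := ⁅F_ℓ,P⁆` is not contained in `H`. `M` is normal in `G`, `M ≤ F_ℓ ≤ F` commutative `ℓ`-group, `M ≤ P` (`P` normal). `M ⊔ H = ⊤` (`H` maximal).
`ℓ ∤ [G : C_G(M)]`: `C_G(M)` contains a Sylow `ℓ`-subgroup `S` of `G` (commutative, contains `F_ℓ`). Fixed points: `P/(C_P(F_ℓ))` acts on `F_ℓ`; use `T2c` with a suitable group of order prime to `ℓ`: let `x ∈ M` commute with `P`. To apply `T2c` inside `G`: replace the action of `P` by the finite group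
`P / C_P(F_ℓ)`, of order prime to `ℓ`, acting on `F_ℓ`: the norm map `ν a := ∏_{y ∈ P/C_P(F_ℓ)} y a y⁻¹` kills `⁅F_ℓ,P⁆` and is `x ↦ x^n` on fixed elements, `n` prime to `ℓ` (copy the proof of `T2c`), so `x = 1`.
-/

set_option autoImplicit false

namespace Pool.Agent.QPC

open Polynomial

open scoped commutatorElement

/-- The elements of `ℓ`-power order of a commutative subgroup. -/
def t4_pr (ℓ : ℕ) {G : Type} [Group G] (A : Subgroup G)
    (hA : ∀ x ∈ A, ∀ y ∈ A, x * y = y * x) : Subgroup G where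
  carrier := {x | x ∈ A ∧ ∃ r : ℕ, x ^ ℓ ^ r = 1}
  mul_mem' := by
    rintro a b ⟨ha, r, hr⟩ ⟨hb, s, hs⟩
    refine ⟨A.mul_mem ha hb, r + s, ?_⟩
    have h : Commute a b := hA a ha b hb
    rw [h.mul_pow, pow_add, pow_mul, hr, one_pow, one_mul, mul_comm, pow_mul, hs, one_pow]
  one_mem' := ⟨A.one_mem, 0, one_pow _⟩
  inv_mem' := by
    rintro a ⟨ha, r, hr⟩
    exact ⟨A.inv_mem ha, r, by rw [inv_pow, hr, inv_one]⟩

theorem t4_mem {ℓ : ℕ} {G : Type} [Group G] {A : Subgroup G}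
    {hA : ∀ x ∈ A, ∀ y ∈ A, x * y = y * x} {x : G} :
    x ∈ t4_pr ℓ A hA ↔ x ∈ A ∧ ∃ r : ℕ, x ^ ℓ ^ r = 1 := Iff.rfl

theorem t4_le {ℓ : ℕ} {G : Type} [Group G] {A : Subgroup G}
    {hA : ∀ x ∈ A, ∀ y ∈ A, x * y = y * x} : t4_pr ℓ A hA ≤ A := fun _ h => h.1

theorem t4_isP {ℓ : ℕ} {G : Type} [Group G] {A : Subgroup G}
    {hA : ∀ x ∈ A, ∀ y ∈ A, x * y = y * x} : IsPGroup ℓ (t4_pr ℓ A hA) := by
  rintro ⟨x, hx, r, hr⟩
  exact ⟨r, Subtype.ext hr⟩

theorem t4_normal {ℓ : ℕ} {G : Type} [Group G] {A : Subgroup G} (hn : A.Normal)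
    {hA : ∀ x ∈ A, ∀ y ∈ A, x * y = y * x} : (t4_pr ℓ A hA).Normal := by
  refine ⟨?_⟩
  rintro x ⟨hx, r, hr⟩ g
  refine ⟨hn.conj_mem x hx g, r, ?_⟩
  rw [conj_pow, hr, mul_one, mul_inv_cancel]

/-- An element lies in a subgroup as soon as the elements of prime power order of the cyclic
group generated by it do. -/
theorem t4_gen {G : Type} [Group G] (C : Subgroup G) (n : ℕ) : ∀ a : G, n ≠ 0 → a ^ n = 1 →
    (∀ ℓ : ℕ, ℓ.Prime → ∀ x ∈ Subgroup.zpowers a, (∃ r : ℕ, x ^ ℓ ^ r = 1) → x ∈ C) → a ∈ C := by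
  induction n using Nat.recOnPosPrimePosCoprime with
  | prime_pow q k hq hk =>
    intro a _ ha h
    exact h q hq a (Subgroup.mem_zpowers a) ⟨k, ha⟩
  | zero => intro a h; exact absurd rfl h
  | one =>
    intro a _ ha _
    rw [pow_one] at ha
    rw [ha]; exact C.one_mem
  | coprime u v hu hv huv ihu ihv =>
    intro a _ ha h
    have hu0 : u ≠ 0 := by omega
    have hv0 : v ≠ 0 := by omega
    have key : ∀ z : ℤ, (∀ ℓ : ℕ, ℓ.Prime → ∀ x ∈ Subgroup.zpowers (a ^ z),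
        (∃ r : ℕ, x ^ ℓ ^ r = 1) → x ∈ C) := by
      intro z ℓ hℓ x hx hr
      refine h ℓ hℓ x ?_ hr
      have : Subgroup.zpowers (a ^ z) ≤ Subgroup.zpowers a :=
        Subgroup.zpowers_le.2 (Subgroup.zpow_mem_zpowers a z)
      exact this hx
    have hb : a = a ^ ((u : ℤ) * Nat.gcdA u v) * a ^ ((v : ℤ) * Nat.gcdB u v) := by
      rw [← zpow_add, ← Nat.gcd_eq_gcd_ab, huv.gcd_eq_one]
      simp
    rw [hb]
    refine C.mul_mem (ihv _ hv0 ?_ (key _)) (ihu _ hu0 ?_ (key _))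
    · rw [← zpow_natCast, ← zpow_mul]
      have : (u : ℤ) * Nat.gcdA u v * v = ((u * v : ℕ) : ℤ) * Nat.gcdA u v := by push_cast; ring
      rw [this, zpow_mul, zpow_natCast, ha, one_zpow]
    · rw [← zpow_natCast, ← zpow_mul]
      have : (v : ℤ) * Nat.gcdB u v * u = ((u * v : ℕ) : ℤ) * Nat.gcdB u v := by push_cast; ring
      rw [this, zpow_mul, zpow_natCast, ha, one_zpow]

/-- A minimal normal subgroup of a finite solvable group is a `q`-group. -/
theorem t4_min (G : Type) [Group G] [Finite G] [Group.IsSolvable G] (M : Subgroup G)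
    (hM : M.Normal) (hne : M ≠ ⊥)
    (hmin : ∀ N : Subgroup G, N.Normal → N ≤ M → N ≠ ⊥ → N = M) :
    ∃ q : ℕ, q.Prime ∧ IsPGroup q M := by
  have h1 : ⁅M, M⁆ < M := Group.IsSolvable.commutator_lt_of_ne_bot hne
  have h2 : ⁅M, M⁆ = ⊥ := by
    by_contra h
    exact h1.ne (hmin _ inferInstance h1.le h)
  have hA : ∀ x ∈ M, ∀ y ∈ M, x * y = y * x := by
    intro x hx y hy
    have h3 : ⁅x, y⁆ ∈ ⁅M, M⁆ := Subgroup.commutator_mem_commutator hx hy
    rw [h2, Subgroup.mem_bot, commutatorElement_eq_one_iff_mul_comm] at h3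
    exact h3
  have h3 : Nat.card M ≠ 1 := by
    rw [Ne, Subgroup.card_eq_one]
    exact hne
  obtain ⟨q, hq, hdvd⟩ := Nat.exists_prime_and_dvd h3
  refine ⟨q, hq, ?_⟩
  have : Fact q.Prime := ⟨hq⟩
  have h4 : t4_pr q M hA = M := by
    refine hmin _ (t4_normal hM) t4_le ?_
    intro h
    obtain ⟨x, hx⟩ := exists_prime_orderOf_dvd_card' (G := M) q hdvd
    have h5 : (x : G) ∈ t4_pr q M hA := by
      refine ⟨x.2, 1, ?_⟩
      have := pow_orderOf_eq_one x
      rw [hx] at this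
      rw [pow_one]
      exact congrArg Subtype.val this
    rw [h, Subgroup.mem_bot] at h5
    have h6 : x = 1 := Subtype.ext h5
    rw [h6, orderOf_one] at hx
    exact hq.one_lt.ne hx
  rw [← h4]
  exact t4_isP

/-- The norm argument. -/
theorem t4_norm (A : Type) [CommGroup A] [Finite A] (Γ : Subgroup (MulAut A)) (ℓ : ℕ)
    (hA : IsPGroup ℓ A) (hℓ : ℓ.Prime) (hco : ¬ ℓ ∣ Nat.card Γ) (x : A)
    (hx : x ∈ Subgroup.closure {z : A | ∃ a : A, ∃ γ ∈ Γ, z = a * (γ a)⁻¹})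
    (hf : ∀ γ ∈ Γ, γ x = x) : x = 1 := by
  classical
  have : Finite (MulAut A) := inferInstance
  have : Fintype Γ := Fintype.ofFinite Γ
  let ν : A →* A :=
    { toFun := fun a => ∏ γ : Γ, (γ : MulAut A) a
      map_one' := by simp
      map_mul' := fun a b => by
        simp only [map_mul]
        exact Finset.prod_mul_distrib }
  have h1 : ∀ z, ν z = ∏ γ : Γ, (γ : MulAut A) z := fun _ => rfl
  have h2 : ∀ δ ∈ Γ, ∀ a, ν (δ a) = ν a := by
    intro δ hδ a
    rw [h1, h1]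
    refine Fintype.prod_equiv (Equiv.mulRight (⟨δ, hδ⟩ : Γ)) _ _ ?_
    intro γ
    rfl
  have h3 : ν x = 1 := by
    have : Subgroup.closure {z : A | ∃ a : A, ∃ γ ∈ Γ, z = a * (γ a)⁻¹} ≤ ν.ker := by
      rw [Subgroup.closure_le]
      rintro z ⟨a, γ, hγ, rfl⟩
      rw [SetLike.mem_coe, MonoidHom.mem_ker, map_mul, map_inv, h2 γ hγ, mul_inv_cancel]
    exact this hx
  have h4 : ν x = x ^ Nat.card Γ := by
    rw [h1]
    have : ∀ γ : Γ, (γ : MulAut A) x = x := fun γ => hf γ.1 γ.2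
    simp only [this, Finset.prod_const, Finset.card_univ, Nat.card_eq_fintype_card]
  rw [h3] at h4
  have h5 : orderOf x ∣ Nat.card Γ := orderOf_dvd_of_pow_eq_one h4.symm
  obtain ⟨k, hk⟩ := hA x
  have h6 : orderOf x ∣ ℓ ^ k := orderOf_dvd_of_pow_eq_one hk
  obtain ⟨j, -, hj⟩ := (Nat.dvd_prime_pow hℓ).1 h6
  rcases Nat.eq_zero_or_pos j with h | h
  · rw [h, pow_zero] at hj
    exact orderOf_eq_one_iff.1 hj
  · exact absurd ((dvd_pow_self ℓ h.ne').trans (hj ▸ h5)) hco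

/-- Elements of the commutator subgroup of a normal abelian `ℓ`-subgroup and a subgroup, fixed by
this subgroup, are trivial, if the `ℓ`-subgroups are commutative. -/
theorem t4_fix (G : Type) [Group G] [Finite G] (A P : Subgroup G) (hAn : A.Normal)
    (hA : ∀ x ∈ A, ∀ y ∈ A, x * y = y * x) (ℓ : ℕ) (hℓ : ℓ.Prime) (hAp : IsPGroup ℓ A)
    (hab : ∀ S : Subgroup G, IsPGroup ℓ S → ∀ x ∈ S, ∀ y ∈ S, x * y = y * x)
    (x : G) (hx : x ∈ ⁅A, P⁆) (hf : ∀ a ∈ P, a * x = x * a) : x = 1 := by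
  have : Fact ℓ.Prime := ⟨hℓ⟩
  let _ : CommGroup A := { (inferInstance : Group A) with
    mul_comm := fun a b => Subtype.ext (hA a.1 a.2 b.1 b.2) }
  let φ : G →* MulAut A := MulAut.conjNormal
  have hφ : ∀ (g : G) (a : A), ((φ g a : A) : G) = g * a * g⁻¹ := fun g a =>
    MulAut.conjNormal_apply g a
  obtain ⟨S, hS⟩ := hAp.exists_le_sylow
  have h1 : (S : Subgroup G) ≤ φ.ker := by
    intro s hs
    rw [MonoidHom.mem_ker]
    ext a
    rw [hφ]
    have := hab S S.isPGroup' s hs a (hS a.2)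
    rw [this, mul_inv_cancel_right]
    rfl
  have h2 : ¬ ℓ ∣ φ.ker.index := fun h =>
    S.not_dvd_index (h.trans (Subgroup.index_dvd_of_le h1))
  have h3 : ¬ ℓ ∣ Nat.card (P.map φ) := by
    intro h
    apply h2
    rw [Subgroup.index_ker]
    exact h.trans (Subgroup.card_dvd_of_le (Subgroup.map_le_range φ P))
  have hxA : x ∈ A := Subgroup.commutator_le_left A P hx
  have h4 : (⟨x, hxA⟩ : A) = 1 := by
    refine t4_norm A (P.map φ) ℓ hAp hℓ h3 _ ?_ ?_
    · have h5 : ⁅A, P⁆ ≤ (Subgroup.closure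
          {z : A | ∃ a : A, ∃ γ ∈ P.map φ, z = a * (γ a)⁻¹}).map A.subtype := by
        rw [Subgroup.commutator_le]
        intro a ha y hy
        refine ⟨⟨a, ha⟩ * (φ y ⟨a, ha⟩)⁻¹, Subgroup.subset_closure
          ⟨⟨a, ha⟩, φ y, Subgroup.mem_map_of_mem φ hy, rfl⟩, ?_⟩
        have : A.subtype (⟨a, ha⟩ * (φ y ⟨a, ha⟩)⁻¹) = a * ((φ y ⟨a, ha⟩ : A) : G)⁻¹ := rfl
        rw [this, hφ, commutatorElement_def]
        group
      obtain ⟨z, hz, hzx⟩ := h5 hx
      have : z = ⟨x, hxA⟩ := Subtype.ext hzx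
      rw [← this]
      exact hz
    · rintro _ ⟨y, hy, rfl⟩
      apply Subtype.ext
      rw [hφ]
      change y * x * y⁻¹ = x
      rw [hf y hy, mul_inv_cancel_right]
  exact congrArg Subtype.val h4

theorem T4 (p : ℕ) [Fact p.Prime] (G : Type) [Group G] [Finite G] [Group.IsSolvable G]
    (hO : ∀ K : Subgroup G, K.Normal → IsPGroup p K → K = ⊥)
    (hab : ∀ ℓ : ℕ, ℓ.Prime → ℓ ≠ p → ∀ S : Subgroup G, IsPGroup ℓ S →
      ∀ x ∈ S, ∀ y ∈ S, x * y = y * x)
    (hp : p ∣ Nat.card G) :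
    ∃ (ℓ : ℕ) (M H : Subgroup G), ℓ.Prime ∧ ℓ ≠ p ∧ M.Normal ∧ IsPGroup ℓ M ∧
      (∀ x ∈ M, ∀ y ∈ M, x * y = y * x) ∧ M ≤ pg p G ∧
      (∀ x ∈ M, (∀ a ∈ pg p G, a * x = x * a) → x = 1) ∧
      ¬ ℓ ∣ (Subgroup.centralizer (M : Set G)).index ∧ H ≠ ⊤ ∧ M ⊔ H = ⊤ := by
  obtain ⟨F, hFn, hFc, hFp, hFmax⟩ := T3 p G hO hab
  have hPn : (pg p G).Normal := T1a p G
  have hPne : pg p G ≠ ⊥ := T1e p G hp
  have hpp : p.Prime := Fact.out
  -- `P` is not contained in `F`
  have hPF : ¬ pg p G ≤ F := by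
    intro h
    apply hPne
    rw [eq_bot_iff, pg, Subgroup.closure_le]
    rintro a ⟨r, hr⟩
    have haF : a ∈ F := h (Subgroup.subset_closure ⟨r, hr⟩)
    have h1 : orderOf a ∣ p ^ r := orderOf_dvd_of_pow_eq_one hr
    have h2 : orderOf a ∣ Nat.card F := by
      have := orderOf_dvd_natCard (⟨a, haF⟩ : F)
      rwa [Subgroup.orderOf_mk] at this
    obtain ⟨j, -, hj⟩ := (Nat.dvd_prime_pow hpp).1 h1
    rcases Nat.eq_zero_or_pos j with h3 | h3
    · rw [h3, pow_zero] at hj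
      exact orderOf_eq_one_iff.1 hj
    · exact absurd ((dvd_pow_self p h3.ne').trans (hj ▸ h2)) hFp
  -- a minimal normal subgroup `X` above `F`, inside `P ⊔ F`
  let S : Set (Subgroup G) := {X | X.Normal ∧ F < X ∧ X ≤ pg p G ⊔ F}
  have hSf : S.Finite := Set.toFinite S
  have hSne : S.Nonempty := ⟨pg p G ⊔ F, inferInstance,
    lt_of_le_of_ne le_sup_right (fun h => hPF (h ▸ le_sup_left)), le_rfl⟩
  obtain ⟨X, hX⟩ := hSf.exists_minimal hSne
  have hXn : X.Normal := hX.1.1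
  have hFX : F < X := hX.1.2.1
  have hXP : X ≤ pg p G ⊔ F := hX.1.2.2
  let π : G →* G ⧸ F := QuotientGroup.mk' F
  have hπk : π.ker = F := QuotientGroup.ker_mk' F
  have hπs : Function.Surjective π := QuotientGroup.mk'_surjective F
  obtain ⟨q, hq, hXq⟩ : ∃ q : ℕ, q.Prime ∧ IsPGroup q (X.map π) := by
    refine t4_min (G ⧸ F) (X.map π) (hXn.map π hπs) ?_ ?_
    · intro h
      rw [Subgroup.map_eq_bot_iff, hπk] at h
      exact hFX.not_ge h
    · intro N hN hNX hNne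
      have hNn : (N.comap π).Normal := hN.comap π
      have h1 : F ≤ N.comap π := by
        intro f hf
        rw [Subgroup.mem_comap]
        have : π f = 1 := by
          rw [← MonoidHom.mem_ker, hπk]; exact hf
        rw [this]
        exact N.one_mem
      have h2 : N.comap π ≤ X := by
        intro g hg
        obtain ⟨x, hx, hxg⟩ := hNX (Subgroup.mem_comap.1 hg)
        have h3 : g * x⁻¹ ∈ F := by
          rw [← hπk, MonoidHom.mem_ker, map_mul, map_inv, hxg, mul_inv_cancel]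
        have h4 : g = (g * x⁻¹) * x := by group
        rw [h4]
        exact X.mul_mem (hFX.le h3) hx
      have h3 : N.comap π ∈ S := by
        refine ⟨hNn, lt_of_le_of_ne h1 ?_, h2.trans hXP⟩
        intro h
        apply hNne
        have h4 : (N.comap π).map π = N := Subgroup.map_comap_eq_self_of_surjective hπs N
        rw [← h4, ← h, Subgroup.map_eq_bot_iff, hπk]
      have h4 : X ≤ N.comap π := hX.2 h3 h2
      refine le_antisymm hNX ?_
      rw [Subgroup.map_le_iff_le_comap]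
      exact h4
  have hXq' : ∀ x ∈ X, ∃ r : ℕ, x ^ q ^ r ∈ F := by
    intro x hx
    obtain ⟨r, hr⟩ := hXq ⟨π x, Subgroup.mem_map_of_mem π hx⟩
    refine ⟨r, ?_⟩
    rw [← hπk, MonoidHom.mem_ker, map_pow]
    exact congrArg Subtype.val hr
  have hqf : Fact q.Prime := ⟨hq⟩
  -- the Sylow subgroup of `X`
  have hFq : IsPGroup q ((t4_pr q F hFc).subgroupOf X) := by
    rintro ⟨⟨x, hx⟩, hx', r, hr⟩
    exact ⟨r, Subtype.ext (Subtype.ext hr)⟩
  obtain ⟨P0, hP0⟩ := hFq.exists_le_sylow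
  let Q : Subgroup G := (P0 : Subgroup X).map X.subtype
  have hFQ : t4_pr q F hFc ≤ Q := by
    intro x hx
    have hxX : x ∈ X := hFX.le hx.1
    exact ⟨⟨x, hxX⟩, hP0 hx, rfl⟩
  have hQX : Q ≤ X := by
    rintro _ ⟨x, -, rfl⟩
    exact x.2
  have hQq : IsPGroup q Q := P0.isPGroup'.map X.subtype
  -- `X = F Q`
  have hXFQ : X ≤ F ⊔ Q := by
    have h1 : (P0 : Subgroup X) ≤ (F ⊔ Q).subgroupOf X := by
      intro x hx
      rw [Subgroup.mem_subgroupOf]
      exact Subgroup.mem_sup_right ⟨x, hx, rfl⟩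
    have h2 : F.subgroupOf X ≤ (F ⊔ Q).subgroupOf X := by
      intro x hx
      rw [Subgroup.mem_subgroupOf] at hx ⊢
      exact Subgroup.mem_sup_left hx
    have h3 : IsPGroup q (X ⧸ F.subgroupOf X) := by
      intro y
      obtain ⟨x, rfl⟩ := QuotientGroup.mk_surjective y
      obtain ⟨r, hr⟩ := hXq' x x.2
      refine ⟨r, ?_⟩
      rw [← QuotientGroup.mk_pow, QuotientGroup.eq_one_iff, Subgroup.mem_subgroupOf]
      exact hr
    obtain ⟨k, hk⟩ := IsPGroup.iff_card.1 h3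
    have h4 : ((F ⊔ Q).subgroupOf X).index ∣ q ^ k := by
      rw [← hk]
      exact Subgroup.index_dvd_of_le h2
    have h5 : ¬ q ∣ ((F ⊔ Q).subgroupOf X).index := fun h =>
      P0.not_dvd_index (h.trans (Subgroup.index_dvd_of_le h1))
    obtain ⟨j, -, hj⟩ := (Nat.dvd_prime_pow hq).1 h4
    rcases Nat.eq_zero_or_pos j with h | h
    · rw [h, pow_zero, Subgroup.index_eq_one] at hj
      exact Subgroup.subgroupOf_eq_top.1 hj
    · exact absurd (hj ▸ dvd_pow_self q h.ne') h5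
  -- the normalizer
  let N : Subgroup G := Subgroup.normalizer (Q : Set G)
  have hNtop : F ⊔ N = ⊤ := by
    have h1 : N ⊔ X = ⊤ := Sylow.normalizer_sup_eq_top P0
    rw [eq_top_iff, ← h1]
    refine sup_le le_sup_right (hXFQ.trans (sup_le le_sup_left ?_))
    exact Subgroup.le_normalizer.trans le_sup_right
  have hNne : N ≠ ⊤ := by
    intro h
    have hQn : Q.Normal := Subgroup.normalizer_eq_top_iff.1 h
    have h1 : Q ≤ F := by
      by_cases hqp : q = p
      · subst hqp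
        rw [hO Q hQn hQq]
        exact bot_le
      · exact hFmax Q hQn (hab q hq hqp Q hQq)
    exact hFX.not_ge (hXFQ.trans (sup_le le_rfl h1))
  obtain ⟨H, hH, hNH⟩ := (eq_top_or_exists_le_coatom N).resolve_left hNne
  -- the prime `ℓ`
  have hex : ∃ ℓ : ℕ, ℓ.Prime ∧ ¬ ⁅t4_pr ℓ F hFc, pg p G⁆ ≤ H := by
    by_contra hcon
    push Not at hcon
    apply hH.1
    rw [eq_top_iff, ← hNtop]
    refine sup_le ?_ hNH
    intro f hf
    refine t4_gen H (orderOf f) f (orderOf_pos f).ne' (pow_orderOf_eq_one f) ?_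
    intro ℓ hℓ x hx hr
    have hxF : x ∈ F := (Subgroup.zpowers_le.2 hf) hx
    have hx1 : x ∈ t4_pr ℓ F hFc := ⟨hxF, hr⟩
    have hℓf : Fact ℓ.Prime := ⟨hℓ⟩
    by_cases hℓq : ℓ = q
    · subst hℓq
      exact hNH (Subgroup.le_normalizer (hFQ hx1))
    · have hFln : (t4_pr ℓ F hFc).Normal := t4_normal hFn
      have hco : (Nat.card (t4_pr ℓ F hFc)).Coprime (Nat.card Q) := by
        obtain ⟨a, ha⟩ := IsPGroup.iff_card.1 (t4_isP (ℓ := ℓ) (A := F) (hA := hFc))
        obtain ⟨b, hb⟩ := IsPGroup.iff_card.1 hQq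
        rw [ha, hb]
        exact Nat.Coprime.pow _ _ ((Nat.coprime_primes hℓ hq).2 hℓq)
      obtain ⟨c, hc, hcQ, d, hd, hxcd⟩ := T2a G (t4_pr ℓ F hFc) Q
        (fun u hu v hv => hFc u hu.1 v hv.1) (fun u _ a ha => hFln.conj_mem a ha u) hco x hx1
      rw [hxcd]
      refine H.mul_mem (hNH ?_) ?_
      · rw [Subgroup.mem_normalizer_iff]
        intro h
        constructor
        · intro hh
          rw [← hcQ h hh, mul_inv_cancel_right]
          exact hh
        · intro hh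
          have h1 := hcQ _ hh
          have h2 : c * h * c⁻¹ = h := by
            have h3 : c * h * c⁻¹ * c = c * h := by group
            rw [h3] at h1
            exact (mul_left_cancel h1).symm
          rwa [h2] at hh
      · refine hcon ℓ hℓ (?_ : d ∈ _)
        have h1 : ⁅t4_pr ℓ F hFc, Q⁆ ≤ ⁅t4_pr ℓ F hFc, pg p G⁆ := by
          rw [Subgroup.commutator_le]
          intro a ha y hy
          have h2 := hXP (hQX hy)
          rw [Subgroup.mem_sup_of_normal_right] at h2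
          obtain ⟨u, hu, v, hv, huv⟩ := h2
          have h3 : ⁅a, y⁆ = ⁅a, u⁆ := by
            rw [← huv, commutatorElement_def, commutatorElement_def]
            have h4 : v * a⁻¹ = a⁻¹ * v := hFc v hv a⁻¹ (F.inv_mem ha.1)
            calc a * (u * v) * a⁻¹ * (u * v)⁻¹ = a * u * (v * a⁻¹) * v⁻¹ * u⁻¹ := by group
              _ = a * u * (a⁻¹ * v) * v⁻¹ * u⁻¹ := by rw [h4]
              _ = a * u * a⁻¹ * u⁻¹ := by group
          rw [h3]
          exact Subgroup.commutator_mem_commutator ha hu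
        exact h1 hd
  obtain ⟨ℓ, hℓ, hM⟩ := hex
  have hFln : (t4_pr ℓ F hFc).Normal := t4_normal hFn
  have hℓp : ℓ ≠ p := by
    intro h
    subst h
    apply hM
    rw [hO _ (t4_normal (ℓ := ℓ) hFn) t4_isP, Subgroup.commutator_bot_left]
    exact bot_le
  have hMF : ⁅t4_pr ℓ F hFc, pg p G⁆ ≤ t4_pr ℓ F hFc := Subgroup.commutator_le_left _ _
  have hMP : ⁅t4_pr ℓ F hFc, pg p G⁆ ≤ pg p G := Subgroup.commutator_le_right _ _
  have hℓf : Fact ℓ.Prime := ⟨hℓ⟩
  refine ⟨ℓ, ⁅t4_pr ℓ F hFc, pg p G⁆, H, hℓ, hℓp, inferInstance, t4_isP.to_le hMF,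
    fun x hx y hy => hFc x (hMF hx).1 y (hMF hy).1, hMP, ?_, ?_, hH.1, ?_⟩
  · intro x hx hf
    exact t4_fix G (t4_pr ℓ F hFc) (pg p G) hFln (fun u hu v hv => hFc u hu.1 v hv.1) ℓ hℓ t4_isP
      (hab ℓ hℓ hℓp) x hx hf
  · obtain ⟨T, hT⟩ := (t4_isP (ℓ := ℓ) (A := F) (hA := hFc)).exists_le_sylow
    have h1 : (T : Subgroup G) ≤ Subgroup.centralizer
        ((⁅t4_pr ℓ F hFc, pg p G⁆ : Subgroup G) : Set G) := by
      intro s hs
      rw [Subgroup.mem_centralizer_iff]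
      intro m hm
      exact (hab ℓ hℓ hℓp T T.isPGroup' s hs m (hT (hMF hm))).symm
    exact fun h => T.not_dvd_index (h.trans (Subgroup.index_dvd_of_le h1))
  · refine hH.2 _ (lt_of_le_of_ne le_sup_right ?_)
    intro h
    apply hM
    rw [h]
    exact le_sup_left

end Pool.Agent.QPC
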