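import Mathlib
import Pool.Agent.QPC.Defs
import Pool.Agent.QPC.T1
import Pool.Agent.QPC.T2

/-!
# QPC row T5: the supplement inherits the hypotheses
Plan. Write `P := pg p G`. (1) `p(H) M = P`: `T1b` for the surjection `H → G/M` (surjective since `M ⊔ H = ⊤`, `M` normal) and for `G → G/M` gives `(pg p H) M / M = P / M` (note `M ≤ P`). Here `pg p H` is mapped to `G` by the inclusion; call it `PH`.
(2) A fixed point `x ∈ M` of `PH` commutes with `PH M = P` (`M` commutative), so `x = 1` (hypothesis `hfix`). This is `T5b`.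
(3) `M0 := M ⊓ H` (in `H`: `M.subgroupOf H`): normalised by `H` and by `M` (commutative) so `P` acts on it. `M0 ≤ ⁅M0, PH⁆ ≤ PH`: coprime action: `PH` acts on `M0` through a group of order prime to `ℓ` (`hidx`), with no fixed points; use the norm argument of `T2`: for `a ∈ M0`, `ν a := ∏_{y ∈ PH / C} y a y⁻¹` is a fixed
point so `ν a = 1`, so `a^n = ∏ a (y a y⁻¹)⁻¹ ∈ ⁅M0,PH⁆`, `n` prime to `ℓ`, so `a ∈ ⁅M0,PH⁆ ≤ PH` (`PH` is normalised by `H ≥ M0`).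
(4) `H / pg p H`: the map `H → G/P` is surjective (`H M = G`, `M ≤ P`) with kernel `H ⊓ P = H ⊓ PH M = PH (H ⊓ M) = PH M0 = PH` (modular law, `PH ≤ H`). So for a generator `g` of `G/P` choose `h ∈ H` in its class: this is `T5a`.
-/

set_option autoImplicit false

namespace Pool.Agent.QPC

open Polynomial

/-- the elements of `pg p G` are of the form `h m` with `h ∈ pg p H`, `m ∈ M` -/
theorem t5_dec (p : ℕ) [Fact p.Prime] (G : Type) [Group G] [Finite G] (M H : Subgroup G)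
    (hM : M.Normal) (hsup : M ⊔ H = ⊤) (a : G) (ha : a ∈ pg p G) :
    ∃ h : H, h ∈ pg p H ∧ (h : G)⁻¹ * a ∈ M := by
  have hf : Function.Surjective ((QuotientGroup.mk' M).comp H.subtype) := by
    intro q
    obtain ⟨g, rfl⟩ := QuotientGroup.mk'_surjective M q
    have hg : g ∈ ((M ⊔ H : Subgroup G) : Set G) := by rw [hsup]; trivial
    rw [Subgroup.normal_mul] at hg
    obtain ⟨m, hm, h, hh, hmh⟩ := Set.mem_mul.1 hg
    refine ⟨⟨h, hh⟩, ?_⟩
    change (QuotientGroup.mk h : G ⧸ M) = QuotientGroup.mk g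
    rw [QuotientGroup.eq, ← hmh]
    have := hM.conj_mem m hm h⁻¹
    rwa [inv_inv, mul_assoc] at this
  have h1 := T1b p H (G ⧸ M) _ hf
  have h2 := T1b p G (G ⧸ M) (QuotientGroup.mk' M) (QuotientGroup.mk'_surjective M)
  have h3 : QuotientGroup.mk' M a ∈ (pg p G).map (QuotientGroup.mk' M) :=
    Subgroup.mem_map_of_mem _ ha
  rw [h2, ← h1] at h3
  obtain ⟨h, hh, hha⟩ := Subgroup.mem_map.1 h3
  refine ⟨h, hh, ?_⟩
  have h4 : (QuotientGroup.mk (h : G) : G ⧸ M) = QuotientGroup.mk a := hha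
  rwa [QuotientGroup.eq] at h4

theorem T5b (p : ℕ) [Fact p.Prime] (G : Type) [Group G] [Finite G] (ℓ : ℕ) (hℓ : ℓ.Prime)
    (hℓp : ℓ ≠ p) (M H : Subgroup G) (hM : M.Normal) (hMℓ : IsPGroup ℓ M)
    (hMc : ∀ x ∈ M, ∀ y ∈ M, x * y = y * x) (hMP : M ≤ pg p G)
    (hfix : ∀ x ∈ M, (∀ a ∈ pg p G, a * x = x * a) → x = 1) (hsup : M ⊔ H = ⊤)
    (x : G) (hx : x ∈ M) (h : ∀ a : H, (∃ r : ℕ, a ^ p ^ r = 1) → (a : G) * x = x * a) :
    x = 1 := by
  refine hfix x hx fun a ha => ?_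
  obtain ⟨h0, hh0, hm⟩ := t5_dec p G M H hM hsup a ha
  have h1 : ∀ b : H, b ∈ pg p H → (b : G) * x = x * b := by
    intro b hb
    refine Subgroup.closure_induction (p := fun (b : H) _ => (b : G) * x = x * b) ?_ ?_ ?_ ?_ hb
    · intro b hb
      exact h b hb
    · simp
    · intro b c _ _ hb hc
      rw [Subgroup.coe_mul, mul_assoc, hc, ← mul_assoc, hb, mul_assoc]
    · intro b _ hb
      rw [Subgroup.coe_inv]
      calc (b : G)⁻¹ * x = (b : G)⁻¹ * (x * b) * (b : G)⁻¹ := by group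
        _ = (b : G)⁻¹ * (b * x) * (b : G)⁻¹ := by rw [hb]
        _ = x * (b : G)⁻¹ := by group
  have h2 : a = (h0 : G) * ((h0 : G)⁻¹ * a) := by group
  have h3 := hMc _ hm x hx
  rw [h2, mul_assoc, h3, ← mul_assoc, h1 h0 hh0, mul_assoc]

/-- the elements of `M ⊓ H` are in `pg p H` -/
theorem t5_M0 (p : ℕ) [Fact p.Prime] (G : Type) [Group G] [Finite G] (ℓ : ℕ) (hℓ : ℓ.Prime)
    (hℓp : ℓ ≠ p) (M H : Subgroup G) (hM : M.Normal) (hMℓ : IsPGroup ℓ M)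
    (hMc : ∀ x ∈ M, ∀ y ∈ M, x * y = y * x) (hMP : M ≤ pg p G)
    (hfix : ∀ x ∈ M, (∀ a ∈ pg p G, a * x = x * a) → x = 1)
    (hidx : ¬ ℓ ∣ (Subgroup.centralizer (M : Set G)).index) (hsup : M ⊔ H = ⊤)
    (a : H) (ha : (a : G) ∈ M) : a ∈ pg p H := by
  classical
  let _ : CommGroup M :=
    { (inferInstance : Group M) with mul_comm := fun x y => Subtype.ext (hMc _ x.2 _ y.2) }
  -- the acting group
  set PH : Subgroup G := (pg p H).map H.subtype with hPH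
  set Q : Subgroup (MulAut M) := PH.map (MulAut.conjNormal (H := M)) with hQ
  have hker : (MulAut.conjNormal (H := M)).ker = Subgroup.centralizer (M : Set G) := by
    ext g
    rw [MonoidHom.mem_ker, Subgroup.mem_centralizer_iff]
    constructor
    · intro h x hx
      have h1 := congrArg (fun σ : MulAut M => ((σ ⟨x, hx⟩ : M) : G)) h
      simp only [MulAut.conjNormal_apply, MulAut.one_apply] at h1
      calc x * g = (g * x * g⁻¹) * g := by rw [h1]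
        _ = g * x := by group
    · intro h
      ext x
      rw [MulAut.conjNormal_apply, MulAut.one_apply]
      rw [← h x x.2]
      group
  have hfinM : Finite (MulAut M) := inferInstance
  have hn : ¬ ℓ ∣ Nat.card Q := by
    intro hd
    apply hidx
    rw [← hker, Subgroup.index_ker]
    refine hd.trans (Subgroup.card_dvd_of_le ?_)
    rintro _ ⟨g, _, rfl⟩
    exact ⟨g, rfl⟩
  let _ : Fintype Q := Fintype.ofFinite Q
  set α : M := ⟨a, ha⟩ with hα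
  -- the norm
  have hνfix : ∀ τ : Q, (τ : MulAut M) (∏ σ : Q, (σ : MulAut M) α) = ∏ σ : Q, (σ : MulAut M) α := by
    intro τ
    rw [map_prod]
    refine Fintype.prod_equiv (Equiv.mulLeft τ) _ _ fun σ => ?_
    rfl
  have hν : ∏ σ : Q, (σ : MulAut M) α = 1 := by
    apply Subtype.ext
    refine T5b p G ℓ hℓ hℓp M H hM hMℓ hMc hMP hfix hsup _ (∏ σ : Q, (σ : MulAut M) α).2 ?_
    intro b hb
    have hbP : (b : G) ∈ PH := ⟨b, Subgroup.subset_closure hb, rfl⟩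
    have h1 := congrArg (fun x : M => (x : G)) (hνfix ⟨MulAut.conjNormal (b : G), ⟨b, hbP, rfl⟩⟩)
    simp only [MulAut.conjNormal_apply] at h1
    calc (b : G) * _ = ((b : G) * ((∏ σ : Q, (σ : MulAut M) α : M) : G) * (b : G)⁻¹) * b := by group
      _ = _ := by rw [h1]
  have hpow : α ^ Nat.card Q = ∏ σ : Q, (α * ((σ : MulAut M) α)⁻¹) := by
    rw [Finset.prod_mul_distrib, Finset.prod_inv_distrib, hν, inv_one, mul_one, Finset.prod_const,
      Finset.card_univ, Nat.card_eq_fintype_card]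
  have hmem : α ^ Nat.card Q ∈ PH.subgroupOf M := by
    rw [hpow]
    refine Subgroup.prod_mem _ fun σ _ => ?_
    obtain ⟨g, ⟨b, hb, hbg⟩, hg⟩ := σ.2
    rw [Subgroup.mem_subgroupOf, ← hg]
    have e : ((α * (MulAut.conjNormal g α)⁻¹ : M) : G) = ((a * b * a⁻¹ * b⁻¹ : H) : G) := by
      rw [Subgroup.coe_mul, Subgroup.coe_inv, MulAut.conjNormal_apply, ← hbg]
      change (a : G) * ((b : G) * a * (b : G)⁻¹)⁻¹ = (a : G) * b * (a : G)⁻¹ * (b : G)⁻¹
      group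
    rw [e]
    exact ⟨a * b * a⁻¹ * b⁻¹, mul_mem ((T1a p H).conj_mem b hb a) (inv_mem hb), rfl⟩
  -- coprimality
  obtain ⟨k, hk⟩ := hMℓ α
  have hcop : Nat.Coprime (Nat.card Q) (ℓ ^ k) :=
    (((Nat.Prime.coprime_iff_not_dvd hℓ).2 hn).symm).pow_right k
  have hbez := Nat.gcd_eq_gcd_ab (Nat.card Q) (ℓ ^ k)
  rw [hcop] at hbez
  have hαe : α = (α ^ Nat.card Q) ^ (Nat.gcdA (Nat.card Q) (ℓ ^ k)) := by
    calc α = α ^ (((1 : ℕ) : ℤ)) := by simp
      _ = α ^ ((Nat.card Q : ℤ) * Nat.gcdA (Nat.card Q) (ℓ ^ k) +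
          ((ℓ ^ k : ℕ) : ℤ) * Nat.gcdB (Nat.card Q) (ℓ ^ k)) := by rw [hbez]
      _ = _ := by
        rw [zpow_add, zpow_mul, zpow_mul, zpow_natCast, zpow_natCast, hk, one_zpow, mul_one]
  have hαm : α ∈ PH.subgroupOf M := by
    rw [hαe]
    exact Subgroup.zpow_mem _ hmem _
  obtain ⟨b, hb, hba⟩ := hαm
  have : b = a := Subtype.ext hba
  rwa [← this]

theorem T5a (p : ℕ) [Fact p.Prime] (G : Type) [Group G] [Finite G] (ℓ : ℕ) (hℓ : ℓ.Prime)
    (hℓp : ℓ ≠ p) (M H : Subgroup G) (hM : M.Normal) (hMℓ : IsPGroup ℓ M)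
    (hMc : ∀ x ∈ M, ∀ y ∈ M, x * y = y * x) (hMP : M ≤ pg p G)
    (hfix : ∀ x ∈ M, (∀ a ∈ pg p G, a * x = x * a) → x = 1)
    (hidx : ¬ ℓ ∣ (Subgroup.centralizer (M : Set G)).index) (hsup : M ⊔ H = ⊤)
    (hcyc : ∃ g : G, ∀ x : G, ∃ n : ℤ, x⁻¹ * g ^ n ∈ pg p G) :
    ∃ g : H, ∀ x : H, ∃ n : ℤ, x⁻¹ * g ^ n ∈ pg p H := by
  obtain ⟨g0, hg0⟩ := hcyc
  have hPn : (pg p G).Normal := T1a p G
  have hg : g0 ∈ ((M ⊔ H : Subgroup G) : Set G) := by rw [hsup]; trivial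
  rw [Subgroup.normal_mul] at hg
  obtain ⟨m, hm, h, hh, hmh⟩ := Set.mem_mul.1 hg
  refine ⟨⟨h, hh⟩, fun x => ?_⟩
  obtain ⟨n, hn⟩ := hg0 x
  refine ⟨n, ?_⟩
  -- `x⁻¹ h ^ n` is in `pg p G`
  have h1 : (QuotientGroup.mk g0 : G ⧸ pg p G) = QuotientGroup.mk h := by
    rw [QuotientGroup.eq, ← hmh]
    have h2 := hPn.conj_mem m⁻¹ (inv_mem (hMP hm)) h⁻¹
    have e : (m * h)⁻¹ * h = h⁻¹ * m⁻¹ * h⁻¹⁻¹ := by group
    rw [e]
    exact h2
  have h3 : (x : G)⁻¹ * h ^ n ∈ pg p G := by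
    rw [← QuotientGroup.eq] at hn ⊢
    rw [hn, QuotientGroup.mk_zpow, QuotientGroup.mk_zpow, h1]
  obtain ⟨h0, hh0, hm0⟩ := t5_dec p G M H hM hsup _ h3
  have h4 : h0⁻¹ * (x⁻¹ * (⟨h, hh⟩ : H) ^ n) ∈ pg p H := by
    refine t5_M0 p G ℓ hℓ hℓp M H hM hMℓ hMc hMP hfix hidx hsup _ ?_
    exact hm0
  have h5 := mul_mem hh0 h4
  rwa [mul_inv_cancel_left] at h5

end Pool.Agent.QPC
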