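import Mathlib
import Pool.Agent.QPC.Defs
import Pool.Agent.QPC.T1
import Pool.Agent.QPC.T4
import Pool.Agent.QPC.T5

/-!
# QPC row T6: the group theoretic induction
Here `RR` is an abstract property of finite groups (it will be realisability).
Plan. Strong induction on `Nat.card G`, for all `G`. The hypotheses pass to quotients by normal subgroups and to subgroups as far as solvability and `hab` are concerned (an `ℓ`-subgroup of a quotient `G/N` lifts: it is contained in the image of a Sylow `ℓ`-subgroup of `G`).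
1. If `G` has a non-trivial normal `p`-subgroup `K`: `G ⧸ K` has smaller order; `hcyc` for the quotient by `T1b`; `hp`.
2. If `p ∤ |G|`: `pg p G = ⊥` (`T1d`), so `G` is cyclic; `hcy`.
3. Else `T4` gives `ℓ, M, H`. By `T5a` and induction `RR H` (`|H| < |G|`). `H` acts on `M` by conjugation: `φ : H →* MulAut M`. `¬ ℓ ∣ Nat.card φ.range`: `φ.range` is a quotient of `H ⧸ (centralizer M ∩ H)`, whose order divides `[G : centralizer M]`... (the range is isomorphic to a subgroup of
`G ⧸ centralizer M`, so its order divides the index). Fixed points: `T5b`. `hl` gives `RR (M ⋊[φ] H)` (use the type `M` with its commutative group structure `⟨M.toGroup, comm⟩`). The map `(m,h) ↦ m h` is a surjective hom to `G` (`M ⊔ H = ⊤`): `hquo`.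
-/

set_option autoImplicit false

namespace Pool.Agent.QPC

open Polynomial

theorem t6_quot_ab (ℓ : ℕ) (hℓ : ℓ.Prime) (G G' : Type) [Group G] [Finite G] [Group G']
    (f : G →* G') (hf : Function.Surjective f)
    (hab : ∀ S : Subgroup G, IsPGroup ℓ S → ∀ x ∈ S, ∀ y ∈ S, x * y = y * x)
    (S : Subgroup G') (hS : IsPGroup ℓ S) (x : G') (hx : x ∈ S) (y : G') (hy : y ∈ S) :
    x * y = y * x := by
  classical
  have : Fact ℓ.Prime := ⟨hℓ⟩
  let f0 : (S.comap f) →* S := f.subgroupComap S
  have hf0 : Function.Surjective f0 := by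
    rintro ⟨z, hz⟩
    obtain ⟨w, hw⟩ := hf z
    refine ⟨⟨w, ?_⟩, ?_⟩
    · change f w ∈ S
      rw [hw]; exact hz
    · apply Subtype.ext
      exact hw
  have : Finite S := Finite.of_surjective f0 hf0
  obtain ⟨P⟩ : Nonempty (Sylow ℓ (S.comap f)) := inferInstance
  have h1 : ((Sylow.mapSurjective hf0 P : Sylow ℓ S) : Subgroup S) = ⊤ := by
    refine ((Sylow.mapSurjective hf0 P).is_maximal' (Q := ⊤) ?_ le_top).symm
    exact hS.of_equiv Subgroup.topEquiv.symm
  rw [Sylow.coe_mapSurjective] at h1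
  have hQ : IsPGroup ℓ ((P : Subgroup (S.comap f)).map (S.comap f).subtype) :=
    P.isPGroup'.map _
  have key : ∀ z ∈ S, ∃ w ∈ (P : Subgroup (S.comap f)).map (S.comap f).subtype, f w = z := by
    intro z hz
    have : (⟨z, hz⟩ : S) ∈ Subgroup.map f0 (P : Subgroup (S.comap f)) := by
      rw [h1]; exact Subgroup.mem_top _
    obtain ⟨w, hw, hwz⟩ := this
    refine ⟨(w : G), ⟨w, hw, rfl⟩, ?_⟩
    have := congrArg Subtype.val hwz
    exact this
  obtain ⟨u, hu, rfl⟩ := key x hx
  obtain ⟨v, hv, rfl⟩ := key y hy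
  rw [← map_mul, ← map_mul, hab _ hQ u hu v hv]

theorem t6_sub_ab (ℓ : ℕ) (G : Type) [Group G]
    (hab : ∀ S : Subgroup G, IsPGroup ℓ S → ∀ x ∈ S, ∀ y ∈ S, x * y = y * x) (H : Subgroup G)
    (S : Subgroup H) (hS : IsPGroup ℓ S) (x : H) (hx : x ∈ S) (y : H) (hy : y ∈ S) :
    x * y = y * x := by
  apply Subtype.ext
  have := hab (S.map H.subtype) (hS.map _) (x : G) ⟨x, hx, rfl⟩ (y : G) ⟨y, hy, rfl⟩
  simpa using this

theorem t6_aux (p : ℕ) [Fact p.Prime] (RR : (G : Type) → [Group G] → Prop)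
    (hcy : ∀ (C : Type) [Group C] [Finite C], IsCyclic C → ¬ p ∣ Nat.card C → RR C)
    (hquo : ∀ (G G' : Type) [Group G] [Group G'] [Finite G] (f : G →* G'),
      Function.Surjective f → RR G → RR G')
    (hp : ∀ (G : Type) [Group G] [Finite G] (N : Subgroup G) [N.Normal], IsPGroup p N →
      RR (G ⧸ N) → RR G)
    (hl : ∀ (M H : Type) [CommGroup M] [Group H] [Finite M] [Finite H] (φ : H →* MulAut M) (ℓ : ℕ),
      ℓ.Prime → ℓ ≠ p → IsPGroup ℓ M → ¬ ℓ ∣ Nat.card φ.range →
      (∀ x : M, (∀ a : H, (∃ r : ℕ, a ^ p ^ r = 1) → φ a x = x) → x = 1) →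
      RR H → RR (M ⋊[φ] H)) (n : ℕ) :
    ∀ (G : Type) [Group G] [Finite G] [Group.IsSolvable G], Nat.card G = n →
    (∃ g : G, ∀ x : G, ∃ n : ℤ, x⁻¹ * g ^ n ∈ pg p G) →
    (∀ ℓ : ℕ, ℓ.Prime → ℓ ≠ p → ∀ S : Subgroup G, IsPGroup ℓ S →
      ∀ x ∈ S, ∀ y ∈ S, x * y = y * x) → RR G := by
  induction n using Nat.strong_induction_on with
  | _ n ih =>
  intro G _ _ _ hn hcyc hab
  by_cases hO : ∀ K : Subgroup G, K.Normal → IsPGroup p K → K = ⊥
  · by_cases hpG : p ∣ Nat.card G
    · obtain ⟨ℓ, M, H, hℓ, hℓp, hM, hMℓ, hMc, hMP, hfix, hidx, hHtop, hsup⟩ := T4 p G hO hab hpG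
      have hcardH : Nat.card H < n := by
        rw [← hn]
        rcases lt_or_eq_of_le (Nat.le_of_dvd Nat.card_pos (Subgroup.card_subgroup_dvd_card H)) with h | h
        · exact h
        · exact absurd ((Subgroup.card_eq_iff_eq_top H).mp h) hHtop
      have hRH : RR H := ih _ hcardH H rfl
        (T5a p G ℓ hℓ hℓp M H hM hMℓ hMc hMP hfix hidx hsup hcyc)
        (fun q hq hqp => t6_sub_ab q G (hab q hq hqp) H)
      have := hM
      let cgM : CommGroup M := { (inferInstance : Group M) with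
        mul_comm := fun x y => Subtype.ext (hMc x x.2 y y.2) }
      let φ : H →* MulAut M := (MulAut.conjNormal (H := M)).comp H.subtype
      have hφ : ∀ (a : H) (x : M), ((φ a x : M) : G) = (a : G) * x * (a : G)⁻¹ := by
        intro a x
        exact MulAut.conjNormal_apply (a : G) x
      have hker : (MulAut.conjNormal (H := M) : G →* MulAut M).ker =
          Subgroup.centralizer (M : Set G) := by
        ext g
        rw [MonoidHom.mem_ker, Subgroup.mem_centralizer_iff]
        constructor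
        · intro h x hx
          have h1 := congrArg (fun e : MulAut M => ((e ⟨x, hx⟩ : M) : G)) h
          simp only [MulAut.conjNormal_apply, MulAut.one_apply] at h1
          calc x * g = g * x * g⁻¹ * g := by rw [h1]
            _ = g * x := by group
        · intro h
          ext x
          have h1 := h (x : G) x.2
          rw [MulAut.conjNormal_apply, MulAut.one_apply, ← h1]
          group
      have hrange : ¬ ℓ ∣ Nat.card φ.range := by
        intro hd
        apply hidx
        rw [← hker, Subgroup.index_ker]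
        refine hd.trans (Subgroup.card_dvd_of_le ?_)
        rintro _ ⟨a, rfl⟩
        exact ⟨(a : G), rfl⟩
      have hfix' : ∀ x : M, (∀ a : H, (∃ r : ℕ, a ^ p ^ r = 1) → φ a x = x) → x = 1 := by
        intro x hx
        apply Subtype.ext
        refine T5b p G ℓ hℓ hℓp M H hM hMℓ hMc hMP hfix hsup (x : G) x.2 ?_
        intro a ha
        have h1 := congrArg Subtype.val (hx a ha)
        rw [hφ] at h1
        calc (a : G) * x = (a : G) * x * (a : G)⁻¹ * a := by group
          _ = x * a := by rw [h1]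
      have hsd : RR (M ⋊[φ] H) := hl M H φ ℓ hℓ hℓp hMℓ hrange hfix' hRH
      have : Finite (M ⋊[φ] H) := Finite.of_equiv _ SemidirectProduct.equivProd.symm
      let f : (M ⋊[φ] H) →* G := SemidirectProduct.lift M.subtype H.subtype (by
        intro a
        ext x
        simp only [MonoidHom.comp_apply, MulEquiv.coe_toMonoidHom, Subgroup.coe_subtype,
          MulAut.conj_apply]
        exact hφ a x)
      refine hquo _ G f ?_ hsd
      rw [← MonoidHom.range_eq_top, eq_top_iff, ← hsup, sup_le_iff]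
      constructor
      · intro x hx
        exact ⟨SemidirectProduct.inl ⟨x, hx⟩, by simp [f]⟩
      · intro x hx
        exact ⟨SemidirectProduct.inr ⟨x, hx⟩, by simp [f]⟩
    · have hbot := T1d p G hpG
      refine hcy G ?_ hpG
      obtain ⟨g, hg⟩ := hcyc
      refine ⟨g, fun x => ?_⟩
      obtain ⟨m, hm⟩ := hg x
      rw [hbot, Subgroup.mem_bot] at hm
      refine ⟨m, ?_⟩
      exact (inv_mul_eq_one.mp hm).symm
  · push Not at hO
    obtain ⟨K, hKn, hKp, hK⟩ := hO
    have := hKn
    refine hp G K hKp ?_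
    have hcard : Nat.card (G ⧸ K) < n := by
      rw [← hn, Subgroup.card_eq_card_quotient_mul_card_subgroup K]
      have h1 : 0 < Nat.card (G ⧸ K) := Nat.card_pos
      have h2 : 1 < Nat.card K := by
        have h3 : 0 < Nat.card K := Nat.card_pos
        rcases Nat.lt_or_ge 1 (Nat.card K) with h | h
        · exact h
        · exact absurd (Subgroup.card_eq_one.mp (le_antisymm h h3)) hK
      nlinarith
    refine ih _ hcard (G ⧸ K) rfl ?_ ?_
    · obtain ⟨g, hg⟩ := hcyc
      refine ⟨QuotientGroup.mk' K g, fun x => ?_⟩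
      obtain ⟨y, rfl⟩ := QuotientGroup.mk'_surjective K x
      obtain ⟨m, hm⟩ := hg y
      refine ⟨m, ?_⟩
      rw [← T1b p G (G ⧸ K) (QuotientGroup.mk' K) (QuotientGroup.mk'_surjective K)]
      exact ⟨_, hm, by simp⟩
    · intro q hq hqp
      exact t6_quot_ab q hq G (G ⧸ K) (QuotientGroup.mk' K) (QuotientGroup.mk'_surjective K)
        (hab q hq hqp)

theorem T6 (p : ℕ) [Fact p.Prime] (RR : (G : Type) → [Group G] → Prop)
    (hcy : ∀ (C : Type) [Group C] [Finite C], IsCyclic C → ¬ p ∣ Nat.card C → RR C)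
    (hquo : ∀ (G G' : Type) [Group G] [Group G'] [Finite G] (f : G →* G'),
      Function.Surjective f → RR G → RR G')
    (hp : ∀ (G : Type) [Group G] [Finite G] (N : Subgroup G) [N.Normal], IsPGroup p N →
      RR (G ⧸ N) → RR G)
    (hl : ∀ (M H : Type) [CommGroup M] [Group H] [Finite M] [Finite H] (φ : H →* MulAut M) (ℓ : ℕ),
      ℓ.Prime → ℓ ≠ p → IsPGroup ℓ M → ¬ ℓ ∣ Nat.card φ.range →
      (∀ x : M, (∀ a : H, (∃ r : ℕ, a ^ p ^ r = 1) → φ a x = x) → x = 1) →
      RR H → RR (M ⋊[φ] H))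
    (G : Type) [Group G] [Finite G] [Group.IsSolvable G]
    (hcyc : ∃ g : G, ∀ x : G, ∃ n : ℤ, x⁻¹ * g ^ n ∈ pg p G)
    (hab : ∀ ℓ : ℕ, ℓ.Prime → ℓ ≠ p → ∀ S : Subgroup G, IsPGroup ℓ S →
      ∀ x ∈ S, ∀ y ∈ S, x * y = y * x) : RR G :=
  t6_aux p RR hcy hquo hp hl (Nat.card G) G rfl hcyc hab

end Pool.Agent.QPC
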