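import Mathlib
import Pool.Agent.QPC.Defs
import Pool.Agent.QPC.Defs4
import Pool.Agent.QPC.F7
import Pool.Agent.QPC.F8
import Pool.Agent.QPC.F9
import Pool.Agent.QPC.P5
import Pool.Agent.QPC.T6
import Pool.Agent.QPC.DN
import Pool.Agent.QPC.DL
import Pool.Agent.QPC.K7

/-!
# QPC row FIN: the main theorem (assembly)
-/

set_option autoImplicit false

namespace Pool.Agent.QPC

open Polynomial

variable (p : ℕ) [Fact p.Prime] (Ω : Type) [Field Ω] [Algebra (RatFunc (ZMod p)) Ω]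
  [IsSepClosed Ω] [Algebra.IsSeparable (RatFunc (ZMod p)) Ω]

/-- Composition with a homomorphism. -/
theorem fin_comp {H H' : Type} [Group H] [Group H'] (f : H →* H') (ρ : GG p Ω →* H)
    (hρ : Ad p Ω ρ) : Ad p Ω (f.comp ρ) where
  fin := by
    obtain ⟨T, hT⟩ := hρ.fin
    exact ⟨T, fun g hg => by rw [MonoidHom.comp_apply, hT g hg, map_one]⟩
  inert g hg := by rw [MonoidHom.comp_apply, hρ.inert g hg, map_one]

/-- Split extensions with abelian kernel of order prime to `p`. -/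
theorem FINb (M H : Type) [CommGroup M] [Group H] [Finite M] [Finite H] (φ : H →* MulAut M) (ℓ : ℕ)
    (hl : ℓ.Prime) (hlp : ℓ ≠ p) (hM : IsPGroup ℓ M) (hcard : ¬ ℓ ∣ Nat.card φ.range)
    (hfix : ∀ x : M, (∀ a : H, (∃ r : ℕ, a ^ p ^ r = 1) → φ a x = x) → x = 1)
    (hR : R p Ω H) : R p Ω (M ⋊[φ] H) := by
  refine DL p Ω (ℓ := ℓ) ?_ M H φ hM hcard hfix hR
  intro M H _ _ _ _ φ hM hcard hfix ⟨m0, hgen⟩ ⟨ρ, hρ⟩
  refine DN p Ω φ hl hlp hM hcard hfix m0 hgen ρ hρ ?_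
  rintro e he ⟨g, hg, h2⟩
  refine K7 p Ω ρ hρ.toAd (φ.rangeRestrict.comp ρ) (fin_comp p Ω _ ρ hρ.toAd) ?_ hl hlp he ?_
    ⟨g, hg, ?_⟩
  · intro g hg
    rw [MonoidHom.comp_apply, hg, map_one]
  · intro h
    exact hcard (h.trans (Subgroup.card_subgroup_dvd_card _))
  · intro h
    apply h2
    have := congrArg Subtype.val h
    simpa using this

theorem FIN1 (G : Type) [Group G] [Finite G] [Group.IsSolvable G]
    (hcyc : ∃ g : G, ∀ x : G, ∃ n : ℤ, x⁻¹ * g ^ n ∈ pg p G)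
    (hab : ∀ ℓ : ℕ, ℓ.Prime → ℓ ≠ p → ∀ S : Subgroup G, IsPGroup ℓ S →
      ∀ x ∈ S, ∀ y ∈ S, x * y = y * x) : R p Ω G := by
  refine T6 p (fun G _ => R p Ω G) ?_ ?_ ?_ ?_ G hcyc hab
  · intro C _ _ h1 h2
    exact F9 p Ω C h1 h2
  · intro G G' _ _ _ f hf h
    exact F8 p Ω h f hf
  · intro G _ _ N _ hN h
    exact P5 p Ω G N hN h
  · intro M H _ _ _ _ φ ℓ hl hlp hM hcard hfix h
    exact FINb p Ω M H φ ℓ hl hlp hM hcard hfix h

end Pool.Agent.QPC
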