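import Mathlib
import Pool.Agent.QPC.Defs
import Pool.Agent.QPC.Defs2

/-!
# QPC row G1: general algebra of Galois data
`GD B n Γ`: see QPC.Tab (`ac`, `Tr`, `W`, `inv`, `repr`, `sum_ac`, `basis`). Plans.
* `G1c`: if `algebraMap b = 0` then `b = b * Tr W = Tr (b • W) = Tr (algebraMap b * W) = 0`.
* `G1a`: let `y` be integral over `S` in `Frac S`; `S` is a finite `B`-module so `y` is integral over `B`. `Γ` acts on `Frac S` (extend `D.ac γ`, injective; `IsFractionRing`/`IsLocalization.map`). An element of `Frac S` fixed by `Γ` is a quotient `a/b` with `b ∈ B`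
  (multiply by the norm of the denominator) and then `a` is invariant, so in `B` (`inv`): it lies in `Frac B ⊆ Frac S`. `Tr(y_t y) := ∑_γ γ(y_t y)` is in `Frac B` and integral over `B`, so in `B`; `y = ∑_t Tr(Y_t y) X_t ∈ S` (formula as in `repr`, from `CHR`).
  (If you prefer: write `y = s / b` with `b ∈ B`, `b ≠ 0`; then `Tr(Y_t s) / b` is integral over `B`, so `b ∣ Tr(Y_t s)` for all `t`, so `b ∣ s`.)
* `G1b`: Noetherian (finite over a PID), dimension `≤ 1` (integral over a ring of dimension `≤ 1`: `Ring.DimensionLEOne`), integrally closed (`G1a`).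
-/

set_option autoImplicit false

namespace Pool.Agent.QPC

open Polynomial

variable {n : ℕ} {Γ : Type} [Group Γ] [Fintype Γ] [DecidableEq Γ]

theorem G1c {B : Type} [CommRing B] (D : GD B n Γ) : Function.Injective (algebraMap B D.S) := by
  rw [injective_iff_map_eq_zero]
  intro b hb
  have h1 : D.Tr (b • D.W) = b := by rw [GD.Tr_smul, GD.Tr_W, mul_one]
  rw [Algebra.smul_def, hb, zero_mul] at h1
  rw [← h1]
  simp [GD.Tr]

theorem g1_inj {B : Type} [CommRing B] (D : GD B n Γ) (g : Γ) : Function.Injective (D.ac g) := by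
  intro u v h
  have h1 := congrArg (D.ac g⁻¹) h
  rw [← D.ac_mul, ← D.ac_mul, inv_mul_cancel, D.ac_one, D.ac_one] at h1
  exact h1

theorem g1_fin {B : Type} [CommRing B] (D : GD B n Γ) : Module.Finite B D.S :=
  Module.Finite.of_basis D.toTab.basis

theorem g1_alg {B : Type} [CommRing B] (D : GD B n Γ) (g : Γ) (a : B) :
    D.ac g (algebraMap B D.S a) = algebraMap B D.S a := by
  rw [Algebra.algebraMap_eq_smul_one, D.ac_smul, map_one]

theorem g1_dvd {B K : Type} [CommRing B] [IsDomain B] [IsIntegrallyClosed B] [Field K]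
    [Algebra B K] (hinj : Function.Injective (algebraMap B K)) {b c : B} (hb : b ≠ 0)
    (h : IsIntegral B (algebraMap B K c / algebraMap B K b)) : b ∣ c := by
  let ι : FractionRing B →+* K := IsFractionRing.lift hinj
  have hι : ∀ a, ι (algebraMap B (FractionRing B) a) = algebraMap B K a :=
    fun a => IsFractionRing.lift_algebraMap hinj a
  have hz : ι (algebraMap B (FractionRing B) c / algebraMap B (FractionRing B) b) =
      algebraMap B K c / algebraMap B K b := by rw [map_div₀, hι, hι]
  obtain ⟨P, hP, h0⟩ := h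
  have hzi : IsIntegral B (algebraMap B (FractionRing B) c / algebraMap B (FractionRing B) b) := by
    refine ⟨P, hP, ι.injective ?_⟩
    have hc : ι.comp (algebraMap B (FractionRing B)) = algebraMap B K := RingHom.ext hι
    rw [Polynomial.hom_eval₂, map_zero, hz, hc]
    exact h0
  obtain ⟨q, hq⟩ := (isIntegrallyClosed_iff (FractionRing B)).mp inferInstance hzi
  refine ⟨q, IsFractionRing.injective B (FractionRing B) ?_⟩
  have hb' : algebraMap B (FractionRing B) b ≠ 0 := by
    intro h1
    exact hb (IsFractionRing.injective B (FractionRing B) (by rw [h1, map_zero]))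
  rw [map_mul, hq, mul_div_cancel₀ _ hb']

theorem G1a {B : Type} [CommRing B] [IsDomain B] [IsIntegrallyClosed B] (D : GD B n Γ)
    [IsDomain D.S] : IsIntegrallyClosed D.S := by
  classical
  have hfin := g1_fin D
  have hint : Algebra.IsIntegral B D.S := inferInstance
  have hSK : Function.Injective (algebraMap D.S (FractionRing D.S)) :=
    IsFractionRing.injective D.S (FractionRing D.S)
  have hBK : Function.Injective (algebraMap B (FractionRing D.S)) := by
    rw [IsScalarTower.algebraMap_eq B D.S (FractionRing D.S)]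
    exact hSK.comp (G1c D)
  rw [isIntegrallyClosed_iff (FractionRing D.S)]
  intro y hy
  have hyB : IsIntegral B y := isIntegral_trans y hy
  -- the extension of the action
  have hσ0 : ∀ g : Γ, Function.Injective ((algebraMap D.S (FractionRing D.S)).comp (D.ac g)) :=
    fun g => hSK.comp (g1_inj D g)
  let σ : Γ → (FractionRing D.S →+* FractionRing D.S) := fun g => IsFractionRing.lift (hσ0 g)
  have hσ : ∀ g u, σ g (algebraMap D.S (FractionRing D.S) u) =
      algebraMap D.S (FractionRing D.S) (D.ac g u) :=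
    fun g u => IsFractionRing.lift_algebraMap (hσ0 g) u
  have hσB : ∀ g a, σ g (algebraMap B (FractionRing D.S) a) =
      algebraMap B (FractionRing D.S) a := by
    intro g a
    rw [IsScalarTower.algebraMap_apply B D.S (FractionRing D.S), hσ, g1_alg]
  have hσint : ∀ g z, IsIntegral B z → IsIntegral B (σ g z) := by
    rintro g z ⟨P, hP, h0⟩
    refine ⟨P, hP, ?_⟩
    have hc : (σ g).comp (algebraMap B (FractionRing D.S)) = algebraMap B (FractionRing D.S) :=
      RingHom.ext (hσB g)
    have h1 := Polynomial.hom_eval₂ P (algebraMap B (FractionRing D.S)) (σ g) z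
    rw [hc, h0, map_zero] at h1
    exact h1.symm
  -- common denominator in `B`
  obtain ⟨s, d, hd, hsd⟩ := IsFractionRing.div_surjective (A := D.S) y
  have hd0 : d ≠ 0 := nonZeroDivisors.ne_zero hd
  have hN : ∀ h : Γ, D.ac h (∏ g, D.ac g d) = ∏ g, D.ac g d := by
    intro h
    rw [map_prod, ← Equiv.prod_comp (Equiv.mulLeft h) (fun g => D.ac g d)]
    refine Finset.prod_congr rfl fun g _ => ?_
    rw [← D.ac_mul]; rfl
  obtain ⟨b, hb⟩ : ∃ b : B, ∏ g, D.ac g d = algebraMap B D.S b := ⟨_, D.inv _ hN⟩
  have hN0 : ∏ g, D.ac g d ≠ 0 := by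
    rw [Finset.prod_ne_zero_iff]
    intro g _ h
    exact hd0 (g1_inj D g (by rw [h, map_zero]))
  have hb0 : b ≠ 0 := by
    rintro rfl
    exact hN0 (by rw [hb, map_zero])
  have hsplit : ∏ g, D.ac g d = d * ∏ g ∈ Finset.univ.erase 1, D.ac g d := by
    rw [← Finset.mul_prod_erase _ _ (Finset.mem_univ (1 : Γ)), D.ac_one]
  obtain ⟨s', hs'⟩ : ∃ s', s' = s * ∏ g ∈ Finset.univ.erase 1, D.ac g d := ⟨_, rfl⟩
  have hbK : algebraMap B (FractionRing D.S) b ≠ 0 := by
    intro h
    exact hb0 (hBK (by rw [h, map_zero]))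
  have hy' : y = algebraMap D.S (FractionRing D.S) s' / algebraMap B (FractionRing D.S) b := by
    have hdK : algebraMap D.S (FractionRing D.S) d ≠ 0 := by
      intro h
      exact hd0 (hSK (by rw [h, map_zero]))
    rw [← hsd, div_eq_div_iff hdK hbK, IsScalarTower.algebraMap_apply B D.S (FractionRing D.S),
      ← hb, hsplit, hs', ← map_mul, ← map_mul]
    congr 1
    ring
  -- the traces
  have hdvd : ∀ t, b ∣ D.Tr (D.Y t * s') := by
    intro t
    apply g1_dvd hBK hb0
    have h1 : ∑ g, σ g (algebraMap D.S (FractionRing D.S) (D.Y t) * y) =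
        algebraMap B (FractionRing D.S) (D.Tr (D.Y t * s')) /
          algebraMap B (FractionRing D.S) b := by
      have h2 : ∀ g, σ g (algebraMap D.S (FractionRing D.S) (D.Y t) * y) =
          algebraMap D.S (FractionRing D.S) (D.ac g (D.Y t * s')) /
            algebraMap B (FractionRing D.S) b := by
        intro g
        rw [hy', ← mul_div_assoc, ← map_mul, map_div₀, hσ, hσB]
      rw [Finset.sum_congr rfl fun g _ => h2 g, ← Finset.sum_div, ← map_sum, D.sum_ac,
        ← IsScalarTower.algebraMap_apply B D.S (FractionRing D.S)]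
    rw [← h1]
    refine IsIntegral.sum _ fun g _ => hσint g _ (IsIntegral.mul ?_ hyB)
    exact (Algebra.IsIntegral.isIntegral (R := B) (D.Y t)).algebraMap
  choose q hq using hdvd
  refine ⟨∑ t, q t • D.X t, ?_⟩
  have h3 : s' = algebraMap B D.S b * ∑ t, q t • D.X t := by
    conv_lhs => rw [D.repr s']
    rw [Finset.mul_sum]
    refine Finset.sum_congr rfl fun t _ => ?_
    rw [hq t, mul_smul, Algebra.smul_def b]
  rw [hy', h3, map_mul, ← IsScalarTower.algebraMap_apply B D.S (FractionRing D.S),
    mul_div_cancel_left₀ _ hbK]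

theorem G1b {B : Type} [CommRing B] [IsDomain B] [IsPrincipalIdealRing B] (D : GD B n Γ)
    [IsDomain D.S] : IsDedekindDomain D.S := by
  have hfin := g1_fin D
  have hint : Algebra.IsIntegral B D.S := inferInstance
  have hic : IsIntegrallyClosed D.S := G1a D
  rw [isDedekindDomain_iff D.S (FractionRing D.S)]
  refine ⟨inferInstance, IsNoetherianRing.of_finite B D.S, ⟨fun {P} hP0 hP => ?_⟩, ?_⟩
  · have h1 : P.comap (algebraMap B D.S) ≠ ⊥ := fun h => hP0 (Ideal.eq_bot_of_comap_eq_bot h)
    have h2 : (P.comap (algebraMap B D.S)).IsPrime := Ideal.comap_isPrime _ _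
    exact Ideal.isMaximal_of_isIntegral_of_isMaximal_comap P
      (Ring.DimensionLEOne.maximalOfPrime h1 h2)
  · exact (isIntegrallyClosed_iff (FractionRing D.S)).mp hic

end Pool.Agent.QPC
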