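import Mathlib
import Pool.Agent.QPC.Defs
import Pool.Agent.QPC.Defs2
import Pool.Agent.QPC.G1

/-!
# QPC row G2: the fibre over a prime element with trivial residue extension
Write `Pγ := P.comap (D.ac γ⁻¹)` (the ideal `γ(P)`). Plans.
* `G2a`: `P` is maximal; if `γ ≠ δ` and `Pγ = Pδ` then for `σ := γ⁻¹ δ ≠ 1` `s ∈ P ↔ σ s ∈ P`. For every `s` there is `b ∈ B` with `s - b ∈ P`, so `σ s - b ∈ P` and `s - σ s ∈ P`. Then `1 = ∑ X_t Y_t - ∑ X_t σ(Y_t) = ∑ X_t (Y_t - σ Y_t) ∈ P` (`CHR`), contradiction. Distinct maximal ideals are comaximal.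
* `G2`: `∏ Pγ = ⋂ Pγ` (pairwise comaximal, `Ideal.prod_eq_iInf` / `Ideal.inf_eq_mul_of_isCoprime` ...). `⊆`: if `x ∈ ⋂ Pγ` then `γ(x) ∈ P` for all `γ`, so `algebraMap (Tr (Y_t x)) = ∑ γ(Y_t) γ(x) ∈ P`, so `π ∣ Tr (Y_t x)`, so `x = ∑ Tr(Y_t x) • X_t ∈ (π)`. `⊇`: `π ∈ P` and `γ π = π`.
* `G2b` (over `k[X]`, `k` algebraically closed, `S` a domain): `(X) S ≠ S` (`S` is integral over `k[X]`, `algebraMap` injective): take a maximal ideal `P` containing `X`; its contraction is the maximal ideal `(X)`; `S/P` is a finite extension field of `k[X]/(X) = k`, so equal to `k`.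
-/

set_option autoImplicit false

namespace Pool.Agent.QPC

open Polynomial

variable {n : ℕ} {Γ : Type} [Group Γ] [Fintype Γ] [DecidableEq Γ]

theorem g2_ac_alg {B : Type} [CommRing B] (D : GD B n Γ) (g : Γ) (b : B) :
    D.ac g (algebraMap B D.S b) = algebraMap B D.S b := by
  rw [Algebra.algebraMap_eq_smul_one, D.ac_smul, map_one]

theorem g2_surj {B : Type} [CommRing B] (D : GD B n Γ) (g : Γ) :
    Function.Surjective (D.ac g) := by
  intro u
  refine ⟨D.ac g⁻¹ u, ?_⟩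
  rw [← D.ac_mul, mul_inv_cancel, D.ac_one]

theorem G2a {B : Type} [CommRing B] (D : GD B n Γ) (P : Ideal D.S) (hP : P.IsMaximal)
    (hres : ∀ s : D.S, ∃ b : B, s - algebraMap B D.S b ∈ P) (γ δ : Γ) (h : γ ≠ δ) :
    P.comap (D.ac γ⁻¹) ⊔ P.comap (D.ac δ⁻¹) = ⊤ := by
  have m1 : (P.comap (D.ac γ⁻¹)).IsMaximal :=
    Ideal.comap_isMaximal_of_surjective _ (g2_surj D γ⁻¹)
  have m2 : (P.comap (D.ac δ⁻¹)).IsMaximal :=
    Ideal.comap_isMaximal_of_surjective _ (g2_surj D δ⁻¹)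
  refine Ideal.IsMaximal.coprime_of_ne m1 m2 fun heq => ?_
  have hσ : δ⁻¹ * γ ≠ 1 := by
    intro h1
    exact h (inv_mul_eq_one.1 h1).symm
  have key : ∀ u : D.S, u ∈ P → D.ac (δ⁻¹ * γ) u ∈ P := by
    intro u hu
    have h1 : D.ac γ u ∈ P.comap (D.ac γ⁻¹) := by
      rw [Ideal.mem_comap, ← D.ac_mul, inv_mul_cancel, D.ac_one]
      exact hu
    rw [heq, Ideal.mem_comap, ← D.ac_mul] at h1
    exact h1
  have key2 : ∀ s : D.S, s - D.ac (δ⁻¹ * γ) s ∈ P := by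
    intro s
    obtain ⟨b, hb⟩ := hres s
    have h1 := key _ hb
    rw [map_sub, g2_ac_alg] at h1
    have h2 := P.sub_mem hb h1
    have e : s - algebraMap B D.S b - (D.ac (δ⁻¹ * γ) s - algebraMap B D.S b) =
        s - D.ac (δ⁻¹ * γ) s := by ring
    rwa [e] at h2
  have c1 := D.CHR 1
  have c2 := D.CHR (δ⁻¹ * γ)
  rw [if_pos rfl] at c1
  rw [if_neg hσ] at c2
  apply hP.ne_top
  rw [Ideal.eq_top_iff_one]
  have e : (1 : D.S) = ∑ t, D.X t * (D.Y t - D.ac (δ⁻¹ * γ) (D.Y t)) := by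
    simp only [mul_sub, Finset.sum_sub_distrib]
    rw [c2, sub_zero]
    simp only [D.ac_one] at c1
    exact c1.symm
  rw [e]
  exact P.sum_mem fun t _ => P.mul_mem_left _ (key2 _)

theorem G2 {B : Type} [CommRing B] (D : GD B n Γ) (P : Ideal D.S) (hP : P.IsMaximal) (π : B)
    (hπ : ∀ b : B, algebraMap B D.S b ∈ P ↔ π ∣ b)
    (hres : ∀ s : D.S, ∃ b : B, s - algebraMap B D.S b ∈ P) :
    Ideal.span {algebraMap B D.S π} = ∏ γ, P.comap (D.ac γ⁻¹) := by
  have hprod : ∏ γ, P.comap (D.ac γ⁻¹) = ⨅ γ, P.comap (D.ac γ⁻¹) := by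
    have h1 := Ideal.prod_eq_iInf_of_pairwise_isCoprime (s := (Finset.univ : Finset Γ))
      (J := fun γ => P.comap (D.ac γ⁻¹)) (by
        intro γ _ δ _ hne
        rw [Function.onFun, Ideal.isCoprime_iff_sup_eq]
        exact G2a D P hP hres γ δ hne)
    rw [h1]
    simp
  rw [hprod]
  apply le_antisymm
  · rw [Ideal.span_singleton_le_iff_mem, Submodule.mem_iInf]
    intro γ
    rw [Ideal.mem_comap, g2_ac_alg]
    exact (hπ π).2 dvd_rfl
  · intro x hx
    rw [Submodule.mem_iInf] at hx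
    have hx' : ∀ γ, D.ac γ x ∈ P := by
      intro γ
      have := hx γ⁻¹
      rwa [Ideal.mem_comap, inv_inv] at this
    have hT : ∀ t, π ∣ D.Tr (D.Y t * x) := by
      intro t
      rw [← hπ, ← D.sum_ac]
      refine P.sum_mem fun γ _ => ?_
      rw [map_mul]
      exact P.mul_mem_left _ (hx' γ)
    rw [D.repr x]
    refine Ideal.sum_mem _ fun t _ => ?_
    obtain ⟨b, hb⟩ := hT t
    rw [hb, mul_smul, Algebra.smul_def]
    exact Ideal.mul_mem_right _ _ (Ideal.mem_span_singleton_self _)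

theorem G2b {k : Type} [Field k] [IsAlgClosed k] (D : GD k[X] n Γ) [IsDomain D.S] :
    ∃ P : Ideal D.S, P.IsMaximal ∧ (∀ b : k[X], algebraMap k[X] D.S b ∈ P ↔ X ∣ b) ∧
      ∀ s : D.S, ∃ b : k[X], s - algebraMap k[X] D.S b ∈ P := by
  have hfin : Module.Finite k[X] D.S := Module.Finite.of_basis (Tab.basis (T := D.toTab))
  have hint : Algebra.IsIntegral k[X] D.S := Algebra.IsIntegral.of_finite k[X] D.S
  have hmax : (Ideal.span {(X : k[X])}).IsMaximal :=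
    PrincipalIdealRing.isMaximal_of_irreducible irreducible_X
  obtain ⟨Q, hQ, hQc⟩ := Ideal.exists_ideal_over_maximal_of_isIntegral (R := k[X]) (S := D.S)
    (Ideal.span {(X : k[X])}) (by
      rw [(RingHom.injective_iff_ker_eq_bot _).1 (G1c D)]
      exact bot_le)
  have hQX : ∀ b : k[X], algebraMap k[X] D.S b ∈ Q ↔ X ∣ b := by
    intro b
    rw [← Ideal.mem_comap, hQc, Ideal.mem_span_singleton]
  refine ⟨Q, hQ, hQX, ?_⟩
  let _ : Field (D.S ⧸ Q) := Ideal.Quotient.field Q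
  let φ : k →+* D.S ⧸ Q := (Ideal.Quotient.mk Q).comp ((algebraMap k[X] D.S).comp C)
  have hφ : (Ideal.Quotient.mk Q).comp (algebraMap k[X] D.S) = φ.comp (evalRingHom 0) := by
    refine Polynomial.ringHom_ext (fun a => ?_) ?_
    · simp [φ]
    · simp only [RingHom.comp_apply, coe_evalRingHom, eval_X, map_zero]
      rw [Ideal.Quotient.eq_zero_iff_mem]
      exact (hQX X).2 dvd_rfl
  let _ : Algebra k (D.S ⧸ Q) := φ.toAlgebra
  have hal : Algebra.IsIntegral k (D.S ⧸ Q) := by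
    refine ⟨fun y => ?_⟩
    obtain ⟨s, rfl⟩ := Ideal.Quotient.mk_surjective y
    obtain ⟨q, hq, hq0⟩ := hint.isIntegral s
    refine ⟨q.map (evalRingHom 0), hq.map _, ?_⟩
    rw [eval₂_map]
    change eval₂ (φ.comp (evalRingHom 0)) (Ideal.Quotient.mk Q s) q = 0
    rw [← hφ, ← hom_eval₂, hq0, map_zero]
  intro s
  obtain ⟨a, ha⟩ := (IsAlgClosed.algebraMap_bijective_of_isIntegral (k := k)
    (K := D.S ⧸ Q)).2 (Ideal.Quotient.mk Q s)
  refine ⟨C a, ?_⟩
  rw [← Ideal.Quotient.eq_zero_iff_mem, map_sub, ← ha]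
  exact sub_self _

end Pool.Agent.QPC
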