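import Mathlib
import Pool.Agent.QPC.Defs
import Pool.Agent.QPC.Defs2

/-!
# QPC row G3: lattices of the group ring, order prime to `ℓ`
Convolution `conv ν c γ = ∑_δ ν δ * c (δ⁻¹ γ)` is associative, bilinear; `Λ` stable under translation is stable under `conv ν` for all `ν`.
Call `Good Λ c`: `c ∈ Λ`, (inj) `conv ν c ∈ ℓ Λ → ℓ ∣ ν`, (sur) every `x ∈ Λ` is `conv ν c + ℓ d`, `d ∈ Λ`.
Step (`G3s`): `ℓ Λ' ≤ Λ ≤ Λ'`, `Good Λ' c'`. The image of `Λ` in `Λ'/ℓΛ' = F_ℓ[Γ] c'` is a left ideal `W c'`, `W ≤ F_ℓ[Γ]`; by Maschke (`MonoidAlgebra.Submodule.exists_isCompl`, `ℓ ∤ |Γ|`) `W = F_ℓ[Γ] ε` with `ε² = ε`. Lift `ε` to `ε₁ : Γ → ℤ`, and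
`ε₂ := 3 ε₁² - 2 ε₁³` (convolution powers): `ε₂² ≡ ε₂ mod ℓ²`, `ε₂ ≡ ε mod ℓ`. Put `c := conv ε₂ c' + ℓ conv (1 - ε₂) c'` (`1` = delta function). `conv ε₂ c' ∈ Λ`.
(inj): let `conv ν c ∈ ℓ Λ`. Modulo `ℓ Λ'`: `conv (ν ε₂) c' ∈ ℓ Λ'` so `ν ε₂ = ℓ μ`; multiplying by `ε₂`: `ℓ μ ε₂ ≡ ℓ μ mod ℓ²` so `μ ε₂ ≡ μ mod ℓ`, so `conv μ c' ∈ conv (μ ε₂) c' + ℓ Λ' ⊆ Λ`. Then `conv μ c' + conv (ν (1 - ε₂)) c' ∈ Λ` (divide `conv ν c ∈ ℓ Λ` by `ℓ`), so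
`conv (ν(1-ε₂)) c' ∈ Λ`, that is `ν(1-ε₂) mod ℓ ∈ W = F_ℓ[Γ]ε`; multiply by `ε₂` on the right: `ν (1-ε₂) ≡ ν(1-ε₂)ε₂ ≡ 0 mod ℓ`. With `ν ε₂ ≡ 0`: `ν ≡ 0 mod ℓ`.
(sur): `x ∈ Λ`: `x ≡ conv (ν ε₂) c' mod ℓ Λ'` for some `ν`; `x = conv (ν ε₂) c' + ℓ conv μ c' + ℓ² d''` (sur for `c'` twice). With `α := ν ε₂ + μ (1-ε₂)`: `conv α c ≡ conv (ν ε₂) c' + ℓ conv (μ(1-ε₂)) c' mod ℓ² Λ'`, so `x - conv α c ∈ ℓ conv (μ ε₂) c' + ℓ² Λ' ⊆ ℓ Λ`.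
`G3`: `h = ℓ^a h'`, `ℓ ∤ h'`; `Λ_i := Λ + ℓ^i ℤ^Γ`; `Good Λ_0 delta`; `ℓ Λ_i ≤ Λ_{i+1} ≤ Λ_i`; induction gives `Good Λ_a c_a`; `h' Λ_a ≤ Λ`; `c := h' c_a`.
-/

set_option autoImplicit false

namespace Pool.Agent.QPC

open Polynomial

/-- Convolution on `Γ → ℤ`. -/
def conv {Γ : Type} [Group Γ] [Fintype Γ] (ν c : Γ → ℤ) : Γ → ℤ := fun γ => ∑ δ, ν δ * c (δ⁻¹ * γ)

/-- The induction step, in a ring. -/
theorem g3_step {R : Type} [Ring R] (ℓ : ℤ)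
    (hM : ∀ J : Ideal R, (∀ x, ℓ • x ∈ J) → ∃ e ∈ J, ∀ w ∈ J, ∃ y, w - w * e = ℓ • y)
    (hc : ∀ x y : R, ℓ • x = ℓ • y → x = y) (L L' : Ideal R) (hLL' : ∀ x ∈ L', ℓ • x ∈ L)
    (hle : L ≤ L') (c' : R) (hc' : c' ∈ L')
    (hinj : ∀ ν : R, (∃ d ∈ L', ν * c' = ℓ • d) → ∃ μ, ν = ℓ • μ) :
    ∃ c ∈ L, ∀ ν : R, (∃ d ∈ L, ν * c = ℓ • d) → ∃ μ, ν = ℓ • μ := by
  let W : Ideal R :=
    { carrier := {μ | μ * c' ∈ L}
      add_mem' := fun {a b} ha hb => by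
        show (a + b) * c' ∈ L
        rw [add_mul]
        exact L.add_mem ha hb
      zero_mem' := by
        show 0 * c' ∈ L
        rw [zero_mul]
        exact L.zero_mem
      smul_mem' := fun r a ha => by
        show (r * a) * c' ∈ L
        rw [mul_assoc]
        exact L.mul_mem_left r ha }
  have hWmem : ∀ μ, μ ∈ W ↔ μ * c' ∈ L := fun μ => Iff.rfl
  obtain ⟨e, heW, he⟩ := hM W fun x => by
    rw [hWmem, smul_mul_assoc]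
    exact hLL' _ (L'.mul_mem_left x hc')
  obtain ⟨t, ht⟩ := he e heW
  set E : R := 3 * (e * e) - 2 * (e * (e * e)) with hE
  have hee : ∀ x, x * e ∈ W := fun x => W.mul_mem_left x heW
  have hEW : E ∈ W := by
    refine W.sub_mem ?_ ?_
    · rw [← mul_assoc]
      exact hee _
    · rw [← mul_assoc, ← mul_assoc]
      exact hee _
  obtain ⟨s, hs⟩ : ∃ s, E * E = E + ℓ • (ℓ • s) := by
    refine ⟨-(t * (t * ((3 - 2 * e) * (1 + 2 * e)))), ?_⟩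
    have h1 : E * E = E - (e - e * e) * ((e - e * e) * ((3 - 2 * e) * (1 + 2 * e))) := by
      rw [hE]
      noncomm_ring
    rw [h1, ht]
    simp only [smul_mul_assoc, mul_smul_comm, smul_neg]
    rw [sub_eq_add_neg]
  have hwE : ∀ w ∈ W, ∃ y, w - w * E = ℓ • y := by
    intro w hw
    obtain ⟨y1, h1⟩ := he w hw
    obtain ⟨y2, h2⟩ := he (w * e) (hee _)
    obtain ⟨y3, h3⟩ := he (w * e * e) (hee _)
    refine ⟨y1 + y2 - 2 * y3, ?_⟩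
    have h4 : w - w * E = (w - w * e) + (w * e - w * e * e) -
        2 * (w * e * e - w * e * e * e) := by
      rw [hE]
      noncomm_ring
    rw [h4, h1, h2, h3, smul_sub, smul_add, mul_smul_comm]
  clear_value E
  refine ⟨E * c' + ℓ • (c' - E * c'), ?_, ?_⟩
  · exact L.add_mem hEW (hLL' _ (L'.sub_mem hc' (L'.mul_mem_left _ hc')))
  · rintro ν ⟨d, hd, hνd⟩
    have e1 : ν * (E * c' + ℓ • (c' - E * c')) = ν * E * c' + ℓ • ((ν - ν * E) * c') := by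
      rw [mul_add, mul_smul_comm, mul_sub, sub_mul, mul_assoc]
    rw [e1] at hνd
    obtain ⟨μ, hμ⟩ := hinj (ν * E) ⟨d - (ν - ν * E) * c',
      L'.sub_mem (hle hd) (L'.mul_mem_left _ hc'), by
        rw [smul_sub, ← hνd]
        abel⟩
    have e2 : μ * E = μ + ℓ • (ν * s) := by
      apply hc
      rw [← smul_mul_assoc, ← hμ, mul_assoc, hs, mul_add, mul_smul_comm, mul_smul_comm, smul_add,
        hμ]
    have hμW : μ ∈ W := by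
      have h1 : μ = μ * E - ℓ • (ν * s) := by
        rw [e2]
        abel
      rw [h1]
      refine W.sub_mem (W.mul_mem_left _ hEW) ?_
      rw [hWmem, smul_mul_assoc]
      exact hLL' _ (L'.mul_mem_left _ hc')
    have e3 : (ν - ν * E) * c' = d - μ * c' := by
      apply hc
      rw [smul_sub, ← hνd, hμ, smul_mul_assoc]
      abel
    have hνW : ν - ν * E ∈ W := by
      rw [hWmem, e3]
      exact L.sub_mem hd hμW
    obtain ⟨y, hy⟩ := hwE _ hνW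
    have e4 : (ν - ν * E) * E = -(ℓ • (ℓ • (ν * s))) := by
      rw [sub_mul, mul_assoc, hs, mul_add, mul_smul_comm, mul_smul_comm]
      abel
    refine ⟨μ + y - ℓ • (ν * s), ?_⟩
    rw [e4] at hy
    have e5 : ν = ν * E + (ν - ν * E - -(ℓ • (ℓ • (ν * s)))) - ℓ • (ℓ • (ν * s)) := by abel
    have e6 : ν * E + (ν - ν * E - -(ℓ • (ℓ • (ν * s)))) - ℓ • (ℓ • (ν * s)) =
        ℓ • μ + ℓ • y - ℓ • (ℓ • (ν * s)) := by rw [hy, hμ]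
    exact e5.trans (e6.trans (by rw [smul_sub, smul_add]))

/-- the ideal of multiples of an integer -/
theorem g3_mult {R : Type} [Ring R] (q : ℤ) : ∃ I : Ideal R, ∀ x, x ∈ I ↔ ∃ y, x = q • y := by
  refine ⟨{ carrier := {x | ∃ y, x = q • y}
            add_mem' := ?_
            zero_mem' := ⟨0, (smul_zero _).symm⟩
            smul_mem' := ?_ }, fun x => Iff.rfl⟩
  · rintro a b ⟨y, rfl⟩ ⟨z, rfl⟩
    exact ⟨y + z, (smul_add _ _ _).symm⟩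
  · rintro r a ⟨y, rfl⟩
    exact ⟨r * y, mul_smul_comm _ _ _⟩

theorem g3_ind {R : Type} [Ring R] (ℓ : ℤ)
    (hM : ∀ J : Ideal R, (∀ x, ℓ • x ∈ J) → ∃ e ∈ J, ∀ w ∈ J, ∃ y, w - w * e = ℓ • y)
    (hc : ∀ x y : R, ℓ • x = ℓ • y → x = y) (a : ℕ) : ∀ L : Ideal R, (∀ x, (ℓ ^ a) • x ∈ L) →
      ∃ c ∈ L, ∀ ν : R, (∃ d ∈ L, ν * c = ℓ • d) → ∃ μ, ν = ℓ • μ := by
  induction a with
  | zero =>
    intro L hL
    refine ⟨1, by simpa using hL 1, ?_⟩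
    rintro ν ⟨d, -, h⟩
    exact ⟨d, by rwa [mul_one] at h⟩
  | succ a ih =>
    intro L hL
    obtain ⟨I, hI⟩ := g3_mult (R := R) (ℓ ^ a)
    obtain ⟨c', hc', hinj⟩ := ih (L ⊔ I) fun x => Submodule.mem_sup_right ((hI _).2 ⟨x, rfl⟩)
    refine g3_step ℓ hM hc L (L ⊔ I) ?_ le_sup_left c' hc' hinj
    intro x hx
    obtain ⟨u, hu, v, hv, rfl⟩ := Submodule.mem_sup.1 hx
    obtain ⟨y, rfl⟩ := (hI v).1 hv
    rw [smul_add]
    refine L.add_mem ?_ ?_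
    · rw [← one_mul u, ← smul_mul_assoc]
      exact L.mul_mem_left _ hu
    · rw [smul_smul, ← pow_succ']
      exact hL y

theorem g3_ring {R : Type} [Ring R] (ℓ : ℕ) (hℓ : ℓ.Prime)
    (hM : ∀ J : Ideal R, (∀ x, (ℓ : ℤ) • x ∈ J) → ∃ e ∈ J, ∀ w ∈ J, ∃ y, w - w * e = (ℓ : ℤ) • y)
    (hc : ∀ x y : R, (ℓ : ℤ) • x = (ℓ : ℤ) • y → x = y) (h : ℕ) (hh : 0 < h) (L : Ideal R)
    (hL : ∀ x, (h : ℤ) • x ∈ L) :
      ∃ c ∈ L, ∀ ν : R, (∃ d ∈ L, ν * c = (ℓ : ℤ) • d) → ∃ μ, ν = (ℓ : ℤ) • μ := by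
  obtain ⟨a, h', hdvd, rfl⟩ := Nat.exists_eq_pow_mul_and_not_dvd hh.ne' ℓ hℓ.one_lt.ne'
  obtain ⟨I, hI⟩ := g3_mult (R := R) ((ℓ : ℤ) ^ a)
  obtain ⟨c, hcL, hinj⟩ := g3_ind (ℓ : ℤ) hM hc a (L ⊔ I)
    fun x => Submodule.mem_sup_right ((hI _).2 ⟨x, rfl⟩)
  have hsm : ∀ (q : ℤ) (x : R), x ∈ L → q • x ∈ L := by
    intro q x hx
    rw [← one_mul x, ← smul_mul_assoc]
    exact L.mul_mem_left _ hx
  refine ⟨(h' : ℤ) • c, ?_, ?_⟩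
  · obtain ⟨u, hu, v, hv, rfl⟩ := Submodule.mem_sup.1 hcL
    obtain ⟨y, rfl⟩ := (hI v).1 hv
    rw [smul_add, smul_smul]
    refine L.add_mem (hsm _ _ hu) ?_
    have := hL y
    push_cast at this
    rwa [mul_comm] at this
  · rintro ν ⟨d, hd, hν⟩
    obtain ⟨μ, hμ⟩ := hinj ((h' : ℤ) • ν) ⟨d, Submodule.mem_sup_left hd, by
      rw [smul_mul_assoc, ← hν, mul_smul_comm]⟩
    have hcop : IsCoprime (h' : ℤ) (ℓ : ℤ) := by
      rw [Nat.isCoprime_iff_coprime]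
      exact ((Nat.Prime.coprime_iff_not_dvd hℓ).2 hdvd).symm
    obtain ⟨u, v, huv⟩ := hcop
    refine ⟨u • μ + v • ν, ?_⟩
    calc ν = (1 : ℤ) • ν := (one_smul _ _).symm
      _ = (u * h' + v * ℓ) • ν := by rw [huv]
      _ = u • ((h' : ℤ) • ν) + v • ((ℓ : ℤ) • ν) := by rw [add_smul, mul_smul, mul_smul]
      _ = u • ((ℓ : ℤ) • μ) + v • ((ℓ : ℤ) • ν) := by rw [hμ]
      _ = (ℓ : ℤ) • (u • μ + v • ν) := by
        rw [smul_add, smul_comm u, smul_comm v]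

section alg

variable {Γ : Type} [Group Γ] [Fintype Γ] [DecidableEq Γ]

theorem g3_mul {A : Type} [CommRing A] (x y : MonoidAlgebra A Γ) (g : Γ) :
    (x * y).coeff g = ∑ δ, x.coeff δ * y.coeff (δ⁻¹ * g) := by
  rw [MonoidAlgebra.coeff_mul_antidiag x y g
    (Finset.univ.image fun δ : Γ => (δ, δ⁻¹ * g)) (by
      intro q
      rw [Finset.mem_image]
      constructor
      · rintro ⟨δ, _, rfl⟩
        exact mul_inv_cancel_left _ _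
      · intro hq
        exact ⟨q.1, Finset.mem_univ _, Prod.ext rfl (by rw [← hq]; exact inv_mul_cancel_left _ _)⟩)]
  rw [Finset.sum_image]
  intro a _ b _ hab
  exact congrArg Prod.fst hab

/-- the element of the group algebra with given coefficients -/
noncomputable def g3_of {A : Type} [CommRing A] (f : Γ → A) : MonoidAlgebra A Γ :=
  MonoidAlgebra.ofCoeff (Finsupp.equivFunOnFinite.symm f)

omit [Group Γ] [DecidableEq Γ] in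
theorem g3_of_coeff {A : Type} [CommRing A] (f : Γ → A) (γ : Γ) : (g3_of f).coeff γ = f γ := rfl

omit [Group Γ] [Fintype Γ] [DecidableEq Γ] in
theorem g3_ext {A : Type} [CommRing A] {x y : MonoidAlgebra A Γ}
    (h : ∀ γ, x.coeff γ = y.coeff γ) : x = y :=
  MonoidAlgebra.coeff_injective (Finsupp.ext h)

omit [DecidableEq Γ] in
theorem g3_maschke (ℓ : ℕ) [Fact ℓ.Prime] (hΓ : ¬ ℓ ∣ Fintype.card Γ)
    (J : Ideal (MonoidAlgebra ℤ Γ)) :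
    ∃ e ∈ J, ∀ w ∈ J, ∃ y, w - w * e = (ℓ : ℤ) • y := by
  let φ : MonoidAlgebra ℤ Γ →+* MonoidAlgebra (ZMod ℓ) Γ :=
    MonoidAlgebra.mapRingHom Γ (Int.castRingHom (ZMod ℓ))
  have hφ : ∀ x γ, (φ x).coeff γ = ((x.coeff γ : ℤ) : ZMod ℓ) := by
    intro x γ
    simp [φ, MonoidAlgebra.coe_mapRingHom]
  have hsurj : Function.Surjective φ := by
    intro y
    refine ⟨g3_of fun γ => ((y.coeff γ).val : ℤ), g3_ext fun γ => ?_⟩
    rw [hφ, g3_of_coeff]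
    simp
  have hker : ∀ x, φ x = 0 → ∃ y, x = (ℓ : ℤ) • y := by
    intro x hx
    have h1 : ∀ γ, (ℓ : ℤ) ∣ x.coeff γ := by
      intro γ
      rw [← ZMod.intCast_zmod_eq_zero_iff_dvd, ← hφ, hx]
      rfl
    choose f hf using h1
    refine ⟨g3_of f, g3_ext fun γ => ?_⟩
    rw [MonoidAlgebra.coeff_smul_apply, g3_of_coeff, hf, smul_eq_mul]
  have hne : NeZero (Nat.card Γ : ZMod ℓ) := by
    refine ⟨fun h0 => hΓ ?_⟩
    rwa [Nat.card_eq_fintype_card, ZMod.natCast_eq_zero_iff] at h0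
  let Jb : Submodule (MonoidAlgebra (ZMod ℓ) Γ) (MonoidAlgebra (ZMod ℓ) Γ) :=
    { carrier := φ '' J
      add_mem' := by
        rintro _ _ ⟨a, ha, rfl⟩ ⟨b, hb, rfl⟩
        exact ⟨a + b, J.add_mem ha hb, map_add _ _ _⟩
      zero_mem' := ⟨0, J.zero_mem, map_zero _⟩
      smul_mem' := by
        rintro r _ ⟨a, ha, rfl⟩
        obtain ⟨r', rfl⟩ := hsurj r
        exact ⟨r' * a, J.mul_mem_left _ ha, map_mul _ _ _⟩ }
  have hJb : ∀ w ∈ J, φ w ∈ Jb := fun w hw => ⟨w, hw, rfl⟩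
  obtain ⟨K, hK⟩ := MonoidAlgebra.Submodule.exists_isCompl Jb
  have h1 : (1 : MonoidAlgebra (ZMod ℓ) Γ) ∈ Jb ⊔ K := by
    rw [hK.sup_eq_top]
    exact Submodule.mem_top
  obtain ⟨a, ⟨e, he, rfl⟩, b, hb, hab⟩ := Submodule.mem_sup.1 h1
  refine ⟨e, he, fun w hw => hker _ ?_⟩
  have h2 : φ (w - w * e) = φ w * b := by
    rw [map_sub, map_mul]
    have : b = 1 - φ e := by rw [← hab]; abel
    rw [this, mul_sub, mul_one]
  have h3 : φ (w - w * e) ∈ Jb := hJb _ (J.sub_mem hw (J.mul_mem_left _ he))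
  have h4 : φ (w - w * e) ∈ K := by
    rw [h2]
    exact K.smul_mem _ hb
  have h5 := hK.disjoint.le_bot (Submodule.mem_inf.2 ⟨h3, h4⟩)
  exact (Submodule.mem_bot _).1 h5

end alg

theorem G3 {Γ : Type} [Group Γ] [Fintype Γ] [DecidableEq Γ] (ℓ : ℕ) [Fact ℓ.Prime]
    (hΓ : ¬ ℓ ∣ Fintype.card Γ) (Λ : AddSubgroup (Γ → ℤ))
    (hst : ∀ (δ : Γ), ∀ c ∈ Λ, (fun γ => c (δ⁻¹ * γ)) ∈ Λ) (h : ℕ) (hh : 0 < h)
    (hΛ : ∀ c : Γ → ℤ, (h : ℤ) • c ∈ Λ) :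
    ∃ c ∈ Λ, ∀ ν : Γ → ℤ, (∃ d ∈ Λ, conv ν c = (ℓ : ℤ) • d) → ∀ γ, (ℓ : ℤ) ∣ ν γ := by
  have hconv : ∀ (ν c : Γ → ℤ), c ∈ Λ → conv ν c ∈ Λ := by
    intro ν c hc
    have e : conv ν c = ∑ δ, ν δ • (fun γ => c (δ⁻¹ * γ)) := by
      funext γ
      simp [conv]
    rw [e]
    exact Λ.sum_mem fun δ _ => Λ.zsmul_mem (hst δ c hc) _
  have hmulc : ∀ x y : MonoidAlgebra ℤ Γ, ((x * y).coeff : Γ → ℤ) =
      conv (x.coeff : Γ → ℤ) (y.coeff : Γ → ℤ) := by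
    intro x y
    funext γ
    exact g3_mul x y γ
  let L : Ideal (MonoidAlgebra ℤ Γ) :=
    { carrier := {x | (x.coeff : Γ → ℤ) ∈ Λ}
      add_mem' := fun {a b} ha hb => Λ.add_mem ha hb
      zero_mem' := Λ.zero_mem
      smul_mem' := fun r a ha => by
        show ((r * a).coeff : Γ → ℤ) ∈ Λ
        rw [hmulc]
        exact hconv _ _ ha }
  have hLmem : ∀ x, x ∈ L ↔ (x.coeff : Γ → ℤ) ∈ Λ := fun x => Iff.rfl
  have hℓ : ℓ.Prime := Fact.out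
  obtain ⟨c, hc, hinj⟩ := g3_ring ℓ hℓ (fun J _ => g3_maschke ℓ hΓ J) (by
    intro x y hxy
    refine g3_ext fun γ => ?_
    have h1 := congrArg (fun z : MonoidAlgebra ℤ Γ => z.coeff γ) hxy
    simp only [MonoidAlgebra.coeff_smul_apply, smul_eq_mul] at h1
    exact mul_left_cancel₀ (by exact_mod_cast hℓ.ne_zero) h1) h hh L (fun x => hΛ _)
  refine ⟨c.coeff, hc, ?_⟩
  rintro ν ⟨d, hd, hν⟩ γ
  obtain ⟨μ, hμ⟩ := hinj (g3_of ν) ⟨g3_of d, hd, by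
    refine g3_ext fun g => ?_
    have h1 := congrFun hν g
    rw [g3_mul, MonoidAlgebra.coeff_smul_apply, g3_of_coeff]
    exact h1⟩
  have h2 := congrArg (fun z : MonoidAlgebra ℤ Γ => z.coeff γ) hμ
  simp only [MonoidAlgebra.coeff_smul_apply, smul_eq_mul] at h2
  rw [g3_of_coeff] at h2
  exact ⟨_, h2⟩

end Pool.Agent.QPC
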