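import Mathlib
import Pool.Agent.QPC.Defs
import Pool.Agent.QPC.Defs2
import Pool.Agent.QPC.G1
import Pool.Agent.QPC.G2
import Pool.Agent.QPC.G3

/-!
# QPC row G4: the base class
`S := D.S` is a Dedekind domain (`G1b`), `Pγ := P.comap (D.ac γ⁻¹)` distinct maximal ideals, `(π) = ∏ Pγ` (`G2`), `P^h = (f0)`.
Plan. `Λ := {c : Γ → ℤ | ∏ Pγ^(c γ)` is a principal fractional ideal`}` (or: there are `u, v ∈ S` non-zero with `(u) ∏_{c γ < 0} Pγ^(-c γ) = (v) ∏_{c γ > 0} Pγ^(c γ)`). Stable under translation: `δ (Pγ) = P(δγ)`. Contains `h ℤ^Γ` (products of conjugates of `f0`).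
`G3` gives `c ∈ Λ`. Adding a constant `r` to `c` multiplies the ideal by `(π)^r`: we may assume `c γ ≥ 0` for the purpose of defining `f` (`c γ = c₀ γ + r`), `f ∈ S`, `(f) = ∏ Pγ^(c γ)`.
NT0: let `a^ℓ Xn ν f = π^j h^ℓ`, `a ≠ 0` (so `h ≠ 0`), `v_γ` = multiplicity of `Pγ`, `v_q` for the other primes. `v_q(h) = v_q(a)` for `q` not above `π` (`v_q(f) = v_q(π) = 0`, and same for conjugates). So `d γ := v_γ(h) - v_γ(a)` is in `Λ`. `v_γ(δ f) = c(δ⁻¹γ)`.
So `conv ν c γ = j + ℓ d γ` for all `γ` (`ν` lifted to `{0..ℓ-1}`). Then for each `δ`: translate by `δ` and subtract: `conv (δν - ν) c = ℓ (δ d - d)`, also with `c` replaced by `c₀ = c - r` (the convolution with the constant `r` changes by the constant `r ∑ ν`, which cancels in the difference). By the property of `c₀`,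
`ν(δ⁻¹γ) ≡ ν(γ) mod ℓ` for all `δ, γ`: `ν` is constant, contradiction.
-/

set_option autoImplicit false

namespace Pool.Agent.QPC

open Polynomial

section ded

open UniqueFactorizationMonoid

variable {S : Type} [CommRing S] [IsDedekindDomain S]

open Classical in
/-- Multiplicity of the ideal `Q` in `I`. -/
noncomputable def g4_w (Q I : Ideal S) : ℕ := (normalizedFactors I).count Q

theorem g4_w_mul (Q : Ideal S) {I J : Ideal S} (hI : I ≠ 0) (hJ : J ≠ 0) :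
    g4_w Q (I * J) = g4_w Q I + g4_w Q J := by
  classical
  rw [g4_w, normalizedFactors_mul hI hJ, Multiset.count_add]; rfl

theorem g4_w_one (Q : Ideal S) : g4_w Q (1 : Ideal S) = 0 := by
  rw [g4_w, normalizedFactors_one, Multiset.count_zero]

theorem g4_w_pow (Q I : Ideal S) (n : ℕ) : g4_w Q (I ^ n) = n * g4_w Q I := by
  rw [g4_w, normalizedFactors_pow, Multiset.count_nsmul]; rfl

theorem g4_w_prod {ι : Type} (s : Finset ι) (f : ι → Ideal S) (hf : ∀ i ∈ s, f i ≠ 0)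
    (Q : Ideal S) : g4_w Q (∏ i ∈ s, f i) = ∑ i ∈ s, g4_w Q (f i) := by
  classical
  induction s using Finset.induction_on with
  | empty => rw [Finset.prod_empty, Finset.sum_empty, g4_w_one]
  | insert a s ha ih =>
    rw [Finset.prod_insert ha, Finset.sum_insert ha,
      g4_w_mul Q (hf a (Finset.mem_insert_self _ _))
        (Finset.prod_ne_zero_iff.mpr fun i hi => hf i (Finset.mem_insert_of_mem hi)),
      ih fun i hi => hf i (Finset.mem_insert_of_mem hi)]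

theorem g4_w_dvd {I J : Ideal S} (hI : I ≠ 0) (hJ : J ≠ 0) (h : ∀ Q, g4_w Q I ≤ g4_w Q J) :
    I ∣ J := by
  classical
  rw [dvd_iff_normalizedFactors_le_normalizedFactors hI hJ, Multiset.le_iff_count]
  intro Q
  exact h Q

theorem g4_w_ext {I J : Ideal S} (hI : I ≠ 0) (hJ : J ≠ 0) (h : ∀ Q, g4_w Q I = g4_w Q J) :
    I = J :=
  dvd_antisymm (g4_w_dvd hI hJ fun Q => (h Q).le) (g4_w_dvd hJ hI fun Q => (h Q).ge)

theorem g4_w_self (Q : Ideal S) (hQ : Q.IsMaximal) (h0 : Q ≠ ⊥) : g4_w Q Q = 1 := by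
  have hi : Irreducible Q := ((Ideal.prime_iff_isPrime h0).mpr hQ.isPrime).irreducible
  rw [g4_w, normalizedFactors_irreducible hi, normalize_eq, Multiset.count_singleton_self]

theorem g4_w_other (Q Q' : Ideal S) (hQ : Q'.IsMaximal) (h0 : Q' ≠ ⊥) (h : Q ≠ Q') :
    g4_w Q Q' = 0 := by
  have hi : Irreducible Q' := ((Ideal.prime_iff_isPrime h0).mpr hQ.isPrime).irreducible
  rw [g4_w, normalizedFactors_irreducible hi, normalize_eq, Multiset.count_singleton, if_neg h]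

theorem g4_le_w (Q : Ideal S) (hQ : Prime Q) (x : S) (hx : x ≠ 0) (k : ℕ) :
    k ≤ g4_w Q (Ideal.span {x}) ↔ x ∈ Q ^ k := by
  classical
  have hx' : (Ideal.span {x} : Ideal S) ≠ 0 := by
    rw [Ne, Ideal.zero_eq_bot, Ideal.span_singleton_eq_bot]; exact hx
  rw [← Ideal.dvd_span_singleton,
    dvd_iff_normalizedFactors_le_normalizedFactors (pow_ne_zero _ hQ.ne_zero) hx',
    normalizedFactors_pow, normalizedFactors_irreducible hQ.irreducible, normalize_eq,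
    Multiset.nsmul_singleton, ← Multiset.le_count_iff_replicate_le]
  rfl

theorem g4_w_notprime (Q I : Ideal S) (hQ : ¬ Prime Q) : g4_w Q I = 0 := by
  classical
  rw [g4_w, Multiset.count_eq_zero]
  exact fun h => hQ (prime_of_normalized_factor Q h)

theorem g4_w_comap (e : S ≃+* S) (Q : Ideal S) (x : S) (hx : x ≠ 0) :
    g4_w (Q.comap (e : S →+* S)) (Ideal.span {x}) = g4_w Q (Ideal.span {e x}) := by
  have hex : e x ≠ 0 := fun h => hx ((map_eq_zero_iff e e.injective).mp h)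
  have hcm : ∀ Q' : Ideal S, Q'.comap (e : S →+* S) = Q'.map (e.symm : S →+* S) := fun Q' =>
    (Ideal.map_symm e).symm
  have hback : (Q.comap (e : S →+* S)).comap (e.symm : S →+* S) = Q := by
    ext y
    rw [Ideal.mem_comap, Ideal.mem_comap]
    change e (e.symm y) ∈ Q ↔ y ∈ Q
    rw [e.apply_symm_apply]
  have hpr : Prime Q ↔ Prime (Q.comap (e : S →+* S)) := by
    constructor
    · intro h
      have h0 : Q.comap (e : S →+* S) ≠ ⊥ := by
        intro h1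
        apply h.ne_zero
        rw [h1] at hback
        rw [← hback, Ideal.zero_eq_bot]
        ext y
        simp [Ideal.mem_comap]
      rw [Ideal.prime_iff_isPrime h0]
      have := (Ideal.prime_iff_isPrime h.ne_zero).mp h
      exact Ideal.comap_isPrime _ _
    · intro h
      have h0 : Q ≠ ⊥ := by
        intro h1
        apply h.ne_zero
        rw [h1, Ideal.zero_eq_bot]
        ext y
        simp [Ideal.mem_comap]
      rw [Ideal.prime_iff_isPrime h0]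
      have := (Ideal.prime_iff_isPrime h.ne_zero).mp h
      rw [← hback]
      exact Ideal.comap_isPrime _ _
  by_cases hQ : Prime Q
  · have key : ∀ k, k ≤ g4_w (Q.comap (e : S →+* S)) (Ideal.span {x}) ↔
        k ≤ g4_w Q (Ideal.span {e x}) := by
      intro k
      rw [g4_le_w _ (hpr.mp hQ) x hx, g4_le_w Q hQ (e x) hex, hcm, ← Ideal.map_pow, ← hcm,
        Ideal.mem_comap]
      rfl
    exact le_antisymm ((key _).mp le_rfl) ((key _).mpr le_rfl)
  · rw [g4_w_notprime _ _ hQ, g4_w_notprime _ _ (fun h => hQ (hpr.mpr h))]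

theorem g4_span_ne {x : S} (hx : x ≠ 0) : (Ideal.span {x} : Ideal S) ≠ 0 := by
  rw [Ne, Ideal.zero_eq_bot, Ideal.span_singleton_eq_bot]; exact hx

/-- Valuation of an element. -/
noncomputable def g4_v (Q : Ideal S) (x : S) : ℕ := g4_w Q (Ideal.span {x})

theorem g4_v_mul (Q : Ideal S) {x y : S} (hx : x ≠ 0) (hy : y ≠ 0) :
    g4_v Q (x * y) = g4_v Q x + g4_v Q y := by
  rw [g4_v, ← Ideal.span_singleton_mul_span_singleton, g4_w_mul Q (g4_span_ne hx) (g4_span_ne hy)]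
  rfl

theorem g4_v_pow (Q : Ideal S) (x : S) (n : ℕ) : g4_v Q (x ^ n) = n * g4_v Q x := by
  rw [g4_v, ← Ideal.span_singleton_pow, g4_w_pow]; rfl

theorem g4_v_prod {ι : Type} (s : Finset ι) (f : ι → S) (hf : ∀ i ∈ s, f i ≠ 0)
    (Q : Ideal S) : g4_v Q (∏ i ∈ s, f i) = ∑ i ∈ s, g4_v Q (f i) := by
  rw [g4_v, ← Ideal.prod_span_singleton, g4_w_prod _ _ (fun i hi => g4_span_ne (hf i hi))]
  rfl

theorem g4_v_one (Q : Ideal S) : g4_v Q (1 : S) = 0 := by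
  rw [g4_v, Ideal.span_singleton_one, ← Ideal.one_eq_top, g4_w_one]

end ded
variable {n : ℕ} {Γ : Type} [Group Γ] [Fintype Γ] [DecidableEq Γ]

section gal

variable {B : Type} [CommRing B] (D : GD B n Γ)

/-- The action as a ring automorphism. -/
noncomputable def g4_e (γ : Γ) : D.S ≃+* D.S :=
  RingEquiv.ofRingHom (D.ac γ) (D.ac γ⁻¹)
    (by
      refine RingHom.ext fun x => ?_
      rw [RingHom.comp_apply, ← D.ac_mul, mul_inv_cancel, D.ac_one]; rfl)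
    (by
      refine RingHom.ext fun x => ?_
      rw [RingHom.comp_apply, ← D.ac_mul, inv_mul_cancel, D.ac_one]; rfl)

theorem g4_e_apply (γ : Γ) (x : D.S) : g4_e D γ x = D.ac γ x := rfl

/-- The conjugate ideal. -/
def g4_P (P : Ideal D.S) (γ : Γ) : Ideal D.S := P.comap (D.ac γ⁻¹)

theorem g4_comap_comap (Q : Ideal D.S) (γ δ : Γ) :
    (Q.comap (D.ac γ)).comap (D.ac δ) = Q.comap (D.ac (γ * δ)) := by
  ext x
  rw [Ideal.mem_comap, Ideal.mem_comap, Ideal.mem_comap, D.ac_mul]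

theorem g4_P_comap (P : Ideal D.S) (γ δ : Γ) :
    (g4_P D P γ).comap (D.ac δ) = g4_P D P (δ⁻¹ * γ) := by
  rw [g4_P, g4_comap_comap, g4_P, mul_inv_rev, inv_inv]

theorem g4_comap_one (P : Ideal D.S) : P.comap (D.ac 1) = P := by
  ext x
  rw [Ideal.mem_comap, D.ac_one]

theorem g4_other (P Q : Ideal D.S) (h : ∀ γ, Q ≠ g4_P D P γ) (δ γ : Γ) :
    Q.comap (D.ac δ) ≠ g4_P D P γ := by
  intro h1
  apply h (δ * γ)
  have h2 := congrArg (fun I => I.comap (D.ac δ⁻¹)) h1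
  rw [g4_comap_comap, mul_inv_cancel, g4_comap_one, g4_P_comap, inv_inv] at h2
  exact h2

theorem g4_ac_ne (γ : Γ) {x : D.S} (hx : x ≠ 0) : D.ac γ x ≠ 0 := by
  intro h
  apply hx
  rw [← g4_e_apply] at h
  exact (map_eq_zero_iff (g4_e D γ) (g4_e D γ).injective).mp h

variable [IsDedekindDomain D.S]

theorem g4_v_ac (Q : Ideal D.S) (δ : Γ) {x : D.S} (hx : x ≠ 0) :
    g4_v Q (D.ac δ x) = g4_v (Q.comap (D.ac δ)) x :=
  (g4_w_comap (g4_e D δ) Q x hx).symm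

theorem g4_v_acP (P : Ideal D.S) (γ δ : Γ) {x : D.S} (hx : x ≠ 0) :
    g4_v (g4_P D P γ) (D.ac δ x) = g4_v (g4_P D P (δ⁻¹ * γ)) x := by
  rw [g4_v_ac D _ _ hx, g4_P_comap]

/-- The lattice of principal divisors supported on the fibre. -/
def g4_L (P : Ideal D.S) : AddSubgroup (Γ → ℤ) where
  carrier := {c | ∃ u v : D.S, u ≠ 0 ∧ v ≠ 0 ∧
    (∀ γ, (g4_v (g4_P D P γ) u : ℤ) = g4_v (g4_P D P γ) v + c γ) ∧
    ∀ Q, (∀ γ, Q ≠ g4_P D P γ) → g4_v Q u = g4_v Q v}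
  zero_mem' := ⟨1, 1, one_ne_zero, one_ne_zero, fun γ => by simp, fun Q _ => rfl⟩
  add_mem' := by
    rintro c c' ⟨u, v, hu, hv, h1, h2⟩ ⟨u', v', hu', hv', h1', h2'⟩
    refine ⟨u * u', v * v', mul_ne_zero hu hu', mul_ne_zero hv hv', fun γ => ?_, fun Q hQ => ?_⟩
    · rw [g4_v_mul _ hu hu', g4_v_mul _ hv hv', Pi.add_apply]
      push_cast
      rw [h1, h1']; ring
    · rw [g4_v_mul _ hu hu', g4_v_mul _ hv hv', h2 Q hQ, h2' Q hQ]
  neg_mem' := by
    rintro c ⟨u, v, hu, hv, h1, h2⟩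
    refine ⟨v, u, hv, hu, fun γ => ?_, fun Q hQ => (h2 Q hQ).symm⟩
    rw [h1, Pi.neg_apply]; ring

theorem g4_L_tr (P : Ideal D.S) (δ : Γ) (c : Γ → ℤ) (hc : c ∈ g4_L D P) :
    (fun γ => c (δ⁻¹ * γ)) ∈ g4_L D P := by
  obtain ⟨u, v, hu, hv, h1, h2⟩ := hc
  refine ⟨D.ac δ u, D.ac δ v, g4_ac_ne D δ hu, g4_ac_ne D δ hv, fun γ => ?_, fun Q hQ => ?_⟩
  · rw [g4_v_acP D P γ δ hu, g4_v_acP D P γ δ hv, h1]
  · rw [g4_v_ac D Q δ hu, g4_v_ac D Q δ hv]
    exact h2 _ (g4_other D P Q hQ δ)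

end gal

/-- Translation and convolution. -/
theorem g4_conv_tr {Γ : Type} [Group Γ] [Fintype Γ] (ν c : Γ → ℤ) (δ γ : Γ) :
    conv (fun ε => ν (δ⁻¹ * ε)) c γ = conv ν c (δ⁻¹ * γ) := by
  rw [conv, conv]
  refine Fintype.sum_equiv (Equiv.mulLeft δ⁻¹) _ _ fun ε => ?_
  rw [Equiv.coe_mulLeft]
  congr 2
  group

theorem G4 {B : Type} [CommRing B] [IsDomain B] [IsPrincipalIdealRing B] (D : GD B n Γ)
    [IsDomain D.S] (ℓ : ℕ) [Fact ℓ.Prime] (hΓ : ¬ ℓ ∣ Fintype.card Γ) (P : Ideal D.S)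
    (hP : P.IsMaximal) (π : B) (hπ0 : π ≠ 0) (hπ : ∀ b : B, algebraMap B D.S b ∈ P ↔ π ∣ b)
    (hres : ∀ s : D.S, ∃ b : B, s - algebraMap B D.S b ∈ P)
    (htor : ∃ h : ℕ, 0 < h ∧ ∃ f : D.S, P ^ h = Ideal.span {f}) :
    ∃ (f : D.S) (c : Γ → ℕ), f ≠ 0 ∧ Ideal.span {f} = ∏ γ, (P.comap (D.ac γ⁻¹)) ^ (c γ) ∧
      ∀ ν : Γ → ZMod ℓ, (¬ ∃ c, ∀ γ, ν γ = c) → ∀ (j : ℕ) (a h : D.S), a ≠ 0 →
        a ^ ℓ * GD.Xn ν f ≠ algebraMap B D.S π ^ j * h ^ ℓ := by
  classical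
  have : IsDedekindDomain D.S := G1b D
  have hinj := G1c D
  set ϖ : D.S := algebraMap B D.S π with hϖ
  have hϖ0 : ϖ ≠ 0 := fun h => hπ0 (hinj (by rw [← hϖ, h, map_zero]))
  have hϖP : ϖ ∈ P := (hπ π).mpr dvd_rfl
  have hacϖ : ∀ γ : Γ, D.ac γ ϖ = ϖ := by
    intro γ
    rw [hϖ, Algebra.algebraMap_eq_smul_one, D.ac_smul, map_one]
  have hPm : ∀ γ, (g4_P D P γ).IsMaximal := by
    intro γ
    have := hP
    exact Ideal.comap_isMaximal_of_surjective (D.ac γ⁻¹) (g4_e D γ⁻¹).surjective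
  have hP0 : ∀ γ, g4_P D P γ ≠ ⊥ := by
    intro γ h
    have h1 : ϖ ∈ g4_P D P γ := by
      rw [g4_P, Ideal.mem_comap, hacϖ]; exact hϖP
    rw [h] at h1
    exact hϖ0 (by simpa using h1)
  have hPi : ∀ γ δ, γ ≠ δ → g4_P D P γ ≠ g4_P D P δ := by
    intro γ δ hne h
    have h1 := G2a D P hP hres γ δ hne
    change g4_P D P γ ⊔ g4_P D P δ = ⊤ at h1
    rw [h, sup_idem] at h1
    exact (hPm δ).ne_top h1
  have hP1 : g4_P D P 1 = P := by
    rw [g4_P, inv_one, g4_comap_one]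
  have hww : ∀ γ δ, g4_w (g4_P D P δ) (g4_P D P γ) = if δ = γ then 1 else 0 := by
    intro γ δ
    split_ifs with h
    · rw [h]; exact g4_w_self _ (hPm γ) (hP0 γ)
    · exact g4_w_other _ _ (hPm γ) (hP0 γ) (hPi δ γ h)
  have hprod : ∀ (c : Γ → ℕ) (δ : Γ), g4_w (g4_P D P δ) (∏ γ, (g4_P D P γ) ^ (c γ)) = c δ := by
    intro c δ
    rw [g4_w_prod _ _ (fun γ _ => pow_ne_zero _ (hP0 γ))]
    simp only [g4_w_pow, hww]
    simp
  have hprod' : ∀ (c : Γ → ℕ) (Q : Ideal D.S), (∀ γ, Q ≠ g4_P D P γ) →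
      g4_w Q (∏ γ, (g4_P D P γ) ^ (c γ)) = 0 := by
    intro c Q hQ
    rw [g4_w_prod _ _ (fun γ _ => pow_ne_zero _ (hP0 γ))]
    refine Finset.sum_eq_zero fun γ _ => ?_
    rw [g4_w_pow, g4_w_other _ _ (hPm γ) (hP0 γ) (hQ γ), mul_zero]
  have hspan : Ideal.span {ϖ} = ∏ γ, (g4_P D P γ) ^ ((fun _ => 1 : Γ → ℕ) γ) := by
    rw [G2 D P hP π hπ hres]
    refine Finset.prod_congr rfl fun γ _ => ?_
    rw [pow_one]; rfl
  have hvϖ : ∀ γ, g4_v (g4_P D P γ) ϖ = 1 := by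
    intro γ
    rw [g4_v, hspan, hprod]
  have hvϖ' : ∀ Q : Ideal D.S, (∀ γ, Q ≠ g4_P D P γ) → g4_v Q ϖ = 0 := by
    intro Q hQ
    rw [g4_v, hspan, hprod' _ Q hQ]
  obtain ⟨h0, hh0, f0, hf0⟩ := htor
  have hf00 : f0 ≠ 0 := by
    intro h
    rw [h, Ideal.span_singleton_eq_bot.mpr rfl] at hf0
    have := hP0 1
    rw [hP1] at this
    exact this (pow_eq_zero_iff hh0.ne' |>.mp hf0)
  have hL : ∀ c : Γ → ℤ, (h0 : ℤ) • c ∈ g4_L D P := by
    intro c
    have h1 : ∀ γ, (fun δ => if δ = γ then (h0 : ℤ) else 0) ∈ g4_L D P := by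
      intro γ
      refine ⟨D.ac γ f0, 1, g4_ac_ne D γ hf00, one_ne_zero, fun δ => ?_, fun Q hQ => ?_⟩
      · rw [g4_v_acP D P δ γ hf00, g4_v_one, g4_v, ← hf0, g4_w_pow]
        have h2 := hww 1 (γ⁻¹ * δ)
        rw [hP1] at h2
        rw [h2]
        by_cases h3 : δ = γ
        · simp [h3]
        · have h4 : γ⁻¹ * δ ≠ 1 := fun h => h3 (inv_mul_eq_one.mp h).symm
          simp [h3, h4]
      · rw [g4_v_ac D Q γ hf00, g4_v_one, g4_v, ← hf0, g4_w_pow]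
        have h5 := g4_other D P Q hQ γ 1
        rw [hP1] at h5
        have h6 := hPm 1
        have h7 := hP0 1
        rw [hP1] at h6 h7
        rw [g4_w_other _ _ h6 h7 h5, mul_zero]
    have h8 : (h0 : ℤ) • c = ∑ γ, c γ • (fun δ => if δ = γ then (h0 : ℤ) else 0) := by
      funext δ
      rw [Finset.sum_apply]
      simp only [Pi.smul_apply, smul_eq_mul]
      simp [mul_comm]
    rw [h8]
    exact sum_mem fun γ _ => AddSubgroup.zsmul_mem _ (h1 γ) _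
  obtain ⟨c₀, hc₀, hc₁⟩ := G3 ℓ hΓ (g4_L D P) (fun δ c hc => g4_L_tr D P δ c hc) h0 hh0 hL
  obtain ⟨u, v, hu, hv, huv, huv'⟩ := hc₀
  set r : ℕ := ∑ γ, (c₀ γ).natAbs with hr
  have hcr : ∀ γ, 0 ≤ c₀ γ + r := by
    intro γ
    have h1 : (c₀ γ).natAbs ≤ r :=
      Finset.single_le_sum (f := fun γ => (c₀ γ).natAbs) (fun _ _ => Nat.zero_le _)
        (Finset.mem_univ γ)
    omega
  have hdiv : v ∣ u * ϖ ^ r := by
    rw [← Ideal.mem_span_singleton, ← Ideal.dvd_span_singleton]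
    have huϖ : u * ϖ ^ r ≠ 0 := mul_ne_zero hu (pow_ne_zero _ hϖ0)
    refine g4_w_dvd (g4_span_ne hv) (g4_span_ne huϖ) fun Q => ?_
    change g4_v Q v ≤ g4_v Q (u * ϖ ^ r)
    rw [g4_v_mul Q hu (pow_ne_zero _ hϖ0), g4_v_pow]
    by_cases hQ : ∀ γ, Q ≠ g4_P D P γ
    · rw [huv' Q hQ]; exact Nat.le_add_right _ _
    · push Not at hQ
      obtain ⟨γ, rfl⟩ := hQ
      rw [hvϖ γ, mul_one]
      have h1 := huv γ
      have h2 := hcr γ
      omega
  obtain ⟨f, hf⟩ := hdiv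
  have hf1 : f ≠ 0 := by
    rintro rfl
    rw [mul_zero] at hf
    exact mul_ne_zero hu (pow_ne_zero _ hϖ0) hf
  have hvf : ∀ Q : Ideal D.S, g4_v Q u + r * g4_v Q ϖ = g4_v Q v + g4_v Q f := by
    intro Q
    rw [← g4_v_pow, ← g4_v_mul Q hu (pow_ne_zero _ hϖ0), hf, g4_v_mul Q hv hf1]
  have hvfγ : ∀ γ, (g4_v (g4_P D P γ) f : ℤ) = c₀ γ + r := by
    intro γ
    have h1 := hvf (g4_P D P γ)
    have h2 := huv γ
    rw [hvϖ γ, mul_one] at h1
    omega
  have hvf' : ∀ Q : Ideal D.S, (∀ γ, Q ≠ g4_P D P γ) → g4_v Q f = 0 := by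
    intro Q hQ
    have h1 := hvf Q
    rw [hvϖ' Q hQ, huv' Q hQ] at h1
    omega
  refine ⟨f, fun γ => g4_v (g4_P D P γ) f, hf1, ?_, ?_⟩
  · change Ideal.span {f} = ∏ γ, (g4_P D P γ) ^ (g4_v (g4_P D P γ) f)
    refine g4_w_ext (g4_span_ne hf1)
      (Finset.prod_ne_zero_iff.mpr fun γ _ => pow_ne_zero _ (hP0 γ)) fun Q => ?_
    by_cases hQ : ∀ γ, Q ≠ g4_P D P γ
    · rw [hprod' _ Q hQ]; exact hvf' Q hQ
    · push Not at hQ
      obtain ⟨γ, rfl⟩ := hQ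
      rw [hprod (fun γ => g4_v (g4_P D P γ) f)]; rfl
  · intro ν hν j a h ha heq
    apply hν
    have hXn0 : (GD.Xn ν f : D.S) ≠ 0 := by
      rw [GD.Xn]
      exact Finset.prod_ne_zero_iff.mpr fun γ _ => pow_ne_zero _ (g4_ac_ne D γ hf1)
    have hh : h ≠ 0 := by
      rintro rfl
      rw [zero_pow (Fact.out : ℓ.Prime).ne_zero, mul_zero] at heq
      exact mul_ne_zero (pow_ne_zero _ ha) hXn0 heq
    have hval : ∀ Q : Ideal D.S, ℓ * g4_v Q a + ∑ γ, (ν γ).val * g4_v (Q.comap (D.ac γ)) f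
        = j * g4_v Q ϖ + ℓ * g4_v Q h := by
      intro Q
      have h1 := congrArg (g4_v Q) heq
      rw [g4_v_mul Q (pow_ne_zero _ ha) hXn0, g4_v_pow,
        g4_v_mul Q (pow_ne_zero _ hϖ0) (pow_ne_zero _ hh), g4_v_pow, g4_v_pow, GD.Xn,
        g4_v_prod _ _ (fun γ _ => pow_ne_zero _ (g4_ac_ne D γ hf1))] at h1
      rw [← h1]
      congr 1
      refine Finset.sum_congr rfl fun γ _ => ?_
      rw [g4_v_pow, g4_v_ac D Q γ hf1]
    set d : Γ → ℤ := fun γ => (g4_v (g4_P D P γ) h : ℤ) - g4_v (g4_P D P γ) a with hd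
    have hdL : d ∈ g4_L D P := by
      refine ⟨h, a, hh, ha, fun γ => ?_, fun Q hQ => ?_⟩
      · rw [hd]; ring
      · have h1 := hval Q
        rw [hvϖ' Q hQ, Finset.sum_eq_zero, mul_zero, add_zero, zero_add] at h1
        · exact (Nat.eq_of_mul_eq_mul_left (Fact.out : ℓ.Prime).pos h1).symm
        · intro γ _
          rw [hvf' _ (g4_other D P Q hQ γ), mul_zero]
    set ν' : Γ → ℤ := fun γ => ((ν γ).val : ℤ) with hν'
    have hconv : ∀ γ, conv ν' c₀ γ + r * ∑ δ, ν' δ = j + ℓ * d γ := by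
      intro γ
      have h1 := hval (g4_P D P γ)
      rw [hvϖ γ, mul_one] at h1
      have h2 : (∑ δ, (ν δ).val * g4_v ((g4_P D P γ).comap (D.ac δ)) f : ℕ)
          = conv ν' c₀ γ + r * ∑ δ, ν' δ := by
        rw [conv, Finset.mul_sum, ← Finset.sum_add_distrib]
        push_cast
        refine Finset.sum_congr rfl fun δ _ => ?_
        rw [g4_P_comap, hvfγ, hν']
        ring
      rw [← h2, hd]
      have h3 := congrArg (fun z : ℕ => (z : ℤ)) h1
      simp only [Nat.cast_add, Nat.cast_mul] at h3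
      push_cast
      push_cast at h3
      linarith
    have hkey : ∀ δ γ, (ℓ : ℤ) ∣ ν' (δ⁻¹ * γ) - ν' γ := by
      intro δ
      refine hc₁ (fun γ => ν' (δ⁻¹ * γ) - ν' γ)
        ⟨fun γ => d (δ⁻¹ * γ) - d γ, ?_, ?_⟩
      · exact (g4_L D P).sub_mem (g4_L_tr D P δ d hdL) hdL
      · funext γ
        have h1 : conv (fun γ => ν' (δ⁻¹ * γ) - ν' γ) c₀ γ
            = conv (fun ε => ν' (δ⁻¹ * ε)) c₀ γ - conv ν' c₀ γ := by
          rw [conv, conv, conv, ← Finset.sum_sub_distrib]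
          refine Finset.sum_congr rfl fun ε _ => ?_
          ring
        rw [h1, g4_conv_tr, Pi.smul_apply, smul_eq_mul]
        have h2 := hconv γ
        have h3 := hconv (δ⁻¹ * γ)
        linarith
    refine ⟨ν 1, fun γ => ?_⟩
    have h1 := hkey γ γ
    rw [inv_mul_cancel] at h1
    have h2 : ((ν' 1 - ν' γ : ℤ) : ZMod ℓ) = 0 := (ZMod.intCast_zmod_eq_zero_iff_dvd _ _).mpr h1
    rw [hν'] at h2
    push_cast at h2
    rw [ZMod.natCast_zmod_val, ZMod.natCast_zmod_val] at h2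
    exact (sub_eq_zero.mp h2).symm

end Pool.Agent.QPC
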