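import Mathlib
import Pool.Agent.QPC.Defs
import Pool.Agent.QPC.Defs2
import Pool.Agent.QPC.G1
import Pool.Agent.QPC.G2

/-!
# QPC row G5: from the x-line to the v-line, `v^m = X`
`D.xv i m : D.Sx i →+* D.Sv i m` (coordinatewise `X ↦ X^m`). Plans.
* `G5c`: coordinatewise: every polynomial `Q(v)` is uniquely `∑_{j<m} v^j Q_j(v^m)`.
* `G5a`: `O := D.Sx i` domain, `P` from `G2b`, `X ∉ P²` (by `G2` `(X) = ∏ Pγ` with `P₁ = P`, all comaximal; if `X ∈ P²` then `(X) ≤ P²`, multiply: `∏_{γ≠1} Pγ` comaximal to `P` ... `O` is Dedekind (`G1b`), the multiplicity of `P` in `(X)` is one). So `T^m - X` is Eisenstein at `P` over `O`, irreducible, hence prime over the integrally closed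
  domain `O` (`Polynomial.IsEisensteinAt.irreducible`, `Monic.irreducible_iff_irreducible_map_fraction_map`, monic polynomial irreducible over the fraction field: `O[T]/(T^m - X)` embeds in the field `K[T]/(T^m-X)`). By `G5c`, `D.Sv i m ≅ O[T]/(T^m - X)` is a domain.
  (Alternative: direct. Suppose `u u' = 0`, or use the map to `AdjoinRoot` over `FractionRing O`.)
* `G5b`: let `φ := D.xv i m`, `P' := P.map φ ⊔ (v)`. `(P')^m ≤ P.map φ`: a product of `m` generators contains an element of `φ(P)` or is `v^m = φ(X) ∈ φ(P)`. Conversely `P = (X) + P^m`: `(X) = P J` with `J + P^(m-1) = 1` (`J` = product of the other conjugates), so `(X) + P^m = P (J + P^(m-1)) = P`; and `φ(X) = v^m ∈ P'^m`, `φ(P)^m ≤ P'^m`.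
* `G5d`: conjugates: `(P.comap (ac γ⁻¹)).map φ = ((P.comap (ac γ⁻¹)).map φ ⊔ (v))^m` for all `γ` (same proof, `Pγ` has the same properties), and so `(φ f) = I^m`.
-/

set_option autoImplicit false

namespace Pool.Agent.QPC

open Polynomial

variable {n : ℕ} {Γ : Type} [Group Γ] [Fintype Γ] [DecidableEq Γ]

/-- The component of residue `j`. -/
noncomputable def g5_part {k : Type} [CommRing k] (m j : ℕ) (Q : k[X]) : k[X] :=
  ∑ t ∈ Finset.range (Q.natDegree + 1), monomial t (Q.coeff (m * t + j))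

theorem g5_part_coeff {k : Type} [CommRing k] (m j : ℕ) (hm : 0 < m) (Q : k[X]) (t : ℕ) :
    (g5_part m j Q).coeff t = Q.coeff (m * t + j) := by
  rw [g5_part, finsetSum_coeff]
  simp only [coeff_monomial]
  rw [Finset.sum_ite_eq']
  split_ifs with h
  · rfl
  · rw [Finset.mem_range, not_lt] at h
    refine (coeff_eq_zero_of_natDegree_lt ?_).symm
    have : t ≤ m * t := Nat.le_mul_of_pos_left t hm
    omega

theorem g5_ex {k : Type} [CommRing k] (m : ℕ) (Q : k[X]) : ex k m Q = expand k m Q := rfl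

theorem g5_sum_coeff {k : Type} [CommRing k] (m : ℕ) (hm : 0 < m) (w : Fin m → k[X]) (t : ℕ)
    (r : Fin m) :
    (∑ j : Fin m, X ^ (j : ℕ) * ex k m (w j)).coeff (m * t + r) = (w r).coeff t := by
  rw [finsetSum_coeff, Finset.sum_eq_single r]
  · rw [coeff_X_pow_mul', if_pos (by omega), g5_ex]
    rw [Nat.add_sub_cancel, mul_comm m t, coeff_expand_mul hm]
  · intro j _ hj
    rw [coeff_X_pow_mul']
    split_ifs with h
    · rw [g5_ex, coeff_expand hm, if_neg]
      rintro ⟨c, hc⟩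
      apply hj
      have hj' := j.isLt
      have hr' := r.isLt
      have h1 : m * t + (r : ℕ) = m * c + (j : ℕ) := by omega
      have h2 : (m * t + (r : ℕ)) % m = (m * c + (j : ℕ)) % m := by rw [h1]
      rw [Nat.mul_add_mod, Nat.mul_add_mod, Nat.mod_eq_of_lt hr', Nat.mod_eq_of_lt hj'] at h2
      exact Fin.ext h2.symm
    · rfl
  · intro h
    exact absurd (Finset.mem_univ r) h

theorem g5_co {k₀ k : Type} [CommRing k₀] [CommRing k] (i : k₀ →+* k) (D : GD k₀[X] n Γ) (m : ℕ)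
    (w : Fin m → D.Sx i) (l : Fin n) :
    (∑ j : Fin m, algebraMap k[X] (D.Sv i m) X ^ (j : ℕ) * D.xv i m (w j)).co l
      = ∑ j : Fin m, X ^ (j : ℕ) * ex k m ((w j).co l) := by
  rw [Tab.sum_co]
  refine Finset.sum_congr rfl fun j _ => ?_
  rw [← map_pow, ← Algebra.smul_def, Tab.smul_co]
  rfl

theorem G5c {k₀ k : Type} [CommRing k₀] [CommRing k] (i : k₀ →+* k) (D : GD k₀[X] n Γ) (m : ℕ)
    (hm : 0 < m) (u : D.Sv i m) :
    ∃! w : Fin m → D.Sx i, u = ∑ j : Fin m, algebraMap k[X] (D.Sv i m) X ^ (j : ℕ) * D.xv i m (w j) := by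
  refine ⟨fun j => ⟨fun l => g5_part m j (u.co l)⟩, ?_, ?_⟩
  · refine Tab.ext' fun l => ?_
    rw [g5_co]
    ext N
    have hN : m * (N / m) + ((⟨N % m, Nat.mod_lt N hm⟩ : Fin m) : ℕ) = N := Nat.div_add_mod N m
    rw [← hN, g5_sum_coeff m hm, g5_part_coeff _ _ hm]
  · intro w hw
    funext j
    refine Tab.ext' fun l => ?_
    have h1 : u.co l = ∑ j : Fin m, X ^ (j : ℕ) * ex k m ((w j).co l) := by
      rw [← g5_co, ← hw]
    ext t
    change _ = (g5_part m j (u.co l)).coeff t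
    rw [g5_part_coeff _ _ hm, h1, g5_sum_coeff m hm]

theorem g5_key {B : Type} [CommRing B] (D : GD B n Γ) (P : Ideal D.S) (hP : P.IsMaximal) (π : B)
    (hπ : ∀ b : B, algebraMap B D.S b ∈ P ↔ π ∣ b)
    (hres : ∀ s : D.S, ∃ b : B, s - algebraMap B D.S b ∈ P) (γ : Γ) (m : ℕ) (hm : 0 < m) :
    P.comap (D.ac γ⁻¹) =
      Ideal.span {algebraMap B D.S π} ⊔ (P.comap (D.ac γ⁻¹)) ^ m := by
  have h1 : Ideal.span {algebraMap B D.S π} = P.comap (D.ac γ⁻¹) *
      ∏ δ ∈ Finset.univ.erase γ, P.comap (D.ac δ⁻¹) := by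
    rw [G2 D P hP π hπ hres]
    exact (Finset.mul_prod_erase Finset.univ (fun δ => P.comap (D.ac δ⁻¹))
      (Finset.mem_univ γ)).symm
  obtain ⟨m', rfl⟩ : ∃ m', m = m' + 1 := ⟨m - 1, by omega⟩
  have h2 : (∏ δ ∈ Finset.univ.erase γ, P.comap (D.ac δ⁻¹)) ⊔ (P.comap (D.ac γ⁻¹)) ^ m' = ⊤ := by
    rw [← Ideal.isCoprime_iff_sup_eq]
    refine IsCoprime.pow_right ?_
    refine IsCoprime.prod_left ?_
    intro δ hδ
    rw [Ideal.isCoprime_iff_sup_eq]
    exact G2a D P hP hres δ γ (Finset.ne_of_mem_erase hδ)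
  rw [h1, pow_succ', ← Ideal.mul_sup, h2, Ideal.mul_top]

theorem g5_xv {k₀ k : Type} [CommRing k₀] [CommRing k] (i : k₀ →+* k) (D : GD k₀[X] n Γ) (m : ℕ)
    (b : k[X]) :
    D.xv i m (algebraMap k[X] (D.Sx i) b) = algebraMap k[X] (D.Sv i m) (ex k m b) := by
  rw [Algebra.algebraMap_eq_smul_one, GD.xv, GD.hom_smul, map_one,
    ← Algebra.algebraMap_eq_smul_one]

theorem G5a {k₀ k : Type} [CommRing k₀] [Field k] [IsAlgClosed k] (i : k₀ →+* k)
    (D : GD k₀[X] n Γ) (hdom : IsDomain (D.Sx i)) (m : ℕ) (hm : 0 < m) : IsDomain (D.Sv i m) := by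
  have := hdom
  have hded : IsDedekindDomain (D.Sx i) := G1b (D.map (mapRingHom i))
  have := hded
  obtain ⟨P, hP, hπ, hres⟩ := G2b (D.map (mapRingHom i))
  set x : D.Sx i := algebraMap k[X] (D.Sx i) X with hx
  have hxP : x ∈ P := (hπ X).mpr dvd_rfl
  have hx0 : x ≠ 0 := by
    intro h
    have h1 := G1c (D.map (mapRingHom i)) (h.trans (map_zero (algebraMap k[X] (D.Sx i))).symm)
    exact X_ne_zero h1
  have hP0 : P ≠ ⊥ := by
    rintro rfl
    exact hx0 hxP
  have hx2 : x ∉ P ^ 2 := by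
    intro h
    have hk := g5_key (D.map (mapRingHom i)) P hP X hπ hres 1 2 (by norm_num)
    have h1 : P.comap ((D.map (mapRingHom i)).ac (1 : Γ)⁻¹) = P := by
      ext s
      rw [Ideal.mem_comap, inv_one, GD.ac_one]
    rw [h1] at hk
    have h2 : Ideal.span {x} ≤ P ^ 2 := (Ideal.span_singleton_le_iff_mem _).mpr h
    rw [sup_eq_right.mpr h2] at hk
    exact (Ideal.pow_lt_self P hP0 hP.ne_top 2 le_rfl).ne hk.symm
  set f : (D.Sx i)[X] := X ^ m - C x with hf
  have hmon : f.Monic := monic_X_pow_sub_C x hm.ne'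
  have hdeg : f.natDegree = m := natDegree_X_pow_sub_C
  have heis : f.IsEisensteinAt P := by
    refine ⟨?_, ?_, ?_⟩
    · rw [hmon.leadingCoeff]
      exact fun h => hP.ne_top ((Ideal.eq_top_iff_one P).mpr h)
    · intro j hj
      rw [hdeg] at hj
      rw [hf, coeff_sub, coeff_X_pow, coeff_C, if_neg hj.ne]
      split_ifs with h0
      · rw [zero_sub]; exact neg_mem hxP
      · rw [sub_zero]; exact zero_mem _
    · rw [hf, coeff_sub, coeff_X_pow, coeff_C, if_neg hm.ne, if_pos rfl, zero_sub]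
      exact fun h => hx2 (neg_mem_iff.mp h)
  have hirr : Irreducible f :=
    heis.irreducible hP.isPrime hmon.isPrimitive (by rw [hdeg]; exact hm)
  have hirr2 := (Monic.irreducible_iff_irreducible_map_fraction_map
    (K := FractionRing (D.Sx i)) hmon).mp hirr
  have hinj : Function.Injective (algebraMap (D.Sx i) (FractionRing (D.Sx i))) :=
    IsFractionRing.injective _ _
  have hpr : ∀ g h : (D.Sx i)[X], f ∣ g * h → f ∣ g ∨ f ∣ h := by
    intro g h hgh
    have h1 := (map_dvd_map _ hinj hmon).mpr hgh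
    rw [Polynomial.map_mul] at h1
    rcases hirr2.prime.dvd_or_dvd h1 with h2 | h2
    · exact Or.inl ((map_dvd_map _ hinj hmon).mp h2)
    · exact Or.inr ((map_dvd_map _ hinj hmon).mp h2)
  set θ : (D.Sx i)[X] →+* D.Sv i m :=
    eval₂RingHom (D.xv i m) (algebraMap k[X] (D.Sv i m) X) with hθ
  have hθf : θ f = 0 := by
    rw [hθ, hf, coe_eval₂RingHom, eval₂_sub, eval₂_pow, eval₂_X, eval₂_C, hx, g5_xv]
    rw [← map_pow, sub_eq_zero]
    congr 1
    simp [ex]
  have hsur : ∀ u : D.Sv i m, ∃ g, θ g = u := by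
    intro u
    obtain ⟨w, hw, -⟩ := G5c i D m hm u
    refine ⟨∑ j : Fin m, X ^ (j : ℕ) * C (w j), ?_⟩
    rw [hw, map_sum]
    refine Finset.sum_congr rfl fun j _ => ?_
    rw [map_mul, map_pow]
    simp [hθ]
  have hker : ∀ g, θ g = 0 ↔ f ∣ g := by
    intro g
    constructor
    · intro hg
      have h1 := modByMonic_add_div g f
      have h2 : θ (g %ₘ f) = 0 := by
        have h3 := congrArg θ h1
        rw [map_add, map_mul, hθf, zero_mul, add_zero, hg] at h3
        exact h3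
      have h4 : (g %ₘ f).natDegree < m := by
        rw [← hdeg]
        refine natDegree_modByMonic_lt g hmon ?_
        intro h5
        rw [h5] at hdeg
        simp at hdeg
        omega
      have h5 : θ (g %ₘ f) = ∑ j : Fin m, algebraMap k[X] (D.Sv i m) X ^ (j : ℕ) *
          D.xv i m ((g %ₘ f).coeff j) := by
        rw [hθ, coe_eval₂RingHom, eval₂_eq_sum_range' _ h4, Finset.sum_range]
        refine Finset.sum_congr rfl fun j _ => mul_comm _ _
      have h6 : (0 : D.Sv i m) = ∑ j : Fin m, algebraMap k[X] (D.Sv i m) X ^ (j : ℕ) *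
          D.xv i m ((0 : Fin m → D.Sx i) j) := by
        simp
      obtain ⟨w, -, hu⟩ := G5c i D m hm 0
      have h7 := hu _ h6
      have h8 := hu (fun j => (g %ₘ f).coeff j) (h2.symm.trans h5)
      have h9 : (fun j : Fin m => (g %ₘ f).coeff j) = (0 : Fin m → D.Sx i) := h8.trans h7.symm
      have h10 : g %ₘ f = 0 := by
        ext1 N
        by_cases hN : N < m
        · exact congrFun h9 ⟨N, hN⟩
        · rw [coeff_eq_zero_of_natDegree_lt (by omega), coeff_zero]
      exact (modByMonic_eq_zero_iff_dvd hmon).mp h10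
    · rintro ⟨q, rfl⟩
      rw [map_mul, hθf, zero_mul]
  have : Nontrivial (D.Sv i m) := by
    refine ⟨0, 1, ?_⟩
    intro h
    have h1 : θ 1 = 0 := by rw [map_one]; exact h.symm
    exact hirr.not_isUnit (isUnit_of_dvd_one ((hker 1).mp h1))
  have : NoZeroDivisors (D.Sv i m) := by
    refine ⟨?_⟩
    intro a b hab
    obtain ⟨g, rfl⟩ := hsur a
    obtain ⟨h, rfl⟩ := hsur b
    rw [← map_mul, hker] at hab
    rcases hpr g h hab with h1 | h1
    · exact Or.inl ((hker g).mpr h1)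
    · exact Or.inr ((hker h).mpr h1)
  exact NoZeroDivisors.to_isDomain _

theorem g5_pow_le {S : Type} [CommRing S] (J : Ideal S) (v : S) (m : ℕ) (h : v ^ m ∈ J) :
    (J ⊔ Ideal.span {v}) ^ m ≤ J := by
  have h1 : ∀ N : ℕ, (J ⊔ Ideal.span {v}) ^ N ≤ J ⊔ Ideal.span {v ^ N} := by
    intro N
    induction N with
    | zero => simp
    | succ N ih =>
      calc (J ⊔ Ideal.span {v}) ^ (N + 1) = (J ⊔ Ideal.span {v}) ^ N * (J ⊔ Ideal.span {v}) :=
            pow_succ _ _
        _ ≤ (J ⊔ Ideal.span {v ^ N}) * (J ⊔ Ideal.span {v}) := Ideal.mul_mono_left ih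
        _ ≤ J ⊔ Ideal.span {v ^ (N + 1)} := by
            rw [Ideal.sup_mul, sup_le_iff]
            constructor
            · exact Ideal.mul_le_left.trans le_sup_left
            · rw [Ideal.mul_sup, sup_le_iff]
              constructor
              · exact Ideal.mul_le_right.trans le_sup_left
              · rw [Ideal.span_singleton_mul_span_singleton, ← pow_succ]
                exact le_sup_right
  refine (h1 m).trans (sup_le le_rfl ?_)
  exact (Ideal.span_singleton_le_iff_mem _).mpr h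

theorem G5d {k₀ k : Type} [CommRing k₀] [Field k] [IsAlgClosed k] (i : k₀ →+* k)
    (D : GD k₀[X] n Γ) (hdom : IsDomain (D.Sx i)) (m : ℕ) (hm : 0 < m) (P : Ideal (D.Sx i))
    (hP : P.IsMaximal) (hπ : ∀ b : k[X], algebraMap k[X] (D.Sx i) b ∈ P ↔ X ∣ b)
    (hres : ∀ s : D.Sx i, ∃ b : k[X], s - algebraMap k[X] (D.Sx i) b ∈ P)
    (f : D.Sx i) (c : Γ → ℕ)
    (hf : Ideal.span {f} = ∏ γ, (P.comap ((D.map (mapRingHom i)).ac γ⁻¹)) ^ (c γ)) :
    ∃ I : Ideal (D.Sv i m), Ideal.span {D.xv i m f} = I ^ m := by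
  set v : D.Sv i m := algebraMap k[X] (D.Sv i m) X with hv
  have hvm : D.xv i m (algebraMap k[X] (D.Sx i) X) = v ^ m := by
    rw [g5_xv, hv, ← map_pow]
    congr 1
    simp [ex]
  have hxP : ∀ γ : Γ, algebraMap k[X] (D.Sx i) X ∈ P.comap ((D.map (mapRingHom i)).ac γ⁻¹) := by
    intro γ
    rw [g5_key (D.map (mapRingHom i)) P hP X hπ hres γ 1 one_pos]
    exact Ideal.mem_sup_left (Ideal.mem_span_singleton_self _)
  have hJ : ∀ γ : Γ, (P.comap ((D.map (mapRingHom i)).ac γ⁻¹)).map (D.xv i m) =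
      ((P.comap ((D.map (mapRingHom i)).ac γ⁻¹)).map (D.xv i m) ⊔ Ideal.span {v}) ^ m := by
    intro γ
    refine le_antisymm ?_ ?_
    · have h1 := congrArg (Ideal.map (D.xv i m))
        (g5_key (D.map (mapRingHom i)) P hP X hπ hres γ m hm)
      rw [Ideal.map_sup, Ideal.map_span, Set.image_singleton, Ideal.map_pow] at h1
      refine h1.le.trans (sup_le ?_ ?_)
      · rw [Ideal.span_singleton_le_iff_mem, hvm]
        exact Ideal.pow_mem_pow (Ideal.mem_sup_right (Ideal.mem_span_singleton_self _)) m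
      · exact Ideal.pow_right_mono le_sup_left m
    · refine g5_pow_le _ v m ?_
      rw [← hvm]
      exact Ideal.mem_map_of_mem _ (hxP γ)
  refine ⟨∏ γ, ((P.comap ((D.map (mapRingHom i)).ac γ⁻¹)).map (D.xv i m) ⊔
    Ideal.span {v}) ^ (c γ), ?_⟩
  have h1 := congrArg (Ideal.map (D.xv i m)) hf
  rw [Ideal.map_span, Set.image_singleton] at h1
  rw [h1]
  have h2 : Ideal.map (D.xv i m) (∏ γ, (P.comap ((D.map (mapRingHom i)).ac γ⁻¹)) ^ (c γ)) =
      ∏ γ, (Ideal.map (D.xv i m) (P.comap ((D.map (mapRingHom i)).ac γ⁻¹))) ^ (c γ) := by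
    have h3 := map_prod (Ideal.mapHom (D.xv i m))
      (fun γ => (P.comap ((D.map (mapRingHom i)).ac γ⁻¹)) ^ (c γ)) Finset.univ
    simp only [map_pow] at h3
    exact h3
  rw [h2, ← Finset.prod_pow]
  refine Finset.prod_congr rfl fun γ _ => ?_
  conv_lhs => rw [hJ γ]
  rw [← pow_mul, ← pow_mul, mul_comm]

end Pool.Agent.QPC
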