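import Mathlib
import Pool.Agent.QPC.Defs
import Pool.Agent.QPC.Defs2
import Pool.Agent.QPC.G5

/-!
# QPC row G6: NT1 (independence on the v-line)
Plan. `S := D.Sv i m` (a domain, `G5a`), `O := D.Sx i`, `φ := D.xv i m`, `v := algebraMap X`. Let `a^ℓ * Xn ν (φ f) = h^ℓ`, `a ≠ 0`. `Xn ν (φ f) = φ (Xn ν f)` (`GD.hom_ac`). The ring automorphism `μ` of `S`: coordinatewise `v ↦ ζ v` (it fixes `φ(O)` and `v^m`; it is `D.hom _ _ (X ↦ ζ X)`); it has order dividing `m`.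
Multiply `a` and `h` by `∏_{0<j<m} μ^j(a)`: we may assume `a = ∏ μ^j(a')` fixed by `μ`, so `a = φ(a0)` (`G5c`: `μ` multiplies the component `v^j φ(w_j)` by `ζ^j`, `ζ^j ≠ 1` for `0 < j < m`). `μ(h)^ℓ = h^ℓ` so `μ h = ε h` with `ε^ℓ = 1` (domain; `h ≠ 0` since `f ≠ 0`; if `h = 0` then `Xn ν f = 0`, contradiction with `hNT` for `j=0,h=0,a=1`),
`ε` constant: `ε = ζ^j0` for some `j0 < m` (`ζ` primitive `m`-th root, `ℓ ∣ m`; the `ℓ`-th roots of unity of the field `k` are powers of `ζ`; note that the `ℓ`-th roots of unity of the domain `S` are in `k`: there are already `ℓ` of them in `k`). So only the component `j0` of `h` is non-zero: `h = v^j0 φ(h0)`.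
`φ(a0^ℓ Xn ν f) = v^(ℓ j0) φ(h0)^ℓ`, by `G5c` uniqueness `m ∣ ℓ j0` (as the left side has only component 0), `v^(ℓ j0) = φ(X)^(ℓ j0/m)`; `φ` is injective: contradicts `hNT`.
-/

set_option autoImplicit false

namespace Pool.Agent.QPC

open Polynomial

variable {n : ℕ} {Γ : Type} [Group Γ] [Fintype Γ] [DecidableEq Γ]

/-- the substitution `v ↦ ζ v` -/
noncomputable def g6_g {k : Type} [Field k] (ζ : k) : k[X] →+* k[X] :=
  Polynomial.eval₂RingHom C (C ζ * X)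

theorem g6_g_C {k : Type} [Field k] (ζ c : k) : g6_g ζ (C c) = C c := by
  simp [g6_g]

theorem g6_g_X {k : Type} [Field k] (ζ : k) : g6_g ζ X = C ζ * X := by
  simp [g6_g]

theorem g6_comp {k₀ k : Type} [CommRing k₀] [Field k] (i : k₀ →+* k) (ζ : k) (m : ℕ)
    (h : ζ ^ m = 1) : (g6_g ζ).comp (vt i m) = vt i m := by
  refine Polynomial.ringHom_ext (fun a => ?_) ?_
  · simp [vt, g6_g_C]
  · simp only [vt, RingHom.comp_apply, coe_eval₂RingHom, eval₂_X, map_pow, g6_g_X]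
    rw [mul_pow, ← C_pow, h, C_1, one_mul]

theorem g6_ex {k : Type} [Field k] (ζ : k) (m : ℕ) (h : ζ ^ m = 1) :
    (g6_g ζ).comp (ex k m) = ex k m := by
  refine Polynomial.ringHom_ext (fun a => ?_) ?_
  · simp [ex, g6_g_C]
  · simp only [ex, RingHom.comp_apply, coe_eval₂RingHom, eval₂_X, map_pow, g6_g_X]
    rw [mul_pow, ← C_pow, h, C_1, one_mul]

section

variable {k₀ k : Type} [CommRing k₀] [Field k] (i : k₀ →+* k) (D : GD k₀[X] n Γ) (m : ℕ)

/-- the automorphism `v ↦ ζ v` -/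
noncomputable def g6_mu (ζ : k) (h : ζ ^ m = 1) : D.Sv i m →+* D.Sv i m :=
  D.hom (vt i m) (vt i m) (g6_g ζ) (g6_comp i ζ m h)

theorem g6_mu_phi (ζ : k) (h : ζ ^ m = 1) (w : D.Sx i) :
    g6_mu i D m ζ h (D.xv i m w) = D.xv i m w := by
  refine Tab.ext' fun l => ?_
  change g6_g ζ (ex k m (w.co l)) = ex k m (w.co l)
  rw [← RingHom.comp_apply, g6_ex ζ m h]

theorem g6_mu_alg (ζ : k) (h : ζ ^ m = 1) (P : k[X]) :
    g6_mu i D m ζ h (algebraMap k[X] (D.Sv i m) P) = algebraMap k[X] (D.Sv i m) (g6_g ζ P) := by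
  rw [Algebra.algebraMap_eq_smul_one, Algebra.algebraMap_eq_smul_one, g6_mu, D.hom_smul, map_one]

theorem g6_phi_alg (P : k[X]) : D.xv i m (algebraMap k[X] (D.Sx i) P) =
    algebraMap k[X] (D.Sv i m) (ex k m P) := by
  rw [Algebra.algebraMap_eq_smul_one, Algebra.algebraMap_eq_smul_one, GD.xv, D.hom_smul, map_one]

theorem g6_phi_C (c : k) : D.xv i m (algebraMap k[X] (D.Sx i) (C c)) =
    algebraMap k[X] (D.Sv i m) (C c) := by
  rw [g6_phi_alg]
  congr 1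
  simp [ex]

theorem g6_phi_X : D.xv i m (algebraMap k[X] (D.Sx i) X) =
    algebraMap k[X] (D.Sv i m) X ^ m := by
  rw [g6_phi_alg, ← map_pow]
  congr 1
  simp [ex]

theorem g6_phi_Xn {ℓ : ℕ} (ν : Γ → ZMod ℓ) (f : D.Sx i) :
    GD.Xn ν (D.xv i m f) = D.xv i m (GD.Xn ν f) := by
  unfold GD.Xn
  rw [map_prod]
  refine Finset.prod_congr rfl fun γ _ => ?_
  rw [map_pow, GD.xv, D.hom_ac]

/-- an eigenvector of `μ` has one component -/
theorem g6_eig (hm : 0 < m) (hdom : IsDomain (D.Sx i)) (ζ : k) (hζ : IsPrimitiveRoot ζ m)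
    (j0 : ℕ) (hj0 : j0 < m) (u : D.Sv i m)
    (hu : g6_mu i D m ζ hζ.pow_eq_one u = algebraMap k[X] (D.Sv i m) (C (ζ ^ j0)) * u) :
    ∃ w : D.Sx i, u = algebraMap k[X] (D.Sv i m) X ^ j0 * D.xv i m w := by
  obtain ⟨w, hw, -⟩ := G5c i D m hm u
  have huniq := (G5c i D m hm (g6_mu i D m ζ hζ.pow_eq_one u)).unique
    (y₁ := fun j => algebraMap k[X] (D.Sx i) (C (ζ ^ (j : ℕ))) * w j)
    (y₂ := fun j => algebraMap k[X] (D.Sx i) (C (ζ ^ j0)) * w j)
    (by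
      change g6_mu i D m ζ hζ.pow_eq_one u = ∑ j : Fin m, _
      conv_lhs => rw [hw]
      rw [map_sum]
      refine Finset.sum_congr rfl fun j _ => ?_
      rw [map_mul, map_pow, g6_mu_alg, g6_mu_phi, g6_g_X, map_mul, map_mul, g6_phi_C, C_pow,
        map_pow, mul_pow]
      ring)
    (by
      change g6_mu i D m ζ hζ.pow_eq_one u = ∑ j : Fin m, _
      rw [hu]
      conv_lhs => rw [hw]
      rw [Finset.mul_sum]
      refine Finset.sum_congr rfl fun j _ => ?_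
      rw [map_mul, g6_phi_C]
      ring)
  refine ⟨w ⟨j0, hj0⟩, ?_⟩
  have hz : ∀ j : Fin m, j ≠ ⟨j0, hj0⟩ → w j = 0 := by
    intro j hj
    have h1 : algebraMap k[X] (D.Sx i) (C (ζ ^ (j : ℕ))) * w j =
      algebraMap k[X] (D.Sx i) (C (ζ ^ j0)) * w j := congrFun huniq j
    have h2 : algebraMap k[X] (D.Sx i) (C (ζ ^ (j : ℕ) - ζ ^ j0)) * w j = 0 := by
      rw [C_sub, map_sub, sub_mul, h1, sub_self]
    rcases mul_eq_zero.1 h2 with h3 | h3
    · exfalso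
      have h4 : ζ ^ (j : ℕ) - ζ ^ j0 ≠ 0 := by
        intro h5
        exact hj (Fin.ext (hζ.pow_inj j.2 hj0 (sub_eq_zero.1 h5)))
      have h6 : IsUnit (algebraMap k[X] (D.Sx i) (C (ζ ^ (j : ℕ) - ζ ^ j0))) :=
        (Polynomial.isUnit_C.2 (isUnit_iff_ne_zero.2 h4)).map _
      exact h6.ne_zero h3
    · exact h3
  rw [hw, Finset.sum_eq_single ⟨j0, hj0⟩]
  · intro j _ hj
    rw [hz j hj, map_zero, mul_zero]
  · intro h
    exact absurd (Finset.mem_univ _) h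

theorem g6_phi_inj (hm : 0 < m) : Function.Injective (D.xv i m) := by
  intro a b hab
  refine Tab.ext' fun l => ?_
  have h1 : ex k m (a.co l) = ex k m (b.co l) := congrArg (fun x : D.Sv i m => x.co l) hab
  have h2 : ∀ P : k[X], ex k m P = expand k m P := by
    intro P
    rw [ex, coe_eval₂RingHom, expand_eq_comp_X_pow, comp]
  rw [h2, h2] at h1
  exact expand_injective hm h1

theorem g6_iter (ζ : k) (h : ζ ^ m = 1) (r : ℕ) (a : D.Sv i m) :
    (g6_mu i D m ζ h)^[r] a = g6_mu i D m (ζ ^ r) (by rw [← pow_mul, mul_comm, pow_mul, h, one_pow])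
      a := by
  induction r with
  | zero =>
    refine Tab.ext' fun l => ?_
    change a.co l = g6_g (ζ ^ 0) (a.co l)
    have : g6_g (ζ ^ 0 : k) = RingHom.id _ := by
      refine Polynomial.ringHom_ext (fun c => ?_) ?_
      · simp [g6_g_C]
      · simp [g6_g_X]
    rw [this]
    rfl
  | succ r ih =>
    rw [Function.iterate_succ', Function.comp_apply, ih]
    refine Tab.ext' fun l => ?_
    change g6_g ζ (g6_g (ζ ^ r) (a.co l)) = g6_g (ζ ^ (r + 1)) (a.co l)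
    have : (g6_g ζ).comp (g6_g (ζ ^ r)) = g6_g (ζ ^ (r + 1)) := by
      refine Polynomial.ringHom_ext (fun c => ?_) ?_
      · simp [g6_g_C]
      · rw [RingHom.comp_apply, g6_g_X, map_mul, g6_g_C, g6_g_X, g6_g_X, pow_succ, C_mul]
        ring
    rw [← this]
    rfl

end

theorem g6_main {k₀ k : Type} [CommRing k₀] [Field k] [IsAlgClosed k] (i : k₀ →+* k)
    (D : GD k₀[X] n Γ) (hdom : IsDomain (D.Sx i)) (ℓ e' m : ℕ) [Fact ℓ.Prime]
    (hm : m = ℓ ^ e' * ℓ) (ζ : k)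
    (hζ : IsPrimitiveRoot ζ m) (f : D.Sx i)
    (hNT : ∀ ν : Γ → ZMod ℓ, (¬ ∃ c, ∀ γ, ν γ = c) → ∀ (j : ℕ) (a h : D.Sx i), a ≠ 0 →
        a ^ ℓ * GD.Xn ν f ≠ algebraMap k[X] (D.Sx i) X ^ j * h ^ ℓ) :
    GD.NT ℓ (D.xv i m f) := by
  intro ν hν a h ha heq
  have hℓ : ℓ.Prime := Fact.out
  have hm0 : 0 < m := by rw [hm]; exact Nat.mul_pos (pow_pos hℓ.pos e') hℓ.pos
  have hdomS : IsDomain (D.Sv i m) := G5a i D hdom m hm0
  have hz1 : ζ ^ m = 1 := hζ.pow_eq_one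
  set μ : D.Sv i m →+* D.Sv i m := g6_mu i D m ζ hz1 with hμ
  -- the norm of `a`
  set N : D.Sv i m := ∏ j ∈ Finset.range m, (μ^[j] a) with hN
  have hμm : μ^[m] a = a := by
    rw [hμ, g6_iter]
    refine Tab.ext' fun l => ?_
    change g6_g (ζ ^ m) (a.co l) = a.co l
    rw [hz1]
    have : g6_g (1 : k) = RingHom.id _ := by
      refine Polynomial.ringHom_ext (fun c => ?_) ?_
      · simp [g6_g_C]
      · simp [g6_g_X]
    rw [this]
    rfl
  have hμinj : ∀ (r : ℕ) (x : D.Sv i m), μ^[r] x = 0 → x = 0 := by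
    intro r x hx
    rw [hμ, g6_iter] at hx
    have hz2 : ζ ^ r ≠ 0 := pow_ne_zero _ (hζ.ne_zero hm0.ne')
    have h1 : ((g6_g (ζ ^ r)⁻¹).comp (g6_g (ζ ^ r)) : k[X] →+* k[X]) = RingHom.id _ := by
      refine Polynomial.ringHom_ext (fun c => ?_) ?_
      · simp [g6_g_C]
      · rw [RingHom.comp_apply, g6_g_X, map_mul, g6_g_C, g6_g_X, ← mul_assoc, ← C_mul,
          mul_inv_cancel₀ hz2, C_1, one_mul]
        rfl
    refine Tab.ext' fun l => ?_
    have h2 : g6_g (ζ ^ r) (x.co l) = 0 := congrArg (fun y : D.Sv i m => y.co l) hx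
    have h3 := congrArg (fun q : k[X] →+* k[X] => q (x.co l)) h1
    simp only [RingHom.comp_apply, RingHom.id_apply] at h3
    rw [← h3, h2, map_zero]
    rfl
  have hN0 : N ≠ 0 := by
    rw [hN, Finset.prod_ne_zero_iff]
    intro j _ hj
    exact ha (hμinj j a hj)
  have hμN : μ N = N := by
    rw [hN, map_prod]
    have h1 : ∀ j, μ (μ^[j] a) = μ^[j + 1] a := fun j => by rw [Function.iterate_succ_apply']
    rw [Finset.prod_congr rfl fun j _ => h1 j]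
    obtain ⟨m', hm'⟩ : ∃ m', m = m' + 1 := ⟨m - 1, by omega⟩
    have hr : Finset.range m = Finset.range (m' + 1) := by rw [hm']
    have hμm' : μ^[m' + 1] a = a := by rw [← hm']; exact hμm
    rw [hr, Finset.prod_range_succ, Finset.prod_range_succ', hμm']
    rfl
  obtain ⟨T, hT⟩ : ∃ T, N = a * T := by
    obtain ⟨m', hm'⟩ : ∃ m', m = m' + 1 := ⟨m - 1, by omega⟩
    refine ⟨∏ j ∈ Finset.range m', (μ^[j + 1] a), ?_⟩
    have hr : Finset.range m = Finset.range (m' + 1) := by rw [hm']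
    rw [hN, hr, Finset.prod_range_succ', mul_comm]
    rfl
  obtain ⟨a0, ha0⟩ := g6_eig i D m hm0 hdom ζ hζ 0 hm0 N (by
    rw [← hμ, hμN, pow_zero, C_1, map_one, one_mul])
  rw [pow_zero, one_mul] at ha0
  have ha00 : a0 ≠ 0 := by
    rintro rfl
    rw [map_zero] at ha0
    exact hN0 ha0
  have heq2 : N ^ ℓ * D.xv i m (GD.Xn ν f) = (T * h) ^ ℓ := by
    rw [← g6_phi_Xn, hT, mul_pow, mul_pow, ← heq]
    ring
  -- `h'` is an eigenvector
  set h' : D.Sv i m := T * h with hh'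
  have hX0 : GD.Xn ν f ≠ 0 := by
    intro h0
    have := hNT ν hν 0 1 0 one_ne_zero
    rw [h0, zero_pow hℓ.ne_zero] at this
    simp at this
  have hh0 : h' ≠ 0 := by
    intro h0
    rw [h0, zero_pow hℓ.ne_zero] at heq2
    rcases mul_eq_zero.1 heq2 with h1 | h1
    · exact hN0 (pow_eq_zero_iff hℓ.ne_zero |>.1 h1)
    · exact hX0 (g6_phi_inj i D m hm0 (by rw [h1, map_zero]))
  have hμh : (μ h') ^ ℓ = h' ^ ℓ := by
    rw [← map_pow, ← heq2, map_mul, map_pow, hμN, hμ, g6_mu_phi]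
  have hη : IsPrimitiveRoot (ζ ^ ℓ ^ e') ℓ := by
    exact hζ.pow hm0 hm
  have hinj : Function.Injective ((algebraMap k[X] (D.Sv i m)).comp C : k →+* D.Sv i m) :=
    RingHom.injective _
  have hηS := hη.map_of_injective (f := ((algebraMap k[X] (D.Sv i m)).comp C : k →+* D.Sv i m)) hinj
  have hprod := hηS.pow_sub_pow_eq_prod_sub_mul (x := μ h') (y := h') hℓ.pos
  rw [hμh, sub_self] at hprod
  obtain ⟨c, hc, hc2⟩ := Finset.prod_eq_zero_iff.1 hprod.symm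
  rw [Polynomial.mem_nthRootsFinset hℓ.pos] at hc
  obtain ⟨r, hr, hrc⟩ := hηS.eq_pow_of_pow_eq_one hc
  have hj0 : ℓ ^ e' * r < m := by
    rw [hm]
    exact Nat.mul_lt_mul_of_pos_left hr (pow_pos hℓ.pos e')
  obtain ⟨h0, hh0'⟩ := g6_eig i D m hm0 hdom ζ hζ (ℓ ^ e' * r) hj0 h' (by
    rw [← hμ, sub_eq_zero.1 hc2, ← hrc, ← map_pow, ← pow_mul]
    rfl)
  refine hNT ν hν r a0 h0 ha00 (g6_phi_inj i D m hm0 ?_)
  rw [map_mul, map_mul, map_pow, map_pow, map_pow, ← ha0, heq2, hh0', mul_pow, g6_phi_X, ← pow_mul,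
    ← pow_mul]
  congr 2
  rw [hm]
  ring

theorem G6 {k₀ k : Type} [CommRing k₀] [Field k] [IsAlgClosed k] (i : k₀ →+* k)
    (D : GD k₀[X] n Γ) (hdom : IsDomain (D.Sx i)) (ℓ e : ℕ) [Fact ℓ.Prime] (he : 0 < e) (ζ : k)
    (hζ : IsPrimitiveRoot ζ (ℓ ^ e)) (f : D.Sx i)
    (hNT : ∀ ν : Γ → ZMod ℓ, (¬ ∃ c, ∀ γ, ν γ = c) → ∀ (j : ℕ) (a h : D.Sx i), a ≠ 0 →
        a ^ ℓ * GD.Xn ν f ≠ algebraMap k[X] (D.Sx i) X ^ j * h ^ ℓ) :
    GD.NT ℓ (D.xv i (ℓ ^ e) f) := by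
  obtain ⟨e', rfl⟩ : ∃ e', e = e' + 1 := ⟨e - 1, by omega⟩
  exact g6_main i D hdom ℓ e' (ℓ ^ (e' + 1)) (pow_succ ℓ e') ζ hζ f hNT

end Pool.Agent.QPC
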