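import Mathlib
import Pool.Agent.QPC.Defs
import Pool.Agent.QPC.Defs2
import Pool.Agent.QPC.G1

/-!
# QPC row I1: the semilocal ring at infinity
`S := D.S` domain over `k[v]` (`k[X]`), `k` algebraically closed; `Aw = k[w]_(w)` (a discrete valuation ring with uniformizer `w = wF`, residue field `k`), `Ow` = integral closure of `Aw` in `FractionRing S`. See QPC.Defs2 (section infinity).
Plan. `FractionRing S` is a finite separable (Galois, group `Γ`: `Γ` acts faithfully by `CHR`, the fixed field is `Frac k[v]`, argument in row G1) extension of `k(v) = Frac(Aw)`. So `Ow` is a Dedekind domain (`integralClosure.isDedekindDomain`), finite over the local ring `Aw`, so semilocal, so a PID (`IsPrincipalIdealRing.of_finite_maximals` or similar).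
Every maximal ideal contains `w` (lying over the maximal ideal of `Aw`); residue fields are finite over `k`, so equal to `k`. `Ow` is stable under the extension of `D.ac γ` (not needed here).
Lattice. `I1b`: let `y ∈ Ow` and `y d = s`. Coordinates: `s = ∑ Tr(Y_t s) X_t`, `Tr(Y_t s)/d = Tr(Y_t y)`; there is `c` with `w^c Y_t ∈ Ow` for all `t` (any element of `FractionRing S` becomes integral over `Aw` after multiplication by a power of `w`: clear denominators in an algebraic equation over `Frac Aw`), so `w^c Tr(Y_t y) ∈ Ow ∩ k(v) = Aw`; an element `P/Q` of `k(v)` with `w^c P/Q ∈ Aw` has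
`natDegree P ≤ natDegree Q + c`. `I1c`: choose `c1` such that `w^c1 η_l ∈ Ow` for all `l`: `s/d = ∑ (s_l/d) η_l`, `s_l / (d w^c1) ∈ Aw`.
-/

set_option autoImplicit false

namespace Pool.Agent.QPC

open Polynomial

section i1gen

variable {k S : Type} [Field k] [CommRing S] [IsDomain S] [Algebra k[X] S]

/-- The inclusion of `k[v]` in the fraction field. -/
noncomputable def i1_ev (k S : Type) [Field k] [CommRing S] [IsDomain S] [Algebra k[X] S] :
    k[X] →+* FractionRing S :=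
  (algebraMap S (FractionRing S)).comp (algebraMap k[X] S)

theorem i1_ev_inj (h : Function.Injective (algebraMap k[X] S)) :
    Function.Injective (i1_ev k S) :=
  (IsFractionRing.injective S (FractionRing S)).comp h

theorem i1_ev_X : i1_ev k S X = (wF k S)⁻¹ := by
  simp [i1_ev, wF]

theorem i1_ev_ne (h : Function.Injective (algebraMap k[X] S)) {P : k[X]} (hP : P ≠ 0) :
    i1_ev k S P ≠ 0 := fun h0 => hP (i1_ev_inj h (by rw [h0, map_zero]))

theorem i1_w_ne (h : Function.Injective (algebraMap k[X] S)) : wF k S ≠ 0 := by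
  have h1 := i1_ev_ne (S := S) h (X_ne_zero (R := k))
  rw [i1_ev_X] at h1
  exact fun h0 => h1 (by rw [h0, inv_zero])

theorem i1_ev_eq (P : k[X]) : i1_ev k S P = eval₂ (kin k S) (wF k S)⁻¹ P := by
  have h : i1_ev k S = eval₂RingHom (kin k S) (wF k S)⁻¹ := by
    refine Polynomial.ringHom_ext (fun a => ?_) ?_
    · simp [i1_ev, kin]
    · rw [i1_ev_X]; simp
  rw [h]; rfl

theorem i1_evw_eq (P : k[X]) : evw k S P = eval₂ (kin k S) (wF k S) P := rfl

theorem i1_evw_X : evw k S X = wF k S := by simp [evw]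

theorem i1_evw_C (c : k) : evw k S (C c) = kin k S c := by simp [evw]

theorem i1_rev (h : Function.Injective (algebraMap k[X] S)) (P : k[X]) :
    i1_ev k S P * wF k S ^ P.natDegree = evw k S P.reverse := by
  have hw := i1_w_ne (S := S) h
  have hv : (wF k S)⁻¹ ≠ 0 := inv_ne_zero hw
  let _ : Invertible (wF k S)⁻¹ := invertibleOfNonzero hv
  have h1 := eval₂_reverse_mul_pow (kin k S) (wF k S)⁻¹ P
  rw [invOf_eq_inv, inv_inv] at h1
  rw [i1_ev_eq, ← h1, i1_evw_eq, mul_assoc, ← mul_pow, inv_mul_cancel₀ hw, one_pow, mul_one]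

theorem i1_evw_inj (h : Function.Injective (algebraMap k[X] S)) :
    Function.Injective (evw k S) := by
  rw [injective_iff_map_eq_zero]
  intro P hP
  have hw := i1_w_ne (S := S) h
  let _ : Invertible (wF k S) := invertibleOfNonzero hw
  have h1 := eval₂_reverse_eq_zero_iff (kin k S) (wF k S) P
  rw [invOf_eq_inv, ← i1_ev_eq] at h1
  have h2 := h1.mpr hP
  by_contra hne
  exact i1_ev_ne (S := S) h (P := P.reverse) (by simpa using hne) h2

theorem i1_evw_ne (h : Function.Injective (algebraMap k[X] S)) {P : k[X]} (hP : P ≠ 0) :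
    evw k S P ≠ 0 := fun h0 => hP (i1_evw_inj h (by rw [h0, map_zero]))

theorem i1_evw_mem (P : k[X]) : evw k S P ∈ Aw k S := ⟨P, 1, by simp, by simp⟩

theorem i1_w_mem : wF k S ∈ Aw k S := by
  rw [← i1_evw_X]; exact i1_evw_mem X

theorem i1_kin_mem (c : k) : kin k S c ∈ Aw k S := by
  rw [← i1_evw_C]; exact i1_evw_mem (C c)

/-- Membership of quotients. -/
theorem i1_quot_mem (h : Function.Injective (algebraMap k[X] S)) (P Q : k[X]) (hQ : Q ≠ 0)
    (c : ℕ) (hd : P.natDegree ≤ Q.natDegree + c) :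
    wF k S ^ c * (i1_ev k S P / i1_ev k S Q) ∈ Aw k S := by
  have hw := i1_w_ne (S := S) h
  obtain ⟨e, he⟩ := Nat.exists_eq_add_of_le hd
  refine ⟨X ^ e * P.reverse, Q.reverse, ?_, ?_⟩
  · rw [coeff_zero_reverse]; exact leadingCoeff_ne_zero.mpr hQ
  · rw [← i1_rev h, map_mul, ← i1_rev h, map_pow, i1_evw_X]
    have hQ' := i1_ev_ne (S := S) h hQ
    calc wF k S ^ c * (i1_ev k S P / i1_ev k S Q) * (i1_ev k S Q * wF k S ^ Q.natDegree)
        = i1_ev k S P * (wF k S ^ (Q.natDegree + c)) * (i1_ev k S Q / i1_ev k S Q) := by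
          rw [pow_add]; ring
      _ = wF k S ^ e * (i1_ev k S P * wF k S ^ P.natDegree) := by
          rw [he, div_self hQ', mul_one, pow_add]; ring

/-- Degree bound for quotients. -/
theorem i1_quot_deg (h : Function.Injective (algebraMap k[X] S)) (P Q : k[X]) (hP : P ≠ 0)
    (hQ : Q ≠ 0) (c : ℕ) (hm : wF k S ^ c * (i1_ev k S P / i1_ev k S Q) ∈ Aw k S) :
    P.natDegree ≤ Q.natDegree + c := by
  have hw := i1_w_ne (S := S) h
  have hQ' := i1_ev_ne (S := S) h hQ
  obtain ⟨A, B, hB, h1⟩ := hm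
  have h2 : evw k S (X ^ (Q.natDegree + c) * P.reverse * B)
      = evw k S (X ^ P.natDegree * Q.reverse * A) := by
    simp only [map_mul, map_pow, i1_evw_X, ← i1_rev h, ← h1]
    have h3 : i1_ev k S P = i1_ev k S P / i1_ev k S Q * i1_ev k S Q := by
      rw [div_mul_cancel₀ _ hQ']
    rw [pow_add]
    calc wF k S ^ Q.natDegree * wF k S ^ c * (i1_ev k S P * wF k S ^ P.natDegree) * evw k S B
        = wF k S ^ Q.natDegree * wF k S ^ c * ((i1_ev k S P / i1_ev k S Q * i1_ev k S Q) *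
            wF k S ^ P.natDegree) * evw k S B := by rw [← h3]
      _ = _ := by ring
  have h4 := i1_evw_inj h h2
  by_contra hlt
  rw [not_le] at hlt
  obtain ⟨e, he⟩ := Nat.exists_eq_add_of_lt hlt
  rw [he] at h4
  have h5 : X ^ (Q.natDegree + c) * (P.reverse * B)
      = X ^ (Q.natDegree + c) * (X ^ (e + 1) * Q.reverse * A) := by
    rw [← mul_assoc, h4, pow_add, pow_add, pow_one]; ring
  have h6 := mul_left_cancel₀ (pow_ne_zero _ X_ne_zero) h5
  have h7 := congrArg (fun p : k[X] => p.coeff 0) h6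
  simp only [mul_coeff_zero, coeff_zero_reverse, coeff_X_pow] at h7
  have h8 : P.leadingCoeff * B.coeff 0 = 0 := by
    rw [h7]; simp
  exact mul_ne_zero (leadingCoeff_ne_zero.mpr hP) hB h8

/-- Every nonzero element is a power of `w` times a unit. -/
theorem i1_unit (h : Function.Injective (algebraMap k[X] S)) (y : FractionRing S)
    (hy : y ∈ Aw k S) (hy0 : y ≠ 0) :
    ∃ (c : ℕ) (u : FractionRing S), u ∈ Aw k S ∧ u * y = wF k S ^ c := by
  obtain ⟨P, Q, hQ, h1⟩ := hy
  have hQ0 : Q ≠ 0 := fun h0 => hQ (by rw [h0, coeff_zero])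
  have hP0 : P ≠ 0 := by
    rintro rfl
    rw [map_zero] at h1
    rcases mul_eq_zero.mp h1 with h2 | h2
    · exact hy0 h2
    · exact i1_evw_ne h hQ0 h2
  obtain ⟨P', hP'⟩ := exists_eq_pow_rootMultiplicity_mul_and_not_dvd P hP0 0
  rw [C_0, sub_zero] at hP'
  have hc : P'.coeff 0 ≠ 0 := fun h0 => hP'.2 (X_dvd_iff.mpr h0)
  have hne : evw k S P' ≠ 0 := i1_evw_ne h (fun h0 => hc (by rw [h0, coeff_zero]))
  refine ⟨P.rootMultiplicity 0, evw k S Q / evw k S P', ⟨Q, P', hc, div_mul_cancel₀ _ hne⟩, ?_⟩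
  have h2 : evw k S P = wF k S ^ P.rootMultiplicity 0 * evw k S P' := by
    conv_lhs => rw [hP'.1]
    rw [map_mul, map_pow, i1_evw_X]
  rw [div_mul_eq_mul_div, mul_comm, h1, h2, mul_div_assoc, div_self hne, mul_one]

theorem i1_wpow_mem (c : ℕ) : wF k S ^ c ∈ Aw k S := pow_mem i1_w_mem c

/-- Residues. -/
theorem i1_res (h : Function.Injective (algebraMap k[X] S)) (y : FractionRing S)
    (hy : y ∈ Aw k S) : ∃ (c : k) (z : FractionRing S), z ∈ Aw k S ∧ y = kin k S c + wF k S * z := by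
  obtain ⟨P, Q, hQ, h1⟩ := hy
  have hQ0 : Q ≠ 0 := fun h0 => hQ (by rw [h0, coeff_zero])
  have hne := i1_evw_ne h hQ0
  set c := P.coeff 0 / Q.coeff 0 with hc
  have h2 : (P - C c * Q).coeff 0 = 0 := by
    rw [coeff_sub, mul_coeff_zero, coeff_C_zero, hc, div_mul_cancel₀ _ hQ, sub_self]
  obtain ⟨R, hR⟩ := X_dvd_iff.mpr h2
  refine ⟨c, evw k S R / evw k S Q, ⟨R, Q, hQ, div_mul_cancel₀ _ hne⟩, ?_⟩
  have h3 : evw k S P = kin k S c * evw k S Q + wF k S * evw k S R := by
    have h4 : P = C c * Q + X * R := by rw [← hR]; ring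
    rw [h4, map_add, map_mul, map_mul, i1_evw_X, i1_evw_C]
  have h5 : y = evw k S P / evw k S Q := by rw [← h1, mul_div_assoc, div_self hne, mul_one]
  rw [h5, h3, add_div, mul_div_assoc, div_self hne, mul_one, mul_div_assoc]

/-- `w` is not a unit. -/
theorem i1_winv (h : Function.Injective (algebraMap k[X] S)) : (wF k S)⁻¹ ∉ Aw k S := by
  intro h1
  have h2 := i1_quot_deg h X 1 X_ne_zero one_ne_zero 0
    (by rw [pow_zero, one_mul, map_one, div_one, i1_ev_X]; exact h1)
  simp at h2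

/-- The structure map. -/
noncomputable def i1_str (k S : Type) [Field k] [CommRing S] [IsDomain S] [Algebra k[X] S] :
    k[X] →+* Aw k S := (evw k S).codRestrict (Aw k S) i1_evw_mem

/-- `Aw` is a discrete valuation ring. -/
theorem i1_dvr (h : Function.Injective (algebraMap k[X] S)) :
    IsDiscreteValuationRing (Aw k S) := by
  have hpr : (Ideal.span {(X : k[X])}).IsPrime := by
    rw [Ideal.span_singleton_prime X_ne_zero]; exact prime_X
  have hne : (Ideal.span {(X : k[X])}) ≠ ⊥ := by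
    rw [Ne, Ideal.span_singleton_eq_bot]; exact X_ne_zero
  let _ : Algebra k[X] (Aw k S) := (i1_str k S).toAlgebra
  have hmem : ∀ Q : k[X], Q ∈ (Ideal.span {(X : k[X])}).primeCompl ↔ Q.coeff 0 ≠ 0 := by
    intro Q
    rw [Ideal.mem_primeCompl_iff, Ideal.mem_span_singleton, X_dvd_iff]
  have hloc : IsLocalization.AtPrime (Aw k S) (Ideal.span {(X : k[X])}) := by
    refine ⟨⟨?_, ?_, ?_⟩⟩
    · rintro ⟨Q, hQ⟩
      rw [hmem] at hQ
      have hQ0 : Q ≠ 0 := fun h0 => hQ (by rw [h0, coeff_zero])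
      have hne := i1_evw_ne (S := S) h hQ0
      refine IsUnit.of_mul_eq_one (⟨(evw k S Q)⁻¹, 1, Q, hQ, ?_⟩ : Aw k S) ?_
      · rw [inv_mul_cancel₀ hne, map_one]
      · exact Subtype.ext (mul_inv_cancel₀ hne)
    · rintro ⟨y, P, Q, hQ, h1⟩
      exact ⟨(P, ⟨Q, (hmem Q).mpr hQ⟩), Subtype.ext h1⟩
    · intro P Q h1
      have h2 : P = Q := i1_evw_inj h (congrArg Subtype.val h1)
      exact ⟨1, by rw [h2]⟩
  exact IsLocalization.AtPrime.isDiscreteValuationRing_of_dedekind_domain k[X] hne (Aw k S)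

end i1gen

section i1ab

theorem i1_gen {K : Type} [Field K] (A : Subring K) [IsDedekindDomain A] (Γ : Type) [Group Γ]
    [Finite Γ] [MulSemiringAction Γ K] (h1 : ∀ y ∈ A, ∀ g : Γ, g • y = y)
    (h2 : ∀ z : K, (∀ g : Γ, g • z = z) → ∃ a ∈ A, ∃ b ∈ A, z = a / b) :
    IsDedekindDomain (integralClosure A K) ∧ Algebra.IsAlgebraic A K := by
  let _ : Algebra A (FixedPoints.subfield Γ K) :=
    (A.subtype.codRestrict (FixedPoints.subfield Γ K) (fun y g => h1 _ y.2 g)).toAlgebra
  have hst : IsScalarTower A (FixedPoints.subfield Γ K) K := IsScalarTower.of_algebraMap_eq' rfl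
  have hff : FaithfulSMul A (FixedPoints.subfield Γ K) := by
    rw [faithfulSMul_iff_algebraMap_injective]
    intro a b hab
    exact Subtype.ext (congrArg (fun z : FixedPoints.subfield Γ K => (z : K)) hab)
  have hfr : IsFractionRing A (FixedPoints.subfield Γ K) := by
    refine IsFractionRing.of_field _ _ ?_
    rintro ⟨z, hz⟩
    obtain ⟨a, ha, b, hb, hab⟩ := h2 z hz
    exact ⟨⟨a, ha⟩, ⟨b, hb⟩, Subtype.ext hab⟩
  have hfd : FiniteDimensional (FixedPoints.subfield Γ K) K := inferInstance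
  refine ⟨integralClosure.isDedekindDomain A (FixedPoints.subfield Γ K) K, ?_⟩
  exact IsFractionRing.comap_isAlgebraic_iff.mpr
    (inferInstance : Algebra.IsAlgebraic (FixedPoints.subfield Γ K) K)

end i1ab

theorem i1_resid0 {R S k : Type} [CommRing R] [CommRing S] [Algebra R S] [Algebra.IsIntegral R S]
    [Field k] [IsAlgClosed k] (κ : k →+* R) (Q : Ideal S) (hQ : Q.IsPrime)
    (hres : ∀ a : R, ∃ c : k, algebraMap R S (a - κ c) ∈ Q) (y : S) :
    ∃ c : k, y - algebraMap R S (κ c) ∈ Q := by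
  let κO : k →+* S := (algebraMap R S).comp κ
  let φ : k →+* S ⧸ Q := (Ideal.Quotient.mk Q).comp κO
  let ψ : R →+* S ⧸ Q := (Ideal.Quotient.mk Q).comp (algebraMap R S)
  have h1 : ∀ a : R, ∃ c : k, φ c = ψ a := by
    intro a
    obtain ⟨c, hc⟩ := hres a
    refine ⟨c, ?_⟩
    rw [← Ideal.Quotient.eq_zero_iff_mem, map_sub, map_sub, sub_eq_zero] at hc
    exact hc.symm
  have h2 : ψ.IsIntegral := by
    have h3 : (Ideal.Quotient.mk Q).IsIntegral :=
      RingHom.isIntegral_of_surjective _ Ideal.Quotient.mk_surjective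
    have h4 : (algebraMap R S).IsIntegral := algebraMap_isIntegral_iff.mpr inferInstance
    exact RingHom.IsIntegral.trans _ _ h4 h3
  have h5 : φ.IsIntegral := by
    intro x
    obtain ⟨P, hP, hx⟩ := h2 x
    choose f hf using h1
    have hlift : P.map ψ ∈ lifts φ := by
      rw [lifts_iff_coeff_lifts]
      intro m
      rw [coeff_map]
      exact ⟨f (P.coeff m), hf _⟩
    obtain ⟨R, hR, -, hRm⟩ := lifts_and_degree_eq_and_monic hlift (hP.map ψ)
    refine ⟨R, hRm, ?_⟩
    rw [← eval_map, hR, eval_map]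
    exact hx
  have hdom : IsDomain (S ⧸ Q) := Ideal.Quotient.isDomain Q
  obtain ⟨c, hc⟩ := (IsAlgClosed.ringHom_bijective_of_isIntegral φ h5).2 (Ideal.Quotient.mk Q y)
  refine ⟨c, ?_⟩
  rw [← Ideal.Quotient.eq_zero_iff_mem, map_sub, ← hc]
  exact sub_self _

section i1ab2

variable {K : Type} [Field K] (A : Subring K)

theorem i1_mem_max [IsLocalRing A] (w : K) (hw : w ∈ A) (hwi : w⁻¹ ∉ A)
    (Q : Ideal (integralClosure A K)) (hQ : Q.IsMaximal) (y : integralClosure A K)
    (hy : (y : K) = w) : y ∈ Q := by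
  have h1 : (Q.comap (algebraMap A (integralClosure A K))).IsMaximal :=
    Ideal.isMaximal_comap_of_isIntegral_of_isMaximal Q
  have h2 : (⟨w, hw⟩ : A) ∈ IsLocalRing.maximalIdeal A := by
    rw [IsLocalRing.mem_maximalIdeal, mem_nonunits_iff]
    intro hu
    obtain ⟨b, hb⟩ := hu.exists_right_inv
    have h3 : w * (b : K) = 1 := congrArg Subtype.val hb
    exact hwi (by rw [inv_eq_of_mul_eq_one_right h3]; exact b.2)
  rw [← IsLocalRing.eq_maximalIdeal h1, Ideal.mem_comap] at h2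
  have h4 : algebraMap A (integralClosure A K) ⟨w, hw⟩ = y := Subtype.ext hy.symm
  rwa [h4] at h2

theorem i1_fin_max [IsLocalRing A] (hD : IsDedekindDomain (integralClosure A K)) (w : K)
    (hw : w ∈ A) (hw0 : w ≠ 0) (hwi : w⁻¹ ∉ A) :
    {Q : Ideal (integralClosure A K) | Q.IsMaximal}.Finite := by
  set y : integralClosure A K := algebraMap A (integralClosure A K) ⟨w, hw⟩ with hy
  have hyw : (y : K) = w := rfl
  have hy0 : y ≠ 0 := fun h => hw0 (by rw [← hyw, h]; rfl)
  have hI : Ideal.span {y} ≠ 0 := by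
    rw [Ne, Ideal.zero_eq_bot, Ideal.span_singleton_eq_bot]; exact hy0
  refine ((Ideal.finite_factors hI).image (fun v => v.asIdeal)).subset ?_
  intro Q hQ
  have hyQ := i1_mem_max A w hw hwi Q hQ y hyw
  refine ⟨⟨Q, hQ.isPrime, fun h0 => hy0 (by rw [h0] at hyQ; simpa using hyQ)⟩, ?_, rfl⟩
  change Q ∣ Ideal.span {y}
  rw [Ideal.dvd_span_singleton]
  exact hyQ

theorem i1_resid [IsLocalRing A] {k : Type} [Field k] [IsAlgClosed k] (κ : k →+* K) (w : K)
    (hw : w ∈ A) (hwi : w⁻¹ ∉ A) (hκ : ∀ c, κ c ∈ A)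
    (hres : ∀ y ∈ A, ∃ (c : k) (z : K), z ∈ A ∧ y = κ c + w * z)
    (Q : Ideal (integralClosure A K)) (hQ : Q.IsMaximal) (y : integralClosure A K) :
    ∃ (c : k) (z : integralClosure A K), (z : K) = y - κ c ∧ z ∈ Q := by
  let κ' : k →+* A := κ.codRestrict A hκ
  obtain ⟨c, hc⟩ := i1_resid0 (R := A) (S := integralClosure A K) κ' Q hQ.isPrime (by
    intro a
    obtain ⟨c, z, hz, h2⟩ := hres a a.2
    refine ⟨c, ?_⟩
    have h3 : a - κ' c = ⟨w, hw⟩ * ⟨z, hz⟩ := by
      rw [sub_eq_iff_eq_add, add_comm]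
      exact Subtype.ext h2
    rw [h3, map_mul]
    exact Ideal.mul_mem_right _ _ (i1_mem_max A w hw hwi Q hQ _ rfl)) y
  exact ⟨c, _, rfl, hc⟩

theorem i1_semi [IsLocalRing A] (hD : IsDedekindDomain (integralClosure A K)) {k : Type} [Field k]
    [IsAlgClosed k] (κ : k →+* K) (w : K)
    (hw : w ∈ A) (hw0 : w ≠ 0) (hwi : w⁻¹ ∉ A) (hκ : ∀ c, κ c ∈ A)
    (hres : ∀ y ∈ A, ∃ (c : k) (z : K), z ∈ A ∧ y = κ c + w * z) :
    IsPrincipalIdealRing (integralClosure A K).toSubring ∧
    {Q : Ideal (integralClosure A K).toSubring | Q.IsMaximal}.Finite ∧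
      (∀ Q : Ideal (integralClosure A K).toSubring, Q.IsMaximal →
        ∀ y : (integralClosure A K).toSubring, (y : K) = w → y ∈ Q) ∧
      ∀ Q : Ideal (integralClosure A K).toSubring, Q.IsMaximal →
        ∀ y : (integralClosure A K).toSubring, ∃ (c : k) (z : (integralClosure A K).toSubring),
        (z : K) = y - κ c ∧ z ∈ Q := by
  refine ⟨?_, i1_fin_max A hD w hw hw0 hwi, i1_mem_max A w hw hwi,
    i1_resid A κ w hw hwi hκ hres⟩
  exact IsPrincipalIdealRing.of_finite_maximals (R := integralClosure A K)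
    (i1_fin_max A hD w hw hw0 hwi)

end i1ab2

section i1abc

variable {K : Type} [Field K] (A : Subring K)

theorem i1_ic [IsIntegrallyClosed A] (z a b : K) (ha : a ∈ A) (hb : b ∈ A)
    (hz : z = a / b) (hi : IsIntegral A z) : z ∈ A := by
  let _ := FractionRing.liftAlgebra A K
  have h1 : algebraMap (FractionRing A) K (algebraMap A _ ⟨a, ha⟩ / algebraMap A _ ⟨b, hb⟩)
      = z := by
    rw [map_div₀, ← IsScalarTower.algebraMap_apply, ← IsScalarTower.algebraMap_apply]
    exact hz.symm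
  rw [← h1, isIntegral_algebraMap_iff (algebraMap (FractionRing A) K).injective,
    IsIntegrallyClosed.isIntegral_iff] at hi
  obtain ⟨y, hy⟩ := hi
  rw [← hy, ← IsScalarTower.algebraMap_apply] at h1
  rw [← h1]
  exact y.2

theorem i1_stab (σ : K →+* K) (hσ : ∀ y ∈ A, σ y = y) (z : K) (hz : IsIntegral A z) :
    IsIntegral A (σ z) := by
  obtain ⟨P, hP, h⟩ := hz
  refine ⟨P, hP, ?_⟩
  have h1 := Polynomial.hom_eval₂ P (algebraMap A K) σ z
  have h2 : σ.comp (algebraMap A K) = algebraMap A K := RingHom.ext fun y => hσ _ y.2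
  rw [h2, h, map_zero] at h1
  exact h1.symm

theorem i1_mult [halg : Algebra.IsAlgebraic A K] (z : K) :
    ∃ y ∈ A, y ≠ 0 ∧ IsIntegral A (y * z) := by
  obtain ⟨y, hy, hi⟩ := (halg.isAlgebraic z).exists_integral_multiple
  exact ⟨y, y.2, fun h0 => hy (Subtype.ext h0), hi⟩

theorem i1_intA (u : K) (hu : u ∈ A) : IsIntegral A u :=
  isIntegral_algebraMap (R := A) (x := ⟨u, hu⟩)

end i1abc

section i1D

variable {n : ℕ} {Γ : Type} [Group Γ] [Fintype Γ] [DecidableEq Γ]

variable {k : Type} [Field k]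

/-- The action on `S`. -/
@[instance_reducible] noncomputable def i1_act (D : GD k[X] n Γ) : MulSemiringAction Γ D.S where
  smul := fun g x => D.ac g x
  one_smul := fun x => D.ac_one x
  mul_smul := fun g h x => D.ac_mul g h x
  smul_zero := fun _ => map_zero _
  smul_add := fun _ x y => map_add _ x y
  smul_one := fun _ => map_one _
  smul_mul := fun _ x y => map_mul _ x y

theorem i1_gal (D : GD k[X] n Γ) [IsDomain D.S] :
    @IsGaloisGroup Γ k[X] D.S _ _ _ _ (i1_act D) := by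
  let _ := i1_act D
  refine ⟨⟨?_⟩, ⟨?_⟩, ⟨?_⟩⟩
  · intro g h hgh
    by_contra hne
    have h1 := D.CHR (g⁻¹ * h)
    rw [if_neg (fun h0 => hne (by rw [inv_mul_eq_one] at h0; exact h0))] at h1
    have h2 : ∀ t, D.ac (g⁻¹ * h) (D.Y t) = D.ac 1 (D.Y t) := by
      intro t
      rw [D.ac_mul]
      have h3 : D.ac h (D.Y t) = D.ac g (D.Y t) := (hgh (D.Y t)).symm
      rw [h3, ← D.ac_mul, inv_mul_cancel]
    simp only [h2] at h1
    rw [D.CHR 1, if_pos rfl] at h1
    exact one_ne_zero h1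
  · intro g a x
    exact D.ac_smul g a x
  · intro x hx
    exact ⟨_, (D.inv x hx).symm⟩

/-- The action on the fraction field. -/
@[instance_reducible] noncomputable def i1_actK (D : GD k[X] n Γ) [IsDomain D.S] :
    MulSemiringAction Γ (FractionRing D.S) :=
  letI := i1_act D
  IsFractionRing.mulSemiringAction Γ D.S (FractionRing D.S)

theorem i1_actK_map (D : GD k[X] n Γ) [IsDomain D.S] (g : Γ) (x : D.S) :
    (i1_actK D).smul g (algebraMap D.S (FractionRing D.S) x) =
      algebraMap D.S (FractionRing D.S) (D.ac g x) := by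
  let _ := i1_act D
  let _ := i1_actK D
  exact (algebraMap.coe_smul' g x (FractionRing D.S)).symm

theorem i1_fix (D : GD k[X] n Γ) [IsDomain D.S] (z : FractionRing D.S)
    (hz : ∀ g : Γ, (i1_actK D).smul g z = z) :
    ∃ P Q : k[X], Q ≠ 0 ∧ z = i1_ev k D.S P / i1_ev k D.S Q := by
  let _ := i1_act D
  let _ := i1_actK D
  have hinj := i1_ev_inj (G1c D)
  have hf : FaithfulSMul k[X] (FractionRing D.S) := by
    rw [faithfulSMul_iff_algebraMap_injective]
    exact hinj
  let _ := FractionRing.liftAlgebra k[X] (FractionRing D.S)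
  have hg := i1_gal D
  have hG := IsGaloisGroup.to_isFractionRing Γ k[X] D.S (FractionRing k[X]) (FractionRing D.S)
  obtain ⟨a, ha⟩ := hG.isInvariant.isInvariant z hz
  obtain ⟨P, Q, hQ, hPQ⟩ := IsFractionRing.div_surjective k[X] a
  refine ⟨P, Q, nonZeroDivisors.ne_zero hQ, ?_⟩
  rw [← ha, ← hPQ, map_div₀, ← IsScalarTower.algebraMap_apply, ← IsScalarTower.algebraMap_apply]
  rfl

theorem i1_actK_ev (D : GD k[X] n Γ) [IsDomain D.S] (g : Γ) (P : k[X]) :
    (i1_actK D).smul g (i1_ev k D.S P) = i1_ev k D.S P := by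
  have h1 := i1_actK_map D g (algebraMap k[X] D.S P)
  have h2 : D.ac g (algebraMap k[X] D.S P) = algebraMap k[X] D.S P := by
    rw [Algebra.algebraMap_eq_smul_one, D.ac_smul, map_one]
  rw [h2] at h1
  exact h1

theorem i1_actK_evw (D : GD k[X] n Γ) [IsDomain D.S] (g : Γ) (P : k[X]) :
    (i1_actK D).smul g (evw k D.S P) = evw k D.S P := by
  let _ := i1_actK D
  have h1 : (MulSemiringAction.toRingHom Γ (FractionRing D.S) g).comp (evw k D.S)
      = evw k D.S := by
    refine Polynomial.ringHom_ext (fun a => ?_) ?_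
    · have h2 := i1_actK_ev D g (C a)
      rw [RingHom.comp_apply, i1_evw_C]
      exact h2
    · have h2 := i1_actK_ev D g X
      rw [RingHom.comp_apply, i1_evw_X]
      rw [i1_ev_X] at h2
      have h3 : (MulSemiringAction.toRingHom Γ (FractionRing D.S) g) (wF k D.S)⁻¹
        = (wF k D.S)⁻¹ := h2
      rw [map_inv₀, inv_inj] at h3
      exact h3
  exact congrArg (fun f : k[X] →+* FractionRing D.S => f P) h1

theorem i1_actK_Aw (D : GD k[X] n Γ) [IsDomain D.S] (g : Γ) (y : FractionRing D.S)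
    (hy : y ∈ Aw k D.S) : (i1_actK D).smul g y = y := by
  let _ := i1_actK D
  obtain ⟨P, Q, hQ, h1⟩ := hy
  have hQ0 : Q ≠ 0 := fun h0 => hQ (by rw [h0, coeff_zero])
  have hne := i1_evw_ne (S := D.S) (G1c D) hQ0
  have h5 : y = evw k D.S P / evw k D.S Q := by rw [← h1, mul_div_assoc, div_self hne, mul_one]
  have h6 : (MulSemiringAction.toRingHom Γ (FractionRing D.S) g) y = y := by
    rw [h5, map_div₀]
    have h7 : ∀ P : k[X], (MulSemiringAction.toRingHom Γ (FractionRing D.S) g) (evw k D.S P)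
      = evw k D.S P := fun P => i1_actK_evw D g P
    rw [h7, h7]
  exact h6

theorem i1_ded (D : GD k[X] n Γ) [IsDomain D.S] :
    IsDedekindDomain (integralClosure (Aw k D.S) (FractionRing D.S)) ∧
    Algebra.IsAlgebraic (Aw k D.S) (FractionRing D.S) := by
  let _ := i1_actK D
  have hdvr := i1_dvr (S := D.S) (G1c D)
  refine i1_gen (K := FractionRing D.S) (Aw k D.S) Γ (fun y hy g => i1_actK_Aw D g y hy) ?_
  intro z hz
  obtain ⟨P, Q, hQ, hPQ⟩ := i1_fix D z hz
  have h1 := i1_quot_mem (S := D.S) (G1c D) P 1 one_ne_zero (P.natDegree + Q.natDegree)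
    (by omega)
  have h2 := i1_quot_mem (S := D.S) (G1c D) Q 1 one_ne_zero (P.natDegree + Q.natDegree)
    (by omega)
  rw [map_one, div_one] at h1 h2
  refine ⟨_, h1, _, h2, ?_⟩
  have hw := pow_ne_zero (P.natDegree + Q.natDegree) (i1_w_ne (S := D.S) (G1c D))
  rw [mul_div_mul_left _ _ hw]; exact hPQ

end i1D

variable {n : ℕ} {Γ : Type} [Group Γ] [Fintype Γ] [DecidableEq Γ]

variable {k : Type} [Field k] [IsAlgClosed k]

theorem i1_pow {k : Type} [Field k] (D : GD k[X] n Γ) [IsDomain D.S] (z : FractionRing D.S) :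
    ∃ c : ℕ, wF k D.S ^ c * z ∈ Ow k D.S := by
  have halg := (i1_ded D).2
  obtain ⟨y, hy, hy0, hi⟩ := i1_mult (Aw k D.S) z
  obtain ⟨c, u, hu, h1⟩ := i1_unit (S := D.S) (G1c D) y hy hy0
  refine ⟨c, ?_⟩
  rw [← h1, mul_assoc]
  exact IsIntegral.mul (i1_intA (Aw k D.S) u hu) hi

theorem i1_powf {k : Type} [Field k] (D : GD k[X] n Γ) [IsDomain D.S] {ι : Type} [Fintype ι]
    (z : ι → FractionRing D.S) : ∃ c : ℕ, ∀ i, wF k D.S ^ c * z i ∈ Ow k D.S := by
  choose f hf using fun i => i1_pow D (z i)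
  refine ⟨∑ i, f i, fun i => ?_⟩
  have h1 : f i ≤ ∑ i, f i := Finset.single_le_sum (fun _ _ => Nat.zero_le _) (Finset.mem_univ i)
  obtain ⟨e, he⟩ := Nat.exists_eq_add_of_le' h1
  rw [he, pow_add, mul_assoc]
  refine mul_mem ?_ (hf i)
  refine pow_mem ?_ e
  exact i1_intA (Aw k D.S) _ i1_w_mem

theorem I1 (D : GD k[X] n Γ) [IsDomain D.S] :
    IsPrincipalIdealRing (Ow k D.S) ∧ {Q : Ideal (Ow k D.S) | Q.IsMaximal}.Finite ∧
      (∀ Q : Ideal (Ow k D.S), Q.IsMaximal → ∀ y : Ow k D.S, (y : FractionRing D.S) = wF k D.S → y ∈ Q) ∧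
      (∀ c : k, kin k D.S c ∈ Ow k D.S) ∧ wF k D.S ∈ Ow k D.S ∧
      ∀ Q : Ideal (Ow k D.S), Q.IsMaximal → ∀ y : Ow k D.S, ∃ (c : k) (z : Ow k D.S),
        (z : FractionRing D.S) = y - kin k D.S c ∧ z ∈ Q := by
  have hdvr := i1_dvr (S := D.S) (G1c D)
  have h := i1_semi (Aw k D.S) (i1_ded D).1 (kin k D.S) (wF k D.S) i1_w_mem
    (i1_w_ne (S := D.S) (G1c D)) (i1_winv (S := D.S) (G1c D)) i1_kin_mem
    (i1_res (S := D.S) (G1c D))
  exact ⟨h.1, h.2.1, h.2.2.1, fun c => i1_intA (Aw k D.S) _ (i1_kin_mem c),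
    i1_intA (Aw k D.S) _ i1_w_mem, h.2.2.2⟩

theorem I1b (D : GD k[X] n Γ) [IsDomain D.S] :
    ∃ c0 : ℕ, ∀ y ∈ Ow k D.S, ∀ (s : D.S) (d : k[X]), d ≠ 0 →
      y * algebraMap D.S (FractionRing D.S) (algebraMap k[X] D.S d) = algebraMap D.S _ s →
      ∀ l, s.co l = 0 ∨ (s.co l).natDegree ≤ d.natDegree + c0 := by
  let _ := i1_actK D
  have hdvr := i1_dvr (S := D.S) (G1c D)
  obtain ⟨c, hc⟩ := i1_powf D (fun t : Fin D.r => algebraMap D.S (FractionRing D.S) (D.Y t))
  refine ⟨c + ∑ t, ∑ l, (D.x t l).natDegree, ?_⟩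
  intro y hy s d hd hyd l
  have hd' := i1_ev_ne (S := D.S) (G1c D) hd
  -- the action as ring homomorphisms
  set σ : Γ → FractionRing D.S →+* FractionRing D.S :=
    fun g => MulSemiringAction.toRingHom Γ (FractionRing D.S) g with hσ
  have hσ1 : ∀ g x, σ g (algebraMap D.S _ x) = algebraMap D.S _ (D.ac g x) :=
    fun g x => i1_actK_map D g x
  have hσ2 : ∀ g, σ g (i1_ev k D.S d) = i1_ev k D.S d := fun g => i1_actK_ev D g d
  have hσ3 : ∀ g, ∀ y ∈ Aw k D.S, σ g y = y := fun g y hy => i1_actK_Aw D g y hy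
  have hT : ∀ t, (D.Tr (D.Y t * s)).natDegree ≤ d.natDegree + c := by
    intro t
    by_cases h0 : D.Tr (D.Y t * s) = 0
    · rw [h0, natDegree_zero]; exact Nat.zero_le _
    refine i1_quot_deg (S := D.S) (G1c D) _ d h0 hd c ?_
    have h1 : wF k D.S ^ c * (i1_ev k D.S (D.Tr (D.Y t * s)) / i1_ev k D.S d)
        = ∑ g, σ g (wF k D.S ^ c * algebraMap D.S _ (D.Y t) * y) := by
      rw [← mul_div_assoc, div_eq_iff hd', Finset.sum_mul]
      have h2 : ∀ g, σ g (wF k D.S ^ c * algebraMap D.S _ (D.Y t) * y) * i1_ev k D.S d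
          = wF k D.S ^ c * algebraMap D.S _ (D.ac g (D.Y t * s)) := by
        intro g
        have h3 : i1_ev k D.S d = algebraMap D.S _ (algebraMap k[X] D.S d) := rfl
        calc σ g (wF k D.S ^ c * algebraMap D.S _ (D.Y t) * y) * i1_ev k D.S d
            = σ g (wF k D.S ^ c * algebraMap D.S _ (D.Y t) * y) * σ g (i1_ev k D.S d) := by
              rw [hσ2]
          _ = σ g (wF k D.S ^ c * (algebraMap D.S _ (D.Y t) * (y * i1_ev k D.S d))) := by
              rw [← map_mul]; congr 1; ring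
          _ = σ g (wF k D.S ^ c * (algebraMap D.S _ (D.Y t * s))) := by
              rw [h3, hyd, ← map_mul]
          _ = _ := by rw [map_mul, hσ3 g _ (i1_wpow_mem c), hσ1]
      simp only [h2]
      rw [← Finset.mul_sum, ← map_sum, D.sum_ac]
      rfl
    have h2 : IsIntegral (Aw k D.S)
        (wF k D.S ^ c * (i1_ev k D.S (D.Tr (D.Y t * s)) / i1_ev k D.S d)) := by
      rw [h1]
      refine IsIntegral.sum _ fun g _ => ?_
      exact i1_stab (Aw k D.S) (σ g) (hσ3 g) _ (IsIntegral.mul (hc t) hy)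
    set N := (D.Tr (D.Y t * s)).natDegree + d.natDegree + c with hN
    have h3 := i1_quot_mem (S := D.S) (G1c D) (D.Tr (D.Y t * s)) 1 one_ne_zero N (by omega)
    have h4 := i1_quot_mem (S := D.S) (G1c D) d 1 one_ne_zero N (by omega)
    rw [map_one, div_one] at h3 h4
    refine i1_ic (Aw k D.S) _ (wF k D.S ^ c * (wF k D.S ^ N * i1_ev k D.S (D.Tr (D.Y t * s)))) _
      (mul_mem (i1_wpow_mem c) h3) h4 ?_ h2
    have hw := pow_ne_zero N (i1_w_ne (S := D.S) (G1c D))
    rw [mul_div_assoc, mul_div_mul_left _ _ hw]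
  right
  have hs := congrArg (fun u : D.S => u.co l) (D.repr s)
  have hs2 : s.co l = ∑ t, D.Tr (D.Y t * s) * D.x t l := by
    have h5 : (∑ t, D.Tr (D.Y t * s) • D.X t : D.S).co l = ∑ t, D.Tr (D.Y t * s) * D.x t l := by
      rw [Tab.sum_co]; rfl
    rw [← h5]; exact hs
  rw [hs2]
  refine natDegree_sum_le_of_forall_le _ _ fun t _ => ?_
  refine le_trans natDegree_mul_le ?_
  have h6 : (D.x t l).natDegree ≤ ∑ t, ∑ l, (D.x t l).natDegree := by
    refine le_trans ?_ (Finset.single_le_sum (f := fun t => ∑ l, (D.x t l).natDegree)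
      (fun _ _ => Nat.zero_le _) (Finset.mem_univ t))
    exact Finset.single_le_sum (f := fun l => (D.x t l).natDegree)
      (fun _ _ => Nat.zero_le _) (Finset.mem_univ l)
  have h7 := hT t
  omega

theorem I1c (D : GD k[X] n Γ) [IsDomain D.S] :
    ∃ c1 : ℕ, ∀ (s : D.S) (d : k[X]), d ≠ 0 →
      (∀ l, s.co l = 0 ∨ (s.co l).natDegree + c1 ≤ d.natDegree) →
      algebraMap D.S (FractionRing D.S) s /
        algebraMap D.S (FractionRing D.S) (algebraMap k[X] D.S d) ∈ Ow k D.S := by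
  obtain ⟨c, hc⟩ := i1_powf D (fun l : Fin n => algebraMap D.S (FractionRing D.S) (D.eta l))
  refine ⟨c, ?_⟩
  intro s d hd hs
  have hd' := i1_ev_ne (S := D.S) (G1c D) hd
  have hw := pow_ne_zero c (i1_w_ne (S := D.S) (G1c D))
  have h1 : s = ∑ l, s.co l • D.eta l := by
    refine Tab.ext' fun m => ?_
    rw [Tab.sum_co]
    simp only [Tab.smul_co]
    rw [Finset.sum_eq_single m]
    · simp [GD.eta]
    · intro b _ hb
      simp [GD.eta, hb.symm]
    · simp
  have h2 : algebraMap D.S (FractionRing D.S) s / i1_ev k D.S d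
      = ∑ l, (i1_ev k D.S (s.co l * X ^ c) / i1_ev k D.S d) *
        (wF k D.S ^ c * algebraMap D.S _ (D.eta l)) := by
    conv_lhs => rw [h1]
    rw [map_sum, Finset.sum_div]
    refine Finset.sum_congr rfl fun l _ => ?_
    rw [Algebra.smul_def, map_mul, map_mul, map_pow, i1_ev_X, inv_pow]
    have h3 : i1_ev k D.S (s.co l) = algebraMap D.S _ (algebraMap k[X] D.S (s.co l)) := rfl
    rw [← h3]
    calc i1_ev k D.S (s.co l) * algebraMap D.S _ (D.eta l) / i1_ev k D.S d
        = i1_ev k D.S (s.co l) * algebraMap D.S _ (D.eta l) / i1_ev k D.S d *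
          ((wF k D.S ^ c)⁻¹ * wF k D.S ^ c) := by rw [inv_mul_cancel₀ hw, mul_one]
      _ = _ := by ring
  have h4 : algebraMap D.S (FractionRing D.S) s / i1_ev k D.S d ∈ Ow k D.S := by
    rw [h2]
    refine sum_mem fun l _ => mul_mem ?_ (hc l)
    refine i1_intA (Aw k D.S) _ ?_
    rcases hs l with h0 | h0
    · rw [h0, zero_mul, map_zero, zero_div]; exact zero_mem _
    · have h5 := i1_quot_mem (S := D.S) (G1c D) (s.co l * X ^ c) d hd 0
        (by
          refine le_trans natDegree_mul_le ?_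
          rw [natDegree_X_pow]; omega)
      rwa [pow_zero, one_mul] at h5
  exact h4

end Pool.Agent.QPC
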