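import Mathlib
import Pool.Agent.QPC.Defs
import Pool.Agent.QPC.Defs2
import Pool.Agent.QPC.I1
import Pool.Agent.QPC.G5

/-!
# QPC row I2: functions of the x-line become m-th powers at infinity up to units
Setting: `m = ℓ^e`, `ℓ ∤ |Γ|`, `O := D.Sx i ⊆ S := D.Sv i m`, `v^m = X`, `F := FractionRing S`, `K := Frac O ⊆ F`. Claim: for `f ∈ O`, `f ≠ 0` there is `h ∈ F`, `h ≠ 0`, with `f h^m` a unit of `Ow k S`.
Proof. Let `B`, `A` be the semilocal principal ideal domains at infinity of `O` and `S` (`I1`), `ψ : B → A`. By unique factorisation in `B` it is enough to treat a prime `p` of `B`. The norm of `p` is a power of `1/X` up to units, so its image in `A` is an `m`-th power up to units. In `A` it is `ψ(p)^d R` up to units, where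
`d` is the order of the stabiliser of `(p)`, prime to `ℓ`, and `R` is prime to `ψ(p)`. So `ψ(p)` is an `m`-th power up to units.
-/

set_option autoImplicit false

namespace Pool.Agent.QPC

open Polynomial

variable {n : ℕ} {Γ : Type} [Group Γ] [Fintype Γ] [DecidableEq Γ]

theorem i2_root {M : Type} [CommMonoidWithZero M] [UniqueFactorizationMonoid M]
    {a b c : M} {m : ℕ} (hm : m ≠ 0) (hb : b ≠ 0)
    (h : a * b ^ m = c ^ m) : ∃ t, a = t ^ m := by
  have h1 : b ^ m ∣ c ^ m := ⟨a, by rw [← h, mul_comm]⟩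
  obtain ⟨t, rfl⟩ := (UniqueFactorizationMonoid.pow_dvd_pow_iff_dvd hm).mp h1
  refine ⟨t, ?_⟩
  rw [mul_pow, mul_comm] at h
  exact mul_left_cancel₀ (pow_ne_zero m hb) h

theorem i2_root2 {M : Type} [CommMonoidWithZero M] [UniqueFactorizationMonoid M]
    {a : M} {d m : ℕ} (hm : m ≠ 0) (hco : Nat.Coprime d m)
    (h : ∃ t, a ^ d = t ^ m) : ∃ t, a = t ^ m := by
  obtain ⟨t, ht⟩ := h
  by_cases ha : a = 0
  · exact ⟨0, by rw [ha, zero_pow hm]⟩
  by_cases h1 : m = 1
  · exact ⟨a, by rw [h1, pow_one]⟩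
  obtain ⟨x, -, hx⟩ := Nat.exists_mul_mod_eq_one_of_coprime hco (by omega)
  have h2 := Nat.mod_add_div (d * x) m
  rw [hx] at h2
  have h3 : a * (a ^ (d * x / m)) ^ m = (t ^ x) ^ m := by
    calc a * (a ^ (d * x / m)) ^ m = a ^ (1 + m * (d * x / m)) := by
            rw [pow_add, pow_one, ← pow_mul, mul_comm m]
      _ = (a ^ d) ^ x := by rw [h2, pow_mul]
      _ = (t ^ x) ^ m := by rw [ht, ← pow_mul, ← pow_mul, mul_comm]
  exact i2_root hm (pow_ne_zero _ ha) h3

section maps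

variable {k S S' : Type} [Field k] [CommRing S] [IsDomain S] [Algebra k[X] S] [CommRing S']
  [IsDomain S'] [Algebra k[X] S']

/-- Extension to fraction fields. -/
noncomputable def i2_F {θ : S →+* S'} (hθ : Function.Injective θ) :
    FractionRing S →+* FractionRing S' := IsFractionRing.map hθ

omit [IsDomain S] in
theorem i2_F_alg {θ : S →+* S'} (hθ : Function.Injective θ) (s : S) :
    i2_F hθ (algebraMap S (FractionRing S) s) = algebraMap S' (FractionRing S') (θ s) := by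
  simp [i2_F, IsFractionRing.map]

theorem i2_F_w {θ : S →+* S'} (hθ : Function.Injective θ) (m : ℕ)
    (hX : θ (algebraMap k[X] S X) = algebraMap k[X] S' X ^ m) :
    i2_F hθ (wF k S) = wF k S' ^ m := by
  rw [wF, map_inv₀, i2_F_alg, hX, map_pow, wF, inv_pow]

omit [IsDomain S] in
theorem i2_F_kin {θ : S →+* S'} (hθ : Function.Injective θ)
    (hC : ∀ c : k, θ (algebraMap k[X] S (C c)) = algebraMap k[X] S' (C c)) (c : k) :
    i2_F hθ (kin k S c) = kin k S' c := by
  change i2_F hθ (algebraMap S _ (algebraMap k[X] S (C c))) =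
    algebraMap S' _ (algebraMap k[X] S' (C c))
  rw [i2_F_alg, hC]

theorem i2_F_evw {θ : S →+* S'} (hθ : Function.Injective θ) (m : ℕ)
    (hX : θ (algebraMap k[X] S X) = algebraMap k[X] S' X ^ m)
    (hC : ∀ c : k, θ (algebraMap k[X] S (C c)) = algebraMap k[X] S' (C c)) (P : k[X]) :
    i2_F hθ (evw k S P) = evw k S' (expand k m P) := by
  have h : (i2_F hθ).comp (evw k S) = (evw k S').comp (expand k m : k[X] →+* k[X]) := by
    refine Polynomial.ringHom_ext (fun a => ?_) ?_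
    · simp [evw, i2_F_kin hθ hC]
    · simp [evw, i2_F_w hθ m hX]
  exact congrArg (fun f : k[X] →+* FractionRing S' => f P) h

theorem i2_F_Aw {θ : S →+* S'} (hθ : Function.Injective θ) (m : ℕ) (hm : 0 < m)
    (hX : θ (algebraMap k[X] S X) = algebraMap k[X] S' X ^ m)
    (hC : ∀ c : k, θ (algebraMap k[X] S (C c)) = algebraMap k[X] S' (C c))
    {y : FractionRing S} (hy : y ∈ Aw k S) : i2_F hθ y ∈ Aw k S' := by
  obtain ⟨P, Q, hQ, h⟩ := hy
  refine ⟨expand k m P, expand k m Q, ?_, ?_⟩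
  · simpa [coeff_expand hm] using hQ
  · rw [← i2_F_evw hθ m hX hC, ← i2_F_evw hθ m hX hC, ← map_mul, h]

theorem i2_F_Ow {θ : S →+* S'} (hθ : Function.Injective θ) (m : ℕ) (hm : 0 < m)
    (hX : θ (algebraMap k[X] S X) = algebraMap k[X] S' X ^ m)
    (hC : ∀ c : k, θ (algebraMap k[X] S (C c)) = algebraMap k[X] S' (C c))
    {y : FractionRing S} (hy : y ∈ Ow k S) : i2_F hθ y ∈ Ow k S' := by
  have h1 : IsIntegral (Aw k S) y := hy
  have h2 : IsIntegral (Aw k S') (i2_F hθ y) :=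
    IsIntegral.map_of_comp_eq ((i2_F hθ).restrict (Aw k S) (Aw k S')
      (fun x hx => i2_F_Aw hθ m hm hX hC hx)) (i2_F hθ) (RingHom.ext fun x => rfl) h1
  exact h2

/-- The map on the semilocal rings. -/
noncomputable def i2_O {θ : S →+* S'} (hθ : Function.Injective θ) (m : ℕ) (hm : 0 < m)
    (hX : θ (algebraMap k[X] S X) = algebraMap k[X] S' X ^ m)
    (hC : ∀ c : k, θ (algebraMap k[X] S (C c)) = algebraMap k[X] S' (C c)) :
    Ow k S →+* Ow k S' :=
  (i2_F hθ).restrict (Ow k S) (Ow k S') (fun _ hx => i2_F_Ow hθ m hm hX hC hx)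

theorem i2_O_coe {θ : S →+* S'} (hθ : Function.Injective θ) (m : ℕ) (hm : 0 < m)
    (hX : θ (algebraMap k[X] S X) = algebraMap k[X] S' X ^ m)
    (hC : ∀ c : k, θ (algebraMap k[X] S (C c)) = algebraMap k[X] S' (C c)) (y : Ow k S) :
    ((i2_O hθ m hm hX hC y : Ow k S') : FractionRing S') = i2_F hθ (y : FractionRing S) := rfl

theorem i2_Aw_Ow {y : FractionRing S} (hy : y ∈ Aw k S) : y ∈ Ow k S := by
  have : IsIntegral (Aw k S) (algebraMap (Aw k S) (FractionRing S) ⟨y, hy⟩) :=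
    isIntegral_algebraMap
  exact this

theorem i2_w_mem : wF k S ∈ Ow k S := by
  refine i2_Aw_Ow ⟨X, 1, by simp, ?_⟩
  simp [evw]

/-- Nonzero polynomials are powers of `v` up to units at infinity. -/
theorem i2_poly (hinj : Function.Injective (algebraMap k[X] S)) (P : k[X]) (hP : P ≠ 0) :
    ∃ r : FractionRing S, r ≠ 0 ∧ r ∈ Ow k S ∧ r⁻¹ ∈ Ow k S ∧
      algebraMap S (FractionRing S) (algebraMap k[X] S P) * wF k S ^ P.natDegree = r := by
  have hV : algebraMap S (FractionRing S) (algebraMap k[X] S X) ≠ 0 := by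
    intro h0
    have h1 := (FaithfulSMul.algebraMap_injective S (FractionRing S)) (h0.trans (map_zero _).symm)
    exact X_ne_zero (hinj (h1.trans (map_zero _).symm))
  have : Invertible (algebraMap S (FractionRing S) (algebraMap k[X] S X)) :=
    invertibleOfNonzero hV
  have h1 := eval₂_reverse_mul_pow (kin k S)
    (algebraMap S (FractionRing S) (algebraMap k[X] S X)) P
  have h2 : eval₂ (kin k S) (algebraMap S (FractionRing S) (algebraMap k[X] S X)) P
      = algebraMap S (FractionRing S) (algebraMap k[X] S P) := by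
    have h : Polynomial.eval₂RingHom (kin k S)
        (algebraMap S (FractionRing S) (algebraMap k[X] S X)) =
        (algebraMap S (FractionRing S)).comp (algebraMap k[X] S) := by
      refine Polynomial.ringHom_ext (fun a => ?_) ?_
      · simp [kin]
      · simp
    exact congrArg (fun f : k[X] →+* FractionRing S => f P) h
  have h3 : eval₂ (kin k S) (⅟(algebraMap S (FractionRing S) (algebraMap k[X] S X))) (reverse P)
      = evw k S (reverse P) := by
    rw [invOf_eq_inv]; rfl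
  rw [h2, h3] at h1
  have hP0 : algebraMap S (FractionRing S) (algebraMap k[X] S P) ≠ 0 := by
    intro h0
    have h1 := (FaithfulSMul.algebraMap_injective S (FractionRing S)) (h0.trans (map_zero _).symm)
    exact hP (hinj (h1.trans (map_zero _).symm))
  have hr : evw k S (reverse P) ≠ 0 := by
    intro h0
    rw [h0, zero_mul] at h1
    exact hP0 h1.symm
  have hc : (reverse P).coeff 0 ≠ 0 := by
    rw [coeff_zero_reverse]
    exact leadingCoeff_ne_zero.mpr hP
  refine ⟨evw k S (reverse P), hr, i2_Aw_Ow ⟨reverse P, 1, by simp, by simp⟩,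
    i2_Aw_Ow ⟨1, reverse P, hc, by rw [inv_mul_cancel₀ hr, map_one]⟩, ?_⟩
  rw [← h1, wF, mul_assoc, ← mul_pow, mul_inv_cancel₀ hV, one_pow, mul_one]

end maps

section norm

variable {k : Type} [Field k] (D : GD k[X] n Γ) [IsDomain D.S]

omit [IsDomain D.S] in
theorem i2_ac_inj (γ : Γ) : Function.Injective (D.ac γ) := by
  intro a b h
  have h1 := congrArg (D.ac γ⁻¹) h
  rwa [← D.ac_mul, ← D.ac_mul, inv_mul_cancel, D.ac_one, D.ac_one] at h1

omit [IsDomain D.S] in
theorem i2_ac_alg (γ : Γ) (b : k[X]) : D.ac γ (algebraMap k[X] D.S b) = algebraMap k[X] D.S b := by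
  rw [Algebra.algebraMap_eq_smul_one, D.ac_smul, map_one]

/-- The action on the semilocal ring. -/
noncomputable def i2_g (γ : Γ) : Ow k D.S →+* Ow k D.S :=
  i2_O (i2_ac_inj D γ) 1 one_pos (by rw [i2_ac_alg, pow_one]) (fun c => i2_ac_alg D γ _)

theorem i2_g_coe (γ : Γ) (y : Ow k D.S) :
    ((i2_g D γ y : Ow k D.S) : FractionRing D.S) = i2_F (i2_ac_inj D γ) (y : FractionRing D.S) :=
  rfl

theorem i2_F_mul (γ δ : Γ) (y : FractionRing D.S) :
    i2_F (i2_ac_inj D (γ * δ)) y = i2_F (i2_ac_inj D γ) (i2_F (i2_ac_inj D δ) y) := by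
  obtain ⟨a, b, -, rfl⟩ := IsFractionRing.div_surjective (A := D.S) y
  simp only [map_div₀, i2_F_alg, D.ac_mul]

theorem i2_F_one (y : FractionRing D.S) : i2_F (i2_ac_inj D 1) y = y := by
  obtain ⟨a, b, -, rfl⟩ := IsFractionRing.div_surjective (A := D.S) y
  simp only [map_div₀, i2_F_alg, D.ac_one]

theorem i2_g_mul (γ δ : Γ) (y : Ow k D.S) : i2_g D (γ * δ) y = i2_g D γ (i2_g D δ y) :=
  Subtype.ext (i2_F_mul D γ δ _)

theorem i2_g_one (y : Ow k D.S) : i2_g D 1 y = y := Subtype.ext (i2_F_one D _)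

theorem i2_norm_S (s : D.S) (hs : s ≠ 0) :
    ∃ P : k[X], P ≠ 0 ∧ ∏ γ, D.ac γ s = algebraMap k[X] D.S P := by
  have hfix : ∀ δ, D.ac δ (∏ γ, D.ac γ s) = ∏ γ, D.ac γ s := by
    intro δ
    rw [map_prod]
    rw [← Equiv.prod_comp (Equiv.mulLeft δ) (fun γ => D.ac γ s)]
    refine Finset.prod_congr rfl fun γ _ => ?_
    rw [Equiv.coe_mulLeft, D.ac_mul]
  refine ⟨_, ?_, D.inv _ hfix⟩
  intro h0
  have h1 := D.inv _ hfix
  rw [h0, map_zero, Finset.prod_eq_zero_iff] at h1
  obtain ⟨γ, -, h2⟩ := h1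
  exact hs (i2_ac_inj D γ (h2.trans (map_zero _).symm))

/-- The norm is a power of `w` up to units. -/
theorem i2_norm (y : FractionRing D.S) (hy : y ≠ 0) :
    ∃ (a b : ℕ) (u : FractionRing D.S), u ≠ 0 ∧ u ∈ Ow k D.S ∧ u⁻¹ ∈ Ow k D.S ∧
      (∏ γ, i2_F (i2_ac_inj D γ) y) * wF k D.S ^ a = u * wF k D.S ^ b := by
  obtain ⟨s, t, ht, rfl⟩ := IsFractionRing.div_surjective (A := D.S) y
  have ht0 : t ≠ 0 := nonZeroDivisors.ne_zero ht
  have hs0 : s ≠ 0 := by
    rintro rfl
    simp at hy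
  obtain ⟨P, hP, hPs⟩ := i2_norm_S D s hs0
  obtain ⟨Q, hQ, hQt⟩ := i2_norm_S D t ht0
  obtain ⟨r, hr0, hr, hr', hrP⟩ := i2_poly (k := k) (G1c D) P hP
  obtain ⟨q, hq0, hq, hq', hqQ⟩ := i2_poly (k := k) (G1c D) Q hQ
  have hQ0 : algebraMap D.S (FractionRing D.S) (algebraMap k[X] D.S Q) ≠ 0 := by
    intro h0
    rw [h0, zero_mul] at hqQ
    exact hq0 hqQ.symm
  refine ⟨P.natDegree, Q.natDegree, r * q⁻¹, mul_ne_zero hr0 (inv_ne_zero hq0),
    mul_mem hr hq', ?_, ?_⟩
  · rw [mul_inv, inv_inv]; exact mul_mem hr' hq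
  · simp only [map_div₀, i2_F_alg, Finset.prod_div_distrib, ← map_prod, hPs, hQt]
    rw [← hrP, ← hqQ]
    have hw : wF k D.S ≠ 0 := by
      intro h0
      rw [wF, inv_eq_zero] at h0
      have h1 := (FaithfulSMul.algebraMap_injective D.S (FractionRing D.S))
        (h0.trans (map_zero _).symm)
      exact X_ne_zero (G1c D (h1.trans (map_zero _).symm))
    field_simp

end norm

omit [DecidableEq Γ] in
/-- The prime step, in abstract form. -/
theorem i2_prime {A B : Type} [CommRing A] [IsDomain A] [IsPrincipalIdealRing A] [CommRing B]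
    [IsDomain B] [IsPrincipalIdealRing B] (ψ : B →+* A) (g : Γ → B →+* B)
    (g1 : ∀ y, g 1 y = y) (gm : ∀ γ δ y, g (γ * δ) y = g γ (g δ y)) (m : ℕ) (hm : m ≠ 0)
    (hco : Nat.Coprime (Fintype.card Γ) m) (p : B) (hp : Prime p) (z : A) (hz : z ≠ 0) (a b : ℕ)
    (h : Associated ((∏ γ, ψ (g γ p)) * (z ^ a) ^ m) ((z ^ b) ^ m)) :
    ∃ q : A, Associated (ψ p) (q ^ m) := by
  classical
  have gu : ∀ γ {x y : B}, Associated x y → Associated (g γ x) (g γ y) :=
    fun γ x y hxy => hxy.map (g γ)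
  let H : Subgroup Γ :=
    { carrier := {γ | Associated (g γ p) p}
      mul_mem' := fun {γ δ} hγ hδ => by
        change Associated (g (γ * δ) p) p
        rw [gm]
        exact (gu γ hδ).trans hγ
      one_mem' := by
        change Associated (g 1 p) p
        rw [g1]
      inv_mem' := fun {γ} hγ => by
        change Associated (g γ⁻¹ p) p
        have h1 := gu γ⁻¹ hγ
        rw [← gm, inv_mul_cancel, g1] at h1
        exact h1.symm }
  have gp : ∀ γ, Prime (g γ p) := by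
    intro γ
    let e : B ≃+* B :=
      { g γ with
        invFun := g γ⁻¹
        left_inv := fun y => by
          change g γ⁻¹ (g γ y) = y
          rw [← gm, inv_mul_cancel, g1]
        right_inv := fun y => by
          change g γ (g γ⁻¹ y) = y
          rw [← gm, mul_inv_cancel, g1] }
    exact (MulEquiv.prime_iff e).mpr hp
  have hcop : ∀ γ, γ ∉ H → IsCoprime (ψ p) (ψ (g γ p)) := by
    intro γ hγ
    refine IsCoprime.map ?_ ψ
    refine (hp.irreducible.coprime_iff_not_dvd).mpr fun hd => hγ ?_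
    exact ((hp.irreducible.associated_of_dvd (gp γ).irreducible hd)).symm
  set s1 : Finset Γ := Finset.univ.filter (fun γ => γ ∈ H) with hs1
  set s2 : Finset Γ := Finset.univ.filter (fun γ => ¬ γ ∈ H) with hs2
  have hsplit : (∏ γ, ψ (g γ p)) = (∏ γ ∈ s1, ψ (g γ p)) * ∏ γ ∈ s2, ψ (g γ p) :=
    (Finset.prod_filter_mul_prod_filter_not _ _ _).symm
  have hA1 : Ideal.span {∏ γ ∈ s1, ψ (g γ p)} = Ideal.span {ψ p} ^ s1.card := by
    rw [← Ideal.prod_span_singleton, ← Finset.prod_const]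
    refine Finset.prod_congr rfl fun γ hγ => ?_
    rw [Ideal.span_singleton_eq_span_singleton]
    exact (((Finset.mem_filter.mp hγ).2 : Associated (g γ p) p)).map ψ
  have hA2 : IsCoprime (Ideal.span {ψ p} ^ s1.card) (Ideal.span {∏ γ ∈ s2, ψ (g γ p)}) := by
    refine IsCoprime.pow_left ?_
    rw [Ideal.isCoprime_span_singleton_iff]
    exact IsCoprime.prod_right fun γ hγ => hcop γ (Finset.mem_filter.mp hγ).2
  have h2 : (Ideal.span {ψ p} ^ s1.card * Ideal.span {∏ γ ∈ s2, ψ (g γ p)}) *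
      (Ideal.span {z ^ a}) ^ m = (Ideal.span {z ^ b}) ^ m := by
    rw [← hA1, Ideal.span_singleton_mul_span_singleton, Ideal.span_singleton_pow,
      Ideal.span_singleton_pow, Ideal.span_singleton_mul_span_singleton, ← hsplit,
      Ideal.span_singleton_eq_span_singleton]
    exact h
  have h3 : Ideal.span {z ^ a} ≠ (0 : Ideal A) := by
    rw [Ne, Ideal.zero_eq_bot, Ideal.span_singleton_eq_bot]
    exact pow_ne_zero a hz
  obtain ⟨T, hT⟩ := i2_root hm h3 h2
  obtain ⟨T1, hT1⟩ := exists_eq_pow_of_mul_eq_pow_of_coprime hA2 hT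
  have hcard : s1.card ∣ Fintype.card Γ := by
    have h4 : s1.card = Nat.card H := by
      rw [Nat.card_eq_fintype_card, Fintype.card_subtype]
    rw [h4, ← Nat.card_eq_fintype_card]
    exact H.card_subgroup_dvd_card
  obtain ⟨T2, hT2⟩ := i2_root2 hm (Nat.Coprime.of_dvd_left hcard hco) ⟨T1, hT1⟩
  obtain ⟨q, rfl⟩ := (IsPrincipalIdealRing.principal T2).principal
  refine ⟨q, ?_⟩
  rw [← Ideal.span_singleton_eq_span_singleton, hT2, ← Ideal.span_singleton_pow]

/-- All elements are powers up to units if the primes are. -/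
theorem i2_all {A B : Type} [CommRing A] [CommRing B]
    [IsDomain B] [IsPrincipalIdealRing B] (ψ : B →+* A) (m : ℕ)
    (h : ∀ p, Prime p → ∃ q : A, Associated (ψ p) (q ^ m)) (f : B) (hf : f ≠ 0) :
    ∃ q : A, Associated (ψ f) (q ^ m) := by
  induction f using UniqueFactorizationMonoid.induction_on_prime with
  | h₁ => exact absurd rfl hf
  | h₂ x hx =>
    refine ⟨1, ?_⟩
    rw [one_pow]
    exact associated_one_iff_isUnit.mpr (hx.map ψ)
  | h₃ a p ha hp ih =>
    obtain ⟨q, hq⟩ := ih ha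
    obtain ⟨r, hr⟩ := h p hp
    refine ⟨r * q, ?_⟩
    rw [map_mul, mul_pow]
    exact hr.mul_mul hq

theorem i2_xv_alg {k₀ k : Type} [CommRing k₀] [CommRing k] (i : k₀ →+* k)
    (D : GD k₀[X] n Γ) (m : ℕ) (b : k[X]) :
    D.xv i m (algebraMap k[X] (D.Sx i) b) = algebraMap k[X] (D.Sv i m) (ex k m b) := by
  refine Tab.ext' fun l => ?_
  rw [GD.xv, GD.hom_co, Tab.algebraMap_co, Tab.algebraMap_co, map_mul]
  congr 1
  change ex k m (mapRingHom i (D.e l)) = vt i m (D.e l)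
  rw [← ex_map]; rfl

theorem i2_xv_inj {k₀ k : Type} [CommRing k₀] [CommRing k] (i : k₀ →+* k)
    (D : GD k₀[X] n Γ) (m : ℕ) (hm : 0 < m) : Function.Injective (D.xv i m) := by
  intro a b h
  refine Tab.ext' fun l => ?_
  have h1 := congrArg (fun x : D.Sv i m => x.co l) h
  simp only [GD.xv, GD.hom_co] at h1
  have h2 : ∀ P : k[X], ex k m P = expand k m P := fun P => rfl
  rw [h2, h2] at h1
  exact expand_injective hm h1

theorem I2 {k₀ k : Type} [CommRing k₀] [Field k] [IsAlgClosed k] (i : k₀ →+* k)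
    (D : GD k₀[X] n Γ) (hdom : IsDomain (D.Sx i)) (ℓ e : ℕ) [Fact ℓ.Prime]
    (hΓ : ¬ ℓ ∣ Fintype.card Γ) [IsDomain (D.Sv i (ℓ ^ e))] (f : D.Sx i) (hf : f ≠ 0) :
    ∃ h : FractionRing (D.Sv i (ℓ ^ e)), h ≠ 0 ∧
      algebraMap _ (FractionRing (D.Sv i (ℓ ^ e))) (D.xv i (ℓ ^ e) f) * h ^ (ℓ ^ e) ∈
        Ow k (D.Sv i (ℓ ^ e)) ∧
      (algebraMap _ (FractionRing (D.Sv i (ℓ ^ e))) (D.xv i (ℓ ^ e) f) * h ^ (ℓ ^ e))⁻¹ ∈
        Ow k (D.Sv i (ℓ ^ e)) := by
  have hmpos : 0 < ℓ ^ e := pow_pos (Fact.out : ℓ.Prime).pos e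
  have hco : Nat.Coprime (Fintype.card Γ) (ℓ ^ e) :=
    Nat.Coprime.pow_right e (((Fact.out : ℓ.Prime).coprime_iff_not_dvd.mpr hΓ).symm)
  generalize hmdef : ℓ ^ e = m at *
  have hθ : Function.Injective (D.xv i m) := i2_xv_inj i D m hmpos
  have hX : D.xv i m (algebraMap k[X] (D.Sx i) X) = algebraMap k[X] (D.Sv i m) X ^ m := by
    rw [i2_xv_alg, ← map_pow]
    congr 1
    simp [ex]
  have hC : ∀ c : k, D.xv i m (algebraMap k[X] (D.Sx i) (C c)) =
      algebraMap k[X] (D.Sv i m) (C c) := by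
    intro c
    rw [i2_xv_alg]
    congr 1
    simp [ex]
  have : IsDomain (D.map (mapRingHom i)).S := hdom
  have : IsDomain (D.map (vt i m)).S := inferInstanceAs (IsDomain (D.Sv i m))
  obtain ⟨hB, -⟩ := I1 (D.map (mapRingHom i))
  obtain ⟨hA, -⟩ := I1 (D.map (vt i m))
  obtain ⟨c1, hc1⟩ := I1c (D.map (mapRingHom i))
  let ψ : Ow k (D.Sx i) →+* Ow k (D.Sv i m) := i2_O hθ m hmpos hX hC
  have key : ∀ p : Ow k (D.Sx i), Prime p → ∃ q : Ow k (D.Sv i m), Associated (ψ p) (q ^ m) := by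
    intro p hp
    have hp0 : (p : FractionRing (D.Sx i)) ≠ 0 := fun h0 => hp.ne_zero (Subtype.ext h0)
    obtain ⟨a, b, u, hu0, hu, hu', hn⟩ := i2_norm (D.map (mapRingHom i)) _ hp0
    have hw0 : wF k (D.Sv i m) ≠ 0 := by
      intro h0
      rw [wF, inv_eq_zero] at h0
      have h1 := (FaithfulSMul.algebraMap_injective (D.Sv i m) (FractionRing (D.Sv i m)))
        (h0.trans (map_zero _).symm)
      exact X_ne_zero (G1c (D.map (vt i m)) (h1.trans (map_zero _).symm))
    have hψu : i2_F hθ u ∈ Ow k (D.Sv i m) := i2_F_Ow hθ m hmpos hX hC hu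
    have hψu' : i2_F hθ u⁻¹ ∈ Ow k (D.Sv i m) := i2_F_Ow hθ m hmpos hX hC hu'
    refine i2_prime ψ (i2_g (D.map (mapRingHom i))) (i2_g_one _) (i2_g_mul _) m hmpos.ne' hco p hp
      (⟨wF k (D.Sv i m), i2_w_mem⟩ : Ow k (D.Sv i m)) (fun h0 => hw0 (congrArg Subtype.val h0)) a b
      ?_
    refine Associated.symm ⟨⟨⟨i2_F hθ u, hψu⟩, ⟨i2_F hθ u⁻¹, hψu'⟩, ?_, ?_⟩, ?_⟩
    · refine Subtype.ext ?_
      change i2_F hθ u * i2_F hθ u⁻¹ = 1
      rw [← map_mul, mul_inv_cancel₀ hu0, map_one]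
    · refine Subtype.ext ?_
      change i2_F hθ u⁻¹ * i2_F hθ u = 1
      rw [← map_mul, inv_mul_cancel₀ hu0, map_one]
    · refine Subtype.ext ?_
      have h1 := congrArg (i2_F hθ) hn
      rw [map_mul, map_mul, map_pow, map_pow, i2_F_w hθ m hX, map_prod] at h1
      rw [← pow_mul, ← pow_mul, mul_comm a m, mul_comm b m, pow_mul, pow_mul]
      simp only [Subring.coe_mul, Subring.coe_pow, ← pow_mul]
      rw [← pow_mul, ← pow_mul] at h1
      rw [mul_comm]
      refine h1.symm.trans ?_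
      congr 1
      exact (map_prod (Ow k (D.Sv i m)).subtype
        (fun γ => ψ (i2_g (D.map (mapRingHom i)) γ p)) Finset.univ).symm
  obtain ⟨N, hN⟩ : ∃ N : ℕ, ∀ l, (f.co l).natDegree + c1 ≤ N :=
    ⟨(∑ l, (f.co l).natDegree) + c1, fun l => Nat.add_le_add_right
      (Finset.single_le_sum (f := fun l => (f.co l).natDegree) (fun _ _ => Nat.zero_le _)
        (Finset.mem_univ l)) c1⟩
  have hf0 := hc1 f (X ^ N) (pow_ne_zero N X_ne_zero) (fun l => Or.inr (by
    rw [natDegree_X_pow]; exact hN l))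
  have hinjx := FaithfulSMul.algebraMap_injective (D.Sx i) (FractionRing (D.Sx i))
  have hinjv := FaithfulSMul.algebraMap_injective (D.Sv i m) (FractionRing (D.Sv i m))
  have hX0 : algebraMap (D.Sx i) (FractionRing (D.Sx i)) (algebraMap k[X] (D.Sx i) (X ^ N)) ≠ 0 :=
    fun h0 => pow_ne_zero N X_ne_zero (G1c (D.map (mapRingHom i))
      ((hinjx (h0.trans (map_zero _).symm)).trans (map_zero _).symm))
  have hV0 : algebraMap (D.Sv i m) (FractionRing (D.Sv i m)) (algebraMap k[X] (D.Sv i m) X) ≠ 0 :=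
    fun h0 => X_ne_zero (G1c (D.map (vt i m))
      ((hinjv (h0.trans (map_zero _).symm)).trans (map_zero _).symm))
  have hfx : algebraMap (D.Sx i) (FractionRing (D.Sx i)) f ≠ 0 :=
    fun h0 => hf (hinjx (h0.trans (map_zero _).symm))
  obtain ⟨q, c, hq⟩ := i2_all ψ m key (⟨_, hf0⟩ : Ow k (D.Sx i))
    (fun h0 => div_ne_zero hfx hX0 (congrArg Subtype.val h0))
  have hq2 := congrArg Subtype.val hq
  have hψf : ((ψ ⟨_, hf0⟩ : Ow k (D.Sv i m)) : FractionRing (D.Sv i m)) =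
      algebraMap _ _ (D.xv i m f) /
        (algebraMap (D.Sv i m) (FractionRing (D.Sv i m)) (algebraMap k[X] (D.Sv i m) X) ^ N) ^ m := by
    change i2_F hθ (algebraMap (D.Sx i) (FractionRing (D.Sx i)) f /
      algebraMap (D.Sx i) (FractionRing (D.Sx i)) (algebraMap k[X] (D.Sx i) (X ^ N))) = _
    rw [map_div₀, i2_F_alg, i2_F_alg, map_pow, map_pow, hX, map_pow, map_pow, ← pow_mul, ← pow_mul,
      mul_comm]
  have hc1 : ((c : Ow k (D.Sv i m)) : FractionRing (D.Sv i m)) *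
      (((c⁻¹ : (Ow k (D.Sv i m))ˣ) : Ow k (D.Sv i m)) : FractionRing (D.Sv i m)) = 1 :=
    congrArg Subtype.val c.mul_inv
  have hc0 : ((c : Ow k (D.Sv i m)) : FractionRing (D.Sv i m)) ≠ 0 := left_ne_zero_of_mul_eq_one hc1
  have hcinv : (((c⁻¹ : (Ow k (D.Sv i m))ˣ) : Ow k (D.Sv i m)) : FractionRing (D.Sv i m)) =
      ((c : Ow k (D.Sv i m)) : FractionRing (D.Sv i m))⁻¹ := eq_inv_of_mul_eq_one_right hc1
  have hfv : algebraMap (D.Sv i m) (FractionRing (D.Sv i m)) (D.xv i m f) ≠ 0 :=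
    fun h0 => hf (hθ ((hinjv (h0.trans (map_zero _).symm)).trans (map_zero _).symm))
  have hq3 : algebraMap _ _ (D.xv i m f) /
        (algebraMap (D.Sv i m) (FractionRing (D.Sv i m)) (algebraMap k[X] (D.Sv i m) X) ^ N) ^ m *
      ((c : Ow k (D.Sv i m)) : FractionRing (D.Sv i m)) = (q : FractionRing (D.Sv i m)) ^ m := by
    rw [← hψf]; exact hq2
  have hVN := pow_ne_zero N hV0
  have hqm : (q : FractionRing (D.Sv i m)) ^ m ≠ 0 := by
    rw [← hq3]
    exact mul_ne_zero (div_ne_zero hfv (pow_ne_zero m hVN)) hc0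
  have hq0 : (q : FractionRing (D.Sv i m)) ≠ 0 := fun h0 => hqm (by
    rw [h0, zero_pow hmpos.ne'])
  have hmain : algebraMap _ (FractionRing (D.Sv i m)) (D.xv i m f) *
      ((algebraMap (D.Sv i m) (FractionRing (D.Sv i m)) (algebraMap k[X] (D.Sv i m) X) ^ N *
        (q : FractionRing (D.Sv i m)))⁻¹) ^ m =
      ((c : Ow k (D.Sv i m)) : FractionRing (D.Sv i m))⁻¹ := by
    rw [inv_pow, mul_pow, ← hq3]
    have hVNm := pow_ne_zero m hVN
    field_simp
  refine ⟨(algebraMap (D.Sv i m) (FractionRing (D.Sv i m)) (algebraMap k[X] (D.Sv i m) X) ^ N *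
        (q : FractionRing (D.Sv i m)))⁻¹, inv_ne_zero (mul_ne_zero hVN hq0), ?_, ?_⟩
  · rw [hmain, ← hcinv]
    exact Subtype.property _
  · rw [hmain, inv_inv]
    exact Subtype.property _

end Pool.Agent.QPC
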