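import Mathlib
import Pool.Agent.QPC.Defs
import Pool.Agent.QPC.Defs2
import Pool.Agent.QPC.I1

/-!
# QPC row I3: units at infinity are m-th powers modulo w^C
Plan. `A := Ow k D.S` is a PID with finitely many maximal ideals `Q_1..Q_g`, residue fields `k` (`I1`). For the unit `u` let `c_i ∈ k*` be its residue at `Q_i` and `b_i ∈ k*` with `c_i b_i^m = 1`. CRT: `h1 ∈ A` with `h1 ≡ b_i mod Q_i`; `h1` is a unit. `u1 := u h1^m ≡ 1` modulo all `Q_i`, so `u1 = 1 + j`, `j` in the Jacobson radical `J = ∏ Q_i`.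
`J^r ⊆ w^C A` for some `r` (`w ∈` every `Q_i`, `w ≠ 0`: `(w^C) = ∏ Q_i^{a_i}`, `r := max a_i`). `p^a ≥ r`: `u1^(p^a) = 1 + j^(p^a) ≡ 1 mod w^C`. Choose `m'` with `m m' = 1 + p^a b` (`m` prime to `p`). `h2 := (u1⁻¹)^m'`: `u1 h2^m = u1^(1 - m m') = u1^(-p^a b) ≡ 1 mod w^C`. `h := h1 h2`.
-/

set_option autoImplicit false

namespace Pool.Agent.QPC

open Polynomial

variable {n : ℕ} {Γ : Type} [Group Γ] [Fintype Γ] [DecidableEq Γ]

variable {k : Type} [Field k] [IsAlgClosed k]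

theorem i3_wF_ne (D : GD k[X] n Γ) [IsDomain D.S] : wF k D.S ≠ 0 := by
  unfold wF
  refine inv_ne_zero fun h => ?_
  rw [FaithfulSMul.algebraMap_eq_zero_iff] at h
  have h1 : (X : k[X]) = 0 := G1c D (by rw [h, map_zero])
  exact X_ne_zero h1

/-- the abstract statement: a principal ideal domain with finitely many maximal ideals -/
theorem i3_abs {A : Type} [CommRing A] [IsDomain A] [IsPrincipalIdealRing A] (p : ℕ) [Fact p.Prime] [CharP A p]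
    (hfin : {Q : Ideal A | Q.IsMaximal}.Finite) (w : A) (hw0 : w ≠ 0) (kc : k →+* A)
    (hres : ∀ Q : Ideal A, Q.IsMaximal → ∀ y : A, ∃ c : k, y - kc c ∈ Q)
    (m : ℕ) (hm : m.Coprime p) (hm0 : 0 < m) (u : Aˣ) (C : ℕ) :
    ∃ (h : Aˣ) (y : A), (u : A) * (h : A) ^ m = 1 + w ^ C * y := by
  have hp : p.Prime := Fact.out
  -- the residues
  have hb : ∀ Q : {Q : Ideal A // Q.IsMaximal}, ∃ b : k, (u : A) * kc b ^ m - 1 ∈ Q.1 := by
    rintro ⟨Q, hQ⟩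
    obtain ⟨c, hc⟩ := hres Q hQ (u : A)
    have hc0 : c ≠ 0 := by
      rintro rfl
      rw [map_zero, sub_zero] at hc
      exact hQ.ne_top (Q.eq_top_of_isUnit_mem hc u.isUnit)
    obtain ⟨b, hb⟩ := IsAlgClosed.exists_pow_nat_eq (c⁻¹ : k) hm0
    refine ⟨b, ?_⟩
    have e : (u : A) * kc b ^ m - 1 = kc b ^ m * ((u : A) - kc c) := by
      have h1 : kc b ^ m * kc c = 1 := by rw [← map_pow, hb, ← map_mul, inv_mul_cancel₀ hc0, map_one]
      linear_combination h1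
    rw [e]
    exact Q.mul_mem_left _ hc
  choose b hb using hb
  have hfin' : Finite {Q : Ideal A // Q.IsMaximal} := hfin
  obtain ⟨h1, hh1⟩ := Ideal.exists_forall_sub_mem_ideal (I := fun Q : {Q : Ideal A // Q.IsMaximal} => Q.1)
    (by
      intro P Q hPQ
      exact (Ideal.isCoprime_iff_sup_eq).2 (P.2.coprime_of_ne Q.2 fun h => hPQ (Subtype.ext h)))
    (fun Q => kc (b Q))
  have hu1 : ∀ Q : {Q : Ideal A // Q.IsMaximal}, (u : A) * h1 ^ m - 1 ∈ Q.1 := by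
    intro Q
    have h2 : (u : A) * h1 ^ m - 1 = (u : A) * (h1 ^ m - kc (b Q) ^ m) + ((u : A) * kc (b Q) ^ m - 1) := by ring
    rw [h2]
    exact Q.1.add_mem (Q.1.mul_mem_left _ (Ideal.mem_of_dvd _ (sub_dvd_pow_sub_pow _ _ m) (hh1 Q))) (hb Q)
  have hunit : ∀ x : A, (∀ Q : {Q : Ideal A // Q.IsMaximal}, x - 1 ∈ Q.1) → IsUnit x := by
    intro x hx
    by_contra hc
    obtain ⟨Q, hQ, hxQ⟩ := exists_max_ideal_of_mem_nonunits hc
    have h2 := Q.sub_mem hxQ (hx ⟨Q, hQ⟩)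
    rw [sub_sub_cancel] at h2
    exact hQ.ne_top (Q.eq_top_iff_one.2 h2)
  obtain ⟨u1, hu1'⟩ := hunit _ hu1
  have hh1u : IsUnit h1 := by
    have h2 : IsUnit ((u : A) * h1 ^ m) := hunit _ hu1
    exact (isUnit_pow_iff hm0.ne').1 (isUnit_of_mul_isUnit_right h2)
  obtain ⟨g1, hg1⟩ := hh1u
  -- nilpotence
  have hrad : (u1 : A) - 1 ∈ (Ideal.span {w ^ C}).radical := by
    rw [Ideal.radical_eq_sInf, Submodule.mem_sInf]
    rintro P ⟨hP1, hP2⟩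
    have hPm : Ideal.IsMaximal P := by
      refine hP2.isMaximal fun hbot => ?_
      rw [hbot] at hP1
      have h3 : w ^ C ∈ (⊥ : Ideal A) := hP1 (Ideal.mem_span_singleton_self _)
      exact pow_ne_zero C hw0 (Ideal.mem_bot.1 h3)
    rw [hu1']
    exact hu1 ⟨P, hPm⟩
  obtain ⟨r, hr⟩ := hrad
  obtain ⟨a, ha⟩ : ∃ a : ℕ, r ≤ p ^ a := ⟨r, (Nat.lt_pow_self hp.one_lt).le⟩
  obtain ⟨a, ha, ha0⟩ : ∃ a : ℕ, r ≤ p ^ a ∧ 0 < a :=
    ⟨a + 1, ha.trans (Nat.pow_le_pow_right hp.pos (Nat.le_succ a)), Nat.succ_pos a⟩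
  obtain ⟨y0, hy0⟩ : ∃ y0 : A, (u1 : A) ^ p ^ a = 1 + w ^ C * y0 := by
    have h2 : (u1 : A) ^ p ^ a - 1 = ((u1 : A) - 1) ^ p ^ a := by
      rw [sub_pow_char_pow, one_pow]
    have h3 : ((u1 : A) - 1) ^ p ^ a ∈ Ideal.span {w ^ C} := by
      obtain ⟨c, hc⟩ := Nat.exists_eq_add_of_le ha
      rw [hc, pow_add]
      exact Ideal.mul_mem_right _ _ hr
    rw [← h2] at h3
    obtain ⟨y0, h4⟩ := Ideal.mem_span_singleton'.1 h3
    exact ⟨y0, by linear_combination -h4⟩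
  -- the exponent
  obtain ⟨m', b', hmb⟩ : ∃ m' b' : ℕ, m * m' = 1 + p ^ a * b' := by
    obtain ⟨m', -, hm'⟩ := Nat.exists_mul_mod_eq_one_of_coprime (hm.pow_right a)
      (Nat.one_lt_pow ha0.ne' hp.one_lt)
    refine ⟨m', m * m' / p ^ a, ?_⟩
    have h2 := Nat.div_add_mod (m * m') (p ^ a)
    rw [hm'] at h2
    omega
  obtain ⟨y1, hy1⟩ : ∃ y1 : A, ((u1 : A) ^ p ^ a) ^ b' = 1 + w ^ C * y1 := by
    have h2 : w ^ C ∣ ((u1 : A) ^ p ^ a) ^ b' - 1 := by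
      have h3 : (u1 : A) ^ p ^ a - 1 ∣ ((u1 : A) ^ p ^ a) ^ b' - 1 := by
        have h4 := sub_dvd_pow_sub_pow ((u1 : A) ^ p ^ a) 1 b'
        rwa [one_pow] at h4
      refine dvd_trans ⟨y0, ?_⟩ h3
      rw [hy0]
      ring
    obtain ⟨y1, h3⟩ := h2
    exact ⟨y1, by linear_combination h3⟩
  refine ⟨g1 * (u1⁻¹) ^ m', -y1 * ((((u1⁻¹ : Aˣ) : A) ^ p ^ a) ^ b'), ?_⟩
  have hinv : (u1 : A) * ((u1⁻¹ : Aˣ) : A) = 1 := u1.mul_inv
  have e1 : (u : A) * ((g1 * (u1⁻¹) ^ m' : Aˣ) : A) ^ m = (u1 : A) * (((u1⁻¹ : Aˣ) : A) ^ (m * m')) := by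
    rw [Units.val_mul, Units.val_pow_eq_pow_val, mul_pow, hg1, ← mul_assoc, ← hu1', ← pow_mul, mul_comm m' m]
  rw [e1, hmb, pow_add, pow_one, ← mul_assoc, hinv, one_mul, pow_mul]
  have e2 : ((u1 : A) ^ p ^ a) ^ b' * (((u1⁻¹ : Aˣ) : A) ^ p ^ a) ^ b' = 1 := by
    rw [← mul_pow, ← mul_pow, hinv, one_pow, one_pow]
  linear_combination (-((((u1⁻¹ : Aˣ) : A) ^ p ^ a) ^ b')) * hy1 + e2

theorem I3 (p : ℕ) [Fact p.Prime] [CharP k p] (D : GD k[X] n Γ) [IsDomain D.S] (m : ℕ)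
    (hm : m.Coprime p) (hm0 : 0 < m) (u : FractionRing D.S) (hu : u ∈ Ow k D.S)
    (hu' : u⁻¹ ∈ Ow k D.S) (hu0 : u ≠ 0) (C : ℕ) :
    ∃ h : FractionRing D.S, h ≠ 0 ∧ ∃ y ∈ Ow k D.S, u * h ^ m = 1 + wF k D.S ^ C * y := by
  obtain ⟨hpir, hfin, -, hk, hw, hres⟩ := I1 D
  have hchar : CharP (FractionRing D.S) p := by
    have h1 : Function.Injective (kin k D.S) := (kin k D.S).injective
    exact (RingHom.charP_iff (kin k D.S) h1 p).1 inferInstance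
  have hcharA : CharP (Ow k D.S) p :=
    (RingHom.charP_iff (Ow k D.S).subtype Subtype.val_injective p).2 hchar
  have hne := i3_wF_ne D
  let kc : k →+* Ow k D.S := (kin k D.S).codRestrict (Ow k D.S) hk
  let uA : (Ow k D.S)ˣ := ⟨⟨u, hu⟩, ⟨u⁻¹, hu'⟩, Subtype.ext (mul_inv_cancel₀ hu0), Subtype.ext (inv_mul_cancel₀ hu0)⟩
  obtain ⟨h, y, hy⟩ := i3_abs (A := Ow k D.S) p hfin ⟨wF k D.S, hw⟩ (fun h => hne (congrArg Subtype.val h)) kc
    (by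
      intro Q hQ y
      obtain ⟨c, z, hz, hzQ⟩ := hres Q hQ y
      refine ⟨c, ?_⟩
      have e : y - kc c = z := Subtype.ext hz.symm
      rw [e]
      exact hzQ) m hm hm0 uA C
  refine ⟨((h : Ow k D.S) : FractionRing D.S), ?_, (y : FractionRing D.S), y.2, ?_⟩
  · intro h0
    exact h.ne_zero (Subtype.ext h0)
  · have h2 := congrArg (fun z : Ow k D.S => (z : FractionRing D.S)) hy
    exact h2

end Pool.Agent.QPC
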