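import Mathlib
import Pool.Agent.QPC.Defs
import Pool.Agent.QPC.Defs2
import Pool.Agent.QPC.I1
import Pool.Agent.QPC.I2
import Pool.Agent.QPC.I3
import Pool.Agent.QPC.G5

/-!
# QPC row I4: the class becomes an m-th power near infinity, polynomial form
Plan. Given `C`. `I2`: `u := f h^m` unit at infinity. `I3` (for `D.map (vt i m)`, with exponent `C' := C + c0`, `c0` from `I1b`): `u h'^m = 1 + w^C' y`. Write `h h' = h1/d` with `h1 ∈ S`, `d ∈ k[v]`, both non-zero (an element of `FractionRing S` has a denominator in `k[v]`: `S` is integral over `k[v]`). Then `f h1^m - d^m = d^m w^C' y`.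
`I1b` for `y` with `s := (f h1^m - d^m) v^C'`, denominator `d^m`: `y d^m = s` gives `natDegree (s_l) ≤ m natDegree d + c0`, `s_l = v^C' (…)_l`, so `natDegree (…)_l + C' ≤ m natDegree d + c0`, or the coordinate is `0`.
-/

set_option autoImplicit false

namespace Pool.Agent.QPC

open Polynomial

variable {n : ℕ} {Γ : Type} [Group Γ] [Fintype Γ] [DecidableEq Γ]

/-- An element of the fraction field is a quotient with denominator in the base ring. -/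
theorem i4_den {k : Type} [Field k] (D : GD k[X] n Γ) [IsDomain D.S] (x : FractionRing D.S)
    (hx : x ≠ 0) : ∃ (s : D.S) (d : k[X]), s ≠ 0 ∧ d ≠ 0 ∧
      x * algebraMap D.S (FractionRing D.S) (algebraMap k[X] D.S d) = algebraMap D.S _ s := by
  have hinj : Function.Injective (algebraMap D.S (FractionRing D.S)) :=
    IsFractionRing.injective D.S (FractionRing D.S)
  obtain ⟨a, b, hb, hab⟩ := IsFractionRing.div_surjective (A := D.S) x
  have hb0 : b ≠ 0 := nonZeroDivisors.ne_zero hb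
  have hbF : algebraMap D.S (FractionRing D.S) b ≠ 0 := by
    intro h
    exact hb0 (hinj (by rw [h, map_zero]))
  have hfin : Module.Finite k[X] D.S := Module.Finite.of_basis D.toTab.basis
  have hint : Algebra.IsIntegral k[X] D.S := Algebra.IsIntegral.of_finite k[X] D.S
  obtain ⟨c, d, hd, hcd⟩ := Algebra.IsAlgebraic.exists_smul_eq_mul k[X] (1 : D.S) hb0
  have hcd' : algebraMap k[X] D.S d = b * c := by
    rw [← hcd, Algebra.smul_def, mul_one]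
  have hc0 : c ≠ 0 := by
    intro h
    rw [h, mul_zero] at hcd'
    exact hd (G1c D (by rw [hcd', map_zero]))
  have ha0 : a ≠ 0 := by
    intro h
    rw [h, map_zero, zero_div] at hab
    exact hx hab.symm
  refine ⟨a * c, d, mul_ne_zero ha0 hc0, hd, ?_⟩
  rw [← hab, hcd', map_mul, map_mul]
  field_simp

theorem I4 (p : ℕ) [Fact p.Prime] {k₀ k : Type} [CommRing k₀] [Field k] [IsAlgClosed k]
    [CharP k p] (i : k₀ →+* k)
    (D : GD k₀[X] n Γ) (hdom : IsDomain (D.Sx i)) (ℓ e : ℕ) [Fact ℓ.Prime] (hℓ : ℓ ≠ p)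
    (hΓ : ¬ ℓ ∣ Fintype.card Γ) (f : D.Sx i) (hf : f ≠ 0) (C : ℕ) :
    ∃ (h1 : D.Sv i (ℓ ^ e)) (d : k[X]), h1 ≠ 0 ∧ d ≠ 0 ∧ ∀ l,
      (D.xv i (ℓ ^ e) f * h1 ^ (ℓ ^ e) - algebraMap k[X] _ d ^ (ℓ ^ e)).co l = 0 ∨
      ((D.xv i (ℓ ^ e) f * h1 ^ (ℓ ^ e) - algebraMap k[X] _ d ^ (ℓ ^ e)).co l).natDegree + C ≤
        ℓ ^ e * d.natDegree := by
  have hm0 : 0 < ℓ ^ e := pow_pos (Fact.out : ℓ.Prime).pos e
  have hcop : (ℓ ^ e).Coprime p :=
    Nat.Coprime.pow_left e ((Nat.coprime_primes Fact.out Fact.out).2 hℓ)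
  have hS : IsDomain (D.Sv i (ℓ ^ e)) := G5a i D hdom (ℓ ^ e) hm0
  obtain ⟨h, hh0, hu, hu'⟩ := I2 i D hdom ℓ e hΓ f hf
  obtain ⟨c0, hc0⟩ := I1b (D.map (vt i (ℓ ^ e)))
  have hu0 : algebraMap _ (FractionRing (D.Sv i (ℓ ^ e))) (D.xv i (ℓ ^ e) f) * h ^ (ℓ ^ e) ≠ 0 := by
    refine mul_ne_zero ?_ (pow_ne_zero _ hh0)
    intro h0
    have h01 : D.xv i (ℓ ^ e) f = 0 :=
      (IsFractionRing.injective (D.Sv i (ℓ ^ e)) (FractionRing (D.Sv i (ℓ ^ e))))
        (by rw [h0, map_zero])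
    exact hf (i2_xv_inj i D (ℓ ^ e) hm0 (by rw [h01, map_zero]))
  obtain ⟨h', hh'0, y, hy, hy1⟩ :=
    I3 p (D.map (vt i (ℓ ^ e))) (ℓ ^ e) hcop hm0 _ hu hu' hu0 (C + c0)
  obtain ⟨h1, d, hh1, hd, hhd⟩ := i4_den (D.map (vt i (ℓ ^ e))) (h * h') (mul_ne_zero hh0 hh'0)
  refine ⟨h1, d, hh1, hd, ?_⟩
  have hinj : Function.Injective (algebraMap (D.Sv i (ℓ ^ e)) (FractionRing (D.Sv i (ℓ ^ e)))) :=
    IsFractionRing.injective _ _
  have hv0 : algebraMap (D.Sv i (ℓ ^ e)) (FractionRing (D.Sv i (ℓ ^ e)))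
      (algebraMap k[X] (D.Sv i (ℓ ^ e)) X) ≠ 0 := by
    intro h0
    have h1' : algebraMap k[X] (D.Sv i (ℓ ^ e)) X = 0 := hinj (by rw [h0, map_zero])
    have h2 : (X : k[X]) = 0 := G1c (D.map (vt i (ℓ ^ e))) (by rw [h1', map_zero])
    exact X_ne_zero h2
  set s : D.Sv i (ℓ ^ e) :=
    D.xv i (ℓ ^ e) f * h1 ^ (ℓ ^ e) - algebraMap k[X] _ d ^ (ℓ ^ e) with hs
  have key : y * algebraMap (D.Sv i (ℓ ^ e)) (FractionRing (D.Sv i (ℓ ^ e)))
      (algebraMap k[X] (D.Sv i (ℓ ^ e)) (d ^ (ℓ ^ e))) =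
      algebraMap (D.Sv i (ℓ ^ e)) _ ((X ^ (C + c0) : k[X]) • s) := by
    have e1 : algebraMap (D.Sv i (ℓ ^ e)) (FractionRing (D.Sv i (ℓ ^ e))) s =
        algebraMap (D.Sv i (ℓ ^ e)) (FractionRing (D.Sv i (ℓ ^ e)))
          (algebraMap k[X] (D.Sv i (ℓ ^ e)) d) ^ (ℓ ^ e) *
        (wF k (D.Sv i (ℓ ^ e)) ^ (C + c0) * y) := by
      have e2 : wF k (D.Sv i (ℓ ^ e)) ^ (C + c0) * y =
          algebraMap _ (FractionRing (D.Sv i (ℓ ^ e))) (D.xv i (ℓ ^ e) f) * h ^ (ℓ ^ e) *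
            h' ^ (ℓ ^ e) - 1 := by
        rw [hy1]
        ring
      rw [hs, e2, map_sub, map_mul, map_pow, map_pow, ← hhd]
      ring
    rw [Algebra.smul_def, map_mul, e1, map_pow, map_pow, map_pow, map_pow]
    have e3 : wF k (D.Sv i (ℓ ^ e)) * algebraMap (D.Sv i (ℓ ^ e))
        (FractionRing (D.Sv i (ℓ ^ e))) (algebraMap k[X] (D.Sv i (ℓ ^ e)) X) = 1 :=
      inv_mul_cancel₀ hv0
    have e4 := congrArg (fun z => z ^ (C + c0)) e3
    simp only [mul_pow, one_pow] at e4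
    calc _ = y * algebraMap (D.Sv i (ℓ ^ e)) (FractionRing (D.Sv i (ℓ ^ e)))
          (algebraMap k[X] (D.Sv i (ℓ ^ e)) d) ^ (ℓ ^ e) *
          (wF k (D.Sv i (ℓ ^ e)) ^ (C + c0) * algebraMap (D.Sv i (ℓ ^ e))
        (FractionRing (D.Sv i (ℓ ^ e))) (algebraMap k[X] (D.Sv i (ℓ ^ e)) X) ^ (C + c0)) := by
          rw [e4, mul_one]
      _ = _ := by ring
  intro l
  have hkey := hc0 y hy _ _ (pow_ne_zero _ hd) key l
  rw [Tab.smul_co] at hkey
  by_cases h0 : s.co l = 0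
  · exact Or.inl h0
  · right
    rcases hkey with h2 | h2
    · exact absurd ((mul_eq_zero.1 h2).resolve_left (pow_ne_zero _ X_ne_zero)) h0
    · rw [natDegree_mul (pow_ne_zero _ X_ne_zero) h0, natDegree_X_pow, natDegree_pow] at h2
      omega

end Pool.Agent.QPC
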