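import Mathlib
import Pool.Agent.QPC.Defs
import Pool.Agent.QPC.Defs2

/-!
# QPC row I5: m-th roots of elements close to 1, Laurent series
`Small x` (QPC.Defs2): the multiplication matrix of `x ∈ D'.S` (over `LaurentSeries R`) has entries in `w R[[w]]`.
Plan. The elements `x` of `D'.S` whose multiplication matrix has entries in `R[[w]]` form a subring `A0`; the small ones are an ideal `J` of it, `J = w A0`; products of `i` small elements have matrix in `w^i R[[w]]`. Newton/binomial: in characteristic `p`: choose `m'_a` with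
`m m'_a = 1 + p^a b_a`; `g_a := (1+x)^{m'_a}`; `g_a^m = (1+x) (1+x)^{p^a b_a}` and `(1+x)^{p^a} - 1 = x^{p^a}` is divisible by `w^{p^a}`; the sequence can be chosen coherent (`m'_{a+1} ≡ m'_a mod p^a`, since both are inverses of `m` modulo `p^a`) so `g_{a+1} - g_a` has matrix in `w^{p^a}`. The limit `g` (coefficientwise stationary, coordinates: apply the matrix to the
coordinates of `1`; note `x = x * 1`, so the coordinates of a product are controlled by matrices) satisfies `g^m = 1 + x`, `g - 1` small. It may be easier to take limits of the coordinates, using that coordinates of `u` = matrix of `u` applied to the coordinates of `1`.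
(Any other proof is fine, e.g. Hensel's lemma in the `w`-adically complete ring `A0`.)
-/

set_option autoImplicit false

namespace Pool.Agent.QPC

open Polynomial

variable {n : ℕ} {Γ : Type} [Group Γ] [Fintype Γ] [DecidableEq Γ]

/-- Laurent series of order at least `N` -/
def i5_O (k : Type) [Field k] (N : ℤ) : AddSubgroup (LaurentSeries k) where
  carrier := {a | ∀ z : ℤ, z < N → a.coeff z = 0}
  add_mem' := by
    intro a b ha hb z hz
    rw [HahnSeries.coeff_add, ha z hz, hb z hz, add_zero]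
  zero_mem' := fun z _ => HahnSeries.coeff_zero
  neg_mem' := by
    intro a ha z hz
    rw [HahnSeries.coeff_neg, ha z hz, neg_zero]

section i5a

variable {k : Type} [Field k]

theorem i5_O_mono {N M : ℤ} (h : M ≤ N) {a : LaurentSeries k} (ha : a ∈ i5_O k N) :
    a ∈ i5_O k M := fun z hz => ha z (lt_of_lt_of_le hz h)

theorem i5_O_mul {N M : ℤ} {a b : LaurentSeries k} (ha : a ∈ i5_O k N) (hb : b ∈ i5_O k M) :
    a * b ∈ i5_O k (N + M) := by
  intro z hz
  rw [HahnSeries.coeff_mul]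
  refine Finset.sum_eq_zero fun ij h => ?_
  rw [Finset.mem_antidiagonal] at h
  rcases lt_or_ge ij.1 N with h1 | h1
  · rw [ha _ h1, zero_mul]
  · rw [hb _ (by have := h.2.2; omega), mul_zero]

theorem i5_O_exists (a : LaurentSeries k) : ∃ c : ℕ, a ∈ i5_O k (-(c : ℤ)) := by
  refine ⟨(-a.order).toNat, ?_⟩
  intro z hz
  apply HahnSeries.coeff_eq_zero_of_lt_order
  have := Int.self_le_toNat (-a.order)
  omega

theorem i5_O_bound {ι : Type} [Fintype ι] (f : ι → LaurentSeries k) :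
    ∃ c : ℕ, ∀ i, f i ∈ i5_O k (-(c : ℤ)) := by
  choose c hc using fun i => i5_O_exists (f i)
  refine ⟨∑ i, c i, fun i => i5_O_mono ?_ (hc i)⟩
  have h : c i ≤ ∑ i, c i := Finset.single_le_sum (fun _ _ => Nat.zero_le _) (Finset.mem_univ i)
  omega

/-- completeness of the field of Laurent series -/
theorem i5_O_lim (c : ℕ) (a : ℕ → LaurentSeries k)
    (h : ∀ i : ℕ, a (i + 1) - a i ∈ i5_O k ((i : ℤ) - c)) :
    ∃ b : LaurentSeries k, ∀ i : ℕ, b - a i ∈ i5_O k ((i : ℤ) - c) := by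
  have h1 : ∀ i r : ℕ, a (i + r) - a i ∈ i5_O k ((i : ℤ) - c) := by
    intro i r
    induction r with
    | zero => rw [Nat.add_zero, sub_self]; exact zero_mem _
    | succ r ih =>
      have h2 := add_mem (i5_O_mono (by push_cast; omega) (h (i + r)) :
        a (i + r + 1) - a (i + r) ∈ i5_O k ((i : ℤ) - c)) ih
      rwa [sub_add_sub_cancel] at h2
  have h2 : ∀ (z : ℤ) (i : ℕ), z < (i : ℤ) - c → (a (z + c + 1).toNat).coeff z =
      (a i).coeff z := by
    intro z i hz
    have h3 : (z + c + 1).toNat ≤ i := by omega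
    obtain ⟨r, rfl⟩ := Nat.exists_eq_add_of_le h3
    have h4 := h1 (z + c + 1).toNat r z (by
      have := Int.self_le_toNat (z + c + 1)
      omega)
    rw [HahnSeries.coeff_sub, sub_eq_zero] at h4
    exact h4.symm
  have hpwo : (Function.support fun z : ℤ => (a (z + c + 1).toNat).coeff z).IsPWO := by
    have h3 : (Function.support fun z : ℤ => (a (z + c + 1).toNat).coeff z) ⊆
        (a 0).support ∪ Set.Ici (-(c : ℤ)) := by
      intro z hz
      rcases lt_or_ge z (-(c : ℤ)) with h4 | h4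
      · left
        have h5 : (z + c + 1).toNat = 0 := by omega
        rw [Function.mem_support, h5] at hz
        exact hz
      · right
        exact h4
    refine Set.IsPWO.mono ?_ h3
    refine Set.IsPWO.union (a 0).isPWO_support ?_
    exact (bddBelow_Ici.isWF).isPWO
  refine ⟨⟨fun z => (a (z + c + 1).toNat).coeff z, hpwo⟩, ?_⟩
  intro i z hz
  rw [HahnSeries.coeff_sub, sub_eq_zero]
  exact h2 z i hz

variable (D' : GD (LaurentSeries k) n Γ)

/-- elements with multiplication matrix of order at least `N` -/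
def i5_F (N : ℤ) : AddSubgroup D'.S where
  carrier := {x | ∀ j l, (x * D'.eta j).co l ∈ i5_O k N}
  add_mem' := by
    intro a b ha hb j l
    rw [add_mul, Tab.add_co]
    exact add_mem (ha j l) (hb j l)
  zero_mem' := by
    intro j l
    rw [zero_mul]
    exact zero_mem _
  neg_mem' := by
    intro a ha j l
    rw [neg_mul, Tab.neg_co]
    exact neg_mem (ha j l)

variable {D'}

theorem i5_F_mono {N M : ℤ} (h : M ≤ N) {x : D'.S} (hx : x ∈ i5_F D' N) : x ∈ i5_F D' M :=
  fun j l => i5_O_mono h (hx j l)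

theorem i5_exp (u : D'.S) : u = ∑ i, u.co i • D'.eta i := by
  refine Tab.ext' fun l => ?_
  rw [Tab.sum_co]
  simp only [Tab.smul_co, GD.eta, Pi.single_apply, mul_ite, mul_one, mul_zero]
  rw [Finset.sum_ite_eq, if_pos (Finset.mem_univ l)]

theorem i5_mul_co (x y : D'.S) (l : Fin n) :
    (x * y).co l = ∑ i, y.co i * (x * D'.eta i).co l := by
  conv_lhs => rw [i5_exp y, Finset.mul_sum, Tab.sum_co]
  refine Finset.sum_congr rfl fun i _ => ?_
  rw [mul_smul_comm, Tab.smul_co]

theorem i5_F_mul {N M : ℤ} {x y : D'.S} (hx : x ∈ i5_F D' N) (hy : y ∈ i5_F D' M) :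
    x * y ∈ i5_F D' (N + M) := by
  intro j l
  rw [mul_assoc, i5_mul_co]
  refine sum_mem fun i _ => ?_
  rw [mul_comm]
  exact i5_O_mul (hx i l) (hy j i)

theorem i5_F_one : (1 : D'.S) ∈ i5_F D' 0 := by
  intro j l z hz
  rw [one_mul]
  change ((Pi.single j (1 : LaurentSeries k) : Fin n → LaurentSeries k) l).coeff z = 0
  rw [Pi.single_apply]
  split_ifs
  · rw [HahnSeries.coeff_one, if_neg (by omega)]
  · rfl

theorem i5_F_smul {N M : ℤ} {a : LaurentSeries k} (ha : a ∈ i5_O k M) {x : D'.S}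
    (hx : x ∈ i5_F D' N) : a • x ∈ i5_F D' (M + N) := by
  intro j l
  rw [smul_mul_assoc, Tab.smul_co]
  exact i5_O_mul ha (hx j l)

theorem i5_F_co : ∃ c : ℕ, ∀ (N : ℤ) (x : D'.S), x ∈ i5_F D' N →
    ∀ l, x.co l ∈ i5_O k (N - c) := by
  obtain ⟨c, hc⟩ := i5_O_bound (fun i => (1 : D'.S).co i)
  refine ⟨c, fun N x hx l => ?_⟩
  rw [← mul_one x, i5_mul_co]
  refine sum_mem fun i _ => ?_
  have := i5_O_mul (hc i) (hx i l)
  rwa [neg_add_eq_sub] at this

theorem i5_co_F : ∃ c : ℕ, ∀ (N : ℤ) (x : D'.S), (∀ l, x.co l ∈ i5_O k (N + c)) →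
    x ∈ i5_F D' N := by
  obtain ⟨c, hc⟩ := i5_O_bound (fun i : Fin n × Fin n × Fin n =>
    (D'.eta i.1 * D'.eta i.2.1).co i.2.2)
  refine ⟨c, fun N x hx j l => ?_⟩
  rw [mul_comm, i5_mul_co]
  refine sum_mem fun i _ => ?_
  have := i5_O_mul (hx i) (hc (j, i, l))
  rwa [add_neg_cancel_right] at this

theorem i5_F_zero {x : D'.S} (h : ∀ N : ℕ, x ∈ i5_F D' N) : x = 0 := by
  obtain ⟨c, hc⟩ := i5_F_co (D' := D')
  refine Tab.ext' fun l => ?_
  rw [Tab.zero_co]
  ext z
  rw [HahnSeries.coeff_zero]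
  refine hc ((z + 1 + c).toNat : ℤ) x ?_ l z ?_
  · exact h _
  · have := Int.self_le_toNat (z + 1 + c)
    omega

theorem i5_sub_co (x y : D'.S) (l : Fin n) : (x - y).co l = x.co l - y.co l := by
  rw [sub_eq_add_neg, Tab.add_co, Tab.neg_co, ← sub_eq_add_neg]

theorem i5_F_lim (u : ℕ → D'.S) (h : ∀ i : ℕ, u (i + 1) - u i ∈ i5_F D' i) :
    ∃ g : D'.S, ∀ i : ℕ, g - u i ∈ i5_F D' i := by
  obtain ⟨c, hc⟩ := i5_F_co (D' := D')
  obtain ⟨c', hc'⟩ := i5_co_F (D' := D')
  have h1 : ∀ l : Fin n, ∃ b : LaurentSeries k, ∀ i : ℕ,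
      b - (u i).co l ∈ i5_O k ((i : ℤ) - c) := by
    intro l
    refine i5_O_lim c (fun i => (u i).co l) fun i => ?_
    have h2 := hc i _ (h i) l
    rwa [i5_sub_co] at h2
  choose b hb using h1
  have h2 : ∀ i r : ℕ, u (i + r) - u i ∈ i5_F D' (i : ℤ) := by
    intro i r
    induction r with
    | zero => rw [Nat.add_zero, sub_self]; exact zero_mem _
    | succ r ih =>
      have h2 := add_mem (i5_F_mono (by push_cast; omega) (h (i + r)) :
        u (i + r + 1) - u (i + r) ∈ i5_F D' (i : ℤ)) ih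
      rwa [sub_add_sub_cancel] at h2
  refine ⟨⟨b⟩, fun i => ?_⟩
  have h3 : (⟨b⟩ : D'.S) - u (i + (c + c')) ∈ i5_F D' (i : ℤ) := by
    refine hc' _ _ fun l => ?_
    rw [i5_sub_co]
    refine i5_O_mono ?_ (hb l (i + (c + c')))
    push_cast
    omega
  have h4 := add_mem h3 (h2 i (c + c'))
  rwa [sub_add_sub_cancel] at h4

theorem i5_F_pow {x : D'.S} (hx : x ∈ i5_F D' 0) (m : ℕ) : x ^ m ∈ i5_F D' 0 := by
  induction m with
  | zero => rw [pow_zero]; exact i5_F_one
  | succ m ih =>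
    rw [pow_succ]
    have := i5_F_mul ih hx
    rwa [add_zero] at this

theorem i5_pow_sub {N : ℤ} {a b : D'.S} (ha : a ∈ i5_F D' 0) (hb : b ∈ i5_F D' 0)
    (h : a - b ∈ i5_F D' N) (m : ℕ) : a ^ m - b ^ m ∈ i5_F D' N := by
  induction m with
  | zero => rw [pow_zero, pow_zero, sub_self]; exact zero_mem _
  | succ m ih =>
    have h1 : a ^ (m + 1) - b ^ (m + 1) = a * (a ^ m - b ^ m) + (a - b) * b ^ m := by ring
    rw [h1]
    have h2 := i5_F_mul ha ih
    have h3 := i5_F_mul h (i5_F_pow hb m)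
    rw [zero_add] at h2
    rw [add_zero] at h3
    exact add_mem h2 h3

theorem i5_bin {N : ℤ} (hN : 0 ≤ N) {u d : D'.S} (hu : u ∈ i5_F D' 0) (hd : d ∈ i5_F D' N)
    (m : ℕ) : (u + d) ^ (m + 1) - u ^ (m + 1) - ((m + 1 : ℕ) : D'.S) * u ^ m * d ∈
      i5_F D' (N + N) := by
  induction m with
  | zero =>
    have : (u + d) ^ (0 + 1) - u ^ (0 + 1) - ((0 + 1 : ℕ) : D'.S) * u ^ 0 * d = 0 := by
      push_cast
      ring
    rw [this]
    exact zero_mem _
  | succ m ih =>
    have h1 : (u + d) ^ (m + 1 + 1) - u ^ (m + 1 + 1) - ((m + 1 + 1 : ℕ) : D'.S) * u ^ (m + 1) * d =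
        (u + d) * ((u + d) ^ (m + 1) - u ^ (m + 1) - ((m + 1 : ℕ) : D'.S) * u ^ m * d) +
          (m + 1) • (u ^ m * (d * d)) := by
      rw [nsmul_eq_mul]
      push_cast
      ring
    rw [h1]
    have hud : u + d ∈ i5_F D' 0 := add_mem hu (i5_F_mono hN hd)
    have h2 := i5_F_mul hud ih
    have h3 := i5_F_mul (i5_F_pow hu m) (i5_F_mul hd hd)
    rw [zero_add] at h2 h3
    exact add_mem h2 (nsmul_mem h3 _)

end i5a

theorem I5 (p : ℕ) [Fact p.Prime] {k : Type} [Field k] [CharP k p]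
    (D' : GD (LaurentSeries k) n Γ) (m : ℕ) (hm : m.Coprime p) (hm0 : 0 < m) (x : D'.S)
    (hx : GD.Small x) : ∃ g : D'.S, g ^ m = 1 + x ∧ GD.Small (g - 1) := by
  obtain ⟨m, rfl⟩ : ∃ m', m = m' + 1 := ⟨m - 1, by omega⟩
  have hmk : ((m + 1 : ℕ) : k) ≠ 0 := by
    intro h
    rw [CharP.cast_eq_zero_iff k p] at h
    have h1 : p ∣ 1 := by
      have h2 := Nat.dvd_gcd h (dvd_refl p)
      rwa [hm] at h2
    exact (Fact.out : p.Prime).one_lt.ne' (Nat.dvd_one.1 h1)
  obtain ⟨μ, hμ⟩ : ∃ μ : LaurentSeries k, μ = HahnSeries.C (((m + 1 : ℕ) : k)⁻¹) := ⟨_, rfl⟩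
  have hμ0 : μ ∈ i5_O k 0 := by
    intro z hz
    rw [hμ, HahnSeries.C_apply, HahnSeries.coeff_single_of_ne (by omega)]
  have hμ1 : μ * ((m + 1 : ℕ) : LaurentSeries k) = 1 := by
    have h1 : ((m + 1 : ℕ) : LaurentSeries k) = HahnSeries.C ((m + 1 : ℕ) : k) :=
      (map_natCast (HahnSeries.C : k →+* LaurentSeries k) (m + 1)).symm
    rw [hμ, h1, ← map_mul, inv_mul_cancel₀ hmk, map_one]
  have hx1 : x ∈ i5_F D' 1 := fun j l z hz => hx j l z (by omega)
  obtain ⟨u, hu0, hu⟩ : ∃ u : ℕ → D'.S, u 0 = 1 ∧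
      ∀ i, u (i + 1) = u i + μ • (1 + x - u i ^ (m + 1)) :=
    ⟨fun i => Nat.rec 1 (fun _ v => v + μ • (1 + x - v ^ (m + 1))) i, rfl, fun _ => rfl⟩
  have hinv : ∀ i : ℕ, u i - 1 ∈ i5_F D' 1 ∧ 1 + x - u i ^ (m + 1) ∈ i5_F D' ((i : ℤ) + 1) := by
    intro i
    induction i with
    | zero =>
      rw [hu0, sub_self, one_pow, add_sub_cancel_left]
      refine ⟨zero_mem _, ?_⟩
      simpa using hx1
    | succ i ih =>
      obtain ⟨h1, h2⟩ := ih
      obtain ⟨d, hd⟩ : ∃ d : D'.S, d = μ • (1 + x - u i ^ (m + 1)) := ⟨_, rfl⟩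
      have hdF : d ∈ i5_F D' ((i : ℤ) + 1) := by
        rw [hd]
        have := i5_F_smul hμ0 h2
        rwa [zero_add] at this
      have hd2 : ((m + 1 : ℕ) : D'.S) * d = 1 + x - u i ^ (m + 1) := by
        have h3 : ((m + 1 : ℕ) : D'.S) = ((m + 1 : ℕ) : LaurentSeries k) • (1 : D'.S) := by
          rw [← Algebra.algebraMap_eq_smul_one, map_natCast]
        rw [h3, smul_mul_assoc, one_mul, hd, smul_smul, mul_comm, hμ1, one_smul]
      have hui : u i ∈ i5_F D' 0 := by
        have h3 := add_mem (i5_F_mono (by norm_num) h1 : u i - 1 ∈ i5_F D' 0) i5_F_one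
        rwa [sub_add_cancel] at h3
      rw [hu i, ← hd]
      constructor
      · have h3 : u i + d - 1 = (u i - 1) + d := by ring
        rw [h3]
        exact add_mem h1 (i5_F_mono (by omega) hdF)
      · have h3 := i5_bin (by omega) hui hdF m
        have h4 : u i ^ m - 1 ^ m ∈ i5_F D' 1 := i5_pow_sub hui i5_F_one h1 m
        rw [one_pow] at h4
        have h5 := i5_F_mul h2 h4
        have h6 : 1 + x - (u i + d) ^ (m + 1) =
            -((u i + d) ^ (m + 1) - u i ^ (m + 1) - ((m + 1 : ℕ) : D'.S) * u i ^ m * d) -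
              (1 + x - u i ^ (m + 1)) * (u i ^ m - 1) := by
          have h7 : ((m + 1 : ℕ) : D'.S) * u i ^ m * d =
              (1 + x - u i ^ (m + 1)) * u i ^ m := by
            rw [← hd2]
            ring
          rw [h7]
          ring
        rw [h6]
        refine sub_mem (neg_mem (i5_F_mono ?_ h3)) (i5_F_mono ?_ h5)
        · push_cast
          omega
        · push_cast
          omega
  have huF : ∀ i, u i ∈ i5_F D' 0 := by
    intro i
    have h3 := add_mem (i5_F_mono (by norm_num) (hinv i).1 : u i - 1 ∈ i5_F D' 0) i5_F_one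
    rwa [sub_add_cancel] at h3
  obtain ⟨g, hg⟩ := i5_F_lim u (fun i => by
    rw [hu i, add_sub_cancel_left]
    have h3 := i5_F_smul hμ0 (hinv i).2
    rw [zero_add] at h3
    exact i5_F_mono (by omega) h3)
  have hgF : g ∈ i5_F D' 0 := by
    have h3 := add_mem (hg 0) (huF 0)
    rwa [sub_add_cancel] at h3
  refine ⟨g, ?_, ?_⟩
  · rw [← sub_eq_zero]
    refine i5_F_zero fun i => ?_
    have h3 := i5_pow_sub hgF (huF i) (hg i) (m + 1)
    have h4 := sub_mem h3 (i5_F_mono (by omega) (hinv i).2 :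
      1 + x - u i ^ (m + 1) ∈ i5_F D' (i : ℤ))
    have h5 : g ^ (m + 1) - (1 + x) = g ^ (m + 1) - u i ^ (m + 1) -
        (1 + x - u i ^ (m + 1)) := by ring
    rw [h5]
    exact h4
  · have h3 := add_mem (hg 1) (hinv 1).1
    rw [sub_add_sub_cancel] at h3
    intro j l a ha
    exact h3 j l a (by push_cast; omega)

end Pool.Agent.QPC
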