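import Mathlib
import Pool.Agent.QPC.Defs
import Pool.Agent.QPC.Defs2
import Pool.Agent.QPC.I4
import Pool.Agent.QPC.I5

/-!
# QPC row I6: the class near infinity
Plan. There is a constant `C` (depending on the structure constants) such that if `δ ∈ D.Sw i m` has all coordinates with `coeff a = 0` for `a < C`, then `δ` is small (the matrix entries are `∑_a δ_a c(a,j,l)` with fixed `c(a,j,l) ∈ LaurentSeries k`). Take `h1, d` from `I4` for `C + 1`. `vw d` is a unit of `LaurentSeries k` (`d ≠ 0`; `vw` injective), of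
order `-natDegree d`. `δ := vwS(f h1^m) / (vw d)^m - 1 ` has coordinates `vw((f h1^m - d^m)_l) / (vw d)^m` of order `≥ C+1` (`vw P` has order `-natDegree P`). `I5`: `g^m = 1 + δ`. So `vwS(f h1^m) = (vw d)^m g^m`.
-/

set_option autoImplicit false

namespace Pool.Agent.QPC

open Polynomial

variable {n : ℕ} {Γ : Type} [Group Γ] [Fintype Γ] [DecidableEq Γ]

theorem i6_vanish {k : Type} [Field k] {x y : LaurentSeries k} {A B : ℤ}
    (hx : ∀ a : ℤ, a < A → x.coeff a = 0) (hy : ∀ b : ℤ, b < B → y.coeff b = 0) (c : ℤ)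
    (hc : c < A + B) : (x * y).coeff c = 0 := by
  rw [HahnSeries.coeff_mul]
  refine Finset.sum_eq_zero fun ij h => ?_
  rw [Finset.mem_antidiagonal] at h
  by_cases h1 : ij.1 < A
  · rw [hx _ h1, zero_mul]
  · rw [hy _ (by have := h.2.2; omega), mul_zero]

theorem i6_vw_coeff {k : Type} [Field k] (P : k[X]) (a : ℤ) :
    (vw k P).coeff a = ∑ j ∈ Finset.range (P.natDegree + 1),
      if a = -(j : ℤ) then P.coeff j else 0 := by
  unfold vw
  rw [coe_eval₂RingHom, eval₂_eq_sum_range]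
  have h1 : ∀ j : ℕ, (HahnSeries.C (P.coeff j) : LaurentSeries k) *
      (HahnSeries.single (-1 : ℤ) (1 : k)) ^ j = HahnSeries.single (-(j : ℤ)) (P.coeff j) := by
    intro j
    rw [HahnSeries.single_pow, one_pow, HahnSeries.C_apply, HahnSeries.single_mul_single]
    simp
  rw [Finset.sum_congr rfl fun j _ => h1 j]
  rw [HahnSeries.coeff_sum]
  refine Finset.sum_congr rfl fun j _ => ?_
  rw [HahnSeries.coeff_single]
  split_ifs <;> rfl

theorem i6_vw_lt {k : Type} [Field k] (P : k[X]) (a : ℤ) (ha : a < -(P.natDegree : ℤ)) :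
    (vw k P).coeff a = 0 := by
  rw [i6_vw_coeff]
  refine Finset.sum_eq_zero fun j hj => ?_
  rw [Finset.mem_range] at hj
  rw [if_neg (by omega)]

theorem i6_vw_lead {k : Type} [Field k] (P : k[X]) :
    (vw k P).coeff (-(P.natDegree : ℤ)) = P.leadingCoeff := by
  rw [i6_vw_coeff, Finset.sum_eq_single P.natDegree]
  · rw [if_pos rfl]
    rfl
  · intro j _ hj
    rw [if_neg (by omega)]
  · intro h
    exact absurd (Finset.mem_range.2 (Nat.lt_succ_self _)) h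

theorem i6_vw_ne {k : Type} [Field k] {P : k[X]} (hP : P ≠ 0) : vw k P ≠ 0 := by
  intro h
  have h1 := i6_vw_lead P
  rw [h] at h1
  exact hP (leadingCoeff_eq_zero.1 h1.symm)

theorem i6_vw_order {k : Type} [Field k] {P : k[X]} (hP : P ≠ 0) :
    (vw k P).order = -(P.natDegree : ℤ) := by
  have hne := i6_vw_ne hP
  refine le_antisymm ?_ ?_
  · refine HahnSeries.order_le_of_coeff_ne_zero ?_
    rw [i6_vw_lead]
    exact leadingCoeff_ne_zero.2 hP
  · by_contra hlt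
    rw [not_le] at hlt
    have h1 := i6_vw_lt P _ hlt
    exact hne ((HahnSeries.coeff_order_eq_zero).1 h1)

theorem i6_inv_lt {k : Type} [Field k] {P : k[X]} (hP : P ≠ 0) (m : ℕ) (a : ℤ)
    (ha : a < (m : ℤ) * P.natDegree) : (((vw k P) ^ m)⁻¹).coeff a = 0 := by
  have hne := i6_vw_ne hP
  have hne' : ((vw k P) ^ m) ≠ 0 := pow_ne_zero _ hne
  have h1 : ((vw k P) ^ m) * ((vw k P) ^ m)⁻¹ = 1 := mul_inv_cancel₀ hne'
  have h2 := congrArg HahnSeries.order h1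
  rw [HahnSeries.order_mul hne' (inv_ne_zero hne'), HahnSeries.order_one, HahnSeries.order_pow,
    i6_vw_order hP, nsmul_eq_mul] at h2
  refine HahnSeries.coeff_eq_zero_of_lt_order ?_
  have h3 : (((vw k P) ^ m)⁻¹).order = (m : ℤ) * P.natDegree := by linarith
  rw [h3]
  exact ha

theorem i6_bound {k : Type} [Field k] {ι : Type} [Fintype ι] (c : ι → LaurentSeries k) :
    ∃ N : ℕ, ∀ t, ∀ a : ℤ, a < -(N : ℤ) → (c t).coeff a = 0 := by
  classical
  refine ⟨∑ t, (c t).order.natAbs, fun t a ha => ?_⟩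
  refine HahnSeries.coeff_eq_zero_of_lt_order ?_
  have h1 : (c t).order.natAbs ≤ ∑ t, (c t).order.natAbs :=
    Finset.single_le_sum (f := fun t => (c t).order.natAbs) (fun _ _ => Nat.zero_le _)
      (Finset.mem_univ t)
  omega

theorem i6_mul_eta {A : Type} [CommRing A] (D' : GD A n Γ) (x : D'.S) (j l : Fin n) :
    (x * D'.eta j).co l = ∑ a, x.co a * D'.c a j l := by
  rw [Tab.mul_co]
  refine Finset.sum_congr rfl fun a _ => ?_
  rw [Finset.sum_eq_single j]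
  · change x.co a * (Pi.single j (1 : A) : Fin n → A) j * _ = _
    rw [Pi.single_eq_same, mul_one]
  · intro b _ hb
    change x.co a * (Pi.single j (1 : A) : Fin n → A) b * _ = _
    rw [Pi.single_eq_of_ne hb]
    ring
  · intro h
    exact absurd (Finset.mem_univ _) h

theorem i6_small {k : Type} [Field k] (D' : GD (LaurentSeries k) n Γ) : ∃ N : ℕ, ∀ x : D'.S,
    (∀ l, ∀ a : ℤ, a < (N : ℤ) → (x.co l).coeff a = 0) → GD.Small x := by
  obtain ⟨N, hN⟩ := i6_bound (fun t : Fin n × Fin n × Fin n => D'.c t.1 t.2.1 t.2.2)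
  refine ⟨N + 1, fun x hx j l a ha => ?_⟩
  rw [i6_mul_eta, HahnSeries.coeff_sum]
  refine Finset.sum_eq_zero fun b _ => ?_
  refine i6_vanish (A := ((N + 1 : ℕ) : ℤ)) (B := -(N : ℤ)) (hx b) (hN (b, j, l)) a ?_
  push_cast
  omega

theorem i6_alg {k₀ k : Type} [CommRing k₀] [Field k] (i : k₀ →+* k) (D : GD k₀[X] n Γ) (m : ℕ)
    (d : k[X]) : D.vwS i m (algebraMap k[X] (D.Sv i m) d) =
      algebraMap (LaurentSeries k) (D.Sw i m) (vw k d) := by
  refine Tab.ext' fun l => ?_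
  change vw k ((algebraMap k[X] (D.Sv i m) d).co l) = _
  rw [Tab.algebraMap_co, Tab.algebraMap_co, map_mul]
  rfl

theorem I6 (p : ℕ) [Fact p.Prime] {k₀ k : Type} [CommRing k₀] [Field k] [IsAlgClosed k]
    [CharP k p] (i : k₀ →+* k)
    (D : GD k₀[X] n Γ) (hdom : IsDomain (D.Sx i)) (ℓ e : ℕ) [Fact ℓ.Prime] (hℓ : ℓ ≠ p)
    (hΓ : ¬ ℓ ∣ Fintype.card Γ) (f : D.Sx i) (hf : f ≠ 0) :
    ∃ (h1 : D.Sv i (ℓ ^ e)) (d : k[X]) (g : D.Sw i (ℓ ^ e)), h1 ≠ 0 ∧ d ≠ 0 ∧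
      D.vwS i (ℓ ^ e) (D.xv i (ℓ ^ e) f * h1 ^ (ℓ ^ e)) =
        (algebraMap _ (D.Sw i (ℓ ^ e)) (vw k d) * g) ^ (ℓ ^ e) ∧ GD.Small (g - 1) := by
  have hmp : (ℓ ^ e).Coprime p := Nat.Coprime.pow_left e
    ((Nat.coprime_primes (Fact.out : ℓ.Prime) (Fact.out : p.Prime)).2 hℓ)
  have hm0 : 0 < ℓ ^ e := pow_pos (Fact.out : ℓ.Prime).pos e
  obtain ⟨N, hN⟩ := i6_small (D.map ((vw k).comp (vt i (ℓ ^ e))))
  obtain ⟨h1, d, hh1, hd, hdeg⟩ := I4 p i D hdom ℓ e hℓ hΓ f hf N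
  have hvd := i6_vw_ne hd
  set z : D.Sv i (ℓ ^ e) :=
    D.xv i (ℓ ^ e) f * h1 ^ (ℓ ^ e) - algebraMap k[X] _ d ^ (ℓ ^ e) with hz
  set δ : D.Sw i (ℓ ^ e) := (((vw k d) ^ (ℓ ^ e))⁻¹) • D.vwS i (ℓ ^ e) z with hδ
  have hsmall : GD.Small δ := by
    refine hN δ fun l a ha => ?_
    rw [hδ, Tab.smul_co]
    change (((vw k d) ^ (ℓ ^ e))⁻¹ * vw k (z.co l)).coeff a = 0
    rcases hdeg l with h0 | h0
    · rw [h0, map_zero, mul_zero]
      rfl
    · refine i6_vanish (A := ((ℓ ^ e : ℕ) : ℤ) * d.natDegree) (B := -((z.co l).natDegree : ℤ))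
        (i6_inv_lt hd (ℓ ^ e)) (i6_vw_lt (z.co l)) a ?_
      have h2 : (((z.co l).natDegree + N : ℕ) : ℤ) ≤ ((ℓ ^ e * d.natDegree : ℕ) : ℤ) := by
        exact_mod_cast h0
      rw [Nat.cast_add, Nat.cast_mul] at h2
      linarith
  obtain ⟨g, hg, hgs⟩ := I5 p (D.map ((vw k).comp (vt i (ℓ ^ e)))) (ℓ ^ e) hmp hm0 δ hsmall
  refine ⟨h1, d, g, hh1, hd, ?_, hgs⟩
  have h3 : D.xv i (ℓ ^ e) f * h1 ^ (ℓ ^ e) = algebraMap k[X] _ d ^ (ℓ ^ e) + z := by
    rw [hz]; ring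
  rw [h3, map_add, map_pow, i6_alg, mul_pow, hg, mul_add, mul_one]
  congr 1
  rw [hδ, Algebra.smul_def, ← mul_assoc, ← map_pow, ← map_mul,
    mul_inv_cancel₀ (pow_ne_zero _ hvd), map_one, one_mul]

end Pool.Agent.QPC
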