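import Mathlib
import Pool.Agent.QPC.Defs
import Pool.Agent.QPC.Defs2
import Pool.Agent.QPC.G4
import Pool.Agent.QPC.G5
import Pool.Agent.QPC.G6
import Pool.Agent.QPC.I6

/-!
# QPC row G8: the base data on the v-line
Plan. `G2b`: `P`. `htor` for `P`. `G4` (`B := k[X]`, `D := D.map (mapRingHom i)`, `π := X`): `f, c`. `G5a, G5d`: `(φ f) = I0^m`. `I6`: `h1, d, g`. `f' := φ f * h1^m`; `I := I0 * (h1)`. `NT`: `G6` for `φ f`; and `a^ℓ Xn ν (φ f * h1^m) = h^ℓ` gives `(a (Xn ν h1)^(m/ℓ))^ℓ Xn ν (φ f) = h^ℓ`, `Xn ν h1 ≠ 0` (domain, `ac γ` injective).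
-/

set_option autoImplicit false

namespace Pool.Agent.QPC

open Polynomial

variable {n : ℕ} {Γ : Type} [Group Γ] [Fintype Γ] [DecidableEq Γ]

theorem g8_ac_inj {A : Type} [CommRing A] (D : GD A n Γ) (γ : Γ) : Function.Injective (D.ac γ) := by
  intro u v h
  have h1 := congrArg (D.ac γ⁻¹) h
  rw [← D.ac_mul, ← D.ac_mul, inv_mul_cancel, D.ac_one, D.ac_one] at h1
  exact h1

theorem g8_Xn_mul {R : Type} [CommRing R] {D' : GD R n Γ} {ℓ : ℕ} (ν : Γ → ZMod ℓ) (F F' : D'.S) :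
    GD.Xn ν (F * F') = GD.Xn ν F * GD.Xn ν F' := by
  unfold GD.Xn
  rw [← Finset.prod_mul_distrib]
  refine Finset.prod_congr rfl fun γ _ => ?_
  rw [map_mul, mul_pow]

theorem g8_Xn_pow {R : Type} [CommRing R] {D' : GD R n Γ} {ℓ : ℕ} (ν : Γ → ZMod ℓ) (F : D'.S) (m : ℕ) :
    GD.Xn ν (F ^ m) = GD.Xn ν F ^ m := by
  unfold GD.Xn
  rw [← Finset.prod_pow]
  refine Finset.prod_congr rfl fun γ _ => ?_
  rw [map_pow, ← pow_mul, ← pow_mul, mul_comm]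

theorem g8_Xn_ne {R : Type} [CommRing R] {D' : GD R n Γ} [IsDomain D'.S] {ℓ : ℕ} (ν : Γ → ZMod ℓ) {F : D'.S}
    (hF : F ≠ 0) : GD.Xn ν F ≠ 0 := by
  unfold GD.Xn
  rw [Finset.prod_ne_zero_iff]
  intro γ _
  refine pow_ne_zero _ fun h => hF (g8_ac_inj D' γ ?_)
  rw [h, map_zero]

theorem g8_xv_ne {k₀ k : Type} [CommRing k₀] [Field k] (i : k₀ →+* k) (D : GD k₀[X] n Γ) {m : ℕ} (hm : 0 < m)
    {f : D.Sx i} (hf : f ≠ 0) : D.xv i m f ≠ 0 := by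
  intro h
  apply hf
  refine Tab.ext' fun l => ?_
  have h1 : (D.xv i m f).co l = 0 := by
    rw [h]
    rfl
  have h2 : (D.xv i m f).co l = Polynomial.expand k m (f.co l) := rfl
  rw [h2, Polynomial.expand_eq_zero hm] at h1
  exact h1

theorem G8 (p : ℕ) [Fact p.Prime] {k₀ k : Type} [CommRing k₀] [Field k] [IsAlgClosed k]
    [CharP k p] (i : k₀ →+* k)
    (D : GD k₀[X] n Γ) (hdom : IsDomain (D.Sx i)) (ℓ e : ℕ) [Fact ℓ.Prime] (hℓ : ℓ ≠ p)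
    (he : 0 < e) (hΓ : ¬ ℓ ∣ Fintype.card Γ) (ζ : k) (hζ : IsPrimitiveRoot ζ (ℓ ^ e))
    (htor : ∀ I : Ideal (D.Sx i), I ≠ ⊥ → ∃ h : ℕ, 0 < h ∧ ∃ f, I ^ h = Ideal.span {f}) :
    ∃ (f' : D.Sv i (ℓ ^ e)) (d : k[X]) (I : Ideal (D.Sv i (ℓ ^ e))) (g : D.Sw i (ℓ ^ e)),
      f' ≠ 0 ∧ d ≠ 0 ∧ Ideal.span {f'} = I ^ (ℓ ^ e) ∧
      D.vwS i (ℓ ^ e) f' = (algebraMap _ (D.Sw i (ℓ ^ e)) (vw k d) * g) ^ (ℓ ^ e) ∧
      GD.Small (g - 1) ∧ GD.NT ℓ f' := by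
  have hm : 0 < ℓ ^ e := pow_pos (Fact.out : ℓ.Prime).pos e
  have hX0 : (X : k[X]) ≠ 0 := X_ne_zero
  obtain ⟨P, hP, hπ, hres⟩ := G2b (D.map (mapRingHom i))
  have hPbot : P ≠ ⊥ := by
    rintro rfl
    have h1 := (hπ X).2 dvd_rfl
    rw [Ideal.mem_bot] at h1
    exact hX0 (G1c (D.map (mapRingHom i)) (by rw [h1, map_zero]))
  obtain ⟨f, c, hf0, hf, hNT⟩ := G4 (D.map (mapRingHom i)) ℓ hΓ P hP X hX0 hπ hres (htor P hPbot)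
  have hdomv : IsDomain (D.Sv i (ℓ ^ e)) := G5a i D hdom (ℓ ^ e) hm
  obtain ⟨I0, hI0⟩ := G5d i D hdom (ℓ ^ e) hm P hP hπ hres f c hf
  obtain ⟨h1, d, g, hh1, hd, heq, hsm⟩ := I6 p i D hdom ℓ e hℓ hΓ f hf0
  have hxf : D.xv i (ℓ ^ e) f ≠ 0 := g8_xv_ne i D hm hf0
  refine ⟨D.xv i (ℓ ^ e) f * h1 ^ (ℓ ^ e), d, I0 * Ideal.span {h1}, g, mul_ne_zero hxf (pow_ne_zero _ hh1), hd, ?_,
    heq, hsm, ?_⟩
  · rw [← Ideal.span_singleton_mul_span_singleton, hI0, ← Ideal.span_singleton_pow, mul_pow]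
  · intro ν hν a h ha hah
    have h6 := G6 i D hdom ℓ e he ζ hζ f hNT
    have hXn : GD.Xn ν h1 ≠ 0 := g8_Xn_ne ν hh1
    refine h6 ν hν (a * GD.Xn ν h1 ^ (ℓ ^ (e - 1))) h (mul_ne_zero ha (pow_ne_zero _ hXn)) ?_
    rw [← hah, g8_Xn_mul, g8_Xn_pow, mul_pow, ← pow_mul, ← pow_succ, Nat.sub_add_cancel he]
    ring

end Pool.Agent.QPC
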