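import Mathlib
import Pool.Agent.QPC.Defs

/-!
# QPC row Q1: roots in a cover unramified outside `0` and `∞`
`ck : k →+* L` is the inclusion of the constants, `x := algebraMap k[X] L X`.
Plan. `Q1`. `B := integralClosure k[X] L`, a Dedekind domain (`IsIntegralClosure.isDedekindDomain`, separable finite extension of the fraction field of `k[X]`). `y ∈ B`; `y` is transcendental over `k`, `k[y] → B` integral; a prime `𝔮` of `B` lies over `(y - c)` (or: `y - c` is not a unit of `B`: otherwise ..). `x = y^n ∉ 𝔮` (else `y ∈ 𝔮`, `c ∈ 𝔮`). `hun`: `Algebra.IsUnramifiedAt k[X] 𝔮`,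
and `𝔮` lies over `(X - c^n)` so the localisation at `𝔮` (a discrete valuation ring) has maximal ideal generated by `x - c^n` (`Algebra.isUnramifiedAt_iff_map_eq` or the lemma on `IsUnramifiedAt` and maximal ideals). So `v(x - c^n) = 1`, `y - c` divides it, `y - c ∈ 𝔮`, so `v(y - c) = 1`. `f = (X - c)^a f1`, `f1(c) ≠ 0`, so `f1(y) ∉ 𝔮` (`f1(y) ≡ f1(c)`), `v(f(y)) = a`. `g` is integral, `g^q = f(y)`, `q v(g) = a`.
`Q2`. `f` splits: `f = C a * ∏ (X - c)^{m_c}`; `a = a'^q`; `q ∣ m_c` for `c ≠ 0`.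
-/

set_option autoImplicit false

namespace Pool.Agent.QPC

open Polynomial

variable {p : ℕ} [Fact p.Prime] {k : Type} [Field k] [IsAlgClosed k] [CharP k p]
  {L : Type} [Field L] [Algebra (RatFunc k) L] [Algebra k[X] L] [IsScalarTower k[X] (RatFunc k) L]

variable (k L) in
/-- The inclusion of the constants. -/
noncomputable def ck : k →+* L := (algebraMap k[X] L).comp C

omit [IsAlgClosed k] [CharP k p] [Algebra (RatFunc k) L] [Algebra k[X] L]
  [IsScalarTower k[X] (RatFunc k) L] [Field L] [Field k] [Fact p.Prime] in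
theorem q1_unr {A B : Type} [CommRing A] [CommRing B] [Algebra A B] [Algebra.EssFiniteType A B]
    (q : Ideal B) [q.IsPrime] (h : Algebra.IsUnramifiedAt A q) :
    (q.under A).map (algebraMap A (Localization.AtPrime q)) =
      IsLocalRing.maximalIdeal (Localization.AtPrime q) := by
  let _ := Localization.AtPrime.algebraOfLiesOver (q.under A) q
  exact ((Algebra.isUnramifiedAt_iff_map_eq A (q.under A) q).mp h).2

theorem q1_dvd {R : Type} [CommRing R] [IsDomain R] [WfDvdMonoid R] {π g u : R} {q a : ℕ}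
    (hπ : Prime π) (hu : ¬ π ∣ u) (h : g ^ q = π ^ a * u) : q ∣ a := by
  by_cases hq : q = 0
  · subst hq
    rw [pow_zero] at h
    by_cases ha : a = 0
    · rw [ha]
    · exfalso
      obtain ⟨b, rfl⟩ := Nat.exists_eq_succ_of_ne_zero ha
      exact hπ.not_isUnit (isUnit_of_dvd_one ⟨π ^ b * u, by rw [h, pow_succ]; ring⟩)
  have hg : g ≠ 0 := by
    rintro rfl
    rw [zero_pow hq] at h
    rcases mul_eq_zero.mp h.symm with h1 | h1
    · exact absurd h1 (pow_ne_zero a hπ.ne_zero)
    · exact hu (h1 ▸ dvd_zero π)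
  obtain ⟨m, v, hv, rfl⟩ := WfDvdMonoid.max_power_factor hg hπ.irreducible
  rw [mul_pow, ← pow_mul] at h
  rcases lt_trichotomy (m * q) a with h1 | h1 | h1
  · exfalso
    obtain ⟨d, rfl⟩ := Nat.exists_eq_add_of_lt h1
    have h2 : v ^ q = π * (π ^ d * u) := by
      apply mul_left_cancel₀ (pow_ne_zero (m * q) hπ.ne_zero)
      rw [h]; ring
    exact hv (hπ.dvd_of_dvd_pow ⟨_, h2⟩)
  · exact ⟨m, by rw [← h1, mul_comm]⟩
  · exfalso
    obtain ⟨d, hd⟩ := Nat.exists_eq_add_of_lt h1
    rw [hd] at h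
    have h2 : u = π * (π ^ d * v ^ q) := by
      apply mul_left_cancel₀ (pow_ne_zero a hπ.ne_zero)
      rw [← h]; ring
    exact hu ⟨_, h2⟩

theorem Q1 [FiniteDimensional (RatFunc k) L] [IsGalois (RatFunc k) L]
    (hun : ∀ (q : Ideal (integralClosure k[X] L)) (_ : q.IsPrime),
      algebraMap k[X] (integralClosure k[X] L) X ∉ q → Algebra.IsUnramifiedAt k[X] q)
    (n : ℕ) (hn : 0 < n) (y : L) (hy : y ^ n = algebraMap k[X] L X) (q : ℕ) (hq : 0 < q)
    (f : k[X]) (hf : f ≠ 0) (g : L) (hg : g ^ q = f.eval₂ (ck k L) y) (c : k) (hc : c ≠ 0) :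
    q ∣ f.rootMultiplicity c := by
  have hinjL : Function.Injective (algebraMap k[X] L) := by
    rw [IsScalarTower.algebraMap_eq k[X] (RatFunc k) L]
    exact (algebraMap (RatFunc k) L).injective.comp (IsFractionRing.injective k[X] (RatFunc k))
  -- the ring B
  let B := integralClosure k[X] L
  have hfinB : Module.Finite k[X] B := IsIntegralClosure.finite k[X] (RatFunc k) L B
  have hnoeth : IsNoetherianRing B := IsIntegralClosure.isNoetherianRing k[X] (RatFunc k) L B
  have hyint : IsIntegral k[X] y := by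
    apply IsIntegral.of_pow hn
    rw [hy]
    exact isIntegral_algebraMap
  let y' : B := ⟨y, hyint⟩
  let φ : k[X] →+* B := eval₂RingHom ((algebraMap k[X] B).comp C) y'
  have hφL : ∀ P : k[X], ((φ P : B) : L) = P.eval₂ (ck k L) y := by
    intro P
    have h1 : (algebraMap B L).comp φ = eval₂RingHom (ck k L) y := by
      apply Polynomial.ringHom_ext
      · intro a
        simp only [RingHom.comp_apply, φ, coe_eval₂RingHom, eval₂_C, ck]
        exact (IsScalarTower.algebraMap_apply k[X] B L (C a)).symm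
      · simp only [RingHom.comp_apply, φ, coe_eval₂RingHom, eval₂_X]
        rfl
    exact congrArg (fun F : k[X] →+* L => F P) h1
  let ψ : k[X] →+* k[X] := eval₂RingHom C (X ^ n)
  have hψ : ∀ P : k[X], φ (ψ P) = algebraMap k[X] B P := by
    intro P
    have h1 : φ.comp ψ = algebraMap k[X] B := by
      apply Polynomial.ringHom_ext
      · intro a
        simp only [RingHom.comp_apply, φ, ψ, coe_eval₂RingHom, eval₂_C]
      · simp only [RingHom.comp_apply, φ, ψ, coe_eval₂RingHom, eval₂_X, eval₂_X_pow]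
        apply Subtype.ext
        change y ^ n = _
        rw [hy]
        exact IsScalarTower.algebraMap_apply k[X] B L X
    exact congrArg (fun F : k[X] →+* B => F P) h1
  have hker : ∀ P : k[X], φ P = 0 → P = 0 := by
    intro P hP
    by_contra hP0
    let _ : Algebra k L := (ck k L).toAlgebra
    have h1 : IsAlgebraic k y := by
      refine ⟨P, hP0, ?_⟩
      rw [aeval_def]
      change P.eval₂ (ck k L) y = 0
      rw [← hφL, hP]; rfl
    have h2 : IsAlgebraic k (y ^ n) := h1.pow n
    obtain ⟨R, hR0, hR⟩ := h2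
    rw [aeval_def] at hR
    change R.eval₂ (ck k L) (y ^ n) = 0 at hR
    rw [hy] at hR
    have h3 : R.eval₂ (ck k L) (algebraMap k[X] L X) = algebraMap k[X] L R := by
      have h4 : eval₂RingHom (ck k L) (algebraMap k[X] L X) = algebraMap k[X] L := by
        apply Polynomial.ringHom_ext
        · intro a
          rw [coe_eval₂RingHom, eval₂_C]; rfl
        · rw [coe_eval₂RingHom, eval₂_X]
      exact congrArg (fun F : k[X] →+* L => F R) h4
    rw [h3, map_eq_zero_iff _ hinjL] at hR
    exact hR0 hR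
  -- the prime
  have hmax : (Ideal.span {X - C c} : Ideal k[X]).IsMaximal :=
    PrincipalIdealRing.isMaximal_of_irreducible (irreducible_X_sub_C c)
  obtain ⟨Q, hQm, hQ⟩ : ∃ Q : Ideal B, Q.IsMaximal ∧ Q.comap φ = Ideal.span {X - C c} := by
    have hint : @Algebra.IsIntegral k[X] B _ _ φ.toAlgebra := by
      refine @Algebra.IsIntegral.mk k[X] B _ _ φ.toAlgebra fun b => ?_
      obtain ⟨P, hP, hb⟩ := (integralClosure.isIntegral (R := k[X]) (A := L) b)
      refine ⟨P.map ψ, hP.map ψ, ?_⟩
      rw [eval₂_map]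
      have h1 : (@algebraMap k[X] B _ _ φ.toAlgebra).comp ψ =
          @algebraMap k[X] B _ _ (Subalgebra.algebra _) := RingHom.ext hψ
      rw [h1]
      exact hb
    have hk : RingHom.ker φ ≤ Ideal.span {X - C c} := by
      intro P hP
      rw [hker P hP]
      exact Ideal.zero_mem _
    exact @Ideal.exists_ideal_over_maximal_of_isIntegral k[X] _ B _ φ.toAlgebra hint _ hmax hk
  have hQp : Q.IsPrime := hQm.isPrime
  have hmem : ∀ P : k[X], φ P ∈ Q ↔ (X - C c) ∣ P := by
    intro P
    rw [← Ideal.mem_comap, hQ, Ideal.mem_span_singleton]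
  have hXQ : algebraMap k[X] B X ∉ Q := by
    intro h1
    rw [← hψ, hmem] at h1
    simp only [ψ, coe_eval₂RingHom, eval₂_X] at h1
    rw [dvd_iff_isRoot, IsRoot, eval_pow, eval_X] at h1
    exact hc (pow_eq_zero_iff hn.ne' |>.mp h1)
  have hunr := hun Q hQp hXQ
  have hmap := q1_unr (A := k[X]) (B := B) Q hunr
  -- the discrete valuation ring
  let R := Localization.AtPrime Q
  let π : R := algebraMap B R (φ (X - C c))
  have hinjR : Function.Injective (algebraMap B R) :=
    IsLocalization.injective R Q.primeCompl_le_nonZeroDivisors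
  have hR1 : IsNoetherianRing R := IsLocalization.isNoetherianRing Q.primeCompl R hnoeth
  have hR2 : IsDomain R := 
    IsLocalization.isDomain_of_le_nonZeroDivisors R Q.primeCompl_le_nonZeroDivisors
  have hR3 : WfDvdMonoid R := IsNoetherianRing.wfDvdMonoid
  have hπ0 : π ≠ 0 := by
    intro h1
    have h2 := (map_eq_zero_iff _ hinjR).mp h1
    exact X_sub_C_ne_zero c (hker _ h2)
  have hπm : IsLocalRing.maximalIdeal R = Ideal.span {π} := by
    apply le_antisymm
    · rw [← hmap, Ideal.map_le_iff_le_comap]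
      intro P hP
      have hP1 : algebraMap k[X] B P ∈ Q := hP
      rw [← hψ, hmem] at hP1
      obtain ⟨S, hS⟩ := hP1
      rw [Ideal.mem_comap, Ideal.mem_span_singleton]
      refine ⟨algebraMap B R (φ S), ?_⟩
      rw [IsScalarTower.algebraMap_apply k[X] B R, ← hψ, hS, map_mul, map_mul]
    · rw [Ideal.span_singleton_le_iff_mem]
      exact (IsLocalization.AtPrime.to_map_mem_maximal_iff R Q _).mpr ((hmem _).mpr dvd_rfl)
  have hπp : Prime π := by
    rw [← Ideal.span_singleton_prime hπ0, ← hπm]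
    exact (IsLocalRing.maximalIdeal.isMaximal R).isPrime
  obtain ⟨f1, hf1, hf2⟩ := exists_eq_pow_rootMultiplicity_mul_and_not_dvd f hf c
  have hgint : IsIntegral k[X] g := by
    apply IsIntegral.of_pow hq
    rw [hg, ← hφL]
    exact (φ f).2
  let g' : B := ⟨g, hgint⟩
  have hg' : g' ^ q = φ f := Subtype.ext (by
    change g ^ q = _
    rw [hg, hφL])
  refine q1_dvd (R := R) (π := π) (g := algebraMap B R g') (u := algebraMap B R (φ f1)) hπp ?_ ?_
  · rw [← Ideal.mem_span_singleton, ← hπm]
    intro h1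
    exact hf2 ((hmem _).mp ((IsLocalization.AtPrime.to_map_mem_maximal_iff R Q _).mp h1))
  · rw [← map_pow, hg', ← map_pow, ← map_mul, ← map_pow, ← map_mul, ← hf1]

theorem Q2 (q : ℕ) (hq : 0 < q) (f : k[X]) (hf : f ≠ 0)
    (h : ∀ c : k, c ≠ 0 → q ∣ f.rootMultiplicity c) : ∃ (j : ℕ) (h : k[X]), f = X ^ j * h ^ q := by
  classical
  obtain ⟨a, ha⟩ := IsAlgClosed.exists_pow_nat_eq f.leadingCoeff hq
  have h1 : f = C f.leadingCoeff * (f.roots.map fun a => X - C a).prod :=
    ((IsAlgClosed.splits f).eq_prod_roots)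
  rw [prod_multiset_root_eq_finset_root] at h1
  refine ⟨f.rootMultiplicity 0,
    C a * ∏ c ∈ f.roots.toFinset.erase 0, (X - C c) ^ (f.rootMultiplicity c / q), ?_⟩
  rw [mul_pow, ← C_pow, ha, ← Finset.prod_pow]
  have h2 : ∏ c ∈ f.roots.toFinset.erase 0, ((X - C c) ^ (f.rootMultiplicity c / q)) ^ q =
      ∏ c ∈ f.roots.toFinset.erase 0, (X - C c) ^ (f.rootMultiplicity c) := by
    refine Finset.prod_congr rfl fun c hc => ?_
    rw [← pow_mul, Nat.div_mul_cancel (h c (Finset.ne_of_mem_erase hc))]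
  rw [h2]
  have h3 : X ^ (f.rootMultiplicity 0) *
      ∏ c ∈ f.roots.toFinset.erase 0, (X - C c) ^ (f.rootMultiplicity c) =
      ∏ c ∈ f.roots.toFinset, (X - C c) ^ (f.rootMultiplicity c) := by
    by_cases h0 : (0 : k) ∈ f.roots.toFinset
    · rw [← Finset.mul_prod_erase _ _ h0, C_0, sub_zero]
    · rw [Finset.erase_eq_of_notMem h0]
      have h4 : f.rootMultiplicity 0 = 0 := by
        rw [rootMultiplicity_eq_zero_iff]
        intro h5
        exact absurd (by rw [Multiset.mem_toFinset, mem_roots hf]; exact h5) h0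
      rw [h4, pow_zero, one_mul]
  calc f = C f.leadingCoeff * ∏ c ∈ f.roots.toFinset, (X - C c) ^ (f.rootMultiplicity c) := h1
    _ = _ := by rw [← h3]; ring

end Pool.Agent.QPC
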