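import Mathlib
import Pool.Agent.QPC.Defs
import Pool.Agent.QPC.Q1

/-!
# QPC row Q3: a Kummer step
`adj y := IntermediateField.adjoin (RatFunc k) {y}` = `k(y)`.
Plan. `K := adj y`. `K` contains a primitive `q`-th root of unity (`k` algebraically closed, `q ≠ p`). `M/K` is cyclic of degree `q` (`hM`: `M ≥ K` intermediate field, Galois of prime degree `q` over `K`), so `M = K(g)` with `g^q ∈ K`, `g ∉ K` (`exists_root_adjoin_eq_top_of_isCyclic`; work with `IntermediateField.extendScalars` or `restrictScalars`). Every element of `K` is a quotient `f1(y)/f2(y)` with `f1, f2 ∈ k[X]` (`RatFunc k = k(x)`, `x = y^n`; `K` is the field generated by `k` and `y`), so after multiplying `g` by `f2(y)`: `g^q = f(y)`, `f = f1 f2^(q-1)`.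
`Q1`, `Q2`: `f = X^j h^q`, replace `g` by `g / h(y)`: `g^q = y^j`, `g ∉ K`, `g ∈ M`. `q ∤ j` (otherwise `g = ε y^(j/q) ∈ K`). `u j + v q = 1`: `y' := g^u y^v` satisfies `y'^q = y`, `y' ∈ M`; `y'^(n q) = x`; `y' ∉ K` (else `g = ε y'^j ∈ K`).
-/

set_option autoImplicit false

namespace Pool.Agent.QPC

open Polynomial

section q3_helpers

theorem q3_res {F L : Type} [Field F] [Field L] [Algebra F L] [FiniteDimensional F L]
    [IsGalois F L] (V : Subgroup (L ≃ₐ[F] L)) (τ : L ≃ₐ[F] L) (q : ℕ) (hq : q.Prime)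
    (hτq : τ ^ q ∈ V) (hτ : τ ∉ V) (hVτ : ∀ σ ∈ V, τ⁻¹ * σ * τ ∈ V) (ζ : L) (hζ : ζ ^ q = 1)
    (hζτ : τ ζ = ζ) (hζV : ∀ σ ∈ V, σ ζ = ζ) :
    ∃ g : L, g ≠ 0 ∧ (∀ σ ∈ V, σ g = g) ∧ ζ * τ g = g := by
  set M := IntermediateField.fixedField V with hM
  have hmem : ∀ x : L, x ∈ M ↔ ∀ σ ∈ V, σ x = x := by
    intro x
    rw [hM, IntermediateField.mem_fixedField_iff]
  have hstep : ∀ x ∈ M, τ x ∈ M := by
    intro x hx
    rw [hmem] at hx ⊢
    intro σ hσ
    have h1 := hx _ (hVτ σ hσ)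
    have h2 : (τ⁻¹ * σ * τ) x = τ⁻¹ (σ (τ x)) := rfl
    rw [h2] at h1
    have h3 := congrArg τ h1
    have h4 : τ (τ⁻¹ (σ (τ x))) = σ (τ x) := by
      change (τ * τ⁻¹) (σ (τ x)) = _
      rw [mul_inv_cancel]; rfl
    rw [h4] at h3
    exact h3
  have hpow : ∀ (i : ℕ) (x : L), x ∈ M → (τ ^ i) x ∈ M := by
    intro i
    induction i with
    | zero => intro x hx; exact hx
    | succ i ih =>
      intro x hx
      rw [pow_succ']
      exact hstep _ (ih x hx)
  let χ : Fin q → (M →* L) := fun i =>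
    { toFun := fun m => (τ ^ (i : ℕ)) (m : L)
      map_one' := by simp
      map_mul' := fun a b => by simp }
  have hχ : Function.Injective χ := by
    have key : ∀ i j : Fin q, i < j → χ i ≠ χ j := by
      intro i j hij heq
      have h1 : τ ^ ((j : ℕ) - (i : ℕ)) ∈ V := by
        rw [← IntermediateField.fixingSubgroup_fixedField V]
        rw [IntermediateField.mem_fixingSubgroup_iff]
        intro x hx
        have h2 : (τ ^ (i : ℕ)) x = (τ ^ (j : ℕ)) x :=
          congrArg (fun f : M →* L => f ⟨x, hx⟩) heq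
        have hij' : (i : ℕ) < (j : ℕ) := hij
        have h3 : τ ^ (j : ℕ) = τ ^ (i : ℕ) * τ ^ ((j : ℕ) - (i : ℕ)) := by
          rw [← pow_add]
          congr 1
          omega
        rw [h3] at h2
        exact ((τ ^ (i : ℕ)).injective h2).symm
      have hij' : (i : ℕ) < (j : ℕ) := hij
      have hjq : (j : ℕ) < q := j.isLt
      have hcop : Nat.Coprime ((j : ℕ) - (i : ℕ)) q := by
        rw [Nat.coprime_comm, Nat.Prime.coprime_iff_not_dvd hq]
        intro hd
        have := Nat.le_of_dvd (by omega) hd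
        omega
      apply hτ
      have h4 := Nat.gcd_eq_gcd_ab ((j : ℕ) - (i : ℕ)) q
      rw [Nat.coprime_iff_gcd_eq_one.1 hcop] at h4
      have h5 : τ = (τ ^ ((j : ℕ) - (i : ℕ))) ^ (Nat.gcdA ((j : ℕ) - (i : ℕ)) q) *
          (τ ^ q) ^ (Nat.gcdB ((j : ℕ) - (i : ℕ)) q) := by
        rw [← zpow_natCast τ ((j : ℕ) - (i : ℕ)), ← zpow_natCast τ q, ← zpow_mul, ← zpow_mul,
          ← zpow_add, ← h4]
        simp
      rw [h5]
      exact V.mul_mem (V.zpow_mem h1 _) (V.zpow_mem hτq _)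
    intro i j hij
    by_contra hne
    rcases lt_or_gt_of_ne hne with h | h
    · exact key i j h hij
    · exact key j i h hij.symm
  have hli := (linearIndependent_monoidHom M L).comp χ hχ
  rw [Fintype.linearIndependent_iff] at hli
  obtain ⟨m, hm⟩ : ∃ m : M, ∑ i : Fin q, ζ ^ (i : ℕ) * (τ ^ (i : ℕ)) (m : L) ≠ 0 := by
    by_contra hcon
    push Not at hcon
    have h1 := hli (fun i => ζ ^ (i : ℕ)) (by
      funext m
      have h2 := hcon m
      simpa [Finset.sum_apply, χ] using h2) ⟨0, hq.pos⟩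
    simp at h1
  rw [Fin.sum_univ_eq_sum_range (fun i => ζ ^ i * (τ ^ i) (m : L)) q] at hm
  refine ⟨_, hm, ?_, ?_⟩
  · intro σ hσ
    rw [map_sum]
    refine Finset.sum_congr rfl fun i _ => ?_
    rw [map_mul, map_pow, hζV σ hσ]
    congr 1
    exact (hmem _).1 (hpow i _ m.2) σ hσ
  · have h1 : ∀ i : ℕ, ζ * τ (ζ ^ i * (τ ^ i) (m : L)) = ζ ^ (i + 1) * (τ ^ (i + 1)) (m : L) := by
      intro i
      rw [map_mul, map_pow, hζτ, pow_succ' τ i, pow_succ' ζ i, mul_assoc]
      rfl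
    rw [map_sum, Finset.mul_sum]
    rw [Finset.sum_congr rfl fun i _ => h1 i]
    have h2 := Finset.sum_range_succ (fun i => ζ ^ i * (τ ^ i) (m : L)) q
    have h3 := Finset.sum_range_succ' (fun i => ζ ^ i * (τ ^ i) (m : L)) q
    have h4 : ζ ^ q * (τ ^ q) (m : L) = ζ ^ 0 * (τ ^ 0) (m : L) := by
      rw [hζ, pow_zero, pow_zero]
      congr 1
      exact (hmem _).1 m.2 _ hτq
    rw [h3, h4] at h2
    exact add_right_cancel h2

variable {k : Type} [Field k] {L : Type} [Field L] [Algebra (RatFunc k) L] [Algebra k[X] L]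
  [IsScalarTower k[X] (RatFunc k) L]

theorem q3_ck_fix (σ : L ≃ₐ[RatFunc k] L) (c : k) : σ (ck k L c) = ck k L c := by
  have h : ck k L c = algebraMap (RatFunc k) L (algebraMap k[X] (RatFunc k) (C c)) := by
    rw [← IsScalarTower.algebraMap_apply]
    rfl
  rw [h, σ.commutes]

omit [Algebra (RatFunc k) L] [IsScalarTower k[X] (RatFunc k) L] in
theorem q3_map_eval (P : k[X]) : algebraMap k[X] L P = P.eval₂ (ck k L) (algebraMap k[X] L X) := by
  have h : (algebraMap k[X] L) = Polynomial.eval₂RingHom (ck k L) (algebraMap k[X] L X) := by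
    apply Polynomial.ringHom_ext
    · intro a
      simp [ck]
    · simp
  exact congrArg (fun f : k[X] →+* L => f P) h

omit [Algebra k[X] L] [IsScalarTower k[X] (RatFunc k) L] in
theorem q3_alg_inj0 [Algebra k[X] L] [IsScalarTower k[X] (RatFunc k) L] :
    Function.Injective (algebraMap k[X] L) := by
  rw [IsScalarTower.algebraMap_eq k[X] (RatFunc k) L]
  exact (algebraMap (RatFunc k) L).injective.comp (IsFractionRing.injective k[X] (RatFunc k))

omit [Algebra (RatFunc k) L] [IsScalarTower k[X] (RatFunc k) L] in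
theorem q3_comp (n : ℕ) (y : L) (hy : y ^ n = algebraMap k[X] L X) (P : k[X]) :
    (P.comp (X ^ n)).eval₂ (ck k L) y = algebraMap k[X] L P := by
  rw [q3_map_eval, Polynomial.eval₂_comp, Polynomial.eval₂_pow, Polynomial.eval₂_X, hy]

theorem q3_fix_eval (σ : L ≃ₐ[RatFunc k] L) (y : L) (h : σ y = y) (f : k[X]) :
    σ (f.eval₂ (ck k L) y) = f.eval₂ (ck k L) y := by
  have h1 := Polynomial.hom_eval₂ f (ck k L) ((σ : L ≃+* L) : L →+* L) y
  have h2 : ((σ : L ≃+* L) : L →+* L).comp (ck k L) = ck k L :=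
    RingHom.ext fun c => q3_ck_fix σ c
  rw [h2] at h1
  have h3 : ((σ : L ≃+* L) : L →+* L) y = y := h
  rw [h3] at h1
  exact h1

/-- elements of `k(x)(y)` are quotients of polynomials in `y` -/
theorem q3_frac [FiniteDimensional (RatFunc k) L] (n : ℕ) (y : L)
    (hy : y ^ n = algebraMap k[X] L X) (z : L)
    (hz : z ∈ IntermediateField.adjoin (RatFunc k) ({y} : Set L)) :
    ∃ f1 f2 : k[X], f2.eval₂ (ck k L) y ≠ 0 ∧ z * f2.eval₂ (ck k L) y = f1.eval₂ (ck k L) y := by
  have h0 : z ∈ (IntermediateField.adjoin (RatFunc k) ({y} : Set L)).toSubalgebra := hz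
  rw [IntermediateField.adjoin_simple_toSubalgebra_of_isAlgebraic (IsAlgebraic.of_finite _ y)] at h0
  induction h0 using Algebra.adjoin_induction with
  | mem x hx =>
    rw [Set.mem_singleton_iff] at hx
    rw [hx]
    exact ⟨X, 1, by simp, by simp⟩
  | algebraMap r =>
    refine ⟨(RatFunc.num r).comp (X ^ n), (RatFunc.denom r).comp (X ^ n), ?_, ?_⟩
    · rw [q3_comp n y hy]
      intro h
      have h1 := (map_eq_zero_iff _ (q3_alg_inj0 (k := k) (L := L))).1 h
      exact RatFunc.denom_ne_zero r h1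
    · rw [q3_comp n y hy, q3_comp n y hy, IsScalarTower.algebraMap_apply k[X] (RatFunc k) L,
        IsScalarTower.algebraMap_apply k[X] (RatFunc k) L, ← map_mul]
      congr 1
      have h1 := RatFunc.num_div_denom r
      have h2 : algebraMap k[X] (RatFunc k) (RatFunc.denom r) ≠ 0 := by
        intro h
        exact RatFunc.denom_ne_zero r
          ((map_eq_zero_iff _ (IsFractionRing.injective k[X] (RatFunc k))).1 h)
      rw [div_eq_iff h2] at h1
      exact h1.symm
  | add a b hxa hxb ha hb =>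
    have hza : a ∈ IntermediateField.adjoin (RatFunc k) ({y} : Set L) :=
      IntermediateField.algebra_adjoin_le_adjoin _ _ hxa
    have hzb : b ∈ IntermediateField.adjoin (RatFunc k) ({y} : Set L) :=
      IntermediateField.algebra_adjoin_le_adjoin _ _ hxb
    obtain ⟨f1, f2, h1, h2⟩ := ha hza
    obtain ⟨g1, g2, h3, h4⟩ := hb hzb
    refine ⟨f1 * g2 + g1 * f2, f2 * g2, ?_, ?_⟩
    · rw [Polynomial.eval₂_mul]
      exact mul_ne_zero h1 h3
    · rw [Polynomial.eval₂_add, Polynomial.eval₂_mul, Polynomial.eval₂_mul, Polynomial.eval₂_mul,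
        ← h2, ← h4]
      ring
  | mul a b hxa hxb ha hb =>
    have hza : a ∈ IntermediateField.adjoin (RatFunc k) ({y} : Set L) :=
      IntermediateField.algebra_adjoin_le_adjoin _ _ hxa
    have hzb : b ∈ IntermediateField.adjoin (RatFunc k) ({y} : Set L) :=
      IntermediateField.algebra_adjoin_le_adjoin _ _ hxb
    obtain ⟨f1, f2, h1, h2⟩ := ha hza
    obtain ⟨g1, g2, h3, h4⟩ := hb hzb
    refine ⟨f1 * g1, f2 * g2, ?_, ?_⟩
    · rw [Polynomial.eval₂_mul]
      exact mul_ne_zero h1 h3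
    · rw [Polynomial.eval₂_mul, Polynomial.eval₂_mul, ← h2, ← h4]
      ring

end q3_helpers

variable {p : ℕ} [Fact p.Prime] {k : Type} [Field k] [IsAlgClosed k] [CharP k p]
  {L : Type} [Field L] [Algebra (RatFunc k) L] [Algebra k[X] L] [IsScalarTower k[X] (RatFunc k) L]

theorem Q3 [FiniteDimensional (RatFunc k) L] [IsGalois (RatFunc k) L]
    (hun : ∀ (q : Ideal (integralClosure k[X] L)) (_ : q.IsPrime),
      algebraMap k[X] (integralClosure k[X] L) X ∉ q → Algebra.IsUnramifiedAt k[X] q)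
    (n : ℕ) (hn : 0 < n) (y : L) (hy : y ^ n = algebraMap k[X] L X) (q : ℕ) (hq : q.Prime)
    (hqp : q ≠ p)
    (U V : Subgroup (L ≃ₐ[RatFunc k] L)) (hU : ∀ σ : L ≃ₐ[RatFunc k] L, σ ∈ U ↔ σ y = y)
    (hVU : V ≤ U) (hnorm : (V.subgroupOf U).Normal) (hidx : (V.subgroupOf U).index = q) :
    ∃ y' : L, y' ^ q = y ∧ (∀ σ ∈ V, σ y' = y') ∧ ∃ σ ∈ U, σ y' ≠ y' := by
  have hqk : NeZero (q : k) := by
    refine ⟨fun h0 => ?_⟩
    rw [CharP.cast_eq_zero_iff k p] at h0
    exact hqp ((Nat.prime_dvd_prime_iff_eq Fact.out hq).1 h0).symm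
  obtain ⟨ζ0, hζ0⟩ := HasEnoughRootsOfUnity.exists_primitiveRoot k q
  set ζ : L := ck k L ζ0 with hζdef
  have hζ : IsPrimitiveRoot ζ q := hζ0.map_of_injective (ck k L).injective
  have hζ1 : ζ ^ q = 1 := hζ.pow_eq_one
  have hy0 : y ≠ 0 := by
    intro h
    rw [h, zero_pow hn.ne'] at hy
    exact X_ne_zero ((map_eq_zero_iff _ (q3_alg_inj0 (k := k) (L := L))).1 hy.symm)
  -- the generator
  have hqN : (V.subgroupOf U).index ≠ 1 := by
    rw [hidx]
    exact hq.one_lt.ne'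
  obtain ⟨τ, hτU, hτV⟩ : ∃ τ ∈ U, τ ∉ V := by
    by_contra hcon
    push Not at hcon
    apply hqN
    rw [Subgroup.index_eq_one, Subgroup.subgroupOf_eq_top]
    exact hcon
  have hτq : τ ^ q ∈ V := by
    have h1 := Subgroup.pow_index_mem (V.subgroupOf U) (⟨τ, hτU⟩ : U)
    rw [hidx, Subgroup.mem_subgroupOf] at h1
    exact h1
  have hVτ : ∀ σ ∈ V, τ⁻¹ * σ * τ ∈ V := by
    intro σ hσ
    have h1 := hnorm.conj_mem ⟨σ, hVU hσ⟩ (Subgroup.mem_subgroupOf.2 hσ) (⟨τ, hτU⟩⁻¹ : U)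
    rw [Subgroup.mem_subgroupOf] at h1
    simpa using h1
  obtain ⟨g, hg0, hgV, hgτ⟩ := q3_res V τ q hq hτq hτV hVτ ζ hζ1 (q3_ck_fix τ ζ0)
    (fun σ _ => q3_ck_fix σ ζ0)
  have hτy : τ y = y := (hU τ).1 hτU
  -- `g ^ q` is fixed by `U`
  have hgen : ∀ (S : Subgroup U), V.subgroupOf U ≤ S → (⟨τ, hτU⟩ : U) ∈ S → S = ⊤ := by
    intro S hS hτS
    have h1 : S.index ∣ q := by
      rw [← hidx]
      exact Subgroup.index_dvd_of_le hS
    rcases (Nat.dvd_prime hq).1 h1 with h2 | h2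
    · exact Subgroup.index_eq_one.1 h2
    · exfalso
      have h3 : (V.subgroupOf U).index ≤ S.index := by rw [hidx, h2]
      have h4 := Subgroup.relIndex_mul_index hS
      rw [hidx, h2] at h4
      have h5 : (V.subgroupOf U).relIndex S = 1 := by
        have := hq.pos
        exact Nat.eq_of_mul_eq_mul_right this (by rw [h4, one_mul])
      rw [Subgroup.relIndex_eq_one] at h5
      exact hτV (Subgroup.mem_subgroupOf.1 (h5 hτS))
  have hfix : ∀ z : L, (∀ σ ∈ V, σ z = z) → τ z = z → ∀ σ ∈ U, σ z = z := by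
    intro z hzV hzτ
    let S : Subgroup U :=
      { carrier := {σ | (σ : L ≃ₐ[RatFunc k] L) z = z}
        mul_mem' := by
          intro a b ha hb
          change (a : L ≃ₐ[RatFunc k] L) ((b : L ≃ₐ[RatFunc k] L) z) = z
          rw [show (b : L ≃ₐ[RatFunc k] L) z = z from hb]
          exact ha
        one_mem' := rfl
        inv_mem' := by
          intro a ha
          have h1 : (a : L ≃ₐ[RatFunc k] L) z = z := ha
          have h2 : (a : L ≃ₐ[RatFunc k] L)⁻¹ ((a : L ≃ₐ[RatFunc k] L) z) = z := by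
            change ((a : L ≃ₐ[RatFunc k] L)⁻¹ * (a : L ≃ₐ[RatFunc k] L)) z = z
            rw [inv_mul_cancel]; rfl
          rw [h1] at h2
          exact h2 }
    have hS := hgen S (fun σ hσ => hzV σ (Subgroup.mem_subgroupOf.1 hσ)) hzτ
    intro σ hσ
    have h1 : (⟨σ, hσ⟩ : U) ∈ S := by rw [hS]; trivial
    exact h1
  have hgq : ∀ σ ∈ U, σ (g ^ q) = g ^ q := by
    apply hfix
    · intro σ hσ
      rw [map_pow, hgV σ hσ]
    · rw [map_pow]
      have h1 : (ζ * τ g) ^ q = g ^ q := by rw [hgτ]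
      rw [mul_pow, hζ1, one_mul] at h1
      exact h1
  have hgK : g ^ q ∈ IntermediateField.adjoin (RatFunc k) ({y} : Set L) := by
    have h1 : (IntermediateField.adjoin (RatFunc k) ({y} : Set L)).fixingSubgroup = U := by
      ext σ
      rw [hU, IntermediateField.mem_fixingSubgroup_iff]
      constructor
      · intro h
        exact h y (IntermediateField.mem_adjoin_simple_self _ y)
      · intro h x hx
        have h2 : IntermediateField.adjoin (RatFunc k) ({y} : Set L) ≤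
            IntermediateField.fixedField (Subgroup.zpowers σ) := by
          rw [IntermediateField.adjoin_simple_le_iff, IntermediateField.mem_fixedField_iff]
          intro τ' hτ'
          obtain ⟨m, rfl⟩ := Subgroup.mem_zpowers_iff.1 hτ'
          have h3 : σ ∈ MulAction.stabilizer (L ≃ₐ[RatFunc k] L) y := h
          exact (MulAction.stabilizer (L ≃ₐ[RatFunc k] L) y).zpow_mem h3 m
        have h4 := h2 hx
        rw [IntermediateField.mem_fixedField_iff] at h4
        exact h4 σ (Subgroup.mem_zpowers σ)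
    rw [← IsGalois.fixedField_fixingSubgroup (IntermediateField.adjoin (RatFunc k) ({y} : Set L)),
      h1, IntermediateField.mem_fixedField_iff]
    exact hgq
  obtain ⟨f1, f2, hf2, hf12⟩ := q3_frac n y hy _ hgK
  -- make `g ^ q` a polynomial in `y`
  set g1 : L := g * f2.eval₂ (ck k L) y with hg1
  have hg1q : g1 ^ q = (f1 * f2 ^ (q - 1)).eval₂ (ck k L) y := by
    rw [Polynomial.eval₂_mul, Polynomial.eval₂_pow, ← hf12, hg1, mul_pow]
    have h1 : f2.eval₂ (ck k L) y ^ q = f2.eval₂ (ck k L) y * f2.eval₂ (ck k L) y ^ (q - 1) := by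
      rw [← pow_succ']
      congr 1
      have := hq.pos
      omega
    rw [h1]
    ring
  have hg10 : g1 ≠ 0 := mul_ne_zero hg0 hf2
  have hf0 : f1 * f2 ^ (q - 1) ≠ 0 := by
    intro h
    rw [h, Polynomial.eval₂_zero] at hg1q
    exact hg10 (pow_eq_zero_iff hq.ne_zero |>.1 hg1q)
  obtain ⟨j, h, hfj⟩ := Q2 q hq.pos (f1 * f2 ^ (q - 1)) hf0
    (fun c hc => Q1 hun n hn y hy q hq.pos _ hf0 g1 hg1q c hc)
  have hh0 : h.eval₂ (ck k L) y ≠ 0 := by
    intro h0
    rw [hfj, Polynomial.eval₂_mul, Polynomial.eval₂_pow, Polynomial.eval₂_pow, h0,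
      zero_pow hq.ne_zero, mul_zero] at hg1q
    exact hg10 (pow_eq_zero_iff hq.ne_zero |>.1 hg1q)
  set g2 : L := g1 / h.eval₂ (ck k L) y with hg2
  have hg20 : g2 ≠ 0 := div_ne_zero hg10 hh0
  have hg2q : g2 ^ q = y ^ j := by
    rw [hg2, div_pow, hg1q, hfj, Polynomial.eval₂_mul, Polynomial.eval₂_pow, Polynomial.eval₂_pow,
      Polynomial.eval₂_X, mul_div_assoc, div_self (pow_ne_zero q hh0), mul_one]
  have hg2V : ∀ σ ∈ V, σ g2 = g2 := by
    intro σ hσ
    have hσy : σ y = y := (hU σ).1 (hVU hσ)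
    rw [hg2, hg1, map_div₀, map_mul, hgV σ hσ, q3_fix_eval σ y hσy, q3_fix_eval σ y hσy]
  have hg2τ : ζ * τ g2 = g2 := by
    rw [hg2, hg1, map_div₀, map_mul, q3_fix_eval τ y hτy, q3_fix_eval τ y hτy]
    have h1 : ζ * (τ g * f2.eval₂ (ck k L) y / h.eval₂ (ck k L) y) =
        (ζ * τ g) * f2.eval₂ (ck k L) y / h.eval₂ (ck k L) y := by ring
    rw [h1, hgτ]
  -- `q` does not divide `j`
  have hζne : ζ ≠ 1 := hζ.ne_one hq.one_lt
  have hqj : ¬ q ∣ j := by
    rintro ⟨m, hm⟩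
    have h1 : (g2 / y ^ m) ^ q = 1 := by
      rw [div_pow, hg2q, hm, ← pow_mul, mul_comm m q, div_self (pow_ne_zero _ hy0)]
    have : NeZero q := ⟨hq.ne_zero⟩
    obtain ⟨i, -, hi⟩ := hζ.eq_pow_of_pow_eq_one h1
    have h2 : g2 = ζ ^ i * y ^ m := by
      rw [hi, div_mul_cancel₀ _ (pow_ne_zero _ hy0)]
    have h3 : τ g2 = g2 := by
      rw [h2, map_mul, map_pow, map_pow, hτy]
      congr 2
      exact q3_ck_fix τ ζ0
    rw [h3] at hg2τ
    exact hζne (mul_right_cancel₀ hg20 (by rw [hg2τ, one_mul]))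
  have hcop : Nat.Coprime j q := (Nat.Coprime.symm ((Nat.Prime.coprime_iff_not_dvd hq).2 hqj))
  obtain ⟨u, -, hu⟩ := Nat.exists_mul_mod_eq_one_of_coprime hcop hq.one_lt
  have hdiv := Nat.div_add_mod (j * u) q
  rw [hu] at hdiv
  set v := j * u / q with hv
  refine ⟨g2 ^ u / y ^ v, ?_, ?_, τ, hτU, ?_⟩
  · rw [div_pow, ← pow_mul, mul_comm u q, pow_mul, hg2q, ← pow_mul, ← pow_mul, ← hdiv,
      pow_add, pow_one, mul_comm v q, mul_div_assoc, mul_comm, div_mul_cancel₀]
    exact pow_ne_zero _ hy0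
  · intro σ hσ
    rw [map_div₀, map_pow, map_pow, hg2V σ hσ, (hU σ).1 (hVU hσ)]
  · intro hfixed
    rw [map_div₀, map_pow, map_pow, hτy] at hfixed
    have h1 : (τ g2) ^ u = g2 ^ u := by
      have hyv : y ^ v ≠ 0 := pow_ne_zero _ hy0
      field_simp at hfixed
      exact hfixed
    have h2 : ζ ^ u * (τ g2) ^ u = g2 ^ u := by rw [← mul_pow, hg2τ]
    rw [h1] at h2
    have h3 : ζ ^ u = 1 := mul_right_cancel₀ (pow_ne_zero u hg20) (by rw [h2, one_mul])
    have h4 : q ∣ u := (hζ.pow_eq_one_iff_dvd u).1 h3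
    obtain ⟨w, hw⟩ := h4
    rw [hw, ← mul_assoc, mul_comm j q, mul_assoc, Nat.mul_mod_right] at hu
    exact absurd hu (by norm_num)

end Pool.Agent.QPC
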