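import Mathlib
import Pool.Agent.QPC.Defs
import Pool.Agent.QPC.Q3
import Pool.Agent.QPC.T1

/-!
# QPC row Q4: the necessary condition, for solvable groups
Plan. Let `Gal := L ≃ₐ[RatFunc k] L`. `P := pg p Gal` (normal subgroup; its index is prime to `p`: `T1`). Let `n` be maximal such that `n` divides `[Gal : P]`... such that there is `y ∈ L` with `y^n = x`, `n` prime to `p`, `y` fixed by `P`, and `[Gal : Stab y] = n` (`n = 1`, `y = x` works; bounded). `U := Stab y` (contains `P`). If `U ≠ P`: `U / P` is a non-trivial solvable group (`Group.IsSolvable`), so there is `V`, `P ≤ V < U`, `V` normal in `U` of prime index `q` (`q ≠ p` since the index of `P` is prime to `p`).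
`Q3`: `y'` with `y'^q = y`, fixed by `V`, moved by `U`; its stabiliser in `U` is exactly `V` (index prime), and `Stab y' ≤ Stab y = U`: `[Gal : Stab y'] = n q`, `y'^(n q) = x`: contradiction with maximality. So `U = P`. `Gal → (n-th roots of unity)`, `σ ↦ σ(y)/y`, is a homomorphism (roots of unity are in `k`, fixed) with kernel `U = P`, into a cyclic group: `Gal / P` is cyclic. Transport to `A` by `Nonempty (Gal ≃* A)`.
-/

set_option autoImplicit false

namespace Pool.Agent.QPC

open Polynomial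

section q4_fields

variable {k : Type} [Field k] {L : Type} [Field L] [Algebra (RatFunc k) L] [Algebra k[X] L]
  [IsScalarTower k[X] (RatFunc k) L]

theorem q4_ck_fix (σ : L ≃ₐ[RatFunc k] L) (c : k) : σ (ck k L c) = ck k L c := by
  have h : ck k L c = algebraMap (RatFunc k) L (algebraMap k[X] (RatFunc k) (C c)) := by
    rw [← IsScalarTower.algebraMap_apply]
    rfl
  rw [h, σ.commutes]

omit [Algebra k[X] L] [IsScalarTower k[X] (RatFunc k) L] in
theorem q4_alg_inj [Algebra k[X] L] [IsScalarTower k[X] (RatFunc k) L] :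
    Function.Injective (algebraMap k[X] L) := by
  rw [IsScalarTower.algebraMap_eq k[X] (RatFunc k) L]
  exact (algebraMap (RatFunc k) L).injective.comp (IsFractionRing.injective k[X] (RatFunc k))

end q4_fields

/-- A nontrivial finite solvable group has a normal subgroup of prime index. -/
theorem q4_prime (Q : Type) [Group Q] [Finite Q] [Group.IsSolvable Q] [Nontrivial Q] :
    ∃ N : Subgroup Q, N.Normal ∧ N.index.Prime := by
  have h1 : commutator Q < ⊤ := Group.IsSolvable.commutator_lt_top_of_nontrivial Q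
  have h2 : Nontrivial (Abelianization Q) := by
    by_contra hcon
    rw [not_nontrivial_iff_subsingleton] at hcon
    apply h1.ne
    rw [eq_top_iff]
    intro x _
    exact (QuotientGroup.eq_one_iff x).1 (Subsingleton.elim (α := Abelianization Q) _ _)
  have hfin : Finite (Abelianization Q) := Quotient.finite _
  obtain ⟨N, hN, -⟩ : ∃ N : Subgroup (Abelianization Q), IsCoatom N ∧ ⊥ ≤ N := by
    rcases IsCoatomic.eq_top_or_exists_le_coatom (⊥ : Subgroup (Abelianization Q)) with h | h
    · exact absurd h bot_ne_top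
    · exact h
  have hsimple : IsSimpleGroup (Abelianization Q ⧸ N) := by
    have hnt : Nontrivial (Abelianization Q ⧸ N) := by
      by_contra hcon
      rw [not_nontrivial_iff_subsingleton] at hcon
      apply hN.1
      rw [eq_top_iff]
      intro x _
      exact (QuotientGroup.eq_one_iff x).1 (Subsingleton.elim (α := Abelianization Q ⧸ N) _ _)
    refine { exists_pair_ne := hnt.exists_pair_ne, eq_bot_or_eq_top_of_normal := ?_ }
    intro H _
    have hle : N ≤ H.comap (QuotientGroup.mk' N) := by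
      intro x hx
      rw [Subgroup.mem_comap, QuotientGroup.mk'_apply, (QuotientGroup.eq_one_iff x).2 hx]
      exact H.one_mem
    rcases hN.le_iff.1 hle with h | h
    · right
      rw [eq_top_iff]
      intro z _
      obtain ⟨x, rfl⟩ := QuotientGroup.mk'_surjective N z
      have hx : x ∈ H.comap (QuotientGroup.mk' N) := by rw [h]; trivial
      exact hx
    · left
      rw [eq_bot_iff]
      intro z hz
      obtain ⟨x, rfl⟩ := QuotientGroup.mk'_surjective N z
      have hx : x ∈ H.comap (QuotientGroup.mk' N) := hz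
      rw [h] at hx
      rw [Subgroup.mem_bot]
      exact (QuotientGroup.eq_one_iff x).2 hx
  have hprime : N.index.Prime := by
    rw [Subgroup.index]
    exact IsSimpleGroup.prime_card (α := Abelianization Q ⧸ N)
  refine ⟨N.comap Abelianization.of, inferInstance, ?_⟩
  have h3 : (N.comap (Abelianization.of (G := Q))).index = N.index :=
    Subgroup.index_comap_of_surjective N (QuotientGroup.mk'_surjective (commutator Q))
  rw [h3]
  exact hprime

/-- Between a normal subgroup `P` and a strictly larger subgroup `U` of a finite solvable group there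
is `V`, normal in `U` of prime index. -/
theorem q4_step (G : Type) [Group G] [Finite G] [Group.IsSolvable G] (P U : Subgroup G) [P.Normal]
    (hPU : P ≤ U) (hne : U ≠ P) :
    ∃ V : Subgroup G, P ≤ V ∧ V ≤ U ∧ (V.subgroupOf U).Normal ∧ (V.subgroupOf U).index.Prime ∧
      (V.subgroupOf U).index ∣ P.index := by
  have hn : (P.subgroupOf U).Normal := inferInstance
  have hnt : Nontrivial (U ⧸ P.subgroupOf U) := by
    by_contra hcon
    rw [not_nontrivial_iff_subsingleton] at hcon
    apply hne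
    refine le_antisymm (fun x hx => ?_) hPU
    have h1 := (QuotientGroup.eq_one_iff (N := P.subgroupOf U) (⟨x, hx⟩ : U)).1
      (Subsingleton.elim (α := U ⧸ P.subgroupOf U) _ _)
    exact Subgroup.mem_subgroupOf.1 h1
  have hfin : Finite (U ⧸ P.subgroupOf U) := Quotient.finite _
  obtain ⟨N, hN, hNp⟩ := q4_prime (U ⧸ P.subgroupOf U)
  set V' : Subgroup U := N.comap (QuotientGroup.mk' (P.subgroupOf U)) with hV'
  have hV'n : V'.Normal := inferInstance
  have hV'i : V'.index = N.index :=
    Subgroup.index_comap_of_surjective N (QuotientGroup.mk'_surjective _)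
  have hPV' : P.subgroupOf U ≤ V' := by
    intro x hx
    rw [hV', Subgroup.mem_comap, QuotientGroup.mk'_apply, (QuotientGroup.eq_one_iff x).2 hx]
    exact N.one_mem
  have hsub : (V'.map U.subtype).subgroupOf U = V' := by
    rw [Subgroup.subgroupOf]
    exact Subgroup.comap_map_eq_self_of_injective U.subtype_injective V'
  refine ⟨V'.map U.subtype, ?_, ?_, ?_, ?_, ?_⟩
  · intro x hx
    exact ⟨⟨x, hPU hx⟩, hPV' (Subgroup.mem_subgroupOf.2 hx), rfl⟩
  · rintro _ ⟨x, -, rfl⟩
    exact x.2
  · rw [hsub]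
    exact hV'n
  · rw [hsub, hV'i]
    exact hNp
  · rw [hsub]
    exact (Subgroup.index_dvd_of_le hPV').trans (Subgroup.relIndex_dvd_index_of_normal P U)

/-- The index of `pg p G` is prime to `p`. -/
theorem q4_index (p : ℕ) [Fact p.Prime] (G : Type) [Group G] [Finite G] : ¬ p ∣ (pg p G).index := by
  intro h
  obtain ⟨S⟩ : Nonempty (Sylow p G) := inferInstance
  have h1 : (S : Subgroup G) ≤ pg p G := by
    rw [T1c]
    exact le_iSup (fun P : Sylow p G => (P : Subgroup G)) S
  exact S.not_dvd_index (h.trans (Subgroup.index_dvd_of_le h1))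

theorem q4_main {p : ℕ} [Fact p.Prime] {k : Type} [Field k] [IsAlgClosed k] [CharP k p]
    {L : Type} [Field L] [Algebra (RatFunc k) L] [Algebra k[X] L]
    [IsScalarTower k[X] (RatFunc k) L] [FiniteDimensional (RatFunc k) L]
    [IsGalois (RatFunc k) L] [Group.IsSolvable (L ≃ₐ[RatFunc k] L)]
    (hun : ∀ (q : Ideal (integralClosure k[X] L)) (_ : q.IsPrime),
      algebraMap k[X] (integralClosure k[X] L) X ∉ q → Algebra.IsUnramifiedAt k[X] q) :
    ∀ (d n : ℕ) (y : L), 0 < n → y ^ n = algebraMap k[X] L X →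
      pg p (L ≃ₐ[RatFunc k] L) ≤ MulAction.stabilizer (L ≃ₐ[RatFunc k] L) y →
      (MulAction.stabilizer (L ≃ₐ[RatFunc k] L) y).index = n →
      Nat.card (L ≃ₐ[RatFunc k] L) ≤ n + d →
      ∃ (n : ℕ) (y : L), 0 < n ∧ y ^ n = algebraMap k[X] L X ∧
        (MulAction.stabilizer (L ≃ₐ[RatFunc k] L) y).index = n ∧
        MulAction.stabilizer (L ≃ₐ[RatFunc k] L) y = pg p (L ≃ₐ[RatFunc k] L) := by
  have hPn : (pg p (L ≃ₐ[RatFunc k] L)).Normal := T1a p _
  intro d
  induction d with
  | zero =>
    intro n y hn hy hP hidx hcard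
    by_cases hUP : MulAction.stabilizer (L ≃ₐ[RatFunc k] L) y = pg p (L ≃ₐ[RatFunc k] L)
    · exact ⟨n, y, hn, hy, hidx, hUP⟩
    · exfalso
      obtain ⟨V, hPV, hVU, hVn, hVp, -⟩ := q4_step _ _ _ hP hUP
      have h1 := Subgroup.relIndex_mul_index hVU
      have h2 : V.index ≤ Nat.card (L ≃ₐ[RatFunc k] L) :=
        Nat.le_of_dvd Nat.card_pos (Subgroup.index_dvd_card V)
      have h3 : V.relIndex (MulAction.stabilizer (L ≃ₐ[RatFunc k] L) y) =
        (V.subgroupOf (MulAction.stabilizer (L ≃ₐ[RatFunc k] L) y)).index := rfl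
      rw [h3, hidx] at h1
      have h4 := hVp.two_le
      nlinarith
  | succ d ih =>
    intro n y hn hy hP hidx hcard
    by_cases hUP : MulAction.stabilizer (L ≃ₐ[RatFunc k] L) y = pg p (L ≃ₐ[RatFunc k] L)
    · exact ⟨n, y, hn, hy, hidx, hUP⟩
    · obtain ⟨V, hPV, hVU, hVn, hVp, hVd⟩ := q4_step _ _ _ hP hUP
      set U := MulAction.stabilizer (L ≃ₐ[RatFunc k] L) y with hU
      set q := (V.subgroupOf U).index with hq
      have hqp : q ≠ p := by
        intro h
        rw [h] at hVd
        exact q4_index p _ hVd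
      obtain ⟨y', hy'q, hy'V, σ0, hσ0U, hσ0⟩ := Q3 (p := p) hun n hn y hy q hVp hqp U V
        (fun σ => by rw [hU, MulAction.mem_stabilizer_iff]; rfl) hVU hVn rfl
      set U' := MulAction.stabilizer (L ≃ₐ[RatFunc k] L) y' with hU'
      have hU'mem : ∀ σ : L ≃ₐ[RatFunc k] L, σ ∈ U' ↔ σ y' = y' := by
        intro σ
        rw [hU', MulAction.mem_stabilizer_iff]
        rfl
      have hUmem : ∀ σ : L ≃ₐ[RatFunc k] L, σ ∈ U ↔ σ y = y := by
        intro σ
        rw [hU, MulAction.mem_stabilizer_iff]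
        rfl
      have hVU' : V ≤ U' := fun σ hσ => (hU'mem σ).2 (hy'V σ hσ)
      have hU'U : U' ≤ U := by
        intro σ hσ
        rw [hUmem, ← hy'q, map_pow, (hU'mem σ).1 hσ]
      have hne : U'.subgroupOf U ≠ ⊤ := by
        intro h
        rw [Subgroup.subgroupOf_eq_top] at h
        exact hσ0 ((hU'mem σ0).1 (h hσ0U))
      have hle : V.subgroupOf U ≤ U'.subgroupOf U := fun x hx =>
        Subgroup.mem_subgroupOf.2 (hVU' (Subgroup.mem_subgroupOf.1 hx))
      have hidx' : (U'.subgroupOf U).index = q := by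
        have h1 : (U'.subgroupOf U).index ∣ q := Subgroup.index_dvd_of_le hle
        rcases (Nat.dvd_prime hVp).1 h1 with h2 | h2
        · exact absurd (Subgroup.index_eq_one.1 h2) hne
        · exact h2
      have hidx2 : U'.index = q * n := by
        have h1 := Subgroup.relIndex_mul_index hU'U
        have h3 : U'.relIndex U = (U'.subgroupOf U).index := rfl
        rw [h3, hidx', hidx] at h1
        exact h1.symm
      refine ih (q * n) y' (Nat.mul_pos hVp.pos hn) ?_ (hPV.trans hVU') hidx2 ?_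
      · rw [pow_mul, hy'q, hy]
      · have h4 := hVp.two_le
        nlinarith

theorem Q4 {p : ℕ} [Fact p.Prime] {k : Type} [Field k] [IsAlgClosed k] [CharP k p]
    (A : Type) [Group A] [Finite A] [Group.IsSolvable A]
    (h : ∃ (L : Type) (_ : Field L) (_ : Algebra (RatFunc k) L)
          (_ : Algebra (Polynomial k) L)
          (_ : IsScalarTower (Polynomial k) (RatFunc k) L)
          (_ : FiniteDimensional (RatFunc k) L) (_ : IsGalois (RatFunc k) L),
          Nonempty ((L ≃ₐ[RatFunc k] L) ≃* A) ∧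
          ∀ (q : Ideal (integralClosure (Polynomial k) L)) (_ : q.IsPrime),
            algebraMap (Polynomial k) (integralClosure (Polynomial k) L) Polynomial.X ∉ q →
              Algebra.IsUnramifiedAt (Polynomial k) q) :
    ∃ g : A, ∀ x : A, ∃ n : ℤ, x⁻¹ * g ^ n ∈ pg p A := by
  obtain ⟨L, hF, hA1, hA2, hT, hfd, hgal, ⟨e⟩, hun⟩ := h
  have hsol : Group.IsSolvable (L ≃ₐ[RatFunc k] L) :=
    Group.isSolvable_of_isSolvable_injective (f := e.toMonoidHom) e.injective
  have hPn : (pg p (L ≃ₐ[RatFunc k] L)).Normal := T1a p _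
  have hst1 : MulAction.stabilizer (L ≃ₐ[RatFunc k] L) (algebraMap k[X] L X) = ⊤ := by
    rw [eq_top_iff]
    intro σ _
    rw [MulAction.mem_stabilizer_iff]
    change σ (algebraMap k[X] L X) = _
    rw [IsScalarTower.algebraMap_apply k[X] (RatFunc k) L, σ.commutes]
  obtain ⟨n, y, hn, hy, hidx, hst⟩ := q4_main (p := p) hun (Nat.card (L ≃ₐ[RatFunc k] L)) 1
    (algebraMap k[X] L X) one_pos (pow_one _) (by rw [hst1]; exact le_top)
    (by rw [hst1, Subgroup.index_top]) (by omega)
  have hnp : ¬ p ∣ n := by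
    rw [← hidx, hst]
    exact q4_index p _
  have hnk : NeZero (n : k) := by
    refine ⟨fun h0 => hnp ?_⟩
    rwa [CharP.cast_eq_zero_iff k p] at h0
  obtain ⟨ζ0, hζ0⟩ := HasEnoughRootsOfUnity.exists_primitiveRoot k n
  have hζ : IsPrimitiveRoot (ck k L ζ0) n := hζ0.map_of_injective (ck k L).injective
  have hnn : NeZero n := ⟨hn.ne'⟩
  have hy0 : y ≠ 0 := by
    intro h
    rw [h, zero_pow hn.ne'] at hy
    exact X_ne_zero ((map_eq_zero_iff _ (q4_alg_inj (k := k) (L := L))).1 hy.symm)
  have hX : ∀ σ : L ≃ₐ[RatFunc k] L, σ (algebraMap k[X] L X) = algebraMap k[X] L X := by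
    intro σ
    rw [IsScalarTower.algebraMap_apply k[X] (RatFunc k) L, σ.commutes]
  have hroot : ∀ τ : L ≃ₐ[RatFunc k] L, ∃ i : ℕ, τ y / y = ck k L ζ0 ^ i := by
    intro τ
    have h1 : (τ y / y) ^ n = 1 := by
      rw [div_pow, ← map_pow, hy, hX, div_self]
      rw [← hy]
      exact pow_ne_zero _ hy0
    obtain ⟨i, -, hi⟩ := hζ.eq_pow_of_pow_eq_one h1
    exact ⟨i, hi.symm⟩
  have hfix : ∀ σ τ : L ≃ₐ[RatFunc k] L, σ (τ y / y) = τ y / y := by
    intro σ τ
    obtain ⟨i, hi⟩ := hroot τ
    rw [hi, map_pow]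
    congr 1
    exact q4_ck_fix σ ζ0
  let φ : (L ≃ₐ[RatFunc k] L) →* L :=
    { toFun := fun σ => σ y / y
      map_one' := by
        change y / y = 1
        exact div_self hy0
      map_mul' := by
        intro σ τ
        change σ (τ y) / y = σ y / y * (τ y / y)
        have h1 : τ y = (τ y / y) * y := by rw [div_mul_cancel₀ _ hy0]
        rw [h1, map_mul, hfix σ τ, div_mul_cancel₀ _ hy0]
        ring }
  have hker : ∀ σ : L ≃ₐ[RatFunc k] L, φ σ = 1 ↔ σ ∈ pg p (L ≃ₐ[RatFunc k] L) := by
    intro σ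
    rw [← hst, MulAction.mem_stabilizer_iff]
    change σ y / y = 1 ↔ σ y = y
    rw [div_eq_one_iff_eq hy0]
  let ψ : (L ≃ₐ[RatFunc k] L) ⧸ pg p (L ≃ₐ[RatFunc k] L) →* L :=
    QuotientGroup.lift _ φ (fun σ hσ => (hker σ).2 hσ)
  have hψ : Function.Injective ψ := by
    intro a b hab
    obtain ⟨σ, rfl⟩ := QuotientGroup.mk_surjective a
    obtain ⟨τ, rfl⟩ := QuotientGroup.mk_surjective b
    have h1 : φ σ = φ τ := hab
    rw [QuotientGroup.eq, ← hker, map_mul, ← h1, ← map_mul, inv_mul_cancel, map_one]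
  have hfin : Finite ((L ≃ₐ[RatFunc k] L) ⧸ pg p (L ≃ₐ[RatFunc k] L)) := Quotient.finite _
  have hcyc : IsCyclic ((L ≃ₐ[RatFunc k] L) ⧸ pg p (L ≃ₐ[RatFunc k] L)) :=
    isCyclic_of_injective_ringHom ψ hψ
  obtain ⟨g', hg'⟩ := hcyc.exists_generator
  obtain ⟨g, rfl⟩ := QuotientGroup.mk_surjective g'
  refine ⟨e g, fun x => ?_⟩
  obtain ⟨x', rfl⟩ := e.surjective x
  obtain ⟨m, hm⟩ := Subgroup.mem_zpowers_iff.1 (hg' (QuotientGroup.mk x'))
  refine ⟨m, ?_⟩
  have h1 : x'⁻¹ * g ^ m ∈ pg p (L ≃ₐ[RatFunc k] L) := by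
    rw [← QuotientGroup.eq, ← hm]
    rfl
  have h2 := T1b p _ _ e.toMonoidHom e.surjective
  rw [← h2]
  refine ⟨x'⁻¹ * g ^ m, h1, ?_⟩
  simp

end Pool.Agent.QPC
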