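import Mathlib
import Pool.Agent.QPC.Defs
import Pool.Agent.QPC.Defs5
import Pool.Agent.QPC.F11

/-!
# QPC row RL1: from the literal notion to `R`

`L → Ω` over `RatFunc (ZMod p)`, `ρ0 := AlgEquiv.restrictNormalHom L`, `ρ := e ∘ ρ0`.
`inert`: an automorphism which is trivial modulo a prime `𝔮` at which the extension is unramified is
trivial (`Algebra.FormallyUnramified.ext_of_iInf` in the localization). `pel`: the elements of `L` fixed by
the images of the geometric elements are quotients of polynomials with constant coefficients, the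
denominator monic and of minimal degree; the coefficients are then in `L`.
-/

set_option autoImplicit false

namespace Pool.Agent.QPC

open Polynomial

theorem rl1_unram {A B : Type} [CommRing A] [CommRing B] [IsDomain B] [Algebra A B]
    [IsNoetherianRing B] (q : Ideal B) [q.IsPrime] [Algebra.IsUnramifiedAt A q]
    (φ : B →ₐ[A] B) (h : ∀ b, φ b - b ∈ q) (b : B) : φ b = b := by
  have hm : ∀ x, x ∈ q ↔ φ x ∈ q := by
    intro x
    constructor
    · intro hx
      have := q.add_mem (h x) hx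
      rwa [sub_add_cancel] at this
    · intro hx
      have := q.sub_mem hx (h x)
      rwa [sub_sub_cancel] at this
  have hc : q = q.comap (φ : B →+* B) := by
    ext x
    exact hm x
  let Φ : Localization.AtPrime q →ₐ[A] Localization.AtPrime q :=
    { toRingHom := Localization.localRingHom q q (φ : B →+* B) hc
      commutes' := by
        intro x
        rw [IsScalarTower.algebraMap_apply A B (Localization.AtPrime q)]
        change Localization.localRingHom q q (φ : B →+* B) hc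
          (algebraMap B (Localization.AtPrime q) (algebraMap A B x)) = _
        rw [Localization.localRingHom_to_map]
        congr 1
        exact φ.commutes x }
  have hΦ : ∀ x : B, Φ (algebraMap B (Localization.AtPrime q) x) =
      algebraMap B (Localization.AtPrime q) (φ x) :=
    fun x => Localization.localRingHom_to_map q q (φ : B →+* B) hc x
  have key : Φ = AlgHom.id A (Localization.AtPrime q) := by
    apply Algebra.FormallyUnramified.ext_of_iInf _
      (Ideal.iInf_pow_eq_bot_of_isLocalRing (IsLocalRing.maximalIdeal (Localization.AtPrime q))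
        Ideal.IsPrime.ne_top')
    intro x
    obtain ⟨x, s, rfl⟩ := IsLocalization.exists_mk'_eq q.primeCompl x
    rw [Ideal.Quotient.eq]
    have e1 : Φ (IsLocalization.mk' (Localization.AtPrime q) x s) =
        IsLocalization.mk' (Localization.AtPrime q) (φ x)
          (⟨φ s, fun hs => s.2 ((hm s).2 hs)⟩ : q.primeCompl) :=
      Localization.localRingHom_mk' q q (φ : B →+* B) hc x s
    rw [e1, AlgHom.id_apply, ← IsLocalization.mk'_sub,
      IsLocalization.AtPrime.mk'_mem_maximal_iff (Localization.AtPrime q) q]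
    have e2 : φ x * s - x * φ s = (φ x - x) * s - x * (φ s - s) := by ring
    change φ x * s - x * φ s ∈ q
    rw [e2]
    exact q.sub_mem (q.mul_mem_right _ (h x)) (q.mul_mem_left _ (h s))
  have h1 := hΦ b
  rw [key, AlgHom.id_apply] at h1
  exact (IsLocalization.injective (Localization.AtPrime q) q.primeCompl_le_nonZeroDivisors h1).symm

variable (p : ℕ) [Fact p.Prime] (Ω : Type) [Field Ω] [Algebra (RatFunc (ZMod p)) Ω]
  [IsSepClosed Ω] [Algebra.IsSeparable (RatFunc (ZMod p)) Ω]

section ext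

variable (L : Type) [Field L] [Algebra (RatFunc (ZMod p)) L] [Algebra (ZMod p)[X] L]
  [IsScalarTower (ZMod p)[X] (RatFunc (ZMod p)) L] [FiniteDimensional (RatFunc (ZMod p)) L]
  [IsGalois (RatFunc (ZMod p)) L] [Algebra L Ω] [IsScalarTower (RatFunc (ZMod p)) L Ω]

omit [IsSepClosed Ω] [Algebra.IsSeparable (RatFunc (ZMod p)) Ω] [Algebra (ZMod p)[X] L]
  [IsScalarTower (ZMod p)[X] (RatFunc (ZMod p)) L] [FiniteDimensional (RatFunc (ZMod p)) L] in
theorem rl1_comm (g : GG p Ω) (x : L) :
    algebraMap L Ω (AlgEquiv.restrictNormalHom L g x) = g (algebraMap L Ω x) :=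
  AlgEquiv.restrictNormal_commutes g L x

omit [IsSepClosed Ω] [Algebra.IsSeparable (RatFunc (ZMod p)) Ω] [Algebra (ZMod p)[X] L]
  [IsScalarTower (ZMod p)[X] (RatFunc (ZMod p)) L] in
theorem rl1_fin : ∃ T : Finset Ω, ∀ g : GG p Ω, (∀ t ∈ T, g t = t) →
    AlgEquiv.restrictNormalHom (F := RatFunc (ZMod p)) L g = 1 := by
  classical
  let b := Module.finBasis (RatFunc (ZMod p)) L
  refine ⟨Finset.univ.image fun i => algebraMap L Ω (b i), ?_⟩
  intro g hg
  have h1 : ∀ i, AlgEquiv.restrictNormalHom (F := RatFunc (ZMod p)) L g (b i) = b i := by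
    intro i
    apply (algebraMap L Ω).injective
    rw [rl1_comm]
    exact hg _ (Finset.mem_image_of_mem _ (Finset.mem_univ i))
  have h2 : (AlgEquiv.restrictNormalHom (F := RatFunc (ZMod p)) L g).toLinearMap =
      LinearMap.id := b.ext h1
  apply AlgEquiv.ext
  intro x
  exact LinearMap.congr_fun h2 x

omit [IsSepClosed Ω] [Algebra.IsSeparable (RatFunc (ZMod p)) Ω] in
theorem rl1_inert (hun : ∀ (q : Ideal (integralClosure (Polynomial (ZMod p)) L)) (_ : q.IsPrime),
      Algebra.IsUnramifiedAt (Polynomial (ZMod p)) q) (g : GG p Ω) (hg : Inert g) :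
    AlgEquiv.restrictNormalHom (F := RatFunc (ZMod p)) L g = 1 := by
  obtain ⟨q, hq, hg⟩ := hg
  have hinc : ∀ P : (ZMod p)[X], algebraMap L Ω (algebraMap (ZMod p)[X] L P) = inc p Ω P := by
    intro P
    rw [IsScalarTower.algebraMap_apply (ZMod p)[X] (RatFunc (ZMod p)) L,
      ← IsScalarTower.algebraMap_apply (RatFunc (ZMod p)) L Ω]
    rfl
  have hmem : ∀ b : integralClosure (ZMod p)[X] L, algebraMap L Ω b ∈ Zr p Ω := by
    intro b
    obtain ⟨f, hf, h0⟩ := b.2
    refine ⟨f, hf, ?_⟩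
    have h1 := Polynomial.hom_eval₂ f (algebraMap (ZMod p)[X] L) (algebraMap L Ω) b
    rw [h0, map_zero] at h1
    rw [h1]
    congr 1
    exact RingHom.ext fun P => (hinc P).symm
  let f : integralClosure (ZMod p)[X] L →+* Zr p Ω :=
    ((algebraMap L Ω).comp (algebraMap (integralClosure (ZMod p)[X] L) L)).codRestrict (Zr p Ω) hmem
  set σ := AlgEquiv.restrictNormalHom (F := RatFunc (ZMod p)) L g with hσ
  have hσm : ∀ b : integralClosure (ZMod p)[X] L, σ b ∈ integralClosure (ZMod p)[X] L := by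
    intro b
    exact IsIntegral.map (σ.toAlgHom.restrictScalars (ZMod p)[X]) b.2
  let φ : integralClosure (ZMod p)[X] L →ₐ[(ZMod p)[X]] integralClosure (ZMod p)[X] L :=
    ((σ.toAlgHom.restrictScalars (ZMod p)[X]).comp (integralClosure (ZMod p)[X] L).val).codRestrict
      (integralClosure (ZMod p)[X] L) hσm
  have hnoe : IsNoetherianRing (integralClosure (ZMod p)[X] L) :=
    IsIntegralClosure.isNoetherianRing (ZMod p)[X] (RatFunc (ZMod p)) L
      (integralClosure (ZMod p)[X] L)
  have hpr : (q.comap f).IsPrime := Ideal.comap_isPrime f q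
  have hu := hun (q.comap f) hpr
  have hφ : ∀ b, φ b - b ∈ q.comap f := by
    intro b
    rw [Ideal.mem_comap, map_sub]
    obtain ⟨c, hc, h1⟩ := hg (f b)
    have h2 : f (φ b) - f b = c := by
      apply Subtype.ext
      rw [h1]
      change algebraMap L Ω (σ b) - algebraMap L Ω b = g (algebraMap L Ω b) - algebraMap L Ω b
      rw [hσ, rl1_comm]
    rw [h2]
    exact hc
  have key := rl1_unram (q.comap f) φ hφ
  apply AlgEquiv.ext
  intro x
  have hfr : IsFractionRing (integralClosure (ZMod p)[X] L) L :=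
    integralClosure.isFractionRing_of_finite_extension (RatFunc (ZMod p)) L
  obtain ⟨a, b, hb, rfl⟩ := IsFractionRing.div_surjective (A := integralClosure (ZMod p)[X] L) (K := L) x
  have h3 : ∀ c : integralClosure (ZMod p)[X] L,
      σ (algebraMap (integralClosure (ZMod p)[X] L) L c) =
        algebraMap (integralClosure (ZMod p)[X] L) L c :=
    fun c => congrArg (fun y : integralClosure (ZMod p)[X] L => (y : L)) (key c)
  rw [map_div₀, h3, h3]
  rfl

/-- the action of an automorphism on the constants -/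
noncomputable def rl1_gk (g : GG p Ω) : kF p Ω →+* kF p Ω where
  toFun a := ⟨g a, gal_kk g a.2⟩
  map_one' := Subtype.ext (map_one g)
  map_mul' _ _ := Subtype.ext (map_mul g _ _)
  map_zero' := Subtype.ext (map_zero g)
  map_add' _ _ := Subtype.ext (map_add g _ _)

omit [IsSepClosed Ω] [Algebra.IsSeparable (RatFunc (ZMod p)) Ω] in
theorem rl1_map (g : GG p Ω) (P : (kF p Ω)[X]) :
    inck p Ω (P.map (rl1_gk p Ω g)) = g (inck p Ω P) := by
  have h1 := Polynomial.hom_eval₂ P (kF p Ω).subtype ((g : Ω ≃+* Ω) : Ω →+* Ω) (xx p Ω)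
  have h2 : ((g : Ω ≃+* Ω) : Ω →+* Ω) (xx p Ω) = xx p Ω := gal_xx g
  rw [h2] at h1
  change eval₂ (kF p Ω).subtype (xx p Ω) (P.map (rl1_gk p Ω g)) = _
  rw [eval₂_map]
  exact h1.symm

theorem rl1_min (y : Ω) (h : ∃ P Q : (kF p Ω)[X], Q ≠ 0 ∧ y * inck p Ω Q = inck p Ω P) :
    ∃ P Q : (kF p Ω)[X], Q ≠ 0 ∧ y * inck p Ω Q = inck p Ω P ∧
      ∀ g : GG p Ω, g y = y → P.map (rl1_gk p Ω g) = P ∧ Q.map (rl1_gk p Ω g) = Q := by
  classical
  have norm : ∀ P Q : (kF p Ω)[X], Q ≠ 0 → y * inck p Ω Q = inck p Ω P →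
      ∃ Q' P' : (kF p Ω)[X], Q'.Monic ∧ Q'.natDegree = Q.natDegree ∧
        y * inck p Ω Q' = inck p Ω P' := by
    intro P Q hQ h
    refine ⟨Q * C Q.leadingCoeff⁻¹, P * C Q.leadingCoeff⁻¹, monic_mul_leadingCoeff_inv hQ, ?_, ?_⟩
    · exact natDegree_mul_leadingCoeff_inv Q hQ
    · rw [map_mul, map_mul, ← mul_assoc, h]
  have hex : ∃ n : ℕ, ∃ Q P : (kF p Ω)[X], Q.Monic ∧ Q.natDegree = n ∧
      y * inck p Ω Q = inck p Ω P := by
    obtain ⟨P, Q, hQ, h⟩ := h
    obtain ⟨Q', P', h1, h2, h3⟩ := norm P Q hQ h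
    exact ⟨_, Q', P', h1, rfl, h3⟩
  obtain ⟨Q, P, hQ, hn, hPQ⟩ := Nat.find_spec hex
  have hmin : ∀ P' Q' : (kF p Ω)[X], y * inck p Ω Q' = inck p Ω P' →
      Q'.degree < Q.degree → Q' = 0 := by
    intro P' Q' h' hd
    by_contra h0
    obtain ⟨Q2, P2, h1, h2, h3⟩ := norm P' Q' h0 h'
    have hlt : Q'.natDegree < Nat.find hex := by
      rw [← hn]
      exact natDegree_lt_natDegree h0 hd
    exact Nat.find_min hex hlt ⟨Q2, P2, h1, h2, h3⟩
  refine ⟨P, Q, hQ.ne_zero, hPQ, ?_⟩
  intro g hg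
  have h1 : y * inck p Ω (Q.map (rl1_gk p Ω g)) = inck p Ω (P.map (rl1_gk p Ω g)) := by
    rw [rl1_map, rl1_map, ← hPQ, map_mul, hg]
  have h2 : Q - Q.map (rl1_gk p Ω g) = 0 := by
    apply hmin (P - P.map (rl1_gk p Ω g))
    · rw [map_sub, map_sub, mul_sub, hPQ, h1]
    · apply degree_sub_lt_left
      · rw [hQ.degree_map]
      · exact hQ.ne_zero
      · rw [hQ.leadingCoeff, (hQ.map _).leadingCoeff]
  have h3 : Q.map (rl1_gk p Ω g) = Q := (sub_eq_zero.1 h2).symm
  refine ⟨?_, h3⟩
  apply F1c p Ω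
  rw [← h1, h3, hPQ]

omit [FiniteDimensional (RatFunc (ZMod p)) L] [Algebra (ZMod p)[X] L]
  [IsScalarTower (ZMod p)[X] (RatFunc (ZMod p)) L] in
theorem rl1_range (c : Ω) (hc : ∀ h : GG p Ω,
    AlgEquiv.restrictNormalHom (F := RatFunc (ZMod p)) L h = 1 → h c = c) :
    ∃ x : L, algebraMap L Ω x = c := by
  have : IsSepClosure (RatFunc (ZMod p)) Ω := ⟨inferInstance, inferInstance⟩
  have : IsGalois (RatFunc (ZMod p)) Ω := inferInstance
  have h1 : c ∈ (IsScalarTower.toAlgHom (RatFunc (ZMod p)) L Ω).fieldRange := by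
    rw [← InfiniteGalois.fixedField_fixingSubgroup
      ((IsScalarTower.toAlgHom (RatFunc (ZMod p)) L Ω).fieldRange),
      IntermediateField.mem_fixedField_iff]
    intro g hg
    apply hc
    rw [IntermediateField.mem_fixingSubgroup_iff] at hg
    apply AlgEquiv.ext
    intro x
    apply (algebraMap L Ω).injective
    rw [rl1_comm]
    exact hg _ ⟨x, rfl⟩
  obtain ⟨x, hx⟩ := h1
  exact ⟨x, hx⟩

/-- the subgroup of the geometric elements -/
def rl1_geo : Subgroup (GG p Ω) where
  carrier := {g | Geo g}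
  mul_mem' := fun h1 h2 => h1.mul h2
  one_mem' := fun _ _ => rfl
  inv_mem' := fun h => h.inv

omit [Algebra (ZMod p)[X] L] [IsScalarTower (ZMod p)[X] (RatFunc (ZMod p)) L] in
theorem rl1_pel (σ : L ≃ₐ[RatFunc (ZMod p)] L)
    (hσ : ∀ (a : L) (s : ℕ), 0 < s → a ^ p ^ s = a → σ a = a) :
    ∃ g : GG p Ω, Geo g ∧ AlgEquiv.restrictNormalHom (F := RatFunc (ZMod p)) L g = σ := by
  have hs1 : IsSepClosure (RatFunc (ZMod p)) Ω := ⟨inferInstance, inferInstance⟩
  have hs2 : IsGalois (RatFunc (ZMod p)) Ω := inferInstance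
  have key : σ ∈ (rl1_geo p Ω).map (AlgEquiv.restrictNormalHom (F := RatFunc (ZMod p)) L) := by
    rw [← IntermediateField.fixingSubgroup_fixedField
      ((rl1_geo p Ω).map (AlgEquiv.restrictNormalHom (F := RatFunc (ZMod p)) L)),
      IntermediateField.mem_fixingSubgroup_iff]
    intro y hy
    rw [IntermediateField.mem_fixedField_iff] at hy
    have h1 : ∀ g : GG p Ω, Geo g → g (algebraMap L Ω y) = algebraMap L Ω y := by
      intro g hg
      rw [← rl1_comm, hy _ ⟨g, hg, rfl⟩]
    obtain ⟨P, Q, hQ, hPQ, hmin⟩ := rl1_min p Ω _ (F11b p Ω _ h1)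
    obtain ⟨g, hg⟩ := AlgEquiv.restrictNormalHom_surjective (F := RatFunc (ZMod p)) (K₁ := L) Ω σ
    -- coefficients
    have hcoef : ∀ R : (kF p Ω)[X], (∀ h : GG p Ω, h (algebraMap L Ω y) = algebraMap L Ω y →
        R.map (rl1_gk p Ω h) = R) → R.map (rl1_gk p Ω g) = R := by
      intro R hR
      ext i
      rw [coeff_map]
      change g (R.coeff i) = R.coeff i
      obtain ⟨x, hx⟩ := rl1_range p Ω L (R.coeff i : Ω) (by
        intro h hh
        have h2 : h (algebraMap L Ω y) = algebraMap L Ω y := by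
          rw [← rl1_comm, hh]
          rfl
        have h3 := congrArg (fun S : (kF p Ω)[X] => ((S.coeff i : kF p Ω) : Ω)) (hR h h2)
        simp only [coeff_map] at h3
        exact h3)
      obtain ⟨s, hs, hsp⟩ := (R.coeff i).2
      have h4 : x ^ p ^ s = x := by
        apply (algebraMap L Ω).injective
        rw [map_pow, hx]
        exact hsp
      rw [← hx, ← rl1_comm, hg, hσ x s hs h4]
    have hPg := hcoef P fun h hh => (hmin h hh).1
    have hQg := hcoef Q fun h hh => (hmin h hh).2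
    have h5 : g (algebraMap L Ω y) * inck p Ω Q = algebraMap L Ω y * inck p Ω Q := by
      have e1 : g (inck p Ω Q) = inck p Ω Q := by rw [← rl1_map, hQg]
      have e2 : g (inck p Ω P) = inck p Ω P := by rw [← rl1_map, hPg]
      rw [hPQ, ← e2, ← hPQ, map_mul, e1]
    have h6 : inck p Ω Q ≠ 0 := by
      intro h0
      exact hQ (F1c p Ω (by rw [h0, map_zero]))
    have h7 := mul_right_cancel₀ h6 h5
    apply (algebraMap L Ω).injective
    rw [← hg, rl1_comm, h7]
  obtain ⟨g, hg, h⟩ := key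
  exact ⟨g, hg, h⟩

end ext

theorem RL1 (G : Type) [Group G] [Finite G] (h : RealAff p G) : R p Ω G := by
  obtain ⟨L, _, _, _, _, _, _, ⟨e⟩, hun, hconst⟩ := h
  have hs1 : IsSepClosure (RatFunc (ZMod p)) Ω := ⟨inferInstance, inferInstance⟩
  have hs2 : IsGalois (RatFunc (ZMod p)) Ω := inferInstance
  let ι : L →ₐ[RatFunc (ZMod p)] Ω := IsSepClosed.lift
  let _ : Algebra L Ω := ι.toRingHom.toAlgebra
  have : IsScalarTower (RatFunc (ZMod p)) L Ω :=
    IsScalarTower.of_algebraMap_eq' ι.comp_algebraMap.symm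
  refine ⟨e.toMonoidHom.comp (AlgEquiv.restrictNormalHom (F := RatFunc (ZMod p)) L), ?_⟩
  refine ⟨⟨?_, ?_⟩, ?_, ?_⟩
  · obtain ⟨T, hT⟩ := rl1_fin p Ω L
    refine ⟨T, fun g hg => ?_⟩
    rw [MonoidHom.comp_apply, hT g hg, map_one]
  · intro g hg
    rw [MonoidHom.comp_apply, rl1_inert p Ω L hun g hg, map_one]
  · exact e.surjective.comp (AlgEquiv.restrictNormalHom_surjective Ω)
  · rintro a ⟨r, hr⟩
    have h1 : (e.symm a) ^ p ^ r = 1 := by rw [← map_pow, hr, map_one]
    obtain ⟨g, hg, h2⟩ := rl1_pel p Ω L (e.symm a) (hconst _ ⟨r, h1⟩)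
    refine ⟨g, hg, ?_⟩
    rw [MonoidHom.comp_apply, h2]
    exact e.apply_symm_apply a

end Pool.Agent.QPC
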