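import Mathlib
import Pool.Agent.QPC.Defs
import Pool.Agent.QPC.Defs5
import Pool.Agent.QPC.F7

/-!
# QPC row RL2: from `R` to the literal notion
Plan. Exactly the construction of `F7` (see the proof in Pool/Agent/QPC/F7.lean: `L` = fixed field of `ker ρ`, iso `Gal(L) ≃* G` induced by `ρ`), with the additional fact: `σ` of `p`-power order corresponds to `a ∈ G` of `p`-power order, `a = ρ g` with `g` geometric (`Rho.pel`), and `σ = g` restricted to `L` (by the construction of the isomorphism), so `σ` fixes every `a ∈ L` with `a^(p^s) = a`. (Copy the proof of `F7` and add the last component, helper lemmas of F7.lean may be used.)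
-/

set_option autoImplicit false

namespace Pool.Agent.QPC

open Polynomial

variable (p : ℕ) [Fact p.Prime] (Ω : Type) [Field Ω] [Algebra (RatFunc (ZMod p)) Ω]
  [IsSepClosed Ω] [Algebra.IsSeparable (RatFunc (ZMod p)) Ω]

theorem RL2 (G : Type) [Group G] [Finite G] (h : R p Ω G) : RealAff p G := by
  obtain ⟨ρ, hR⟩ := h
  have hρ := hR.toAd
  have hs := hR.surj
  have hpel := hR.pel
  have : IsSepClosure (RatFunc (ZMod p)) Ω := ⟨inferInstance, inferInstance⟩
  have : IsGalois (RatFunc (ZMod p)) Ω := inferInstance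
  obtain ⟨T, hT⟩ := hρ.fin
  have hE : FiniteDimensional (RatFunc (ZMod p))
      (IntermediateField.adjoin (RatFunc (ZMod p)) (T : Set Ω)) :=
    IntermediateField.finiteDimensional_adjoin fun t _ =>
      (Algebra.IsSeparable.isSeparable (RatFunc (ZMod p)) t).isIntegral
  have hle : (IntermediateField.adjoin (RatFunc (ZMod p)) (T : Set Ω)).fixingSubgroup ≤ ρ.ker := by
    intro g hg
    rw [MonoidHom.mem_ker]
    apply hT
    intro t ht
    rw [IntermediateField.mem_fixingSubgroup_iff] at hg
    exact hg t (IntermediateField.subset_adjoin _ _ ht)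
  have hopen : IsOpen (ρ.ker : Set (GG p Ω)) :=
    Subgroup.isOpen_mono hle (IntermediateField.fixingSubgroup_isOpen _)
  have hclosed : IsClosed (ρ.ker : Set (GG p Ω)) := Subgroup.isClosed_of_isOpen _ hopen
  obtain ⟨L, hL⟩ : ∃ L : IntermediateField (RatFunc (ZMod p)) Ω,
    L = IntermediateField.fixedField ρ.ker := ⟨_, rfl⟩
  have hfix : L.fixingSubgroup = ρ.ker := by
    rw [hL]
    exact InfiniteGalois.fixingSubgroup_fixedField ⟨ρ.ker, hclosed⟩
  obtain ⟨hfin, hgal⟩ := (InfiniteGalois.isOpen_and_normal_iff_finite_and_isGalois L).mp (by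
    constructor
    · rw [hfix]; exact hopen
    · rw [hfix]; exact MonoidHom.normal_ker ρ)
  have hiso : Nonempty ((L ≃ₐ[RatFunc (ZMod p)] L) ≃* G) := by
    have : (⟨ρ.ker, hclosed⟩ : ClosedSubgroup (GG p Ω)).Normal := MonoidHom.normal_ker ρ
    subst hL
    exact ⟨(InfiniteGalois.normalAutEquivQuotient ⟨ρ.ker, hclosed⟩).symm.trans
      (QuotientGroup.quotientKerEquivOfSurjective ρ hs)⟩
  let algL : Algebra (Polynomial (ZMod p)) L :=
    ((algebraMap (RatFunc (ZMod p)) L).comp (algebraMap (Polynomial (ZMod p))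
      (RatFunc (ZMod p)))).toAlgebra
  have tow : IsScalarTower (Polynomial (ZMod p)) (RatFunc (ZMod p)) L :=
    IsScalarTower.of_algebraMap_eq' rfl
  have hconst : ∀ σ : L ≃ₐ[RatFunc (ZMod p)] L, (∃ r : ℕ, σ ^ p ^ r = 1) →
      ∀ (a : L) (s : ℕ), 0 < s → a ^ p ^ s = a → σ a = a := by
    rintro σ ⟨r, hr⟩ a s hs' ha
    obtain ⟨g, hgσ⟩ := AlgEquiv.restrictNormalHom_surjective (F := RatFunc (ZMod p)) (K₁ := L)
      Ω σ
    have hcomm : ∀ (h : GG p Ω) (z : L),
        ((AlgEquiv.restrictNormalHom (F := RatFunc (ZMod p)) L h z : L) : Ω) = h (z : Ω) :=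
      fun h z => AlgEquiv.restrictNormal_commutes h L z
    have hker : ∀ h : GG p Ω, AlgEquiv.restrictNormalHom (F := RatFunc (ZMod p)) L h = 1 →
        ρ h = 1 := by
      intro h hh
      have h2 : h ∈ L.fixingSubgroup := by
        rw [IntermediateField.mem_fixingSubgroup_iff]
        intro z hz
        have := hcomm h ⟨z, hz⟩
        rw [hh] at this
        exact this.symm
      rw [hfix] at h2
      exact h2
    have h1 : ρ g ^ p ^ r = 1 := by
      rw [← map_pow]
      apply hker
      rw [map_pow, hgσ, hr]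
    obtain ⟨g', hg', hρg⟩ := hpel (ρ g) ⟨r, h1⟩
    have h3 : g'⁻¹ * g ∈ L.fixingSubgroup := by
      rw [hfix, MonoidHom.mem_ker, map_mul, map_inv, hρg, inv_mul_cancel]
    rw [IntermediateField.mem_fixingSubgroup_iff] at h3
    have h4 : (g'⁻¹ * g) (a : Ω) = (a : Ω) := h3 a a.2
    have h5 : g (a : Ω) = g' (a : Ω) := by
      have h6 := congrArg g' h4
      have h7 : g' ((g'⁻¹ * g) (a : Ω)) = g (a : Ω) := by
        change (g' * (g'⁻¹ * g)) (a : Ω) = _
        rw [mul_inv_cancel_left]
      rw [h7] at h6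
      exact h6
    have h8 : (a : Ω) ∈ kk p Ω := ⟨s, hs', by
      have := congrArg (fun z : L => (z : Ω)) ha
      exact this⟩
    apply Subtype.ext
    rw [← hgσ, hcomm, h5, hg' _ h8]
  refine ⟨L, inferInstance, inferInstance, algL, tow, hfin, hgal, hiso, ?_, hconst⟩
  obtain ⟨N, x, y, hx, hy, hxy, hg⟩ := F5 p Ω ρ hρ
  have hmem : ∀ z ∈ Zf p Ω ρ, z ∈ L := by
    intro z hz
    rw [hL, IntermediateField.mem_fixedField_iff]
    intro g hg
    exact hz.2 g hg
  have hint : ∀ (z : Ω) (hz : z ∈ Zf p Ω ρ),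
      (⟨z, hmem z hz⟩ : L) ∈ integralClosure (Polynomial (ZMod p)) L := by
    intro z hz
    obtain ⟨P, hP, hPz⟩ := hz.1
    refine ⟨P, hP, ?_⟩
    apply (algebraMap L Ω).injective
    rw [Polynomial.hom_eval₂, map_zero]
    exact hPz
  have hB : Algebra.FormallyUnramified (Polynomial (ZMod p))
      (integralClosure (Polynomial (ZMod p)) L) := by
    refine f7_gal (Polynomial (ZMod p)) (RatFunc (ZMod p)) L
      (fun i => ⟨⟨x i, hmem _ (hx i)⟩, hint _ (hx i)⟩)
      (fun i => ⟨⟨y i, hmem _ (hy i)⟩, hint _ (hy i)⟩) ?_ ?_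
    · apply Subtype.ext
      rw [AddSubmonoidClass.coe_finsetSum]
      exact hxy
    · intro σ hσ
      obtain ⟨g, hgσ⟩ := AlgEquiv.restrictNormalHom_surjective (F := RatFunc (ZMod p)) (K₁ := L)
        Ω σ
      have hcomm : ∀ z : L, ((σ z : L) : Ω) = g (z : Ω) := by
        intro z
        rw [← hgσ]
        exact AlgEquiv.restrictNormal_commutes g L z
      have hgne : ρ g ≠ 1 := by
        intro h1
        apply hσ
        ext z
        rw [hcomm]
        have h2 : g ∈ L.fixingSubgroup := by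
          rw [hfix]
          exact h1
        rw [IntermediateField.mem_fixingSubgroup_iff] at h2
        exact h2 z z.2
      apply Subtype.ext
      rw [AddSubmonoidClass.coe_finsetSum]
      refine (Finset.sum_congr rfl fun i _ => ?_).trans (hg g hgne)
      change x i * ((σ (⟨y i, hmem _ (hy i)⟩ : L) : L) : Ω) = _
      rw [hcomm]
  intro q hq
  exact Algebra.formallyUnramified_iff_forall.mp hB ⟨q, hq⟩


end Pool.Agent.QPC
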